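import Mathlib

/-!
# The Siciak-Zaharjuta extremal function of the closed unit disc (helper103)
-/

set_option autoImplicit false

open MeasureTheory Filter Topology Set ComplexConjugate Real

namespace Pool.Agent.X103.Siciak

/-- Subharmonic functions on `ℂ` with values in `[-∞, ∞)`: upper semicontinuous functions that
satisfy the sub-mean value inequality on every circle. Since an upper semicontinuous function is on
the (compact) circle the infimum of the continuous functions above it, its mean is the infimum of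
the means of these functions. -/
structure Subh (u : ℂ → EReal) : Prop where
  usc : UpperSemicontinuous u
  lt_top : ∀ z, u z < ⊤
  mean : ∀ (z : ℂ) (r : ℝ), 0 < r → ∀ h : ℂ → ℝ, Continuous h →
    (∀ w ∈ Metric.sphere z r, u w ≤ (h w : EReal)) → u z ≤ ((circleAverage h z r : ℝ) : EReal)

/-- The competitors in the definition of the extremal function of `K`. -/
structure Comp (K : Set ℂ) (u : ℂ → EReal) : Prop where
  subh : Subh u
  growth : ∃ C : ℝ, ∀ z, u z ≤ ((log⁺ ‖z‖ + C : ℝ) : EReal)
  nonpos : ∀ z ∈ K, u z ≤ 0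

/-- The Siciak-Zaharjuta extremal function of `K`. -/
noncomputable def VK (K : Set ℂ) (z : ℂ) : EReal := sSup {x | ∃ u, Comp K u ∧ x = u z}

lemma cont_pl : Continuous (fun z : ℂ => log⁺ ‖z‖) := Real.continuous_posLog.comp continuous_norm

lemma ci {h : ℂ → ℝ} (hh : Continuous h) (z : ℂ) (r : ℝ) : CircleIntegrable h z r :=
  (hh.comp (continuous_circleMap z r)).intervalIntegrable _ _

lemma avg_log {z : ℂ} {r : ℝ} (hr : 0 < r) :
    circleAverage (fun w => Real.log ‖w‖) z r = Real.log r + log⁺ (r⁻¹ * ‖z‖) := by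
  have h := circleAverage_log_norm_sub_const_eq_log_radius_add_posLog (a := 0) (c := z) hr.ne'
  simpa using h

lemma ci_log (z : ℂ) (r : ℝ) : CircleIntegrable (fun w => Real.log ‖w‖) z r := by
  have h := circleIntegrable_log_norm_sub_const (a := 0) (c := z) r
  simpa using h

lemma pl_subh : Subh (fun z => ((log⁺ ‖z‖ : ℝ) : EReal)) := by
  refine ⟨?_, fun z => EReal.coe_lt_top _, ?_⟩
  · exact (continuous_coe_real_ereal.comp cont_pl).upperSemicontinuous
  · intro z r hr h hh hle
    have hle' : ∀ w ∈ Metric.sphere z |r|, log⁺ ‖w‖ ≤ h w := by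
      intro w hw
      rw [abs_of_pos hr] at hw
      exact_mod_cast hle w hw
    have h1 : circleAverage (fun z : ℂ => log⁺ ‖z‖) z r ≤ circleAverage h z r :=
      circleAverage_mono (ci cont_pl z r) (ci hh z r) hle'
    have h2 : log⁺ ‖z‖ ≤ circleAverage (fun z : ℂ => log⁺ ‖z‖) z r := by
      rcases le_or_gt ‖z‖ 1 with hz | hz
      · have : log⁺ ‖z‖ = 0 := by
          rw [Real.posLog_eq_zero_iff, abs_of_nonneg (norm_nonneg _)]; exact hz
        rw [this]
        exact circleAverage_nonneg_of_nonneg fun w _ => Real.posLog_nonneg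
      · have h3 : circleAverage (fun w => Real.log ‖w‖) z r
            ≤ circleAverage (fun z : ℂ => log⁺ ‖z‖) z r :=
          circleAverage_mono (ci_log z r) (ci cont_pl z r) fun w _ => le_max_right _ _
        refine le_trans ?_ h3
        rw [avg_log hr]
        have h4 : Real.log (r⁻¹ * ‖z‖) ≤ log⁺ (r⁻¹ * ‖z‖) := le_max_right _ _
        rw [Real.log_mul (by positivity) (by positivity), Real.log_inv] at h4
        rw [Real.posLog_eq_log (by rw [abs_of_nonneg (norm_nonneg _)]; exact hz.le)]
        linarith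
    exact_mod_cast h2.trans h1

lemma avg_sq (z : ℂ) (r : ℝ) : circleAverage (fun w => ‖w‖ ^ 2) z r = ‖z‖ ^ 2 + r ^ 2 := by
  have hpi := Real.pi_pos
  rw [circleAverage_def]
  have h1 : ∀ θ : ℝ, ‖circleMap z r θ‖ ^ 2
      = (‖z‖ ^ 2 + r ^ 2) + (2 * r * z.re * Real.cos θ + 2 * r * z.im * Real.sin θ) := by
    intro θ
    rw [circleMap, Complex.exp_mul_I, ← Complex.ofReal_cos, ← Complex.ofReal_sin,
      ← Complex.normSq_eq_norm_sq, ← Complex.normSq_eq_norm_sq, Complex.normSq_apply,
      Complex.normSq_apply]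
    simp only [Complex.add_re, Complex.add_im, Complex.mul_re, Complex.mul_im, Complex.ofReal_re,
      Complex.ofReal_im, Complex.I_re, Complex.I_im]
    have := Real.cos_sq_add_sin_sq θ
    linear_combination (r ^ 2) * this
  simp_rw [h1]
  have hc : ∀ a : ℝ, IntervalIntegrable (fun θ : ℝ => a * Real.cos θ) volume 0 (2 * Real.pi) :=
    fun a => (continuous_const.mul Real.continuous_cos).intervalIntegrable _ _
  have hs : ∀ a : ℝ, IntervalIntegrable (fun θ : ℝ => a * Real.sin θ) volume 0 (2 * Real.pi) :=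
    fun a => (continuous_const.mul Real.continuous_sin).intervalIntegrable _ _
  rw [intervalIntegral.integral_add intervalIntegrable_const ((hc _).add (hs _)),
    intervalIntegral.integral_add (hc _) (hs _), intervalIntegral.integral_const_mul,
    intervalIntegral.integral_const_mul, integral_cos, integral_sin]
  simp
  field_simp

/-- The maximum principle on an annulus. -/
lemma upper_aux {u : ℂ → EReal} (hu : Comp (Metric.closedBall 0 1) u) {z₀ : ℂ} (hz₀ : 1 < ‖z₀‖)
    {ε : ℝ} (hε : 0 < ε) : u z₀ ≤ (((1 + ε) * Real.log ‖z₀‖ + ε : ℝ) : EReal) := by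
  obtain ⟨C, hC⟩ := hu.growth
  obtain ⟨R, hR1, hR0, hRC⟩ : ∃ R : ℝ, 1 < R ∧ ‖z₀‖ < R ∧ C ≤ ε * Real.log R := by
    have h1 : Tendsto (fun R : ℝ => ε * Real.log R) atTop atTop :=
      Real.tendsto_log_atTop.const_mul_atTop hε
    have h2 := ((eventually_gt_atTop (1 : ℝ)).and ((eventually_gt_atTop ‖z₀‖).and
      (h1.eventually_ge_atTop C))).exists
    obtain ⟨R, a, b, c⟩ := h2
    exact ⟨R, a, b, c⟩
  have hRpos : 0 < R := one_pos.trans hR1
  set η : ℝ := ε / R ^ 2 with hη
  have hη0 : 0 < η := by positivity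
  have hηR : η * R ^ 2 = ε := by rw [hη]; field_simp
  have hη1 : η ≤ ε := by
    rw [hη]
    exact div_le_self hε.le (by nlinarith)
  -- the comparison function
  set g : ℂ → ℝ := fun z => (1 + ε) * log⁺ ‖z‖ - η * ‖z‖ ^ 2 with hg
  have hgc : Continuous g := by
    have := cont_pl
    rw [hg]
    fun_prop
  set A : Set ℂ := {z | 1 ≤ ‖z‖ ∧ ‖z‖ ≤ R} with hA
  have hAc : IsCompact A := by
    refine (isCompact_closedBall (0 : ℂ) R).of_isClosed_subset ?_ ?_
    · exact (isClosed_le continuous_const continuous_norm).inter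
        (isClosed_le continuous_norm continuous_const)
    · intro z hz
      rw [mem_closedBall_zero_iff]; exact hz.2
  have hz₀A : z₀ ∈ A := ⟨hz₀.le, hR0.le⟩
  set w : ℂ → EReal := fun z => u z + ((-g z : ℝ) : EReal) with hw
  have hwusc : UpperSemicontinuous w := by
    refine UpperSemicontinuous.add' hu.subh.usc
      (continuous_coe_real_ereal.comp hgc.neg).upperSemicontinuous fun z => ?_
    exact EReal.continuousAt_add (Or.inl (hu.subh.lt_top z).ne) (Or.inr (EReal.coe_ne_top _))
  obtain ⟨z₁, hz₁A, hmax⟩ := UpperSemicontinuousOn.exists_isMaxOn ⟨z₀, hz₀A⟩ hAc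
    (hwusc.upperSemicontinuousOn _)
  -- from a bound for `w` to a bound for `u`
  have back : ∀ (z : ℂ) (m : ℝ), w z ≤ (m : EReal) → u z ≤ ((m + g z : ℝ) : EReal) := by
    intro z m h
    have h1 : w z + ((g z : ℝ) : EReal) ≤ (m : EReal) + ((g z : ℝ) : EReal) :=
      add_le_add_left h _
    have h2 : w z + ((g z : ℝ) : EReal) = u z := by
      rw [hw]
      simp only
      rw [add_assoc, ← EReal.coe_add, neg_add_cancel, EReal.coe_zero, add_zero]
    rw [h2, ← EReal.coe_add] at h1
    exact h1
  have forth : ∀ (z : ℂ) (m : ℝ), u z ≤ ((m + g z : ℝ) : EReal) → w z ≤ (m : EReal) := by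
    intro z m h
    have h1 : u z + ((-g z : ℝ) : EReal) ≤ ((m + g z : ℝ) : EReal) + ((-g z : ℝ) : EReal) :=
      add_le_add_left h _
    rw [← EReal.coe_add] at h1
    have h2 : m + g z + -g z = m := by ring
    rw [h2] at h1
    exact h1
  have goal : w z₁ ≤ (ε : EReal) := by
    by_contra hcon
    rw [not_le] at hcon
    -- the maximum point is interior
    have hi1 : 1 < ‖z₁‖ := by
      refine lt_of_le_of_ne hz₁A.1 fun h => ?_
      refine absurd hcon (not_lt.2 (forth _ _ ?_))
      refine (hu.nonpos z₁ (by rw [mem_closedBall_zero_iff]; exact h.ge)).trans ?_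
      have hg1 : 0 ≤ ε + g z₁ := by
        have : g z₁ = -η := by
          rw [hg]; simp only
          rw [← h]; simp
        rw [this]; linarith
      exact_mod_cast hg1
    have hi2 : ‖z₁‖ < R := by
      refine lt_of_le_of_ne hz₁A.2 fun h => ?_
      refine absurd hcon (not_lt.2 (forth _ _ ?_))
      refine (hC z₁).trans ?_
      have hg1 : log⁺ ‖z₁‖ + C ≤ ε + g z₁ := by
        have h2 : log⁺ ‖z₁‖ = Real.log R := by
          rw [h, Real.posLog_eq_log (by rw [abs_of_pos hRpos]; exact hR1.le)]
        rw [hg]; simp only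
        rw [h2, h, hηR]; linarith
      exact_mod_cast hg1
    have hwtop : w z₁ ≠ ⊤ := by
      rw [hw]; simp only
      exact (EReal.add_lt_top (hu.subh.lt_top z₁).ne (EReal.coe_ne_top _)).ne
    have hwbot : w z₁ ≠ ⊥ := ne_bot_of_gt hcon
    lift w z₁ to ℝ using ⟨hwtop, hwbot⟩ with m hm
    -- a small circle
    obtain ⟨r, hr0, hr1, hr2⟩ : ∃ r : ℝ, 0 < r ∧ r ≤ ‖z₁‖ - 1 ∧ r ≤ R - ‖z₁‖ :=
      ⟨min (‖z₁‖ - 1) (R - ‖z₁‖), lt_min (by linarith) (by linarith), min_le_left _ _,
        min_le_right _ _⟩
    have hcirc : ∀ y ∈ Metric.sphere z₁ r, y ∈ A := by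
      intro y hy
      rw [mem_sphere_iff_norm] at hy
      constructor
      · have := norm_sub_norm_le z₁ y
        rw [norm_sub_rev] at this; linarith
      · have := norm_sub_norm_le y z₁
        linarith
    have hle : ∀ y ∈ Metric.sphere z₁ r, u y ≤ ((m + g y : ℝ) : EReal) := by
      intro y hy
      refine back y m ?_
      have h5 := hmax (hcirc y hy)
      rw [mem_ofPred_eq] at h5
      rw [hm]; exact h5
    have h6 := hu.subh.mean z₁ r hr0 (fun y => m + g y) (by fun_prop) hle
    -- the mean of `g`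
    have h7 : circleAverage (fun y => m + g y) z₁ r = m + g z₁ - η * r ^ 2 := by
      have e1 : circleAverage (fun y => m + g y) z₁ r
          = circleAverage (fun y => (m + (1 + ε) * Real.log ‖y‖) - η * ‖y‖ ^ 2) z₁ r := by
        refine circleAverage_congr_sphere fun y hy => ?_
        rw [abs_of_pos hr0] at hy
        have h8 := (hcirc y hy).1
        rw [hg]; simp only
        rw [Real.posLog_eq_log (by rw [abs_of_nonneg (norm_nonneg _)]; exact h8)]
        ring
      have i1 : CircleIntegrable (fun y => (1 + ε) * Real.log ‖y‖) z₁ r :=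
        (ci_log z₁ r).const_mul _
      have i2 : CircleIntegrable (fun y : ℂ => η * ‖y‖ ^ 2) z₁ r := ci (by fun_prop) _ _
      have i0 : CircleIntegrable (fun _ : ℂ => m) z₁ r := ci (by fun_prop) _ _
      have i01 : CircleIntegrable (fun y => m + (1 + ε) * Real.log ‖y‖) z₁ r := i0.add i1
      rw [e1, circleAverage_fun_sub i01 i2, circleAverage_fun_add i0 i1, circleAverage_const]
      have e2 : circleAverage (fun y => (1 + ε) * Real.log ‖y‖) z₁ r
          = (1 + ε) * circleAverage (fun y => Real.log ‖y‖) z₁ r := by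
        have := circleAverage_fun_smul (a := (1 + ε)) (f := fun y : ℂ => Real.log ‖y‖) (c := z₁)
          (R := r)
        simpa [smul_eq_mul] using this
      have e3 : circleAverage (fun y : ℂ => η * ‖y‖ ^ 2) z₁ r
          = η * circleAverage (fun y : ℂ => ‖y‖ ^ 2) z₁ r := by
        have := circleAverage_fun_smul (a := η) (f := fun y : ℂ => ‖y‖ ^ 2) (c := z₁)
          (R := r)
        simpa [smul_eq_mul] using this
      have e4 : log⁺ (r⁻¹ * ‖z₁‖) = Real.log ‖z₁‖ - Real.log r := by
        have h9 : 1 ≤ r⁻¹ * ‖z₁‖ := by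
          rw [← div_eq_inv_mul, le_div_iff₀ hr0]; linarith
        rw [Real.posLog_eq_log (by rw [abs_of_pos (by positivity)]; exact h9),
          Real.log_mul (by positivity) (by positivity), Real.log_inv]
        ring
      rw [e2, e3, avg_log hr0, avg_sq, e4, hg]
      simp only
      rw [Real.posLog_eq_log (by rw [abs_of_nonneg (norm_nonneg _)]; exact hi1.le)]
      ring
    rw [h7] at h6
    have h10 := forth z₁ (m - η * r ^ 2) (h6.trans (by
      rw [show m + g z₁ - η * r ^ 2 = m - η * r ^ 2 + g z₁ by ring]))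
    rw [← hm] at h10
    have h11 : m ≤ m - η * r ^ 2 := by exact_mod_cast h10
    have : 0 < η * r ^ 2 := by positivity
    linarith
  have h12 : w z₀ ≤ (ε : EReal) := by
    have h13 := hmax hz₀A
    exact le_trans h13 goal
  refine (back z₀ ε h12).trans ?_
  have h14 : ε + g z₀ ≤ (1 + ε) * Real.log ‖z₀‖ + ε := by
    rw [hg]; simp only
    rw [Real.posLog_eq_log (by rw [abs_of_nonneg (norm_nonneg _)]; exact hz₀.le)]
    have : 0 ≤ η * ‖z₀‖ ^ 2 := by positivity
    linarith
  exact_mod_cast h14

/-- The extremal function of the closed unit disc. -/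
theorem VK_disc (z : ℂ) : VK (Metric.closedBall 0 1) z = ((log⁺ ‖z‖ : ℝ) : EReal) := by
  apply le_antisymm
  · refine sSup_le ?_
    rintro x ⟨u, hu, rfl⟩
    rcases le_or_gt ‖z‖ 1 with hz | hz
    · have : log⁺ ‖z‖ = 0 := by
        rw [Real.posLog_eq_zero_iff, abs_of_nonneg (norm_nonneg _)]; exact hz
      rw [this, EReal.coe_zero]
      exact hu.nonpos z (by rw [mem_closedBall_zero_iff]; exact hz)
    · rw [Real.posLog_eq_log (by rw [abs_of_nonneg (norm_nonneg _)]; exact hz.le)]
      by_cases hbot : u z = ⊥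
      · rw [hbot]; exact bot_le
      have hx : ∃ x : ℝ, u z = (x : EReal) :=
        ⟨(u z).toReal, (EReal.coe_toReal (hu.subh.lt_top z).ne hbot).symm⟩
      obtain ⟨x, hx⟩ := hx
      rw [hx]
      have hL : 0 < Real.log ‖z‖ := Real.log_pos hz
      have key : x ≤ Real.log ‖z‖ := by
        refine le_of_forall_pos_le_add fun δ hδ => ?_
        have h1 := upper_aux hu hz (ε := δ / (Real.log ‖z‖ + 1)) (by positivity)
        rw [hx] at h1
        have h2 : x ≤ (1 + δ / (Real.log ‖z‖ + 1)) * Real.log ‖z‖ + δ / (Real.log ‖z‖ + 1) := by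
          exact_mod_cast h1
        have h3 : (1 + δ / (Real.log ‖z‖ + 1)) * Real.log ‖z‖ + δ / (Real.log ‖z‖ + 1)
            = Real.log ‖z‖ + δ := by
          field_simp; ring
        rw [h3] at h2; exact h2
      exact_mod_cast key
  · refine le_sSup ⟨_, ⟨pl_subh, ⟨0, fun z => ?_⟩, fun z hz => ?_⟩, rfl⟩
    · rw [add_zero]
    · have : log⁺ ‖z‖ = 0 := by
        rw [Real.posLog_eq_zero_iff, abs_of_nonneg (norm_nonneg _)]
        rw [mem_closedBall_zero_iff] at hz; exact hz
      simp only [this, EReal.coe_zero, le_refl]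

end Pool.Agent.X103.Siciak
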