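import Pool.Agent.X103.CmB

/-!
# Openness of the set of domains without solutions at bounded frequencies
-/

set_option autoImplicit false

open MeasureTheory Set Filter Topology Metric

noncomputable section

namespace Pool.Agent.X103.Cm

open Pool.Agent.X103.Nest Pool.Agent.TH298.Sch

theorem hat_at_zero' {E : Set ℂ} (hm : MeasurableSet E) (hb : Bornology.IsBounded E) :
    hat E 0 = ((volume E).toReal : ℂ) := by
  unfold hat
  rw [ex_ft hm (ci hb 1)]
  simp [Measure.real]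

theorem lam_lower {E : Set ℂ} (hm : MeasurableSet E) {R : ℝ} (hR : E ⊆ closedBall 0 R)
    {lam : ℝ} (hl : 0 < lam) (hS : Slv E lam) : 1 ≤ 2 * R * Real.sqrt lam := by
  have hpi := Real.pi_pos
  have hb : Bornology.IsBounded E := isBounded_closedBall.subset hR
  have hv : 0 < (volume E).toReal := by
    refine ENNReal.toReal_pos ?_ hb.measure_lt_top.ne
    intro h0
    obtain ⟨c, u, G, _, hu⟩ := hS
    apply hu
    rw [Measure.restrict_eq_zero.2 h0]
    exact ae_zero.symm ▸ Filter.mem_bot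
  have h1 := hat_zero hm hb hl hS (ξ := ((Real.sqrt lam / (2 * Real.pi) : ℝ) : ℂ)) (by
    rw [Complex.norm_real, Real.norm_of_nonneg (by positivity)]
    field_simp)
  have h2 := hat_lip hm hR ((Real.sqrt lam / (2 * Real.pi) : ℝ) : ℂ) 0
  rw [h1, hat_at_zero' hm hb, zero_sub, norm_neg, sub_zero, Complex.norm_real, Complex.norm_real,
    Real.norm_of_nonneg hv.le, Real.norm_of_nonneg (by positivity)] at h2
  have h3 : 4 * Real.pi * R * (volume E).toReal * (Real.sqrt lam / (2 * Real.pi)) =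
      (volume E).toReal * (2 * R * Real.sqrt lam) := by
    field_simp
    ring
  rw [h3] at h2
  exact le_of_mul_le_mul_left (by rwa [mul_one]) hv

theorem open_non {E0 : Set ℂ} (ha : Adm E0) {T : ℝ}
    (hT : ∀ lam : ℝ, 0 < lam → lam ≤ T → ¬ Slv E0 lam) (R : ℝ) :
    ∃ ε : ℝ, 0 < ε ∧ ∀ E : Set ℂ, MeasurableSet E → E ⊆ closedBall 0 R →
      volume (symmDiff E E0) < ENNReal.ofReal ε → ∀ lam : ℝ, 0 < lam → lam ≤ T → ¬ Slv E lam := by
  by_contra hh
  push Not at hh
  have h1 : ∀ n : ℕ, ∃ (E : Set ℂ) (lam : ℝ), MeasurableSet E ∧ E ⊆ closedBall 0 R ∧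
      volume (symmDiff E E0) < ENNReal.ofReal (1 / ((n : ℝ) + 1)) ∧ 0 < lam ∧ lam ≤ T ∧
      Slv E lam := by
    intro n
    obtain ⟨E, a1, a2, a3, lam, a4, a5, a6⟩ := hh (1 / ((n : ℝ) + 1)) (by positivity)
    exact ⟨E, lam, a1, a2, a3, a4, a5, a6⟩
  choose E lam hm hR hsd hl hlT hS using h1
  have hlow : ∀ n, 1 ≤ 2 * R * Real.sqrt (lam n) := fun n => lam_lower (hm n) (hR n) (hl n) (hS n)
  have hR0 : 0 < R := by
    have h2 := hlow 0
    by_contra hR0
    have : 2 * R * Real.sqrt (lam 0) ≤ 0 :=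
      mul_nonpos_of_nonpos_of_nonneg (by linarith [not_lt.1 hR0]) (Real.sqrt_nonneg _)
    linarith
  have hc : ∀ n, 1 / (4 * R ^ 2) ≤ lam n := by
    intro n
    have h2 := hlow n
    have h3 : (1 : ℝ) ≤ (2 * R * Real.sqrt (lam n)) ^ 2 := by nlinarith
    rw [mul_pow, Real.sq_sqrt (hl n).le] at h3
    rw [div_le_iff₀ (by positivity)]
    nlinarith
  obtain ⟨l0, hl0, φ, hφ, hlim⟩ := (isCompact_Icc (a := 1 / (4 * R ^ 2)) (b := T)).tendsto_subseq
    (fun n => ⟨hc n, hlT n⟩)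
  have hl0p : 0 < l0 := lt_of_lt_of_le (by positivity) hl0.1
  have hlim0 : Tendsto (fun n : ℕ => ENNReal.ofReal (1 / ((n : ℝ) + 1))) atTop (𝓝 0) := by
    have := (ENNReal.continuous_ofReal.tendsto 0).comp
      (tendsto_one_div_add_atTop_nhds_zero_nat (𝕜 := ℝ))
    simpa [Function.comp_def] using this
  have hsd0 : Tendsto (fun n => volume (symmDiff (E n) E0)) atTop (𝓝 0) :=
    tendsto_of_tendsto_of_tendsto_of_le_of_le tendsto_const_nhds hlim0 (fun n => zero_le)
      (fun n => (hsd n).le)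
  refine hT l0 hl0p hl0.2 ?_
  exact closed_meas (E := fun n => E (φ n)) (lam := fun n => lam (φ n)) hR0.le (fun n => hm _)
    (fun n => hR _) (fun n => hl _) (fun n => hS _) hlim ha (hsd0.comp hφ.tendsto_atTop)

end Pool.Agent.X103.Cm
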