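import Mathlib

/-! # Second derivatives along lines and the Laplacian (helper103) -/

namespace Pool.Agent.X103.Lap

open InnerProductSpace

variable {E : Type*} [NormedAddCommGroup E] [NormedSpace ℝ E]

/-- The second derivative of a `C²` function in direction `v` is read off along the line. -/
theorem iteratedFDeriv_two_line {f : E → ℝ} (hf : ContDiff ℝ 2 f) (x v : E) {g : ℝ → ℝ} {c : ℝ}
    (hg : ∀ t : ℝ, HasDerivAt (fun t : ℝ => f (x + t • v)) (g t) t) (hc : HasDerivAt g c 0) :
    iteratedFDeriv ℝ 2 f x ![v, v] = c := by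
  rw [iteratedFDeriv_two_apply]
  simp only [Matrix.cons_val_zero, Matrix.cons_val_one]
  have hd : Differentiable ℝ f := hf.differentiable (by norm_num)
  have hl : ∀ t : ℝ, HasDerivAt (fun t : ℝ => x + t • v) v t := fun t => by
    simpa using ((hasDerivAt_id t).smul_const v).const_add x
  have h1 : ∀ t : ℝ, fderiv ℝ f (x + t • v) v = g t := fun t =>
    ((hd (x + t • v)).hasFDerivAt.comp_hasDerivAt t (hl t)).unique (hg t)
  have hf' : ContDiff ℝ 1 (fderiv ℝ f) := hf.fderiv_right (by norm_num)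
  have hd' : Differentiable ℝ (fderiv ℝ f) := hf'.differentiable (by norm_num)
  have h2 : HasDerivAt (fun t : ℝ => fderiv ℝ f (x + t • v) v)
      (fderiv ℝ (fderiv ℝ f) x v v) 0 := by
    have h3 : HasFDerivAt (fderiv ℝ f) (fderiv ℝ (fderiv ℝ f) x) (x + (0:ℝ) • v) := by
      simpa using (hd' x).hasFDerivAt
    have h4 : HasDerivAt (fun t : ℝ => fderiv ℝ f (x + t • v))
        (fderiv ℝ (fderiv ℝ f) x v) 0 := h3.comp_hasDerivAt (0:ℝ) (hl 0)
    have h5 := h4.clm_apply (hasDerivAt_const (0:ℝ) v)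
    simpa using h5
  have h5 : (fun t : ℝ => fderiv ℝ f (x + t • v) v) = g := funext h1
  rw [h5] at h2
  exact h2.unique hc

end Pool.Agent.X103.Lap
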