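import Mathlib

/-!
# A periodic perturbation of `y²/2` with two competing degenerate wells (helper103)
-/

set_option autoImplicit false

open MeasureTheory Filter Topology Set Real

namespace Pool.Agent.X103.TwoWell

/-- `yⁿ (a sin(c log|y|) + b cos(c log|y|))`. -/
noncomputable def q (n : ℕ) (a b c y : ℝ) : ℝ :=
  y ^ n * (a * Real.sin (c * Real.log y) + b * Real.cos (c * Real.log y))

lemma q_bound (n : ℕ) (a b c y : ℝ) : |q n a b c y| ≤ (|a| + |b|) * |y| ^ n := by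
  rw [q, abs_mul, abs_pow, mul_comm]
  refine mul_le_mul_of_nonneg_right ?_ (by positivity)
  refine (abs_add_le _ _).trans ?_
  rw [abs_mul, abs_mul]
  have h1 := Real.abs_sin_le_one (c * Real.log y)
  have h2 := Real.abs_cos_le_one (c * Real.log y)
  nlinarith [abs_nonneg a, abs_nonneg b]

lemma q_deriv {n : ℕ} (hn : 1 ≤ n) (a b c y : ℝ) :
    HasDerivAt (q (n + 1) a b c) (q n ((n + 1 : ℝ) * a - c * b) ((n + 1 : ℝ) * b + c * a) c y) y := by
  rcases eq_or_ne y 0 with rfl | hy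
  · have h0 : q n ((n + 1 : ℝ) * a - c * b) ((n + 1 : ℝ) * b + c * a) c 0 = 0 := by
      have : n ≠ 0 := by omega
      simp [q, this]
    rw [h0]
    have h1 : q (n + 1) a b c =O[𝓝 0] fun x => ‖x - 0‖ ^ (n + 1) := by
      refine Asymptotics.isBigO_iff.2 ⟨|a| + |b|, Eventually.of_forall fun x => ?_⟩
      simpa using q_bound (n + 1) a b c x
    have h2 := Asymptotics.IsBigO.hasFDerivAt (𝕜 := ℝ) h1 (by omega)
    have := h2.hasDerivAt
    simpa using this
  · have hl : HasDerivAt (fun y => c * Real.log y) (c * y⁻¹) y :=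
      (Real.hasDerivAt_log hy).const_mul c
    have hs := hl.sin
    have hc := hl.cos
    have h3 := (hasDerivAt_pow (n + 1) y).mul ((hs.const_mul a).add (hc.const_mul b))
    refine h3.congr_deriv ?_
    simp only [q, Pi.add_apply]
    have hp : y ^ (n + 1) = y ^ n * y := pow_succ y n
    push_cast
    rw [hp]
    field_simp
    ring

lemma q_cont (a b c : ℝ) : Continuous (q 1 a b c) := by
  rw [continuous_iff_continuousAt]
  intro y
  rcases eq_or_ne y 0 with rfl | hy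
  · have h0 : q 1 a b c 0 = 0 := by simp [q]
    rw [ContinuousAt, h0]
    refine squeeze_zero_norm (a := fun y => (|a| + |b|) * |y| ^ 1)
      (fun y => by simpa using q_bound 1 a b c y) ?_
    have : Continuous (fun y : ℝ => (|a| + |b|) * |y| ^ 1) := by fun_prop
    simpa using this.tendsto 0
  · have hl : ContinuousAt Real.log y := Real.continuousAt_log hy
    unfold q
    fun_prop

lemma q_contDiff (n : ℕ) : ∀ a b c : ℝ, ContDiff ℝ n (q (n + 1) a b c) := by
  induction n with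
  | zero => intro a b c; exact contDiff_zero.2 (q_cont a b c)
  | succ n ih =>
    intro a b c
    have h1 := fun y => q_deriv (n := n + 1) (by omega) a b c y
    push_cast
    rw [contDiff_succ_iff_deriv]
    refine ⟨fun y => (h1 y).differentiableAt, by simp, ?_⟩
    have : deriv (q (n + 1 + 1) a b c) = q (n + 1) (((n + 1 : ℕ) + 1 : ℝ) * a - c * b)
        (((n + 1 : ℕ) + 1 : ℝ) * b + c * a) c := funext fun y => (h1 y).deriv
    rw [this]
    exact ih _ _ _

/-- The two-well function near the wells. -/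
noncomputable def h0 (c y : ℝ) : ℝ :=
  (y - 1 / 4) ^ 4 * (y + 1 / 4) ^ 4 * (2 + Real.sin (c * Real.log (y + 1 / 4)))

lemma h0_contDiff (c : ℝ) : ContDiff ℝ 3 (h0 c) := by
  have h1 : ContDiff ℝ 3 (q 4 1 0 c) := q_contDiff 3 1 0 c
  have h2 : ContDiff ℝ 3 (fun y => q 4 1 0 c (y + 1 / 4)) := h1.comp (by fun_prop)
  have h3 : h0 c = fun y => (y - 1 / 4) ^ 4 * (2 * (y + 1 / 4) ^ 4 + q 4 1 0 c (y + 1 / 4)) := by
    funext y
    simp only [h0, q]
    ring
  rw [h3]
  have h4 : ContDiff ℝ 3 (fun y : ℝ => (y - 1 / 4) ^ 4) := by fun_prop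
  have h5 : ContDiff ℝ 3 (fun y : ℝ => 2 * (y + 1 / 4) ^ 4) := by fun_prop
  exact h4.mul (h5.add h2)

lemma h0_lower (c y : ℝ) : (y - 1 / 4) ^ 4 * (y + 1 / 4) ^ 4 ≤ h0 c y := by
  have h1 := Real.neg_one_le_sin (c * Real.log (y + 1 / 4))
  have h2 : 0 ≤ (y - 1 / 4) ^ 4 * (y + 1 / 4) ^ 4 := by positivity
  rw [h0]
  nlinarith

/-- The cut-off. -/
noncomputable def cut (y : ℝ) : ℝ := Real.smoothTransition ((49 - 256 * y ^ 2) / 13)

lemma cut_contDiff : ContDiff ℝ 3 cut := by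
  have h1 : ContDiff ℝ 3 Real.smoothTransition := Real.smoothTransition.contDiff (n := 3)
  exact h1.comp (by fun_prop)

/-- The compactly supported profile. -/
noncomputable def k0 (c y : ℝ) : ℝ := cut y * (h0 c y - y ^ 2 / 2 - 1)

lemma k0_contDiff (c : ℝ) : ContDiff ℝ 3 (k0 c) := by
  have h1 := h0_contDiff c
  have h2 := cut_contDiff
  have h3 : ContDiff ℝ 3 (fun y : ℝ => y ^ 2 / 2) := by fun_prop
  exact h2.mul ((h1.sub h3).sub contDiff_const)

lemma cut_zero {y : ℝ} (h : 7 / 16 ≤ |y|) : cut y = 0 := by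
  refine Real.smoothTransition.zero_of_nonpos ?_
  have : (7 / 16) ^ 2 ≤ y ^ 2 := by
    rw [← sq_abs y]; exact pow_le_pow_left₀ (by norm_num) h 2
  linarith

lemma cut_one {y : ℝ} (h : |y| ≤ 3 / 8) : cut y = 1 := by
  refine Real.smoothTransition.one_of_one_le ?_
  have : y ^ 2 ≤ (3 / 8) ^ 2 := by
    rw [← sq_abs y]; exact pow_le_pow_left₀ (abs_nonneg _) h 2
  linarith

/-- The initial datum. -/
noncomputable def g (c y : ℝ) : ℝ := 1 + k0 c (y - ⌊y + 1 / 2⌋)

lemma g_per (c y : ℝ) : g c (y + 1) = g c y := by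
  have : y + 1 + 1 / 2 = y + 1 / 2 + 1 := by ring
  rw [g, g, this, Int.floor_add_one]
  push_cast
  congr 2
  ring

lemma g_contDiff (c : ℝ) : ContDiff ℝ 3 (g c) := by
  rw [contDiff_iff_contDiffAt]
  intro y
  rcases (Int.floor_le (y + 1 / 2)).lt_or_eq with h | h
  · have h2 := Int.lt_floor_add_one (y + 1 / 2)
    have h3 : ContDiffAt ℝ 3 (fun x => 1 + k0 c (x - ⌊y + 1 / 2⌋)) y := by
      have : ContDiff ℝ 3 (fun x => 1 + k0 c (x - ⌊y + 1 / 2⌋)) :=
        contDiff_const.add ((k0_contDiff c).comp (contDiff_id.sub contDiff_const))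
      exact this.contDiffAt
    refine h3.congr_of_eventuallyEq ?_
    have h4 : Ioo ((⌊y + 1 / 2⌋ : ℝ) - 1 / 2) ((⌊y + 1 / 2⌋ : ℝ) + 1 / 2) ∈ 𝓝 y :=
      Ioo_mem_nhds (by linarith) (by linarith)
    filter_upwards [h4] with x hx
    have : ⌊x + 1 / 2⌋ = ⌊y + 1 / 2⌋ := by
      rw [Int.floor_eq_iff]
      constructor <;> linarith [hx.1, hx.2]
    rw [g, this]
  · have h3 : ContDiffAt ℝ 3 (fun _ : ℝ => (1 : ℝ)) y := contDiffAt_const
    refine h3.congr_of_eventuallyEq ?_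
    have h4 : Ioo (y - 1 / 16) (y + 1 / 16) ∈ 𝓝 y := Ioo_mem_nhds (by linarith) (by linarith)
    filter_upwards [h4] with x hx
    have h5 := Int.floor_le (x + 1 / 2)
    have h6 := Int.lt_floor_add_one (x + 1 / 2)
    have h7 : 7 / 16 ≤ |x - ⌊x + 1 / 2⌋| := by
      rcases lt_or_ge ⌊x + 1 / 2⌋ ⌊y + 1 / 2⌋ with h8 | h8
      · have h9 : (⌊x + 1 / 2⌋ : ℝ) + 1 ≤ ⌊y + 1 / 2⌋ := by exact_mod_cast h8
        rw [le_abs]; left; linarith [hx.1, hx.2]
      · have h9 : (⌊y + 1 / 2⌋ : ℝ) ≤ ⌊x + 1 / 2⌋ := by exact_mod_cast h8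
        rw [le_abs]; right; linarith [hx.1, hx.2]
    rw [g, k0, cut_zero h7]
    ring

/-- The phase `Ψ(y) = y²/2 + g(y)`. -/
noncomputable def Psi (c y : ℝ) : ℝ := y ^ 2 / 2 + g c y

lemma Psi_cont (c : ℝ) : Continuous (Psi c) := by
  have := (g_contDiff c).continuous
  unfold Psi
  fun_prop

lemma Psi_near {c y : ℝ} (h : |y| ≤ 3 / 8) : Psi c y = h0 c y := by
  have h1 := abs_le.1 h
  have h2 : ⌊y + 1 / 2⌋ = 0 := by
    rw [Int.floor_eq_iff]
    constructor <;> push_cast <;> linarith [h1.1, h1.2]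
  rw [Psi, g, h2]
  simp only [Int.cast_zero, sub_zero]
  rw [k0, cut_one h]
  ring

lemma Psi_far {c y : ℝ} (h : 3 / 8 ≤ |y|) : 4 * (5 / 64) ^ 4 * y ^ 2 ≤ Psi c y := by
  have hy2 : (3 / 8) ^ 2 ≤ y ^ 2 := by
    rw [← sq_abs y]; exact pow_le_pow_left₀ (by norm_num) h 2
  rcases le_or_gt |y| (1 / 2) with h1 | h1
  · -- in the cell, away from the wells
    have hy3 : y ^ 2 ≤ (1 / 2) ^ 2 := by
      rw [← sq_abs y]; exact pow_le_pow_left₀ (abs_nonneg _) h1 2
    have hP : Psi c y = y ^ 2 / 2 + (1 + cut y * (h0 c y - y ^ 2 / 2 - 1)) := by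
      rw [Psi, g]
      rcases eq_or_ne y (1 / 2) with e | e
      · have h2 : ⌊y + 1 / 2⌋ = 1 := by
          rw [e, Int.floor_eq_iff]; constructor <;> norm_num
        rw [h2, k0, e, cut_zero (by norm_num [abs_of_neg]), cut_zero (by norm_num [abs_of_pos])]
        ring
      · have h3 := abs_le.1 h1
        have h2 : ⌊y + 1 / 2⌋ = 0 := by
          rw [Int.floor_eq_iff]
          have : y < 1 / 2 := lt_of_le_of_ne h3.2 e
          constructor <;> push_cast <;> linarith [h3.1, this]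
        rw [h2]; simp [k0]
    rw [hP]
    have c0 : 0 ≤ cut y := Real.smoothTransition.nonneg _
    have c1 : cut y ≤ 1 := Real.smoothTransition.le_one _
    have hh : (5 / 64) ^ 4 ≤ h0 c y := by
      refine le_trans ?_ (h0_lower c y)
      have : (y - 1 / 4) ^ 4 * (y + 1 / 4) ^ 4 = (y ^ 2 - 1 / 16) ^ 4 := by ring
      rw [this]
      exact pow_le_pow_left₀ (by norm_num) (by linarith) 4
    nlinarith
  · -- outside the cell
    have hy3 : (1 / 2) ^ 2 ≤ y ^ 2 := by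
      rw [← sq_abs y]; exact pow_le_pow_left₀ (by norm_num) h1.le 2
    set r : ℝ := y - ⌊y + 1 / 2⌋ with hr
    have hg : g c y = 1 + cut r * (h0 c r - r ^ 2 / 2 - 1) := rfl
    have c0 : 0 ≤ cut r := Real.smoothTransition.nonneg _
    have c1 : cut r ≤ 1 := Real.smoothTransition.le_one _
    have hh : 0 ≤ h0 c r := le_trans (by positivity) (h0_lower c r)
    have hb : cut r * (r ^ 2 / 2) ≤ 49 / 512 := by
      rcases le_or_gt (7 / 16) |r| with h2 | h2
      · rw [cut_zero h2]; norm_num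
      · have : r ^ 2 ≤ (7 / 16) ^ 2 := by
          rw [← sq_abs r]; exact pow_le_pow_left₀ (abs_nonneg _) h2.le 2
        nlinarith [sq_nonneg r]
    have hg2 : - (49 / 512) ≤ g c y := by
      rw [hg]
      nlinarith [mul_nonneg c0 hh]
    rw [Psi]
    nlinarith

/-- The lower bound at the left well. -/
lemma Psi_left {c y : ℝ} (h : y ≤ 0) :
    4 * (5 / 64) ^ 4 * min ((y - (-1 / 4)) ^ 4) ((y - (-1 / 4)) ^ 2) ≤ Psi c y := by
  rcases le_or_gt |y| (3 / 8) with h1 | h1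
  · rw [Psi_near h1]
    refine le_trans ?_ (h0_lower c y)
    have e : (y - (-1 / 4)) ^ 4 = (y + 1 / 4) ^ 4 := by ring
    rw [e]
    have h2 : (1 / 4 : ℝ) ^ 4 ≤ (y - 1 / 4) ^ 4 := by
      have : (y - 1 / 4) ^ 4 = (1 / 4 - y) ^ 4 := by ring
      rw [this]
      exact pow_le_pow_left₀ (by norm_num) (by linarith) 4
    have h3 : 0 ≤ (y + 1 / 4) ^ 4 := by positivity
    calc _ ≤ 4 * (5 / 64) ^ 4 * (y + 1 / 4) ^ 4 := by
          refine mul_le_mul_of_nonneg_left (min_le_left _ _) (by norm_num)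
      _ ≤ (1 / 4) ^ 4 * (y + 1 / 4) ^ 4 := mul_le_mul_of_nonneg_right (by norm_num) h3
      _ ≤ _ := mul_le_mul_of_nonneg_right h2 h3
  · refine le_trans ?_ (Psi_far h1.le)
    refine mul_le_mul_of_nonneg_left ((min_le_right _ _).trans ?_) (by norm_num)
    rw [abs_of_nonpos h] at h1
    nlinarith

/-- The lower bound at the right well. -/
lemma Psi_right {c y : ℝ} (h : 0 ≤ y) :
    4 * (5 / 64) ^ 4 * min ((y - 1 / 4) ^ 4) ((y - 1 / 4) ^ 2) ≤ Psi c y := by
  rcases le_or_gt |y| (3 / 8) with h1 | h1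
  · rw [Psi_near h1]
    refine le_trans ?_ (h0_lower c y)
    have h2 : (1 / 4 : ℝ) ^ 4 ≤ (y + 1 / 4) ^ 4 :=
      pow_le_pow_left₀ (by norm_num) (by linarith) 4
    have h3 : 0 ≤ (y - 1 / 4) ^ 4 := by positivity
    calc _ ≤ 4 * (5 / 64) ^ 4 * (y - 1 / 4) ^ 4 := by
          refine mul_le_mul_of_nonneg_left (min_le_left _ _) (by norm_num)
      _ ≤ (y - 1 / 4) ^ 4 * (1 / 4) ^ 4 := by nlinarith
      _ ≤ _ := mul_le_mul_of_nonneg_left h2 h3
  · refine le_trans ?_ (Psi_far h1.le)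
    refine mul_le_mul_of_nonneg_left ((min_le_right _ _).trans ?_) (by norm_num)
    rw [abs_of_nonneg h] at h1
    nlinarith

/-- The Laplace method at a degenerate well, with a weight. -/
lemma well {Ψ h : ℝ → ℝ} (hΨ : Continuous Ψ) (hh : Continuous h) (hhb : ∀ y, |h y| ≤ 1 + |y|)
    {S : Set ℝ} (hS : MeasurableSet S) {a c : ℝ} (hc : 0 < c) (ha : S ∈ 𝓝 a)
    (hlow : ∀ y ∈ S, c * min ((y - a) ^ 4) ((y - a) ^ 2) ≤ Ψ y)
    {δ : ℕ → ℝ} (hδ : ∀ k, 0 < δ k) (hδ1 : ∀ k, δ k ≤ 1) (hδ0 : Tendsto δ atTop (𝓝 0))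
    {L : ℝ → ℝ}
    (hL : ∀ ξ, ξ ≠ 0 → Tendsto (fun k => Ψ (a + δ k * ξ) / (2 * δ k ^ 4)) atTop (𝓝 (L ξ))) :
    Tendsto (fun k => (δ k)⁻¹ * ∫ y in S, h y * Real.exp (-Ψ y / (2 * δ k ^ 4))) atTop
      (𝓝 (h a * ∫ ξ, Real.exp (-L ξ))) := by
  have e1 : ∀ k, (δ k)⁻¹ * ∫ y in S, h y * Real.exp (-Ψ y / (2 * δ k ^ 4))
      = ∫ ξ, S.indicator (fun y => h y * Real.exp (-Ψ y / (2 * δ k ^ 4))) (a + δ k * ξ) := by
    intro k
    have h1 := Measure.integral_comp_mul_left (fun y =>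
      S.indicator (fun y => h y * Real.exp (-Ψ y / (2 * δ k ^ 4))) (a + y)) (δ k)
    rw [h1, integral_add_left_eq_self (μ := volume)
      (fun y => S.indicator (fun y => h y * Real.exp (-Ψ y / (2 * δ k ^ 4))) y) a,
      integral_indicator hS, smul_eq_mul, abs_of_pos (inv_pos.2 (hδ k))]
  simp_rw [e1]
  have e2 : h a * ∫ ξ, Real.exp (-L ξ) = ∫ ξ, h a * Real.exp (-L ξ) := by
    rw [integral_const_mul]
  rw [e2]
  have hm : ∀ k, Measurable (S.indicator (fun y => h y * Real.exp (-Ψ y / (2 * δ k ^ 4)))) :=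
    fun k => Measurable.indicator (by
      have := hΨ.measurable
      have := hh.measurable
      fun_prop) hS
  refine tendsto_integral_of_dominated_convergence
    (fun ξ => (1 + |a| + |ξ|) * Real.exp (-(c / 2) * (ξ ^ 2 - 1))) ?_ ?_ ?_ ?_
  · intro k
    exact ((hm k).comp (by fun_prop)).aestronglyMeasurable
  · have h1 : Integrable (fun ξ : ℝ => Real.exp (-(c / 2) * ξ ^ 2)) :=
      integrable_exp_neg_mul_sq (by positivity)
    have h2 : Integrable (fun ξ : ℝ => ξ * Real.exp (-(c / 2) * ξ ^ 2)) :=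
      integrable_mul_exp_neg_mul_sq (by positivity)
    have h3 := ((h1.const_mul (1 + |a|)).add h2.abs).const_mul (Real.exp (c / 2))
    refine h3.congr (Eventually.of_forall fun ξ => ?_)
    simp only [Pi.add_apply]
    rw [abs_mul, abs_of_pos (Real.exp_pos _)]
    have : Real.exp (-(c / 2) * (ξ ^ 2 - 1)) = Real.exp (c / 2) * Real.exp (-(c / 2) * ξ ^ 2) := by
      rw [← Real.exp_add]; congr 1; ring
    rw [this]; ring
  · intro k
    refine Eventually.of_forall fun ξ => ?_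
    by_cases hmem : a + δ k * ξ ∈ S
    · rw [indicator_of_mem hmem, norm_mul, Real.norm_eq_abs, Real.norm_eq_abs,
        abs_of_pos (Real.exp_pos _)]
      refine mul_le_mul ?_ ?_ (Real.exp_pos _).le (by positivity)
      · refine (hhb _).trans ?_
        have h1 : |a + δ k * ξ| ≤ |a| + |δ k * ξ| := abs_add_le _ _
        have h2 : |δ k * ξ| ≤ |ξ| := by
          rw [abs_mul, abs_of_pos (hδ k)]
          nlinarith [hδ1 k, abs_nonneg ξ]
        linarith
      · refine Real.exp_le_exp.2 ?_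
        have h1 := hlow _ hmem
        have h2 : δ k ^ 4 * (ξ ^ 2 - 1) ≤ min ((a + δ k * ξ - a) ^ 4) ((a + δ k * ξ - a) ^ 2) := by
          have hd := hδ k
          have hd1 := hδ1 k
          refine le_min ?_ ?_
          · have : (a + δ k * ξ - a) ^ 4 = δ k ^ 4 * ξ ^ 4 := by ring
            rw [this]
            refine mul_le_mul_of_nonneg_left ?_ (by positivity)
            nlinarith [sq_nonneg (ξ ^ 2 - 1), sq_nonneg ξ]
          · have : (a + δ k * ξ - a) ^ 2 = δ k ^ 2 * ξ ^ 2 := by ring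
            rw [this]
            have h4 : δ k ^ 4 ≤ δ k ^ 2 := pow_le_pow_of_le_one hd.le hd1 (by norm_num)
            have h5 : 0 ≤ δ k ^ 4 := by positivity
            nlinarith [sq_nonneg ξ]
        have h3 : 0 < 2 * δ k ^ 4 := by have := hδ k; positivity
        rw [neg_div, neg_mul, neg_le_neg_iff, le_div_iff₀ h3]
        calc c / 2 * (ξ ^ 2 - 1) * (2 * δ k ^ 4) = c * (δ k ^ 4 * (ξ ^ 2 - 1)) := by ring
          _ ≤ c * min ((a + δ k * ξ - a) ^ 4) ((a + δ k * ξ - a) ^ 2) :=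
            mul_le_mul_of_nonneg_left h2 hc.le
          _ ≤ _ := h1
    · rw [indicator_of_notMem hmem, norm_zero]
      positivity
  · have hne : ∀ᵐ ξ : ℝ, ξ ≠ 0 := Measure.ae_ne volume 0
    filter_upwards [hne] with ξ hξ
    have h1 : Tendsto (fun k => a + δ k * ξ) atTop (𝓝 a) := by
      have := (hδ0.mul_const ξ).const_add a
      simpa using this
    have h2 : ∀ᶠ k in atTop, a + δ k * ξ ∈ S := h1.eventually ha
    have h3 : Tendsto (fun k => h (a + δ k * ξ) * Real.exp (-Ψ (a + δ k * ξ) / (2 * δ k ^ 4)))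
        atTop (𝓝 (h a * Real.exp (-L ξ))) := by
      refine ((hh.tendsto a).comp h1).mul ?_
      have h4 := (hL ξ hξ).neg
      have h5 := (Real.continuous_exp.tendsto _).comp h4
      refine h5.congr fun k => ?_
      simp only [Function.comp, neg_div]
    refine h3.congr' ?_
    filter_upwards [h2] with k hk
    rw [indicator_of_mem hk]

/-- `F(c, θ) = ∫ exp(-ξ⁴(2 + sin(c log|ξ| + θ))/32) dξ`. -/
noncomputable def Fc (θ c : ℝ) : ℝ :=
  ∫ ξ : ℝ, Real.exp (-(ξ ^ 4 * (2 + Real.sin (c * Real.log ξ + θ)) / 32))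

lemma quartic_integrable {κ : ℝ} (hκ : 0 < κ) : Integrable (fun ξ : ℝ => Real.exp (-(κ * ξ ^ 4))) := by
  have h1 : Integrable (fun ξ : ℝ => Real.exp (-κ * ξ ^ 2)) := integrable_exp_neg_mul_sq hκ
  refine (h1.const_mul (Real.exp κ)).mono' (Continuous.aestronglyMeasurable (by fun_prop)) ?_
  refine Eventually.of_forall fun ξ => ?_
  rw [Real.norm_eq_abs, abs_of_pos (Real.exp_pos _), ← Real.exp_add]
  refine Real.exp_le_exp.2 ?_
  nlinarith [sq_nonneg (ξ ^ 2 - 1), sq_nonneg ξ, mul_nonneg hκ.le (sq_nonneg (ξ ^ 2 - 1)),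
    mul_nonneg hκ.le (sq_nonneg ξ)]

lemma Fc_cont (θ : ℝ) : Continuous (Fc θ) := by
  refine continuous_of_dominated (bound := fun ξ => Real.exp (-((1 / 32) * ξ ^ 4))) ?_ ?_
    (quartic_integrable (by norm_num)) ?_
  · intro c
    refine Measurable.aestronglyMeasurable ?_
    have := Real.measurable_log
    fun_prop
  · intro c
    refine Eventually.of_forall fun ξ => ?_
    rw [Real.norm_eq_abs, abs_of_pos (Real.exp_pos _)]
    refine Real.exp_le_exp.2 ?_
    have h1 := Real.neg_one_le_sin (c * Real.log ξ + θ)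
    have h2 : 0 ≤ ξ ^ 4 := by positivity
    nlinarith
  · exact Eventually.of_forall fun ξ => by fun_prop

lemma Fc_ne : ∃ c, 0 < c ∧ Fc (π / 2) c < Fc (-(π / 2)) c := by
  have h1 : Fc (π / 2) 0 = ∫ ξ : ℝ, Real.exp (-((3 / 32) * ξ ^ 4)) := by
    simp only [Fc, zero_mul, zero_add, Real.sin_pi_div_two]
    congr 1; funext ξ; congr 1; ring
  have h2 : Fc (-(π / 2)) 0 = ∫ ξ : ℝ, Real.exp (-((1 / 32) * ξ ^ 4)) := by
    simp only [Fc, zero_mul, zero_add, Real.sin_neg, Real.sin_pi_div_two]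
    congr 1; funext ξ; congr 1; ring
  have i1 := quartic_integrable (κ := 3 / 32) (by norm_num)
  have i2 := quartic_integrable (κ := 1 / 32) (by norm_num)
  have h3 : Fc (π / 2) 0 < Fc (-(π / 2)) 0 := by
    rw [h1, h2, ← sub_pos, ← integral_sub i2 i1]
    refine integral_pos_of_integrable_nonneg_nonzero (x := 1) (by fun_prop) (i2.sub i1) ?_ ?_
    · intro ξ
      simp only [Pi.zero_apply, sub_nonneg]
      refine Real.exp_le_exp.2 ?_
      have : 0 ≤ ξ ^ 4 := by positivity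
      linarith
    · have : Real.exp (-((3 / 32) * 1 ^ 4)) < Real.exp (-((1 / 32) * 1 ^ 4)) :=
        Real.exp_lt_exp.2 (by norm_num)
      exact (sub_pos.2 this).ne'
  have h4 : ∀ᶠ c in 𝓝 (0 : ℝ), Fc (π / 2) c < Fc (-(π / 2)) c :=
    ((Fc_cont _).tendsto 0).eventually_lt ((Fc_cont _).tendsto 0) h3
  have h5 : ∀ᶠ c in 𝓝[>] (0 : ℝ), Fc (π / 2) c < Fc (-(π / 2)) c := h4.filter_mono nhdsWithin_le_nhds
  obtain ⟨c, hc, hc'⟩ := (h5.and self_mem_nhdsWithin).exists
  exact ⟨c, hc', hc⟩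

/-- The scales `δ_k` with `c log δ_k = θ - 2π k - 2π`. -/
noncomputable def dl (c θ : ℝ) (k : ℕ) : ℝ := Real.exp ((θ - (k + 1 : ℕ) * (2 * π)) / c)

lemma dl_pos (c θ : ℝ) (k : ℕ) : 0 < dl c θ k := Real.exp_pos _

lemma dl_lt {c θ : ℝ} (hc : 0 < c) (hθ : |θ| ≤ π / 2) (k : ℕ) : dl c θ k < 1 := by
  rw [dl, Real.exp_lt_one_iff]
  refine div_neg_of_neg_of_pos ?_ hc
  have h1 := Real.pi_pos
  have h2 := (abs_le.1 hθ).2
  push_cast
  have : (0 : ℝ) ≤ k := k.cast_nonneg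
  nlinarith

lemma dl_tendsto {c θ : ℝ} (hc : 0 < c) : Tendsto (dl c θ) atTop (𝓝 0) := by
  refine Real.tendsto_exp_atBot.comp ?_
  have h1 : Tendsto (fun k : ℕ => ((k + 1 : ℕ) : ℝ)) atTop atTop :=
    tendsto_natCast_atTop_atTop.comp (tendsto_add_atTop_nat 1)
  have h2 : Tendsto (fun k : ℕ => ((k + 1 : ℕ) : ℝ) * (2 * π)) atTop atTop :=
    h1.atTop_mul_const (by positivity)
  have h3 : Tendsto (fun k : ℕ => θ - ((k + 1 : ℕ) : ℝ) * (2 * π)) atTop atBot := by
    have := tendsto_neg_atTop_atBot.comp h2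
    refine (tendsto_atBot_add_const_left _ θ this).congr fun k => ?_
    simp only [Function.comp]; ring
  exact h3.atBot_div_const hc

lemma left_limit {c θ : ℝ} (hc : 0 < c) {ξ : ℝ} (hξ : ξ ≠ 0) :
    Tendsto (fun k => Psi c (-1 / 4 + dl c θ k * ξ) / (2 * dl c θ k ^ 4)) atTop
      (𝓝 (ξ ^ 4 * (2 + Real.sin (c * Real.log ξ + θ)) / 32)) := by
  have hd := dl_tendsto (θ := θ) hc
  have h1 : Tendsto (fun k => dl c θ k * ξ) atTop (𝓝 0) := by simpa using hd.mul_const ξ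
  have h2 : Tendsto (fun k => (dl c θ k * ξ - 1 / 2) ^ 4 * (ξ ^ 4
      * (2 + Real.sin (c * Real.log ξ + θ)) / 2)) atTop
      (𝓝 ((0 - 1 / 2) ^ 4 * (ξ ^ 4 * (2 + Real.sin (c * Real.log ξ + θ)) / 2))) :=
    ((h1.sub_const _).pow 4).mul_const _
  have e : ((0 - 1 / 2) ^ 4 * (ξ ^ 4 * (2 + Real.sin (c * Real.log ξ + θ)) / 2))
      = ξ ^ 4 * (2 + Real.sin (c * Real.log ξ + θ)) / 32 := by ring
  rw [e] at h2
  refine h2.congr' ?_
  have h3 : ∀ᶠ k in atTop, |dl c θ k * ξ| < 1 / 8 := by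
    have := h1.abs
    rw [abs_zero] at this
    exact this.eventually_lt_const (by norm_num)
  filter_upwards [h3] with k hk
  have hk' := abs_lt.1 hk
  have h4 : |(-1 / 4 + dl c θ k * ξ)| ≤ 3 / 8 := by
    rw [abs_le]; constructor <;> linarith [hk'.1, hk'.2]
  rw [Psi_near h4, h0]
  have hp := dl_pos c θ k
  have e1 : -1 / 4 + dl c θ k * ξ + 1 / 4 = dl c θ k * ξ := by ring
  have e2 : -1 / 4 + dl c θ k * ξ - 1 / 4 = dl c θ k * ξ - 1 / 2 := by ring
  rw [e1, e2, Real.log_mul hp.ne' hξ]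
  have e3 : Real.sin (c * (Real.log (dl c θ k) + Real.log ξ)) = Real.sin (c * Real.log ξ + θ) := by
    have : c * (Real.log (dl c θ k) + Real.log ξ)
        = c * Real.log ξ + θ - ((k + 1 : ℕ) : ℝ) * (2 * π) := by
      rw [dl, Real.log_exp]; field_simp; ring
    rw [this, Real.sin_sub_nat_mul_two_pi]
  rw [e3, mul_pow]
  field_simp

lemma right_limit {c θ : ℝ} (hc : 0 < c) (ξ : ℝ) :
    Tendsto (fun k => Psi c (1 / 4 + dl c θ k * ξ) / (2 * dl c θ k ^ 4)) atTop
      (𝓝 (ξ ^ 4 * (2 + Real.sin (c * Real.log (1 / 2))) / 32)) := by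
  have hd := dl_tendsto (θ := θ) hc
  have h1 : Tendsto (fun k => dl c θ k * ξ) atTop (𝓝 0) := by simpa using hd.mul_const ξ
  have h1' : Tendsto (fun k => 1 / 2 + dl c θ k * ξ) atTop (𝓝 (1 / 2)) := by
    have := h1.const_add (1 / 2)
    rwa [add_zero] at this
  have h2 : Tendsto (fun k => (1 / 2 + dl c θ k * ξ) ^ 4 * (ξ ^ 4
      * (2 + Real.sin (c * Real.log (1 / 2 + dl c θ k * ξ))) / 2)) atTop
      (𝓝 ((1 / 2) ^ 4 * (ξ ^ 4 * (2 + Real.sin (c * Real.log (1 / 2))) / 2))) := by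
    refine (h1'.pow 4).mul ?_
    have h5 : Tendsto (fun k => Real.log (1 / 2 + dl c θ k * ξ)) atTop (𝓝 (Real.log (1 / 2))) :=
      h1'.log (by norm_num)
    have h6 := (Real.continuous_sin.tendsto _).comp (h5.const_mul c)
    exact ((h6.const_add 2).const_mul (ξ ^ 4)).div_const 2
  have e : ((1 / 2) ^ 4 * (ξ ^ 4 * (2 + Real.sin (c * Real.log (1 / 2))) / 2))
      = ξ ^ 4 * (2 + Real.sin (c * Real.log (1 / 2))) / 32 := by ring
  rw [e] at h2
  refine h2.congr' ?_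
  have h3 : ∀ᶠ k in atTop, |dl c θ k * ξ| < 1 / 8 := by
    have := h1.abs
    rw [abs_zero] at this
    exact this.eventually_lt_const (by norm_num)
  filter_upwards [h3] with k hk
  have hk' := abs_lt.1 hk
  have h4 : |(1 / 4 + dl c θ k * ξ)| ≤ 3 / 8 := by
    rw [abs_le]; constructor <;> linarith [hk'.1, hk'.2]
  rw [Psi_near h4, h0]
  have hp := dl_pos c θ k
  have e1 : 1 / 4 + dl c θ k * ξ + 1 / 4 = 1 / 2 + dl c θ k * ξ := by ring
  have e2 : 1 / 4 + dl c θ k * ξ - 1 / 4 = dl c θ k * ξ := by ring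
  rw [e1, e2, mul_pow]
  field_simp

/-- The Gibbs mean. -/
noncomputable def gm (c ε : ℝ) : ℝ :=
  (∫ y, y * Real.exp (-Psi c y / (2 * ε))) / ∫ y, Real.exp (-Psi c y / (2 * ε))

/-- The mass of the right well. -/
noncomputable def Bc (c : ℝ) : ℝ :=
  ∫ ξ : ℝ, Real.exp (-(ξ ^ 4 * (2 + Real.sin (c * Real.log (1 / 2))) / 32))

lemma Bc_pos (c : ℝ) : 0 < Bc c := by
  have h1 := Real.neg_one_le_sin (c * Real.log (1 / 2))
  have h2 := quartic_integrable (κ := (2 + Real.sin (c * Real.log (1 / 2))) / 32) (by linarith)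
  have h3 : Bc c = ∫ ξ : ℝ, Real.exp (-((2 + Real.sin (c * Real.log (1 / 2))) / 32 * ξ ^ 4)) := by
    rw [Bc]; congr 1; funext ξ; congr 1; ring
  rw [h3]
  exact integral_pos_of_integrable_nonneg_nonzero (x := 0) (by fun_prop) h2
    (fun ξ => (Real.exp_pos _).le) (Real.exp_pos _).ne'

lemma Fc_pos (θ c : ℝ) : 0 < Fc θ c := by
  have hint : Integrable (fun ξ : ℝ =>
      Real.exp (-(ξ ^ 4 * (2 + Real.sin (c * Real.log ξ + θ)) / 32))) := by
    refine (quartic_integrable (κ := 1 / 32) (by norm_num)).mono' ?_ ?_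
    · refine Measurable.aestronglyMeasurable ?_
      have := Real.measurable_log
      fun_prop
    · refine Eventually.of_forall fun ξ => ?_
      rw [Real.norm_eq_abs, abs_of_pos (Real.exp_pos _)]
      refine Real.exp_le_exp.2 ?_
      have h1 := Real.neg_one_le_sin (c * Real.log ξ + θ)
      have h2 : 0 ≤ ξ ^ 4 := by positivity
      nlinarith
  have h2 := quartic_integrable (κ := 3 / 32) (by norm_num)
  have h3 : 0 < ∫ ξ : ℝ, Real.exp (-((3 / 32) * ξ ^ 4)) :=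
    integral_pos_of_integrable_nonneg_nonzero (x := 0) (by fun_prop) h2
      (fun ξ => (Real.exp_pos _).le) (Real.exp_pos _).ne'
  refine h3.trans_le (integral_mono h2 hint fun ξ => ?_)
  refine Real.exp_le_exp.2 ?_
  have h1 := Real.sin_le_one (c * Real.log ξ + θ)
  have h2 : 0 ≤ ξ ^ 4 := by positivity
  nlinarith

/-- Integrability of the Gibbs weight. -/
lemma gibbs_integrable {c ε : ℝ} (hε : 0 < ε) :
    Integrable (fun y => Real.exp (-Psi c y / (2 * ε))) ∧
      Integrable (fun y => y * Real.exp (-Psi c y / (2 * ε))) := by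
  -- `Ψ ≥ c₂ (y² - 1)`
  have hlow : ∀ y, 4 * (5 / 64) ^ 4 * (y ^ 2 - 1) ≤ Psi c y := by
    intro y
    rcases le_or_gt (3 / 8) |y| with h | h
    · have := Psi_far (c := c) h
      linarith
    · rw [Psi_near h.le]
      have h1 : 0 ≤ h0 c y := le_trans (by positivity) (h0_lower c y)
      have h2 : y ^ 2 ≤ (3 / 8) ^ 2 := by
        rw [← sq_abs y]; exact pow_le_pow_left₀ (abs_nonneg _) h.le 2
      nlinarith
  set κ : ℝ := 4 * (5 / 64) ^ 4 / (2 * ε) with hκ
  have hκ0 : 0 < κ := by positivity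
  have hb : ∀ y, Real.exp (-Psi c y / (2 * ε)) ≤ Real.exp κ * Real.exp (-κ * y ^ 2) := by
    intro y
    rw [← Real.exp_add]
    refine Real.exp_le_exp.2 ?_
    have h1 := hlow y
    have h2 : -Psi c y / (2 * ε) ≤ -(4 * (5 / 64) ^ 4 * (y ^ 2 - 1)) / (2 * ε) :=
      div_le_div_of_nonneg_right (by linarith) (by positivity)
    refine h2.trans (le_of_eq ?_)
    rw [hκ]; ring
  have hcont : Continuous (fun y => Real.exp (-Psi c y / (2 * ε))) := by
    have := Psi_cont c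
    fun_prop
  constructor
  · refine ((integrable_exp_neg_mul_sq hκ0).const_mul (Real.exp κ)).mono'
      hcont.aestronglyMeasurable (Eventually.of_forall fun y => ?_)
    rw [Real.norm_eq_abs, abs_of_pos (Real.exp_pos _)]
    exact hb y
  · refine (((integrable_mul_exp_neg_mul_sq hκ0).abs).const_mul (Real.exp κ)).mono'
      (continuous_id.mul hcont).aestronglyMeasurable (Eventually.of_forall fun y => ?_)
    rw [Real.norm_eq_abs, abs_mul, abs_mul, abs_of_pos (Real.exp_pos _),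
      abs_of_pos (Real.exp_pos _)]
    have := mul_le_mul_of_nonneg_left (hb y) (abs_nonneg y)
    linarith

/-- The limit of the Gibbs mean along `ε = δ_k⁴`. -/
lemma gm_limit {c θ : ℝ} (hc : 0 < c) (hθ : |θ| ≤ π / 2) :
    Tendsto (fun k => gm c (dl c θ k ^ 4)) atTop
      (𝓝 ((-1 / 4 * Fc θ c + 1 / 4 * Bc c) / (Fc θ c + Bc c))) := by
  have hδ1 : ∀ k, dl c θ k ≤ 1 := fun k => (dl_lt hc hθ k).le
  have hδ0 := dl_tendsto (θ := θ) hc
  have hΨ := Psi_cont c
  have L1 := well (Ψ := Psi c) (h := fun y => y) hΨ (by fun_prop)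
    (fun y => by linarith [abs_nonneg y]) (S := Iic 0) measurableSet_Iic (a := -1 / 4)
    (c := 4 * (5 / 64) ^ 4) (by norm_num) (Iic_mem_nhds (by norm_num)) (fun y hy => Psi_left hy)
    (dl_pos c θ) hδ1 hδ0 (fun ξ hξ => left_limit hc hξ)
  have L0 := well (Ψ := Psi c) (h := fun _ => 1) hΨ (by fun_prop)
    (fun y => by rw [abs_one]; linarith [abs_nonneg y]) (S := Iic 0) measurableSet_Iic (a := -1 / 4)
    (c := 4 * (5 / 64) ^ 4) (by norm_num) (Iic_mem_nhds (by norm_num)) (fun y hy => Psi_left hy)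
    (dl_pos c θ) hδ1 hδ0 (fun ξ hξ => left_limit hc hξ)
  have R1 := well (Ψ := Psi c) (h := fun y => y) hΨ (by fun_prop)
    (fun y => by linarith [abs_nonneg y]) (S := Ioi 0) measurableSet_Ioi (a := 1 / 4)
    (c := 4 * (5 / 64) ^ 4) (by norm_num) (Ioi_mem_nhds (by norm_num))
    (fun y hy => Psi_right (le_of_lt hy))
    (dl_pos c θ) hδ1 hδ0 (fun ξ _ => right_limit hc ξ)
  have R0 := well (Ψ := Psi c) (h := fun _ => 1) hΨ (by fun_prop)
    (fun y => by rw [abs_one]; linarith [abs_nonneg y]) (S := Ioi 0) measurableSet_Ioi (a := 1 / 4)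
    (c := 4 * (5 / 64) ^ 4) (by norm_num) (Ioi_mem_nhds (by norm_num))
    (fun y hy => Psi_right (le_of_lt hy))
    (dl_pos c θ) hδ1 hδ0 (fun ξ _ => right_limit hc ξ)
  have hF : ∫ ξ : ℝ, Real.exp (-(ξ ^ 4 * (2 + Real.sin (c * Real.log ξ + θ)) / 32)) = Fc θ c := rfl
  have hB : ∫ ξ : ℝ, Real.exp (-(ξ ^ 4 * (2 + Real.sin (c * Real.log (1 / 2))) / 32)) = Bc c := rfl
  rw [hF] at L1 L0
  rw [hB] at R1 R0
  simp only [one_mul] at L0 R0
  have key := (L1.add R1).div (L0.add R0) (add_pos (Fc_pos θ c) (Bc_pos c)).ne'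
  refine key.congr fun k => ?_
  obtain ⟨i0, i1⟩ := gibbs_integrable (c := c) (ε := dl c θ k ^ 4) (pow_pos (dl_pos c θ k) 4)
  have s0 := integral_add_compl (measurableSet_Iic (a := (0 : ℝ))) i0
  have s1 := integral_add_compl (measurableSet_Iic (a := (0 : ℝ))) i1
  rw [compl_Iic] at s0 s1
  rw [gm, ← s0, ← s1]
  have hp := inv_pos.2 (dl_pos c θ k)
  simp only [Pi.div_apply]
  rw [← mul_add, ← mul_add, mul_div_mul_left _ _ hp.ne']

/-- The two limits differ. -/
lemma gm_two {c : ℝ} (h : Fc (π / 2) c < Fc (-(π / 2)) c) :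
    (-1 / 4 * Fc (π / 2) c + 1 / 4 * Bc c) / (Fc (π / 2) c + Bc c)
      ≠ (-1 / 4 * Fc (-(π / 2)) c + 1 / 4 * Bc c) / (Fc (-(π / 2)) c + Bc c) := by
  have h1 := Fc_pos (π / 2) c
  have h2 := Fc_pos (-(π / 2)) c
  have h3 := Bc_pos c
  intro e
  rw [div_eq_div_iff (by positivity) (by positivity)] at e
  nlinarith

end Pool.Agent.X103.TwoWell
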