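import Pool.Agent.X103.HopfCole

/-!
# The adjoint measures for `H = p²/2` on the circle (helper103)
-/

set_option autoImplicit false

open MeasureTheory ProbabilityTheory Filter Topology Set Real

namespace Pool.Agent.X103.AdjointHC

open Pool.Agent.X103.HeatG Pool.Agent.X103.HopfCole

variable {ε : ℝ} {w w1 w2 w3 : ℝ → ℝ}

/-- The density of the adjoint measure with respect to the Gaussian measure. -/
noncomputable def Dn (ε : ℝ) (w : ℝ → ℝ) (T z t η : ℝ) : ℝ :=
  P ε w t (z + √(2 * ε * (T - t)) * η) / P ε w T z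

/-- The adjoint measures, carried by `[0, 1)`. -/
noncomputable def sig (ε : ℝ) (w : ℝ → ℝ) (T z t : ℝ) : Measure ℝ :=
  (gam.withDensity (fun η => ENNReal.ofReal (Dn ε w T z t η))).map
    (fun η => Int.fract (z + √(2 * ε * (T - t)) * η))

lemma cDn (D : Dat ε w w1 w2 w3) (T z t : ℝ) : Continuous (Dn ε w T z t) := by
  have h0 := P_cont (ε := ε) D.b0
  have h1 : Continuous (fun η : ℝ => P ε w t (z + √(2 * ε * (T - t)) * η)) :=
    h0.comp (f := fun η : ℝ => (t, z + √(2 * ε * (T - t)) * η)) (by fun_prop)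
  exact h1.div_const _

lemma Dn_pos (D : Dat ε w w1 w2 w3) (T z t η : ℝ) : 0 ≤ Dn ε w T z t η :=
  (div_pos (D.Ppos _ _) (D.Ppos _ _)).le

/-- Integrals against `sig`. -/
lemma int_sig (D : Dat ε w w1 w2 w3) {T z t : ℝ} {f : ℝ → ℝ} (hf : Continuous f)
    (hp : ∀ x, f (x + 1) = f x) :
    ∫ x, f x ∂(sig ε w T z t) = J ε T z (fun s x => f x * P ε w s x) t / P ε w T z := by
  have hper : Function.Periodic f 1 := hp
  rw [sig, integral_map (by fun_prop) hf.aestronglyMeasurable,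
    integral_withDensity_eq_integral_toReal_smul (by
      have := (cDn D T z t).measurable
      fun_prop) (Eventually.of_forall fun η => ENNReal.ofReal_lt_top)]
  rw [J, ← integral_div]
  refine integral_congr_ae (Eventually.of_forall fun η => ?_)
  simp only [smul_eq_mul]
  rw [ENNReal.toReal_ofReal (Dn_pos D T z t η)]
  have e : f (Int.fract (z + √(2 * ε * (T - t)) * η)) = f (z + √(2 * ε * (T - t)) * η) := by
    have := hper.sub_int_mul_eq ⌊z + √(2 * ε * (T - t)) * η⌋ (x := z + √(2 * ε * (T - t)) * η)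
    rw [mul_one] at this
    exact this
  rw [e, Dn]
  ring

lemma J_P (D : Dat ε w w1 w2 w3) {T z t : ℝ} (ht : t ∈ Icc 0 T) :
    J ε T z (P ε w) t = P ε w T z := by
  refine J_const (F := P ε w) (Ft := fun s x => ε * P ε w2 s x) (Fx := P ε w1) (Fxx := P ε w2)
    D.he (fun t _ x => P_per D.per t x) (P_cont D.b0).continuousOn
    (continuous_const.mul (P_cont D.b2)).continuousOn (P_cont D.b1).continuousOn
    (P_cont D.b2).continuousOn (fun s hs x => P_dt D.he D.b0 D.b1 D.b2 D.d0 D.d1 hs.1 x)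
    (fun s _ x => P_dx D.b0 D.b1 D.d0 s x) (fun s _ x => P_dx D.b1 D.b2 D.d1 s x)
    (fun s _ x => rfl) t ht

lemma sig_univ (D : Dat ε w w1 w2 w3) {T z t : ℝ} (ht : t ∈ Icc 0 T) :
    sig ε w T z t univ = 1 := by
  rw [sig, Measure.map_apply (by fun_prop) MeasurableSet.univ, preimage_univ,
    withDensity_apply _ MeasurableSet.univ, Measure.restrict_univ,
    ← ofReal_integral_eq_lintegral_ofReal]
  · have h1 : ∫ η, Dn ε w T z t η ∂gam = J ε T z (P ε w) t / P ε w T z := by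
      rw [J, ← integral_div]
      rfl
    rw [h1, J_P D ht, div_self (D.Ppos _ _).ne', ENNReal.ofReal_one]
  · obtain ⟨C, hC⟩ := D.b0.2
    refine integrable_of_bdd (C := C / P ε w T z) (cDn D T z t) (fun η => ?_)
    rw [Dn, abs_div, abs_of_pos (D.Ppos T z)]
    exact div_le_div_of_nonneg_right (P_bdd hC _ _) (D.Ppos T z).le
  · exact Eventually.of_forall fun η => Dn_pos D T z t η

lemma sig_compl (T z t : ℝ) : sig ε w T z t (Ico 0 1)ᶜ = 0 := by
  rw [sig, Measure.map_apply (by fun_prop) measurableSet_Ico.compl]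
  have : (fun η => Int.fract (z + √(2 * ε * (T - t)) * η)) ⁻¹' (Ico 0 1)ᶜ = ∅ := by
    ext η
    simp [Int.fract_nonneg, Int.fract_lt_one]
  rw [this, measure_empty]

lemma sig_end (D : Dat ε w w1 w2 w3) (T z : ℝ) :
    sig ε w T z T = Measure.dirac (Int.fract z) := by
  have h1 : (fun η : ℝ => Int.fract (z + √(2 * ε * (T - T)) * η)) = fun _ => Int.fract z := by
    funext η; simp
  have h2 : (fun η => ENNReal.ofReal (Dn ε w T z T η)) = fun _ => 1 := by
    funext η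
    simp [Dn, div_self (D.Ppos T z).ne']
  rw [sig, h1, h2]
  rw [Measure.map_const, withDensity_apply _ MeasurableSet.univ]
  simp

/-- Weak continuity of the adjoint measures. -/
lemma sig_cont (D : Dat ε w w1 w2 w3) {T z : ℝ} {f : ℝ → ℝ} (hf : Continuous f)
    (hp : ∀ x, f (x + 1) = f x) :
    ContinuousOn (fun t => ∫ x, f x ∂(sig ε w T z t)) (Icc 0 T) := by
  have h1 : (fun t => ∫ x, f x ∂(sig ε w T z t))
      = fun t => J ε T z (fun s x => f x * P ε w s x) t / P ε w T z := by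
    funext t; exact int_sig D hf hp
  rw [h1]
  have hc : Continuous (fun v : ℝ × ℝ => f v.2 * P ε w v.1 v.2) :=
    (hf.comp continuous_snd).mul (P_cont D.b0)
  obtain ⟨C, hC⟩ := bdd_of_per (isCompact_Icc (a := 0) (b := T))
    (G := fun s x => f x * P ε w s x) hc.continuousOn (fun t _ x => by
      simp only [hp, P_per D.per])
  exact (J_cont hc.continuousOn hC).div_const _

/-- The weak adjoint equation. -/
lemma sig_weak (D : Dat ε w w1 w2 w3) {T z : ℝ} {f ft fx fxx : ℝ → ℝ → ℝ}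
    (c0 : ContinuousOn (fun v : ℝ × ℝ => f v.1 v.2) (Icc 0 T ×ˢ univ))
    (ct : ContinuousOn (fun v : ℝ × ℝ => ft v.1 v.2) (Icc 0 T ×ˢ univ))
    (cx : ContinuousOn (fun v : ℝ × ℝ => fx v.1 v.2) (Icc 0 T ×ˢ univ))
    (cxx : ContinuousOn (fun v : ℝ × ℝ => fxx v.1 v.2) (Icc 0 T ×ˢ univ))
    (hper : ∀ t ∈ Icc 0 T, ∀ x, f t (x + 1) = f t x)
    (dt : ∀ t ∈ Ioo 0 T, ∀ x, HasDerivAt (fun s => f s x) (ft t x) t)
    (dx : ∀ t ∈ Icc 0 T, ∀ x, HasDerivAt (f t) (fx t x) x)
    (dxx : ∀ t ∈ Icc 0 T, ∀ x, HasDerivAt (fx t) (fxx t x) x)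
    {s t : ℝ} (hs : 0 ≤ s) (hst : s ≤ t) (ht : t ≤ T) :
    ∫ x, f t x ∂(sig ε w T z t) - ∫ x, f s x ∂(sig ε w T z s)
      = ∫ r in s..t, ∫ x, (ft r x + V ε w w1 r x * fx r x - ε * fxx r x) ∂(sig ε w T z r) := by
  rcases hst.eq_or_lt with hst0 | hst0
  · subst hst0; simp
  have hT : 0 < T := hs.trans_lt (hst0.trans_le ht)
  have htper : ∀ t ∈ Icc 0 T, ∀ x, ft t (x + 1) = ft t x := by
    intro t ht x
    have h1 : EqOn (fun t => ft t (x + 1)) (fun t => ft t x) (Ioo 0 T) := by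
      intro t ht
      have h1 := dt t ht (x + 1)
      refine (h1.congr_of_eventuallyEq ?_).unique (dt t ht x)
      filter_upwards [Ioo_mem_nhds ht.1 ht.2] with s hs
      exact (hper s ⟨hs.1.le, hs.2.le⟩ x).symm
    have h2 : ∀ x, ContinuousOn (fun t => ft t x) (Icc 0 T) := fun x =>
      ct.comp (f := fun t : ℝ => (t, x)) (by fun_prop) (fun t ht => ⟨ht, mem_univ _⟩)
    exact h1.of_subset_closure (h2 _) (h2 _) Ioo_subset_Icc_self
      (by rw [closure_Ioo hT.ne]) ht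
  have hsub : Ioo 0 T ×ˢ (univ : Set ℝ) ⊆ Icc 0 T ×ˢ univ := prod_mono_left Ioo_subset_Icc_self
  have slice : ∀ {G : ℝ → ℝ → ℝ}, ContinuousOn (fun v : ℝ × ℝ => G v.1 v.2) (Icc 0 T ×ˢ univ) →
      ∀ s ∈ Icc 0 T, Continuous (G s) := by
    intro G hG s hs
    rw [← continuousOn_univ]
    exact hG.comp (f := fun x : ℝ => (s, x)) (by fun_prop) (fun x _ => ⟨hs, mem_univ _⟩)
  have hxper : ∀ t ∈ Icc 0 T, ∀ x, fx t (x + 1) = fx t x := fun t ht =>
    per_deriv (dx t ht) (hper t ht)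
  have hxxper : ∀ t ∈ Icc 0 T, ∀ x, fxx t (x + 1) = fxx t x := fun t ht =>
    per_deriv (dxx t ht) (hxper t ht)
  set F : ℝ → ℝ → ℝ := fun s x => f s x * P ε w s x with hF
  set Ft : ℝ → ℝ → ℝ := fun s x => ft s x * P ε w s x + f s x * (ε * P ε w2 s x) with hFt
  set Fx : ℝ → ℝ → ℝ := fun s x => fx s x * P ε w s x + f s x * P ε w1 s x with hFx
  set Fxx : ℝ → ℝ → ℝ := fun s x => (fxx s x * P ε w s x + fx s x * P ε w1 s x)
    + (fx s x * P ε w1 s x + f s x * P ε w2 s x) with hFxx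
  have p0 := (P_cont (ε := ε) D.b0).continuousOn (s := Icc 0 T ×ˢ (univ : Set ℝ))
  have p1 := (P_cont (ε := ε) D.b1).continuousOn (s := Icc 0 T ×ˢ (univ : Set ℝ))
  have p2 := (P_cont (ε := ε) D.b2).continuousOn (s := Icc 0 T ×ˢ (univ : Set ℝ))
  have C0 : ContinuousOn (fun v : ℝ × ℝ => F v.1 v.2) (Icc 0 T ×ˢ univ) := c0.mul p0
  have Ct : ContinuousOn (fun v : ℝ × ℝ => Ft v.1 v.2) (Icc 0 T ×ˢ univ) :=
    (ct.mul p0).add (c0.mul (continuousOn_const.mul p2))
  have Cx : ContinuousOn (fun v : ℝ × ℝ => Fx v.1 v.2) (Icc 0 T ×ˢ univ) :=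
    (cx.mul p0).add (c0.mul p1)
  have Cxx : ContinuousOn (fun v : ℝ × ℝ => Fxx v.1 v.2) (Icc 0 T ×ˢ univ) :=
    ((cxx.mul p0).add (cx.mul p1)).add ((cx.mul p1).add (c0.mul p2))
  obtain ⟨k1, k2⟩ := J_main (z := z) D.he (F := F) (Ft := Ft) (Fx := Fx) (Fxx := Fxx)
    (fun t ht x => by simp only [hF, hper t ht, P_per D.per]) C0 (Ct.mono hsub) (Cx.mono hsub)
    (Cxx.mono hsub)
    (fun s hs x => (dt s hs x).mul (P_dt D.he D.b0 D.b1 D.b2 D.d0 D.d1 hs.1 x))
    (fun s hs x => (dx s (Ioo_subset_Icc_self hs) x).mul (P_dx D.b0 D.b1 D.d0 s x))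
    (fun s hs x => ((dxx s (Ioo_subset_Icc_self hs) x).mul (P_dx D.b0 D.b1 D.d0 s x)).add
      ((dx s (Ioo_subset_Icc_self hs) x).mul (P_dx D.b1 D.b2 D.d1 s x)))
  set G : ℝ → ℝ → ℝ := fun s x => Ft s x - ε * Fxx s x with hG
  have CG : ContinuousOn (fun v : ℝ × ℝ => G v.1 v.2) (Icc 0 T ×ˢ univ) :=
    Ct.sub (continuousOn_const.mul Cxx)
  obtain ⟨C, hC⟩ := bdd_of_per (isCompact_Icc (a := 0) (b := T)) CG (fun t ht x => by
    simp only [hG, hFt, hFxx, hper t ht, htper t ht, hxper t ht, hxxper t ht, P_per D.per,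
      P_per D.per1, P_per D.per2])
  have CJ : ContinuousOn (J ε T z G) (Icc 0 T) := J_cont CG hC
  have hI : Icc s t ⊆ Icc 0 T := Icc_subset_Icc hs ht
  have key := intervalIntegral.integral_eq_sub_of_hasDerivAt_of_le hst (k1.mono hI)
    (f' := J ε T z G) (fun r hr => k2 r ⟨hs.trans_lt hr.1, hr.2.trans_le ht⟩)
    ((CJ.mono hI).intervalIntegrable_of_Icc hst)
  have e0 : ∀ r ∈ Icc s t, ∫ x, f r x ∂(sig ε w T z r) = J ε T z F r / P ε w T z := by
    intro r hr
    rw [int_sig D (slice c0 r (hI hr)) (hper r (hI hr))]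
    rfl
  have e1 : ∀ r ∈ Icc s t, ∫ x, (ft r x + V ε w w1 r x * fx r x - ε * fxx r x) ∂(sig ε w T z r)
      = J ε T z G r / P ε w T z := by
    intro r hr
    have hr' := hI hr
    have cV : Continuous (V ε w w1 r) := by
      have := D.cV
      exact this.comp (f := fun x : ℝ => (r, x)) (by fun_prop)
    rw [int_sig D (f := fun x => ft r x + V ε w w1 r x * fx r x - ε * fxx r x)
      (((slice ct r hr').add (cV.mul (slice cx r hr'))).sub
      (continuous_const.mul (slice cxx r hr'))) (fun x => by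
        simp only [htper r hr', hxper r hr', hxxper r hr', D.perV])]
    congr 1
    simp only [J]
    congr 1
    funext η
    simp only [hG, hFt, hFxx, V]
    have := (D.Ppos r (z + √(2 * ε * (T - r)) * η)).ne'
    field_simp
    ring
  rw [e0 t ⟨hst, le_refl _⟩, e0 s ⟨le_refl _, hst⟩]
  have e2 : ∫ r in s..t, ∫ x, (ft r x + V ε w w1 r x * fx r x - ε * fxx r x) ∂(sig ε w T z r)
      = ∫ r in s..t, J ε T z G r / P ε w T z := by
    refine intervalIntegral.integral_congr (fun r hr => ?_)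
    rw [uIcc_of_le hst] at hr
    exact e1 r hr
  rw [e2, intervalIntegral.integral_div, key]
  ring

/-- The value of `v = u_x` at `(T, z) = (1, 0)` as a Gibbs mean. -/
lemma V_value (D : Dat ε w w1 w2 w3) :
    V ε w w1 1 0 = - ((∫ y, y * (Real.exp (-y ^ 2 / (4 * ε)) * w y))
      / ∫ y, Real.exp (-y ^ 2 / (4 * ε)) * w y) := by
  have he := D.he
  have c0 := D.c0
  have c1 := D.c1
  obtain ⟨C0, hC0⟩ := D.b0.2
  obtain ⟨C1, hC1⟩ := D.b1.2
  have n0 := (abs_nonneg _).trans (hC0 0)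
  have n1 := (abs_nonneg _).trans (hC1 0)
  set r : ℝ := √(2 * ε) with hr
  have r0 : 0 < r := Real.sqrt_pos.2 (by positivity)
  have r2 : r ^ 2 = 2 * ε := Real.sq_sqrt (by positivity)
  have h1 := ibp (h := fun η => w (r * η)) (h' := fun η => w1 (r * η) * r) (C := C0 + C1 * r)
    (fun η => by
      have h5 : HasDerivAt (fun η : ℝ => r * η) r η := by
        simpa using (hasDerivAt_id η).const_mul r
      exact (D.d0 _).comp η h5) (by fun_prop)
    (fun η => by
      have := hC0 (r * η)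
      have : 0 ≤ C1 * r := by positivity
      linarith)
    (fun η => by
      rw [abs_mul, abs_of_pos r0]
      have := mul_le_mul_of_nonneg_right (hC1 (r * η)) r0.le
      linarith)
  have conv : ∀ h : ℝ → ℝ, ∫ η, h (r * η) ∂gam
      = (√(2 * π))⁻¹ * (r⁻¹ * ∫ y, Real.exp (-y ^ 2 / (4 * ε)) * h y) := by
    intro h
    rw [int_gam]
    have e : ∀ η, gaussianPDFReal 0 1 η * h (r * η)
        = (√(2 * π))⁻¹ * (Real.exp (-(r * η) ^ 2 / (4 * ε)) * h (r * η)) := by
      intro η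
      rw [pdf_eq]
      have : -(r * η) ^ 2 / (4 * ε) = -(1 / 2) * η ^ 2 := by
        rw [mul_pow, r2]; field_simp; ring
      rw [this]; ring
    simp_rw [e]
    rw [integral_const_mul]
    congr 1
    have := Measure.integral_comp_mul_left (fun y => Real.exp (-y ^ 2 / (4 * ε)) * h y) r
    rw [this, smul_eq_mul, abs_of_pos (by positivity)]
  have p0 : P ε w 1 0 = ∫ η, w (r * η) ∂gam := by simp [P, hr]
  have p1 : P ε w1 1 0 = ∫ η, w1 (r * η) ∂gam := by simp [P, hr]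
  rw [integral_mul_const, ← p1] at h1
  have h2 : ∫ η, η * w (r * η) ∂gam = r⁻¹ * ∫ η, (fun y => y * w y) (r * η) ∂gam := by
    rw [← integral_const_mul]
    refine integral_congr_ae (Eventually.of_forall fun η => ?_)
    simp only
    field_simp
  rw [h2, conv (fun y => y * w y)] at h1
  have h3 := D.Ppos 1 0
  rw [p0, conv] at h3
  rw [V, p0, conv]
  have hsp : 0 < √(2 * π) := by positivity
  have h4 : ∫ y, Real.exp (-y ^ 2 / (4 * ε)) * w y ≠ 0 := by
    intro h
    rw [h] at h3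
    simp at h3
  have h5 : ∫ y, Real.exp (-y ^ 2 / (4 * ε)) * (fun y => y * w y) y
      = ∫ y, y * (Real.exp (-y ^ 2 / (4 * ε)) * w y) :=
    integral_congr_ae (Eventually.of_forall fun η => by simp only; ring)
  rw [h5] at h1
  have h6 : P ε w1 1 0 = (√(2 * π))⁻¹ * (r⁻¹ * (r⁻¹ * (r⁻¹ *
      ∫ y, y * (Real.exp (-y ^ 2 / (4 * ε)) * w y)))) := by
    have : P ε w1 1 0 = (P ε w1 1 0 * r) * r⁻¹ := by field_simp
    rw [this, ← h1]; ring
  rw [h6]
  have h7 : ε = r ^ 2 / 2 := by rw [r2]; ring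
  field_simp
  rw [h7]
  ring

end Pool.Agent.X103.AdjointHC
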