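import Pool.Agent.X103.CmF

/-!
# Radial integrals and the estimate of the transform of a difference
-/

set_option autoImplicit false

open MeasureTheory Set FourierTransform Filter Topology
open scoped ENNReal ComplexConjugate

noncomputable section

namespace Pool.Agent.X103.Ar

open Pool.Agent.X103.Nest Pool.Agent.X103.Cm Pool.Agent.TH298.Sch

/-- the weight -/
def Nw (ξ : ℂ) : ℝ := (1 + ‖ξ‖ ^ 2)⁻¹

theorem Nw_pos (ξ : ℂ) : 0 < Nw ξ := by unfold Nw; positivity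

theorem Nw_cont : Continuous Nw := by
  unfold Nw
  refine Continuous.inv₀ (by fun_prop) fun ξ => ?_
  positivity

theorem radial (f : ℝ → ℝ) : ∫ ξ : ℂ, f ‖ξ‖ = 2 * Real.pi * ∫ y in Ioi (0 : ℝ), y * f y := by
  have h := integral_fun_norm_addHaar (volume : Measure ℂ) f
  rw [h, Complex.finrank_real_complex]
  have hv : (volume : Measure ℂ).real (Metric.ball 0 1) = Real.pi := by
    rw [Measure.real, Complex.volume_ball]
    simp
  rw [hv]
  simp only [nsmul_eq_mul, smul_eq_mul, Nat.reduceSub, pow_one]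
  push_cast
  ring

theorem inner_int {M : ℝ} (hM : 0 ≤ M) :
    ∫ ξ in Metric.closedBall (0 : ℂ) M, Nw ξ = Real.pi * Real.log (1 + M ^ 2) := by
  rw [← integral_indicator Metric.isClosed_closedBall.measurableSet]
  have e : ∀ ξ : ℂ, (Metric.closedBall (0 : ℂ) M).indicator Nw ξ =
      (Iic M).indicator (fun y : ℝ => (1 + y ^ 2)⁻¹) ‖ξ‖ := by
    intro ξ
    by_cases h : ‖ξ‖ ≤ M
    · rw [indicator_of_mem (by simpa using h), indicator_of_mem (show ‖ξ‖ ∈ Iic M from h)]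
      rfl
    · rw [indicator_of_notMem (by simpa using h), indicator_of_notMem (show ‖ξ‖ ∉ Iic M from h)]
  simp only [e]
  rw [radial]
  have h1 : ∫ y in Ioi (0 : ℝ), y * (Iic M).indicator (fun y : ℝ => (1 + y ^ 2)⁻¹) y =
      ∫ y in (0 : ℝ)..M, y * (1 + y ^ 2)⁻¹ := by
    rw [intervalIntegral.integral_of_le hM, ← integral_indicator measurableSet_Ioi,
      ← integral_indicator measurableSet_Ioc]
    refine integral_congr_ae (Filter.Eventually.of_forall fun y => ?_)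
    simp only [indicator, mem_Ioi, mem_Ioc, mem_Iic]
    by_cases h0 : 0 < y
    · by_cases h2 : y ≤ M
      · simp [h0, h2]
      · simp [h0, h2]
    · simp [h0]
  rw [h1]
  have h2 : ∀ y : ℝ, HasDerivAt (fun y : ℝ => Real.log (1 + y ^ 2) / 2) (y * (1 + y ^ 2)⁻¹) y := by
    intro y
    have h3 : HasDerivAt (fun y : ℝ => 1 + y ^ 2) (2 * y) y := by
      have := (hasDerivAt_pow 2 y).const_add 1
      simpa using this
    have h4 := (h3.log (by positivity)).div_const 2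
    refine h4.congr_deriv ?_
    field_simp
  rw [intervalIntegral.integral_eq_sub_of_hasDerivAt (fun y _ => h2 y)]
  · simp
    ring
  · refine Continuous.intervalIntegrable ?_ _ _
    refine continuous_id.mul (Continuous.inv₀ (by fun_prop) fun y => ?_)
    positivity

theorem outer_aux (M : ℝ) (hM : 0 ≤ M) :
    IntegrableOn (fun y : ℝ => y * ((1 + y ^ 2)⁻¹) ^ 2) (Ioi M) ∧
      ∫ y in Ioi M, y * ((1 + y ^ 2)⁻¹) ^ 2 = (1 + M ^ 2)⁻¹ / 2 := by
  have h2 : ∀ y ∈ Ici M, HasDerivAt (fun y : ℝ => -((1 + y ^ 2)⁻¹ / 2))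
      (y * ((1 + y ^ 2)⁻¹) ^ 2) y := by
    intro y _
    have h3 : HasDerivAt (fun y : ℝ => 1 + y ^ 2) (2 * y) y := by
      have := (hasDerivAt_pow 2 y).const_add 1
      simpa using this
    have h4 := ((h3.inv (by positivity : (1 + y ^ 2) ≠ 0)).div_const 2).neg
    refine h4.congr_deriv ?_
    field_simp
  have h5 : Tendsto (fun y : ℝ => -((1 + y ^ 2)⁻¹ / 2)) atTop (𝓝 0) := by
    have h6 : Tendsto (fun y : ℝ => 1 + y ^ 2) atTop atTop :=
      tendsto_atTop_add_const_left _ _ (tendsto_pow_atTop (by norm_num))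
    have h7 := (h6.inv_tendsto_atTop.div_const 2).neg
    simpa using h7
  have hp : ∀ y ∈ Ioi M, 0 ≤ y * ((1 + y ^ 2)⁻¹) ^ 2 := fun y hy => by
    have : 0 ≤ y := hM.trans (le_of_lt hy)
    positivity
  refine ⟨integrableOn_Ioi_deriv_of_nonneg' h2 hp h5, ?_⟩
  rw [integral_Ioi_of_hasDerivAt_of_nonneg' h2 hp h5]
  ring

theorem outer_int {M : ℝ} (hM : 0 ≤ M) :
    ∫ ξ in (Metric.closedBall (0 : ℂ) M)ᶜ, Nw ξ ^ 2 = Real.pi * (1 + M ^ 2)⁻¹ := by
  rw [← integral_indicator Metric.isClosed_closedBall.measurableSet.compl]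
  have e : ∀ ξ : ℂ, ((Metric.closedBall (0 : ℂ) M)ᶜ).indicator (fun ξ => Nw ξ ^ 2) ξ =
      (Ioi M).indicator (fun y : ℝ => ((1 + y ^ 2)⁻¹) ^ 2) ‖ξ‖ := by
    intro ξ
    by_cases h : ‖ξ‖ ≤ M
    · rw [indicator_of_notMem (by simpa using h), indicator_of_notMem (by simpa using h)]
    · rw [indicator_of_mem (by simpa using h), indicator_of_mem (by simpa using h)]
      rfl
  simp only [e]
  rw [radial]
  have h1 : ∫ y in Ioi (0 : ℝ), y * (Ioi M).indicator (fun y : ℝ => ((1 + y ^ 2)⁻¹) ^ 2) y =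
      ∫ y in Ioi M, y * ((1 + y ^ 2)⁻¹) ^ 2 := by
    rw [← integral_indicator measurableSet_Ioi, ← integral_indicator measurableSet_Ioi]
    refine integral_congr_ae (Filter.Eventually.of_forall fun y => ?_)
    simp only [indicator, mem_Ioi]
    by_cases h0 : M < y
    · have : 0 < y := lt_of_le_of_lt hM h0
      simp [h0, this]
    · simp [h0]
  rw [h1, (outer_aux M hM).2]
  ring

theorem Nw_sq_int : Integrable (fun ξ => Nw ξ ^ 2) := by
  have := (dom_mem 1).integrable_sq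
  simpa [Nw] using this

theorem Nw_sq_all : ∫ ξ, Nw ξ ^ 2 = Real.pi := by
  have h1 := integral_add_compl (Metric.isClosed_closedBall (x := (0 : ℂ)) (ε := 0)).measurableSet
    Nw_sq_int
  have h2 : ∫ ξ in Metric.closedBall (0 : ℂ) 0, Nw ξ ^ 2 = 0 := by
    rw [Metric.closedBall_zero]
    simp
  rw [h2, outer_int le_rfl] at h1
  rw [← h1]
  norm_num

/-- the pointwise bounds, for a transform which vanishes on the circle -/
theorem gen_bound {F f : ℂ → ℂ} {V R lam : ℝ} (hV0 : 0 ≤ V) (hl : 0 < lam)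
    (hF1 : ∀ ξ, ‖F ξ‖ ≤ V) (hF2 : ∀ ξ η, ‖F ξ - F η‖ ≤ 4 * Real.pi * R * V * ‖ξ - η‖)
    (hF3 : ∀ ξ, 2 * Real.pi * ‖ξ‖ = Real.sqrt lam → F ξ = 0)
    (heq : ∀ᵐ ξ : ℂ, ((4 * Real.pi ^ 2 * ‖ξ‖ ^ 2 - lam : ℝ) : ℂ) * f ξ = (lam : ℂ) * F ξ) :
    ∀ᵐ ξ : ℂ, ‖f ξ‖ * (1 + ‖ξ‖ ^ 2) ≤ KK lam R V ∧
      ‖f ξ‖ * (1 + ‖ξ‖ ^ 2) ≤ lam * ‖F ξ‖ + (1 + lam) * ‖f ξ‖ := by
  have hpi := Real.pi_gt_three
  have hk : 0 < Real.sqrt lam := Real.sqrt_pos.2 hl
  have hkk : Real.sqrt lam ^ 2 = lam := Real.sq_sqrt hl.le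
  set k := Real.sqrt lam with hkdef
  have hsph : ∀ᵐ ξ : ℂ, ξ ∉ Metric.sphere (0 : ℂ) (k / (2 * Real.pi)) :=
    measure_eq_zero_iff_ae_notMem.1 (Measure.addHaar_sphere volume 0 _)
  have hne0 : ∀ᵐ ξ : ℂ, ξ ∉ ({0} : Set ℂ) := measure_eq_zero_iff_ae_notMem.1 (measure_singleton 0)
  filter_upwards [heq, hsph, hne0] with ξ e1 e3 e4
  have hξ0 : 0 < ‖ξ‖ := norm_pos_iff.2 (by simpa using e4)
  obtain ⟨s, hs⟩ : ∃ s, s = 2 * Real.pi * ‖ξ‖ := ⟨_, rfl⟩
  have hs0 : 0 < s := by rw [hs]; positivity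
  have hsk : s ≠ k := by
    intro h
    apply e3
    rw [mem_sphere_zero_iff_norm, ← h, hs]
    field_simp
  have hsq : 4 * Real.pi ^ 2 * ‖ξ‖ ^ 2 - lam = (s - k) * (s + k) := by
    rw [hs, ← hkk]
    ring
  have hn := congrArg norm e1
  rw [norm_mul, norm_mul, Complex.norm_real, Complex.norm_real, Real.norm_of_nonneg hl.le,
    Real.norm_eq_abs, hsq, abs_mul, abs_of_pos (by linarith : 0 < s + k)] at hn
  have h2 := hF1 ξ
  have h1 : ‖F ξ‖ ≤ 2 * R * V * |s - k| := by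
    have hz : F ((k / s : ℝ) • ξ) = 0 := by
      refine hF3 _ ?_
      rw [norm_smul, Real.norm_of_nonneg (by positivity), hs]
      field_simp
    have h2 := hF2 ξ ((k / s : ℝ) • ξ)
    rw [hz, sub_zero] at h2
    have h3 : ‖ξ - (k / s : ℝ) • ξ‖ = |s - k| / (2 * Real.pi) := by
      have : ξ - (k / s : ℝ) • ξ = ((s - k) / s : ℝ) • ξ := by
        rw [sub_div, div_self hs0.ne', sub_smul, one_smul]
      rw [this, norm_smul, Real.norm_eq_abs, abs_div, abs_of_pos hs0, hs]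
      field_simp
    rw [h3] at h2
    refine h2.trans (le_of_eq ?_)
    field_simp
    ring
  set g := ‖f ξ‖ with hg
  have hf0 : 0 ≤ g := norm_nonneg _
  set Fn := ‖F ξ‖ with hFn
  have hFn0 : 0 ≤ Fn := norm_nonneg _
  have hab : 0 < |s - k| := abs_pos.2 (sub_ne_zero.2 hsk)
  have b1 : g ≤ 2 * R * V * k := by
    have h3 : |s - k| * (s + k) * g ≤ lam * (2 * R * V * |s - k|) := by
      rw [hn]
      exact mul_le_mul_of_nonneg_left h1 hl.le
    have h4 : (s + k) * g ≤ lam * (2 * R * V) := by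
      refine le_of_mul_le_mul_left ?_ hab
      calc |s - k| * ((s + k) * g) = |s - k| * (s + k) * g := by ring
        _ ≤ _ := h3
        _ = _ := by ring
    have h5 : k * g ≤ k * (2 * R * V * k) := by
      calc k * g ≤ (s + k) * g := mul_le_mul_of_nonneg_right (by linarith) hf0
        _ ≤ lam * (2 * R * V) := h4
        _ = k * (2 * R * V * k) := by
          rw [← hkk]
          ring
    exact le_of_mul_le_mul_left h5 hk
  have b3 : s ^ 2 * g ≤ lam * Fn + lam * g := by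
    have h3 : s ^ 2 - lam ≤ |s - k| * (s + k) := by
      rw [← hkk]
      calc s ^ 2 - k ^ 2 = (s - k) * (s + k) := by ring
        _ ≤ |s - k| * (s + k) := mul_le_mul_of_nonneg_right (le_abs_self _) (by linarith)
    have := mul_le_mul_of_nonneg_right h3 hf0
    linarith
  have b4 : ‖ξ‖ ^ 2 ≤ s ^ 2 := by
    refine pow_le_pow_left₀ hξ0.le ?_ 2
    rw [hs]
    nlinarith
  have b5 : ‖ξ‖ ^ 2 * g ≤ s ^ 2 * g := mul_le_mul_of_nonneg_right b4 hf0
  refine ⟨?_, by nlinarith⟩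
  unfold KK
  rw [← hkdef]
  have b6 : lam * g ≤ lam * (2 * R * V * k) := mul_le_mul_of_nonneg_left b1 hl.le
  have b7 : lam * Fn ≤ lam * V := mul_le_mul_of_nonneg_left h2 hl.le
  nlinarith

end Pool.Agent.X103.Ar
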