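import Pool.Agent.X103.ArA

/-!
# The difference of the areas
-/

set_option autoImplicit false

open MeasureTheory Set FourierTransform Filter Topology
open scoped ENNReal ComplexConjugate

noncomputable section

namespace Pool.Agent.X103.Ar

open Pool.Agent.X103.Nest Pool.Agent.X103.Cm Pool.Agent.TH298.Sch

/-- the function of a solution -/
structure Wf (E : Set ℂ) (hm : MeasurableSet E) (hb : Bornology.IsBounded E) (lam : ℝ) (w : H) :
    Prop where
  supp : ∀ᵐ x : ℂ, x ∉ E → w x = 0
  im : ∀ᵐ x : ℂ, (w x).im = 0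
  eq : ∀ᵐ ξ : ℂ, ((4 * Real.pi ^ 2 * ‖ξ‖ ^ 2 - lam : ℝ) : ℂ) * (𝓕 w : H) ξ =
    (lam : ℂ) * (𝓕 (oneH E hm hb) : H) ξ

variable {E E' : Set ℂ} {hm : MeasurableSet E} {hb : Bornology.IsBounded E}
  {hm' : MeasurableSet E'} {hb' : Bornology.IsBounded E'} {lam : ℝ} {w w' : H}

theorem cont_ft {f : ℂ → ℂ} (hf : Integrable f) : Continuous (𝓕 f) :=
  VectorFourier.fourierIntegral_continuous Real.continuous_fourierChar continuous_inner hf

theorem Wf.int (h : Wf E hm hb lam w) : Integrable (w : ℂ → ℂ) :=
  int_of_supp hm hb.measure_lt_top.ne w h.supp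

theorem Wf.mean (h : Wf E hm hb lam w) (hl : 0 < lam) :
    ∫ x, w x = -((volume E).toReal : ℂ) := by
  have hc1 : Continuous fun ξ : ℂ => ((4 * Real.pi ^ 2 * ‖ξ‖ ^ 2 - lam : ℝ) : ℂ) *
      𝓕 (w : ℂ → ℂ) ξ :=
    (Complex.continuous_ofReal.comp (by fun_prop)).mul (cont_ft h.int)
  have hc2 : Continuous fun ξ : ℂ => (lam : ℂ) * hat E ξ := by
    refine continuous_const.mul ?_
    unfold hat
    exact cont_ft (ex_int hm (ci hb 1))
  have h1 : (fun ξ : ℂ => ((4 * Real.pi ^ 2 * ‖ξ‖ ^ 2 - lam : ℝ) : ℂ) * 𝓕 (w : ℂ → ℂ) ξ) =ᵐ[volume]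
      fun ξ : ℂ => (lam : ℂ) * hat E ξ := by
    filter_upwards [h.eq, hat_ft hm hb, ft_eq hm hb.measure_lt_top.ne w h.supp] with ξ e1 e2 e3
    rw [← e3, ← e2]
    exact e1
  have h2 := congrFun ((hc1.ae_eq_iff_eq volume hc2).1 h1) 0
  rw [hat_at_zero' hm hb, Real.fourier_eq] at h2
  have h3 : ∀ v : ℂ, Real.fourierChar (-(inner ℝ v (0 : ℂ))) • w v = w v := by
    intro v
    rw [inner_zero_right, neg_zero, AddChar.map_zero_eq_one, one_smul]
  simp only [h3] at h2
  have h4 : (lam : ℂ) ≠ 0 := Complex.ofReal_ne_zero.2 hl.ne'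
  have h5 : (lam : ℂ) * (∫ x, w x) = (lam : ℂ) * (-((volume E).toReal : ℂ)) := by
    have : ((4 * Real.pi ^ 2 * ‖(0 : ℂ)‖ ^ 2 - lam : ℝ) : ℂ) = -(lam : ℂ) := by
      rw [norm_zero]
      push_cast
      ring
    rw [this] at h2
    linear_combination -h2
  exact mul_left_cancel₀ h4 h5

theorem Wf.sym (h : Wf E hm hb lam w) (h' : Wf E' hm' hb' lam w') (hl : 0 < lam) :
    (∫ x in E, w' x).re = (∫ x in E', w x).re := by
  have h4 : (lam : ℂ) ≠ 0 := Complex.ofReal_ne_zero.2 hl.ne'
  have h1 : (lam : ℂ) * inner ℂ (oneH E hm hb) w' = (lam : ℂ) * inner ℂ w (oneH E' hm' hb') := by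
    rw [← Lp.inner_fourier_eq (oneH E hm hb), ← Lp.inner_fourier_eq w, L2.inner_def, L2.inner_def,
      ← integral_const_mul, ← integral_const_mul]
    refine integral_congr_ae ?_
    filter_upwards [h.eq, h'.eq] with ξ e1 e2
    rw [RCLike.inner_apply, RCLike.inner_apply]
    have e3 := congrArg conj e1
    rw [map_mul, map_mul, Complex.conj_ofReal, Complex.conj_ofReal] at e3
    linear_combination (-(𝓕 w' : H) ξ) * e3 + conj ((𝓕 w : H) ξ) * e2
  have h2 := mul_left_cancel₀ h4 h1
  rw [one_inner, ← inner_conj_symm, one_inner] at h2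
  rw [h2, Complex.conj_re]

/-- the integral of the difference over the symmetric difference -/
theorem Wf.diff (h : Wf E hm hb lam w) (h' : Wf E' hm' hb' lam w') (hl : 0 < lam) :
    (∫ x in symmDiff E E', (w - w' : H) x).re = (volume E').toReal - (volume E).toReal := by
  have hms : MeasurableSet (symmDiff E E') := hm.symmDiff hm'
  have e1 : ∫ x in symmDiff E E', (w - w' : H) x =
      ∫ x, ((w x - E'.indicator w x) - (w' x - E.indicator w' x)) := by
    rw [← integral_indicator hms]
    refine integral_congr_ae ?_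
    filter_upwards [Lp.coeFn_sub w w', h.supp, h'.supp] with x a1 a2 a3
    by_cases hx : x ∈ E
    · by_cases hx' : x ∈ E'
      · rw [indicator_of_notMem, indicator_of_mem hx, indicator_of_mem hx']
        · simp
        · rw [mem_symmDiff]
          tauto
      · rw [indicator_of_mem, indicator_of_mem hx, indicator_of_notMem hx', a1, Pi.sub_apply,
          a3 hx']
        · simp
        · rw [mem_symmDiff]
          tauto
    · by_cases hx' : x ∈ E'
      · rw [indicator_of_mem, indicator_of_notMem hx, indicator_of_mem hx', a1, Pi.sub_apply,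
          a2 hx]
        · simp
        · rw [mem_symmDiff]
          tauto
      · rw [indicator_of_notMem, indicator_of_notMem hx, indicator_of_notMem hx', a2 hx, a3 hx']
        · simp
        · rw [mem_symmDiff]
          tauto
  have i1 := h.int
  have i2 := h'.int
  have e2 : ∫ x, ((w x - E'.indicator w x) - (w' x - E.indicator w' x)) =
      ((∫ x, w x) - ∫ x, E'.indicator w x) - ((∫ x, w' x) - ∫ x, E.indicator w' x) := by
    have j1 : Integrable fun x => w x - E'.indicator w x := i1.sub (i1.indicator hm')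
    have j2 : Integrable fun x => w' x - E.indicator w' x := i2.sub (i2.indicator hm)
    rw [integral_sub j1 j2, integral_sub i1 (i1.indicator hm'), integral_sub i2 (i2.indicator hm)]
  rw [e1, e2, integral_indicator hm, integral_indicator hm', h.mean hl, h'.mean hl]
  have h3 := h.sym h' hl
  simp only [Complex.sub_re, Complex.neg_re, Complex.ofReal_re]
  linarith

theorem hat_union {A B : Set ℂ} (hA : MeasurableSet A) (hbA : Bornology.IsBounded A)
    (hB : MeasurableSet B) (hbB : Bornology.IsBounded B) (hd : Disjoint A B) (ξ : ℂ) :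
    hat (A ∪ B) ξ = hat A ξ + hat B ξ := by
  unfold hat
  rw [Real.fourier_eq, Real.fourier_eq, Real.fourier_eq, ← integral_add]
  · refine integral_congr_ae (Eventually.of_forall fun x => ?_)
    simp only
    rw [← smul_add]
    congr 1
    unfold ex
    rw [indicator_union_of_disjoint hd]
  · have := (Real.fourierIntegral_convergent_iff (μ := volume) (f := ex A fun _ => 1) ξ).2
      (ex_int hA (ci hbA 1))
    exact this
  · have := (Real.fourierIntegral_convergent_iff (μ := volume) (f := ex B fun _ => 1) ξ).2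
      (ex_int hB (ci hbB 1))
    exact this

theorem hat_sdiff (hm : MeasurableSet E) (hb : Bornology.IsBounded E) (hm' : MeasurableSet E')
    (hb' : Bornology.IsBounded E') (ξ : ℂ) :
    hat E ξ - hat E' ξ = hat (E \ E') ξ - hat (E' \ E) ξ := by
  have h1 := hat_union (hm.inter hm') (hb.subset inter_subset_left) (hm.diff hm')
    (hb.subset sdiff_subset) (disjoint_sdiff_inter.symm) ξ
  have h2 := hat_union (hm'.inter hm) (hb'.subset inter_subset_left) (hm'.diff hm)
    (hb'.subset sdiff_subset) (disjoint_sdiff_inter.symm) ξ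
  rw [inter_union_sdiff] at h1 h2
  rw [h1, h2, inter_comm]
  ring

/-- the measure of the symmetric difference -/
def dd (E E' : Set ℂ) : ℝ := (volume (symmDiff E E')).toReal

theorem dd_nonneg (E E' : Set ℂ) : 0 ≤ dd E E' := ENNReal.toReal_nonneg

theorem dd_eq (hm : MeasurableSet E) (hb : Bornology.IsBounded E) (hm' : MeasurableSet E')
    (hb' : Bornology.IsBounded E') :
    dd E E' = (volume (E \ E')).toReal + (volume (E' \ E)).toReal := by
  unfold dd
  have e : symmDiff E E' = (E \ E') ∪ (E' \ E) := rfl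
  rw [e, measure_union disjoint_sdiff_sdiff (hm'.diff hm),
    ENNReal.toReal_add (hb.subset sdiff_subset).measure_lt_top.ne
      (hb'.subset sdiff_subset).measure_lt_top.ne]

theorem vol_diff (hm : MeasurableSet E) (hb : Bornology.IsBounded E) (hm' : MeasurableSet E')
    (hb' : Bornology.IsBounded E') :
    (volume E).toReal - (volume E').toReal =
      (volume (E \ E')).toReal - (volume (E' \ E)).toReal := by
  have h1 := measureReal_inter_add_sdiff (μ := volume) (s := E) hm' hb.measure_lt_top.ne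
  have h2 := measureReal_inter_add_sdiff (μ := volume) (s := E') hm hb'.measure_lt_top.ne
  rw [inter_comm] at h2
  simp only [Measure.real] at h1 h2
  linarith

theorem vol_le_dd (hm : MeasurableSet E) (hb : Bornology.IsBounded E) (hm' : MeasurableSet E')
    (hb' : Bornology.IsBounded E') :
    |(volume E).toReal - (volume E').toReal| ≤ dd E E' := by
  rw [vol_diff hm hb hm' hb', dd_eq hm hb hm' hb', abs_le]
  have h1 : 0 ≤ (volume (E \ E')).toReal := ENNReal.toReal_nonneg
  have h2 : 0 ≤ (volume (E' \ E)).toReal := ENNReal.toReal_nonneg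
  constructor <;> linarith

theorem hat_diff_le (hm : MeasurableSet E) (hb : Bornology.IsBounded E) (hm' : MeasurableSet E')
    (hb' : Bornology.IsBounded E') (ξ : ℂ) : ‖hat E ξ - hat E' ξ‖ ≤ dd E E' := by
  rw [hat_sdiff hm hb hm' hb', dd_eq hm hb hm' hb']
  exact (norm_sub_le _ _).trans (add_le_add (hat_le (hm.diff hm') ξ) (hat_le (hm'.diff hm) ξ))

theorem hat_diff_lip (hm : MeasurableSet E) (hm' : MeasurableSet E') {R : ℝ}
    (hR : E ⊆ Metric.closedBall 0 R) (hR' : E' ⊆ Metric.closedBall 0 R) (ξ η : ℂ) :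
    ‖(hat E ξ - hat E' ξ) - (hat E η - hat E' η)‖ ≤ 4 * Real.pi * R * dd E E' * ‖ξ - η‖ := by
  have hb : Bornology.IsBounded E := Metric.isBounded_closedBall.subset hR
  have hb' : Bornology.IsBounded E' := Metric.isBounded_closedBall.subset hR'
  rw [hat_sdiff hm hb hm' hb', hat_sdiff hm hb hm' hb', dd_eq hm hb hm' hb']
  have h1 := hat_lip (hm.diff hm') (sdiff_subset.trans hR) ξ η
  have h2 := hat_lip (hm'.diff hm) (sdiff_subset.trans hR') ξ η
  have e : hat (E \ E') ξ - hat (E' \ E) ξ - (hat (E \ E') η - hat (E' \ E) η) =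
      (hat (E \ E') ξ - hat (E \ E') η) - (hat (E' \ E) ξ - hat (E' \ E) η) := by ring
  rw [e]
  refine (norm_sub_le _ _).trans ?_
  linarith

end Pool.Agent.X103.Ar
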