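import Pool.Agent.X103.ArB

/-!
# The inequality for the areas
-/

set_option autoImplicit false

open MeasureTheory Set FourierTransform Filter Topology
open scoped ENNReal ComplexConjugate

noncomputable section

namespace Pool.Agent.X103.Ar

open Pool.Agent.X103.Nest Pool.Agent.X103.Cm Pool.Agent.TH298.Sch

theorem sq_int (f : H) : Integrable (fun ξ : ℂ => ‖f ξ‖ ^ 2) :=
  (Lp.memLp f).integrable_norm_pow (by norm_num)

theorem int_sq (f : H) : ∫ ξ : ℂ, ‖f ξ‖ ^ 2 = ‖f‖ ^ 2 := by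
  have h1 := ofReal_integral_eq_lintegral_ofReal (sq_int f)
    (Filter.Eventually.of_forall fun x => sq_nonneg _)
  have h2 : ∫⁻ x : ℂ, ENNReal.ofReal (‖f x‖ ^ 2) = ENNReal.ofReal (‖f‖ ^ 2) := by
    rw [← norm_sq_eq f]
    refine lintegral_congr fun x => ?_
    rw [ENNReal.ofReal_pow (norm_nonneg _), ofReal_norm]
  rw [h2] at h1
  exact (ENNReal.ofReal_eq_ofReal_iff (integral_nonneg fun x => sq_nonneg _)
    (sq_nonneg _)).1 h1

theorem KK_lin (lam R V : ℝ) : KK lam R V = V * KK lam R 1 := by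
  unfold KK
  ring

variable {E E' : Set ℂ} {hm : MeasurableSet E} {hb : Bornology.IsBounded E}
  {hm' : MeasurableSet E'} {hb' : Bornology.IsBounded E'} {lam R : ℝ} {w w' : H}

theorem sub_ft (f g : H) : (𝓕 (f - g) : H) = 𝓕 f - 𝓕 g := by
  rw [sub_eq_add_neg, FourierTransform.fourier_add, FourierTransform.fourier_neg,
    ← sub_eq_add_neg]

/-- the constant -/
def CC (lam R : ℝ) : ℝ :=
  1 + KK lam R 1 * Real.pi + lam ^ 2 + (1 + lam) ^ 2 * KK lam R 1 ^ 2 * Real.pi + Real.pi / 2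

theorem KK_nonneg {lam R : ℝ} (hl : 0 ≤ lam) (hR : 0 ≤ R) : 0 ≤ KK lam R 1 := by
  unfold KK
  have := Real.sqrt_nonneg lam
  positivity

theorem Wf.bounds (h : Wf E hm hb lam w) (h' : Wf E' hm' hb' lam w') (hl : 0 < lam)
    (hS : Slv E lam) (hS' : Slv E' lam)
    (hR : E ⊆ Metric.closedBall 0 R) (hR' : E' ⊆ Metric.closedBall 0 R) :
    ∀ᵐ ξ : ℂ, ‖(𝓕 (w - w') : H) ξ‖ ≤ KK lam R 1 * dd E E' * Nw ξ ∧
      ‖(𝓕 (w - w') : H) ξ‖ ≤ lam ^ 2 * ‖(𝓕 (oneH E hm hb - oneH E' hm' hb') : H) ξ‖ ^ 2 +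
        (1 + lam) ^ 2 * ‖(𝓕 (w - w') : H) ξ‖ ^ 2 + Nw ξ ^ 2 / 2 := by
  have hg := gen_bound (F := fun ξ => hat E ξ - hat E' ξ)
    (f := fun ξ => (𝓕 (w - w') : H) ξ) (V := dd E E') (R := R) (dd_nonneg E E') hl
    (hat_diff_le hm hb hm' hb') (hat_diff_lip hm hm' hR hR')
    (fun ξ hξ => by
      rw [hat_zero hm hb hl hS hξ, hat_zero hm' hb' hl hS' hξ, sub_zero])
    (by
      filter_upwards [h.eq, h'.eq, hat_ft hm hb, hat_ft hm' hb', Lp.coeFn_sub (𝓕 w : H) (𝓕 w')]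
        with ξ e1 e2 e3 e4 e5
      rw [e3] at e1
      rw [e4] at e2
      rw [sub_ft, e5, Pi.sub_apply]
      linear_combination e1 - e2)
  filter_upwards [hg, hat_ft hm hb, hat_ft hm' hb',
    Lp.coeFn_sub (𝓕 (oneH E hm hb) : H) (𝓕 (oneH E' hm' hb'))] with ξ a1 a2 a3 a4
  obtain ⟨b1, b2⟩ := a1
  have hN : (0 : ℝ) < 1 + ‖ξ‖ ^ 2 := by positivity
  constructor
  · rw [KK_lin] at b1
    unfold Nw
    rw [← div_eq_mul_inv, le_div_iff₀ hN]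
    linarith
  · have e : ‖(𝓕 (oneH E hm hb - oneH E' hm' hb') : H) ξ‖ = ‖hat E ξ - hat E' ξ‖ := by
      rw [sub_ft, a4, Pi.sub_apply, a2, a3]
    rw [e]
    have b3 : ‖(𝓕 (w - w') : H) ξ‖ ≤
        (lam * ‖hat E ξ - hat E' ξ‖ + (1 + lam) * ‖(𝓕 (w - w') : H) ξ‖) * Nw ξ := by
      unfold Nw
      rw [← div_eq_mul_inv, le_div_iff₀ hN]
      exact b2
    refine b3.trans ?_
    set p := lam * ‖hat E ξ - hat E' ξ‖
    set q := (1 + lam) * ‖(𝓕 (w - w') : H) ξ‖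
    have e1 : lam ^ 2 * ‖hat E ξ - hat E' ξ‖ ^ 2 = p ^ 2 := by ring
    have e2 : (1 + lam) ^ 2 * ‖(𝓕 (w - w') : H) ξ‖ ^ 2 = q ^ 2 := by ring
    rw [e1, e2]
    nlinarith [sq_nonneg (p + q - Nw ξ), sq_nonneg (p - q)]

theorem norm_one_sub (hm : MeasurableSet E) (hb : Bornology.IsBounded E)
    (hm' : MeasurableSet E') (hb' : Bornology.IsBounded E') :
    ‖oneH E hm hb - oneH E' hm' hb'‖ ^ 2 = dd E E' := by
  unfold dd
  rw [← oneH_sub hm hb hm' hb', ENNReal.toReal_ofReal (sq_nonneg _)]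

theorem Wf.l1 (h : Wf E hm hb lam w) (h' : Wf E' hm' hb' lam w') (hl : 0 < lam)
    (hS : Slv E lam) (hS' : Slv E' lam) (hR0 : 0 ≤ R)
    (hR : E ⊆ Metric.closedBall 0 R) (hR' : E' ⊆ Metric.closedBall 0 R)
    (hd0 : 0 < dd E E') (hd1 : dd E E' ≤ 1) :
    Integrable (fun ξ : ℂ => ‖(𝓕 (w - w') : H) ξ‖) ∧
      ∫ ξ : ℂ, ‖(𝓕 (w - w') : H) ξ‖ ≤ dd E E' * (CC lam R * (1 + |Real.log (dd E E')|)) := by
  have hpi := Real.pi_pos
  have hbd := h.bounds h' hl hS hS' hR hR'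
  set D := dd E E' with hD
  set z : H := w - w' with hz
  set o : H := oneH E hm hb - oneH E' hm' hb' with ho
  set κ := KK lam R 1 with hκ
  have hκ0 : 0 ≤ κ := KK_nonneg hl.le hR0
  have ho2 : ∫ ξ : ℂ, ‖(𝓕 o : H) ξ‖ ^ 2 = D := by
    rw [int_sq, Lp.norm_fourier_eq, ho, norm_one_sub]
  have iz := sq_int (𝓕 z : H)
  have io := sq_int (𝓕 o : H)
  have iN := Nw_sq_int
  set G : ℂ → ℝ := fun ξ => lam ^ 2 * ‖(𝓕 o : H) ξ‖ ^ 2 +
        (1 + lam) ^ 2 * ‖(𝓕 z : H) ξ‖ ^ 2 + Nw ξ ^ 2 / 2 with hG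
  have iG1 : Integrable (fun ξ => lam ^ 2 * ‖(𝓕 o : H) ξ‖ ^ 2 +
        (1 + lam) ^ 2 * ‖(𝓕 z : H) ξ‖ ^ 2) := (io.const_mul _).add (iz.const_mul _)
  have iG : Integrable G := iG1.add (iN.div_const 2)
  have ia : Integrable (fun ξ : ℂ => ‖(𝓕 z : H) ξ‖) := by
    refine iG.mono' (Lp.memLp (𝓕 z : H)).1.norm ?_
    filter_upwards [hbd] with ξ hξ
    rw [Real.norm_of_nonneg (norm_nonneg _)]
    exact hξ.2
  refine ⟨ia, ?_⟩
  -- the radius
  set M := Real.sqrt (1 / D - 1) with hM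
  have hM0 : 0 ≤ M := Real.sqrt_nonneg _
  have hM2 : 1 + M ^ 2 = 1 / D := by
    rw [hM, Real.sq_sqrt]
    · ring
    · rw [sub_nonneg, le_div_iff₀ hd0]
      linarith
  have hMi : (1 + M ^ 2)⁻¹ = D := by
    rw [hM2, one_div, inv_inv]
  have hcb : MeasurableSet (Metric.closedBall (0 : ℂ) M) := Metric.isClosed_closedBall.measurableSet
  have s1 := integral_add_compl hcb ia
  have s2 : ∫ ξ in Metric.closedBall (0 : ℂ) M, ‖(𝓕 z : H) ξ‖ ≤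
      κ * D * (Real.pi * Real.log (1 / D)) := by
    rw [← hM2, ← inner_int hM0, ← integral_const_mul]
    refine integral_mono_ae ia.integrableOn ?_ ?_
    · exact (continuous_const.mul Nw_cont).continuousOn.integrableOn_compact
        (isCompact_closedBall 0 M)
    · filter_upwards [ae_restrict_of_ae hbd] with ξ hξ
      exact hξ.1
  have iz2 : ∫ ξ : ℂ, ‖(𝓕 z : H) ξ‖ ^ 2 ≤ κ ^ 2 * D * Real.pi := by
    have e1 : ∫ ξ : ℂ, ‖(𝓕 z : H) ξ‖ ^ 2 ≤ ∫ ξ : ℂ, (κ * D) ^ 2 * Nw ξ ^ 2 := by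
      refine integral_mono_ae iz (iN.const_mul _) ?_
      filter_upwards [hbd] with ξ hξ
      rw [← mul_pow]
      exact pow_le_pow_left₀ (norm_nonneg _) hξ.1 2
    rw [integral_const_mul, Nw_sq_all] at e1
    refine e1.trans ?_
    have e2 : D ^ 2 ≤ D := by nlinarith
    have e3 : κ ^ 2 * D ^ 2 ≤ κ ^ 2 * D := mul_le_mul_of_nonneg_left e2 (sq_nonneg κ)
    calc (κ * D) ^ 2 * Real.pi = κ ^ 2 * D ^ 2 * Real.pi := by ring
      _ ≤ _ := mul_le_mul_of_nonneg_right e3 hpi.le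
  have s3 : ∫ ξ in (Metric.closedBall (0 : ℂ) M)ᶜ, ‖(𝓕 z : H) ξ‖ ≤
      lam ^ 2 * D + (1 + lam) ^ 2 * (κ ^ 2 * D * Real.pi) + Real.pi * D / 2 := by
    have t1 : ∫ ξ in (Metric.closedBall (0 : ℂ) M)ᶜ, ‖(𝓕 z : H) ξ‖ ≤
        ∫ ξ in (Metric.closedBall (0 : ℂ) M)ᶜ, G ξ := by
      refine integral_mono_ae ia.integrableOn iG.integrableOn ?_
      filter_upwards [ae_restrict_of_ae hbd] with ξ hξ
      exact hξ.2
    have t2 : ∫ ξ in (Metric.closedBall (0 : ℂ) M)ᶜ, G ξ =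
        (∫ ξ in (Metric.closedBall (0 : ℂ) M)ᶜ, (lam ^ 2 * ‖(𝓕 o : H) ξ‖ ^ 2 +
          (1 + lam) ^ 2 * ‖(𝓕 z : H) ξ‖ ^ 2)) +
        ∫ ξ in (Metric.closedBall (0 : ℂ) M)ᶜ, Nw ξ ^ 2 / 2 :=
      integral_add iG1.integrableOn (iN.div_const 2).integrableOn
    have t3 : ∫ ξ in (Metric.closedBall (0 : ℂ) M)ᶜ, Nw ξ ^ 2 / 2 = Real.pi * D / 2 := by
      rw [integral_div, outer_int hM0, hMi]
    have t4 : ∫ ξ in (Metric.closedBall (0 : ℂ) M)ᶜ, (lam ^ 2 * ‖(𝓕 o : H) ξ‖ ^ 2 +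
          (1 + lam) ^ 2 * ‖(𝓕 z : H) ξ‖ ^ 2) ≤
        ∫ ξ : ℂ, (lam ^ 2 * ‖(𝓕 o : H) ξ‖ ^ 2 + (1 + lam) ^ 2 * ‖(𝓕 z : H) ξ‖ ^ 2) :=
      setIntegral_le_integral iG1 (Eventually.of_forall fun ξ => by positivity)
    have t5 : ∫ ξ : ℂ, (lam ^ 2 * ‖(𝓕 o : H) ξ‖ ^ 2 + (1 + lam) ^ 2 * ‖(𝓕 z : H) ξ‖ ^ 2) =
        lam ^ 2 * D + (1 + lam) ^ 2 * ∫ ξ : ℂ, ‖(𝓕 z : H) ξ‖ ^ 2 := by
      rw [integral_add (io.const_mul _) (iz.const_mul _), integral_const_mul, integral_const_mul,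
        ho2]
    have t6 : (1 + lam) ^ 2 * ∫ ξ : ℂ, ‖(𝓕 z : H) ξ‖ ^ 2 ≤ (1 + lam) ^ 2 * (κ ^ 2 * D * Real.pi) :=
      mul_le_mul_of_nonneg_left iz2 (sq_nonneg _)
    linarith
  have hlog : Real.log (1 / D) ≤ |Real.log D| := by
    rw [one_div, Real.log_inv]
    exact neg_le_abs _
  have hlog0 : 0 ≤ |Real.log D| := abs_nonneg _
  have s4 : κ * D * (Real.pi * Real.log (1 / D)) ≤ κ * D * (Real.pi * |Real.log D|) := by
    gcongr
  have s5 : ∫ ξ : ℂ, ‖(𝓕 z : H) ξ‖ ≤ D * (κ * Real.pi * |Real.log D| + lam ^ 2 +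
      (1 + lam) ^ 2 * κ ^ 2 * Real.pi + Real.pi / 2) := by
    rw [← s1]
    linarith
  refine s5.trans (mul_le_mul_of_nonneg_left ?_ hd0.le)
  unfold CC
  rw [← hκ]
  have p1 : 0 ≤ κ * Real.pi := by positivity
  have p2 : 0 ≤ lam ^ 2 + (1 + lam) ^ 2 * κ ^ 2 * Real.pi + Real.pi / 2 := by positivity
  nlinarith [mul_nonneg p2 hlog0]

theorem CC_mono {lam lam' R : ℝ} (hl : 0 ≤ lam) (hll : lam ≤ lam') (hR : 0 ≤ R) :
    CC lam R ≤ CC lam' R := by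
  have h1 := KK_mono hl hll hR zero_le_one (le_refl (1 : ℝ))
  have h2 := KK_nonneg hl hR
  have hpi := Real.pi_pos
  unfold CC
  gcongr

theorem CC_one {lam R : ℝ} (hl : 0 ≤ lam) (hR : 0 ≤ R) : 1 ≤ CC lam R := by
  have h2 := KK_nonneg hl hR
  have hpi := Real.pi_pos
  unfold CC
  have : 0 ≤ KK lam R 1 * Real.pi + lam ^ 2 + (1 + lam) ^ 2 * KK lam R 1 ^ 2 * Real.pi +
    Real.pi / 2 := by positivity
  linarith

/-- **The areas of two solvable sets are almost equal.** -/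
theorem area_ineq (hm : MeasurableSet E) (hm' : MeasurableSet E') (hl : 0 < lam)
    (hS : Slv E lam) (hS' : Slv E' lam) (hR0 : 0 ≤ R)
    (hR : E ⊆ Metric.closedBall 0 R) (hR' : E' ⊆ Metric.closedBall 0 R) :
    |(volume E).toReal - (volume E').toReal| ≤
      CC lam R * dd E E' ^ 2 * (1 + |Real.log (dd E E')|) := by
  have hb : Bornology.IsBounded E := Metric.isBounded_closedBall.subset hR
  have hb' : Bornology.IsBounded E' := Metric.isBounded_closedBall.subset hR'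
  have h1 := vol_le_dd hm hb hm' hb'
  have hC := CC_one hl.le hR0
  rcases (dd_nonneg E E').eq_or_lt with h0 | h0
  · rw [← h0] at h1 ⊢
    simpa using h1
  rcases le_or_gt (dd E E') 1 with hd1 | hd1
  · obtain ⟨w, a1, a2, a3⟩ := exists_w hm hb hl hS
    obtain ⟨w', b1, b2, b3⟩ := exists_w hm' hb' hl hS'
    have hw : Wf E hm hb lam w := ⟨a1, a2, a3⟩
    have hw' : Wf E' hm' hb' lam w' := ⟨b1, b2, b3⟩
    obtain ⟨i1, i2⟩ := hw.l1 hw' hl hS hS' hR0 hR hR' h0 hd1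
    have e1 := hw.diff hw' hl
    have hms : MeasurableSet (symmDiff E E') := hm.symmDiff hm'
    have hbs : Bornology.IsBounded (symmDiff E E') :=
      (hb.union hb').subset (symmDiff_le_sup)
    have e2 : ∫ x in symmDiff E E', (w - w' : H) x =
        ∫ ξ : ℂ, conj (hat (symmDiff E E') ξ) * (𝓕 (w - w') : H) ξ := by
      rw [← one_inner hms hbs, ← Lp.inner_fourier_eq, L2.inner_def]
      refine integral_congr_ae ?_
      filter_upwards [hat_ft hms hbs] with ξ hξ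
      rw [hξ, RCLike.inner_apply, mul_comm]
    have e3 : ‖∫ ξ : ℂ, conj (hat (symmDiff E E') ξ) * (𝓕 (w - w') : H) ξ‖ ≤
        dd E E' * ∫ ξ : ℂ, ‖(𝓕 (w - w') : H) ξ‖ := by
      rw [← integral_const_mul]
      refine norm_integral_le_of_norm_le (i1.const_mul _) (Eventually.of_forall fun ξ => ?_)
      rw [norm_mul, Complex.norm_conj]
      exact mul_le_mul_of_nonneg_right (hat_le hms ξ) (norm_nonneg _)
    rw [abs_sub_comm, ← e1, e2]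
    refine (Complex.abs_re_le_norm _).trans (e3.trans ?_)
    calc dd E E' * ∫ ξ : ℂ, ‖(𝓕 (w - w') : H) ξ‖
        ≤ dd E E' * (dd E E' * (CC lam R * (1 + |Real.log (dd E E')|))) :=
          mul_le_mul_of_nonneg_left i2 h0.le
      _ = _ := by ring
  · refine h1.trans ?_
    have h2 : 0 ≤ |Real.log (dd E E')| := abs_nonneg _
    have h3 : dd E E' ≤ dd E E' ^ 2 := by nlinarith
    have h4 : dd E E' ^ 2 ≤ CC lam R * dd E E' ^ 2 := by nlinarith [sq_nonneg (dd E E')]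
    have h5 : CC lam R * dd E E' ^ 2 ≤ CC lam R * dd E E' ^ 2 * (1 + |Real.log (dd E E')|) := by
      have : 0 ≤ CC lam R * dd E E' ^ 2 := by positivity
      nlinarith
    linarith

end Pool.Agent.X103.Ar
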