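import Pool.Agent.X103.ArC

/-!
# Nested solvable sets, and paths of solvable sets
-/

set_option autoImplicit false

open MeasureTheory Set Filter Topology

noncomputable section

namespace Pool.Agent.X103.Ar

open Pool.Agent.X103.Nest Pool.Agent.X103.Cm Pool.Agent.TH298.Sch

/-- absorbing the logarithm -/
theorem absorb {D g : ℝ} (hD0 : 0 ≤ D) (hD1 : D ≤ 1) (hg : 0 < g) (hg2 : g < 2) :
    D ^ 2 * (1 + |Real.log D|) ≤ (1 + 1 / g) * D ^ (2 - g) := by
  rcases hD0.eq_or_lt with h | h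
  · rw [← h, Real.zero_rpow (by linarith)]
    simp
  · have h1 := Real.abs_log_mul_self_rpow_lt D g h hD1 hg
    rw [abs_mul, abs_of_nonneg (Real.rpow_nonneg hD0 g)] at h1
    have h2 : D ^ g ≤ 1 := Real.rpow_le_one hD0 hD1 hg.le
    have h3 : D ^ 2 = D ^ (2 - g) * D ^ g := by
      rw [← Real.rpow_add h, sub_add_cancel]
      norm_cast
    have h4 : 0 < D ^ (2 - g) := Real.rpow_pos_of_pos h _
    rw [h3]
    calc D ^ (2 - g) * D ^ g * (1 + |Real.log D|)
        = D ^ (2 - g) * (D ^ g + |Real.log D| * D ^ g) := by ring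
      _ ≤ D ^ (2 - g) * (1 + 1 / g) := by gcongr
      _ = _ := by ring

theorem gap {E E' : Set ℂ} {lam R : ℝ} (hm : MeasurableSet E) (hm' : MeasurableSet E')
    (hl : 0 < lam) (hS : Slv E lam) (hS' : Slv E' lam) (hR0 : 0 ≤ R)
    (hR' : E' ⊆ Metric.closedBall 0 R) (hEE : E ⊆ E') :
    (volume (E' \ E)).toReal = 0 ∨ 1 / (9 * CC lam R ^ 2) ≤ (volume (E' \ E)).toReal := by
  have hR : E ⊆ Metric.closedBall 0 R := hEE.trans hR'
  have hb : Bornology.IsBounded E := Metric.isBounded_closedBall.subset hR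
  have hb' : Bornology.IsBounded E' := Metric.isBounded_closedBall.subset hR'
  have h1 := area_ineq hm hm' hl hS hS' hR0 hR hR'
  have h2 := vol_diff hm hb hm' hb'
  have h3 := dd_eq hm hb hm' hb'
  rw [sdiff_eq_empty.2 hEE, measure_empty, ENNReal.toReal_zero] at h2 h3
  rw [h2, h3, zero_add, zero_sub, abs_neg] at h1
  set D := (volume (E' \ E)).toReal with hD
  have hD0 : 0 ≤ D := ENNReal.toReal_nonneg
  rw [abs_of_nonneg hD0] at h1
  have hC := CC_one hl.le hR0
  rcases hD0.eq_or_lt with h | h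
  · exact Or.inl h.symm
  right
  have hc1 : 1 / (9 * CC lam R ^ 2) ≤ 1 := by
    rw [div_le_one (by positivity)]
    nlinarith
  rcases le_or_gt D 1 with hD1 | hD1
  · have h4 := absorb hD0 hD1 (g := 1 / 2) (by norm_num) (by norm_num)
    have h5 : D ≤ 3 * CC lam R * D ^ (3 / 2 : ℝ) := by
      have : (2 : ℝ) - 1 / 2 = 3 / 2 := by norm_num
      rw [this] at h4
      calc D ≤ CC lam R * D ^ 2 * (1 + |Real.log D|) := h1
        _ = CC lam R * (D ^ 2 * (1 + |Real.log D|)) := by ring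
        _ ≤ CC lam R * ((1 + 1 / (1 / 2)) * D ^ (3 / 2 : ℝ)) := by gcongr
        _ = _ := by ring
    have h6 : D ^ (3 / 2 : ℝ) = D * Real.sqrt D := by
      rw [Real.sqrt_eq_rpow, ← Real.rpow_one_add' hD0 (by norm_num)]
      norm_num
    rw [h6] at h5
    have h7 : 1 ≤ 3 * CC lam R * Real.sqrt D := by
      refine le_of_mul_le_mul_left ?_ h
      calc D * 1 = D := mul_one D
        _ ≤ _ := h5
        _ = _ := by ring
    rw [div_le_iff₀ (by positivity)]
    have h8 := Real.sq_sqrt hD0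
    have h9 : 1 ≤ (3 * CC lam R * Real.sqrt D) ^ 2 := one_le_pow₀ h7
    calc (1 : ℝ) ≤ (3 * CC lam R * Real.sqrt D) ^ 2 := h9
      _ = Real.sqrt D ^ 2 * (9 * CC lam R ^ 2) := by ring
      _ = _ := by rw [h8]
  · linarith

theorem const_of_small {J : Set ℝ} (hJ : J.OrdConnected) {f : ℝ → ℝ}
    (h : ∀ t0 ∈ J, ∃ C p : ℝ, 0 ≤ C ∧ 1 < p ∧
      ∀ᶠ t in 𝓝[J] t0, |f t - f t0| ≤ C * |t - t0| ^ p) :
    ∀ s ∈ J, ∀ t ∈ J, f s = f t := by
  have hd : ∀ t0 ∈ J, HasDerivWithinAt f 0 J t0 := by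
    intro t0 ht0
    obtain ⟨C, p, hC, hp, he⟩ := h t0 ht0
    rw [hasDerivWithinAt_iff_isLittleO, Asymptotics.isLittleO_iff]
    intro c hc
    have h1 : Tendsto (fun t : ℝ => C * |t - t0| ^ (p - 1)) (𝓝[J] t0) (𝓝 0) := by
      have h2 : Tendsto (fun t : ℝ => |t - t0|) (𝓝[J] t0) (𝓝 0) := by
        have : Continuous fun t : ℝ => |t - t0| := by fun_prop
        have h3 := this.tendsto t0
        simp only [sub_self, abs_zero] at h3
        exact h3.mono_left nhdsWithin_le_nhds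
      have h4 := (h2.rpow_const (p := p - 1) (Or.inr (by linarith))).const_mul C
      rw [Real.zero_rpow (by linarith), mul_zero] at h4
      exact h4
    filter_upwards [he, h1.eventually_le_const hc] with t a1 a2
    rw [smul_zero, sub_zero, Real.norm_eq_abs, Real.norm_eq_abs]
    refine a1.trans ?_
    have h5 : |t - t0| ^ p = |t - t0| ^ (p - 1) * |t - t0| := by
      conv_rhs => rw [← Real.rpow_one |t - t0|]
      rw [Real.rpow_one, ← Real.rpow_add_one' (abs_nonneg _) (by linarith), sub_add_cancel]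
    rw [h5, ← mul_assoc]
    exact mul_le_mul_of_nonneg_right a2 (abs_nonneg _)
  intro s hs t ht
  have h1 := hJ.convex.norm_image_sub_le_of_norm_hasDerivWithin_le (C := 0) hd
    (fun x _ => by simp) hs ht
  rw [zero_mul, norm_le_zero_iff, sub_eq_zero] at h1
  exact h1.symm

theorem path_eq {J : Set ℝ} (hJ : J.OrdConnected) {E : ℝ → Set ℂ} {lam R L a : ℝ}
    (hm : ∀ t ∈ J, MeasurableSet (E t)) (hR0 : 0 ≤ R)
    (hR : ∀ t ∈ J, E t ⊆ Metric.closedBall 0 R) (hl : 0 < lam) (hS : ∀ t ∈ J, Slv (E t) lam)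
    (hL0 : 0 ≤ L) (ha : 1 / 2 < a)
    (hL : ∀ s ∈ J, ∀ t ∈ J, dd (E s) (E t) ≤ L * |s - t| ^ a) :
    ∀ s ∈ J, ∀ t ∈ J, (volume (E s)).toReal = (volume (E t)).toReal := by
  refine const_of_small hJ fun t0 ht0 => ?_
  have ha0 : 0 < a := by linarith
  set g : ℝ := 1 - 1 / (2 * a) with hg
  have h2a : 1 / (2 * a) < 1 := by
    rw [div_lt_one (by positivity)]
    linarith
  have h2a' : 0 < 1 / (2 * a) := by positivity
  have hC := CC_one hl.le hR0
  refine ⟨CC lam R * ((1 + 1 / g) * L ^ (2 - g)), a * (2 - g), ?_, ?_, ?_⟩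
  · have : 0 < g := by linarith
    positivity
  · rw [hg]
    field_simp
    linarith
  · have h1 : Tendsto (fun t : ℝ => L * |t - t0| ^ a) (𝓝[J] t0) (𝓝 0) := by
      have h2 : Tendsto (fun t : ℝ => |t - t0|) (𝓝[J] t0) (𝓝 0) := by
        have : Continuous fun t : ℝ => |t - t0| := by fun_prop
        have h3 := this.tendsto t0
        simp only [sub_self, abs_zero] at h3
        exact h3.mono_left nhdsWithin_le_nhds
      have h4 := (h2.rpow_const (p := a) (Or.inr ha0.le)).const_mul L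
      rw [Real.zero_rpow ha0.ne', mul_zero] at h4
      exact h4
    filter_upwards [h1.eventually_le_const one_pos, self_mem_nhdsWithin] with t a1 a2
    have h2 := hL t a2 t0 ht0
    have h3 := area_ineq (hm t a2) (hm t0 ht0) hl (hS t a2) (hS t0 ht0) hR0 (hR t a2) (hR t0 ht0)
    have h4 := absorb (dd_nonneg (E t) (E t0)) (h2.trans a1) (g := g) (by linarith) (by linarith)
    have h5 : dd (E t) (E t0) ^ (2 - g) ≤ (L * |t - t0| ^ a) ^ (2 - g) :=
      Real.rpow_le_rpow (dd_nonneg _ _) h2 (by linarith)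
    have h6 : (L * |t - t0| ^ a) ^ (2 - g) = L ^ (2 - g) * |t - t0| ^ (a * (2 - g)) := by
      rw [Real.mul_rpow hL0 (Real.rpow_nonneg (abs_nonneg _) _), ← Real.rpow_mul (abs_nonneg _)]
    have h7 : 0 < 1 + 1 / g := by
      have : 0 < g := by linarith
      positivity
    calc |(volume (E t)).toReal - (volume (E t0)).toReal|
        ≤ CC lam R * (dd (E t) (E t0) ^ 2 * (1 + |Real.log (dd (E t) (E t0))|)) := by
          rw [← mul_assoc]
          exact h3
      _ ≤ CC lam R * ((1 + 1 / g) * (L ^ (2 - g) * |t - t0| ^ (a * (2 - g)))) := by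
          rw [← h6]
          refine mul_le_mul_of_nonneg_left (h4.trans ?_) (by linarith)
          exact mul_le_mul_of_nonneg_left h5 h7.le
      _ = _ := by ring

end Pool.Agent.X103.Ar
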