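import Mathlib

/-!
# Convergence of convex sets
-/

set_option autoImplicit false

open MeasureTheory Set Filter Topology Metric TopologicalSpace
open scoped Pointwise

noncomputable section

namespace Pool.Agent.X103.Cm

/-- Blaschke's selection theorem, for sequences of compact sets in a ball -/
theorem select {K : ℕ → Set ℂ} {D : ℝ} (hK : ∀ n, IsCompact (K n)) (hne : ∀ n, (K n).Nonempty)
    (hD : ∀ n, K n ⊆ closedBall 0 D) :
    ∃ (L : Set ℂ) (φ : ℕ → ℕ), IsCompact L ∧ L.Nonempty ∧ L ⊆ closedBall 0 D ∧ StrictMono φ ∧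
      ∀ ε : ℝ, 0 < ε → ∀ᶠ n in atTop, (∀ x ∈ K (φ n), ∃ y ∈ L, dist x y < ε) ∧
        (∀ y ∈ L, ∃ x ∈ K (φ n), dist x y < ε) := by
  have : CompactSpace (closedBall (0 : ℂ) D) := isCompact_iff_compactSpace.1 (isCompact_closedBall 0 D)
  have hpc : ∀ n, IsCompact (((↑) : closedBall (0 : ℂ) D → ℂ) ⁻¹' K n) := fun n =>
    ((hK n).isClosed.preimage continuous_subtype_val).isCompact
  have hpn : ∀ n, (((↑) : closedBall (0 : ℂ) D → ℂ) ⁻¹' K n).Nonempty := fun n => by
    obtain ⟨x, hx⟩ := hne n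
    exact ⟨⟨x, hD n hx⟩, hx⟩
  set T : ℕ → NonemptyCompacts (closedBall (0 : ℂ) D) := fun n => ⟨⟨_, hpc n⟩, hpn n⟩ with hT
  obtain ⟨L, φ, hφ, hL⟩ := CompactSpace.tendsto_subseq T
  refine ⟨(↑) '' (L : Set (closedBall (0 : ℂ) D)), φ, L.isCompact.image continuous_subtype_val,
    L.nonempty.image _, ?_, hφ, ?_⟩
  · rintro _ ⟨x, _, rfl⟩
    exact x.2
  · intro ε hε
    have h1 := (Metric.tendsto_nhds.1 hL) ε hε
    filter_upwards [h1] with n hn
    simp only [Function.comp] at hn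
    rw [NonemptyCompacts.dist_eq] at hn
    have hfin : hausdorffEDist (T (φ n) : Set (closedBall (0 : ℂ) D)) L ≠ ⊤ :=
      hausdorffEDist_ne_top_of_nonempty_of_bounded (T (φ n)).nonempty L.nonempty
        (T (φ n)).isCompact.isBounded L.isCompact.isBounded
    constructor
    · intro x hx
      obtain ⟨y, hy, hxy⟩ := exists_dist_lt_of_hausdorffDist_lt
        (x := (⟨x, hD _ hx⟩ : closedBall (0 : ℂ) D)) (show _ ∈ (T (φ n) : Set _) from hx) hn hfin
      exact ⟨y, ⟨y, hy, rfl⟩, hxy⟩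
    · rintro _ ⟨y, hy, rfl⟩
      obtain ⟨x, hx, hxy⟩ := exists_dist_lt_of_hausdorffDist_lt' hy hn hfin
      exact ⟨x, hx, hxy⟩

/-- the limit of convex sets is convex -/
theorem limit_convex {K : ℕ → Set ℂ} {L : Set ℂ} (hK : ∀ n, Convex ℝ (K n)) (hL : IsClosed L)
    (h : ∀ ε : ℝ, 0 < ε → ∀ᶠ n in atTop, (∀ x ∈ K n, ∃ y ∈ L, dist x y < ε) ∧
        (∀ y ∈ L, ∃ x ∈ K n, dist x y < ε)) : Convex ℝ L := by
  intro x hx y hy a b ha hb hab
  rw [← hL.closure_eq, Metric.mem_closure_iff]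
  intro ε hε
  obtain ⟨n, h1, h2⟩ := (h (ε / 2) (by linarith)).exists
  obtain ⟨x', hx', dx⟩ := h2 x hx
  obtain ⟨y', hy', dy⟩ := h2 y hy
  obtain ⟨z, hz, dz⟩ := h1 _ (hK n hx' hy' ha hb hab)
  refine ⟨z, hz, ?_⟩
  have h3 : dist (a • x + b • y) (a • x' + b • y') ≤ ε / 2 := by
    rw [dist_eq_norm]
    have e : a • x + b • y - (a • x' + b • y') = a • (x - x') + b • (y - y') := by
      simp only [smul_sub]
      abel
    rw [e]
    have h4 : ‖x - x'‖ ≤ ε / 2 := by
      rw [← dist_eq_norm, dist_comm]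
      exact dx.le
    have h5 : ‖y - y'‖ ≤ ε / 2 := by
      rw [← dist_eq_norm, dist_comm]
      exact dy.le
    calc ‖a • (x - x') + b • (y - y')‖ ≤ ‖a • (x - x')‖ + ‖b • (y - y')‖ := norm_add_le _ _
      _ = a * ‖x - x'‖ + b * ‖y - y'‖ := by
        rw [norm_smul, norm_smul, Real.norm_of_nonneg ha, Real.norm_of_nonneg hb]
      _ ≤ a * (ε / 2) + b * (ε / 2) := by gcongr
      _ = ε / 2 := by rw [← add_mul, hab, one_mul]
  calc dist (a • x + b • y) z ≤ dist (a • x + b • y) (a • x' + b • y') + dist (a • x' + b • y') z :=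
        dist_triangle _ _ _
    _ < ε / 2 + ε / 2 := by linarith
    _ = ε := by ring

/-- a convex set with positive widths has interior points -/
theorem int_of_width {L : Set ℂ} (hL : Convex ℝ L) (hne : L.Nonempty)
    (hw : ∀ e : ℂ, ‖e‖ = 1 → ∃ x ∈ L, ∃ y ∈ L, 0 < (inner ℝ e (x - y) : ℝ)) :
    (interior L).Nonempty := by
  rw [hL.interior_nonempty_iff_affineSpan_eq_top]
  by_contra hh
  have hdir : (affineSpan ℝ L).direction ≠ ⊤ := by
    intro h
    exact hh ((AffineSubspace.direction_eq_top_iff_of_nonempty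
      ((affineSpan_nonempty ℝ).2 hne)).1 h)
  have hort : (affineSpan ℝ L).directionᗮ ≠ ⊥ := by
    intro h
    exact hdir ((Submodule.orthogonal_eq_bot_iff).1 h)
  obtain ⟨e, he, he0⟩ := Submodule.exists_mem_ne_zero_of_ne_bot hort
  have hn : 0 < ‖e‖ := norm_pos_iff.2 he0
  obtain ⟨x, hx, y, hy, h1⟩ := hw (‖e‖⁻¹ • e) (by
    rw [norm_smul, norm_inv, norm_norm, inv_mul_cancel₀ hn.ne'])
  have h2 : x - y ∈ (affineSpan ℝ L).direction :=
    AffineSubspace.vsub_mem_direction (subset_affineSpan ℝ L hx) (subset_affineSpan ℝ L hy)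
  have h3 : (inner ℝ (x - y) e : ℝ) = 0 := (Submodule.mem_orthogonal _ _).1 he _ h2
  rw [real_inner_smul_left, real_inner_comm, h3, mul_zero] at h1
  exact lt_irrefl _ h1

/-- inner approximation -/
theorem inner_approx {Ω : ℕ → Set ℂ} {L : Set ℂ} (ho : ∀ n, IsOpen (Ω n))
    (hcv : ∀ n, Convex ℝ (Ω n))
    (h : ∀ ε : ℝ, 0 < ε → ∀ᶠ n in atTop, (∀ x ∈ closure (Ω n), ∃ y ∈ L, dist x y < ε) ∧
        (∀ y ∈ L, ∃ x ∈ closure (Ω n), dist x y < ε))
    {C : Set ℂ} (hC : IsCompact C) (hCL : C ⊆ interior L) : ∀ᶠ n in atTop, C ⊆ Ω n := by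
  obtain ⟨δ, hδ, hsub⟩ := hC.exists_cthickening_subset_open isOpen_interior hCL
  filter_upwards [h (δ / 2) (by linarith)] with n hn
  intro x hx
  by_contra hxn
  obtain ⟨f, hf⟩ := geometric_hahn_banach_open_point (hcv n) (ho n) hxn
  set e : ℂ := (InnerProductSpace.toDual ℝ ℂ).symm f with he
  have hfe : ∀ y, f y = (inner ℝ e y : ℝ) := fun y => by
    rw [he, InnerProductSpace.toDual_symm_apply]
  have hclo : ∀ y ∈ closure (Ω n), f y ≤ f x := by
    intro y hy
    have hcl : IsClosed {y | f y ≤ f x} := isClosed_le f.continuous continuous_const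
    exact closure_minimal (fun a ha => (hf a ha).le) hcl hy
  have he0 : e ≠ 0 := by
    intro h0
    obtain ⟨y, hy, _⟩ := hn.2 x (interior_subset (hCL hx))
    have hne : (Ω n).Nonempty := closure_nonempty_iff.1 ⟨y, hy⟩
    obtain ⟨a, ha⟩ := hne
    have := hf a ha
    rw [hfe, hfe, h0, inner_zero_left, inner_zero_left] at this
    exact lt_irrefl _ this
  have hen : 0 < ‖e‖ := norm_pos_iff.2 he0
  have hz : x + (δ / ‖e‖) • e ∈ L := by
    refine interior_subset (hsub ?_)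
    refine mem_cthickening_of_dist_le _ x δ C hx ?_
    rw [dist_eq_norm, add_sub_cancel_left, norm_smul, Real.norm_of_nonneg (by positivity)]
    exact le_of_eq (by field_simp)
  obtain ⟨y, hy, hyd⟩ := hn.2 _ hz
  have h1 := hclo y hy
  have h2 : f y = f (x + (δ / ‖e‖) • e) + f (y - (x + (δ / ‖e‖) • e)) := by
    rw [← map_add]
    congr 1
    abel
  have h3 : f (x + (δ / ‖e‖) • e) = f x + δ * ‖e‖ := by
    rw [map_add, map_smul, smul_eq_mul, hfe e, real_inner_self_eq_norm_sq]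
    field_simp
  have h4 : |f (y - (x + (δ / ‖e‖) • e))| ≤ ‖e‖ * (δ / 2) := by
    rw [hfe]
    refine (abs_real_inner_le_norm _ _).trans ?_
    rw [← dist_eq_norm]
    exact mul_le_mul_of_nonneg_left hyd.le hen.le
  have h5 := (abs_le.1 h4).1
  have h6 : 0 < δ * ‖e‖ := mul_pos hδ hen
  nlinarith

/-- outer approximation -/
theorem outer_approx {Ω : ℕ → Set ℂ} {L : Set ℂ} (hL : IsCompact L)
    (h : ∀ ε : ℝ, 0 < ε → ∀ᶠ n in atTop, (∀ x ∈ closure (Ω n), ∃ y ∈ L, dist x y < ε) ∧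
        (∀ y ∈ L, ∃ x ∈ closure (Ω n), dist x y < ε))
    {U : Set ℂ} (hU : IsOpen U) (hLU : L ⊆ U) : ∀ᶠ n in atTop, Ω n ⊆ U := by
  obtain ⟨δ, hδ, hsub⟩ := hL.exists_thickening_subset_open hU hLU
  filter_upwards [h δ hδ] with n hn
  intro x hx
  obtain ⟨y, hy, hxy⟩ := hn.1 x (subset_closure hx)
  exact hsub (mem_thickening_iff.2 ⟨y, hy, hxy⟩)

/-- area of the plane rectangles -/
theorem vol_square : volume {z : ℂ | z.re ∈ Icc (0 : ℝ) (1 / 2) ∧ z.im ∈ Icc (0 : ℝ) (1 / 2)} =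
    ENNReal.ofReal (1 / 4) := by
  have h1 : {z : ℂ | z.re ∈ Icc (0 : ℝ) (1 / 2) ∧ z.im ∈ Icc (0 : ℝ) (1 / 2)} =
      Complex.measurableEquivRealProd ⁻¹' (Icc (0 : ℝ) (1 / 2) ×ˢ Icc (0 : ℝ) (1 / 2)) := by
    ext z
    rfl
  rw [h1, Complex.volume_preserving_equiv_real_prod.measure_preimage
    (measurableSet_Icc.prod measurableSet_Icc).nullMeasurableSet, Measure.volume_eq_prod,
    Measure.prod_prod, Real.volume_Icc, ← ENNReal.ofReal_mul (by norm_num)]
  norm_num

/-- the linear map with given values at `1` and `I` -/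
def lm (a b : ℂ) : ℂ →ₗ[ℝ] ℂ where
  toFun z := z.re • a + z.im • b
  map_add' x y := by
    simp only [Complex.add_re, Complex.add_im, add_smul]
    abel
  map_smul' r x := by
    simp only [Complex.real_smul, Complex.re_ofReal_mul, Complex.im_ofReal_mul, RingHom.id_apply,
      smul_add, mul_smul]

theorem lm_det (a b : ℂ) : LinearMap.det (lm a b) = a.re * b.im - a.im * b.re := by
  rw [← LinearMap.det_toMatrix Complex.basisOneI, Matrix.det_fin_two]
  simp [LinearMap.toMatrix_apply, lm]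
  ring

/-- the area of a convex set which contains three points -/
theorem tri {S : Set ℂ} (hS : Convex ℝ S) (hfin : volume S ≠ ⊤) {p q r : ℂ} (hp : p ∈ S)
    (hq : q ∈ S) (hr : r ∈ S) :
    |(q - p).re * (r - p).im - (q - p).im * (r - p).re| / 4 ≤ (volume S).toReal := by
  set Q : Set ℂ := {z : ℂ | z.re ∈ Icc (0 : ℝ) (1 / 2) ∧ z.im ∈ Icc (0 : ℝ) (1 / 2)} with hQ
  have h1 : (fun z => z + p) '' (lm (q - p) (r - p) '' Q) ⊆ S := by
    rintro _ ⟨_, ⟨z, ⟨⟨hz1, hz2⟩, hz3, hz4⟩, rfl⟩, rfl⟩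
    have e : lm (q - p) (r - p) z + p = (1 - z.re - z.im) • p + z.re • q + z.im • r := by
      show z.re • (q - p) + z.im • (r - p) + p = _
      simp only [smul_sub, sub_smul, one_smul]
      abel
    simp only
    rw [e]
    have h2 := hS.sum_mem (t := (Finset.univ : Finset (Fin 3)))
      (w := ![1 - z.re - z.im, z.re, z.im]) (z := ![p, q, r]) ?_ ?_ ?_
    · simpa [Fin.sum_univ_three] using h2
    · intro i _
      fin_cases i
      · show 0 ≤ 1 - z.re - z.im
        linarith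
      · exact hz1
      · exact hz3
    · rw [Fin.sum_univ_three]
      show 1 - z.re - z.im + z.re + z.im = 1
      ring
    · intro i _
      fin_cases i
      · exact hp
      · exact hq
      · exact hr
  have h2 : volume ((fun z => z + p) '' (lm (q - p) (r - p) '' Q)) =
      ENNReal.ofReal |(q - p).re * (r - p).im - (q - p).im * (r - p).re| *
        ENNReal.ofReal (1 / 4) := by
    rw [image_add_right, measure_preimage_add_right, Measure.addHaar_image_linearMap, lm_det,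
      vol_square]
  have h3 := measure_mono (μ := volume) h1
  rw [h2, ← ENNReal.ofReal_mul (abs_nonneg _)] at h3
  have h4 := ENNReal.toReal_mono hfin h3
  rw [ENNReal.toReal_ofReal (by positivity)] at h4
  linarith

/-- **Diameter bound**: a convex set of widths larger than `w` -/
theorem diam_le {S : Set ℂ} (hS : Convex ℝ S) (hfin : volume S ≠ ⊤) {w : ℝ}
    (hw : ∀ e : ℂ, ‖e‖ = 1 → ∃ x ∈ S, ∃ y ∈ S, w < (inner ℝ e (x - y) : ℝ)) {x y : ℂ}
    (hx : x ∈ S) (hy : y ∈ S) : ‖y - x‖ * w ≤ 8 * (volume S).toReal := by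
  rcases eq_or_ne x y with h | h
  · rw [h, sub_self, norm_zero, zero_mul]
    exact mul_nonneg (by norm_num) ENNReal.toReal_nonneg
  have hd : 0 < ‖y - x‖ := norm_pos_iff.2 (sub_ne_zero.2 h.symm)
  set e : ℂ := (‖y - x‖⁻¹ : ℝ) • (Complex.I * (y - x)) with he
  have hen : ‖e‖ = 1 := by
    rw [he, norm_smul, norm_mul, Complex.norm_I, one_mul, norm_inv, norm_norm,
      inv_mul_cancel₀ hd.ne']
  obtain ⟨r, hr, s, hs, hrs⟩ := hw e hen
  have hdet : ∀ t : ℂ, ‖y - x‖ * (inner ℝ e (t - x) : ℝ) =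
      (y - x).re * (t - x).im - (y - x).im * (t - x).re := by
    intro t
    rw [he, real_inner_smul_left, ← mul_assoc, mul_inv_cancel₀ hd.ne', one_mul, Complex.inner]
    simp
    ring
  have h1 := tri hS hfin hx hy hr
  have h2 := tri hS hfin hx hy hs
  rw [← hdet, abs_mul, abs_of_pos hd] at h1 h2
  have h3 : (inner ℝ e (r - s) : ℝ) = inner ℝ e (r - x) - inner ℝ e (s - x) := by
    rw [← inner_sub_right]
    congr 1
    abel
  have h4 : w ≤ |(inner ℝ e (r - x) : ℝ)| + |(inner ℝ e (s - x) : ℝ)| := by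
    have a1 := le_abs_self (inner ℝ e (r - x) : ℝ)
    have a2 := neg_abs_le (inner ℝ e (s - x) : ℝ)
    linarith
  have h5 : ‖y - x‖ * w ≤ ‖y - x‖ * (|(inner ℝ e (r - x) : ℝ)| + |(inner ℝ e (s - x) : ℝ)|) :=
    mul_le_mul_of_nonneg_left h4 hd.le
  nlinarith

end Pool.Agent.X103.Cm
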