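import Pool.Agent.X103.CmC
import Pool.Agent.X103.CmD
import Pool.Agent.TH298.GB.Main
import Pool.Agent.TH259.NA.Conv2
import Pool.Agent.Y362.LR.Bouj
import Pool.Agent.Y971.LR.Win
import Pool.Agent.Y473.LR.Non
import Pool.Agent.Y473.LR.Fin
import Pool.Agent.Y245.SG.Main

/-!
# Compactness of the set of convex counterexamples
-/

set_option autoImplicit false

open MeasureTheory Set Filter Topology Metric
open scoped Pointwise

noncomputable section

namespace Pool.Agent.X103.Cm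

open Pool.Agent.X103.Nest Pool.Agent.TH298.Sch

/-- convex counterexamples -/
def CE (Ω : Set ℂ) (lam : ℝ) : Prop :=
  IsOpen Ω ∧ Bornology.IsBounded Ω ∧ Ω.Nonempty ∧ Convex ℝ Ω ∧ 0 < lam ∧ Slv Ω lam ∧
    ¬ ∃ (p : ℂ) (r : ℝ), 0 < r ∧ Ω = ball p r

theorem CE.width {Ω : Set ℂ} {lam : ℝ} (h : CE Ω lam) {e : ℂ} (he : ‖e‖ = 1) {w : ℝ}
    (hw : Real.sqrt lam * w < 4 * Real.pi) : ∃ x ∈ Ω, ∃ y ∈ Ω, w < (inner ℝ e (x - y) : ℝ) := by
  obtain ⟨ho, hb, hne, hcv, hl, ⟨c, u, G, hS, hu⟩, hnd⟩ := h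
  by_contra hh
  push Not at hh
  exact hnd (Pool.Agent.TH298.GB.first_band ho hcv hb hne hl he hh hw hS hu)

theorem discs (T : ℝ) (hT : 0 < T) : ∃ ε : ℝ, 0 < ε ∧ ε < 1 ∧
    ∀ (Ω : Set ℂ) (lam r : ℝ) (q : ℂ), IsOpen Ω → Bornology.IsBounded Ω → IsPreconnected Ωᶜ →
      interior (closure Ω) = Ω → volume (frontier Ω) = 0 → 0 < lam → 0 < r → √lam * r ≤ T →
      ball q ((1 - ε) * r) ⊆ Ω → Ω ⊆ closedBall q ((1 + ε) * r) → Slv Ω lam →
      ∃ (p : ℂ) (r' : ℝ), 0 < r' ∧ Ω = ball p r' := by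
  obtain ⟨ε, h0, h1, h⟩ := Pool.Agent.Y473.LR.lrf Pool.Agent.Y971.LR.win Pool.Agent.Y971.LR.small
    Pool.Agent.Y473.LR.non (Pool.Agent.Y362.LR.bouj Pool.Agent.Y245.SG.bourget) T hT
  refine ⟨ε, h0, h1, ?_⟩
  intro Ω lam r q hΩ hb hc hi hf hlam hr hT' hin hout hS
  obtain ⟨c, u, G, hS, hu0⟩ := hS
  have hne : Ω.Nonempty := (nonempty_ball.2 (mul_pos (by linarith) hr)).mono hin
  obtain ⟨p, r', hr', e, -⟩ := h Ω lam c r q u G hΩ hb hne hc hi hf hlam hr hT'
    hin hout hS hu0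
  exact ⟨p, r', hr', e⟩

theorem hat_at_zero {E : Set ℂ} (hm : MeasurableSet E) (hb : Bornology.IsBounded E) :
    hat E 0 = ((volume E).toReal : ℂ) := by
  unfold hat
  rw [ex_ft hm (ci hb 1)]
  simp [Measure.real]

/-- normalized sequences -/
theorem norm_seq {Ω : ℕ → Set ℂ} (h : ∀ n, CE (Ω n) 1) (h0 : ∀ n, (0 : ℂ) ∈ Ω n) {A : ℝ}
    (hA : ∀ n, (volume (Ω n)).toReal ≤ A) :
    ∃ (L : Set ℂ) (φ : ℕ → ℕ), CE L 1 ∧ StrictMono φ ∧
      (∀ C : Set ℂ, IsCompact C → C ⊆ L → ∀ᶠ n in atTop, C ⊆ Ω (φ n)) ∧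
      (∀ U : Set ℂ, IsOpen U → closure L ⊆ U → ∀ᶠ n in atTop, Ω (φ n) ⊆ U) ∧
      Tendsto (fun n => (volume (Ω (φ n))).toReal) atTop (𝓝 (volume L).toReal) := by
  have hpi := Real.pi_gt_three
  have hw : ∀ n, ∀ e : ℂ, ‖e‖ = 1 → ∃ x ∈ Ω n, ∃ y ∈ Ω n, 1 < (inner ℝ e (x - y) : ℝ) :=
    fun n e he => (h n).width he (by rw [Real.sqrt_one]; linarith)
  have hfin : ∀ n, volume (Ω n) ≠ ⊤ := fun n => (h n).2.1.measure_lt_top.ne
  have hsub : ∀ n, Ω n ⊆ closedBall 0 (8 * A) := by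
    intro n x hx
    have h1 := diam_le (h n).2.2.2.1 (hfin n) (hw n) (h0 n) hx
    rw [mem_closedBall_zero_iff]
    rw [sub_zero, mul_one] at h1
    have := hA n
    linarith
  have hA0 : 0 ≤ 8 * A := by
    have := hsub 0 (h0 0)
    simpa using this
  obtain ⟨L, φ, hLc, hLne, hLs, hφ, hconv⟩ := select (K := fun n => closure (Ω n)) (D := 8 * A)
    (fun n => (h n).2.1.isCompact_closure) (fun n => ⟨0, subset_closure (h0 n)⟩)
    (fun n => closure_minimal (hsub n) isClosed_closedBall)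
  have hLcv : Convex ℝ L := limit_convex (K := fun n => closure (Ω (φ n)))
    (fun n => (h (φ n)).2.2.2.1.closure) hLc.isClosed hconv
  have hint : (interior L).Nonempty := by
    refine int_of_width hLcv hLne fun e he => ?_
    obtain ⟨n, h1, _⟩ := (hconv (1 / 4) (by norm_num)).exists
    obtain ⟨x, hx, y, hy, hxy⟩ := hw (φ n) e he
    obtain ⟨x', hx', dx⟩ := h1 x (subset_closure hx)
    obtain ⟨y', hy', dy⟩ := h1 y (subset_closure hy)
    refine ⟨x', hx', y', hy', ?_⟩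
    have e1 : x' - y' = (x - y) - (x - x') + (y - y') := by abel
    rw [e1, inner_add_right, inner_sub_right]
    have a1 : |(inner ℝ e (x - x') : ℝ)| ≤ 1 / 4 := by
      refine (abs_real_inner_le_norm _ _).trans ?_
      rw [he, one_mul, ← dist_eq_norm]
      exact dx.le
    have a2 : |(inner ℝ e (y - y') : ℝ)| ≤ 1 / 4 := by
      refine (abs_real_inner_le_norm _ _).trans ?_
      rw [he, one_mul, ← dist_eq_norm]
      exact dy.le
    have a3 := (abs_le.1 a1).2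
    have a4 := (abs_le.1 a2).1
    linarith
  have hcl : closure (interior L) = L := by
    rw [hLcv.closure_interior_eq_closure_of_nonempty_interior hint, hLc.isClosed.closure_eq]
  have hin : ∀ C : Set ℂ, IsCompact C → C ⊆ interior L → ∀ᶠ n in atTop, C ⊆ Ω (φ n) :=
    fun C hC hCL => inner_approx (Ω := fun n => Ω (φ n)) (fun n => (h (φ n)).1)
      (fun n => (h (φ n)).2.2.2.1) hconv hC hCL
  have hout : ∀ U : Set ℂ, IsOpen U → L ⊆ U → ∀ᶠ n in atTop, Ω (φ n) ⊆ U :=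
    fun U hU hLU => outer_approx (Ω := fun n => Ω (φ n)) hLc hconv hU hLU
  have hfr : volume (frontier (interior L)) = 0 := hLcv.interior.addHaar_frontier volume
  have hbL : Bornology.IsBounded (interior L) := hLc.isBounded.subset interior_subset
  have hadm : Adm (interior L) := ⟨isOpen_interior, hbL, hint, hfr⟩
  have hae : ∀ᵐ x : ℂ, (x ∈ interior L → ∀ᶠ n in atTop, x ∈ Ω (φ n)) ∧
      (x ∉ interior L → ∀ᶠ n in atTop, x ∉ Ω (φ n)) := by
    have h1 : ∀ᵐ x : ℂ, x ∉ frontier (interior L) := measure_eq_zero_iff_ae_notMem.1 hfr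
    filter_upwards [h1] with x hx
    constructor
    · intro hxL
      filter_upwards [hin {x} isCompact_singleton (singleton_subset_iff.2 hxL)] with n hn
      exact hn rfl
    · intro hxL
      have h2 : x ∉ L := by
        intro h3
        apply hx
        rw [isOpen_interior.frontier_eq, hcl]
        exact ⟨h3, hxL⟩
      filter_upwards [hout {x}ᶜ isOpen_compl_singleton (subset_compl_singleton_iff.2 h2)]
        with n hn hxn
      exact hn hxn rfl
  have hSlv : Slv (interior L) 1 := closed_ae (E := fun n => Ω (φ n)) (lam := fun _ => 1) hA0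
    (fun n => (h (φ n)).1.measurableSet) (fun n => hsub (φ n)) (fun _ => one_pos)
    (fun n => (h (φ n)).2.2.2.2.2.1) tendsto_const_nhds hadm hae
  refine ⟨interior L, φ, ⟨isOpen_interior, hbL, hint, hLcv.interior, one_pos, hSlv, ?_⟩, hφ, hin,
    ?_, ?_⟩
  · rintro ⟨p, r, hr, hLr⟩
    obtain ⟨ε, he0, he1, hd⟩ := discs r hr
    have h1 := hin (closedBall p ((1 - ε) * r)) (isCompact_closedBall _ _) (by
      rw [hLr]
      exact closedBall_subset_ball (by nlinarith))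
    have h2 := hout (ball p ((1 + ε) * r)) isOpen_ball (by
      rw [← hcl, hLr]
      exact closure_ball_subset_closedBall.trans (closedBall_subset_ball (by nlinarith)))
    obtain ⟨n, hn1, hn2⟩ := (h1.and h2).exists
    obtain ⟨ho, hb, hne, hcv, _, hS, hnd⟩ := h (φ n)
    refine hnd (hd (Ω (φ n)) 1 r p ho hb
      (TH259.NA.compl_conn hcv hb (h0 (φ n))) ?_ (hcv.addHaar_frontier volume) one_pos hr
      (by rw [Real.sqrt_one, one_mul]) (ball_subset_closedBall.trans hn1)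
      (hn2.trans ball_subset_closedBall) hS)
    rw [hcv.interior_closure_eq_interior_of_nonempty_interior (by rwa [ho.interior_eq]),
      ho.interior_eq]
  · intro U hU hLU
    rw [hcl] at hLU
    exact hout U hU hLU
  · have h1 := hat_tendsto (E := fun n => Ω (φ n)) (fun n => (h (φ n)).1.measurableSet)
      (fun n => hsub (φ n)) hae 0
    rw [hat_at_zero isOpen_interior.measurableSet hbL] at h1
    have h2 : ∀ n, hat (Ω (φ n)) 0 = (((volume (Ω (φ n))).toReal : ℝ) : ℂ) := fun n =>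
      hat_at_zero (h (φ n)).1.measurableSet (h (φ n)).2.1
    simp only [h2] at h1
    have h3 := (Complex.continuous_re.tendsto _).comp h1
    simpa [Function.comp_def] using h3

theorem vol_sim {Ω : Set ℂ} {s : ℝ} (hs : 0 < s) (p : ℂ) :
    (volume (sim s p Ω)).toReal = (s ^ 2)⁻¹ * (volume Ω).toReal := by
  have h1 : sim s p Ω = (fun x : ℂ => s • x) ⁻¹' ((fun x : ℂ => x + p) ⁻¹' Ω) := rfl
  have h2 := Measure.addHaar_preimage_smul (volume : Measure ℂ) hs.ne'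
    ((fun x : ℂ => x + p) ⁻¹' Ω)
  rw [h1, h2, measure_preimage_add_right, Complex.finrank_real_complex, ENNReal.toReal_mul,
    ENNReal.toReal_ofReal (abs_nonneg _), abs_of_pos (by positivity)]

theorem CE.sim {Ω : Set ℂ} {lam : ℝ} (h : CE Ω lam) {s : ℝ} (hs : 0 < s) (p : ℂ) :
    CE (sim s p Ω) (s ^ 2 * lam) := by
  obtain ⟨ho, hb, hne, hcv, hl, hS, hnd⟩ := h
  have hinv : ∀ x : ℂ, x ∈ Ω → s⁻¹ • (x - p) ∈ Cm.sim s p Ω := by
    intro x hx
    show s • (s⁻¹ • (x - p)) + p ∈ Ω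
    rwa [smul_inv_smul₀ hs.ne', sub_add_cancel]
  refine ⟨ho.preimage (by fun_prop), ?_, ?_, ?_, by positivity, slv_sim ho hS hs p, ?_⟩
  · obtain ⟨R, hR⟩ := hb.subset_closedBall 0
    refine (isBounded_closedBall (x := (0 : ℂ)) (r := s⁻¹ * (R + ‖p‖))).subset fun x hx => ?_
    rw [mem_closedBall_zero_iff]
    have h1 : ‖s • x + p‖ ≤ R := by
      have := hR (show s • x + p ∈ Ω from hx)
      simpa using this
    have h2 : ‖s • x‖ ≤ ‖s • x + p‖ + ‖p‖ := by
      have := norm_sub_le (s • x + p) p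
      rwa [add_sub_cancel_right] at this
    rw [norm_smul, Real.norm_of_nonneg hs.le] at h2
    rw [le_inv_mul_iff₀ hs]
    linarith
  · obtain ⟨x, hx⟩ := hne
    exact ⟨_, hinv x hx⟩
  · intro x hx y hy a b ha hb hab
    show s • (a • x + b • y) + p ∈ Ω
    have e : s • (a • x + b • y) + p = a • (s • x + p) + b • (s • y + p) := by
      have h1 : p = (a + b) • p := by rw [hab, one_smul]
      calc s • (a • x + b • y) + p = s • (a • x + b • y) + (a + b) • p := by rw [← h1]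
        _ = _ := by
          simp only [smul_add, add_smul, smul_smul, mul_comm s]
          abel
    rw [e]
    exact hcv hx hy ha hb hab
  · rintro ⟨q, r, hr, h⟩
    refine hnd ⟨s • q + p, s * r, by positivity, ?_⟩
    ext x
    have h1 : x ∈ Ω ↔ s⁻¹ • (x - p) ∈ Cm.sim s p Ω := by
      refine ⟨hinv x, fun hx => ?_⟩
      have : s • (s⁻¹ • (x - p)) + p ∈ Ω := hx
      rwa [smul_inv_smul₀ hs.ne', sub_add_cancel] at this
    rw [h1, h, mem_ball, mem_ball, dist_eq_norm, dist_eq_norm]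
    have e : x - (s • q + p) = s • (s⁻¹ • (x - p) - q) := by
      rw [smul_sub, smul_inv_smul₀ hs.ne']
      abel
    rw [e, norm_smul, Real.norm_of_nonneg hs.le]
    exact (mul_lt_mul_iff_right₀ hs).symm

/-- **Compactness.** -/
theorem compact_ce {Ω : ℕ → Set ℂ} {lam : ℕ → ℝ} (h : ∀ n, CE (Ω n) (lam n)) {A : ℝ}
    (hA : ∀ n, lam n * (volume (Ω n)).toReal ≤ A) :
    ∃ (p : ℕ → ℂ) (L : Set ℂ) (φ : ℕ → ℕ), CE L 1 ∧ StrictMono φ ∧
      (∀ C : Set ℂ, IsCompact C → C ⊆ L → ∀ᶠ n in atTop,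
        C ⊆ sim (Real.sqrt (lam (φ n)))⁻¹ (p (φ n)) (Ω (φ n))) ∧
      (∀ U : Set ℂ, IsOpen U → closure L ⊆ U → ∀ᶠ n in atTop,
        sim (Real.sqrt (lam (φ n)))⁻¹ (p (φ n)) (Ω (φ n)) ⊆ U) ∧
      Tendsto (fun n => lam (φ n) * (volume (Ω (φ n))).toReal) atTop (𝓝 (volume L).toReal) := by
  choose p hp using fun n => (h n).2.2.1
  have hl : ∀ n, 0 < lam n := fun n => (h n).2.2.2.2.1
  have hk : ∀ n, 0 < (Real.sqrt (lam n))⁻¹ := fun n => inv_pos.2 (Real.sqrt_pos.2 (hl n))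
  have hkk : ∀ n, ((Real.sqrt (lam n))⁻¹) ^ 2 * lam n = 1 := fun n => by
    rw [inv_pow, Real.sq_sqrt (hl n).le, inv_mul_cancel₀ (hl n).ne']
  have hv : ∀ n, (volume (sim (Real.sqrt (lam n))⁻¹ (p n) (Ω n))).toReal =
      lam n * (volume (Ω n)).toReal := fun n => by
    rw [vol_sim (hk n), inv_pow, Real.sq_sqrt (hl n).le, inv_inv]
  have hce : ∀ n, CE (sim (Real.sqrt (lam n))⁻¹ (p n) (Ω n)) 1 := fun n => by
    have := (h n).sim (hk n) (p n)
    rwa [hkk] at this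
  obtain ⟨L, φ, h1, h2, h3, h4, h5⟩ := norm_seq hce (fun n => by
    show (Real.sqrt (lam n))⁻¹ • (0 : ℂ) + p n ∈ Ω n
    rw [smul_zero, zero_add]
    exact hp n) (A := A) (fun n => by rw [hv]; exact hA n)
  refine ⟨p, L, φ, h1, h2, h3, h4, ?_⟩
  simp only [hv] at h5
  exact h5

/-- the set of the values of the eigenvalue times the area is closed -/
theorem values_closed : IsClosed {a : ℝ | ∃ (Ω : Set ℂ) (lam : ℝ), CE Ω lam ∧
    a = lam * (volume Ω).toReal} := by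
  refine IsSeqClosed.isClosed fun a a0 ha hlim => ?_
  choose Ω lam hce hval using ha
  obtain ⟨A, hA⟩ := hlim.bddAbove_range
  obtain ⟨p, L, φ, h1, h2, _, _, h5⟩ := compact_ce hce (A := A) (fun n => by
    rw [← hval n]
    exact hA ⟨n, rfl⟩)
  refine ⟨L, 1, h1, ?_⟩
  rw [one_mul]
  refine tendsto_nhds_unique (hlim.comp h2.tendsto_atTop) ?_
  simp only [← hval] at h5
  exact h5

/-- a minimal counterexample -/
theorem minimal (h : ∃ (Ω : Set ℂ) (lam : ℝ), CE Ω lam) :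
    ∃ (Ω : Set ℂ) (lam : ℝ), CE Ω lam ∧ ∀ (Ω' : Set ℂ) (lam' : ℝ), CE Ω' lam' →
      lam * (volume Ω).toReal ≤ lam' * (volume Ω').toReal := by
  obtain ⟨Ω1, l1, h1⟩ := h
  have hne : {a : ℝ | ∃ (Ω : Set ℂ) (lam : ℝ), CE Ω lam ∧
    a = lam * (volume Ω).toReal}.Nonempty := ⟨_, Ω1, l1, h1, rfl⟩
  have hbb : BddBelow {a : ℝ | ∃ (Ω : Set ℂ) (lam : ℝ), CE Ω lam ∧
      a = lam * (volume Ω).toReal} := by
    refine ⟨0, ?_⟩
    rintro _ ⟨Ω, lam, h, rfl⟩
    exact mul_nonneg h.2.2.2.2.1.le ENNReal.toReal_nonneg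
  obtain ⟨Ω, lam, h2, h3⟩ := values_closed.csInf_mem hne hbb
  refine ⟨Ω, lam, h2, fun Ω' lam' h' => ?_⟩
  rw [← h3]
  exact csInf_le hbb ⟨Ω', lam', h', rfl⟩

end Pool.Agent.X103.Cm
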