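import Pool.Agent.X103.ArD
import Pool.Agent.X103.CmE

/-!
# Paths of solvable sets with varying eigenvalue
-/

set_option autoImplicit false

open MeasureTheory Set Filter Topology

noncomputable section

namespace Pool.Agent.X103.Ar

open Pool.Agent.X103.Nest Pool.Agent.X103.Cm Pool.Agent.TH298.Sch

theorem dd_triangle {A B C : Set ℂ} (hA : Bornology.IsBounded A) (hB : Bornology.IsBounded B)
    (hC : Bornology.IsBounded C) : dd A C ≤ dd A B + dd B C := by
  unfold dd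
  have f1 : volume (symmDiff A B) ≠ ⊤ := ((hA.union hB).subset symmDiff_le_sup).measure_lt_top.ne
  have f2 : volume (symmDiff B C) ≠ ⊤ := ((hB.union hC).subset symmDiff_le_sup).measure_lt_top.ne
  rw [← ENNReal.toReal_add f1 f2]
  refine ENNReal.toReal_mono (ENNReal.add_ne_top.2 ⟨f1, f2⟩) ?_
  exact (measure_mono (symmDiff_triangle A B C)).trans (measure_union_le _ _)

theorem slv_pos {E : Set ℂ} {lam : ℝ} (hb : Bornology.IsBounded E) (hS : Slv E lam) :
    0 < (volume E).toReal := by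
  refine ENNReal.toReal_pos ?_ hb.measure_lt_top.ne
  intro h0
  obtain ⟨c, u, G, _, hu⟩ := hS
  apply hu
  rw [Measure.restrict_eq_zero.2 h0]
  exact ae_zero.symm ▸ Filter.mem_bot

theorem path_var {J : Set ℝ} (hJ : J.OrdConnected) {Om : ℝ → Set ℂ} {lam : ℝ → ℝ}
    {R L P a : ℝ} (ho : ∀ t ∈ J, IsOpen (Om t)) (hR0 : 0 ≤ R)
    (hR : ∀ t ∈ J, Om t ⊆ Metric.closedBall 0 R) (hl : ∀ t ∈ J, 0 < lam t)
    (hc : ContinuousOn lam J) (hS : ∀ t ∈ J, Slv (Om t) (lam t))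
    (hL0 : 0 ≤ L) (hP0 : 0 ≤ P) (ha : 1 / 2 < a)
    (hP : ∀ t ∈ J, ∀ ρ ∈ Icc (1 / 2 : ℝ) 2, dd (Om t) (sim ρ⁻¹ 0 (Om t)) ≤ P * |ρ - 1|)
    (hL : ∀ s ∈ J, ∀ t ∈ J, dd (Om s) (Om t) ≤ L * |s - t| ^ a) :
    ∀ s ∈ J, ∀ t ∈ J, lam s * (volume (Om s)).toReal = lam t * (volume (Om t)).toReal := by
  refine const_of_small (f := fun t => lam t * (volume (Om t)).toReal) hJ fun t0 ht0 => ?_
  have ha0 : 0 < a := by linarith
  have hb : ∀ t ∈ J, Bornology.IsBounded (Om t) := fun t ht =>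
    Metric.isBounded_closedBall.subset (hR t ht)
  obtain ⟨g, hg⟩ : ∃ g : ℝ, g = 1 - 1 / (2 * a) := ⟨_, rfl⟩
  have h2a : 1 / (2 * a) < 1 := by
    rw [div_lt_one (by positivity)]
    linarith
  have h2a' : 0 < 1 / (2 * a) := by positivity
  have hg0 : 0 < g := by linarith
  have hg1 : g < 1 := by linarith
  have hlt0 := hl t0 ht0
  set l0 := lam t0 with hl0
  set A0 := (volume (Om t0)).toReal with hA0
  have hA0p : 0 < A0 := slv_pos (hb t0 ht0) (hS t0 ht0)
  have hC := CC_one (R := 2 * R) hlt0.le (by positivity)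
  set C1 := CC l0 (2 * R) with hC1
  set K1 := C1 * (1 + 1 / g) with hK1
  have hK10 : 0 < K1 := by positivity
  set K3 := 4 * (K1 + 1) * L / A0 with hK3
  have hK30 : 0 ≤ K3 := by positivity
  set K2 := L + P * K3 with hK2
  have hK20 : 0 ≤ K2 := by positivity
  refine ⟨l0 * (K1 * K2 ^ (2 - g)), a * (2 - g), by positivity, ?_, ?_⟩
  · rw [hg]
    field_simp
    linarith
  -- the distance
  have hnorm : Tendsto (fun t : ℝ => |t - t0|) (𝓝[J] t0) (𝓝 0) := by
    have : Continuous fun t : ℝ => |t - t0| := by fun_prop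
    have h3 := this.tendsto t0
    simp only [sub_self, abs_zero] at h3
    exact h3.mono_left nhdsWithin_le_nhds
  have hh : Tendsto (fun t : ℝ => L * |t - t0| ^ a) (𝓝[J] t0) (𝓝 0) := by
    have h4 := (hnorm.rpow_const (p := a) (Or.inr ha0.le)).const_mul L
    rw [Real.zero_rpow ha0.ne', mul_zero] at h4
    exact h4
  have hlam : Tendsto lam (𝓝[J] t0) (𝓝 l0) := hc t0 ht0
  have hrho : Tendsto (fun t => Real.sqrt (lam t / l0)) (𝓝[J] t0) (𝓝 1) := by
    have h1 := (hlam.div_const l0).sqrt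
    rw [div_self hlt0.ne', Real.sqrt_one] at h1
    exact h1
  have hrho1 : Tendsto (fun t => |Real.sqrt (lam t / l0) - 1|) (𝓝[J] t0) (𝓝 0) := by
    have := (hrho.sub_const 1).abs
    simpa using this
  have hu : Tendsto (fun t => L * |t - t0| ^ a + P * |Real.sqrt (lam t / l0) - 1|) (𝓝[J] t0)
      (𝓝 0) := by
    have := hh.add (hrho1.const_mul P)
    simpa using this
  have hu2 : Tendsto (fun t => K1 * P * (L * |t - t0| ^ a +
      P * |Real.sqrt (lam t / l0) - 1|) ^ (1 - g)) (𝓝[J] t0) (𝓝 0) := by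
    have h4 := (hu.rpow_const (p := 1 - g) (Or.inr (by linarith))).const_mul (K1 * P)
    rw [Real.zero_rpow (by linarith), mul_zero] at h4
    exact h4
  have hev1 : ∀ᶠ t in 𝓝[J] t0, Real.sqrt (lam t / l0) ∈ Icc (1 / 2 : ℝ) 2 := by
    have : Icc (1 / 2 : ℝ) 2 ∈ 𝓝 (1 : ℝ) := Icc_mem_nhds (by norm_num) (by norm_num)
    exact hrho this
  filter_upwards [hev1, self_mem_nhdsWithin, hu.eventually_le_const one_pos,
    hu2.eventually_le_const (show (0 : ℝ) < A0 / 4 by positivity),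
    hh.eventually_le_const (show (0 : ℝ) < A0 / 2 by positivity)] with t b1 b2 b3 b4 b5
  set ρ := Real.sqrt (lam t / l0) with hρ
  set y := L * |t - t0| ^ a with hy
  have hy0 : 0 ≤ y := by positivity
  set At := (volume (Om t)).toReal with hAt
  have hρ0 : 0 < ρ := by linarith [b1.1]
  have hρ2 : ρ ^ 2 = lam t / l0 := by
    rw [hρ, Real.sq_sqrt]
    have := hl t b2
    positivity
  have hlt : lam t = ρ ^ 2 * l0 := by
    rw [hρ2]
    field_simp
  -- the scaled set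
  have hS2 : Slv (sim ρ⁻¹ 0 (Om t)) l0 := by
    have h1 := slv_sim (ho t b2) (hS t b2) (inv_pos.2 hρ0) 0
    have h2 : (ρ⁻¹) ^ 2 * lam t = l0 := by
      rw [hlt]
      field_simp
    rwa [h2] at h1
  have hm2 : MeasurableSet (sim ρ⁻¹ 0 (Om t)) :=
    ((ho t b2).preimage (by fun_prop)).measurableSet
  have hR2 : sim ρ⁻¹ 0 (Om t) ⊆ Metric.closedBall 0 (2 * R) := by
    intro x hx
    have h1 := hR t b2 (show ρ⁻¹ • x + 0 ∈ Om t from hx)
    rw [mem_closedBall_zero_iff, add_zero, norm_smul, norm_inv, Real.norm_of_nonneg hρ0.le] at h1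
    rw [mem_closedBall_zero_iff]
    have h2 : ‖x‖ = ρ * (ρ⁻¹ * ‖x‖) := by field_simp
    rw [h2]
    exact mul_le_mul b1.2 h1 (by positivity) (by norm_num)
  have hR1 : Om t0 ⊆ Metric.closedBall 0 (2 * R) :=
    (hR t0 ht0).trans (Metric.closedBall_subset_closedBall (by linarith))
  have hv2 : (volume (sim ρ⁻¹ 0 (Om t))).toReal = ρ ^ 2 * (volume (Om t)).toReal := by
    rw [vol_sim (inv_pos.2 hρ0) 0, inv_pow, inv_inv]
  have h2R : 0 ≤ 2 * R := by positivity
  set D := dd (Om t0) (sim ρ⁻¹ 0 (Om t)) with hDdef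
  have hmain : |A0 - ρ ^ 2 * At| ≤ C1 * D ^ 2 * (1 + |Real.log D|) := by
    have q1 := area_ineq (ho t0 ht0).measurableSet hm2 hlt0 (hS t0 ht0) hS2 h2R hR1 hR2
    rwa [hv2] at q1
  have hD : D ≤ y + P * |ρ - 1| := by
    refine (dd_triangle (hb t0 ht0) (hb t b2)
      (Metric.isBounded_closedBall.subset hR2)).trans (add_le_add ?_ (hP t b2 ρ b1))
    rw [hy, abs_sub_comm]
    exact hL t0 ht0 t b2
  have hD0 : 0 ≤ D := dd_nonneg _ _
  have hD1 : D ≤ 1 := hD.trans b3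
  have hab := absorb hD0 hD1 hg0 (by linarith : g < 2)
  have hm3 : |A0 - ρ ^ 2 * At| ≤ K1 * D ^ (2 - g) := by
    calc |A0 - ρ ^ 2 * At| ≤ C1 * (D ^ 2 * (1 + |Real.log D|)) := by
          rw [← mul_assoc]
          exact hmain
      _ ≤ C1 * ((1 + 1 / g) * D ^ (2 - g)) := by gcongr
      _ = _ := by rw [hK1]; ring
  have hAA : |At - A0| ≤ y := by
    have h1 := vol_le_dd (ho t b2).measurableSet (hb t b2) (ho t0 ht0).measurableSet (hb t0 ht0)
    exact h1.trans (hL t b2 t0 ht0)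
  set e := |ρ - 1| with he
  have he0 : 0 ≤ e := abs_nonneg _
  have hy1 : y ≤ A0 / 2 := b5
  have hAt2 : A0 / 2 ≤ At := by
    have := abs_le.1 hAA
    linarith [this.1]
  have h1 : A0 / 2 * e ≤ K1 * D ^ (2 - g) + y := by
    have h2 : (ρ ^ 2 - 1) * At = -(A0 - ρ ^ 2 * At) - (At - A0) := by ring
    have h3 : |(ρ ^ 2 - 1) * At| ≤ K1 * D ^ (2 - g) + y := by
      rw [h2]
      refine (abs_sub _ _).trans (add_le_add ?_ hAA)
      rw [abs_neg]
      exact hm3
    have h4 : |(ρ ^ 2 - 1) * At| = e * (ρ + 1) * At := by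
      have : ρ ^ 2 - 1 = (ρ - 1) * (ρ + 1) := by ring
      rw [abs_mul, this, abs_mul, abs_of_pos (by linarith : 0 < ρ + 1),
        abs_of_nonneg (by linarith : 0 ≤ At)]
    rw [h4] at h3
    have h5 : e * (A0 / 2) ≤ e * (ρ + 1) * At := by
      have h6 : e * 1 ≤ e * (ρ + 1) := mul_le_mul_of_nonneg_left (by linarith) he0
      calc e * (A0 / 2) = e * 1 * (A0 / 2) := by ring
        _ ≤ e * (ρ + 1) * At := mul_le_mul h6 hAt2 (by positivity) (by positivity)
    linarith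
  have h2 : D ^ (2 - g) = D ^ (1 - g) * D := by
    rw [← Real.rpow_add_one' hD0 (by linarith)]
    congr 1
    ring
  have hDg1 : D ^ (1 - g) ≤ 1 := Real.rpow_le_one hD0 hD1 (by linarith)
  have hDg0 : 0 ≤ D ^ (1 - g) := Real.rpow_nonneg hD0 _
  have h3 : K1 * D ^ (2 - g) ≤ K1 * y + A0 / 4 * e := by
    rw [h2]
    have h4 : K1 * (D ^ (1 - g) * D) ≤ K1 * (D ^ (1 - g) * (y + P * e)) := by gcongr
    have h5 : K1 * (D ^ (1 - g) * y) ≤ K1 * y := by
      have : D ^ (1 - g) * y ≤ 1 * y := mul_le_mul_of_nonneg_right hDg1 hy0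
      rw [one_mul] at this
      exact mul_le_mul_of_nonneg_left this hK10.le
    have h6 : K1 * P * D ^ (1 - g) ≤ A0 / 4 := by
      refine le_trans ?_ b4
      have : D ^ (1 - g) ≤ (y + P * e) ^ (1 - g) := Real.rpow_le_rpow hD0 hD (by linarith)
      exact mul_le_mul_of_nonneg_left this (by positivity)
    have h7 : K1 * P * D ^ (1 - g) * e ≤ A0 / 4 * e := mul_le_mul_of_nonneg_right h6 he0
    calc K1 * (D ^ (1 - g) * D) ≤ K1 * (D ^ (1 - g) * (y + P * e)) := h4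
      _ = K1 * (D ^ (1 - g) * y) + K1 * P * D ^ (1 - g) * e := by ring
      _ ≤ _ := add_le_add h5 h7
  have h4 : e ≤ K3 * |t - t0| ^ a := by
    have h5 : A0 / 4 * e ≤ (K1 + 1) * y := by linarith
    have h6 : K3 * |t - t0| ^ a = (K1 + 1) * y / (A0 / 4) := by
      rw [hK3, hy]
      field_simp
    rw [h6, le_div_iff₀ (by positivity)]
    linarith
  have h5 : D ≤ K2 * |t - t0| ^ a := by
    calc D ≤ y + P * e := hD
      _ ≤ y + P * (K3 * |t - t0| ^ a) := by gcongr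
      _ = _ := by rw [hy, hK2]; ring
  have h6 : D ^ (2 - g) ≤ K2 ^ (2 - g) * |t - t0| ^ (a * (2 - g)) := by
    calc D ^ (2 - g) ≤ (K2 * |t - t0| ^ a) ^ (2 - g) := Real.rpow_le_rpow hD0 h5 (by linarith)
      _ = _ := by
        rw [Real.mul_rpow hK20 (Real.rpow_nonneg (abs_nonneg _) _), ← Real.rpow_mul (abs_nonneg _)]
  have h7 : lam t * At - l0 * A0 = -(l0 * (A0 - ρ ^ 2 * At)) := by
    rw [hlt]
    ring
  rw [h7, abs_neg, abs_mul, abs_of_pos hlt0]
  calc l0 * |A0 - ρ ^ 2 * At| ≤ l0 * (K1 * D ^ (2 - g)) := by gcongr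
    _ ≤ l0 * (K1 * (K2 ^ (2 - g) * |t - t0| ^ (a * (2 - g)))) := by gcongr
    _ = _ := by ring

end Pool.Agent.X103.Ar
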