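import Pool.Agent.X103.ArE

/-!
# Star-shaped sets, and uniform constants
-/

set_option autoImplicit false

open MeasureTheory Set Filter Topology

noncomputable section

namespace Pool.Agent.X103.Ar

open Pool.Agent.X103.Nest Pool.Agent.X103.Cm Pool.Agent.TH298.Sch

theorem dd_sub {A B : Set ℂ} (hm : MeasurableSet A) (hb : Bornology.IsBounded A)
    (hm' : MeasurableSet B) (hb' : Bornology.IsBounded B) (h : A ⊆ B) :
    dd A B = (volume B).toReal - (volume A).toReal := by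
  have h1 := dd_eq hm hb hm' hb'
  have h2 := vol_diff hm hb hm' hb'
  rw [sdiff_eq_empty.2 h, measure_empty, ENNReal.toReal_zero] at h1 h2
  linarith

theorem dd_comm (A B : Set ℂ) : dd A B = dd B A := by
  unfold dd
  rw [symmDiff_comm]

theorem star_dd {Om : Set ℂ} {R : ℝ} (ho : IsOpen Om) (hR : Om ⊆ Metric.closedBall 0 R)
    (hst : StarConvex ℝ 0 Om) {ρ : ℝ} (hρ : ρ ∈ Icc (1 / 2 : ℝ) 2) :
    dd Om (sim ρ⁻¹ 0 Om) ≤ 3 * (volume (Metric.closedBall (0 : ℂ) R)).toReal * |ρ - 1| := by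
  have hρ0 : 0 < ρ := by linarith [hρ.1]
  have hb : Bornology.IsBounded Om := Metric.isBounded_closedBall.subset hR
  have hm := ho.measurableSet
  have hm2 : MeasurableSet (sim ρ⁻¹ 0 Om) := (ho.preimage (by fun_prop)).measurableSet
  have hb2 : Bornology.IsBounded (sim ρ⁻¹ 0 Om) := by
    refine (Metric.isBounded_closedBall (x := (0 : ℂ)) (r := ρ * R)).subset ?_
    intro x hx
    have h1 := hR (show ρ⁻¹ • x + 0 ∈ Om from hx)
    rw [mem_closedBall_zero_iff, add_zero, norm_smul, norm_inv, Real.norm_of_nonneg hρ0.le] at h1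
    rw [mem_closedBall_zero_iff]
    have h2 : ‖x‖ = ρ * (ρ⁻¹ * ‖x‖) := by field_simp
    rw [h2]
    exact mul_le_mul_of_nonneg_left h1 hρ0.le
  have hv2 : (volume (sim ρ⁻¹ 0 Om)).toReal = ρ ^ 2 * (volume Om).toReal := by
    rw [vol_sim (inv_pos.2 hρ0) 0, inv_pow, inv_inv]
  have hV : (volume Om).toReal ≤ (volume (Metric.closedBall (0 : ℂ) R)).toReal :=
    ENNReal.toReal_mono measure_closedBall_lt_top.ne (measure_mono hR)
  have hV0 : 0 ≤ (volume Om).toReal := ENNReal.toReal_nonneg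
  rcases le_or_gt 1 ρ with h | h
  · have hsub : Om ⊆ sim ρ⁻¹ 0 Om := by
      intro x hx
      show ρ⁻¹ • x + 0 ∈ Om
      rw [add_zero]
      exact hst.smul_mem hx (inv_nonneg.2 hρ0.le) (inv_le_one_of_one_le₀ h)
    rw [dd_sub hm hb hm2 hb2 hsub, hv2, abs_of_nonneg (by linarith : 0 ≤ ρ - 1)]
    have e : ρ ^ 2 * (volume Om).toReal - (volume Om).toReal =
        (ρ + 1) * (volume Om).toReal * (ρ - 1) := by ring
    rw [e]
    refine mul_le_mul_of_nonneg_right ?_ (by linarith)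
    exact mul_le_mul (by linarith [hρ.2]) hV hV0 (by norm_num)
  · have hsub : sim ρ⁻¹ 0 Om ⊆ Om := by
      intro x hx
      have h1 : ρ⁻¹ • x ∈ Om := by
        have h2 : ρ⁻¹ • x + 0 ∈ Om := hx
        rwa [add_zero] at h2
      have h3 := hst.smul_mem h1 hρ0.le h.le
      rwa [smul_inv_smul₀ hρ0.ne'] at h3
    rw [dd_comm, dd_sub hm2 hb2 hm hb hsub, hv2, abs_of_neg (by linarith : ρ - 1 < 0)]
    have e : (volume Om).toReal - ρ ^ 2 * (volume Om).toReal =
        (ρ + 1) * (volume Om).toReal * -(ρ - 1) := by ring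
    rw [e]
    refine mul_le_mul_of_nonneg_right ?_ (by linarith)
    exact mul_le_mul (by linarith) hV hV0 (by norm_num)

theorem area_unif {R Lam : ℝ} (hR0 : 0 ≤ R) : ∃ C : ℝ, 0 < C ∧ ∀ lam : ℝ, 0 < lam → lam ≤ Lam →
    ∀ E E' : Set ℂ, MeasurableSet E → MeasurableSet E' → E ⊆ Metric.closedBall 0 R →
    E' ⊆ Metric.closedBall 0 R → Slv E lam → Slv E' lam →
    |(volume E).toReal - (volume E').toReal| ≤
      C * dd E E' ^ 2 * (1 + |Real.log (dd E E')|) := by
  refine ⟨CC (max Lam 0) R, lt_of_lt_of_le one_pos (CC_one (le_max_right _ _) hR0), ?_⟩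
  intro lam hl hle E E' hm hm' hR hR' hS hS'
  refine (area_ineq hm hm' hl hS hS' hR0 hR hR').trans ?_
  have h1 := CC_mono hl.le (hle.trans (le_max_left Lam 0)) hR0
  have h2 : 0 ≤ |Real.log (dd E E')| := abs_nonneg _
  gcongr

theorem gap_unif {R Lam : ℝ} (hR0 : 0 ≤ R) : ∃ c : ℝ, 0 < c ∧ ∀ lam : ℝ, 0 < lam → lam ≤ Lam →
    ∀ E E' : Set ℂ, MeasurableSet E → MeasurableSet E' → E ⊆ E' →
    E' ⊆ Metric.closedBall 0 R → Slv E lam → Slv E' lam →
    (volume (E' \ E)).toReal = 0 ∨ c ≤ (volume (E' \ E)).toReal := by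
  have hC0 := CC_one (lam := max Lam 0) (R := R) (le_max_right _ _) hR0
  refine ⟨1 / (9 * CC (max Lam 0) R ^ 2), by positivity, ?_⟩
  intro lam hl hle E E' hm hm' hEE hR' hS hS'
  refine (gap hm hm' hl hS hS' hR0 hR' hEE).imp_right fun h => le_trans ?_ h
  have h1 := CC_mono hl.le (hle.trans (le_max_left Lam 0)) hR0
  have h2 := CC_one hl.le hR0
  gcongr

end Pool.Agent.X103.Ar
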