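import Pool.Agent.X103.ArF

/-!
# The two point estimate with different eigenvalues
-/

set_option autoImplicit false

open MeasureTheory Set FourierTransform Filter Topology

noncomputable section

namespace Pool.Agent.X103.Ar

open Pool.Agent.X103.Nest Pool.Agent.X103.Cm Pool.Agent.TH298.Sch

theorem area_lower {E : Set ℂ} {lam R : ℝ} (hm : MeasurableSet E) (hl : 0 < lam) (hS : Slv E lam)
    (hR : E ⊆ Metric.closedBall 0 R) :
    1 ≤ KK lam R 1 ^ 2 * Real.pi * (volume E).toReal := by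
  have hb : Bornology.IsBounded E := Metric.isBounded_closedBall.subset hR
  obtain ⟨w, a1, a2, a3⟩ := exists_w hm hb hl hS
  have hw : Wf E hm hb lam w := ⟨a1, a2, a3⟩
  have hA := slv_pos hb hS
  set A := (volume E).toReal with hAdef
  have h1 : ‖w‖ ^ 2 ≤ (KK lam R 1 * A) ^ 2 * Real.pi := by
    rw [← Lp.norm_fourier_eq, ← int_sq, ← Nw_sq_all, ← integral_const_mul]
    refine integral_mono_ae (sq_int _) (Nw_sq_int.const_mul _) ?_
    filter_upwards [w_bound hm hb hR hl hS a3] with ξ hξ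
    rw [← mul_pow]
    refine pow_le_pow_left₀ (norm_nonneg _) ?_ 2
    rw [KK_lin] at hξ
    unfold Nw
    have hN : (0 : ℝ) < 1 + ‖ξ‖ ^ 2 := by positivity
    rw [← div_eq_mul_inv, le_div_iff₀ hN]
    linarith
  have h2 : inner ℂ (oneH E hm hb) w = -(A : ℂ) := by
    rw [one_inner, ← integral_indicator hm]
    have e : ∫ x, E.indicator (w : ℂ → ℂ) x = ∫ x, w x := by
      refine integral_congr_ae ?_
      filter_upwards [a1] with x hx
      by_cases h : x ∈ E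
      · rw [indicator_of_mem h]
      · rw [indicator_of_notMem h, hx h]
    rw [e, hw.mean hl]
  have h3 : A ≤ ‖oneH E hm hb‖ * ‖w‖ := by
    have := norm_inner_le_norm (𝕜 := ℂ) (oneH E hm hb) w
    rw [h2, norm_neg, Complex.norm_real, Real.norm_of_nonneg hA.le] at this
    exact this
  have h4 : ‖oneH E hm hb‖ ^ 2 = A := by
    have h5 := one_one hm hb hm hb
    rw [inter_self, ← nsq] at h5
    exact_mod_cast h5
  have h6 : A ^ 2 ≤ A * ((KK lam R 1 * A) ^ 2 * Real.pi) := by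
    calc A ^ 2 ≤ (‖oneH E hm hb‖ * ‖w‖) ^ 2 := pow_le_pow_left₀ hA.le h3 2
      _ = A * ‖w‖ ^ 2 := by rw [mul_pow, h4]
      _ ≤ _ := mul_le_mul_of_nonneg_left h1 hA.le
  have hA2 : 0 < A ^ 2 := by positivity
  refine le_of_mul_le_mul_left ?_ hA2
  calc A ^ 2 * 1 = A ^ 2 := mul_one _
    _ ≤ _ := h6
    _ = _ := by ring

/-- the two point estimate -/
theorem two_point {R Lam P g : ℝ} (hR0 : 0 < R) (hLam : 0 < Lam) (hP0 : 0 ≤ P) (hg0 : 0 < g)
    (hg1 : g < 1) : ∃ δ C : ℝ, 0 < δ ∧ 0 ≤ C ∧ ∀ (Om Om' : Set ℂ) (lam lam' : ℝ), IsOpen Om →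
      IsOpen Om' → Om ⊆ Metric.closedBall 0 R → Om' ⊆ Metric.closedBall 0 R → 0 < lam → lam ≤ Lam →
      0 < lam' → lam' ≤ Lam → Slv Om lam → Slv Om' lam' →
      (∀ ρ ∈ Icc (1 / 2 : ℝ) 2, dd Om' (sim ρ⁻¹ 0 Om') ≤ P * |ρ - 1|) →
      |lam - lam'| ≤ δ → dd Om Om' ≤ δ →
      |lam * (volume Om).toReal - lam' * (volume Om').toReal| ≤ C * dd Om Om' ^ (2 - g) := by
  have hpi := Real.pi_pos
  obtain ⟨C1, hC1⟩ : ∃ C1, C1 = CC Lam (2 * R) := ⟨_, rfl⟩
  have hC11 : 1 ≤ C1 := by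
    rw [hC1]
    exact CC_one hLam.le (by positivity)
  obtain ⟨K1, hK1⟩ : ∃ K1, K1 = C1 * (1 + 1 / g) := ⟨_, rfl⟩
  have hK10 : 0 < K1 := by rw [hK1]; positivity
  obtain ⟨κ, hκ⟩ : ∃ κ, κ = KK Lam R 1 := ⟨_, rfl⟩
  have hκ0 : 0 < κ := by
    rw [hκ]
    unfold KK
    have := Real.sqrt_nonneg Lam
    positivity
  obtain ⟨Am, hAm⟩ : ∃ Am, Am = 1 / (κ ^ 2 * Real.pi) := ⟨_, rfl⟩
  have hAm0 : 0 < Am := by rw [hAm]; positivity
  obtain ⟨lm, hlm⟩ : ∃ lm, lm = 1 / (4 * R ^ 2) := ⟨_, rfl⟩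
  have hlm0 : 0 < lm := by rw [hlm]; positivity
  obtain ⟨K3, hK3⟩ : ∃ K3, K3 = 4 * (K1 + 1) / Am := ⟨_, rfl⟩
  have hK30 : 0 ≤ K3 := by rw [hK3]; positivity
  obtain ⟨K2, hK2⟩ : ∃ K2, K2 = 1 + P * K3 := ⟨_, rfl⟩
  have hK20 : 0 ≤ K2 := by rw [hK2]; positivity
  -- the choice of δ
  have hid : Tendsto (fun δ : ℝ => δ) (𝓝[>] 0) (𝓝 0) := tendsto_id.mono_left nhdsWithin_le_nhds
  have hu : Tendsto (fun δ : ℝ => δ + P * (δ / lm)) (𝓝[>] 0) (𝓝 0) := by
    have := hid.add ((hid.div_const lm).const_mul P)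
    simpa using this
  have hu2 : Tendsto (fun δ : ℝ => K1 * P * (δ + P * (δ / lm)) ^ (1 - g)) (𝓝[>] 0) (𝓝 0) := by
    have h4 := (hu.rpow_const (p := 1 - g) (Or.inr (by linarith))).const_mul (K1 * P)
    rw [Real.zero_rpow (by linarith), mul_zero] at h4
    exact h4
  have hd1 : Tendsto (fun δ : ℝ => δ / lm) (𝓝[>] 0) (𝓝 0) := by
    have := hid.div_const lm
    simpa using this
  obtain ⟨δ, c1, c2, c3, c4, c5⟩ := ((hd1.eventually_le_const
    (show (0 : ℝ) < 1 / 2 by norm_num)).and ((hu.eventually_le_const one_pos).and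
    ((hu2.eventually_le_const (show (0 : ℝ) < Am / 4 by positivity)).and
    ((hid.eventually_le_const (show (0 : ℝ) < Am / 2 by positivity)).and
      self_mem_nhdsWithin)))).exists
  have c5' : 0 < δ := c5
  refine ⟨δ, Lam * (K1 * K2 ^ (2 - g)), c5', by positivity, ?_⟩
  intro Om Om' lam lam' ho ho' hR hR' hl hle hl' hle' hS hS' hP hdl hd
  have hb : Bornology.IsBounded Om := Metric.isBounded_closedBall.subset hR
  have hb' : Bornology.IsBounded Om' := Metric.isBounded_closedBall.subset hR'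
  set A := (volume Om).toReal with hA
  set A' := (volume Om').toReal with hA'
  have hAlow : Am ≤ A := by
    have h1 := area_lower ho.measurableSet hl hS hR
    have h2 : KK lam R 1 ^ 2 * Real.pi * A ≤ κ ^ 2 * Real.pi * A := by
      have h3 : KK lam R 1 ≤ κ := by
        rw [hκ]
        exact KK_mono hl.le hle hR0.le zero_le_one le_rfl
      have h4 := KK_nonneg hl.le hR0.le
      have h5 : 0 ≤ A := ENNReal.toReal_nonneg
      gcongr
    rw [hAm, div_le_iff₀ (by positivity)]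
    linarith
  have hlow : lm ≤ lam := by
    have h1 := lam_lower ho.measurableSet hR hl hS
    have h2 : 1 ≤ (2 * R * Real.sqrt lam) ^ 2 := one_le_pow₀ h1
    rw [mul_pow, Real.sq_sqrt hl.le] at h2
    rw [hlm, div_le_iff₀ (by positivity)]
    linarith
  obtain ⟨ρ, hρ⟩ : ∃ ρ, ρ = Real.sqrt (lam' / lam) := ⟨_, rfl⟩
  have hρ2 : ρ ^ 2 = lam' / lam := by
    rw [hρ, Real.sq_sqrt]
    positivity
  have hρ0 : 0 < ρ := by
    rw [hρ]
    exact Real.sqrt_pos.2 (by positivity)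
  have hlt : lam' = ρ ^ 2 * lam := by
    rw [hρ2]
    field_simp
  obtain ⟨e, he⟩ : ∃ e, e = |ρ - 1| := ⟨_, rfl⟩
  have he0 : 0 ≤ e := by rw [he]; exact abs_nonneg _
  have he1 : e ≤ δ / lm := by
    have h1 : |ρ ^ 2 - 1| * lam = |lam - lam'| := by
      rw [hlt, ← abs_of_pos hl, ← abs_mul, abs_of_pos hl, ← abs_neg]
      congr 1
      ring
    have h2 : e ≤ |ρ ^ 2 - 1| := by
      have h3 : ρ ^ 2 - 1 = (ρ - 1) * (ρ + 1) := by ring
      rw [h3, abs_mul, ← he, abs_of_pos (by linarith : 0 < ρ + 1)]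
      nlinarith
    rw [le_div_iff₀ hlm0]
    calc e * lm ≤ |ρ ^ 2 - 1| * lam := mul_le_mul h2 hlow hlm0.le (abs_nonneg _)
      _ = |lam - lam'| := h1
      _ ≤ δ := hdl
  have hρI : ρ ∈ Icc (1 / 2 : ℝ) 2 := by
    have h1 : |ρ - 1| ≤ 1 / 2 := by
      rw [← he]
      linarith
    have h2 := abs_le.1 h1
    constructor <;> linarith [h2.1, h2.2]
  obtain ⟨y, hy⟩ : ∃ y, y = dd Om Om' := ⟨_, rfl⟩
  have hy0 : 0 ≤ y := by rw [hy]; exact dd_nonneg _ _
  rw [← hy] at hd ⊢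
  -- the scaled set
  have hS2 : Slv (sim ρ⁻¹ 0 Om') lam := by
    have h1 := slv_sim ho' hS' (inv_pos.2 hρ0) 0
    have h2 : (ρ⁻¹) ^ 2 * lam' = lam := by
      rw [hlt]
      field_simp
    rwa [h2] at h1
  have hm2 : MeasurableSet (sim ρ⁻¹ 0 Om') := (ho'.preimage (by fun_prop)).measurableSet
  have hR2 : sim ρ⁻¹ 0 Om' ⊆ Metric.closedBall 0 (2 * R) := by
    intro x hx
    have h1 := hR' (show ρ⁻¹ • x + 0 ∈ Om' from hx)
    rw [mem_closedBall_zero_iff, add_zero, norm_smul, norm_inv, Real.norm_of_nonneg hρ0.le] at h1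
    rw [mem_closedBall_zero_iff]
    have h2 : ‖x‖ = ρ * (ρ⁻¹ * ‖x‖) := by field_simp
    rw [h2]
    exact mul_le_mul hρI.2 h1 (by positivity) (by norm_num)
  have hR1 : Om ⊆ Metric.closedBall 0 (2 * R) :=
    hR.trans (Metric.closedBall_subset_closedBall (by linarith))
  have hv2 : (volume (sim ρ⁻¹ 0 Om')).toReal = ρ ^ 2 * A' := by
    rw [vol_sim (inv_pos.2 hρ0) 0, inv_pow, inv_inv]
  have h2R : 0 ≤ 2 * R := by positivity
  obtain ⟨D, hDdef⟩ : ∃ D, D = dd Om (sim ρ⁻¹ 0 Om') := ⟨_, rfl⟩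
  have hD0 : 0 ≤ D := by rw [hDdef]; exact dd_nonneg _ _
  have hmain : |A - ρ ^ 2 * A'| ≤ C1 * D ^ 2 * (1 + |Real.log D|) := by
    have q1 := area_ineq ho.measurableSet hm2 hl hS hS2 h2R hR1 hR2
    rw [hv2, ← hDdef] at q1
    refine q1.trans ?_
    have q2 := CC_mono hl.le hle h2R
    rw [← hC1] at q2
    have q3 : 0 ≤ |Real.log D| := abs_nonneg _
    gcongr
  have hD : D ≤ y + P * e := by
    rw [hDdef, hy, he]
    exact (dd_triangle hb hb' (Metric.isBounded_closedBall.subset hR2)).trans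
      (add_le_add le_rfl (hP ρ hρI))
  have hDu : D ≤ δ + P * (δ / lm) := by
    refine hD.trans ?_
    gcongr
  have hD1 : D ≤ 1 := hDu.trans c2
  have hab := absorb hD0 hD1 hg0 (by linarith : g < 2)
  have hm3 : |A - ρ ^ 2 * A'| ≤ K1 * D ^ (2 - g) := by
    calc |A - ρ ^ 2 * A'| ≤ C1 * (D ^ 2 * (1 + |Real.log D|)) := by
          rw [← mul_assoc]
          exact hmain
      _ ≤ C1 * ((1 + 1 / g) * D ^ (2 - g)) := by gcongr
      _ = _ := by rw [hK1]; ring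
  have hAA : |A' - A| ≤ y := by
    have h1 := vol_le_dd ho.measurableSet hb ho'.measurableSet hb'
    rw [abs_sub_comm, hy]
    exact h1
  have hAt2 : Am / 2 ≤ A' := by
    have := abs_le.1 hAA
    linarith [this.1]
  have h1 : Am / 2 * e ≤ K1 * D ^ (2 - g) + y := by
    have h2 : (ρ ^ 2 - 1) * A' = -(A - ρ ^ 2 * A') - (A' - A) := by ring
    have h3 : |(ρ ^ 2 - 1) * A'| ≤ K1 * D ^ (2 - g) + y := by
      rw [h2]
      refine (abs_sub _ _).trans (add_le_add ?_ hAA)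
      rw [abs_neg]
      exact hm3
    have h4 : |(ρ ^ 2 - 1) * A'| = e * (ρ + 1) * A' := by
      have : ρ ^ 2 - 1 = (ρ - 1) * (ρ + 1) := by ring
      rw [abs_mul, this, abs_mul, abs_of_pos (by linarith : 0 < ρ + 1),
        abs_of_nonneg (by linarith : 0 ≤ A'), he]
    rw [h4] at h3
    have h5 : e * (Am / 2) ≤ e * (ρ + 1) * A' := by
      have h6 : e * 1 ≤ e * (ρ + 1) := mul_le_mul_of_nonneg_left (by linarith) he0
      calc e * (Am / 2) = e * 1 * (Am / 2) := by ring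
        _ ≤ e * (ρ + 1) * A' := mul_le_mul h6 hAt2 (by positivity) (by positivity)
    linarith
  have h2 : D ^ (2 - g) = D ^ (1 - g) * D := by
    rw [← Real.rpow_add_one' hD0 (by linarith)]
    congr 1
    ring
  have hDg1 : D ^ (1 - g) ≤ 1 := Real.rpow_le_one hD0 hD1 (by linarith)
  have hDg0 : 0 ≤ D ^ (1 - g) := Real.rpow_nonneg hD0 _
  have h3 : K1 * D ^ (2 - g) ≤ K1 * y + Am / 4 * e := by
    rw [h2]
    have h4 : K1 * (D ^ (1 - g) * D) ≤ K1 * (D ^ (1 - g) * (y + P * e)) := by gcongr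
    have h5 : K1 * (D ^ (1 - g) * y) ≤ K1 * y := by
      have : D ^ (1 - g) * y ≤ 1 * y := mul_le_mul_of_nonneg_right hDg1 hy0
      rw [one_mul] at this
      exact mul_le_mul_of_nonneg_left this hK10.le
    have h6 : K1 * P * D ^ (1 - g) ≤ Am / 4 := by
      refine le_trans ?_ c3
      have : D ^ (1 - g) ≤ (δ + P * (δ / lm)) ^ (1 - g) := Real.rpow_le_rpow hD0 hDu (by linarith)
      exact mul_le_mul_of_nonneg_left this (by positivity)
    have h7 : K1 * P * D ^ (1 - g) * e ≤ Am / 4 * e := mul_le_mul_of_nonneg_right h6 he0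
    calc K1 * (D ^ (1 - g) * D) ≤ K1 * (D ^ (1 - g) * (y + P * e)) := h4
      _ = K1 * (D ^ (1 - g) * y) + K1 * P * D ^ (1 - g) * e := by ring
      _ ≤ _ := add_le_add h5 h7
  have h4 : e ≤ K3 * y := by
    have h5 : Am / 4 * e ≤ (K1 + 1) * y := by linarith
    have h6 : K3 * y = (K1 + 1) * y / (Am / 4) := by
      rw [hK3]
      field_simp
    rw [h6, le_div_iff₀ (by positivity)]
    linarith
  have h5 : D ≤ K2 * y := by
    calc D ≤ y + P * e := hD
      _ ≤ y + P * (K3 * y) := by gcongr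
      _ = _ := by rw [hK2]; ring
  have h6 : D ^ (2 - g) ≤ K2 ^ (2 - g) * y ^ (2 - g) := by
    calc D ^ (2 - g) ≤ (K2 * y) ^ (2 - g) := Real.rpow_le_rpow hD0 h5 (by linarith)
      _ = _ := by rw [Real.mul_rpow hK20 hy0]
  have h7 : lam * A - lam' * A' = lam * (A - ρ ^ 2 * A') := by
    rw [hlt]
    ring
  have hyy : 0 ≤ y ^ (2 - g) := Real.rpow_nonneg hy0 _
  have hKK : 0 ≤ K2 ^ (2 - g) := Real.rpow_nonneg hK20 _
  rw [h7, abs_mul, abs_of_pos hl]
  calc lam * |A - ρ ^ 2 * A'| ≤ Lam * (K1 * D ^ (2 - g)) := by gcongr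
    _ ≤ Lam * (K1 * (K2 ^ (2 - g) * y ^ (2 - g))) := by gcongr
    _ = _ := by ring

end Pool.Agent.X103.Ar
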