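import Pool.Agent.X103.ArG

/-!
# The dimension of the set of values in a family
-/

set_option autoImplicit false

open MeasureTheory Set Filter Topology
open scoped ENNReal NNReal

noncomputable section

namespace Pool.Agent.X103.Ar

open Pool.Agent.X103.Nest Pool.Agent.X103.Cm Pool.Agent.TH298.Sch

theorem holder_of {X : Type*} [MetricSpace X] {F : X → ℝ} {s : Set X} {C r : ℝ} (hC : 0 ≤ C)
    (hr : 0 ≤ r) (h : ∀ y ∈ s, ∀ z ∈ s, |F y - F z| ≤ C * dist y z ^ r) :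
    HolderOnWith C.toNNReal r.toNNReal F s := by
  intro y hy z hz
  rw [edist_dist, edist_dist, Real.dist_eq]
  have h1 : (ENNReal.ofReal (dist y z)) ^ ((r.toNNReal : ℝ≥0) : ℝ) =
      ENNReal.ofReal (dist y z ^ r) := by
    rw [Real.coe_toNNReal r hr, ENNReal.ofReal_rpow_of_nonneg dist_nonneg hr]
  rw [h1]
  have h2 : ((C.toNNReal : ℝ≥0) : ℝ≥0∞) = ENNReal.ofReal C := rfl
  rw [h2, ← ENNReal.ofReal_mul hC]
  exact ENNReal.ofReal_le_ofReal (h y hy z hz)

theorem limit_dim {D V : ℝ≥0∞} {a : ℝ} (ha : 0 < a)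
    (h : ∀ g : ℝ, 0 < g → g < 1 → V ≤ D / ((a * (2 - g)).toNNReal : ℝ≥0)) :
    V ≤ D / ENNReal.ofReal (2 * a) := by
  have h1 : Tendsto (fun g : ℝ => ENNReal.ofReal (a * (2 - g))) (𝓝[>] 0)
      (𝓝 (ENNReal.ofReal (2 * a))) := by
    have h2 : Continuous fun g : ℝ => a * (2 - g) := by fun_prop
    have h3 := (ENNReal.continuous_ofReal.comp h2).tendsto 0
    simp only [Function.comp, sub_zero] at h3
    rw [mul_comm a 2] at h3
    exact h3.mono_left nhdsWithin_le_nhds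
  have h2 : Tendsto (fun g : ℝ => D / ENNReal.ofReal (a * (2 - g))) (𝓝[>] 0)
      (𝓝 (D / ENNReal.ofReal (2 * a))) := ENNReal.Tendsto.const_div h1 (Or.inl ENNReal.ofReal_ne_top)
  refine ge_of_tendsto h2 ?_
  have h3 : ∀ᶠ g : ℝ in 𝓝[>] 0, g < 1 :=
    (eventually_lt_nhds one_pos).filter_mono nhdsWithin_le_nhds
  filter_upwards [h3, self_mem_nhdsWithin] with g h4 h5
  exact h g h5 h4

/-- the dimension bound, open sets with varying eigenvalue -/
theorem dim_var {X : Type*} [MetricSpace X] [SecondCountableTopology X] {J : Set X}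
    {Om : X → Set ℂ} {R L P a : ℝ} (hL0 : 0 ≤ L) (hP0 : 0 ≤ P) (ha : 0 < a)
    (ho : ∀ x ∈ J, IsOpen (Om x)) (hR : ∀ x ∈ J, Om x ⊆ Metric.closedBall 0 R)
    (hP : ∀ x ∈ J, ∀ ρ ∈ Icc (1 / 2 : ℝ) 2, dd (Om x) (sim ρ⁻¹ 0 (Om x)) ≤ P * |ρ - 1|)
    (hL : ∀ x ∈ J, ∀ y ∈ J, dd (Om x) (Om y) ≤ L * dist x y ^ a) :
    dimH {v : ℝ | ∃ x ∈ J, ∃ lam : ℝ, 0 < lam ∧ Slv (Om x) lam ∧
      v = lam * (volume (Om x)).toReal} ≤ dimH J / ENNReal.ofReal (2 * a) := by
  refine limit_dim ha fun g hg0 hg1 => ?_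
  have hR1 : 0 < |R| + 1 := by positivity
  have hR' : ∀ x ∈ J, Om x ⊆ Metric.closedBall 0 (|R| + 1) := fun x hx =>
    (hR x hx).trans (Metric.closedBall_subset_closedBall (by linarith [le_abs_self R]))
  have h2 : ∀ n : ℕ, ∃ δ C : ℝ, 0 < δ ∧ 0 ≤ C ∧ ∀ (Om Om' : Set ℂ) (lam lam' : ℝ), IsOpen Om →
      IsOpen Om' → Om ⊆ Metric.closedBall 0 (|R| + 1) → Om' ⊆ Metric.closedBall 0 (|R| + 1) →
      0 < lam → lam ≤ (n : ℝ) + 1 →
      0 < lam' → lam' ≤ (n : ℝ) + 1 → Slv Om lam → Slv Om' lam' →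
      (∀ ρ ∈ Icc (1 / 2 : ℝ) 2, dd Om' (sim ρ⁻¹ 0 Om') ≤ P * |ρ - 1|) →
      |lam - lam'| ≤ δ → dd Om Om' ≤ δ →
      |lam * (volume Om).toReal - lam' * (volume Om').toReal| ≤ C * dd Om Om' ^ (2 - g) :=
    fun n => two_point hR1 (by positivity) hP0 hg0 hg1
  choose δ C hδ hC htp using h2
  set Bx : ℕ → ℤ → ℝ → Prop := fun n j lam => 0 < lam ∧ lam ≤ (n : ℝ) + 1 ∧ (j : ℝ) * δ n ≤ lam ∧
    lam ≤ ((j : ℝ) + 1) * δ n with hBx
  have hbx : ∀ n j lam lam', Bx n j lam → Bx n j lam' → |lam - lam'| ≤ δ n := by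
    intro n j lam lam' h h'
    have h1 := h.2.2.1
    have h2 := h.2.2.2
    have h3 := h'.2.2.1
    have h4 := h'.2.2.2
    rw [abs_le]
    constructor <;> nlinarith
  set S : ℕ → ℤ → Set X := fun n j => {x | x ∈ J ∧ ∃ lam, Bx n j lam ∧ Slv (Om x) lam} with hS
  have hch : ∀ n j x, ∃ lam : ℝ, x ∈ S n j → Bx n j lam ∧ Slv (Om x) lam := by
    intro n j x
    by_cases hx : x ∈ S n j
    · obtain ⟨_, lam, h⟩ := hx
      exact ⟨lam, fun _ => h⟩
    · exact ⟨0, fun h => absurd h hx⟩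
  choose lf hlf using hch
  set F : ℕ → ℤ → X → ℝ := fun n j x => lf n j x * (volume (Om x)).toReal with hF
  have hsub : {v : ℝ | ∃ x ∈ J, ∃ lam : ℝ, 0 < lam ∧ Slv (Om x) lam ∧
      v = lam * (volume (Om x)).toReal} ⊆ ⋃ p : ℕ × ℤ, F p.1 p.2 '' S p.1 p.2 := by
    rintro v ⟨x, hx, lam, hl, hs, rfl⟩
    obtain ⟨n, hn⟩ := exists_nat_ge lam
    have hB : Bx n ⌊lam / δ n⌋ lam := by
      refine ⟨hl, by linarith, ?_, ?_⟩
      · have := Int.floor_le (lam / δ n)
        rwa [le_div_iff₀ (hδ n)] at this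
      · have := (Int.lt_floor_add_one (lam / δ n)).le
        rwa [div_le_iff₀ (hδ n)] at this
    have hxS : x ∈ S n ⌊lam / δ n⌋ := ⟨hx, lam, hB, hs⟩
    refine mem_iUnion.2 ⟨(n, ⌊lam / δ n⌋), x, hxS, ?_⟩
    obtain ⟨hB', hs'⟩ := hlf n _ x hxS
    have h0 : dd (Om x) (Om x) = 0 := by
      unfold dd
      simp
    have h1 := htp n (Om x) (Om x) _ lam (ho x hx) (ho x hx) (hR' x hx) (hR' x hx) hB'.1 hB'.2.1
      hl hB.2.1 hs' hs (hP x hx) (hbx n _ _ _ hB' hB) (by rw [h0]; exact (hδ n).le)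
    rw [h0, Real.zero_rpow (by linarith), mul_zero] at h1
    have h2 := abs_nonpos_iff.1 h1
    simp only [hF]
    linarith
  refine (dimH_mono hsub).trans ?_
  rw [dimH_iUnion]
  refine iSup_le fun p => ?_
  obtain ⟨n, j⟩ := p
  have hr0 : 0 < a * (2 - g) := mul_pos ha (by linarith)
  refine (dimH_image_le_of_locally_holder_on (r := (a * (2 - g)).toNNReal) (s := S n j)
    (f := F n j) (Real.toNNReal_pos.2 hr0) ?_).trans ?_
  · intro x hx
    -- the radius
    obtain ⟨η, hη, hηδ⟩ : ∃ η : ℝ, 0 < η ∧ L * (2 * η) ^ a ≤ δ n := by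
      have h3 : Tendsto (fun η : ℝ => L * (2 * η) ^ a) (𝓝[>] 0) (𝓝 0) := by
        have h5 : Tendsto (fun η : ℝ => 2 * η) (𝓝[>] 0) (𝓝 0) := by
          have h6 : Continuous fun η : ℝ => 2 * η := by fun_prop
          have h7 := h6.tendsto 0
          rw [mul_zero] at h7
          exact h7.mono_left nhdsWithin_le_nhds
        have h4 := (h5.rpow_const (p := a) (Or.inr ha.le)).const_mul L
        rw [Real.zero_rpow ha.ne', mul_zero] at h4
        exact h4
      obtain ⟨η, h5, h6⟩ := ((h3.eventually_le_const (hδ n)).and self_mem_nhdsWithin).exists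
      exact ⟨η, h6, h5⟩
    refine ⟨(C n * L ^ (2 - g)).toNNReal, S n j ∩ Metric.ball x η, ?_, ?_⟩
    · exact inter_mem_nhdsWithin _ (Metric.ball_mem_nhds x hη)
    · refine holder_of (mul_nonneg (hC n) (Real.rpow_nonneg hL0 _)) hr0.le ?_
      rintro y ⟨hy, hy2⟩ z ⟨hz, hz2⟩
      obtain ⟨b1, b2⟩ := hlf n j y hy
      obtain ⟨b3, b4⟩ := hlf n j z hz
      have hyz : dist y z ≤ 2 * η := by
        have h1 := Metric.mem_ball.1 hy2
        have h2 := Metric.mem_ball.1 hz2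
        have h3 := dist_triangle_right y z x
        linarith
      have hd := hL y hy.1 z hz.1
      have hd2 : dd (Om y) (Om z) ≤ δ n := by
        refine hd.trans (le_trans ?_ hηδ)
        have := Real.rpow_le_rpow dist_nonneg hyz ha.le
        exact mul_le_mul_of_nonneg_left this hL0
      have h1 := htp n (Om y) (Om z) _ _ (ho y hy.1) (ho z hz.1) (hR' y hy.1) (hR' z hz.1) b1.1
        b1.2.1 b3.1 b3.2.1 b2 b4 (hP z hz.1) (hbx n j _ _ b1 b3) hd2
      refine h1.trans ?_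
      have h3 : dd (Om y) (Om z) ^ (2 - g) ≤ (L * dist y z ^ a) ^ (2 - g) :=
        Real.rpow_le_rpow (dd_nonneg _ _) hd (by linarith)
      have h4 : (L * dist y z ^ a) ^ (2 - g) = L ^ (2 - g) * dist y z ^ (a * (2 - g)) := by
        rw [Real.mul_rpow hL0 (Real.rpow_nonneg dist_nonneg _), ← Real.rpow_mul dist_nonneg]
      rw [h4] at h3
      calc C n * dd (Om y) (Om z) ^ (2 - g)
          ≤ C n * (L ^ (2 - g) * dist y z ^ (a * (2 - g))) := mul_le_mul_of_nonneg_left h3 (hC n)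
        _ = _ := by ring
  · exact ENNReal.div_le_div_right (dimH_mono fun x hx => hx.1) _

/-- the dimension bound, measurable sets with a fixed eigenvalue -/
theorem dim_fix {X : Type*} [MetricSpace X] [SecondCountableTopology X] {J : Set X}
    {E : X → Set ℂ} {R L a lam : ℝ} (hL0 : 0 ≤ L) (ha : 0 < a) (hl : 0 < lam)
    (hm : ∀ x ∈ J, MeasurableSet (E x)) (hR : ∀ x ∈ J, E x ⊆ Metric.closedBall 0 R)
    (hL : ∀ x ∈ J, ∀ y ∈ J, dd (E x) (E y) ≤ L * dist x y ^ a) :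
    dimH {v : ℝ | ∃ x ∈ J, Slv (E x) lam ∧ v = (volume (E x)).toReal} ≤
      dimH J / ENNReal.ofReal (2 * a) := by
  refine limit_dim ha fun g hg0 hg1 => ?_
  have hR0 : 0 ≤ |R| := abs_nonneg R
  have hR' : ∀ x ∈ J, E x ⊆ Metric.closedBall 0 |R| := fun x hx =>
    (hR x hx).trans (Metric.closedBall_subset_closedBall (le_abs_self R))
  set S : Set X := {x | x ∈ J ∧ Slv (E x) lam} with hS
  have e : {v : ℝ | ∃ x ∈ J, Slv (E x) lam ∧ v = (volume (E x)).toReal} =
      (fun x => (volume (E x)).toReal) '' S := by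
    ext v
    constructor
    · rintro ⟨x, h1, h2, rfl⟩
      exact ⟨x, ⟨h1, h2⟩, rfl⟩
    · rintro ⟨x, ⟨h1, h2⟩, rfl⟩
      exact ⟨x, h1, h2, rfl⟩
  rw [e]
  have hr0 : 0 < a * (2 - g) := mul_pos ha (by linarith)
  have hC := CC_one hl.le hR0
  refine (dimH_image_le_of_locally_holder_on (r := (a * (2 - g)).toNNReal) (s := S)
    (Real.toNNReal_pos.2 hr0) ?_).trans ?_
  · intro x hx
    obtain ⟨η, hη, hηδ⟩ : ∃ η : ℝ, 0 < η ∧ L * (2 * η) ^ a ≤ 1 := by
      have h3 : Tendsto (fun η : ℝ => L * (2 * η) ^ a) (𝓝[>] 0) (𝓝 0) := by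
        have h5 : Tendsto (fun η : ℝ => 2 * η) (𝓝[>] 0) (𝓝 0) := by
          have h6 : Continuous fun η : ℝ => 2 * η := by fun_prop
          have h7 := h6.tendsto 0
          rw [mul_zero] at h7
          exact h7.mono_left nhdsWithin_le_nhds
        have h4 := (h5.rpow_const (p := a) (Or.inr ha.le)).const_mul L
        rw [Real.zero_rpow ha.ne', mul_zero] at h4
        exact h4
      obtain ⟨η, h5, h6⟩ := ((h3.eventually_le_const one_pos).and self_mem_nhdsWithin).exists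
      exact ⟨η, h6, h5⟩
    refine ⟨(CC lam |R| * (1 + 1 / g) * L ^ (2 - g)).toNNReal, S ∩ Metric.ball x η, ?_, ?_⟩
    · exact inter_mem_nhdsWithin _ (Metric.ball_mem_nhds x hη)
    · refine holder_of (mul_nonneg (by positivity) (Real.rpow_nonneg hL0 _)) hr0.le ?_
      rintro y ⟨hy, hy2⟩ z ⟨hz, hz2⟩
      have hyz : dist y z ≤ 2 * η := by
        have h1 := Metric.mem_ball.1 hy2
        have h2 := Metric.mem_ball.1 hz2
        have h3 := dist_triangle_right y z x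
        linarith
      have hd := hL y hy.1 z hz.1
      have hd2 : dd (E y) (E z) ≤ 1 := by
        refine hd.trans (le_trans ?_ hηδ)
        have := Real.rpow_le_rpow dist_nonneg hyz ha.le
        exact mul_le_mul_of_nonneg_left this hL0
      have h1 := area_ineq (hm y hy.1) (hm z hz.1) hl hy.2 hz.2 hR0 (hR' y hy.1) (hR' z hz.1)
      have h2 := absorb (dd_nonneg (E y) (E z)) hd2 hg0 (by linarith : g < 2)
      have h3 : dd (E y) (E z) ^ (2 - g) ≤ (L * dist y z ^ a) ^ (2 - g) :=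
        Real.rpow_le_rpow (dd_nonneg _ _) hd (by linarith)
      have h4 : (L * dist y z ^ a) ^ (2 - g) = L ^ (2 - g) * dist y z ^ (a * (2 - g)) := by
        rw [Real.mul_rpow hL0 (Real.rpow_nonneg dist_nonneg _), ← Real.rpow_mul dist_nonneg]
      rw [h4] at h3
      refine h1.trans ?_
      calc CC lam |R| * dd (E y) (E z) ^ 2 * (1 + |Real.log (dd (E y) (E z))|)
          = CC lam |R| * (dd (E y) (E z) ^ 2 * (1 + |Real.log (dd (E y) (E z))|)) := by ring
        _ ≤ CC lam |R| * ((1 + 1 / g) * (L ^ (2 - g) * dist y z ^ (a * (2 - g)))) := by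
            refine mul_le_mul_of_nonneg_left (h2.trans ?_) (by linarith)
            exact mul_le_mul_of_nonneg_left h3 (by positivity)
        _ = _ := by ring
  · exact ENNReal.div_le_div_right (dimH_mono fun x hx => hx.1) _

/-- null sets on the line -/
theorem null_of_dim {V J : Set ℝ} {a : ℝ} (ha : 1 / 2 < a)
    (h : dimH V ≤ dimH J / ENNReal.ofReal (2 * a)) : volume V = 0 := by
  have h1 : dimH V < ((1 : ℝ≥0) : ℝ≥0∞) := by
    refine lt_of_le_of_lt h ?_
    have h2 : dimH J ≤ 1 := by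
      refine (dimH_mono (subset_univ J)).trans (le_of_eq ?_)
      rw [Real.dimH_univ]
    refine lt_of_le_of_lt (ENNReal.div_le_div_right h2 _) ?_
    rw [ENNReal.coe_one, ENNReal.div_lt_iff (Or.inl (by
      rw [Ne, ENNReal.ofReal_eq_zero, not_le]
      linarith)) (Or.inl ENNReal.ofReal_ne_top), one_mul, ENNReal.one_lt_ofReal]
    linarith
  refine measure_zero_of_dimH_lt ?_ h1
  rw [NNReal.coe_one, hausdorffMeasure_real]

end Pool.Agent.X103.Ar
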