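import Mathlib

/-!
# Bergman functions of measures on the unit circle (helper103)
-/

set_option autoImplicit false

open MeasureTheory Filter Topology Set Polynomial ComplexConjugate

namespace Pool.Agent.X103.Berg

/-- A finite measure carried by the unit circle whose `L²` norm is a norm on polynomials. -/
structure Nice (ν : Measure ℂ) : Prop where
  fin : IsFiniteMeasure ν
  supp : ∀ᵐ z ∂ν, ‖z‖ = 1
  nondeg : ∀ p : ℂ[X], p ≠ 0 → 0 < ∫ z, ‖p.eval z‖ ^ 2 ∂ν

lemma Nice.integrable {ν : Measure ℂ} (h : Nice ν) {E : Type*} [NormedAddCommGroup E]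
    {f : ℂ → E} (hf : Continuous f) : Integrable f ν := by
  have := h.fin
  obtain ⟨C, hC⟩ := (isCompact_sphere (0 : ℂ) 1).exists_bound_of_continuousOn hf.continuousOn
  refine Integrable.of_bound hf.aestronglyMeasurable C ?_
  filter_upwards [h.supp] with z hz
  exact hC z (by simpa using hz)

/-- The inner product of `L²(ν)`. -/
noncomputable def ip (ν : Measure ℂ) (p q : ℂ[X]) : ℂ := ∫ z, conj (p.eval z) * q.eval z ∂ν

lemma cont_mul (p q : ℂ[X]) : Continuous (fun z : ℂ => conj (p.eval z) * q.eval z) :=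
  (Complex.continuous_conj.comp p.continuous).mul q.continuous

lemma ip_self (ν : Measure ℂ) (p : ℂ[X]) :
    ip ν p p = ((∫ z, ‖p.eval z‖ ^ 2 ∂ν : ℝ) : ℂ) := by
  rw [ip, ← integral_complex_ofReal]
  congr 1
  funext z
  rw [mul_comm, Complex.mul_conj, Complex.normSq_eq_norm_sq]

lemma ip_sum {ν : Measure ℂ} (h : Nice ν) {ι : Type*} [Fintype ι] (a : ι → ℂ) (e : ι → ℂ[X])
    (p : ℂ[X]) : ip ν p (∑ i, C (a i) * e i) = ∑ i, a i * ip ν p (e i) := by
  simp only [ip]
  simp_rw [← integral_const_mul]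
  rw [← integral_finsetSum _ fun i _ => (h.integrable (cont_mul p (e i))).const_mul _]
  congr 1
  funext z
  rw [eval_finsetSum, Finset.mul_sum]
  refine Finset.sum_congr rfl fun i _ => ?_
  rw [eval_mul, eval_C]; ring

lemma ip_symm (ν : Measure ℂ) (p q : ℂ[X]) : conj (ip ν q p) = ip ν p q := by
  rw [ip, ip, ← integral_conj]
  congr 1
  funext z
  rw [map_mul, Complex.conj_conj, mul_comm]

/-- Orthonormal families of polynomials. -/
def Orth (ν : Measure ℂ) {ι : Type*} (e : ι → ℂ[X]) : Prop :=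
  ∀ i j, ip ν (e i) (e j) = open Classical in if i = j then 1 else 0

lemma norm_sq_sum {ν : Measure ℂ} (h : Nice ν) {ι : Type*} [Fintype ι] {e : ι → ℂ[X]}
    (he : Orth ν e) (a : ι → ℂ) :
    ∫ z, ‖(∑ i, C (a i) * e i).eval z‖ ^ 2 ∂ν = ∑ i, ‖a i‖ ^ 2 := by
  classical
  have h1 := ip_self ν (∑ i, C (a i) * e i)
  rw [ip_sum h] at h1
  have h2 : ∀ i, ip ν (∑ j, C (a j) * e j) (e i) = conj (a i) := by
    intro i
    rw [← ip_symm, ip_sum h]
    simp only [he i, mul_ite, mul_one, mul_zero]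
    rw [Finset.sum_ite_eq]
    simp
  simp only [h2] at h1
  have h3 : ∑ i, a i * conj (a i) = ((∑ i, ‖a i‖ ^ 2 : ℝ) : ℂ) := by
    push_cast
    refine Finset.sum_congr rfl fun i _ => ?_
    rw [Complex.mul_conj, Complex.normSq_eq_norm_sq]
    push_cast; rfl
  rw [h3] at h1
  exact (Complex.ofReal_injective h1).symm

/-- The kernel on the diagonal of a finite family. -/
noncomputable def bk {ι : Type*} [Fintype ι] (e : ι → ℂ[X]) (z : ℂ) : ℝ :=
  ∑ i, ‖(e i).eval z‖ ^ 2

lemma bk_cont {ι : Type*} [Fintype ι] (e : ι → ℂ[X]) : Continuous (bk e) := by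
  unfold bk
  exact continuous_finsetSum _ fun i _ => ((e i).continuous.norm.pow 2)

lemma bk_nonneg {ι : Type*} [Fintype ι] (e : ι → ℂ[X]) (z : ℂ) : 0 ≤ bk e z :=
  Finset.sum_nonneg fun i _ => by positivity

lemma int_bk {ν : Measure ℂ} (h : Nice ν) {ι : Type*} [Fintype ι] {e : ι → ℂ[X]}
    (he : Orth ν e) : ∫ z, bk e z ∂ν = Fintype.card ι := by
  classical
  unfold bk
  rw [integral_finsetSum _ fun i _ => h.integrable (by
    have := (e i).continuous
    fun_prop)]
  have : ∀ i, ∫ z, ‖(e i).eval z‖ ^ 2 ∂ν = 1 := by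
    intro i
    have h1 := ip_self ν (e i)
    rw [he i i, if_pos rfl] at h1
    exact_mod_cast h1.symm
  simp [this]

/-- `e` is an orthonormal basis of the polynomials of degree at most `k`. -/
structure IsONB (ν : Measure ℂ) (k : ℕ) (e : Fin (k + 1) → ℂ[X]) : Prop where
  deg : ∀ i, (e i).natDegree ≤ k
  orth : Orth ν e

/-- Expansion in an orthonormal basis. -/
lemma IsONB.expand {ν : Measure ℂ} (h : Nice ν) {k : ℕ} {e : Fin (k + 1) → ℂ[X]}
    (he : IsONB ν k e) {p : ℂ[X]} (hp : p.natDegree ≤ k) :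
    ∃ a : Fin (k + 1) → ℂ, p = ∑ i, C (a i) * e i := by
  have hmem : ∀ q : ℂ[X], q.natDegree ≤ k → q ∈ degreeLT ℂ (k + 1) := fun q hq => by
    rw [mem_degreeLT]
    exact (degree_le_of_natDegree_le hq).trans_lt (by exact_mod_cast Nat.lt_succ_self k)
  let e' : Fin (k + 1) → degreeLT ℂ (k + 1) := fun i => ⟨e i, hmem _ (he.deg i)⟩
  have hli : LinearIndependent ℂ e' := by
    rw [Fintype.linearIndependent_iff]
    intro a ha i
    have h1 : ∑ i, C (a i) * e i = 0 := by
      have := congrArg (Subtype.val) ha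
      simp only [AddSubmonoidClass.coe_finsetSum, SetLike.val_smul, ZeroMemClass.coe_zero] at this
      rw [← this]
      refine Finset.sum_congr rfl fun i _ => ?_
      rw [smul_eq_C_mul]
    have h2 := norm_sq_sum h he.orth a
    rw [h1] at h2
    simp only [eval_zero, norm_zero, ne_eq, OfNat.ofNat_ne_zero, not_false_eq_true, zero_pow,
      integral_zero] at h2
    have h3 := (Finset.sum_eq_zero_iff_of_nonneg (fun i _ => by positivity)).1 h2.symm i
      (Finset.mem_univ i)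
    simpa using h3
  have hcard : Fintype.card (Fin (k + 1)) = Module.finrank ℂ (degreeLT ℂ (k + 1)) := by
    rw [(degreeLTEquiv ℂ (k + 1)).finrank_eq]; simp
  have hspan := hli.span_eq_top_of_card_eq_finrank' hcard
  have hpm : (⟨p, hmem p hp⟩ : degreeLT ℂ (k + 1)) ∈ Submodule.span ℂ (range e') := by
    rw [hspan]; trivial
  obtain ⟨a, ha⟩ := (Submodule.mem_span_range_iff_exists_fun ℂ).1 hpm
  refine ⟨a, ?_⟩
  have := congrArg (Subtype.val) ha
  simp only [AddSubmonoidClass.coe_finsetSum, SetLike.val_smul] at this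
  rw [← this]
  refine Finset.sum_congr rfl fun i _ => ?_
  rw [smul_eq_C_mul]

/-- The reproducing inequality. -/
lemma IsONB.le {ν : Measure ℂ} (h : Nice ν) {k : ℕ} {e : Fin (k + 1) → ℂ[X]}
    (he : IsONB ν k e) {p : ℂ[X]} (hp : p.natDegree ≤ k) (z : ℂ) :
    ‖p.eval z‖ ^ 2 ≤ (∫ w, ‖p.eval w‖ ^ 2 ∂ν) * bk e z := by
  obtain ⟨a, rfl⟩ := he.expand h hp
  rw [norm_sq_sum h he.orth, eval_finsetSum]
  have h1 : ‖∑ i, (C (a i) * e i).eval z‖ ≤ ∑ i, ‖a i‖ * ‖(e i).eval z‖ := by
    refine (norm_sum_le _ _).trans (le_of_eq ?_)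
    refine Finset.sum_congr rfl fun i _ => ?_
    rw [eval_mul, eval_C, norm_mul]
  have h2 := Finset.sum_mul_sq_le_sq_mul_sq Finset.univ (fun i => ‖a i‖) (fun i => ‖(e i).eval z‖)
  refine le_trans (pow_le_pow_left₀ (norm_nonneg _) h1 2) h2

/-- Comparison of kernels. -/
lemma IsONB.bk_le {ν : Measure ℂ} (h : Nice ν) {k : ℕ} {e : Fin (k + 1) → ℂ[X]}
    (he : IsONB ν k e) {ι : Type*} [Fintype ι] {f : ι → ℂ[X]} (hf : Orth ν f)
    (hd : ∀ i, (f i).natDegree ≤ k) (z : ℂ) : bk f z ≤ bk e z := by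
  set p : ℂ[X] := ∑ i, C (conj ((f i).eval z)) * f i with hp
  have hpd : p.natDegree ≤ k := by
    refine natDegree_sum_le_of_forall_le _ _ fun i _ => ?_
    exact (natDegree_C_mul_le _ _).trans (hd i)
  have h1 := he.le h hpd z
  rw [hp, norm_sq_sum h hf] at h1
  have h2 : (∑ i, C (conj ((f i).eval z)) * f i).eval z = ((bk f z : ℝ) : ℂ) := by
    rw [eval_finsetSum, bk]
    push_cast
    refine Finset.sum_congr rfl fun i _ => ?_
    rw [eval_mul, eval_C, mul_comm, Complex.mul_conj, Complex.normSq_eq_norm_sq]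
    push_cast; rfl
  rw [h2] at h1
  have h3 : ∑ i, ‖conj ((f i).eval z)‖ ^ 2 = bk f z := by
    rw [bk]
    refine Finset.sum_congr rfl fun i _ => ?_
    rw [RCLike.norm_conj]
  rw [h3] at h1
  have h4 : ‖((bk f z : ℝ) : ℂ)‖ = bk f z := by
    rw [Complex.norm_real, Real.norm_eq_abs, abs_of_nonneg (bk_nonneg f z)]
  rw [h4] at h1
  rcases (bk_nonneg f z).eq_or_lt with h5 | h5
  · rw [← h5]; exact bk_nonneg e z
  · nlinarith

/-- Uniqueness of the Bergman function. -/
lemma IsONB.unique {ν : Measure ℂ} (h : Nice ν) {k : ℕ} {e e' : Fin (k + 1) → ℂ[X]}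
    (he : IsONB ν k e) (he' : IsONB ν k e') (z : ℂ) : bk e z = bk e' z :=
  le_antisymm (he'.bk_le h he.orth he.deg z) (he.bk_le h he'.orth he'.deg z)

/-- Orthonormal bases of finite-dimensional spaces of polynomials. -/
lemma exists_orth {ν : Measure ℂ} (h : Nice ν) (W : Submodule ℂ ℂ[X]) [FiniteDimensional ℂ W] :
    ∃ f : Fin (Module.finrank ℂ W) → ℂ[X], (∀ i, f i ∈ W) ∧ Orth ν f := by
  classical
  let cd : InnerProductSpace.Core ℂ W :=
    { inner := fun p q => ip ν p q
      conj_inner_symm := fun p q => ip_symm ν _ _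
      re_inner_nonneg := fun p => by
        show 0 ≤ (ip ν p p).re
        rw [ip_self, Complex.ofReal_re]
        exact integral_nonneg fun z => by positivity
      add_left := fun p q r => by
        show ip ν ((p + q : W) : ℂ[X]) r = ip ν p r + ip ν q r
        simp only [ip]
        rw [← integral_add (h.integrable (cont_mul _ _)) (h.integrable (cont_mul _ _))]
        congr 1
        funext z
        rw [Submodule.coe_add, eval_add, map_add, add_mul]
      smul_left := fun p q c => by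
        show ip ν ((c • p : W) : ℂ[X]) q = conj c * ip ν p q
        simp only [ip]
        rw [← integral_const_mul]
        congr 1
        funext z
        rw [Submodule.coe_smul, eval_smul, smul_eq_mul, map_mul]
        ring
      definite := fun p hp => by
        by_contra hne
        have h1 : (p : ℂ[X]) ≠ 0 := fun h0 => hne (Subtype.ext h0)
        have h2 := h.nondeg p h1
        change ip ν p p = 0 at hp
        rw [ip_self] at hp
        have h3 : ∫ z, ‖(p : ℂ[X]).eval z‖ ^ 2 ∂ν = 0 := by exact_mod_cast hp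
        linarith }
  let _ : NormedAddCommGroup W := cd.toNormedAddCommGroup
  let _ : InnerProductSpace ℂ W := InnerProductSpace.ofCore cd.toCore
  let b := stdOrthonormalBasis ℂ W
  refine ⟨fun i => (b i : ℂ[X]), fun i => (b i).2, fun i j => ?_⟩
  have h1 := (orthonormal_iff_ite.1 b.orthonormal) i j
  refine Eq.trans h1 ?_
  congr

/-- Existence of orthonormal bases. -/
lemma exists_onb {ν : Measure ℂ} (h : Nice ν) (k : ℕ) : ∃ e, IsONB ν k e := by
  have hfd : FiniteDimensional ℂ (degreeLT ℂ (k + 1)) :=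
    Module.Finite.equiv (degreeLTEquiv ℂ (k + 1)).symm
  obtain ⟨f, hf1, hf2⟩ := exists_orth h (degreeLT ℂ (k + 1))
  have hcard : Module.finrank ℂ (degreeLT ℂ (k + 1)) = k + 1 := by
    rw [(degreeLTEquiv ℂ (k + 1)).finrank_eq]; simp
  refine ⟨fun i => f (Fin.cast hcard.symm i), fun i => ?_, fun i j => ?_⟩
  · have h1 := mem_degreeLT.1 (hf1 (Fin.cast hcard.symm i))
    by_cases h0 : f (Fin.cast hcard.symm i) = 0
    · rw [h0]; simp
    · rw [degree_eq_natDegree h0] at h1
      have : (f (Fin.cast hcard.symm i)).natDegree < k + 1 := by exact_mod_cast h1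
      omega
  · rw [hf2]
    simp [Fin.ext_iff]

/-- The trace comparison. -/
lemma trace_bound {ν ν₁ ν₂ : Measure ℂ} (h : Nice ν) (h₂ : Nice ν₂) (hsum : ν = ν₁ + ν₂)
    {R : Finset ℂ} (hR : ν₁ (R : Set ℂ)ᶜ = 0) {ω : ℂ} (hω : ‖ω‖ = 1)
    (hinv : ν₂.map (fun z => ω * z) = ν₂) {m : ℕ} (hm : ω ^ m ≠ 1) {k : ℕ}
    {e : Fin (k + 1) → ℂ[X]} (he : IsONB ν k e) :
    ‖∫ z, z ^ m * (bk e z : ℂ) ∂ν‖ ≤ 2 * R.card := by
  classical
  -- the space of polynomials vanishing on `R`
  let ev : degreeLT ℂ (k + 1) →ₗ[ℂ] (R → ℂ) :=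
    { toFun := fun p ζ => (p : ℂ[X]).eval (ζ : ℂ)
      map_add' := fun p q => by funext ζ; simp
      map_smul' := fun c p => by funext ζ; simp }
  have hfd : FiniteDimensional ℂ (degreeLT ℂ (k + 1)) :=
    Module.Finite.equiv (degreeLTEquiv ℂ (k + 1)).symm
  have hfr : Module.finrank ℂ (degreeLT ℂ (k + 1)) = k + 1 := by
    rw [(degreeLTEquiv ℂ (k + 1)).finrank_eq]; simp
  let W : Submodule ℂ ℂ[X] := (LinearMap.ker ev).map (degreeLT ℂ (k + 1)).subtype
  have hWfr : Module.finrank ℂ W = Module.finrank ℂ (LinearMap.ker ev) :=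
    LinearEquiv.finrank_eq (Submodule.equivSubtypeMap _ _).symm
  have hWfd : FiniteDimensional ℂ W := Module.Finite.map _ _
  have hdim : k + 1 ≤ Module.finrank ℂ W + R.card := by
    have h1 := LinearMap.finrank_range_add_finrank_ker ev
    have h2 : Module.finrank ℂ (LinearMap.range ev) ≤ R.card := by
      refine (Submodule.finrank_le _).trans ?_
      simp
    omega
  obtain ⟨f, hfW, hf2⟩ := exists_orth h₂ W
  have hWmem : ∀ p ∈ W, p.natDegree ≤ k ∧ ∀ ζ ∈ R, p.eval ζ = 0 := by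
    intro p hp
    obtain ⟨q, hq, rfl⟩ := Submodule.mem_map.1 hp
    have hq1 := mem_degreeLT.1 q.2
    refine ⟨?_, fun ζ hζ => ?_⟩
    · by_cases h0 : (q : ℂ[X]) = 0
      · simp [h0]
      · rw [degree_eq_natDegree h0] at hq1
        have : (q : ℂ[X]).natDegree < k + 1 := by exact_mod_cast hq1
        simpa using (by omega : (q : ℂ[X]).natDegree ≤ k)
    · exact congrFun (LinearMap.mem_ker.1 hq) ⟨ζ, hζ⟩
  have hfd1 : ∀ i, (f i).natDegree ≤ k := fun i => (hWmem _ (hfW i)).1
  have hf0 : ∀ i, ∀ ζ ∈ R, (f i).eval ζ = 0 := fun i => (hWmem _ (hfW i)).2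
  -- integrals against `ν` and `ν₂` agree for functions vanishing on `R`
  have hagree : ∀ {g : ℂ → ℂ}, Continuous g → (∀ ζ ∈ R, g ζ = 0) → ∫ z, g z ∂ν = ∫ z, g z ∂ν₂ := by
    intro g hg hg0
    have hg1 : g =ᵐ[ν₁] 0 := by
      rw [Filter.EventuallyEq, ae_iff]
      refine measure_mono_null (fun z hz => ?_) hR
      intro hzR
      exact hz (hg0 z hzR)
    have hi1 : Integrable g ν₁ := (integrable_zero _ _ _).congr hg1.symm
    rw [hsum, integral_add_measure hi1 (h₂.integrable hg), integral_congr_ae hg1]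
    simp
  have hf1 : Orth ν f := by
    intro i j
    rw [← hf2 i j, ip, ip]
    refine hagree (cont_mul _ _) fun ζ hζ => ?_
    rw [hf0 j ζ hζ, mul_zero]
  obtain ⟨e₂, he₂⟩ := exists_onb h₂ k
  have hle1 : ∀ z, bk f z ≤ bk e z := he.bk_le h hf1 hfd1
  have hle2 : ∀ z, bk f z ≤ bk e₂ z := he₂.bk_le h₂ hf2 hfd1
  -- a general bound
  have gen : ∀ {μ : Measure ℂ} (hμ : Nice μ) {e' : Fin (k + 1) → ℂ[X]}, IsONB μ k e' →
      Orth μ f → (∀ z, bk f z ≤ bk e' z) →
      ‖∫ z, z ^ m * ((bk e' z : ℂ) - (bk f z : ℂ)) ∂μ‖ ≤ R.card := by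
    intro μ hμ e' he' hf' hle'
    have hc1 := bk_cont e'
    have hc2 := bk_cont f
    have h1 : ‖∫ z, z ^ m * ((bk e' z : ℂ) - (bk f z : ℂ)) ∂μ‖ ≤ ∫ z, (bk e' z - bk f z) ∂μ := by
      refine (norm_integral_le_integral_norm _).trans ?_
      refine integral_mono_ae (hμ.integrable (by fun_prop)) (hμ.integrable (by fun_prop)) ?_
      filter_upwards [hμ.supp] with z hz
      rw [norm_mul, norm_pow, hz, one_pow, one_mul, ← Complex.ofReal_sub, Complex.norm_real,
        Real.norm_eq_abs, abs_of_nonneg (sub_nonneg.2 (hle' z))]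
    refine h1.trans ?_
    rw [integral_sub (hμ.integrable hc1) (hμ.integrable hc2), int_bk hμ he'.orth, int_bk hμ hf']
    simp only [Fintype.card_fin]
    have : ((k + 1 : ℕ) : ℝ) ≤ Module.finrank ℂ W + R.card := by exact_mod_cast hdim
    linarith
  have g1 := gen h he hf1 hle1
  have g2 := gen h₂ he₂ hf2 hle2
  -- rotation invariance
  have hrot : ∫ z, z ^ m * (bk e₂ z : ℂ) ∂ν₂ = 0 := by
    have hω0 : ω ≠ 0 := by rintro rfl; simp at hω
    have hmeas : Measurable (fun z : ℂ => ω * z) := by fun_prop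
    let e₃ : Fin (k + 1) → ℂ[X] := fun i => (e₂ i).comp (C ω * X)
    have he₃ : IsONB ν₂ k e₃ := by
      refine ⟨fun i => ?_, fun i j => ?_⟩
      · refine (natDegree_comp_le).trans ?_
        rw [natDegree_C_mul_X ω hω0, mul_one]
        exact he₂.deg i
      · rw [← he₂.orth i j, ip, ip]
        conv_rhs => rw [← hinv]
        rw [integral_map hmeas.aemeasurable (cont_mul _ _).aestronglyMeasurable]
        congr 1
        funext z
        simp [e₃, eval_comp]
    have hb : ∀ z, bk e₂ (ω * z) = bk e₂ z := by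
      intro z
      rw [he₂.unique h₂ he₃ z]
      simp only [bk, e₃, eval_comp, eval_mul, eval_C, eval_X]
    have hc := bk_cont e₂
    have h1 : ∫ z, z ^ m * (bk e₂ z : ℂ) ∂ν₂ = ω ^ m * ∫ z, z ^ m * (bk e₂ z : ℂ) ∂ν₂ := by
      conv_lhs => rw [← hinv]
      rw [integral_map hmeas.aemeasurable (Continuous.aestronglyMeasurable (by fun_prop)),
        ← integral_const_mul]
      congr 1
      funext z
      rw [hb, mul_pow]; ring
    have h2 : (1 - ω ^ m) * ∫ z, z ^ m * (bk e₂ z : ℂ) ∂ν₂ = 0 := by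
      rw [sub_mul, one_mul, ← h1, sub_self]
    rcases mul_eq_zero.1 h2 with h3 | h3
    · exact absurd (sub_eq_zero.1 h3).symm hm
    · exact h3
  have hc := bk_cont e
  have hcf := bk_cont f
  have hc₂ := bk_cont e₂
  have s1 : ∫ z, z ^ m * (bk e z : ℂ) ∂ν = ∫ z, z ^ m * ((bk e z : ℂ) - (bk f z : ℂ)) ∂ν
      + ∫ z, z ^ m * (bk f z : ℂ) ∂ν := by
    rw [← integral_add (h.integrable (by fun_prop)) (h.integrable (by fun_prop))]
    congr 1; funext z; ring
  have s2 : ∫ z, z ^ m * (bk f z : ℂ) ∂ν = ∫ z, z ^ m * (bk f z : ℂ) ∂ν₂ := by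
    refine hagree (by fun_prop) fun ζ hζ => ?_
    have : bk f ζ = 0 := by
      unfold bk
      refine Finset.sum_eq_zero fun i _ => ?_
      rw [hf0 i ζ hζ]; simp
    rw [this]; simp
  have s3 : ∫ z, z ^ m * (bk f z : ℂ) ∂ν₂ = ∫ z, z ^ m * (bk e₂ z : ℂ) ∂ν₂
      - ∫ z, z ^ m * ((bk e₂ z : ℂ) - (bk f z : ℂ)) ∂ν₂ := by
    rw [← integral_sub (h₂.integrable (by fun_prop)) (h₂.integrable (by fun_prop))]
    congr 1; funext z; ring
  rw [s1, s2, s3, hrot, zero_sub]
  refine (norm_add_le _ _).trans ?_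
  rw [norm_neg]
  linarith

end Pool.Agent.X103.Berg
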