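import Mathlib

/-!
# A smooth bubble in `ℝ³` (helper103)

`V(x) = s² y (s² + |y|²)^{-3/2}`, `y = x - a`, with its first derivatives and its Laplacian.
-/

set_option autoImplicit false

open MeasureTheory Set Filter Topology

namespace Pool.Agent.X103.Bubble

/-- Three-dimensional Euclidean space. -/
abbrev E3 : Type := EuclideanSpace ℝ (Fin 3)

/-- Standard basis vector. -/
noncomputable def ev (i : Fin 3) : E3 := EuclideanSpace.single i 1

lemma ev_apply (i j : Fin 3) : ev i j = if j = i then 1 else 0 := by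
  simp [ev]

variable (s : ℝ) (a : E3)

/-- `s² + |x - a|²`. -/
noncomputable def Dn (x : E3) : ℝ := s ^ 2 + ‖x - a‖ ^ 2

lemma Dn_pos {s : ℝ} (hs : 0 < s) (x : E3) : 0 < Dn s a x := by unfold Dn; positivity

lemma normSq_eq (x : E3) : ‖x‖ ^ 2 = x 0 ^ 2 + x 1 ^ 2 + x 2 ^ 2 := by
  rw [EuclideanSpace.norm_sq_eq, Fin.sum_univ_three]; simp

lemma Dn_line (x : E3) (i : Fin 3) :
    HasDerivAt (fun t : ℝ => Dn s a (x + t • ev i)) (2 * (x - a) i) 0 := by
  have h : ∀ t : ℝ, Dn s a (x + t • ev i) = Dn s a x + 2 * (x - a) i * t + t ^ 2 := by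
    intro t
    unfold Dn
    rw [normSq_eq, normSq_eq]
    simp only [PiLp.sub_apply, PiLp.add_apply, PiLp.smul_apply, ev_apply, smul_eq_mul]
    fin_cases i <;> simp <;> ring
  have h2 : (fun t : ℝ => Dn s a (x + t • ev i)) = fun t => Dn s a x + 2 * (x - a) i * t + t ^ 2 :=
    funext h
  rw [h2]
  have h3 := (((hasDerivAt_id (0:ℝ)).const_mul (2 * (x - a) i)).const_add (Dn s a x)).add
    ((hasDerivAt_id (0:ℝ)).pow 2)
  refine HasDerivAt.congr_deriv h3 ?_
  simp

/-- Powers of `Dn`. -/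
noncomputable def W (β : ℝ) (x : E3) : ℝ := Dn s a x ^ (-β)

variable {s} {a}

lemma W_pos (hs : 0 < s) (β : ℝ) (x : E3) : 0 < W s a β x := Real.rpow_pos_of_pos (Dn_pos a hs x) _

lemma W_line (hs : 0 < s) (β : ℝ) (x : E3) (i : Fin 3) :
    HasDerivAt (fun t : ℝ => W s a β (x + t • ev i)) (-(2 * β) * (x - a) i * W s a (β + 1) x) 0 := by
  have h := (Dn_line s a x i).rpow_const (p := -β) (Or.inl (by simpa using (Dn_pos a hs x).ne'))
  refine HasDerivAt.congr_deriv h ?_
  simp only [zero_smul, add_zero, W]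
  rw [show -(β + 1) = -β - 1 by ring]
  ring

lemma coord_line (x : E3) (i α : Fin 3) :
    HasDerivAt (fun t : ℝ => (x + t • ev i - a) α) (if α = i then 1 else 0) 0 := by
  have h : (fun t : ℝ => (x + t • ev i - a) α) = fun t => (x - a) α + t * (if α = i then 1 else 0) := by
    funext t
    simp only [PiLp.sub_apply, PiLp.add_apply, PiLp.smul_apply, ev_apply, smul_eq_mul]
    ring
  rw [h]
  have := ((hasDerivAt_id (0:ℝ)).mul_const (if α = i then (1:ℝ) else 0)).const_add ((x - a) α)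
  simpa using this

/-- The bubble. -/
noncomputable def V (s : ℝ) (a : E3) (α : Fin 3) (x : E3) : ℝ := s ^ 2 * ((x - a) α * W s a (3/2) x)

/-- Its first derivatives. -/
noncomputable def dV (s : ℝ) (a : E3) (i α : Fin 3) (x : E3) : ℝ :=
  s ^ 2 * ((if α = i then 1 else 0) * W s a (3/2) x - 3 * (x - a) i * (x - a) α * W s a (5/2) x)

/-- The second derivatives `∂_i ∂_i`. -/
noncomputable def ddV (s : ℝ) (a : E3) (i α : Fin 3) (x : E3) : ℝ :=
  s ^ 2 * (-(6 * (if α = i then 1 else 0) * (x - a) i + 3 * (x - a) α) * W s a (5/2) x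
    + 15 * (x - a) i ^ 2 * (x - a) α * W s a (7/2) x)

/-- The Laplacian. -/
noncomputable def lapV (s : ℝ) (a : E3) (α : Fin 3) (x : E3) : ℝ :=
  -15 * s ^ 4 * ((x - a) α * W s a (7/2) x)

lemma V_line (hs : 0 < s) (x : E3) (i α : Fin 3) :
    HasLineDerivAt ℝ (V s a α) (dV s a i α x) x (ev i) := by
  have h := ((coord_line (a := a) x i α).mul (W_line (a := a) hs (3/2) x i)).const_mul (s ^ 2)
  refine HasDerivAt.congr_deriv h ?_
  have e : (3/2 : ℝ) + 1 = 5/2 := by norm_num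
  simp only [zero_smul, add_zero, dV, e]
  ring

lemma dV_line (hs : 0 < s) (x : E3) (i α : Fin 3) :
    HasLineDerivAt ℝ (dV s a i α) (ddV s a i α x) x (ev i) := by
  have h1 := (W_line (a := a) hs (3/2) x i).const_mul (if α = i then (1:ℝ) else 0)
  have h2 := ((((coord_line (a := a) x i i).const_mul 3).mul (coord_line (a := a) x i α)).mul
    (W_line (a := a) hs (5/2) x i))
  have h := (h1.sub h2).const_mul (s ^ 2)
  refine HasDerivAt.congr_deriv h ?_
  have e : (3/2 : ℝ) + 1 = 5/2 := by norm_num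
  have e' : (5/2 : ℝ) + 1 = 7/2 := by norm_num
  simp only [zero_smul, add_zero, ddV, if_true, e, e', Pi.mul_apply]
  ring

lemma W_succ (hs : 0 < s) (β : ℝ) (x : E3) : Dn s a x * W s a (β + 1) x = W s a β x := by
  have hD := Dn_pos a hs x
  unfold W
  rw [show -β = 1 + -(β + 1) by ring, Real.rpow_add hD, Real.rpow_one]

lemma lap_eq (hs : 0 < s) (x : E3) (α : Fin 3) : ∑ i, ddV s a i α x = lapV s a α x := by
  have h1 : W s a (5/2) x = Dn s a x * W s a (7/2) x := by
    rw [← W_succ hs (5/2) x]; norm_num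
  rw [Fin.sum_univ_three, lapV]
  unfold ddV
  rw [h1, Dn, normSq_eq]
  set y := x - a
  fin_cases α <;> simp <;> ring

/-! ### Pointwise bounds in terms of `g = s² (s² + |y|²)^{-3/2}` -/

/-- The size of the gradient. -/
noncomputable def g (s : ℝ) (a : E3) (x : E3) : ℝ := s ^ 2 * W s a (3/2) x

lemma g_pos (hs : 0 < s) (x : E3) : 0 < g s a x := by
  have := W_pos (a := a) hs (3/2) x
  unfold g; positivity

lemma coord_le (y : E3) (i : Fin 3) : |y i| ≤ ‖y‖ := by
  have := PiLp.norm_apply_le y i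
  simpa using this

lemma norm_sq_le_Dn (x : E3) : ‖x - a‖ ^ 2 ≤ Dn s a x := by
  unfold Dn; nlinarith [sq_nonneg s]

lemma coord_mul_le (x : E3) (i α : Fin 3) : |(x - a) i * (x - a) α| ≤ Dn s a x := by
  rw [abs_mul]
  refine le_trans ?_ (norm_sq_le_Dn (s := s) (a := a) x)
  rw [pow_two]
  exact mul_le_mul (coord_le _ _) (coord_le _ _) (abs_nonneg _) (norm_nonneg _)

lemma dV_le (hs : 0 < s) (x : E3) (i α : Fin 3) : |dV s a i α x| ≤ 4 * g s a x := by
  have hW := W_pos (a := a) hs (3/2) x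
  have hW5 := W_pos (a := a) hs (5/2) x
  have h1 : Dn s a x * W s a (5/2) x = W s a (3/2) x := by
    rw [← W_succ hs (3/2) x]; norm_num
  have h2 : |3 * (x - a) i * (x - a) α * W s a (5/2) x| ≤ 3 * W s a (3/2) x := by
    rw [← h1, mul_assoc 3, abs_mul, abs_mul, abs_of_pos hW5, abs_of_pos (by norm_num : (0:ℝ) < 3)]
    have := coord_mul_le (s := s) (a := a) x i α
    have h3 := mul_le_mul_of_nonneg_right this hW5.le
    linarith
  have h3 : |(if α = i then (1:ℝ) else 0) * W s a (3/2) x| ≤ W s a (3/2) x := by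
    split_ifs
    · rw [one_mul, abs_of_pos hW]
    · simp [hW.le]
  unfold dV g
  rw [abs_mul, abs_of_pos (by positivity : 0 < s ^ 2)]
  have h4 := abs_sub ((if α = i then (1:ℝ) else 0) * W s a (3/2) x)
    (3 * (x - a) i * (x - a) α * W s a (5/2) x)
  have h5 : |(if α = i then (1:ℝ) else 0) * W s a (3/2) x -
      3 * (x - a) i * (x - a) α * W s a (5/2) x| ≤ 4 * W s a (3/2) x := by linarith
  nlinarith [mul_le_mul_of_nonneg_left h5 (by positivity : 0 ≤ s ^ 2)]

/-- `D^{-3} = (D^{-3/2})²` -/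
lemma W_sq (hs : 0 < s) (β : ℝ) (x : E3) : W s a β x ^ 2 = W s a (2 * β) x := by
  unfold W
  rw [← Real.rpow_natCast, ← Real.rpow_mul (Dn_pos a hs x).le]
  congr 1; push_cast; ring

/-- Lower bound of the Frobenius norm of the gradient. -/
lemma grad_lower (hs : 0 < s) (x : E3) :
    2 * g s a x ^ 2 ≤ ∑ i, ∑ α, dV s a i α x ^ 2 := by
  have hW := W_pos (a := a) hs (3/2) x
  have hW5 := W_pos (a := a) hs (5/2) x
  have h1 : W s a (3/2) x = Dn s a x * W s a (5/2) x := by
    rw [← W_succ hs (3/2) x]; norm_num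
  simp only [Fin.sum_univ_three, dV, g, h1]
  have hD : Dn s a x = s ^ 2 + ((x - a) 0 ^ 2 + (x - a) 1 ^ 2 + (x - a) 2 ^ 2) := by
    rw [Dn, normSq_eq]
  set D := Dn s a x
  set w := W s a (5/2) x
  set y := x - a
  simp
  -- sum = s⁴ w² (3 D² - 6 |y|² D + 9 |y|⁴)
  have key : 2 * D ^ 2 ≤ 3 * D ^ 2 - 6 * (y 0 ^ 2 + y 1 ^ 2 + y 2 ^ 2) * D
      + 9 * (y 0 ^ 2 + y 1 ^ 2 + y 2 ^ 2) ^ 2 := by
    nlinarith [sq_nonneg (D - 3 * (y 0 ^ 2 + y 1 ^ 2 + y 2 ^ 2))]
  have h4 : 0 ≤ s ^ 4 * w ^ 2 := by positivity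
  nlinarith [mul_le_mul_of_nonneg_left key h4]

lemma lapV_le (hs : 0 < s) (x : E3) (α : Fin 3) : |lapV s a α x| ≤ 15 * g s a x ^ 2 := by
  have hW7 := W_pos (a := a) hs (7/2) x
  have hD := Dn_pos a hs x
  unfold lapV g
  have h1 : |(x - a) α| ≤ Dn s a x ^ (1/2 : ℝ) := by
    rw [← Real.sqrt_eq_rpow]
    apply Real.le_sqrt_of_sq_le
    have := coord_mul_le (s := s) (a := a) x α α
    rw [abs_mul, ← pow_two] at this
    exact this
  have h2 : Dn s a x ^ (1/2 : ℝ) * W s a (7/2) x = W s a 3 x := by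
    unfold W
    rw [← Real.rpow_add hD]; norm_num
  have h3 : W s a (3/2) x ^ 2 = W s a 3 x := by rw [W_sq hs]; norm_num
  rw [abs_mul (-15 * s ^ 4), abs_mul ((x - a) α), abs_of_pos hW7, mul_pow, h3, ← h2,
    show |(-15 * s ^ 4 : ℝ)| = 15 * s ^ 4 by
      rw [abs_mul, abs_of_nonneg (by positivity : 0 ≤ s ^ 4)]; norm_num]
  have h4 := mul_le_mul_of_nonneg_right h1 hW7.le
  nlinarith [mul_le_mul_of_nonneg_left h4 (by positivity : 0 ≤ 15 * s ^ 4)]

lemma V_le (hs : 0 < s) (x : E3) (α : Fin 3) : |V s a α x| ≤ s ^ 2 * W s a 1 x := by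
  have hW := W_pos (a := a) hs (3/2) x
  have hD := Dn_pos a hs x
  have h1 : |(x - a) α| ≤ Dn s a x ^ (1/2 : ℝ) := by
    rw [← Real.sqrt_eq_rpow]
    apply Real.le_sqrt_of_sq_le
    have := coord_mul_le (s := s) (a := a) x α α
    rw [abs_mul, ← pow_two] at this
    exact this
  have h2 : Dn s a x ^ (1/2 : ℝ) * W s a (3/2) x = W s a 1 x := by
    unfold W
    rw [← Real.rpow_add hD]; norm_num
  unfold V
  rw [abs_mul, abs_mul, abs_of_pos hW, abs_of_pos (by positivity : 0 < s ^ 2), ← h2]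
  exact mul_le_mul_of_nonneg_left (mul_le_mul_of_nonneg_right h1 hW.le) (by positivity)

lemma W_one (x : E3) : W s a 1 x = (Dn s a x)⁻¹ := by
  unfold W; rw [Real.rpow_neg_one]

lemma V_le_one (hs : 0 < s) (x : E3) (α : Fin 3) : |V s a α x| ≤ 1 := by
  refine (V_le hs x α).trans ?_
  rw [W_one, ← div_eq_mul_inv, div_le_one (Dn_pos a hs x)]
  unfold Dn; nlinarith [sq_nonneg ‖x - a‖]

/-- The integrable majorant `s² D^{-2}`. -/
noncomputable def h (s : ℝ) (a : E3) (x : E3) : ℝ := s ^ 2 * W s a 2 x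

lemma h_pos (hs : 0 < s) (x : E3) : 0 < h s a x := by
  have := W_pos (a := a) hs 2 x
  unfold h; positivity

/-- `g² ≤ h`. -/
lemma g_sq_le (hs : 0 < s) (x : E3) : g s a x ^ 2 ≤ h s a x := by
  have hW := W_pos (a := a) hs 3 x
  have h3 : W s a (3/2) x ^ 2 = W s a 3 x := by rw [W_sq hs]; norm_num
  have h2 : Dn s a x * W s a 3 x = W s a 2 x := by
    rw [← W_succ hs 2 x]; norm_num
  unfold g h
  rw [mul_pow, h3, ← h2]
  have h4 : s ^ 2 ≤ Dn s a x := by unfold Dn; nlinarith [sq_nonneg ‖x - a‖]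
  have h5 : 0 ≤ s ^ 2 * W s a 3 x := by positivity
  nlinarith [mul_le_mul_of_nonneg_right h4 h5]

/-- `g ≤ √5 h ≤ 5 h` where `D ≤ 5`. -/
lemma g_le_h (hs : 0 < s) {x : E3} (hx : Dn s a x ≤ 5) : g s a x ≤ 5 * h s a x := by
  have hW := W_pos (a := a) hs 2 x
  have hD := Dn_pos a hs x
  have h2 : Dn s a x ^ (1/2 : ℝ) * W s a 2 x = W s a (3/2) x := by
    unfold W
    rw [← Real.rpow_add hD]; norm_num
  have h3 : Dn s a x ^ (1/2 : ℝ) ≤ 5 := by
    rw [← Real.sqrt_eq_rpow]
    apply Real.sqrt_le_iff.2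
    constructor <;> nlinarith
  unfold g h
  rw [← h2]
  nlinarith [mul_le_mul_of_nonneg_right h3 (by positivity : 0 ≤ s ^ 2 * W s a 2 x)]

lemma V_le_h (hs : 0 < s) {x : E3} (hx : Dn s a x ≤ 5) (α : Fin 3) :
    |V s a α x| ≤ 5 * h s a x := by
  have hW := W_pos (a := a) hs 2 x
  have h2 : Dn s a x * W s a 2 x = W s a 1 x := by
    rw [← W_succ hs 1 x]; norm_num
  refine (V_le hs x α).trans ?_
  unfold h
  rw [← h2]
  nlinarith [mul_le_mul_of_nonneg_right hx (by positivity : 0 ≤ s ^ 2 * W s a 2 x)]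

/-! ### Integrals -/

/-- `∫ (1 + |y|²)^{-β}`. -/
noncomputable def cI (β : ℝ) : ℝ := ∫ y : E3, (1 + ‖y‖ ^ 2) ^ (-β)

lemma integrable_base {β : ℝ} (hβ : 3 < 2 * β) :
    Integrable (fun y : E3 => (1 + ‖y‖ ^ 2) ^ (-β)) volume := by
  have h := integrable_rpow_neg_one_add_norm_sq (E := E3) (μ := volume) (r := 2 * β)
    (by rw [finrank_euclideanSpace_fin]; exact_mod_cast hβ)
  have e : -(2 * β) / 2 = -β := by ring
  rwa [e] at h

lemma cI_nonneg (β : ℝ) : 0 ≤ cI β := integral_nonneg fun y => by positivity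

lemma W_scale (hs : 0 < s) (β : ℝ) (x : E3) :
    W s a β x = s ^ (-(2 * β)) * (1 + ‖s⁻¹ • (x - a)‖ ^ 2) ^ (-β) := by
  have h1 : Dn s a x = s ^ 2 * (1 + ‖s⁻¹ • (x - a)‖ ^ 2) := by
    rw [norm_smul, norm_inv, Real.norm_of_nonneg hs.le, Dn]
    field_simp
  rw [W, h1, Real.mul_rpow (by positivity) (by positivity)]
  congr 1
  rw [← Real.rpow_natCast, ← Real.rpow_mul hs.le]
  congr 1; push_cast; ring

lemma integrable_W (hs : 0 < s) {β : ℝ} (hβ : 3 < 2 * β) : Integrable (W s a β) volume := by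
  have h := ((integrable_base hβ).comp_smul (R := s⁻¹) (inv_ne_zero hs.ne')).comp_sub_right a
  have h2 := h.const_mul (s ^ (-(2 * β)))
  refine h2.congr (Eventually.of_forall fun x => ?_)
  simp only
  rw [W_scale hs]

lemma integral_W (hs : 0 < s) (β : ℝ) :
    ∫ x, W s a β x = s ^ (3 - 2 * β) * cI β := by
  have h1 : ∫ x, W s a β x =
      ∫ x, s ^ (-(2 * β)) * (1 + ‖s⁻¹ • (x - a)‖ ^ 2) ^ (-β) := by
    congr 1; funext x; exact W_scale hs β x
  rw [h1, integral_const_mul, integral_sub_right_eq_self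
    (fun x : E3 => (1 + ‖s⁻¹ • x‖ ^ 2) ^ (-β)) a,
    Measure.integral_comp_inv_smul (volume : Measure E3) (fun x : E3 => (1 + ‖x‖ ^ 2) ^ (-β)) s,
    finrank_euclideanSpace_fin, smul_eq_mul, abs_of_pos (by positivity : 0 < s ^ 3), ← mul_assoc]
  congr 1
  rw [← Real.rpow_natCast, ← Real.rpow_add hs]
  congr 1; push_cast; ring

lemma integrable_h (hs : 0 < s) : Integrable (h s a) volume :=
  (integrable_W hs (by norm_num)).const_mul _

lemma integral_h (hs : 0 < s) : ∫ x, h s a x = s * cI 2 := by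
  unfold h
  rw [integral_const_mul, integral_W hs, ← mul_assoc]
  congr 1
  rw [show (3:ℝ) - 2 * 2 = -1 by norm_num, Real.rpow_neg_one]
  field_simp

lemma g_rpow (hs : 0 < s) (p : ℝ) (x : E3) :
    g s a x ^ p = s ^ (2 * p) * W s a (3 * p / 2) x := by
  have hW := W_pos (a := a) hs (3/2) x
  unfold g
  rw [Real.mul_rpow (by positivity) hW.le]
  congr 1
  · rw [← Real.rpow_natCast, ← Real.rpow_mul hs.le]; push_cast; rfl
  · unfold W
    rw [← Real.rpow_mul (Dn_pos a hs x).le]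
    congr 1; ring

lemma lintegral_g_rpow (hs : 0 < s) {p : ℝ} (hp : 1 < p) :
    ∫⁻ x, ENNReal.ofReal (g s a x ^ p) = ENNReal.ofReal (s ^ (3 - p) * cI (3 * p / 2)) := by
  have h1 : Integrable (fun x => g s a x ^ p) volume := by
    have := (integrable_W (s := s) (a := a) hs (β := 3 * p / 2) (by linarith)).const_mul
      (s ^ (2 * p))
    refine this.congr (Eventually.of_forall fun x => ?_)
    simp only
    rw [g_rpow hs]
  rw [← ofReal_integral_eq_lintegral_ofReal h1
    (Eventually.of_forall fun x => Real.rpow_nonneg (g_pos hs x).le _)]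
  congr 1
  have h2 : ∫ x, g s a x ^ p = ∫ x, s ^ (2 * p) * W s a (3 * p / 2) x := by
    congr 1; funext x; exact g_rpow hs p x
  rw [h2, integral_const_mul, integral_W hs, ← mul_assoc]
  congr 1
  rw [← Real.rpow_add hs]
  congr 1; ring

/-! ### Continuity -/

lemma continuous_Dn : Continuous (Dn s a) := by unfold Dn; fun_prop

lemma continuous_W (hs : 0 < s) (β : ℝ) : Continuous (W s a β) := by
  unfold W
  exact continuous_Dn.rpow_const fun x => Or.inl (Dn_pos a hs x).ne'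

lemma continuous_coord (α : Fin 3) : Continuous (fun x : E3 => (x - a) α) := by
  fun_prop

lemma continuous_V (hs : 0 < s) (α : Fin 3) : Continuous (V s a α) := by
  have := continuous_W (a := a) hs (3/2)
  have := continuous_coord (a := a) α
  unfold V; fun_prop

lemma continuous_dV (hs : 0 < s) (i α : Fin 3) : Continuous (dV s a i α) := by
  have := continuous_W (a := a) hs (3/2)
  have := continuous_W (a := a) hs (5/2)
  have := continuous_coord (a := a) α
  have := continuous_coord (a := a) i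
  unfold dV; fun_prop

lemma continuous_ddV (hs : 0 < s) (i α : Fin 3) : Continuous (ddV s a i α) := by
  have := continuous_W (a := a) hs (7/2)
  have := continuous_W (a := a) hs (5/2)
  have := continuous_coord (a := a) α
  have := continuous_coord (a := a) i
  unfold ddV; fun_prop

lemma continuous_lapV (hs : 0 < s) (α : Fin 3) : Continuous (lapV s a α) := by
  have := continuous_W (a := a) hs (7/2)
  have := continuous_coord (a := a) α
  unfold lapV; fun_prop

lemma continuous_g (hs : 0 < s) : Continuous (g s a) := by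
  have := continuous_W (a := a) hs (3/2)
  unfold g; fun_prop

/-! ### Integration by parts -/

lemma parts {f f' φ : E3 → ℝ} {i : Fin 3} (hf : Continuous f) (hf' : Continuous f')
    (hd : ∀ x, HasLineDerivAt ℝ f (f' x) x (ev i)) (hφ : ContDiff ℝ (⊤ : ℕ∞) φ)
    (hc : HasCompactSupport φ) :
    ∫ x, f x * fderiv ℝ φ x (ev i) = -∫ x, f' x * φ x := by
  have hdφ : Continuous (fun x => fderiv ℝ φ x (ev i)) :=
    (hφ.continuous_fderiv (by norm_num)).clm_apply continuous_const
  have hcd : HasCompactSupport (fun x => fderiv ℝ φ x (ev i)) :=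
    (hc.fderiv (𝕜 := ℝ)).comp_left (g := fun L : E3 →L[ℝ] ℝ => L (ev i)) (by simp)
  have h1 : Integrable (fun x => f' x * φ x) volume :=
    (hf'.mul hφ.continuous).integrable_of_hasCompactSupport hc.mul_left
  have h2 : Integrable (fun x => f x * fderiv ℝ φ x (ev i)) volume :=
    (hf.mul hdφ).integrable_of_hasCompactSupport hcd.mul_left
  have h3 : Integrable (fun x => f x * φ x) volume :=
    (hf.mul hφ.continuous).integrable_of_hasCompactSupport hc.mul_left
  exact integral_bilinear_hasLineDerivAt_right_eq_neg_left_of_integrable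
    (B := ContinuousLinearMap.mul ℝ ℝ) h1 h2 h3 (fun x _ => hd x)
    (fun x _ => ((hφ.differentiable (by norm_num) x).hasFDerivAt).hasLineDerivAt (ev i))

end Pool.Agent.X103.Bubble
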