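import Pool.Agent.X103.Bubble

/-!
# Superposition of bubbles accumulating at the origin (helper103)
-/

set_option autoImplicit false

open MeasureTheory Set Filter Topology
open scoped ENNReal

namespace Pool.Agent.X103.Bubble

/-- Distances of the centers from the origin. -/
noncomputable def al (j : ℕ) : ℝ := (1 / 2) ^ (j + 1)

lemma al_pos (j : ℕ) : 0 < al j := by unfold al; positivity
lemma al_le (j : ℕ) : al j ≤ 1 / 2 := by
  unfold al
  rw [pow_succ]
  have : (1 / 2 : ℝ) ^ j ≤ 1 := pow_le_one₀ (by norm_num) (by norm_num)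
  linarith

lemma al_lt {i j : ℕ} (h : i < j) : al j ≤ al i / 2 := by
  unfold al
  have : (1 / 2 : ℝ) ^ (j + 1) ≤ (1 / 2) ^ (i + 1 + 1) :=
    pow_le_pow_of_le_one (by norm_num) (by norm_num) (by omega)
  rw [pow_succ _ (i + 1)] at this
  linarith

lemma hasSum_al : HasSum al 1 := by
  have h := hasSum_geometric_two.mul_left (1/2 : ℝ)
  have e : (fun n : ℕ => (1/2 : ℝ) * (1/2) ^ n) = al := by
    funext n; unfold al; rw [pow_succ]; ring
  rw [e] at h
  norm_num at h
  exact h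

/-- Centers. -/
noncomputable def cen (j : ℕ) : E3 := al j • ev 0

/-- Scales. -/
noncomputable def sc (j : ℕ) : ℝ := al j ^ 2 / 64

lemma sc_pos (j : ℕ) : 0 < sc j := by have := al_pos j; unfold sc; positivity

lemma sc_le (j : ℕ) : sc j ≤ al j / 64 := by
  have h1 := al_pos j; have h2 := al_le j
  unfold sc; nlinarith

lemma sc_le_one (j : ℕ) : sc j ≤ 1 := by
  have h1 := sc_le j; have h2 := al_le j; linarith

lemma norm_ev : ‖ev 0‖ = 1 := by simp [ev]

lemma norm_cen (j : ℕ) : ‖cen j‖ = al j := by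
  rw [cen, norm_smul, norm_ev, Real.norm_of_nonneg (al_pos j).le, mul_one]

lemma norm_cen_sub (i j : ℕ) : ‖cen i - cen j‖ = |al i - al j| := by
  rw [cen, cen, ← sub_smul, norm_smul, norm_ev, mul_one, Real.norm_eq_abs]

/-- At most one center is close. -/
lemma far_aux {x : E3} {i j : ℕ} (hij : i < j) (hi : ‖x - cen i‖ < al i / 4) :
    al j / 4 ≤ ‖x - cen j‖ := by
  by_contra hj
  push Not at hj
  have h1 := norm_cen_sub i j
  have h2 := al_lt hij
  have h3 := al_pos i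
  have h4 := al_pos j
  have h5 : ‖cen i - cen j‖ ≤ ‖x - cen i‖ + ‖x - cen j‖ := by
    have : cen i - cen j = (x - cen j) - (x - cen i) := by abel
    rw [this]
    exact (norm_sub_le _ _).trans (by linarith)
  rw [h1, abs_of_nonneg (by linarith)] at h5
  linarith

lemma far {x : E3} {i j : ℕ} (hij : i ≠ j) (hi : ‖x - cen i‖ < al i / 4) :
    al j / 4 ≤ ‖x - cen j‖ := by
  rcases lt_or_gt_of_ne hij with h | h
  · exact far_aux h hi
  · by_contra hj
    push Not at hj
    have := far_aux h hj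
    linarith

lemma exists_index (x : E3) : ∃ j0 : ℕ, ∀ i, i ≠ j0 → al i / 4 ≤ ‖x - cen i‖ := by
  by_cases h : ∃ j, ‖x - cen j‖ < al j / 4
  · obtain ⟨j, hj⟩ := h
    exact ⟨j, fun i hi => far (Ne.symm hi) hj⟩
  · push Not at h
    exact ⟨0, fun i _ => h i⟩

/-- Bubble number `j`. -/
noncomputable def Vj (j : ℕ) (α : Fin 3) : E3 → ℝ := V (sc j) (cen j) α
noncomputable def dVj (j : ℕ) (i α : Fin 3) : E3 → ℝ := dV (sc j) (cen j) i α
noncomputable def lapj (j : ℕ) (α : Fin 3) : E3 → ℝ := lapV (sc j) (cen j) α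
noncomputable def gj (j : ℕ) : E3 → ℝ := g (sc j) (cen j)

lemma gj_pos (j : ℕ) (x : E3) : 0 < gj j x := g_pos (sc_pos j) x

/-- `g ≤ s² d^{-3}` if `|x - a| ≥ d`. -/
lemma g_le_of_far {s : ℝ} {a x : E3} (hs : 0 < s) {d : ℝ} (hd : 0 < d) (h : d ≤ ‖x - a‖) :
    g s a x ≤ s ^ 2 / d ^ 3 := by
  unfold g W
  have h1 : d ^ 2 ≤ Dn s a x := by
    have h1 := norm_sq_le_Dn (s := s) (a := a) x
    have h2 := pow_le_pow_left₀ hd.le h 2
    linarith
  have h2 : Dn s a x ^ (-(3/2) : ℝ) ≤ (d ^ 2) ^ (-(3/2) : ℝ) :=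
    Real.rpow_le_rpow_of_nonpos (by positivity) h1 (by norm_num)
  have h3 : (d ^ 2) ^ (-(3/2) : ℝ) = (d ^ 3)⁻¹ := by
    rw [← Real.rpow_natCast, ← Real.rpow_mul hd.le, ← Real.rpow_natCast, ← Real.rpow_neg hd.le]
    norm_num
  rw [h3] at h2
  rw [div_eq_mul_inv]
  exact mul_le_mul_of_nonneg_left h2 (by positivity)

lemma g_le_inv {s : ℝ} {a x : E3} (hs : 0 < s) : g s a x ≤ s⁻¹ := by
  unfold g W
  have h1 : s ^ 2 ≤ Dn s a x := by unfold Dn; nlinarith [sq_nonneg ‖x - a‖]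
  have h2 : Dn s a x ^ (-(3/2) : ℝ) ≤ (s ^ 2) ^ (-(3/2) : ℝ) :=
    Real.rpow_le_rpow_of_nonpos (by positivity) h1 (by norm_num)
  have h3 : (s ^ 2) ^ (-(3/2) : ℝ) = (s ^ 3)⁻¹ := by
    rw [← Real.rpow_natCast, ← Real.rpow_mul hs.le, ← Real.rpow_natCast, ← Real.rpow_neg hs.le]
    norm_num
  rw [h3] at h2
  calc s ^ 2 * Dn s a x ^ (-(3/2) : ℝ) ≤ s ^ 2 * (s ^ 3)⁻¹ :=
        mul_le_mul_of_nonneg_left h2 (by positivity)
    _ = s⁻¹ := by field_simp

lemma gj_far {x : E3} {j : ℕ} (h : al j / 4 ≤ ‖x - cen j‖) : gj j x ≤ al j / 64 := by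
  have ha := al_pos j
  have h1 := g_le_of_far (sc_pos j) (by positivity : 0 < al j / 4) h
  refine h1.trans (le_of_eq ?_)
  unfold sc
  field_simp
  ring

lemma Vj_far {x : E3} {j : ℕ} (h : al j / 4 ≤ ‖x - cen j‖) (α : Fin 3) :
    |Vj j α x| ≤ al j / 256 := by
  have ha := al_pos j
  have ha2 := al_le j
  refine (V_le (sc_pos j) x α).trans ?_
  rw [W_one]
  have h1 : (al j / 4) ^ 2 ≤ Dn (sc j) (cen j) x := by
    have h1 := norm_sq_le_Dn (s := sc j) (a := cen j) x
    have h2 := pow_le_pow_left₀ (by positivity) h 2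
    linarith
  have h2 : (Dn (sc j) (cen j) x)⁻¹ ≤ ((al j / 4) ^ 2)⁻¹ := inv_anti₀ (by positivity) h1
  calc sc j ^ 2 * (Dn (sc j) (cen j) x)⁻¹ ≤ sc j ^ 2 * ((al j / 4) ^ 2)⁻¹ :=
        mul_le_mul_of_nonneg_left h2 (by positivity)
    _ = al j ^ 2 / 256 := by unfold sc; field_simp; norm_num
    _ ≤ al j / 256 := by
        have : al j ^ 2 ≤ al j := by nlinarith
        linarith

lemma summable_al : Summable al := hasSum_al.summable

/-- Comparison: summability of a family bounded by a multiple of `al` off one index. -/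
lemma summable_off {f : ℕ → ℝ} {j0 : ℕ} {K : ℝ} (h : ∀ i, i ≠ j0 → |f i| ≤ K * al i) :
    Summable f := by
  refine Summable.of_norm_bounded_eventually (summable_al.mul_left K) ?_
  have : ∀ᶠ i in cofinite, i ≠ j0 := by
    rw [eventually_cofinite]
    simp
  filter_upwards [this] with i hi
  exact h i hi

/-- ... and the tail is at most `K`. -/
lemma tsum_off {f : ℕ → ℝ} {j0 : ℕ} {K : ℝ} (hK : 0 ≤ K) (h : ∀ i, i ≠ j0 → |f i| ≤ K * al i) :
    |∑' i, f i - f j0| ≤ K := by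
  have hs := summable_off h
  rw [hs.tsum_eq_add_tsum_ite j0, add_sub_cancel_left, ← Real.norm_eq_abs]
  have h1 : HasSum (fun i => K * al i) K := by
    have := hasSum_al.mul_left K
    simpa using this
  refine tsum_of_norm_bounded h1 fun i => ?_
  by_cases hi : i = j0
  · rw [if_pos hi, norm_zero]
    exact mul_nonneg hK (al_pos i).le
  · rw [if_neg hi, Real.norm_eq_abs]
    exact h i hi

lemma Vj_off {x : E3} {j0 : ℕ} (h : ∀ i, i ≠ j0 → al i / 4 ≤ ‖x - cen i‖) (α : Fin 3) :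
    ∀ i, i ≠ j0 → |Vj i α x| ≤ (1 / 256) * al i := fun i hi => by
  have := Vj_far (h i hi) α; linarith

lemma dVj_off {x : E3} {j0 : ℕ} (h : ∀ i, i ≠ j0 → al i / 4 ≤ ‖x - cen i‖) (k α : Fin 3) :
    ∀ i, i ≠ j0 → |dVj i k α x| ≤ (1 / 16) * al i := fun i hi => by
  have h1 := gj_far (h i hi)
  have h2 := dV_le (a := cen i) (sc_pos i) x k α
  unfold dVj
  unfold gj at h1
  linarith

lemma lapj_off {x : E3} {j0 : ℕ} (h : ∀ i, i ≠ j0 → al i / 4 ≤ ‖x - cen i‖) (α : Fin 3) :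
    ∀ i, i ≠ j0 → |lapj i α x| ≤ (1 / 4) * al i := fun i hi => by
  have h1 := gj_far (h i hi)
  have h2 := lapV_le (a := cen i) (sc_pos i) x α
  have h3 := gj_pos i x
  have h4 := al_le i
  have h5 := al_pos i
  unfold lapj
  unfold gj at h1 h3
  nlinarith

/-- The solution (first three components). -/
noncomputable def U (α : Fin 3) (x : E3) : ℝ := ∑' j, Vj j α x
noncomputable def DU (i α : Fin 3) (x : E3) : ℝ := ∑' j, dVj j i α x
noncomputable def LU (α : Fin 3) (x : E3) : ℝ := ∑' j, lapj j α x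

lemma U_bound (x : E3) (α : Fin 3) : |U α x| ≤ 2 := by
  obtain ⟨j0, h0⟩ := exists_index x
  have h1 := tsum_off (by norm_num) (Vj_off h0 α)
  have h2 : |Vj j0 α x| ≤ 1 := V_le_one (sc_pos j0) x α
  have h3 : |U α x| ≤ |U α x - Vj j0 α x| + |Vj j0 α x| := by
    have := abs_add_le (U α x - Vj j0 α x) (Vj j0 α x)
    rwa [sub_add_cancel] at this
  unfold U at *
  linarith

/-- Key pointwise bounds. -/
lemma key (x : E3) : ∃ j0 : ℕ, (∀ i α, |DU i α x| ≤ 4 * gj j0 x + 1 / 16) ∧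
    (∀ α, |LU α x| ≤ 15 * (gj j0 x ^ 2 + 1 / 2)) ∧
    gj j0 x ^ 2 - 1 / 2 ≤ ∑ i, ∑ α, DU i α x ^ 2 := by
  obtain ⟨j0, h0⟩ := exists_index x
  refine ⟨j0, fun i α => ?_, fun α => ?_, ?_⟩
  · have h1 := tsum_off (by norm_num) (dVj_off h0 i α)
    have h2 : |dVj j0 i α x| ≤ 4 * gj j0 x := dV_le (sc_pos j0) x i α
    have h3 : |DU i α x| ≤ |DU i α x - dVj j0 i α x| + |dVj j0 i α x| := by
      have := abs_add_le (DU i α x - dVj j0 i α x) (dVj j0 i α x)
      rwa [sub_add_cancel] at this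
    unfold DU at *
    linarith
  · have h1 := tsum_off (by norm_num) (lapj_off h0 α)
    have h2 : |lapj j0 α x| ≤ 15 * gj j0 x ^ 2 := lapV_le (sc_pos j0) x α
    have h3 : |LU α x| ≤ |LU α x - lapj j0 α x| + |lapj j0 α x| := by
      have := abs_add_le (LU α x - lapj j0 α x) (lapj j0 α x)
      rwa [sub_add_cancel] at this
    unfold LU at *
    linarith
  · have h1 : ∀ i α, dVj j0 i α x ^ 2 / 2 - 1 / 256 ≤ DU i α x ^ 2 := by
      intro i α
      have h1 := tsum_off (by norm_num) (dVj_off h0 i α)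
      have h2 : (DU i α x - dVj j0 i α x) ^ 2 ≤ (1/16) ^ 2 := by
        rw [← sq_abs]
        exact pow_le_pow_left₀ (abs_nonneg _) h1 2
      nlinarith [sq_nonneg (2 * DU i α x - dVj j0 i α x)]
    have h2 : ∑ i, ∑ α, (dVj j0 i α x ^ 2 / 2 - 1 / 256) ≤ ∑ i, ∑ α, DU i α x ^ 2 :=
      Finset.sum_le_sum fun i _ => Finset.sum_le_sum fun α _ => h1 i α
    have h3 : 2 * gj j0 x ^ 2 ≤ ∑ i, ∑ α, dVj j0 i α x ^ 2 := grad_lower (sc_pos j0) x
    have h4 : ∑ i : Fin 3, ∑ α : Fin 3, (dVj j0 i α x ^ 2 / 2 - 1 / 256) =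
        (∑ i, ∑ α, dVj j0 i α x ^ 2) / 2 - 9 / 256 := by
      simp only [Fin.sum_univ_three]; ring
    rw [h4] at h2
    linarith

/-- Bound away from the origin. -/
lemma gj_bound {c : ℝ} (hc : 0 < c) {x : E3} (hx : c ≤ ‖x‖) (j : ℕ) :
    gj j x ≤ 256 / c ^ 2 + 8 / c ^ 3 := by
  have ha := al_pos j
  by_cases h : c / 2 ≤ al j
  · have h1 : gj j x ≤ (sc j)⁻¹ := g_le_inv (sc_pos j)
    have h2 : c ^ 2 / 256 ≤ sc j := by unfold sc; nlinarith
    have h3 : (sc j)⁻¹ ≤ (c ^ 2 / 256)⁻¹ := inv_anti₀ (by positivity) h2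
    rw [inv_div] at h3
    have : 0 < 8 / c ^ 3 := by positivity
    linarith
  · push Not at h
    have h1 : c / 2 ≤ ‖x - cen j‖ := by
      have := norm_sub_norm_le x (cen j)
      rw [norm_cen] at this
      linarith
    have h2 := g_le_of_far (sc_pos j) (by positivity : 0 < c / 2) h1
    have h3 : sc j ^ 2 ≤ 1 := pow_le_one₀ (sc_pos j).le (sc_le_one j)
    have h4 : sc j ^ 2 / (c / 2) ^ 3 ≤ 1 / (c / 2) ^ 3 := by gcongr
    have h5 : 1 / (c / 2) ^ 3 = 8 / c ^ 3 := by field_simp; norm_num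
    have : 0 < 256 / c ^ 2 := by positivity
    unfold gj
    linarith

/-! ### Measurability -/

lemma measurable_U (α : Fin 3) : Measurable (U α) :=
  Measurable.tsum fun j => (continuous_V (sc_pos j) α).measurable
lemma measurable_DU (i α : Fin 3) : Measurable (DU i α) :=
  Measurable.tsum fun j => (continuous_dV (sc_pos j) i α).measurable
lemma measurable_LU (α : Fin 3) : Measurable (LU α) :=
  Measurable.tsum fun j => (continuous_lapV (sc_pos j) α).measurable

/-! ### Termwise integration -/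

lemma Dn_le {j : ℕ} {x : E3} (hx : x ∈ Metric.ball (0 : E3) 1) : Dn (sc j) (cen j) x ≤ 5 := by
  have h1 := sc_le_one j
  have h2 := sc_pos j
  have h3 : ‖x - cen j‖ ≤ 3 / 2 := by
    have h4 := norm_sub_le x (cen j)
    rw [norm_cen] at h4
    have h5 := al_le j
    have h6 : ‖x‖ < 1 := by simpa using hx
    linarith
  unfold Dn
  nlinarith [norm_nonneg (x - cen j)]

/-- Summation of integrals: if `|F j| ≤ K h_j` on the unit ball and `ψ` is bounded and supported
there, then one may integrate `∑ F j ψ` termwise. -/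
lemma hasSum_int {F : ℕ → E3 → ℝ} {ψ : E3 → ℝ} {K M : ℝ} (hK : 0 ≤ K) (hM : 0 ≤ M)
    (hF : ∀ j, Continuous (F j)) (hψ : Continuous ψ)
    (hFb : ∀ j, ∀ x ∈ Metric.ball (0 : E3) 1, |F j x| ≤ K * h (sc j) (cen j) x)
    (hψb : ∀ x, |ψ x| ≤ M) (hψ0 : ∀ x, x ∉ Metric.ball (0 : E3) 1 → ψ x = 0) :
    HasSum (fun j => ∫ x, F j x * ψ x) (∫ x, (∑' j, F j x) * ψ x) := by
  have hb : ∀ j x, ‖F j x * ψ x‖ ≤ K * M * h (sc j) (cen j) x := by
    intro j x
    have h1 := h_pos (a := cen j) (sc_pos j) x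
    by_cases hx : x ∈ Metric.ball (0 : E3) 1
    · rw [norm_mul, Real.norm_eq_abs, Real.norm_eq_abs]
      calc |F j x| * |ψ x| ≤ (K * h (sc j) (cen j) x) * M :=
            mul_le_mul (hFb j x hx) (hψb x) (abs_nonneg _) (by positivity)
        _ = _ := by ring
    · rw [hψ0 x hx]; simp; positivity
  have hint : ∀ j, Integrable (fun x => F j x * ψ x) volume := fun j =>
    ((integrable_h (a := cen j) (sc_pos j)).const_mul (K * M)).mono'
      ((hF j).mul hψ).aestronglyMeasurable (Eventually.of_forall (hb j))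
  have hsum : Summable fun j => ∫ x, ‖F j x * ψ x‖ := by
    refine Summable.of_nonneg_of_le (fun j => integral_nonneg fun x => norm_nonneg _)
      (fun j => ?_) ((summable_al.mul_left (K * M * cI 2)))
    calc ∫ x, ‖F j x * ψ x‖ ≤ ∫ x, K * M * h (sc j) (cen j) x :=
          integral_mono (hint j).norm ((integrable_h (sc_pos j)).const_mul _) (hb j)
      _ = K * M * (sc j * cI 2) := by rw [integral_const_mul, integral_h (sc_pos j)]
      _ ≤ K * M * cI 2 * al j := by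
          have h1 := sc_le j
          have h2 := al_pos j
          have h3 : sc j ≤ al j := by linarith
          have h4 : 0 ≤ K * M * cI 2 := mul_nonneg (mul_nonneg hK hM) (cI_nonneg 2)
          nlinarith [mul_le_mul_of_nonneg_left h3 h4]
  have h := hasSum_integral_of_summable_integral_norm hint hsum
  have e : ∀ x, ∑' j, F j x * ψ x = (∑' j, F j x) * ψ x := fun x => tsum_mul_right
  simpa only [e] using h

end Pool.Agent.X103.Bubble
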