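import Pool.Agent.X103.Berg

/-!
# A sparse atomic measure on the unit circle (helper103)
-/

set_option autoImplicit false

open MeasureTheory Filter Topology Set Polynomial ComplexConjugate
open scoped ENNReal

namespace Pool.Agent.X103.CircMeas

open Pool.Agent.X103.Berg

/-- The `2^i`-th roots of unity. -/
noncomputable def rts (i : ℕ) : Finset ℂ := nthRootsFinset (2 ^ i) (1 : ℂ)

lemma mem_rts {i : ℕ} {z : ℂ} : z ∈ rts i ↔ z ^ 2 ^ i = 1 := by
  rw [rts, mem_nthRootsFinset (by positivity)]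

lemma card_rts (i : ℕ) : (rts i).card = 2 ^ i :=
  (Complex.isPrimitiveRoot_exp (2 ^ i) (by positivity)).card_nthRootsFinset

lemma norm_rts {i : ℕ} {z : ℂ} (hz : z ∈ rts i) : ‖z‖ = 1 :=
  Complex.norm_eq_one_of_pow_eq_one (mem_rts.1 hz) (by positivity)

lemma rts_mono {i j : ℕ} (hij : i ≤ j) {z : ℂ} (hz : z ∈ rts i) : z ∈ rts j := by
  rw [mem_rts] at hz ⊢
  obtain ⟨d, rfl⟩ := Nat.exists_eq_add_of_le hij
  rw [pow_add, pow_mul, hz, one_pow]

/-- The weights. -/
noncomputable def cw (i : ℕ) : ℝ := (1 / 2) ^ (i + 1) * Real.exp (-4 * 2 ^ (i - 1)) / 2 ^ i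

lemma cw_pos (i : ℕ) : 0 < cw i := by unfold cw; positivity

/-- The `i`-th layer. -/
noncomputable def att (i : ℕ) : Measure ℂ :=
  ENNReal.ofReal (cw i) • ∑ ζ ∈ rts i, Measure.dirac ζ

lemma att_univ (i : ℕ) :
    att i univ = ENNReal.ofReal ((1 / 2) ^ (i + 1) * Real.exp (-4 * 2 ^ (i - 1))) := by
  rw [att, Measure.smul_apply, Measure.finsetSum_apply]
  simp only [measure_univ, Finset.sum_const, card_rts, smul_eq_mul, nsmul_eq_mul, mul_one]
  have : ((2 ^ i : ℕ) : ℝ≥0∞) = ENNReal.ofReal (2 ^ i) := by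
    rw [ENNReal.ofReal_pow (by norm_num)]; simp
  rw [this, ← ENNReal.ofReal_mul (cw_pos i).le, cw]
  congr 1
  field_simp

lemma att_compl {i j : ℕ} (hij : i ≤ j) : att i ((rts j : Set ℂ)ᶜ) = 0 := by
  rw [att, Measure.smul_apply, Measure.finsetSum_apply]
  have : ∑ ζ ∈ rts i, Measure.dirac ζ ((rts j : Set ℂ)ᶜ) = 0 := by
    refine Finset.sum_eq_zero fun ζ hζ => ?_
    rw [Measure.dirac_apply' _ (Finset.measurableSet _).compl, indicator_of_notMem]
    simpa using rts_mono hij hζ
  rw [this, smul_zero]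

lemma att_rot {i j : ℕ} (hij : j ≤ i) {ω : ℂ} (hω : ω ^ 2 ^ j = 1) :
    (att i).map (fun z => ω * z) = att i := by
  have hω' : ω ∈ rts i := rts_mono hij (mem_rts.2 hω)
  have hω0 : ω ≠ 0 := by
    intro h
    have := norm_rts hω'
    rw [h] at this
    simp at this
  have hm : Measurable (fun z : ℂ => ω * z) := by fun_prop
  rw [att, Measure.map_smul]
  congr 1
  rw [← Measure.mapₗ_apply_of_measurable hm, map_sum]
  simp only [Measure.mapₗ_apply_of_measurable hm, Measure.map_dirac' hm]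
  refine Finset.sum_bij (fun ζ _ => ω * ζ) ?_ ?_ ?_ ?_
  · intro ζ hζ
    rw [mem_rts] at hζ hω' ⊢
    rw [mul_pow, hζ, hω', one_mul]
  · intro a _ b _ h
    exact mul_left_cancel₀ hω0 h
  · intro b hb
    refine ⟨ω⁻¹ * b, ?_, ?_⟩
    · rw [mem_rts] at hb hω' ⊢
      rw [mul_pow, inv_pow, hb, hω', inv_one, one_mul]
    · rw [mul_inv_cancel_left₀ hω0]
  · intro a _; rfl

/-- The tail measures. -/
noncomputable def tail (J : ℕ) : Measure ℂ := Measure.sum fun i => att (i + J)

/-- The head measures. -/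
noncomputable def head (J : ℕ) : Measure ℂ := ∑ i ∈ Finset.range J, att i

lemma split (J : ℕ) : tail 0 = head J + tail J := by
  ext s hs
  rw [tail, tail, head, Measure.add_apply, Measure.sum_apply _ hs, Measure.sum_apply _ hs,
    Measure.finsetSum_apply]
  simp only [add_zero]
  exact (ENNReal.summable.sum_add_tsum_nat_add' (k := J)).symm

lemma head_compl (J : ℕ) : head (J + 1) ((rts J : Set ℂ)ᶜ) = 0 := by
  rw [head, Measure.finsetSum_apply]
  exact Finset.sum_eq_zero fun i hi => att_compl (by have := Finset.mem_range.1 hi; omega)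

lemma tail_rot (J : ℕ) {ω : ℂ} (hω : ω ^ 2 ^ J = 1) : (tail J).map (fun z => ω * z) = tail J := by
  have hm : Measurable (fun z : ℂ => ω * z) := by fun_prop
  rw [tail, Measure.map_sum hm.aemeasurable]
  congr 1
  funext i
  exact att_rot (by omega) hω

lemma tail_univ (J : ℕ) : tail (J + 1) univ ≤ ENNReal.ofReal (Real.exp (-4 * 2 ^ J)) := by
  rw [tail, Measure.sum_apply _ MeasurableSet.univ]
  simp only [att_univ]
  have hg : ∀ i : ℕ, ENNReal.ofReal ((1 / 2) ^ (i + (J + 1) + 1)
      * Real.exp (-4 * 2 ^ (i + (J + 1) - 1)))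
      ≤ ENNReal.ofReal (Real.exp (-4 * 2 ^ J)) * (ENNReal.ofReal ((1 / 2) ^ (i + 1))) := by
    intro i
    rw [← ENNReal.ofReal_mul (Real.exp_pos _).le]
    refine ENNReal.ofReal_le_ofReal ?_
    rw [mul_comm]
    refine mul_le_mul ?_ ?_ (by positivity) (Real.exp_pos _).le
    · refine Real.exp_le_exp.2 ?_
      have : (2 : ℝ) ^ J ≤ 2 ^ (i + (J + 1) - 1) := pow_le_pow_right₀ (by norm_num) (by omega)
      linarith
    · exact pow_le_pow_of_le_one (by norm_num) (by norm_num) (by omega)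
  refine (ENNReal.tsum_le_tsum hg).trans ?_
  rw [ENNReal.tsum_mul_left]
  have h2 : ∑' i : ℕ, ENNReal.ofReal ((1 / 2) ^ (i + 1)) = 1 := by
    have hs : Summable (fun i : ℕ => ((1 / 2 : ℝ)) ^ (i + 1)) :=
      (summable_geometric_two).comp_injective (add_left_injective 1)
    rw [← ENNReal.ofReal_tsum_of_nonneg (fun i => by positivity) hs]
    have : ∑' i : ℕ, ((1 / 2 : ℝ)) ^ (i + 1) = 1 := by
      have h3 : ∀ i : ℕ, ((1 / 2 : ℝ)) ^ (i + 1) = (1 / 2) * (1 / 2) ^ i := fun i => by
        rw [pow_succ]; ring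
      simp_rw [h3]
      rw [tsum_mul_left, tsum_geometric_two]; norm_num
    rw [this, ENNReal.ofReal_one]
  rw [h2, mul_one]

lemma tail_fin (J : ℕ) : IsFiniteMeasure (tail J) := by
  constructor
  have h0 : tail J univ ≤ tail 0 univ := by
    rw [split J, Measure.add_apply]
    exact le_add_self
  refine h0.trans_lt ?_
  rw [split 1, Measure.add_apply]
  refine ENNReal.add_lt_top.2 ⟨?_, (tail_univ 0).trans_lt ENNReal.ofReal_lt_top⟩
  rw [head, Measure.finsetSum_apply]
  refine ENNReal.sum_lt_top.2 fun i _ => ?_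
  rw [att_univ]
  exact ENNReal.ofReal_lt_top

lemma tail_nice (J : ℕ) : Nice (tail J) := by
  have hfin := tail_fin J
  have hsupp : ∀ᵐ z ∂(tail J), ‖z‖ = 1 := by
    rw [tail, Measure.ae_sum_iff]
    intro i
    rw [ae_iff]
    refine measure_mono_null (fun z hz => ?_) (att_compl (le_refl (i + J)))
    intro hzR
    exact hz (norm_rts hzR)
  refine ⟨hfin, hsupp, fun p hp => ?_⟩
  have hint : Integrable (fun z => ‖p.eval z‖ ^ 2) (tail J) := by
    have hc : Continuous (fun z : ℂ => ‖p.eval z‖ ^ 2) := by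
      have := p.continuous
      fun_prop
    obtain ⟨C, hC⟩ := (isCompact_sphere (0 : ℂ) 1).exists_bound_of_continuousOn hc.continuousOn
    refine Integrable.of_bound hc.aestronglyMeasurable C ?_
    filter_upwards [hsupp] with z hz
    exact hC z (by simpa using hz)
  refine (integral_pos_iff_support_of_nonneg (fun z => by positivity) hint).2 ?_
  -- a root of unity which is not a zero of `p`
  obtain ⟨i, hi⟩ : ∃ i, p.natDegree < 2 ^ (i + J) :=
    ⟨p.natDegree, (Nat.lt_two_pow_self).trans_le (Nat.pow_le_pow_right (by norm_num) (by omega))⟩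
  obtain ⟨ζ, hζ, hpz⟩ : ∃ ζ ∈ rts (i + J), p.eval ζ ≠ 0 := by
    by_contra hcon
    push Not at hcon
    exact hp (eq_zero_of_natDegree_lt_card_of_eval_eq_zero' p (rts (i + J)) hcon
      (by rw [card_rts]; exact hi))
  have h1 : 0 < att (i + J) {ζ} := by
    rw [att, Measure.smul_apply, Measure.finsetSum_apply]
    refine ENNReal.mul_pos (by simpa using cw_pos _) ?_
    refine (lt_of_lt_of_le one_pos ?_).ne'
    refine le_trans (le_of_eq ?_) (Finset.single_le_sum (f := fun x => Measure.dirac x ({ζ} : Set ℂ))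
      (fun _ _ => zero_le) hζ)
    simp
  refine lt_of_lt_of_le h1 ?_
  refine (Measure.le_sum (fun i => att (i + J)) i {ζ}).trans (measure_mono ?_)
  rintro _ rfl
  simp only [Function.mem_support]
  have := norm_pos_iff.2 hpz
  positivity

/-- Moments of the Bergman measures are bounded uniformly in `k`. -/
lemma moment_bound {J m : ℕ} (hm0 : 0 < m) (hm : m < 2 ^ (J + 1)) {k : ℕ}
    {e : Fin (k + 1) → ℂ[X]} (he : IsONB (tail 0) k e) :
    ‖∫ z, z ^ m * (bk e z : ℂ) ∂(tail 0)‖ ≤ 2 * 2 ^ J := by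
  have hprim := Complex.isPrimitiveRoot_exp (2 ^ (J + 1)) (by positivity)
  have hω := hprim.pow_eq_one
  have key := trace_bound (tail_nice 0) (tail_nice (J + 1)) (split (J + 1)) (R := rts J)
    (head_compl J) (norm_rts (mem_rts.2 hω)) (tail_rot (J + 1) hω)
    (hprim.pow_ne_one_of_pos_of_lt hm0.ne' hm) he
  rw [card_rts] at key
  push_cast at key
  exact key

/-- The Bergman function at the origin is huge along `k = 2^J`. -/
lemma bk_big (J : ℕ) {e : Fin (2 ^ J + 1) → ℂ[X]} (he : IsONB (tail 0) (2 ^ J) e) :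
    Real.exp (4 * 2 ^ J) / 4 ≤ bk e 0 := by
  set p : ℂ[X] := X ^ 2 ^ J - 1 with hp
  have hdeg : p.natDegree ≤ 2 ^ J := by
    have : p = X ^ 2 ^ J - C 1 := by rw [hp, C_1]
    rw [this, natDegree_X_pow_sub_C]
  have h1 := he.le (tail_nice 0) hdeg 0
  have h2 : ‖p.eval 0‖ ^ 2 = 1 := by simp [hp]
  rw [h2] at h1
  have hc : Continuous (fun z : ℂ => ‖p.eval z‖ ^ 2) := by
    have := p.continuous
    fun_prop
  have h3 : ∫ w, ‖p.eval w‖ ^ 2 ∂(tail 0) ≤ 4 * Real.exp (-4 * 2 ^ J) := by
    have hn := tail_nice (J + 1)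
    have hfin := hn.fin
    have hz : (fun w : ℂ => ‖p.eval w‖ ^ 2) =ᵐ[head (J + 1)] 0 := by
      rw [Filter.EventuallyEq, ae_iff]
      refine measure_mono_null (fun z hz => ?_) (head_compl J)
      intro hzR
      apply hz
      have := mem_rts.1 (Finset.mem_coe.1 hzR)
      simp [hp, this]
    have hi1 : Integrable (fun w : ℂ => ‖p.eval w‖ ^ 2) (head (J + 1)) :=
      (integrable_zero _ _ _).congr hz.symm
    rw [split (J + 1), integral_add_measure hi1 (hn.integrable hc), integral_congr_ae hz]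
    simp only [Pi.zero_apply, integral_zero, zero_add]
    have h4 : ∫ w, ‖p.eval w‖ ^ 2 ∂(tail (J + 1)) ≤ ∫ _w, (4 : ℝ) ∂(tail (J + 1)) := by
      refine integral_mono_ae (hn.integrable hc) (integrable_const _) ?_
      filter_upwards [hn.supp] with w hw
      have : ‖p.eval w‖ ≤ 2 := by
        rw [hp, eval_sub, eval_pow, eval_X, eval_one]
        refine (norm_sub_le _ _).trans ?_
        rw [norm_pow, hw, one_pow, norm_one]; norm_num
      nlinarith [norm_nonneg (p.eval w)]
    refine h4.trans ?_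
    rw [integral_const, smul_eq_mul, mul_comm]
    refine mul_le_mul_of_nonneg_left ?_ (by norm_num)
    rw [measureReal_def]
    refine (ENNReal.toReal_mono ENNReal.ofReal_ne_top (tail_univ J)).trans ?_
    rw [ENNReal.toReal_ofReal (Real.exp_pos _).le]
  have h5 : 0 ≤ bk e 0 := bk_nonneg e 0
  have h6 : 1 ≤ 4 * Real.exp (-4 * 2 ^ J) * bk e 0 :=
    h1.trans (mul_le_mul_of_nonneg_right h3 h5)
  have h7 : Real.exp (4 * 2 ^ J) * Real.exp (-4 * 2 ^ J) = 1 := by
    rw [← Real.exp_add]; simp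
  have h8 : 0 < Real.exp (4 * 2 ^ J) := Real.exp_pos _
  have h9 : Real.exp (4 * 2 ^ J) ≤ Real.exp (4 * 2 ^ J) * (4 * Real.exp (-4 * 2 ^ J) * bk e 0) :=
    le_mul_of_one_le_right h8.le h6
  have h10 : Real.exp (4 * 2 ^ J) * (4 * Real.exp (-4 * 2 ^ J) * bk e 0) = 4 * bk e 0 := by
    calc _ = (Real.exp (4 * 2 ^ J) * Real.exp (-4 * 2 ^ J)) * (4 * bk e 0) := by ring
      _ = _ := by rw [h7, one_mul]
  linarith

/-- Normalized arc length on the unit circle. -/
noncomputable def arc : Measure ℂ :=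
  ENNReal.ofReal (1 / (2 * Real.pi)) •
    (volume.restrict (Ioc 0 (2 * Real.pi))).map (fun θ : ℝ => Complex.exp (θ * Complex.I))

lemma int_arc {E : Type*} [NormedAddCommGroup E] [NormedSpace ℝ E] {f : ℂ → E}
    (hf : Continuous f) : ∫ z, f z ∂arc
      = (1 / (2 * Real.pi)) • ∫ θ in (0 : ℝ)..2 * Real.pi, f (Complex.exp (θ * Complex.I)) := by
  have hpi := Real.pi_pos
  have hm : Measurable (fun θ : ℝ => Complex.exp (θ * Complex.I)) := by fun_prop
  rw [arc, integral_smul_measure, integral_map hm.aemeasurable hf.aestronglyMeasurable,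
    intervalIntegral.integral_of_le (by positivity), ENNReal.toReal_ofReal (by positivity)]

lemma arc_prob : IsProbabilityMeasure arc := by
  constructor
  have hpi := Real.pi_pos
  have hm : Measurable (fun θ : ℝ => Complex.exp (θ * Complex.I)) := by fun_prop
  rw [arc, Measure.smul_apply, Measure.map_apply hm MeasurableSet.univ, preimage_univ,
    Measure.restrict_apply_univ, Real.volume_Ioc, smul_eq_mul, sub_zero,
    ← ENNReal.ofReal_mul (by positivity)]
  rw [one_div_mul_cancel (by positivity), ENNReal.ofReal_one]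

lemma arc_supp : ∀ᵐ z ∂arc, ‖z‖ = 1 := by
  have hm : Measurable (fun θ : ℝ => Complex.exp (θ * Complex.I)) := by fun_prop
  rw [arc]
  refine Measure.ae_smul_measure ?_ _
  rw [ae_map_iff hm.aemeasurable (measurableSet_eq_fun (by fun_prop) (by fun_prop))]
  exact Eventually.of_forall fun θ => Complex.norm_exp_ofReal_mul_I θ

/-- Moments of arc length. -/
lemma arc_moment {m : ℤ} (hm : m ≠ 0) :
    ∫ θ in (0 : ℝ)..2 * Real.pi, (Complex.exp (θ * Complex.I)) ^ m = 0 := by
  have hc : ((m : ℂ) * Complex.I) ≠ 0 := mul_ne_zero (by exact_mod_cast hm) Complex.I_ne_zero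
  have h1 : ∀ θ : ℝ, (Complex.exp (θ * Complex.I)) ^ m = Complex.exp (((m : ℂ) * Complex.I) * θ) := by
    intro θ
    rw [← Complex.exp_int_mul]; congr 1; ring
  simp_rw [h1]
  rw [integral_exp_mul_complex hc]
  have h2 : Complex.exp (((m : ℂ) * Complex.I) * ((2 * Real.pi : ℝ) : ℂ)) = 1 := by
    have := Complex.exp_int_mul_two_pi_mul_I m
    rw [← this]; congr 1; push_cast; ring
  rw [h2]
  simp

/-- Trigonometric approximation on the circle. -/
lemma trig_approx {f : ℂ → ℝ} (hf : Continuous f) {ε : ℝ} (hε : 0 < ε) :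
    ∃ a : ℤ →₀ ℂ, ∀ z : ℂ, ‖z‖ = 1 → ‖(f z : ℂ) - a.sum fun m c => c * z ^ m‖ < ε := by
  have : Fact ((0 : ℝ) < 2 * Real.pi) := ⟨by positivity⟩
  let g : C(AddCircle (2 * Real.pi), ℂ) :=
    ⟨fun x => (f (AddCircle.toCircle x : ℂ) : ℂ), by
      have h1 : Continuous (fun x : AddCircle (2 * Real.pi) => (AddCircle.toCircle x : ℂ)) :=
        continuous_subtype_val.comp AddCircle.continuous_toCircle
      exact Complex.continuous_ofReal.comp (hf.comp h1)⟩
  have hg : g ∈ (Submodule.span ℂ (range (@fourier (2 * Real.pi)))).topologicalClosure := by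
    rw [span_fourier_closure_eq_top]; trivial
  rw [← SetLike.mem_coe, Submodule.topologicalClosure_coe, Metric.mem_closure_iff] at hg
  obtain ⟨q, hq, hdist⟩ := hg ε hε
  obtain ⟨a, ha⟩ := (Finsupp.mem_span_range_iff_exists_finsupp).1 hq
  refine ⟨a, fun z hz => ?_⟩
  set x : AddCircle (2 * Real.pi) := ((Complex.arg z : ℝ) : AddCircle (2 * Real.pi)) with hx
  have hzx : (AddCircle.toCircle x : ℂ) = z := by
    rw [hx, AddCircle.toCircle_apply_mk]
    have h2 : 2 * Real.pi / (2 * Real.pi) * z.arg = z.arg := by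
      rw [div_self (by positivity), one_mul]
    rw [h2, Circle.coe_exp]
    have := Complex.norm_mul_exp_arg_mul_I z
    rwa [hz, Complex.ofReal_one, one_mul] at this
  have h3 : (f z : ℂ) = g x := by
    show (f z : ℂ) = (f (AddCircle.toCircle x : ℂ) : ℂ)
    rw [hzx]
  have h4 : (a.sum fun m c => c * z ^ m) = q x := by
    rw [← ha, Finsupp.sum, Finsupp.sum, ContinuousMap.coe_sum, Finset.sum_apply]
    refine Finset.sum_congr rfl fun m _ => ?_
    rw [ContinuousMap.coe_smul, Pi.smul_apply, smul_eq_mul, fourier_apply,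
      AddCircle.toCircle_zsmul]
    congr 1
    rw [← hzx]; push_cast; rfl
  rw [h3, h4, ← dist_eq_norm]
  exact (ContinuousMap.dist_apply_le_dist x).trans_lt hdist

/-- Weak convergence from convergence of the moments. -/
lemma weak_conv {ν : Measure ℂ} (h : Nice ν) {b : ℕ → ℂ → ℝ} (hb : ∀ k, Continuous (b k))
    (hb0 : ∀ k z, 0 ≤ b k z) (hb1 : ∀ k, ∫ z, b k z ∂ν = 1)
    (hm : ∀ m : ℕ, 0 < m → Tendsto (fun k => ∫ z, z ^ m * (b k z : ℂ) ∂ν) atTop (𝓝 0))
    {f : ℂ → ℝ} (hf : Continuous f) :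
    Tendsto (fun k => ∫ z, f z * b k z ∂ν) atTop (𝓝 (∫ z, f z ∂arc)) := by
  have harc := arc_prob
  have hpi := Real.pi_pos
  -- the moments for all integers
  have hmz : ∀ m : ℤ, Tendsto (fun k => ∫ z, z ^ m * (b k z : ℂ) ∂ν) atTop
      (𝓝 ((1 / (2 * Real.pi)) • ∫ θ in (0 : ℝ)..2 * Real.pi, (Complex.exp (θ * Complex.I)) ^ m)) := by
    intro m
    rcases lt_trichotomy m 0 with h0 | h0 | h0
    · rw [arc_moment h0.ne, smul_zero]
      obtain ⟨n, rfl⟩ : ∃ n : ℕ, m = -(n : ℤ) := ⟨m.natAbs, by omega⟩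
      have hn : 0 < n := by omega
      have h1 := ((Complex.continuous_conj.tendsto 0).comp (hm n hn))
      rw [map_zero] at h1
      refine h1.congr fun k => ?_
      simp only [Function.comp]
      rw [← integral_conj]
      refine integral_congr_ae ?_
      filter_upwards [h.supp] with z hz
      rw [map_mul, map_pow, Complex.conj_ofReal, zpow_neg, zpow_natCast, ← inv_pow]
      congr 2
      rw [Complex.inv_def, Complex.normSq_eq_norm_sq, hz]
      simp
    · subst h0
      have h1 : ∀ k, ∫ z, z ^ (0 : ℤ) * (b k z : ℂ) ∂ν = 1 := by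
        intro k
        simp only [zpow_zero, one_mul]
        rw [integral_complex_ofReal, hb1 k, Complex.ofReal_one]
      simp_rw [h1]
      have h2 : (1 / (2 * Real.pi)) • ∫ θ in (0 : ℝ)..2 * Real.pi,
          (Complex.exp (θ * Complex.I)) ^ (0 : ℤ) = (1 : ℂ) := by
        simp only [zpow_zero, intervalIntegral.integral_const, sub_zero]
        rw [smul_smul, one_div_mul_cancel (by positivity), one_smul]
      rw [h2]
      exact tendsto_const_nhds
    · rw [arc_moment h0.ne', smul_zero]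
      obtain ⟨n, rfl⟩ : ∃ n : ℕ, m = (n : ℤ) := ⟨m.natAbs, by omega⟩
      have h1 := hm n (by omega)
      refine h1.congr fun k => ?_
      simp only [zpow_natCast]
  rw [Metric.tendsto_atTop]
  intro ε hε
  obtain ⟨a, ha⟩ := trig_approx hf (show 0 < ε / 4 by positivity)
  -- the approximant
  set Q : ℂ → ℂ := fun z => a.sum fun m c => c * z ^ m with hQ
  have hlim : Tendsto (fun k => a.sum fun m c => c * ∫ z, z ^ m * (b k z : ℂ) ∂ν) atTop
      (𝓝 (a.sum fun m c => c * ((1 / (2 * Real.pi)) • ∫ θ in (0 : ℝ)..2 * Real.pi,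
        (Complex.exp (θ * Complex.I)) ^ m))) := by
    simp only [Finsupp.sum]
    exact tendsto_finsetSum _ fun m _ => (hmz m).const_mul _
  obtain ⟨k0, hk0⟩ := (Metric.tendsto_atTop.1 hlim) (ε / 4) (by positivity)
  refine ⟨k0, fun k hk => ?_⟩
  have h1 := hk0 k hk
  -- measurability and integrability on the circle
  have hzm : ∀ m : ℤ, Integrable (fun z : ℂ => z ^ m * (b k z : ℂ)) ν := by
    intro m
    have hfin := h.fin
    obtain ⟨C, hC⟩ := (isCompact_sphere (0 : ℂ) 1).exists_bound_of_continuousOn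
      (hb k).continuousOn
    refine Integrable.of_bound (C := C) ?_ ?_
    · refine Measurable.aestronglyMeasurable ?_
      have h3 := (hb k).measurable
      have h4 : Measurable (fun z : ℂ => z ^ m) := measurable_id.pow_const m
      exact h4.mul (Complex.measurable_ofReal.comp h3)
    · filter_upwards [h.supp] with z hz
      rw [norm_mul, norm_zpow, hz, one_zpow, one_mul, Complex.norm_real]
      exact hC z (by simpa using hz)
  have e1 : a.sum (fun m c => c * ∫ z, z ^ m * (b k z : ℂ) ∂ν) = ∫ z, Q z * (b k z : ℂ) ∂ν := by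
    simp only [Finsupp.sum, hQ]
    simp_rw [← integral_const_mul]
    rw [← integral_finsetSum _ fun m _ => (hzm m).const_mul _]
    congr 1
    funext z
    rw [Finset.sum_mul]
    refine Finset.sum_congr rfl fun m _ => ?_
    ring
  have hzc : ∀ m : ℤ, Continuous (fun θ : ℝ => (Complex.exp (θ * Complex.I)) ^ m) := by
    intro m
    have : ∀ θ : ℝ, (Complex.exp (θ * Complex.I)) ^ m = Complex.exp ((m : ℂ) * (θ * Complex.I)) :=
      fun θ => by rw [Complex.exp_int_mul]
    simp_rw [this]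
    fun_prop
  have e2 : a.sum (fun m c => c * ((1 / (2 * Real.pi)) • ∫ θ in (0 : ℝ)..2 * Real.pi,
        (Complex.exp (θ * Complex.I)) ^ m))
      = (1 / (2 * Real.pi)) • ∫ θ in (0 : ℝ)..2 * Real.pi, Q (Complex.exp (θ * Complex.I)) := by
    simp only [Finsupp.sum, hQ]
    rw [intervalIntegral.integral_finsetSum fun m _ =>
      (show IntervalIntegrable (fun θ : ℝ => a m * Complex.exp (θ * Complex.I) ^ m) volume 0
        (2 * Real.pi) from (continuous_const.mul (hzc m)).intervalIntegrable _ _), Finset.smul_sum]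
    refine Finset.sum_congr rfl fun m _ => ?_
    rw [intervalIntegral.integral_const_mul]
    rw [Complex.real_smul, Complex.real_smul]; ring
  rw [e1, e2, dist_eq_norm] at h1
  -- comparison of `f` and `Q`
  have hib : Integrable (fun z => b k z) ν := h.integrable (hb k)
  have hQi : Integrable (fun z => Q z * (b k z : ℂ)) ν := by
    have : (fun z => Q z * (b k z : ℂ)) = fun z => ∑ m ∈ a.support, a m * (z ^ m * (b k z : ℂ)) := by
      funext z
      have e0 : Q z = ∑ m ∈ a.support, a m * z ^ m := rfl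
      rw [e0, Finset.sum_mul]
      refine Finset.sum_congr rfl fun m _ => ?_
      ring
    rw [this]
    exact integrable_finsetSum _ fun m _ => (hzm m).const_mul _
  have hfi : Integrable (fun z => (f z : ℂ) * (b k z : ℂ)) ν := h.integrable (by
    have := hb k
    fun_prop)
  have d1 : ‖∫ z, (f z : ℂ) * (b k z : ℂ) ∂ν - ∫ z, Q z * (b k z : ℂ) ∂ν‖ ≤ ε / 4 := by
    rw [← integral_sub hfi hQi]
    refine (norm_integral_le_integral_norm _).trans ?_
    have : ∫ z, ‖(f z : ℂ) * (b k z : ℂ) - Q z * (b k z : ℂ)‖ ∂ν ≤ ∫ z, ε / 4 * b k z ∂ν := by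
      refine integral_mono_ae (hfi.sub hQi).norm (hib.const_mul _) ?_
      filter_upwards [h.supp] with z hz
      rw [← sub_mul, norm_mul, Complex.norm_real, Real.norm_eq_abs, abs_of_nonneg (hb0 k z)]
      exact mul_le_mul_of_nonneg_right (ha z hz).le (hb0 k z)
    refine this.trans ?_
    rw [integral_const_mul, hb1 k, mul_one]
  have d2 : ‖(1 / (2 * Real.pi)) • (∫ θ in (0 : ℝ)..2 * Real.pi, Q (Complex.exp (θ * Complex.I)))
      - (1 / (2 * Real.pi)) • ∫ θ in (0 : ℝ)..2 * Real.pi, (f (Complex.exp (θ * Complex.I)) : ℂ)‖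
      ≤ ε / 4 := by
    have hQc : Continuous (fun θ : ℝ => Q (Complex.exp (θ * Complex.I))) := by
      have e0 : (fun θ : ℝ => Q (Complex.exp (θ * Complex.I)))
          = fun θ : ℝ => ∑ m ∈ a.support, a m * Complex.exp (θ * Complex.I) ^ m := rfl
      rw [e0]
      exact continuous_finsetSum _ fun m _ => continuous_const.mul (hzc m)
    have hfc : Continuous (fun θ : ℝ => (f (Complex.exp (θ * Complex.I)) : ℂ)) := by fun_prop
    rw [← smul_sub, ← intervalIntegral.integral_sub (hQc.intervalIntegrable _ _)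
      (hfc.intervalIntegrable _ _), norm_smul, Real.norm_eq_abs, abs_of_pos (by positivity)]
    have h3 := intervalIntegral.norm_integral_le_of_norm_le_const (a := 0) (b := 2 * Real.pi)
      (C := ε / 4) (f := fun θ : ℝ => Q (Complex.exp (θ * Complex.I))
        - (f (Complex.exp (θ * Complex.I)) : ℂ)) (fun θ _ => by
          rw [norm_sub_rev]
          exact (ha _ (Complex.norm_exp_ofReal_mul_I θ)).le)
    rw [sub_zero, abs_of_pos (by positivity)] at h3
    calc 1 / (2 * Real.pi) * _ ≤ 1 / (2 * Real.pi) * (ε / 4 * (2 * Real.pi)) :=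
          mul_le_mul_of_nonneg_left h3 (by positivity)
      _ = ε / 4 := by field_simp
  have e3 : ((∫ z, f z * b k z ∂ν : ℝ) : ℂ) = ∫ z, (f z : ℂ) * (b k z : ℂ) ∂ν := by
    rw [← integral_complex_ofReal]
    congr 1; funext z; push_cast; rfl
  have e4 : ((∫ z, f z ∂arc : ℝ) : ℂ)
      = (1 / (2 * Real.pi)) • ∫ θ in (0 : ℝ)..2 * Real.pi, (f (Complex.exp (θ * Complex.I)) : ℂ) := by
    rw [int_arc hf, intervalIntegral.integral_ofReal, smul_eq_mul, Complex.real_smul]
    push_cast; rfl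
  have e5 : dist (∫ z, f z * b k z ∂ν) (∫ z, f z ∂arc)
      = ‖((∫ z, f z * b k z ∂ν : ℝ) : ℂ) - ((∫ z, f z ∂arc : ℝ) : ℂ)‖ := by
    rw [← Complex.ofReal_sub, Complex.norm_real, dist_eq_norm]
  rw [e5, e3, e4]
  have tri : ∀ A B C' D : ℂ, ‖A - D‖ ≤ ‖A - B‖ + ‖B - C'‖ + ‖C' - D‖ := by
    intro A B C' D
    have : A - D = (A - B) + (B - C') + (C' - D) := by ring
    rw [this]
    exact norm_add₃_le
  have fin := tri (∫ z, (f z : ℂ) * (b k z : ℂ) ∂ν) (∫ z, Q z * (b k z : ℂ) ∂ν)
    ((1 / (2 * Real.pi)) • ∫ θ in (0 : ℝ)..2 * Real.pi, Q (Complex.exp (θ * Complex.I)))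
    ((1 / (2 * Real.pi)) • ∫ θ in (0 : ℝ)..2 * Real.pi, (f (Complex.exp (θ * Complex.I)) : ℂ))
  linarith

end Pool.Agent.X103.CircMeas
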