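import Pool.Agent.X103.NestG

/-!
# The solvable sets in terms of square integrable functions of the plane
-/

set_option autoImplicit false

open MeasureTheory Set FourierTransform
open scoped ENNReal ComplexConjugate ContDiff

noncomputable section

namespace Pool.Agent.X103.Cm

open Pool.Agent.X103.Nest Pool.Agent.TH298.Sch

theorem tm_mem {φ : ℂ → ℝ} (hφ : Continuous φ) (hc : HasCompactSupport φ) :
    MemLp (fun x => (φ x : ℂ)) 2 (volume : Measure ℂ) := by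
  have h1 : HasCompactSupport (fun x => (φ x : ℂ)) := hc.comp_left (g := ((↑) : ℝ → ℂ)) rfl
  exact (Complex.continuous_ofReal.comp hφ).memLp_of_hasCompactSupport h1

theorem tm_int {φ : ℂ → ℝ} (hφ : Continuous φ) (hc : HasCompactSupport φ) :
    Integrable (fun x => (φ x : ℂ)) := by
  have h1 : HasCompactSupport (fun x => (φ x : ℂ)) := hc.comp_left (g := ((↑) : ℝ → ℂ)) rfl
  exact (Complex.continuous_ofReal.comp hφ).integrable_of_hasCompactSupport h1

theorem fd_cont {φ : ℂ → ℝ} (hφ : ContDiff ℝ 1 φ) (e : ℂ) : Continuous fun x => fderiv ℝ φ x e :=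
  (hφ.continuous_fderiv (by simp)).clm_apply continuous_const

theorem fd_cs {φ : ℂ → ℝ} (hc : HasCompactSupport φ) (e : ℂ) :
    HasCompactSupport fun x => fderiv ℝ φ x e :=
  (hc.fderiv (𝕜 := ℝ)).comp_left (g := fun L : ℂ →L[ℝ] ℝ => L e) rfl

theorem ft_test {φ : ℂ → ℝ} (hφ : ContDiff ℝ 1 φ) (hc : HasCompactSupport φ) (e ξ : ℂ) :
    𝓕 (fun x => ((fderiv ℝ φ x e : ℝ) : ℂ)) ξ = sy e ξ * 𝓕 (fun x => (φ x : ℂ)) ξ := by
  set f : ℂ → ℂ := fun x => (φ x : ℂ) with hf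
  have hd : ∀ x, HasFDerivAt f (Complex.ofRealCLM.comp (fderiv ℝ φ x)) x := fun x =>
    Complex.ofRealCLM.hasFDerivAt.comp x ((hφ.differentiable (by simp)) x).hasFDerivAt
  have hfd : fderiv ℝ f = fun x => Complex.ofRealCLM.comp (fderiv ℝ φ x) := by
    funext x
    exact (hd x).fderiv
  have hfi : Integrable f := tm_int hφ.continuous hc
  have hfc : Continuous (fderiv ℝ f) := by
    rw [hfd]
    exact continuous_const.clm_comp (hφ.continuous_fderiv (by simp))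
  have hfs : HasCompactSupport f := hc.comp_left (g := ((↑) : ℝ → ℂ)) rfl
  have hfi' : Integrable (fderiv ℝ f) :=
    hfc.integrable_of_hasCompactSupport (hfs.fderiv (𝕜 := ℝ))
  have h1 := Real.fourier_fderiv hfi (fun x => (hd x).differentiableAt) hfi'
  have h2 := congrArg (fun L : ℂ →L[ℝ] ℂ => L e) (congrFun h1 ξ)
  rw [Real.fourier_continuousLinearMap_apply hfi'] at h2
  have h3 : (fun x => (fderiv ℝ f x) e) = fun x => ((fderiv ℝ φ x e : ℝ) : ℂ) := by
    funext x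
    rw [hfd]
    rfl
  rw [h3] at h2
  rw [h2]
  unfold sy
  simp only [VectorFourier.fourierSMulRight_apply, neg_apply,
    neg_smul, Complex.real_smul, smul_eq_mul]
  have h4 : ((innerSL ℝ) ξ) e = inner ℝ ξ e := rfl
  rw [h4]
  ring

/-- a test function as an element of the space -/
def tm {φ : ℂ → ℝ} (hφ : Continuous φ) (hc : HasCompactSupport φ) : H := (tm_mem hφ hc).toLp _

theorem tm_inner {φ : ℂ → ℝ} (hφ : Continuous φ) (hc : HasCompactSupport φ) (f : H) :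
    inner ℂ (tm hφ hc) f = ∫ x, φ x • f x := by
  rw [L2.inner_def]
  refine integral_congr_ae ?_
  unfold tm
  filter_upwards [(tm_mem hφ hc).coeFn_toLp] with x hx
  rw [hx, RCLike.inner_apply, Complex.conj_ofReal, Complex.real_smul, mul_comm]

theorem tm_ft {φ : ℂ → ℝ} (hφ : Continuous φ) (hc : HasCompactSupport φ) :
    ((𝓕 (tm hφ hc) : H) : ℂ → ℂ) =ᵐ[volume] 𝓕 (fun x => (φ x : ℂ)) :=
  Pool.Agent.H153R4.fourier_ae_eq _ (tm_int hφ hc) (tm_mem hφ hc)

theorem tm_inner_ft {φ : ℂ → ℝ} (hφ : Continuous φ) (hc : HasCompactSupport φ) (f : H) :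
    ∫ x, φ x • f x = ∫ ξ, conj (𝓕 (fun x => (φ x : ℂ)) ξ) * (𝓕 f : H) ξ := by
  rw [← tm_inner hφ hc, ← Lp.inner_fourier_eq, L2.inner_def]
  refine integral_congr_ae ?_
  filter_upwards [tm_ft hφ hc] with x hx
  rw [hx, RCLike.inner_apply, mul_comm]

theorem der_test1 {e : ℂ} {f K : H} (h : Der e f K) {φ : ℂ → ℝ} (hφ : ContDiff ℝ 1 φ)
    (hc : HasCompactSupport φ) : ∫ x, φ x • K x = - ∫ x, (fderiv ℝ φ x e) • f x := by
  rw [tm_inner_ft hφ.continuous hc, tm_inner_ft (fd_cont hφ e) (fd_cs hc e), ← integral_neg]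
  refine integral_congr_ae ?_
  filter_upwards [h] with ξ hξ
  rw [hξ, ft_test hφ hc, map_mul, sy_conj]
  ring

theorem sy_sq (ξ : ℂ) : sy 1 ξ ^ 2 + sy Complex.I ξ ^ 2 = -((4 * Real.pi ^ 2 * ‖ξ‖ ^ 2 : ℝ) : ℂ) := by
  unfold sy
  rw [Complex.inner, Complex.inner, ← Complex.normSq_eq_norm_sq, Complex.normSq_apply]
  simp only [Complex.conj_re, Complex.mul_re, Complex.I_re, Complex.I_im,
    Complex.conj_im, Complex.one_re, Complex.one_im]
  push_cast
  have hI : Complex.I ^ 2 = -1 := Complex.I_sq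
  ring_nf
  rw [hI]
  ring

theorem kf_of_eq {lam : ℝ} {w o : H}
    (heq : ∀ᵐ ξ : ℂ, ((4 * Real.pi ^ 2 * ‖ξ‖ ^ 2 - lam : ℝ) : ℂ) * (𝓕 w : H) ξ =
      (lam : ℂ) * (𝓕 o : H) ξ) : ∃ k, Kf w k := by
  have hpi := Real.pi_pos
  have hsq : MemLp (fun ξ : ℂ => ((4 * Real.pi ^ 2 * ‖ξ‖ ^ 2 : ℝ) : ℂ) * (𝓕 w : H) ξ) 2
      volume := by
    have h1 : MemLp (((lam : ℂ) • (𝓕 w : H) + (lam : ℂ) • (𝓕 o : H) : H) : ℂ → ℂ) 2 volume :=
      Lp.memLp _
    refine (memLp_congr_ae ?_).1 h1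
    filter_upwards [heq, Lp.coeFn_add ((lam : ℂ) • (𝓕 w : H)) ((lam : ℂ) • (𝓕 o : H)),
      Lp.coeFn_smul (lam : ℂ) (𝓕 w : H), Lp.coeFn_smul (lam : ℂ) (𝓕 o : H)] with ξ e1 e2 e3 e4
    rw [e2, Pi.add_apply, e3, e4, Pi.smul_apply, Pi.smul_apply, smul_eq_mul, smul_eq_mul, ← e1]
    push_cast
    ring
  refine kf_of ?_
  have h1 := (hsq.norm.add (Lp.memLp (𝓕 w : H)).norm)
  refine MemLp.of_le_mul (c := 1) h1 (mul_meas w) (Filter.Eventually.of_forall fun ξ => ?_)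
  simp only [Pi.add_apply]
  rw [norm_mul, norm_mul, Complex.norm_real, Complex.norm_real,
    Real.norm_of_nonneg (by positivity), Real.norm_of_nonneg (by positivity), one_mul,
    Real.norm_of_nonneg (by positivity)]
  have h2 : 2 * Real.pi * ‖ξ‖ ≤ 4 * Real.pi ^ 2 * ‖ξ‖ ^ 2 + 1 := by
    nlinarith [sq_nonneg (2 * Real.pi * ‖ξ‖ - 1), sq_nonneg (2 * Real.pi * ‖ξ‖)]
  calc 2 * Real.pi * ‖ξ‖ * ‖(𝓕 w : H) ξ‖ ≤ (4 * Real.pi ^ 2 * ‖ξ‖ ^ 2 + 1) * ‖(𝓕 w : H) ξ‖ :=
        mul_le_mul_of_nonneg_right h2 (norm_nonneg _)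
    _ = _ := by ring

/-- from the solution to the function -/
theorem exists_w {Ω : Set ℂ} {lam : ℝ} (hm : MeasurableSet Ω) (hb : Bornology.IsBounded Ω)
    (hl : 0 < lam) (h : Slv Ω lam) :
    ∃ w : H, (∀ᵐ x : ℂ, x ∉ Ω → w x = 0) ∧ (∀ᵐ x : ℂ, (w x).im = 0) ∧
      ∀ᵐ ξ : ℂ, ((4 * Real.pi ^ 2 * ‖ξ‖ ^ 2 - lam : ℝ) : ℂ) * (𝓕 w : H) ξ =
        (lam : ℂ) * (𝓕 (oneH Ω hm hb) : H) ξ := by
  obtain ⟨c, u, G, hS, hu0⟩ := h
  have hfin : IsFiniteMeasure (volume.restrict Ω) := Sol.fin hb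
  have hc0 := hS.c_ne hb hm hl hu0
  have hui := hS.ui hb
  have hvi : IntegrableOn (fun x => u x - c) Ω := hui.sub (ci hb c)
  have hv2 : MemLp (ex Ω fun x => u x - c) 2 := ex_mem hm (hS.u2.sub (memLp_const c))
  have hcc : (c : ℂ) ≠ 0 := Complex.ofReal_ne_zero.2 hc0
  refine ⟨((c : ℂ)⁻¹) • hv2.toLp _, ?_, ?_, ?_⟩
  · filter_upwards [hv2.coeFn_toLp, Lp.coeFn_smul ((c : ℂ)⁻¹) (hv2.toLp _)] with x h1 h2 hx
    rw [h2, Pi.smul_apply, h1]
    unfold ex
    rw [indicator_of_notMem hx, smul_zero]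
  · filter_upwards [hv2.coeFn_toLp, Lp.coeFn_smul ((c : ℂ)⁻¹) (hv2.toLp _)] with x h1 h2
    rw [h2, Pi.smul_apply, h1]
    unfold ex
    by_cases hx : x ∈ Ω
    · rw [indicator_of_mem hx, smul_eq_mul, ← Complex.ofReal_inv, ← Complex.ofReal_mul,
        Complex.ofReal_im]
    · rw [indicator_of_notMem hx, smul_zero, Complex.zero_im]
  · have e : (𝓕 (((c : ℂ)⁻¹) • hv2.toLp _) : H) = ((c : ℂ)⁻¹) • 𝓕 (hv2.toLp _) :=
      FourierTransform.fourier_smul _ _
    rw [e]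
    filter_upwards [ft_ex hm (ci hb 1) (one_mem hm hb), ft_ex hm hvi hv2,
      Lp.coeFn_smul ((c : ℂ)⁻¹) (𝓕 (hv2.toLp _) : H)] with ξ h1 h2 h3
    rw [h3, Pi.smul_apply, h2, smul_eq_mul]
    unfold oneH
    rw [h1]
    have h4 := sol_eq hS hb hm ξ
    calc ((4 * Real.pi ^ 2 * ‖ξ‖ ^ 2 - lam : ℝ) : ℂ) *
          ((c : ℂ)⁻¹ * 𝓕 (ex Ω fun x => u x - c) ξ)
        = (c : ℂ)⁻¹ * (((4 * Real.pi ^ 2 * ‖ξ‖ ^ 2 - lam : ℝ) : ℂ) *
          𝓕 (ex Ω fun x => u x - c) ξ) := by ring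
      _ = (c : ℂ)⁻¹ * (((lam * c : ℝ) : ℂ) * 𝓕 (ex Ω fun _ => 1) ξ) := by rw [h4]
      _ = (lam : ℂ) * 𝓕 (ex Ω fun _ => 1) ξ := by
        push_cast
        field_simp

/-- from the function to the solution -/
theorem slv_of_w {Ω : Set ℂ} {lam : ℝ} (ho : IsOpen Ω) (hb : Bornology.IsBounded Ω)
    (hne : Ω.Nonempty) (hfr : volume (frontier Ω) = 0) {w : H}
    (hw : ∀ᵐ x : ℂ, x ∉ Ω → w x = 0) (hr : ∀ᵐ x : ℂ, (w x).im = 0)
    (heq : ∀ᵐ ξ : ℂ, ((4 * Real.pi ^ 2 * ‖ξ‖ ^ 2 - lam : ℝ) : ℂ) * (𝓕 w : H) ξ =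
        (lam : ℂ) * (𝓕 (oneH Ω ho.measurableSet hb) : H) ξ) : Slv Ω lam := by
  have hm := ho.measurableSet
  have hfin : IsFiniteMeasure (volume.restrict Ω) := Sol.fin hb
  obtain ⟨k, hk⟩ := kf_of_eq heq
  obtain ⟨g1, hg1⟩ := hk.exT 1
  obtain ⟨g2, hg2⟩ := hk.exT Complex.I
  have hfr' : ∀ᵐ x : ℂ, x ∉ frontier Ω := measure_eq_zero_iff_ae_notMem.1 hfr
  have hsupp : ∀ {e : ℂ} {g : H}, Der e w g → ∀ᵐ x : ℂ, x ∉ Ω → g x = 0 := by
    intro e g hd
    filter_upwards [der_supp hd hw, hfr'] with x h1 h2 hx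
    refine h1 fun h => ?_
    apply h2
    rw [ho.frontier_eq]
    exact ⟨h, hx⟩
  have s1 := hsupp hg1
  have s2 := hsupp hg2
  set G : ℂ → ℂ := fun x => ⟨(g1 x).re, (g2 x).re⟩ with hG
  have hGi : ∀ x v : ℂ, (inner ℝ (G x) v : ℝ) = v.re * (g1 x).re + v.im * (g2 x).re := by
    intro x v
    rw [Complex.inner]
    simp [hG]
  -- integrals over the set and over the plane
  have hset : ∀ (a : ℂ → ℝ) (f : H), (∀ᵐ x : ℂ, x ∉ Ω → f x = 0) →
      ∫ x in Ω, a x * (f x).re = ∫ x, a x * (f x).re := by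
    intro a f hf
    rw [← integral_indicator hm]
    refine integral_congr_ae ?_
    filter_upwards [hf] with x hx
    by_cases hxΩ : x ∈ Ω
    · rw [indicator_of_mem hxΩ]
    · rw [indicator_of_notMem hxΩ, hx hxΩ]
      simp
  have hre : ∀ (a : ℂ → ℝ), Continuous a → HasCompactSupport a → ∀ f : H,
      Integrable (fun x => a x • f x) := by
    intro a ha hac f
    have h1 := MemLp.integrable_mul (p := 2) (q := 2) (tm_mem ha hac) (Lp.memLp f)
    refine h1.congr (Filter.Eventually.of_forall fun x => ?_)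
    simp only [Pi.mul_apply, Complex.real_smul]
  have hre2 : ∀ (a : ℂ → ℝ), Continuous a → HasCompactSupport a → ∀ f : H,
      Integrable (fun x => a x * (f x).re) := by
    intro a ha hac f
    refine (hre a ha hac f).re.congr (Filter.Eventually.of_forall fun x => ?_)
    simp
  have hreI : ∀ (a : ℂ → ℝ), Continuous a → HasCompactSupport a → ∀ f : H,
      (∫ x, a x • f x).re = ∫ x, a x * (f x).re := by
    intro a ha hac f
    have h1 := integral_re (hre a ha hac f)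
    have h2 : RCLike.re (∫ x, a x • f x) = (∫ x, a x • f x).re := rfl
    rw [← h2, ← h1]
    refine integral_congr_ae (Filter.Eventually.of_forall fun x => ?_)
    simp
  have hw2 : MemLp (fun x => (w x).re) 2 (volume.restrict Ω) := ((Lp.memLp w).restrict Ω).re
  refine ⟨1, fun x => (w x).re + 1, G, ⟨?_, ?_, ?_, ?_⟩, ?_⟩
  · exact hw2.add (memLp_const 1)
  · have h1 : MemLp (fun x => (((g1 x).re : ℝ) : ℂ)) 2 (volume.restrict Ω) :=
      (((Lp.memLp g1).restrict Ω).re).ofReal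
    have h2 : MemLp (fun x => (((g2 x).re : ℝ) : ℂ)) 2 (volume.restrict Ω) :=
      (((Lp.memLp g2).restrict Ω).re).ofReal
    have h3 := h1.add (h2.const_mul Complex.I)
    refine (memLp_congr_ae (Filter.Eventually.of_forall fun x => ?_)).1 h3
    simp only [Pi.add_apply, hG]
    apply Complex.ext <;> simp
  · intro φ hφ hc v
    have hd := der_test1 (der_dir hg1 hg2 v) hφ hc
    have h0 := congrArg Complex.re hd
    rw [Complex.neg_re, hreI _ hφ.continuous hc, hreI _ (fd_cont hφ v) (fd_cs hc v)] at h0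
    have e1 : ∫ x in Ω, ((w x).re + 1 - 1) * fderiv ℝ φ x v =
        ∫ x, fderiv ℝ φ x v * (w x).re := by
      rw [← hset _ _ hw]
      refine integral_congr_ae (Filter.Eventually.of_forall fun x => ?_)
      simp only
      ring
    have sg : ∀ᵐ x : ℂ, x ∉ Ω → ((v.re : ℂ) • g1 + (v.im : ℂ) • g2 : H) x = 0 :=
      supp_add (supp_smul s1 _) (supp_smul s2 _)
    have e2 : ∫ x in Ω, (inner ℝ (G x) v : ℝ) * φ x =
        ∫ x, φ x * (((v.re : ℂ) • g1 + (v.im : ℂ) • g2 : H) x).re := by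
      rw [← hset _ _ sg]
      refine integral_congr_ae (ae_restrict_of_ae ?_)
      filter_upwards [Lp.coeFn_add ((v.re : ℂ) • g1) ((v.im : ℂ) • g2),
        Lp.coeFn_smul (v.re : ℂ) g1, Lp.coeFn_smul (v.im : ℂ) g2] with x a1 a2 a3
      rw [a1, Pi.add_apply, a2, a3, Pi.smul_apply, Pi.smul_apply, hGi]
      simp
      ring
    rw [e1, e2]
    linarith
  · intro φ hφ hc
    have c1 := fd_cont hφ 1
    have cI := fd_cont hφ Complex.I
    have p1 := tm_inner_ft c1 (fd_cs hc 1) g1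
    have p2 := tm_inner_ft cI (fd_cs hc Complex.I) g2
    have p3 := tm_inner_ft hφ.continuous hc w
    have p4 := tm_inner_ft hφ.continuous hc (oneH Ω hm hb)
    have hint : ∀ (a : ℂ → ℝ) (ha : Continuous a) (hac : HasCompactSupport a) (f : H),
        Integrable (fun ξ => conj (𝓕 (fun x => (a x : ℂ)) ξ) * (𝓕 f : H) ξ) := by
      intro a ha hac f
      refine (L2.integrable_inner (𝕜 := ℂ) (𝓕 (tm ha hac)) (𝓕 f : H)).congr ?_
      filter_upwards [tm_ft ha hac] with ξ hξ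
      rw [hξ, RCLike.inner_apply, mul_comm]
    have key : (∫ x, fderiv ℝ φ x 1 • g1 x) + ∫ x, fderiv ℝ φ x Complex.I • g2 x =
        (lam : ℂ) * ((∫ x, φ x • w x) + ∫ x, φ x • (oneH Ω hm hb) x) := by
      rw [p1, p2, p3, p4, ← integral_add (hint _ c1 (fd_cs hc 1) g1)
        (hint _ cI (fd_cs hc Complex.I) g2),
        ← integral_add (hint _ hφ.continuous hc w) (hint _ hφ.continuous hc _),
        ← integral_const_mul]
      refine integral_congr_ae ?_
      filter_upwards [hg1, hg2, heq] with ξ a1 a2 a3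
      rw [a1, a2, ft_test hφ hc, ft_test hφ hc, map_mul, map_mul, sy_conj, sy_conj]
      have a4 := sy_sq ξ
      push_cast at a3 a4
      linear_combination (conj (𝓕 (fun x => (φ x : ℂ)) ξ)) * a3 -
        (conj (𝓕 (fun x => (φ x : ℂ)) ξ)) * (𝓕 w : H) ξ * a4
    have k1 := congrArg Complex.re key
    have hlr : ∀ z : ℂ, ((lam : ℂ) * z).re = lam * z.re := fun z => by simp
    rw [Complex.add_re, hlr, Complex.add_re, hreI _ c1 (fd_cs hc 1), hreI _ cI (fd_cs hc Complex.I),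
      hreI _ hφ.continuous hc, hreI _ hφ.continuous hc] at k1
    have e1 : ∫ x in Ω, fderiv ℝ φ x (G x) =
        (∫ x, fderiv ℝ φ x 1 * (g1 x).re) + ∫ x, fderiv ℝ φ x Complex.I * (g2 x).re := by
      rw [← hset _ _ s1, ← hset _ _ s2, ← integral_add
        ((hre2 _ c1 (fd_cs hc 1) g1).integrableOn) ((hre2 _ cI (fd_cs hc Complex.I) g2).integrableOn)]
      refine integral_congr_ae (Filter.Eventually.of_forall fun x => ?_)
      simp only
      have : G x = (g1 x).re • (1 : ℂ) + (g2 x).re • Complex.I := by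
        rw [hG]
        apply Complex.ext <;> simp
      rw [this, map_add, map_smul, map_smul, smul_eq_mul, smul_eq_mul]
      ring
    have e2 : ∫ x in Ω, ((w x).re + 1) * φ x =
        (∫ x, φ x * (w x).re) + ∫ x, φ x * ((oneH Ω hm hb) x).re := by
      have so : ∀ᵐ x : ℂ, x ∉ Ω → (oneH Ω hm hb) x = 0 := by
        unfold oneH
        filter_upwards [(one_mem hm hb).coeFn_toLp] with x hx hxΩ
        rw [hx]
        exact indicator_of_notMem hxΩ _
      rw [← hset _ _ hw, ← hset _ _ so, ← integral_add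
        ((hre2 _ hφ.continuous hc w).integrableOn) ((hre2 _ hφ.continuous hc _).integrableOn)]
      refine integral_congr_ae ?_
      have h5 : ∀ᵐ x ∂(volume.restrict Ω), x ∈ Ω := ae_restrict_mem hm
      have h6 : ∀ᵐ x ∂(volume.restrict Ω), (oneH Ω hm hb) x = ex Ω (fun _ => 1) x := by
        unfold oneH
        exact ae_restrict_of_ae (one_mem hm hb).coeFn_toLp
      filter_upwards [h5, h6] with x hx hx2
      rw [hx2]
      unfold ex
      rw [indicator_of_mem hx]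
      simp
      ring
    rw [e1, e2, k1]
  · intro hu
    have h1 : ∀ᵐ x : ℂ, w x = (-(1 : ℂ) • oneH Ω hm hb : H) x := by
      have h6 : ∀ᵐ x : ℂ, (oneH Ω hm hb) x = ex Ω (fun _ => 1) x := by
        unfold oneH
        exact (one_mem hm hb).coeFn_toLp
      have h7 : ∀ᵐ x : ℂ, x ∈ Ω → (w x).re + 1 = 0 := (ae_restrict_iff' hm).1 hu
      filter_upwards [hw, hr, h6, h7, Lp.coeFn_smul (-(1 : ℂ)) (oneH Ω hm hb)]
        with x a1 a2 a3 a4 a5
      rw [a5, Pi.smul_apply, a3]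
      unfold ex
      by_cases hx : x ∈ Ω
      · rw [indicator_of_mem hx]
        have := a4 hx
        apply Complex.ext
        · simp
          linarith
        · simp [a2]
      · rw [indicator_of_notMem hx, a1 hx, smul_zero]
    have h2 : w = -(1 : ℂ) • oneH Ω hm hb := Lp.ext h1
    have h3 : (𝓕 w : H) = -(1 : ℂ) • 𝓕 (oneH Ω hm hb) := by
      rw [h2, FourierTransform.fourier_smul]
    have h4 : ∀ᵐ ξ : ℂ, (𝓕 (oneH Ω hm hb) : H) ξ = 0 := by
      have h5 : ∀ᵐ ξ : ℂ, ξ ≠ 0 := by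
        have : ∀ᵐ ξ : ℂ, ξ ∉ ({0} : Set ℂ) := measure_eq_zero_iff_ae_notMem.1 (measure_singleton 0)
        simpa using this
      filter_upwards [heq, Lp.coeFn_smul (-(1 : ℂ)) (𝓕 (oneH Ω hm hb) : H), h5] with ξ a1 a2 a3
      rw [h3, a2, Pi.smul_apply, smul_eq_mul] at a1
      have h6 : ((4 * Real.pi ^ 2 * ‖ξ‖ ^ 2 : ℝ) : ℂ) * (𝓕 (oneH Ω hm hb) : H) ξ = 0 := by
        push_cast at a1 ⊢
        linear_combination -a1
      rcases mul_eq_zero.1 h6 with h7 | h7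
      · exfalso
        rw [Complex.ofReal_eq_zero] at h7
        have := norm_pos_iff.2 a3
        have hpi := Real.pi_pos
        have h8 : 0 < 4 * Real.pi ^ 2 * ‖ξ‖ ^ 2 := by positivity
        exact absurd h7 h8.ne'
      · exact h7
    have h5 : ‖oneH Ω hm hb‖ = 0 := by
      rw [← Lp.norm_fourier_eq]
      have : (𝓕 (oneH Ω hm hb) : H) = 0 := by
        refine Lp.ext ?_
        filter_upwards [h4, Lp.coeFn_zero ℂ 2 (volume : Measure ℂ)] with ξ a1 a2
        rw [a1, a2]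
        rfl
      rw [this, norm_zero]
    have h6 := one_one hm hb hm hb
    rw [← nsq, h5, inter_self] at h6
    have h7 : (volume Ω).toReal = 0 := by
      have : ((0 ^ 2 : ℝ) : ℂ) = 0 := by norm_num
      rw [this] at h6
      exact_mod_cast h6.symm
    have h8 : 0 < (volume Ω).toReal :=
      ENNReal.toReal_pos (ho.measure_pos volume hne).ne' hb.measure_lt_top.ne
    exact absurd h7 h8.ne'

end Pool.Agent.X103.Cm
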