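import Pool.Agent.X103.CmA

/-!
# The solvable sets are closed under convergence in measure
-/

set_option autoImplicit false

open MeasureTheory Set FourierTransform Filter Topology
open scoped ENNReal ComplexConjugate ContDiff

noncomputable section

namespace Pool.Agent.X103.Cm

open Pool.Agent.X103.Nest Pool.Agent.TH298.Sch

/-- the transform of a set -/
def hat (E : Set ℂ) (ξ : ℂ) : ℂ := 𝓕 (ex E fun _ => 1) ξ

theorem hat_ft {E : Set ℂ} (hm : MeasurableSet E) (hb : Bornology.IsBounded E) :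
    ((𝓕 (oneH E hm hb) : H) : ℂ → ℂ) =ᵐ[volume] hat E :=
  ft_ex hm (ci hb 1) (one_mem hm hb)

theorem hat_le {E : Set ℂ} (hm : MeasurableSet E) (ξ : ℂ) :
    ‖hat E ξ‖ ≤ (volume E).toReal := by
  unfold hat
  rw [Real.fourier_eq]
  refine (norm_integral_le_integral_norm _).trans (le_of_eq ?_)
  have : ∀ x : ℂ, ‖Real.fourierChar (-(inner ℝ x ξ)) • ex E (fun _ => 1) x‖ =
      E.indicator (fun _ => (1 : ℝ)) x := by
    intro x
    rw [Circle.norm_smul]
    unfold ex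
    by_cases hx : x ∈ E
    · rw [indicator_of_mem hx, indicator_of_mem hx]
      simp
    · rw [indicator_of_notMem hx, indicator_of_notMem hx, norm_zero]
  simp only [this]
  rw [integral_indicator hm, setIntegral_const, Measure.real]
  simp

theorem hat_lip {E : Set ℂ} (hm : MeasurableSet E) {R : ℝ} (hR : E ⊆ Metric.closedBall 0 R)
    (ξ η : ℂ) : ‖hat E ξ - hat E η‖ ≤ 4 * Real.pi * R * (volume E).toReal * ‖ξ - η‖ := by
  have hpi := Real.pi_pos
  have hb : Bornology.IsBounded E := Metric.isBounded_closedBall.subset hR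
  have hfin : IsFiniteMeasure (volume.restrict E) := Sol.fin hb
  unfold hat
  rw [ex_ft hm (ci hb 1), ex_ft hm (ci hb 1)]
  have ic : ∀ ζ : ℂ, Integrable (fun x : ℂ => (1 : ℝ) * Real.cos (inner ℝ ((2 * Real.pi : ℝ) • ζ) x))
      (volume.restrict E) := fun ζ =>
    (integrable_const (1 : ℝ)).mono' (by fun_prop)
      (Eventually.of_forall fun x => by simpa using Real.abs_cos_le_one _)
  have is : ∀ ζ : ℂ, Integrable (fun x : ℂ => (1 : ℝ) * Real.sin (inner ℝ ((2 * Real.pi : ℝ) • ζ) x))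
      (volume.restrict E) := fun ζ =>
    (integrable_const (1 : ℝ)).mono' (by fun_prop)
      (Eventually.of_forall fun x => by simpa using Real.abs_sin_le_one _)
  have hin : ∀ x ∈ E, |(inner ℝ ((2 * Real.pi : ℝ) • ξ) x : ℝ) - inner ℝ ((2 * Real.pi : ℝ) • η) x| ≤
      2 * Real.pi * R * ‖ξ - η‖ := by
    intro x hx
    have hxR : ‖x‖ ≤ R := by simpa using hR hx
    rw [← inner_sub_left, ← smul_sub, real_inner_smul_left, abs_mul,
      abs_of_pos (by positivity : (0 : ℝ) < 2 * Real.pi)]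
    calc 2 * Real.pi * |(inner ℝ (ξ - η) x : ℝ)| ≤ 2 * Real.pi * (‖ξ - η‖ * ‖x‖) :=
          mul_le_mul_of_nonneg_left (abs_real_inner_le_norm _ _) (by positivity)
      _ ≤ 2 * Real.pi * (‖ξ - η‖ * R) := by gcongr
      _ = 2 * Real.pi * R * ‖ξ - η‖ := by ring
  have gen : ∀ (T : ℝ → ℝ), (∀ a b, |T a - T b| ≤ |a - b|) →
      (∀ ζ : ℂ, Integrable (fun x : ℂ => (1 : ℝ) * T (inner ℝ ((2 * Real.pi : ℝ) • ζ) x))
        (volume.restrict E)) →
      |(∫ x in E, (1 : ℝ) * T (inner ℝ ((2 * Real.pi : ℝ) • ξ) x)) -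
        ∫ x in E, (1 : ℝ) * T (inner ℝ ((2 * Real.pi : ℝ) • η) x)| ≤
      2 * Real.pi * R * ‖ξ - η‖ * (volume E).toReal := by
    intro T hT hI
    rw [← integral_sub (hI ξ) (hI η), ← Real.norm_eq_abs]
    have := norm_setIntegral_le_of_norm_le_const (μ := volume) (s := E)
      (f := fun x : ℂ => (1 : ℝ) * T (inner ℝ ((2 * Real.pi : ℝ) • ξ) x) -
        1 * T (inner ℝ ((2 * Real.pi : ℝ) • η) x))
      (C := 2 * Real.pi * R * ‖ξ - η‖) hb.measure_lt_top ?_
    · rw [Measure.real] at this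
      exact this
    · intro x hx
      rw [one_mul, one_mul, Real.norm_eq_abs]
      exact (hT _ _).trans (hin x hx)
  have g1 := gen Real.cos Real.abs_cos_sub_cos_le ic
  have g2 := gen Real.sin Real.abs_sin_sub_sin_le is
  set A1 := ∫ x in E, (1 : ℝ) * Real.cos (inner ℝ ((2 * Real.pi : ℝ) • ξ) x)
  set A2 := ∫ x in E, (1 : ℝ) * Real.cos (inner ℝ ((2 * Real.pi : ℝ) • η) x)
  set B1 := ∫ x in E, (1 : ℝ) * Real.sin (inner ℝ ((2 * Real.pi : ℝ) • ξ) x)
  set B2 := ∫ x in E, (1 : ℝ) * Real.sin (inner ℝ ((2 * Real.pi : ℝ) • η) x)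
  have e : (A1 : ℂ) - (B1 : ℂ) * Complex.I - ((A2 : ℂ) - (B2 : ℂ) * Complex.I) =
      ((A1 - A2 : ℝ) : ℂ) - ((B1 - B2 : ℝ) : ℂ) * Complex.I := by
    push_cast
    ring
  rw [e]
  refine (norm_sub_le _ _).trans ?_
  rw [norm_mul, Complex.norm_I, mul_one, Complex.norm_real, Complex.norm_real, Real.norm_eq_abs,
    Real.norm_eq_abs]
  linarith

theorem hat_zero {E : Set ℂ} (hm : MeasurableSet E) (hb : Bornology.IsBounded E) {lam : ℝ}
    (hl : 0 < lam) (hS : Slv E lam) {ξ : ℂ} (hξ : 2 * Real.pi * ‖ξ‖ = Real.sqrt lam) :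
    hat E ξ = 0 := by
  obtain ⟨c, u, G, h, hu0⟩ := hS
  have hpi := Real.pi_pos
  have h1 := Pool.Agent.W632.Schiffer.ft_zero hb hm hl h.u2 h.h1 h.h2 hu0
    ((2 * Real.pi : ℝ) • ξ) (by
      rw [norm_smul, Real.norm_of_nonneg (by positivity), hξ, Real.sq_sqrt hl.le])
  unfold hat
  rw [ex_ft hm (ci hb 1)]
  simp only [one_mul]
  rw [h1.1, h1.2]
  simp

/-- the constant of the pointwise bound -/
def KK (lam R V : ℝ) : ℝ := (1 + lam) * (2 * R * V * Real.sqrt lam) + lam * V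

theorem w_bound {E : Set ℂ} (hm : MeasurableSet E) (hb : Bornology.IsBounded E) {R : ℝ}
    (hR : E ⊆ Metric.closedBall 0 R) {lam : ℝ} (hl : 0 < lam) (hS : Slv E lam)
    {w : H} (heq : ∀ᵐ ξ : ℂ, ((4 * Real.pi ^ 2 * ‖ξ‖ ^ 2 - lam : ℝ) : ℂ) * (𝓕 w : H) ξ =
        (lam : ℂ) * (𝓕 (oneH E hm hb) : H) ξ) :
    ∀ᵐ ξ : ℂ, ‖(𝓕 w : H) ξ‖ * (1 + ‖ξ‖ ^ 2) ≤ KK lam R (volume E).toReal := by
  have hpi := Real.pi_gt_three
  have hk : 0 < Real.sqrt lam := Real.sqrt_pos.2 hl
  have hkk : Real.sqrt lam ^ 2 = lam := Real.sq_sqrt hl.le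
  set k := Real.sqrt lam with hkdef
  set V := (volume E).toReal with hV
  have hV0 : 0 ≤ V := ENNReal.toReal_nonneg
  have hsph : ∀ᵐ ξ : ℂ, ξ ∉ Metric.sphere (0 : ℂ) (k / (2 * Real.pi)) :=
    measure_eq_zero_iff_ae_notMem.1 (Measure.addHaar_sphere volume 0 _)
  have hne0 : ∀ᵐ ξ : ℂ, ξ ∉ ({0} : Set ℂ) := measure_eq_zero_iff_ae_notMem.1 (measure_singleton 0)
  filter_upwards [heq, hat_ft hm hb, hsph, hne0] with ξ e1 e2 e3 e4
  rw [e2] at e1
  have hξ0 : 0 < ‖ξ‖ := norm_pos_iff.2 (by simpa using e4)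
  obtain ⟨s, hs⟩ : ∃ s, s = 2 * Real.pi * ‖ξ‖ := ⟨_, rfl⟩
  have hs0 : 0 < s := by rw [hs]; positivity
  have hsk : s ≠ k := by
    intro h
    apply e3
    rw [mem_sphere_zero_iff_norm, ← h, hs]
    field_simp
  have hsq : 4 * Real.pi ^ 2 * ‖ξ‖ ^ 2 - lam = (s - k) * (s + k) := by
    rw [hs, ← hkk]
    ring
  have hn := congrArg norm e1
  rw [norm_mul, norm_mul, Complex.norm_real, Complex.norm_real, Real.norm_of_nonneg hl.le,
    Real.norm_eq_abs, hsq, abs_mul, abs_of_pos (by linarith : 0 < s + k)] at hn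
  set f := ‖(𝓕 w : H) ξ‖ with hf
  have hf0 : 0 ≤ f := norm_nonneg _
  -- the Lipschitz bound
  have h1 : ‖hat E ξ‖ ≤ 2 * R * V * |s - k| := by
    have hz : hat E ((k / s : ℝ) • ξ) = 0 := by
      refine hat_zero hm hb hl hS ?_
      rw [norm_smul, Real.norm_of_nonneg (by positivity), hs]
      field_simp
      exact hkdef
    have h2 := hat_lip hm hR ξ ((k / s : ℝ) • ξ)
    rw [hz, sub_zero] at h2
    have h3 : ‖ξ - (k / s : ℝ) • ξ‖ = |s - k| / (2 * Real.pi) := by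
      have : ξ - (k / s : ℝ) • ξ = ((s - k) / s : ℝ) • ξ := by
        rw [sub_div, div_self hs0.ne', sub_smul, one_smul]
      rw [this, norm_smul, Real.norm_eq_abs, abs_div, abs_of_pos hs0, hs]
      field_simp
    rw [h3] at h2
    refine h2.trans (le_of_eq ?_)
    field_simp
    ring
  have h2 := hat_le hm ξ
  have hab : 0 < |s - k| := abs_pos.2 (sub_ne_zero.2 hsk)
  have b1 : f ≤ 2 * R * V * k := by
    have h3 : |s - k| * (s + k) * f ≤ lam * (2 * R * V * |s - k|) := by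
      rw [hn]
      exact mul_le_mul_of_nonneg_left h1 hl.le
    have h4 : (s + k) * f ≤ lam * (2 * R * V) := by
      refine le_of_mul_le_mul_left ?_ hab
      calc |s - k| * ((s + k) * f) = |s - k| * (s + k) * f := by ring
        _ ≤ _ := h3
        _ = _ := by ring
    have h5 : k * f ≤ k * (2 * R * V * k) := by
      calc k * f ≤ (s + k) * f := mul_le_mul_of_nonneg_right (by linarith) hf0
        _ ≤ lam * (2 * R * V) := h4
        _ = k * (2 * R * V * k) := by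
          rw [← hkk]
          ring
    exact le_of_mul_le_mul_left h5 hk
  have b2 : |s - k| * (s + k) * f ≤ lam * V := by
    rw [hn]
    exact mul_le_mul_of_nonneg_left h2 hl.le
  have b3 : s ^ 2 * f ≤ lam * V + lam * f := by
    have h3 : s ^ 2 - lam ≤ |s - k| * (s + k) := by
      rw [← hkk]
      calc s ^ 2 - k ^ 2 = (s - k) * (s + k) := by ring
        _ ≤ |s - k| * (s + k) := mul_le_mul_of_nonneg_right (le_abs_self _) (by linarith)
    have := mul_le_mul_of_nonneg_right h3 hf0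
    linarith
  have b4 : ‖ξ‖ ^ 2 ≤ s ^ 2 := by
    refine pow_le_pow_left₀ hξ0.le ?_ 2
    rw [hs]
    nlinarith
  have b5 : ‖ξ‖ ^ 2 * f ≤ s ^ 2 * f := mul_le_mul_of_nonneg_right b4 hf0
  unfold KK
  rw [← hkdef]
  have b6 : lam * f ≤ lam * (2 * R * V * k) := mul_le_mul_of_nonneg_left b1 hl.le
  nlinarith

theorem KK_mono {lam lam' R V V' : ℝ} (hl : 0 ≤ lam) (hll : lam ≤ lam') (hR : 0 ≤ R) (hV : 0 ≤ V)
    (hVV : V ≤ V') : KK lam R V ≤ KK lam' R V' := by
  unfold KK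
  have h1 : Real.sqrt lam ≤ Real.sqrt lam' := Real.sqrt_le_sqrt hll
  have h2 : 0 ≤ Real.sqrt lam := Real.sqrt_nonneg _
  have hV' : 0 ≤ V' := hV.trans hVV
  have hl' : 0 ≤ lam' := hl.trans hll
  gcongr

theorem dom_mem (K : ℝ) : MemLp (fun ξ : ℂ => K * (1 + ‖ξ‖ ^ 2)⁻¹) 2 (volume : Measure ℂ) := by
  refine MemLp.const_mul ?_ K
  have hc : Continuous fun ξ : ℂ => (1 + ‖ξ‖ ^ 2)⁻¹ := by
    refine Continuous.inv₀ (by fun_prop) fun ξ => ?_
    positivity
  rw [memLp_two_iff_integrable_sq hc.aestronglyMeasurable]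
  have h1 := integrable_rpow_neg_one_add_norm_sq (E := ℂ) (μ := (volume : Measure ℂ)) (r := 4) (by
    rw [Complex.finrank_real_complex]
    norm_num)
  refine h1.congr (Eventually.of_forall fun ξ => ?_)
  have h2 : (0 : ℝ) < 1 + ‖ξ‖ ^ 2 := by positivity
  simp only
  have h3 : (-4 / 2 : ℝ) = ((-2 : ℤ) : ℝ) := by norm_num
  rw [h3, Real.rpow_intCast, inv_pow]
  rfl

theorem hat_tendsto {E : ℕ → Set ℂ} {E0 : Set ℂ} {R : ℝ} (hm : ∀ n, MeasurableSet (E n))
    (hR : ∀ n, E n ⊆ Metric.closedBall 0 R)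
    (hae : ∀ᵐ x : ℂ, (x ∈ E0 → ∀ᶠ n in atTop, x ∈ E n) ∧ (x ∉ E0 → ∀ᶠ n in atTop, x ∉ E n))
    (ξ : ℂ) : Tendsto (fun n => hat (E n) ξ) atTop (𝓝 (hat E0 ξ)) := by
  unfold hat
  simp only [Real.fourier_eq]
  refine tendsto_integral_of_dominated_convergence
    ((Metric.closedBall (0 : ℂ) R).indicator fun _ => (1 : ℝ)) ?_ ?_ ?_ ?_
  · intro n
    have h1 : Continuous fun x : ℂ => Real.fourierChar (-(inner ℝ x ξ)) := by fun_prop
    have h2 : AEStronglyMeasurable (ex (E n) fun _ => 1) (volume : Measure ℂ) := by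
      unfold ex
      exact (aestronglyMeasurable_const).indicator (hm n)
    have h3 : Continuous fun x : ℂ => ((Real.fourierChar (-(inner ℝ x ξ)) : Circle) : ℂ) := by
      fun_prop
    exact h3.aestronglyMeasurable.mul h2
  · rw [integrable_indicator_iff measurableSet_closedBall]
    exact integrableOn_const (measure_closedBall_lt_top.ne)
  · intro n
    refine Eventually.of_forall fun x => ?_
    rw [Circle.norm_smul]
    unfold ex
    by_cases hx : x ∈ E n
    · rw [indicator_of_mem hx, indicator_of_mem (hR n hx)]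
      simp
    · rw [indicator_of_notMem hx, norm_zero]
      exact indicator_nonneg (fun _ _ => zero_le_one) _
  · filter_upwards [hae] with x hx
    refine tendsto_const_nhds.congr' ?_
    by_cases hx0 : x ∈ E0
    · filter_upwards [hx.1 hx0] with n hn
      unfold ex
      rw [indicator_of_mem hx0, indicator_of_mem hn]
    · filter_upwards [hx.2 hx0] with n hn
      unfold ex
      rw [indicator_of_notMem hx0, indicator_of_notMem hn]

/-- **Closedness**, for sequences which converge almost everywhere. -/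
theorem closed_ae {E : ℕ → Set ℂ} {E0 : Set ℂ} {lam : ℕ → ℝ} {l0 R : ℝ} (hR0 : 0 ≤ R)
    (hm : ∀ n, MeasurableSet (E n)) (hR : ∀ n, E n ⊆ Metric.closedBall 0 R) (hl : ∀ n, 0 < lam n)
    (hS : ∀ n, Slv (E n) (lam n)) (hlim : Tendsto lam atTop (𝓝 l0))
    (ha : Adm E0)
    (hae : ∀ᵐ x : ℂ, (x ∈ E0 → ∀ᶠ n in atTop, x ∈ E n) ∧ (x ∉ E0 → ∀ᶠ n in atTop, x ∉ E n)) :
    Slv E0 l0 := by
  obtain ⟨ho, hb0, hne, hfr⟩ := ha
  have hb : ∀ n, Bornology.IsBounded (E n) := fun n => Metric.isBounded_closedBall.subset (hR n)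
  choose w hw1 hw2 hw3 using fun n => exists_w (hm n) (hb n) (hl n) (hS n)
  obtain ⟨Λ, hΛ⟩ := hlim.bddAbove_range
  have hΛn : ∀ n, lam n ≤ Λ := fun n => hΛ ⟨n, rfl⟩
  set V := (volume (Metric.closedBall (0 : ℂ) R)).toReal with hV
  have hVn : ∀ n, (volume (E n)).toReal ≤ V := fun n =>
    ENNReal.toReal_mono measure_closedBall_lt_top.ne (measure_mono (hR n))
  set K := KK Λ R V with hK
  have hbd : ∀ᵐ ξ : ℂ, ∀ n, ‖(𝓕 (w n) : H) ξ‖ ≤ K * (1 + ‖ξ‖ ^ 2)⁻¹ := by
    rw [ae_all_iff]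
    intro n
    filter_upwards [w_bound (hm n) (hb n) (hR n) (hl n) (hS n) (hw3 n)] with ξ hξ
    have h1 := hξ.trans (KK_mono (hl n).le (hΛn n) hR0 ENNReal.toReal_nonneg (hVn n))
    have h2 : (0 : ℝ) < 1 + ‖ξ‖ ^ 2 := by positivity
    rw [← div_eq_mul_inv, le_div_iff₀ h2]
    exact h1
  set F0 : ℂ → ℂ := fun ξ => (l0 : ℂ) * hat E0 ξ / ((4 * Real.pi ^ 2 * ‖ξ‖ ^ 2 - l0 : ℝ) : ℂ) with hF0
  have hsph : ∀ᵐ ξ : ℂ, 4 * Real.pi ^ 2 * ‖ξ‖ ^ 2 - l0 ≠ 0 := by
    have h1 : ∀ᵐ ξ : ℂ, ξ ∉ Metric.sphere (0 : ℂ) (Real.sqrt l0 / (2 * Real.pi)) :=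
      measure_eq_zero_iff_ae_notMem.1 (Measure.addHaar_sphere volume 0 _)
    filter_upwards [h1] with ξ hξ h
    apply hξ
    have hpi := Real.pi_pos
    rw [mem_sphere_zero_iff_norm]
    have h2 : (2 * Real.pi * ‖ξ‖) ^ 2 = l0 := by nlinarith
    have h3 : 2 * Real.pi * ‖ξ‖ = Real.sqrt l0 := by
      rw [← h2, Real.sqrt_sq (by positivity)]
    rw [← h3]
    field_simp
  have hlimF : ∀ᵐ ξ : ℂ, Tendsto (fun n => (𝓕 (w n) : H) ξ) atTop (𝓝 (F0 ξ)) := by
    have h1 : ∀ᵐ ξ : ℂ, ∀ n, ((4 * Real.pi ^ 2 * ‖ξ‖ ^ 2 - lam n : ℝ) : ℂ) * (𝓕 (w n) : H) ξ =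
        (lam n : ℂ) * hat (E n) ξ := by
      rw [ae_all_iff]
      intro n
      filter_upwards [hw3 n, hat_ft (hm n) (hb n)] with ξ e1 e2
      rw [← e2]
      exact e1
    filter_upwards [h1, hsph] with ξ e1 e2
    have h3 : Tendsto (fun n => 4 * Real.pi ^ 2 * ‖ξ‖ ^ 2 - lam n) atTop
        (𝓝 (4 * Real.pi ^ 2 * ‖ξ‖ ^ 2 - l0)) := tendsto_const_nhds.sub hlim
    have h4 : ∀ᶠ n in atTop, 4 * Real.pi ^ 2 * ‖ξ‖ ^ 2 - lam n ≠ 0 := h3.eventually_ne e2
    have h5 : Tendsto (fun n => (lam n : ℂ) * hat (E n) ξ /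
        ((4 * Real.pi ^ 2 * ‖ξ‖ ^ 2 - lam n : ℝ) : ℂ)) atTop (𝓝 (F0 ξ)) := by
      rw [hF0]
      refine Tendsto.div ?_ ?_ (Complex.ofReal_ne_zero.2 e2)
      · exact ((Complex.continuous_ofReal.tendsto l0).comp hlim).mul (hat_tendsto hm hR hae ξ)
      · exact (Complex.continuous_ofReal.tendsto _).comp h3
    refine h5.congr' ?_
    filter_upwards [h4] with n hn
    rw [← e1 n, mul_div_assoc, mul_comm, div_mul_cancel₀]
    exact Complex.ofReal_ne_zero.2 hn
  have hF0m : AEStronglyMeasurable F0 (volume : Measure ℂ) :=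
    aestronglyMeasurable_of_tendsto_ae atTop (fun n => (Lp.memLp (𝓕 (w n) : H)).1) hlimF
  have hF0b : ∀ᵐ ξ : ℂ, ‖F0 ξ‖ ≤ K * (1 + ‖ξ‖ ^ 2)⁻¹ := by
    filter_upwards [hlimF, hbd] with ξ e1 e2
    exact le_of_tendsto e1.norm (Eventually.of_forall e2)
  have hF0L : MemLp F0 2 (volume : Measure ℂ) := by
    refine (dom_mem K).mono hF0m ?_
    filter_upwards [hF0b] with ξ hξ
    exact hξ.trans (le_abs_self _)
  set w0 : H := 𝓕⁻ (hF0L.toLp F0) with hw0
  have hw0F : (𝓕 w0 : H) = hF0L.toLp F0 := by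
    rw [hw0, FourierTransform.fourier_fourierInv_eq]
  have hw0e : ((𝓕 w0 : H) : ℂ → ℂ) =ᵐ[volume] F0 := by
    rw [hw0F]
    exact hF0L.coeFn_toLp
  -- strong convergence
  have hconv : Tendsto w atTop (𝓝 w0) := by
    rw [tendsto_iff_norm_sub_tendsto_zero]
    have h1 : ∀ n, ENNReal.ofReal (‖w n - w0‖ ^ 2) =
        ∫⁻ ξ : ℂ, ‖(𝓕 (w n) : H) ξ - F0 ξ‖ₑ ^ 2 := by
      intro n
      have e1 : ‖w n - w0‖ = ‖(𝓕 (w n) : H) - 𝓕 w0‖ := by
        rw [← Lp.norm_fourier_eq (w n - w0)]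
        congr 1
        rw [sub_eq_add_neg, FourierTransform.fourier_add, FourierTransform.fourier_neg,
          ← sub_eq_add_neg]
      rw [e1, ← norm_sq_eq]
      refine lintegral_congr_ae ?_
      filter_upwards [Lp.coeFn_sub (𝓕 (w n) : H) (𝓕 w0), hw0e] with ξ a1 a2
      rw [a1, Pi.sub_apply, a2]
    have h2 : Tendsto (fun n => ∫⁻ ξ : ℂ, ‖(𝓕 (w n) : H) ξ - F0 ξ‖ₑ ^ 2) atTop
        (𝓝 (∫⁻ _ : ℂ, 0)) := by
      refine tendsto_lintegral_of_dominated_convergence'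
        (fun ξ => ENNReal.ofReal ((2 * K * (1 + ‖ξ‖ ^ 2)⁻¹) ^ 2)) ?_ ?_ ?_ ?_
      · intro n
        exact ((Lp.memLp (𝓕 (w n) : H)).1.sub hF0m).enorm.pow_const 2
      · intro n
        filter_upwards [hbd, hF0b] with ξ a1 a2
        rw [← ofReal_norm, ← ENNReal.ofReal_pow (norm_nonneg _)]
        refine ENNReal.ofReal_le_ofReal (pow_le_pow_left₀ (norm_nonneg _) ?_ 2)
        refine (norm_sub_le _ _).trans ?_
        have := a1 n
        linarith
      · have h3 := (dom_mem (2 * K)).integrable_sq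
        have h4 := h3.lintegral_lt_top
        exact h4.ne
      · filter_upwards [hlimF] with ξ a1
        have h3 : Tendsto (fun n => (𝓕 (w n) : H) ξ - F0 ξ) atTop (𝓝 0) := by
          have := a1.sub_const (F0 ξ)
          simpa using this
        have h4 : Tendsto (fun n => ‖(𝓕 (w n) : H) ξ - F0 ξ‖ₑ) atTop (𝓝 0) := by
          have := h3.enorm
          simpa using this
        have h5 := ((ENNReal.continuous_pow 2).tendsto 0).comp h4
        simpa [Function.comp_def] using h5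
    rw [lintegral_zero] at h2
    simp only [← h1] at h2
    have h3 : Tendsto (fun n => ‖w n - w0‖ ^ 2) atTop (𝓝 0) := by
      have := (ENNReal.tendsto_toReal ENNReal.zero_ne_top).comp h2
      refine this.congr fun n => ?_
      simp only [Function.comp]
      rw [ENNReal.toReal_ofReal (sq_nonneg _)]
    have h4 := (Real.continuous_sqrt.tendsto 0).comp h3
    rw [Real.sqrt_zero] at h4
    refine h4.congr fun n => ?_
    simp only [Function.comp]
    rw [Real.sqrt_sq (norm_nonneg _)]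
  obtain ⟨ns, hns, hsub⟩ := (tendstoInMeasure_of_tendsto_Lp hconv).exists_seq_tendsto_ae
  have hall1 : ∀ᵐ x : ℂ, ∀ n, x ∉ E n → w n x = 0 := ae_all_iff.2 hw1
  have hall2 : ∀ᵐ x : ℂ, ∀ n, (w n x).im = 0 := ae_all_iff.2 hw2
  refine slv_of_w (w := w0) ho hb0 hne hfr ?_ ?_ ?_
  · filter_upwards [hsub, hall1, hae] with x a1 a2 a3 hx
    refine tendsto_nhds_unique a1 ?_
    refine tendsto_const_nhds.congr' ?_
    filter_upwards [hns.tendsto_atTop.eventually (a3.2 hx)] with n hn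
    exact (a2 (ns n) hn).symm
  · filter_upwards [hsub, hall2] with x a1 a2
    have h1 := (Complex.continuous_im.tendsto _).comp a1
    refine tendsto_nhds_unique h1 ?_
    refine tendsto_const_nhds.congr' (Eventually.of_forall fun n => ?_)
    exact (a2 (ns n)).symm
  · filter_upwards [hw0e, hat_ft ho.measurableSet hb0, hsph] with ξ a1 a2 a3
    rw [a1, a2]
    simp only [hF0]
    rw [mul_div_assoc', mul_comm, mul_div_assoc, div_self (Complex.ofReal_ne_zero.2 a3), mul_one]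

theorem oneH_coe {A : Set ℂ} (hA : MeasurableSet A) (hbA : Bornology.IsBounded A) :
    ∀ᵐ x : ℂ, (oneH A hA hbA) x = ex A (fun _ => 1) x := by
  unfold oneH
  exact (one_mem hA hbA).coeFn_toLp

theorem oneH_sub {A B : Set ℂ} (hA : MeasurableSet A) (hbA : Bornology.IsBounded A)
    (hB : MeasurableSet B) (hbB : Bornology.IsBounded B) :
    ENNReal.ofReal (‖oneH A hA hbA - oneH B hB hbB‖ ^ 2) = volume (symmDiff A B) := by
  rw [← norm_sq_eq, ← lintegral_indicator_one (hA.symmDiff hB)]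
  refine lintegral_congr_ae ?_
  filter_upwards [oneH_coe hA hbA, oneH_coe hB hbB, Lp.coeFn_sub (oneH A hA hbA) (oneH B hB hbB)]
    with x e1 e2 e3
  rw [e3, Pi.sub_apply, e1, e2]
  unfold ex
  by_cases hxA : x ∈ A
  · by_cases hxB : x ∈ B
    · rw [indicator_of_mem hxA, indicator_of_mem hxB, indicator_of_notMem]
      · simp
      · rw [mem_symmDiff]
        tauto
    · rw [indicator_of_mem hxA, indicator_of_notMem hxB, indicator_of_mem]
      · simp
      · rw [mem_symmDiff]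
        tauto
  · by_cases hxB : x ∈ B
    · rw [indicator_of_notMem hxA, indicator_of_mem hxB, indicator_of_mem]
      · simp
      · rw [mem_symmDiff]
        tauto
    · rw [indicator_of_notMem hxA, indicator_of_notMem hxB, indicator_of_notMem]
      · simp
      · rw [mem_symmDiff]
        tauto

/-- **Closedness**, for sequences which converge in measure. -/
theorem closed_meas {E : ℕ → Set ℂ} {E0 : Set ℂ} {lam : ℕ → ℝ} {l0 R : ℝ} (hR0 : 0 ≤ R)
    (hm : ∀ n, MeasurableSet (E n)) (hR : ∀ n, E n ⊆ Metric.closedBall 0 R) (hl : ∀ n, 0 < lam n)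
    (hS : ∀ n, Slv (E n) (lam n)) (hlim : Tendsto lam atTop (𝓝 l0))
    (ha : Adm E0) (hsd : Tendsto (fun n => volume (symmDiff (E n) E0)) atTop (𝓝 0)) :
    Slv E0 l0 := by
  have hm0 := ha.1.measurableSet
  have hb0 := ha.2.1
  have hb : ∀ n, Bornology.IsBounded (E n) := fun n => Metric.isBounded_closedBall.subset (hR n)
  have hconv : Tendsto (fun n => oneH (E n) (hm n) (hb n)) atTop (𝓝 (oneH E0 hm0 hb0)) := by
    rw [tendsto_iff_norm_sub_tendsto_zero]
    have h3 : Tendsto (fun n => ‖oneH (E n) (hm n) (hb n) - oneH E0 hm0 hb0‖ ^ 2) atTop (𝓝 0) := by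
      have := (ENNReal.tendsto_toReal ENNReal.zero_ne_top).comp hsd
      refine this.congr fun n => ?_
      simp only [Function.comp]
      rw [← oneH_sub (hm n) (hb n) hm0 hb0, ENNReal.toReal_ofReal (sq_nonneg _)]
    have h4 := (Real.continuous_sqrt.tendsto 0).comp h3
    rw [Real.sqrt_zero] at h4
    refine h4.congr fun n => ?_
    simp only [Function.comp]
    rw [Real.sqrt_sq (norm_nonneg _)]
  obtain ⟨ns, hns, hsub⟩ := (tendstoInMeasure_of_tendsto_Lp hconv).exists_seq_tendsto_ae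
  refine closed_ae (E := fun n => E (ns n)) (lam := fun n => lam (ns n)) hR0 (fun n => hm _)
    (fun n => hR _) (fun n => hl _) (fun n => hS _) (hlim.comp hns.tendsto_atTop) ha ?_
  have hall : ∀ᵐ x : ℂ, ∀ n, (oneH (E n) (hm n) (hb n)) x = ex (E n) (fun _ => 1) x :=
    ae_all_iff.2 fun n => oneH_coe (hm n) (hb n)
  filter_upwards [hsub, hall, oneH_coe hm0 hb0] with x a1 a2 a3
  rw [a3] at a1
  simp only [a2] at a1
  have h5 : ∀ᶠ n in atTop, dist (ex (E (ns n)) (fun _ => 1) x) (ex E0 (fun _ => 1) x) < 1 :=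
    (Metric.tendsto_nhds.1 a1) 1 one_pos
  constructor
  · intro hx
    filter_upwards [h5] with n hn
    by_contra hh
    unfold ex at hn
    rw [indicator_of_mem hx, indicator_of_notMem hh] at hn
    simp at hn
  · intro hx
    filter_upwards [h5] with n hn
    intro hh
    unfold ex at hn
    rw [indicator_of_notMem hx, indicator_of_mem hh] at hn
    simp at hn

end Pool.Agent.X103.Cm
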