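import Pool.Agent.X103.CmB
import Pool.Agent.TH298.GB.Fin

/-!
# Dilations of solutions
-/

set_option autoImplicit false

open MeasureTheory Set Filter Topology
open scoped Pointwise

noncomputable section

namespace Pool.Agent.X103.Cm

open Pool.Agent.X103.Nest Pool.Agent.TH298.Sch

theorem memLp_dil {E : Type*} [NormedAddCommGroup E] {f : ℂ → E} (hf : MemLp f 2 volume) {s : ℝ}
    (hs : 0 < s) : MemLp (fun x : ℂ => f (s • x)) 2 volume := by
  have hmap : (volume : Measure ℂ).map (fun x : ℂ => s • x) =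
      ENNReal.ofReal |(s ^ Module.finrank ℝ ℂ)⁻¹| • volume :=
    Measure.map_addHaar_smul volume hs.ne'
  have h1 : MemLp f 2 ((volume : Measure ℂ).map (fun x : ℂ => s • x)) := by
    rw [hmap]
    exact hf.smul_measure ENNReal.ofReal_ne_top
  have hc : Continuous fun x : ℂ => s • x := by fun_prop
  exact (memLp_map_measure_iff h1.1 hc.aemeasurable).1 h1

variable {Ω : Set ℂ} {lam c : ℝ} {u : ℂ → ℝ} {G : ℂ → ℂ}

theorem dil_sol (h : Sol Ω lam c u G) (hm : MeasurableSet Ω) {s : ℝ} (hs : 0 < s) :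
    Sol ((fun x : ℂ => s • x) ⁻¹' Ω) (s ^ 2 * lam) c (fun x => u (s • x))
      (fun x => s • G (s • x)) := by
  have hc : Continuous fun x : ℂ => s • x := by fun_prop
  have hm' : MeasurableSet ((fun x : ℂ => s • x) ⁻¹' Ω) := hc.measurable hm
  have himg : s • ((fun x : ℂ => s • x) ⁻¹' Ω) = Ω := by
    ext x
    rw [mem_smul_set]
    constructor
    · rintro ⟨y, hy, rfl⟩
      exact hy
    · intro hx
      refine ⟨s⁻¹ • x, ?_, ?_⟩
      · show s • (s⁻¹ • x) ∈ Ω
        rwa [smul_inv_smul₀ hs.ne']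
      · exact smul_inv_smul₀ hs.ne' x
  have cv : ∀ g : ℂ → ℝ, ∫ x in (fun x : ℂ => s • x) ⁻¹' Ω, g (s • x) =
      (s ^ 2)⁻¹ * ∫ x in Ω, g x := by
    intro g
    have := Measure.setIntegral_comp_smul_of_pos (volume : Measure ℂ) g
      ((fun x : ℂ => s • x) ⁻¹' Ω) hs
    rw [himg, Complex.finrank_real_complex] at this
    exact this
  have hψ : ∀ φ : ℂ → ℝ, ContDiff ℝ 1 φ → HasCompactSupport φ →
      ContDiff ℝ 1 (fun y : ℂ => φ (s⁻¹ • y)) ∧ HasCompactSupport (fun y : ℂ => φ (s⁻¹ • y)) ∧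
      ∀ x v, fderiv ℝ (fun y : ℂ => φ (s⁻¹ • y)) (s • x) v = s⁻¹ * fderiv ℝ φ x v := by
    intro φ h1 h2
    refine ⟨h1.comp (by fun_prop), ?_, ?_⟩
    · exact h2.comp_homeomorph (Homeomorph.smulOfNeZero s⁻¹ (inv_ne_zero hs.ne'))
    · intro x v
      have hI : HasFDerivAt (fun y : ℂ => s⁻¹ • y) (s⁻¹ • (ContinuousLinearMap.id ℝ ℂ))
          (s • x) := (hasFDerivAt_id (𝕜 := ℝ) (s • x)).const_smul s⁻¹
      have h3 : HasFDerivAt (fun y : ℂ => φ (s⁻¹ • y))
          ((fderiv ℝ φ (s⁻¹ • (s • x))).comp (s⁻¹ • (ContinuousLinearMap.id ℝ ℂ))) (s • x) :=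
        (h1.differentiable one_ne_zero (s⁻¹ • (s • x))).hasFDerivAt.comp (s • x) hI
      rw [h3.fderiv, inv_smul_smul₀ hs.ne']
      simp
  refine ⟨?_, ?_, ?_, ?_⟩
  · have h1 : MemLp (Ω.indicator u) 2 volume := (memLp_indicator_iff_restrict hm).2 h.u2
    have h2 := memLp_dil h1 hs
    have h3 : (fun x : ℂ => Ω.indicator u (s • x)) =
        ((fun x : ℂ => s • x) ⁻¹' Ω).indicator fun x => u (s • x) := by
      funext x
      rfl
    rw [h3] at h2
    exact (memLp_indicator_iff_restrict hm').1 h2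
  · have h1 : MemLp (Ω.indicator G) 2 volume := (memLp_indicator_iff_restrict hm).2 h.G2
    have h2 := memLp_dil h1 hs
    have h3 : (fun x : ℂ => Ω.indicator G (s • x)) =
        ((fun x : ℂ => s • x) ⁻¹' Ω).indicator fun x => G (s • x) := by
      funext x
      rfl
    rw [h3] at h2
    exact ((memLp_indicator_iff_restrict hm').1 h2).const_smul s
  · intro φ hφ hφc v
    obtain ⟨k1, k2, k3⟩ := hψ φ hφ hφc
    have e := h.h1 _ k1 k2 v
    have e1 := cv (fun y => (u y - c) * fderiv ℝ (fun y : ℂ => φ (s⁻¹ • y)) y v)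
    have e2 := cv (fun y => (inner ℝ (G y) v : ℝ) * φ (s⁻¹ • y))
    simp only [k3, inv_smul_smul₀ hs.ne'] at e1 e2
    rw [e] at e1
    have e3 : ∫ x in (fun x : ℂ => s • x) ⁻¹' Ω, (u (s • x) - c) * (s⁻¹ * fderiv ℝ φ x v) =
        s⁻¹ * ∫ x in (fun x : ℂ => s • x) ⁻¹' Ω, (u (s • x) - c) * fderiv ℝ φ x v := by
      rw [← integral_const_mul]
      refine integral_congr_ae (Eventually.of_forall fun x => ?_)
      simp only
      ring
    have e4 : ∫ x in (fun x : ℂ => s • x) ⁻¹' Ω, (inner ℝ (s • G (s • x)) v : ℝ) * φ x =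
        s * ∫ x in (fun x : ℂ => s • x) ⁻¹' Ω, (inner ℝ (G (s • x)) v : ℝ) * φ x := by
      rw [← integral_const_mul]
      refine integral_congr_ae (Eventually.of_forall fun x => ?_)
      simp only
      rw [real_inner_smul_left]
      ring
    rw [e3] at e1
    rw [e4, e2]
    have e5 : ∫ x in (fun x : ℂ => s • x) ⁻¹' Ω, (u (s • x) - c) * fderiv ℝ φ x v =
        s * (s⁻¹ * ∫ x in (fun x : ℂ => s • x) ⁻¹' Ω, (u (s • x) - c) * fderiv ℝ φ x v) := by
      field_simp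
    rw [e5, e1]
    ring
  · intro φ hφ hφc
    obtain ⟨k1, k2, k3⟩ := hψ φ hφ hφc
    have e := h.h2 _ k1 k2
    have e1 := cv (fun y => fderiv ℝ (fun y : ℂ => φ (s⁻¹ • y)) y (G y))
    have e2 := cv (fun y => u y * φ (s⁻¹ • y))
    simp only [k3, inv_smul_smul₀ hs.ne'] at e1 e2
    rw [e] at e1
    have e3 : ∫ x in (fun x : ℂ => s • x) ⁻¹' Ω, fderiv ℝ φ x (s • G (s • x)) =
        s ^ 2 * ∫ x in (fun x : ℂ => s • x) ⁻¹' Ω, s⁻¹ * fderiv ℝ φ x (G (s • x)) := by
      rw [← integral_const_mul]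
      refine integral_congr_ae (Eventually.of_forall fun x => ?_)
      simp only
      rw [map_smul, smul_eq_mul]
      field_simp
    rw [e3, e1, e2]
    ring

/-- similar sets -/
def sim (s : ℝ) (p : ℂ) (Ω : Set ℂ) : Set ℂ := (fun x : ℂ => s • x + p) ⁻¹' Ω

theorem slv_sim (ho : IsOpen Ω) (hS : Slv Ω lam) {s : ℝ} (hs : 0 < s) (p : ℂ) :
    Slv (sim s p Ω) (s ^ 2 * lam) := by
  obtain ⟨c, u, G, h, hu⟩ := hS
  have h1 := Pool.Agent.TH298.GB.trans_sol h ho.measurableSet p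
  have ho1 : IsOpen ((fun x : ℂ => x + p) ⁻¹' Ω) := ho.preimage (by fun_prop)
  have h2 := dil_sol h1 ho1.measurableSet hs
  refine ⟨c, fun x => u (s • x + p), fun x => s • G (s • x + p), h2, ?_⟩
  intro h3
  apply hu
  have hmm : MeasurableSet (sim s p Ω) := (ho.preimage (by fun_prop)).measurableSet
  have h4 : ∀ᵐ x : ℂ, x ∈ sim s p Ω → u (s • x + p) = 0 := (ae_restrict_iff' hmm).1 h3
  have h5 : ∀ᵐ x : ℂ, x ∈ Ω → u x = 0 := by
    have h6 : ∀ᵐ x : ℂ, s⁻¹ • (x - p) ∈ sim s p Ω → u (s • (s⁻¹ • (x - p)) + p) = 0 := by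
      have hq1 : Measure.QuasiMeasurePreserving (fun x : ℂ => x - p) volume volume :=
        (measurePreserving_sub_right volume p).quasiMeasurePreserving
      have hq2 : Measure.QuasiMeasurePreserving (fun x : ℂ => s⁻¹ • x) volume volume := by
        refine ⟨by fun_prop, ?_⟩
        rw [Measure.map_addHaar_smul volume (inv_ne_zero hs.ne')]
        exact Measure.smul_absolutelyContinuous
      exact (hq2.comp hq1).ae h4
    filter_upwards [h6] with x hx hxΩ
    have e : s • (s⁻¹ • (x - p)) + p = x := by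
      rw [smul_inv_smul₀ hs.ne', sub_add_cancel]
    rw [e] at hx
    refine hx ?_
    show s • (s⁻¹ • (x - p)) + p ∈ Ω
    rwa [e]
  exact (ae_restrict_iff' ho.measurableSet).2 h5

end Pool.Agent.X103.Cm
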