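import Pool.Agent.X103.Kern

/-!
# Convolutions: Laplacian and an `L²` estimate (helper103)
-/

set_option autoImplicit false

open MeasureTheory Set Filter Topology InnerProductSpace
open scoped Laplacian ENNReal

namespace Pool.Agent.X103.ConvLap

open Pool.Agent.X103.Kern

variable {n : ℕ}

/-- Convolution. -/
noncomputable def cv (h K : E n → ℝ) : E n → ℝ :=
  convolution h K (ContinuousLinearMap.lsmul ℝ ℝ) volume

lemma cv_apply (h K : E n → ℝ) (x : E n) : cv h K x = ∫ t, h t * K (x - t) := rfl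

lemma cv_swap (h K : E n → ℝ) (x : E n) : cv h K x = ∫ t, h (x - t) * K t := by
  rw [cv_apply, ← integral_sub_left_eq_self _ volume x]
  simp

/-- Directional derivative of a function. -/
noncomputable def dv (K : E n → ℝ) (v : E n) : E n → ℝ := fun y => fderiv ℝ K y v

lemma dv_smooth {K : E n → ℝ} (hK : ContDiff ℝ (⊤ : ℕ∞) K) (v : E n) :
    ContDiff ℝ (⊤ : ℕ∞) (dv K v) :=
  (hK.fderiv_right (m := (⊤ : ℕ∞)) (by simp)).clm_apply contDiff_const

lemma dv_supp {K : E n → ℝ} (hK : HasCompactSupport K) (v : E n) : HasCompactSupport (dv K v) :=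
  (hK.fderiv (𝕜 := ℝ)).comp_left (g := fun L : E n →L[ℝ] ℝ => L v) (by simp)

lemma cv_smooth {h K : E n → ℝ} (hh : LocallyIntegrable h volume) (hK : ContDiff ℝ (⊤ : ℕ∞) K)
    (hc : HasCompactSupport K) : ContDiff ℝ (⊤ : ℕ∞) (cv h K) :=
  hc.contDiff_convolution_right _ hh hK

lemma cv_fderiv {h K : E n → ℝ} (hh : LocallyIntegrable h volume) (hK : ContDiff ℝ (⊤ : ℕ∞) K)
    (hc : HasCompactSupport K) (x v : E n) : fderiv ℝ (cv h K) x v = cv h (dv K v) x := by
  have hK1 : ContDiff ℝ 1 K := by exact_mod_cast contDiff_infty.1 hK 1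
  have h1 := hc.hasFDerivAt_convolution_right (ContinuousLinearMap.lsmul ℝ ℝ) hh hK1 x
  unfold cv
  rw [h1.fderiv, convolution_precompR_apply _ hh (hc.fderiv (𝕜 := ℝ))
    (hK1.continuous_fderiv one_ne_zero)]
  rfl

/-- Second derivative in a direction, in terms of `dv`. -/
lemma second_dv {f : E n → ℝ} (hf : ContDiff ℝ (⊤ : ℕ∞) f) (x v : E n) :
    iteratedFDeriv ℝ 2 f x ![v, v] = dv (dv f v) v x := by
  rw [iteratedFDeriv_two_apply]
  simp only [Matrix.cons_val_zero, Matrix.cons_val_one]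
  have h2 : ContDiff ℝ 1 (fderiv ℝ f) := by
    have := hf.fderiv_right (m := (⊤ : ℕ∞)) (by simp)
    exact_mod_cast contDiff_infty.1 this 1
  have h3 := (h2.differentiable one_ne_zero x).hasFDerivAt
  have h4 := h3.clm_apply (hasFDerivAt_const v x)
  unfold dv
  rw [h4.fderiv]
  simp

/-- `Δ (h * K) = h * ΔK`. -/
theorem cv_lap {h K : E n → ℝ} (hh : LocallyIntegrable h volume) (hK : ContDiff ℝ (⊤ : ℕ∞) K)
    (hc : HasCompactSupport K) (x : E n) : (Δ (cv h K)) x = cv h (Δ K) x := by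
  rw [laplacian_eq_iteratedFDeriv_orthonormalBasis _ (EuclideanSpace.basisFun (Fin n) ℝ),
    laplacian_eq_iteratedFDeriv_orthonormalBasis _ (EuclideanSpace.basisFun (Fin n) ℝ)]
  set b := EuclideanSpace.basisFun (Fin n) ℝ with hb
  have h1 : ∀ i, iteratedFDeriv ℝ 2 (cv h K) x ![b i, b i] = cv h (dv (dv K (b i)) (b i)) x := by
    intro i
    rw [second_dv (cv_smooth hh hK hc)]
    have h2 : dv (cv h K) (b i) = cv h (dv K (b i)) := funext fun y => cv_fderiv hh hK hc y _
    rw [h2]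
    exact cv_fderiv hh (dv_smooth hK _) (dv_supp hc _) x _
  simp only [h1, second_dv hK]
  simp only [cv_apply, Finset.mul_sum]
  rw [integral_finsetSum]
  intro i _
  have h3 : HasCompactSupport (dv (dv K (b i)) (b i)) := dv_supp (dv_supp hc _) _
  have h4 : Continuous (dv (dv K (b i)) (b i)) := (dv_smooth (dv_smooth hK _) _).continuous
  exact (h3.convolutionExists_right (ContinuousLinearMap.lsmul ℝ ℝ) hh h4 x)

lemma cs {α : Type*} [MeasurableSpace α] {μ : Measure α} {a b : α → ℝ≥0∞} (ha : Measurable a)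
    (hb : Measurable b) : (∫⁻ t, a t * b t ∂μ) ^ 2 ≤ (∫⁻ t, a t ∂μ) * ∫⁻ t, a t * b t ^ 2 ∂μ := by
  have hpq : Real.HolderConjugate 2 2 := Real.HolderConjugate.two_two
  have h := ENNReal.lintegral_mul_le_Lp_mul_Lq μ hpq
    (f := fun t => a t ^ (1/2 : ℝ)) (g := fun t => a t ^ (1/2 : ℝ) * b t)
    (ha.pow_const _).aemeasurable ((ha.pow_const _).mul hb).aemeasurable
  have e1 : ∀ t, (fun t => a t ^ (1/2 : ℝ)) t * (fun t => a t ^ (1/2 : ℝ) * b t) t =
      a t * b t := by
    intro t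
    simp only
    rw [← mul_assoc, ← ENNReal.rpow_add_of_nonneg _ _ (by norm_num) (by norm_num)]
    norm_num
  have e2 : ∀ t, (a t ^ (1/2 : ℝ)) ^ (2:ℝ) = a t := by
    intro t; rw [← ENNReal.rpow_mul]; norm_num
  have e3 : ∀ t, (a t ^ (1/2 : ℝ) * b t) ^ (2:ℝ) = a t * b t ^ 2 := by
    intro t
    rw [ENNReal.mul_rpow_of_nonneg _ _ (by norm_num), e2]
    norm_num
  simp only [Pi.mul_apply, e1, e2, e3] at h
  calc (∫⁻ t, a t * b t ∂μ) ^ 2 ≤ ((∫⁻ t, a t ∂μ) ^ (1/2 : ℝ) *
        (∫⁻ t, a t * b t ^ 2 ∂μ) ^ (1/2 : ℝ)) ^ 2 := by gcongr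
    _ = _ := by
        rw [mul_pow, ← ENNReal.rpow_natCast, ← ENNReal.rpow_natCast, ← ENNReal.rpow_mul,
          ← ENNReal.rpow_mul]
        norm_num

/-- Young's inequality `‖f * g‖₂² ≤ ‖f‖₁² ‖g‖₂²`. -/
theorem young {f g : E n → ℝ} (hf : Measurable f) (hg : Measurable g) :
    ∫⁻ x, ‖cv f g x‖ₑ ^ 2 ≤ (∫⁻ t, ‖f t‖ₑ) ^ 2 * ∫⁻ t, ‖g t‖ₑ ^ 2 := by
  have h1 : ∀ x, ‖cv f g x‖ₑ ^ 2 ≤ (∫⁻ t, ‖f t‖ₑ) * ∫⁻ t, ‖f t‖ₑ * ‖g (x - t)‖ₑ ^ 2 := by
    intro x
    have h2 : ‖cv f g x‖ₑ ≤ ∫⁻ t, ‖f t‖ₑ * ‖g (x - t)‖ₑ := by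
      rw [cv_apply]
      refine (enorm_integral_le_lintegral_enorm _).trans (le_of_eq ?_)
      refine lintegral_congr fun t => ?_
      rw [enorm_mul]
    refine le_trans (by gcongr) (cs (μ := volume) hf.enorm
      (hg.comp (measurable_const.sub measurable_id)).enorm)
  calc ∫⁻ x, ‖cv f g x‖ₑ ^ 2
      ≤ ∫⁻ x, (∫⁻ t, ‖f t‖ₑ) * ∫⁻ t, ‖f t‖ₑ * ‖g (x - t)‖ₑ ^ 2 := lintegral_mono h1
    _ = (∫⁻ t, ‖f t‖ₑ) * ∫⁻ x, ∫⁻ t, ‖f t‖ₑ * ‖g (x - t)‖ₑ ^ 2 := by
        rw [lintegral_const_mul'']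
        have : Measurable (Function.uncurry fun x t : E n => ‖f t‖ₑ * ‖g (x - t)‖ₑ ^ 2) :=
          (hf.enorm.comp measurable_snd).mul
            (((hg.comp (measurable_fst.sub measurable_snd)).enorm).pow_const 2)
        exact this.lintegral_prod_right'.aemeasurable
    _ = (∫⁻ t, ‖f t‖ₑ) * ∫⁻ t, ∫⁻ x, ‖f t‖ₑ * ‖g (x - t)‖ₑ ^ 2 := by
        congr 1
        refine lintegral_lintegral_swap ?_
        exact ((hf.enorm.comp measurable_snd).mul
            (((hg.comp (measurable_fst.sub measurable_snd)).enorm).pow_const 2)).aemeasurable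
    _ = (∫⁻ t, ‖f t‖ₑ) * ∫⁻ t, ‖f t‖ₑ * ∫⁻ x, ‖g x‖ₑ ^ 2 := by
        congr 1
        refine lintegral_congr fun t => ?_
        have hmt : Measurable fun x : E n => ‖g (x - t)‖ₑ ^ 2 :=
          (hg.comp (measurable_id.sub measurable_const)).enorm.pow_const 2
        rw [lintegral_const_mul _ hmt]
        congr 1
        exact lintegral_sub_right_eq_self (fun x => ‖g x‖ₑ ^ 2) t
    _ = _ := by
        rw [lintegral_mul_const _ hf.enorm]
        ring

/-- Real form. -/
theorem young_real {f g : E n → ℝ} (hf : Measurable f) (hg : Measurable g)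
    (hfi : Integrable f volume) (hg2 : Integrable (fun x => g x ^ 2) volume)
    (hm : AEStronglyMeasurable (cv f g) volume) :
    Integrable (fun x => cv f g x ^ 2) volume ∧
      ∫ x, cv f g x ^ 2 ≤ (∫ x, |f x|) ^ 2 * ∫ x, g x ^ 2 := by
  have h := young hf hg
  have e0 : ∀ (u : E n → ℝ) (x : E n), ‖u x‖ₑ ^ 2 = ENNReal.ofReal (u x ^ 2) := by
    intro u x
    rw [← ofReal_norm, ← ENNReal.ofReal_pow (norm_nonneg _), Real.norm_eq_abs, sq_abs]
  have e1 : ∫⁻ t, ‖f t‖ₑ = ENNReal.ofReal (∫ x, |f x|) := by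
    rw [ofReal_integral_eq_lintegral_ofReal hfi.abs (Eventually.of_forall fun x => abs_nonneg _)]
    refine lintegral_congr fun x => ?_
    rw [← ofReal_norm, Real.norm_eq_abs]
  have e2 : ∫⁻ t, ‖g t‖ₑ ^ 2 = ENNReal.ofReal (∫ x, g x ^ 2) := by
    rw [ofReal_integral_eq_lintegral_ofReal hg2 (Eventually.of_forall fun x => sq_nonneg _)]
    exact lintegral_congr fun x => e0 g x
  have hI : 0 ≤ ∫ x, |f x| := integral_nonneg fun x => abs_nonneg _
  rw [e1, e2, ← ENNReal.ofReal_pow hI, ← ENNReal.ofReal_mul (by positivity)] at h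
  have hint : Integrable (fun x => cv f g x ^ 2) volume := by
    refine ⟨hm.pow 2, ?_⟩
    rw [hasFiniteIntegral_iff_ofReal (Eventually.of_forall fun x => sq_nonneg _)]
    simp only [e0 (cv f g)] at h
    exact lt_of_le_of_lt h ENNReal.ofReal_lt_top
  refine ⟨hint, ?_⟩
  simp only [e0 (cv f g)] at h
  rw [← ofReal_integral_eq_lintegral_ofReal hint (Eventually.of_forall fun x => sq_nonneg _)] at h
  rwa [ENNReal.ofReal_le_ofReal_iff (mul_nonneg (by positivity)
    (integral_nonneg fun x => sq_nonneg _))] at h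

lemma cv_comm (h K : E n → ℝ) : cv h K = cv K h := by
  funext x
  rw [cv_swap, cv_apply]
  refine integral_congr_ae (Eventually.of_forall fun t => ?_)
  simp only; ring

/-- The approximate potential. -/
theorem exists_potential (hn : 3 ≤ n) {h : E n → ℝ} (hm : Measurable h) (h0 : ∀ x, 0 ≤ h x)
    {M R : ℝ} (hM : ∀ x, h x ≤ M) (hR : ∀ x, R < ‖x‖ → h x = 0) {δ η : ℝ} (hδ : 0 < δ)
    (hη : 0 < η) : ∃ w : E n → ℝ, ContDiff ℝ (⊤ : ℕ∞) w ∧ HasCompactSupport w ∧
      (∀ x, 0 ≤ w x) ∧ ∫ x, (Δ w) x ^ 2 ≤ (1 + η) * (∫ x, h x ^ 2) + η ∧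
      ∀ x c, (∀ y, ‖y‖ < δ → c ≤ h (x - y)) → c - η ≤ -(Δ w) x := by
  have hM0 : 0 ≤ M := (h0 0).trans (hM 0)
  -- integrability of `h`
  have hb : ∀ x, ‖h x‖ ≤ (Metric.closedBall (0 : E n) R).indicator (fun _ => M) x := by
    intro x
    by_cases hx : x ∈ Metric.closedBall (0 : E n) R
    · rw [indicator_of_mem hx, Real.norm_of_nonneg (h0 x)]; exact hM x
    · rw [indicator_of_notMem hx]
      rw [mem_closedBall_zero_iff] at hx
      push Not at hx
      rw [hR x hx]; simp
  have hbi : Integrable ((Metric.closedBall (0 : E n) R).indicator (fun _ => M)) volume :=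
    (integrable_indicator_iff measurableSet_closedBall).2
      (integrableOn_const measure_closedBall_lt_top.ne)
  have hhi : Integrable h volume := hbi.mono' hm.aestronglyMeasurable (Eventually.of_forall hb)
  have hh2 : Integrable (fun x => h x ^ 2) volume := by
    refine (hhi.const_mul M).mono' (hm.pow_const 2).aestronglyMeasurable
      (Eventually.of_forall fun x => ?_)
    rw [Real.norm_of_nonneg (sq_nonneg _)]
    have := h0 x
    have := hM x
    nlinarith
  have hhc : HasCompactSupport h := compact_of_zero hR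
  set H := ∫ x, |h x| with hH
  have hH0 : 0 ≤ H := integral_nonneg fun x => abs_nonneg _
  set τ : ℝ := min (η / (M + H + 1)) (η / ((1 + 1 / η) * H ^ 2 + 1)) with hτ
  have hτ0 : 0 < τ := lt_min (by positivity) (by positivity)
  have hτ1 : τ * (M + H + 1) ≤ η := by
    rw [← le_div_iff₀ (by positivity)]; exact min_le_left _ _
  have hτ2 : τ * ((1 + 1 / η) * H ^ 2 + 1) ≤ η := by
    rw [← le_div_iff₀ (by positivity)]; exact min_le_right _ _
  obtain ⟨K, Q, e, hK, hKc, hK0, hQ, hQc, hQ0, he, hec, hlap, hQ1, hQ2, heb, he2⟩ :=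
    exists_kernel hn hδ hτ0
  have hloc := hhi.locallyIntegrable
  have exQ : ∀ x, Integrable (fun t => h (x - t) * Q t) volume := by
    intro x
    have := hQc.convolutionExists_right (ContinuousLinearMap.lsmul ℝ ℝ) hloc hQ x
    exact this.integrable_swap
  have exE : ∀ x, Integrable (fun t => h (x - t) * e t) volume := by
    intro x
    have := hec.convolutionExists_right (ContinuousLinearMap.lsmul ℝ ℝ) hloc he x
    exact this.integrable_swap
  have hΔ : ∀ x, (Δ (cv h K)) x = -cv h Q x + cv h e x := by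
    intro x
    rw [cv_lap hloc hK hKc, cv_swap, cv_swap, cv_swap, ← integral_neg, ← integral_add]
    · refine integral_congr_ae (Eventually.of_forall fun t => ?_)
      simp only [hlap]; ring
    · exact (exQ x).neg
    · exact exE x
  have hQm := hQ.measurable
  have hem := he.measurable
  have hQi : Integrable Q volume := hQ.integrable_of_hasCompactSupport hQc
  have he2i : Integrable (fun x => e x ^ 2) volume := by
    have h2 : HasCompactSupport fun x => e x * e x := hec.mul_left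
    have h3 : Integrable (fun x => e x * e x) volume :=
      (he.mul he).integrable_of_hasCompactSupport h2
    simpa only [pow_two] using h3
  have hcQ : Continuous (cv h Q) := hQc.continuous_convolution_right _ hloc hQ
  have hcE : Continuous (cv h e) := hec.continuous_convolution_right _ hloc he
  obtain ⟨yQi, yQ⟩ := young_real hQm hm hQi hh2
    (by rw [← cv_comm]; exact hcQ.aestronglyMeasurable)
  rw [← cv_comm h Q] at yQi yQ
  obtain ⟨yEi, yE⟩ := young_real hm hem hhi he2i hcE.aestronglyMeasurable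
  have hQabs : ∫ x, |Q x| ≤ 1 := by
    have : (fun x => |Q x|) = Q := funext fun x => abs_of_nonneg (hQ0 x)
    rw [this]; exact hQ1
  have hT0 : 0 ≤ ∫ x, h x ^ 2 := integral_nonneg fun x => sq_nonneg _
  have yQ' : ∫ x, cv h Q x ^ 2 ≤ ∫ x, h x ^ 2 := by
    refine yQ.trans ?_
    have h1 : (∫ x, |Q x|) ^ 2 ≤ 1 :=
      pow_le_one₀ (integral_nonneg fun x => abs_nonneg _) hQabs
    exact mul_le_of_le_one_left hT0 h1
  have yE' : ∫ x, cv h e x ^ 2 ≤ H ^ 2 * τ := by
    refine yE.trans ?_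
    gcongr
  refine ⟨cv h K, cv_smooth hloc hK hKc, ?_, ?_, ?_, ?_⟩
  · exact hhc.convolution (ContinuousLinearMap.lsmul ℝ ℝ) hKc
  · intro x
    rw [cv_apply]
    exact integral_nonneg fun t => mul_nonneg (h0 _) (hK0 _)
  · have h1 : ∀ x, (Δ (cv h K)) x ^ 2 ≤
        (1 + η) * cv h Q x ^ 2 + (1 + 1 / η) * cv h e x ^ 2 := by
      intro x
      rw [hΔ x]
      set a := cv h Q x
      set b := cv h e x
      have h2 : (1 + η) * a ^ 2 + (1 + 1 / η) * b ^ 2 - (-a + b) ^ 2 = (η * a + b) ^ 2 / η := by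
        field_simp; ring
      have h3 : 0 ≤ (η * a + b) ^ 2 / η := by positivity
      linarith
    calc ∫ x, (Δ (cv h K)) x ^ 2 ≤
        ∫ x, ((1 + η) * cv h Q x ^ 2 + (1 + 1 / η) * cv h e x ^ 2) :=
          integral_mono_of_nonneg (Eventually.of_forall fun x => sq_nonneg _)
            ((yQi.const_mul _).add (yEi.const_mul _)) (Eventually.of_forall h1)
      _ = (1 + η) * (∫ x, cv h Q x ^ 2) + (1 + 1 / η) * ∫ x, cv h e x ^ 2 := by
          rw [integral_add (yQi.const_mul _) (yEi.const_mul _), integral_const_mul,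
            integral_const_mul]
      _ ≤ (1 + η) * (∫ x, h x ^ 2) + (1 + 1 / η) * (H ^ 2 * τ) := by gcongr
      _ ≤ _ := by nlinarith
  · intro x c hc
    rw [hΔ x]
    have hE : |cv h e x| ≤ H * τ := by
      rw [cv_apply]
      calc |∫ t, h t * e (x - t)| ≤ ∫ t, |h t * e (x - t)| := abs_integral_le_integral_abs
        _ ≤ ∫ t, |h t| * τ := by
            refine integral_mono_of_nonneg (Eventually.of_forall fun t => abs_nonneg _)
              (hhi.abs.mul_const _) (Eventually.of_forall fun t => ?_)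
            simp only [abs_mul]
            exact mul_le_mul_of_nonneg_left (heb _) (abs_nonneg _)
        _ = H * τ := integral_mul_const _ _
    have hQx0 : 0 ≤ cv h Q x := by
      rw [cv_apply]; exact integral_nonneg fun t => mul_nonneg (h0 _) (hQ0 _)
    have hQx : c - M * τ ≤ cv h Q x := by
      rcases le_or_gt c 0 with hc0 | hc0
      · have : 0 ≤ M * τ := by positivity
        linarith
      · have hcM : c ≤ M := by
          have h1 := hc 0 (by simpa using hδ)
          exact h1.trans (hM _)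
        rw [cv_swap]
        calc c - M * τ ≤ c * (1 - τ) := by nlinarith
          _ ≤ c * ∫ y in Metric.ball (0 : E n) δ, Q y := by gcongr
          _ = ∫ y in Metric.ball (0 : E n) δ, c * Q y := (integral_const_mul _ _).symm
          _ ≤ ∫ y in Metric.ball (0 : E n) δ, h (x - y) * Q y := by
              refine setIntegral_mono_on (hQi.const_mul c).integrableOn (exQ x).integrableOn
                measurableSet_ball fun y hy => ?_
              exact mul_le_mul_of_nonneg_right (hc y (by simpa using hy)) (hQ0 y)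
          _ ≤ ∫ y, h (x - y) * Q y :=
              setIntegral_le_integral (exQ x)
                (Eventually.of_forall fun y => mul_nonneg (h0 _) (hQ0 _))
    have h5 := le_abs_self (cv h e x)
    nlinarith

end Pool.Agent.X103.ConvLap
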