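import Pool.Agent.X103.CircMeas

/-!
# The Siciak-Zaharjuta function of the closed unit disc and its Laplacian (helper103)
-/

set_option autoImplicit false

open MeasureTheory Filter Topology Set ComplexConjugate
open scoped ENNReal InnerProductSpace Laplacian

namespace Pool.Agent.X103.DiscPot

open Pool.Agent.X103.CircMeas

/-- The unit vector `e^{iθ}`. -/
noncomputable def eb (θ : ℝ) : ℂ := Complex.exp (θ * Complex.I)

lemma norm_eb (θ : ℝ) : ‖eb θ‖ = 1 := Complex.norm_exp_ofReal_mul_I θ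

lemma cont_eb : Continuous eb := by unfold eb; fun_prop

lemma deriv_eb (θ : ℝ) : HasDerivAt eb (Complex.I * eb θ) θ := by
  have h1 : HasDerivAt (fun θ : ℝ => (θ : ℂ) * Complex.I) (1 * Complex.I) θ :=
    (Complex.ofRealCLM.hasDerivAt (x := θ)).mul_const _
  have h2 := h1.cexp
  refine h2.congr_deriv ?_
  rw [eb]; ring

section

variable {φ : ℂ → ℝ}

/-- The Laplacian at a point through the orthonormal frame `e, ie`. -/
lemma lap_frame (hφ : ContDiff ℝ 2 φ) (z : ℂ) (θ : ℝ) :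
    Δ φ z = fderiv ℝ (fderiv ℝ φ) z (eb θ) (eb θ)
      + fderiv ℝ (fderiv ℝ φ) z (Complex.I * eb θ) (Complex.I * eb θ) := by
  rw [InnerProductSpace.laplacian_eq_iteratedFDeriv_complexPlane]
  simp only [iteratedFDeriv_two_apply, Matrix.cons_val_zero, Matrix.cons_val_one]
  have hsymm : fderiv ℝ (fderiv ℝ φ) z 1 Complex.I = fderiv ℝ (fderiv ℝ φ) z Complex.I 1 := by
    have h1 : ∀ᶠ y in 𝓝 z, HasFDerivAt φ (fderiv ℝ φ y) y := Eventually.of_forall fun y =>
      (hφ.differentiable (by norm_num) y).hasFDerivAt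
    have h2 : HasFDerivAt (fderiv ℝ φ) (fderiv ℝ (fderiv ℝ φ) z) z :=
      ((hφ.fderiv_right (m := 1) (by norm_num)).differentiable (by norm_num) z).hasFDerivAt
    exact second_derivative_symmetric_of_eventually h1 h2 1 Complex.I
  set c : ℝ := Real.cos θ
  set s : ℝ := Real.sin θ
  have hcs : c ^ 2 + s ^ 2 = 1 := Real.cos_sq_add_sin_sq θ
  have e1 : eb θ = c • (1 : ℂ) + s • Complex.I := by
    rw [eb, Complex.exp_mul_I, ← Complex.ofReal_cos, ← Complex.ofReal_sin]
    simp [c, s]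
  have e2 : Complex.I * eb θ = (-s) • (1 : ℂ) + c • Complex.I := by
    rw [e1]
    simp only [Complex.real_smul]
    push_cast
    ring_nf
    rw [Complex.I_sq]; ring
  rw [e2, e1]
  simp only [map_add, map_smul, add_apply, smul_apply, smul_eq_mul, hsymm]
  linear_combination (-(fderiv ℝ (fderiv ℝ φ) z 1 1) - fderiv ℝ (fderiv ℝ φ) z Complex.I Complex.I)
    * hcs

/-- Circular means and their derivatives. -/
noncomputable def Mn (φ : ℂ → ℝ) (r : ℝ) : ℝ := ∫ θ in (-Real.pi)..Real.pi, φ (r * eb θ)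

/-- The radial derivative, averaged. -/
noncomputable def Sn (φ : ℂ → ℝ) (r : ℝ) : ℝ :=
  ∫ θ in (-Real.pi)..Real.pi, fderiv ℝ φ (r * eb θ) (eb θ)

/-- The second radial derivative, averaged. -/
noncomputable def Qn (φ : ℂ → ℝ) (r : ℝ) : ℝ :=
  ∫ θ in (-Real.pi)..Real.pi, fderiv ℝ (fderiv ℝ φ) (r * eb θ) (eb θ) (eb θ)

/-- The averaged Laplacian. -/
noncomputable def Ln (φ : ℂ → ℝ) (r : ℝ) : ℝ := ∫ θ in (-Real.pi)..Real.pi, Δ φ (r * eb θ)

lemma line_deriv (r θ : ℝ) : HasDerivAt (fun r : ℝ => (r : ℂ) * eb θ) (eb θ) r := by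
  have h1 : HasDerivAt (fun r : ℝ => (r : ℂ)) 1 r := Complex.ofRealCLM.hasDerivAt (x := r)
  simpa using h1.mul_const (eb θ)

lemma bdd_fderiv {F : Type*} [NormedAddCommGroup F] [NormedSpace ℝ F] {G : ℂ → F} (hG : ContDiff ℝ 1 G)
    (hc : HasCompactSupport G) : ∃ C, ∀ z, ‖fderiv ℝ G z‖ ≤ C := by
  have hf : Continuous (fderiv ℝ G) := hG.continuous_fderiv (by norm_num)
  obtain ⟨C, hC⟩ := hc.isCompact.exists_bound_of_continuousOn hf.continuousOn
  refine ⟨max C 0, fun z => ?_⟩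
  by_cases hz : z ∈ tsupport G
  · exact (hC z hz).trans (le_max_left _ _)
  · rw [fderiv_of_notMem_tsupport ℝ hz, norm_zero]
    exact le_max_right _ _

lemma deriv_Mn (hφ : ContDiff ℝ 2 φ) (hc : HasCompactSupport φ) (r : ℝ) :
    HasDerivAt (Mn φ) (Sn φ r) r := by
  have hd : Differentiable ℝ φ := hφ.differentiable (by norm_num)
  have hf : Continuous (fderiv ℝ φ) := hφ.continuous_fderiv (by norm_num)
  obtain ⟨C, hC⟩ := bdd_fderiv (hφ.of_le (by norm_num)) hc
  have he := cont_eb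
  have key := intervalIntegral.hasDerivAt_integral_of_dominated_loc_of_deriv_le (μ := volume)
    (𝕜 := ℝ) (a := -Real.pi) (b := Real.pi) (x₀ := r) (s := univ)
    (F := fun (r θ : ℝ) => φ (r * eb θ)) (F' := fun (r θ : ℝ) => fderiv ℝ φ (r * eb θ) (eb θ))
    (bound := fun _ => C) univ_mem ?_ ?_ ?_ ?_ ?_ ?_
  · exact key.2
  · exact Eventually.of_forall fun r => Continuous.aestronglyMeasurable
      (hφ.continuous.comp (by fun_prop))
  · exact (hφ.continuous.comp (by fun_prop : Continuous fun θ : ℝ => (r : ℂ) * eb θ)).intervalIntegrable _ _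
  · exact Continuous.aestronglyMeasurable
      ((hf.comp (by fun_prop : Continuous fun θ : ℝ => (r : ℂ) * eb θ)).clm_apply he)
  · refine Eventually.of_forall fun θ _ r _ => ?_
    refine ((fderiv ℝ φ (r * eb θ)).le_opNorm _).trans ?_
    rw [norm_eb, mul_one]; exact hC _
  · exact intervalIntegrable_const
  · refine Eventually.of_forall fun θ _ r _ => ?_
    exact (hd _).hasFDerivAt.comp_hasDerivAt r (line_deriv r θ)

lemma gk3 {G : ℂ → ℂ →L[ℝ] ℝ} (hG : ContDiff ℝ 1 G) (r θ : ℝ) : HasDerivAt (fun r : ℝ => G (r * eb θ) (eb θ))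
      (fderiv ℝ G (r * eb θ) (eb θ) (eb θ)) r := by
  have hd : Differentiable ℝ G := hG.differentiable (by norm_num)
  have h1 : HasDerivAt (fun r : ℝ => G (r * eb θ)) (fderiv ℝ G (r * eb θ) (eb θ)) r :=
      (hd _).hasFDerivAt.comp_hasDerivAt r (line_deriv r θ)
  have h3 : HasFDerivAt (fun L : ℂ →L[ℝ] ℝ => L (eb θ))
        (ContinuousLinearMap.apply ℝ ℝ (eb θ)) (G (r * eb θ)) :=
      (ContinuousLinearMap.apply ℝ ℝ (eb θ)).hasFDerivAt
  exact h3.comp_hasDerivAt r h1


lemma gk2 {G : ℂ → ℂ →L[ℝ] ℝ} (hG : ContDiff ℝ 1 G) : ∀ r : ℝ, Continuous fun θ : ℝ => fderiv ℝ G (r * eb θ) (eb θ) (eb θ) := fun r => by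
  have hl : Continuous fun θ : ℝ => (r : ℂ) * eb θ := continuous_const.mul cont_eb
  have hf : Continuous (fderiv ℝ G) := hG.continuous_fderiv (by norm_num)
  exact ((hf.comp hl).clm_apply cont_eb).clm_apply cont_eb

lemma gk1 {G : ℂ → ℂ →L[ℝ] ℝ} (hG : ContDiff ℝ 1 G) : ∀ r : ℝ, Continuous fun θ : ℝ => G (r * eb θ) (eb θ) := fun r => by
  have hl : Continuous fun θ : ℝ => (r : ℂ) * eb θ := continuous_const.mul cont_eb
  have hf : Continuous G := hG.continuous
  exact (hf.comp hl).clm_apply cont_eb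

lemma ghb {G : ℂ → ℂ →L[ℝ] ℝ} {C : ℝ} (hC : ∀ z, ‖fderiv ℝ G z‖ ≤ C) (z : ℂ) (θ : ℝ) :
    ‖fderiv ℝ G z (eb θ) (eb θ)‖ ≤ C := by
  have h1 := (fderiv ℝ G z (eb θ)).le_opNorm (eb θ)
  have h2 := (fderiv ℝ G z).le_opNorm (eb θ)
  rw [norm_eb, mul_one] at h1 h2
  exact h1.trans (h2.trans (hC z))

lemma deriv_gen {G : ℂ → ℂ →L[ℝ] ℝ} (hG : ContDiff ℝ 1 G) (C : ℝ) (hC : ∀ z, ‖fderiv ℝ G z‖ ≤ C) (r : ℝ) :
    HasDerivAt (fun r : ℝ => ∫ θ in (-Real.pi)..Real.pi, G (r * eb θ) (eb θ))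
      (∫ θ in (-Real.pi)..Real.pi, fderiv ℝ G (r * eb θ) (eb θ) (eb θ)) r := by
  have a1 : ∀ᶠ x : ℝ in 𝓝 r, AEStronglyMeasurable (fun θ : ℝ => G (x * eb θ) (eb θ))
      (volume.restrict (uIoc (-Real.pi) Real.pi)) :=
    Eventually.of_forall fun r => (gk1 hG r).aestronglyMeasurable
  have a2 : IntervalIntegrable (fun θ : ℝ => G (r * eb θ) (eb θ)) volume (-Real.pi) Real.pi :=
    (gk1 hG r).intervalIntegrable _ _
  have a3 : AEStronglyMeasurable (fun θ : ℝ => fderiv ℝ G (r * eb θ) (eb θ) (eb θ))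
      (volume.restrict (uIoc (-Real.pi) Real.pi)) := (gk2 hG r).aestronglyMeasurable
  exact (intervalIntegral.hasDerivAt_integral_of_dominated_loc_of_deriv_le (μ := volume)
    (𝕜 := ℝ) (a := -Real.pi) (b := Real.pi) (x₀ := r) (s := univ)
    (F := fun (r θ : ℝ) => G (r * eb θ) (eb θ))
    (F' := fun (r θ : ℝ) => fderiv ℝ G (r * eb θ) (eb θ) (eb θ))
    (bound := fun _ => C) univ_mem
    a1 a2 a3
    (Eventually.of_forall fun θ _ r _ => ghb hC _ _) intervalIntegrable_const
    (Eventually.of_forall fun θ _ r _ => gk3 hG r θ)).2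

lemma deriv_Sn (hφ : ContDiff ℝ 2 φ) (hc : HasCompactSupport φ) (r : ℝ) :
    HasDerivAt (Sn φ) (Qn φ r) r := by
  have h1 : ContDiff ℝ 1 (fderiv ℝ φ) := hφ.fderiv_right (by norm_num)
  have h2 : HasCompactSupport (fderiv ℝ φ) := HasCompactSupport.fderiv ℝ hc
  obtain ⟨C, hC⟩ := bdd_fderiv h1 h2
  exact deriv_gen h1 C hC r

lemma Sn_eq (hφ : ContDiff ℝ 2 φ) (r : ℝ) : Sn φ r + r * Qn φ r = r * Ln φ r := by
  have hφ1 : ContDiff ℝ 1 (fderiv ℝ φ) := hφ.fderiv_right (by norm_num)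
  have hd : Differentiable ℝ (fderiv ℝ φ) := hφ1.differentiable (by norm_num)
  have hf : Continuous (fderiv ℝ (fderiv ℝ φ)) := hφ1.continuous_fderiv (by norm_num)
  have hf0 : Continuous (fderiv ℝ φ) := hφ1.continuous
  have he := cont_eb
  have hl : Continuous fun θ : ℝ => (r : ℂ) * eb θ := by fun_prop
  have hIe : Continuous fun θ : ℝ => Complex.I * eb θ := by fun_prop
  -- the tangential derivative
  have h1 : ∀ θ : ℝ, HasDerivAt (fun θ : ℝ => fderiv ℝ φ (r * eb θ) (Complex.I * eb θ))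
      (r * fderiv ℝ (fderiv ℝ φ) (r * eb θ) (Complex.I * eb θ) (Complex.I * eb θ)
        - fderiv ℝ φ (r * eb θ) (eb θ)) θ := by
    intro θ
    have h2 : HasDerivAt (fun θ : ℝ => (r : ℂ) * eb θ) (r * (Complex.I * eb θ)) θ :=
      (deriv_eb θ).const_mul _
    have h3 : HasDerivAt (fun θ : ℝ => fderiv ℝ φ (r * eb θ))
        (fderiv ℝ (fderiv ℝ φ) (r * eb θ) (r * (Complex.I * eb θ))) θ :=
      (hd _).hasFDerivAt.comp_hasDerivAt θ h2
    have h4 : HasDerivAt (fun θ : ℝ => Complex.I * eb θ) (Complex.I * (Complex.I * eb θ)) θ :=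
      (deriv_eb θ).const_mul _
    have h5 := h3.clm_apply h4
    refine h5.congr_deriv ?_
    have e1 : (r : ℂ) * (Complex.I * eb θ) = r • (Complex.I * eb θ) := by
      rw [Complex.real_smul]
    have e2 : Complex.I * (Complex.I * eb θ) = -eb θ := by
      rw [← mul_assoc, Complex.I_mul_I]; ring
    rw [e1, e2, map_smul, map_neg, smul_apply, smul_eq_mul]
    ring
  have c1 : Continuous fun θ : ℝ =>
      fderiv ℝ (fderiv ℝ φ) (r * eb θ) (Complex.I * eb θ) (Complex.I * eb θ) :=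
    ((hf.comp hl).clm_apply hIe).clm_apply hIe
  have c2 : Continuous fun θ : ℝ => fderiv ℝ φ (r * eb θ) (eb θ) := (hf0.comp hl).clm_apply he
  have c3 : Continuous fun θ : ℝ => fderiv ℝ (fderiv ℝ φ) (r * eb θ) (eb θ) (eb θ) :=
    ((hf.comp hl).clm_apply he).clm_apply he
  have c1' : Continuous fun θ : ℝ =>
      r * fderiv ℝ (fderiv ℝ φ) (r * eb θ) (Complex.I * eb θ) (Complex.I * eb θ) :=
    continuous_const.mul c1
  have h2 := intervalIntegral.integral_eq_sub_of_hasDerivAt (a := -Real.pi) (b := Real.pi)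
    (fun θ _ => h1 θ) ((c1'.sub c2).intervalIntegrable _ _)
  have hper : eb Real.pi = eb (-Real.pi) := by
    rw [eb, eb, Complex.exp_pi_mul_I]
    push_cast
    rw [neg_mul, Complex.exp_neg, Complex.exp_pi_mul_I]
    norm_num
  rw [hper, sub_self] at h2
  rw [intervalIntegral.integral_sub (c1'.intervalIntegrable _ _)
    (c2.intervalIntegrable _ _), intervalIntegral.integral_const_mul] at h2
  have h3 : Ln φ r = Qn φ r + ∫ θ in (-Real.pi)..Real.pi,
      fderiv ℝ (fderiv ℝ φ) (r * eb θ) (Complex.I * eb θ) (Complex.I * eb θ) := by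
    rw [Ln, Qn, ← intervalIntegral.integral_add (c3.intervalIntegrable _ _)
      (c1.intervalIntegrable _ _)]
    refine intervalIntegral.integral_congr fun θ _ => ?_
    exact lap_frame hφ _ θ
  rw [h3, Sn]
  linarith

/-- The distributional Laplacian of `log⁺ |z|` is `2π` times normalized arc length. -/
lemma ddc (hφ : ContDiff ℝ 2 φ) (hc : HasCompactSupport φ) :
    ∫ z : ℂ, Real.posLog ‖z‖ * Δ φ z = 2 * Real.pi * ∫ z, φ z ∂arc := by
  have hpi := Real.pi_pos
  have hφ1 : ContDiff ℝ 1 (fderiv ℝ φ) := hφ.fderiv_right (by norm_num)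
  have hf : Continuous (fderiv ℝ (fderiv ℝ φ)) := hφ1.continuous_fderiv (by norm_num)
  have hlap : Continuous (Δ φ) := by
    have : Δ φ = fun z => fderiv ℝ (fderiv ℝ φ) z (eb 0) (eb 0)
        + fderiv ℝ (fderiv ℝ φ) z (Complex.I * eb 0) (Complex.I * eb 0) :=
      funext fun z => lap_frame hφ z 0
    rw [this]
    exact ((hf.clm_apply continuous_const).clm_apply continuous_const).add
      ((hf.clm_apply continuous_const).clm_apply continuous_const)
  obtain ⟨R, hR1, hR⟩ : ∃ R : ℝ, 1 < R ∧ ∀ z : ℂ, R ≤ ‖z‖ → φ z = 0 ∧ fderiv ℝ φ z = 0 ∧ Δ φ z = 0 := by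
    obtain ⟨R, hR⟩ := hc.isCompact.isBounded.subset_ball (0 : ℂ)
    refine ⟨max R 2, lt_of_lt_of_le (by norm_num) (le_max_right _ _), fun z hz => ?_⟩
    have hz1 : z ∉ tsupport φ := fun h => by
      have := mem_ball_zero_iff.1 (hR h)
      linarith [le_max_left R 2]
    have h1 : φ =ᶠ[𝓝 z] 0 := notMem_tsupport_iff_eventuallyEq.1 hz1
    refine ⟨h1.eq_of_nhds, ?_, ?_⟩
    · have := h1.fderiv_eq (𝕜 := ℝ)
      rw [this]; simp
    · rw [lap_frame hφ z 0]
      have h2 : fderiv ℝ φ =ᶠ[𝓝 z] fderiv ℝ (0 : ℂ → ℝ) := h1.fderiv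
      rw [h2.fderiv_eq]
      simp
  -- polar coordinates
  have hpol := Complex.integral_comp_polarCoord_symm (fun z : ℂ => Real.posLog ‖z‖ * Δ φ z)
  rw [← hpol]
  have hform : ∀ p : ℝ × ℝ, p ∈ polarCoord.target →
      p.1 • (Real.posLog ‖Complex.polarCoord.symm p‖ * Δ φ (Complex.polarCoord.symm p))
      = p.1 * (Real.posLog p.1 * Δ φ (p.1 * eb p.2)) := by
    intro p hp
    have hp1 : 0 < p.1 := hp.1
    have e1 : Complex.polarCoord.symm p = p.1 * eb p.2 := by
      rw [Complex.polarCoord_symm_apply, eb, Complex.exp_mul_I]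
      push_cast; ring
    rw [e1, norm_mul, norm_eb, mul_one, Complex.norm_real, Real.norm_eq_abs, abs_of_pos hp1,
      smul_eq_mul]
  rw [setIntegral_congr_fun polarCoord.open_target.measurableSet hform]
  -- Fubini
  have hcont2 : Continuous (fun p : ℝ × ℝ => p.1 * (Real.posLog p.1 * Δ φ (p.1 * eb p.2))) := by
    have h1 : Continuous (fun p : ℝ × ℝ => (p.1 : ℂ) * eb p.2) :=
      (Complex.continuous_ofReal.comp continuous_fst).mul (cont_eb.comp continuous_snd)
    have h2 : Continuous (fun p : ℝ × ℝ => Real.posLog p.1) :=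
      Real.continuous_posLog.comp continuous_fst
    exact continuous_fst.mul (h2.mul (hlap.comp h1))
  have htar : polarCoord.target = Ioi (0 : ℝ) ×ˢ Ioo (-Real.pi) Real.pi := rfl
  have hzero : ∀ p : ℝ × ℝ, p ∈ polarCoord.target → p ∉ Ioc (1 : ℝ) R ×ˢ Ioo (-Real.pi) Real.pi →
      p.1 * (Real.posLog p.1 * Δ φ (p.1 * eb p.2)) = 0 := by
    intro p hp hp'
    have hp1 : 0 < p.1 := hp.1
    rcases le_or_gt p.1 1 with h | h
    · have : Real.posLog p.1 = 0 := by
        rw [Real.posLog_eq_zero_iff, abs_of_pos hp1]; exact h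
      rw [this]; ring
    · have h2 : R ≤ ‖(p.1 : ℂ) * eb p.2‖ := by
        rw [norm_mul, norm_eb, mul_one, Complex.norm_real, Real.norm_eq_abs, abs_of_pos hp1]
        by_contra hcon
        exact hp' ⟨⟨h, (not_le.1 hcon).le⟩, hp.2⟩
      rw [(hR _ h2).2.2]; ring
  have hsub : Ioc (1 : ℝ) R ×ˢ Ioo (-Real.pi) Real.pi ⊆ polarCoord.target := by
    rw [htar]
    exact prod_mono_left fun r hr => one_pos.trans hr.1
  rw [setIntegral_eq_of_subset_of_forall_sdiff_eq_zero polarCoord.open_target.measurableSet hsub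
    (fun p hp => hzero p hp.1 hp.2)]
  rw [Measure.volume_eq_prod, setIntegral_prod]
  · -- the inner integral
    have hinner : ∀ r ∈ Ioc (1 : ℝ) R, ∫ θ in Ioo (-Real.pi) Real.pi,
        r * (Real.posLog r * Δ φ (r * eb θ)) = Real.log r * (r * Ln φ r) := by
      intro r hr
      have h1 : Real.posLog r = Real.log r :=
        Real.posLog_eq_log (by rw [abs_of_pos (one_pos.trans hr.1)]; exact hr.1.le)
      rw [h1, Ln, intervalIntegral.integral_of_le (by linarith), ← integral_Ioc_eq_integral_Ioo,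
        integral_const_mul, integral_const_mul]
      ring
    rw [setIntegral_congr_fun measurableSet_Ioc hinner, ← intervalIntegral.integral_of_le hR1.le]
    -- the primitive
    have hF : ∀ r ∈ uIcc 1 R, HasDerivAt (fun r => Real.log r * (r * Sn φ r) - Mn φ r)
        (Real.log r * (r * Ln φ r)) r := by
      intro r hr
      rw [uIcc_of_le hR1.le] at hr
      have hr0 : 0 < r := one_pos.trans_le hr.1
      have h1 := Real.hasDerivAt_log hr0.ne'
      have h2 := (hasDerivAt_id r).mul (deriv_Sn hφ hc r)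
      have h3 := (h1.mul h2).sub (deriv_Mn hφ hc r)
      refine h3.congr_deriv ?_
      have h4 := Sn_eq hφ r
      simp only [id_eq, Pi.mul_apply]
      rw [← h4]
      field_simp
      ring
    have hcQ : ContinuousOn (fun r => Real.log r * (r * Ln φ r)) (uIcc 1 R) := by
      have hLc : Continuous (Ln φ) := by
        unfold Ln
        refine intervalIntegral.continuous_parametric_intervalIntegral_of_continuous' ?_ _ _
        have h1 : Continuous (fun p : ℝ × ℝ => (p.1 : ℂ) * eb p.2) :=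
          (Complex.continuous_ofReal.comp continuous_fst).mul (cont_eb.comp continuous_snd)
        exact hlap.comp h1
      refine ContinuousOn.mul ?_ (Continuous.continuousOn (by fun_prop))
      refine Real.continuousOn_log.mono fun r hr => ?_
      rw [uIcc_of_le hR1.le] at hr
      simp only [mem_compl_iff, mem_singleton_iff]
      linarith [hr.1]
    rw [intervalIntegral.integral_eq_sub_of_hasDerivAt hF hcQ.intervalIntegrable]
    have hRn : ∀ θ : ℝ, R ≤ ‖(R : ℂ) * eb θ‖ := fun θ => by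
      rw [norm_mul, norm_eb, mul_one, Complex.norm_real, Real.norm_eq_abs,
        abs_of_pos (one_pos.trans hR1)]
    have hS0 : Sn φ R = 0 := by
      rw [Sn]
      have : ∀ θ : ℝ, fderiv ℝ φ (R * eb θ) (eb θ) = 0 := fun θ => by
        rw [(hR _ (hRn θ)).2.1]; simp
      simp [this]
    have hM0 : Mn φ R = 0 := by
      rw [Mn]
      have : ∀ θ : ℝ, φ (R * eb θ) = 0 := fun θ => (hR _ (hRn θ)).1
      simp [this]
    have hM1 : Mn φ 1 = 2 * Real.pi * ∫ z, φ z ∂arc := by
      rw [int_arc hφ.continuous, smul_eq_mul, ← mul_assoc, mul_one_div_cancel (by positivity),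
        one_mul, Mn]
      have hper : Function.Periodic (fun θ : ℝ => φ (Complex.exp (θ * Complex.I)))
          (2 * Real.pi) := by
        intro θ
        simp only
        congr 1
        push_cast
        rw [add_mul, Complex.exp_add, Complex.exp_two_pi_mul_I, mul_one]
      have h1 := hper.intervalIntegral_add_eq (-Real.pi) 0
      have h2 : -Real.pi + 2 * Real.pi = Real.pi := by ring
      rw [h2, zero_add] at h1
      rw [← h1]
      refine intervalIntegral.integral_congr fun θ _ => ?_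
      simp only [Complex.ofReal_one, one_mul]
      rfl
    rw [hS0, hM0, Real.log_one]
    rw [hM1]; ring
  · have h1 : IntegrableOn (fun p : ℝ × ℝ => p.1 * (Real.posLog p.1 * Δ φ (p.1 * eb p.2)))
        (Icc (1 : ℝ) R ×ˢ Icc (-Real.pi) Real.pi) (volume.prod volume) := by
      refine ContinuousOn.integrableOn_compact (isCompact_Icc.prod isCompact_Icc)
        hcont2.continuousOn
    exact h1.mono_set (prod_mono Ioc_subset_Icc_self Ioo_subset_Icc_self)

end

end Pool.Agent.X103.DiscPot
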