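import Mathlib

/-!
# `H¹(ℝ)` in one dimension: absolutely continuous representatives and a sharp inequality
(helper103)
-/

set_option autoImplicit false

open MeasureTheory Set Filter Topology
open scoped Interval

namespace Pool.Agent.X103.H1L

/-- Smooth compactly supported functions on the line. -/
def IsTest (φ : ℝ → ℝ) : Prop := ContDiff ℝ (⊤ : ℕ∞) φ ∧ HasCompactSupport φ

/-- `g` is the weak derivative of `u` on the line. -/
def IsWeakDeriv (u g : ℝ → ℝ) : Prop :=
  ∀ φ : ℝ → ℝ, IsTest φ → ∫ x, u x * deriv φ x = -∫ x, g x * φ x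

/-- `u ∈ H¹(ℝ)` with weak derivative `g`. -/
structure MemH1 (u g : ℝ → ℝ) : Prop where
  memLp : MemLp u 2 volume
  memLp_deriv : MemLp g 2 volume
  weak : IsWeakDeriv u g

lemma IsTest.der {φ : ℝ → ℝ} (h : IsTest φ) : IsTest (deriv φ) :=
  ⟨(contDiff_infty_iff_deriv.1 h.1).2, h.2.deriv⟩

lemma IsTest.exists_zero {φ : ℝ → ℝ} (h : IsTest φ) : ∃ R, 0 < R ∧ ∀ x, R ≤ |x| → φ x = 0 := by
  obtain ⟨R, hR⟩ := h.2.isCompact.isBounded.subset_closedBall 0
  refine ⟨|R| + 1, by positivity, fun x hx => ?_⟩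
  apply image_eq_zero_of_notMem_tsupport
  intro h1
  have h2 := hR h1
  rw [Metric.mem_closedBall, dist_zero_right, Real.norm_eq_abs] at h2
  have := le_abs_self R
  linarith

lemma integral_eq_interval {f : ℝ → ℝ} {R : ℝ} (hR : 0 < R) (h : ∀ x, R ≤ |x| → f x = 0) :
    ∫ x, f x = ∫ x in (-R)..R, f x := by
  rw [intervalIntegral.integral_of_le (by linarith)]
  symm
  apply setIntegral_eq_integral_of_forall_compl_eq_zero
  intro x hx
  apply h
  by_contra h1
  push Not at h1
  rw [abs_lt] at h1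
  exact hx ⟨h1.1, h1.2.le⟩

/-- A test function with integral zero is the derivative of a test function. -/
lemma exists_primitive {η : ℝ → ℝ} (h : IsTest η) (h0 : ∫ x, η x = 0) :
    ∃ ψ, IsTest ψ ∧ ∀ x, deriv ψ x = η x := by
  obtain ⟨R, hR, hz⟩ := h.exists_zero
  have hc : Continuous η := h.1.continuous
  set ψ : ℝ → ℝ := fun x => ∫ t in (-R)..x, η t with hψ
  have hd : ∀ x, HasDerivAt ψ (η x) x := fun x =>
    intervalIntegral.integral_hasDerivAt_right (hc.intervalIntegrable _ _)
      (hc.stronglyMeasurableAtFilter _ _) hc.continuousAt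
  have hd' : deriv ψ = η := funext fun x => (hd x).deriv
  refine ⟨ψ, ⟨?_, ?_⟩, fun x => (hd x).deriv⟩
  · rw [contDiff_infty_iff_deriv]
    refine ⟨fun x => (hd x).differentiableAt, ?_⟩
    rw [hd']
    exact h.1
  · apply HasCompactSupport.of_support_subset_isCompact (isCompact_Icc (a := -R) (b := R))
    intro x hx
    by_contra h1
    apply hx
    rw [mem_Icc, not_and_or] at h1
    push Not at h1
    rcases h1 with h1 | h1
    · show ∫ t in (-R)..x, η t = 0
      rw [intervalIntegral.integral_symm]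
      have : ∫ t in x..(-R), η t = ∫ t in x..(-R), (0:ℝ) := by
        apply intervalIntegral.integral_congr
        intro t ht
        rw [uIcc_of_le h1.le, mem_Icc] at ht
        apply hz
        rw [abs_of_neg (by linarith)]
        linarith
      rw [this]; simp
    · show ∫ t in (-R)..x, η t = 0
      have h2 : ∫ t in (-R)..x, η t = (∫ t in (-R)..R, η t) + ∫ t in R..x, η t :=
        (intervalIntegral.integral_add_adjacent_intervals (hc.intervalIntegrable _ _)
          (hc.intervalIntegrable _ _)).symm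
      have h3 : ∫ t in R..x, η t = ∫ t in R..x, (0:ℝ) := by
        apply intervalIntegral.integral_congr
        intro t ht
        rw [uIcc_of_le h1.le, mem_Icc] at ht
        apply hz
        exact ht.1.trans (le_abs_self _)
      rw [h2, h3, ← integral_eq_interval hR hz, h0]; simp

/-- du Bois-Reymond. -/
lemma const_of_weak_zero {w : ℝ → ℝ} (hw : LocallyIntegrable w volume)
    (h : ∀ φ, IsTest φ → ∫ x, w x * deriv φ x = 0) : ∃ c : ℝ, w =ᵐ[volume] fun _ => c := by
  -- a normalised bump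
  obtain ⟨ρ, hρ, hρ1⟩ : ∃ ρ : ℝ → ℝ, IsTest ρ ∧ ∫ x, ρ x = 1 := by
    let b : ContDiffBump (0:ℝ) := ⟨1, 2, by norm_num, by norm_num⟩
    exact ⟨b.normed volume, ⟨b.contDiff_normed, b.hasCompactSupport_normed⟩, b.integral_normed⟩
  have hi : ∀ φ, IsTest φ → Integrable (fun x => w x * φ x) volume := by
    intro φ hφ
    have := hw.integrable_smul_left_of_hasCompactSupport hφ.1.continuous hφ.2
    simpa [mul_comm] using this
  set c : ℝ := ∫ x, w x * ρ x with hc
  refine ⟨c, ?_⟩
  have h1 : ∀ φ : ℝ → ℝ, ContDiff ℝ (⊤ : ℕ∞) φ → HasCompactSupport φ →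
      ∫ x, φ x • (w x - c) = 0 := by
    intro φ hφ1 hφ2
    have hφ : IsTest φ := ⟨hφ1, hφ2⟩
    have hφi : Integrable φ volume := hφ1.continuous.integrable_of_hasCompactSupport hφ2
    have hρi : Integrable ρ volume := hρ.1.continuous.integrable_of_hasCompactSupport hρ.2
    set I : ℝ := ∫ x, φ x with hI
    have hη : IsTest fun x => φ x - I * ρ x :=
      ⟨hφ1.sub (contDiff_const.mul hρ.1), hφ2.sub (hρ.2.mul_left (f := fun _ => I))⟩
    obtain ⟨ψ, hψ, hψd⟩ := exists_primitive hη (by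
      rw [integral_sub hφi (hρi.const_mul _), integral_const_mul, hρ1, mul_one, sub_self])
    have h2 := h ψ hψ
    simp only [hψd] at h2
    have h3 : ∀ x, w x * (φ x - I * ρ x) = w x * φ x - I * (w x * ρ x) := fun x => by ring
    simp only [h3] at h2
    rw [integral_sub (hi φ hφ) ((hi ρ hρ).const_mul _), integral_const_mul] at h2
    have h4 : ∀ x, φ x • (w x - c) = w x * φ x - c * φ x := fun x => by
      rw [smul_eq_mul]; ring
    simp only [h4]
    rw [integral_sub (hi φ hφ) (hφi.const_mul _), integral_const_mul]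
    linarith
  have h2 := ae_eq_zero_of_integral_contDiff_smul_eq_zero
    (hw.sub (locallyIntegrable_const c)) h1
  filter_upwards [h2] with x hx
  have : w x - c = 0 := hx
  linarith

/-! ### Absolutely continuous functions -/

/-- The primitive. -/
noncomputable def prim (c : ℝ) (g : ℝ → ℝ) (x : ℝ) : ℝ := c + ∫ t in (0:ℝ)..x, g t

lemma interval_of_loc {g : ℝ → ℝ} (hg : LocallyIntegrable g volume) (a b : ℝ) :
    IntervalIntegrable g volume a b :=
  (hg.integrableOn_isCompact isCompact_uIcc).intervalIntegrable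

lemma ac_prim {g : ℝ → ℝ} (hg : LocallyIntegrable g volume) (c a b : ℝ) :
    AbsolutelyContinuousOnInterval (prim c g) a b := by
  set R : ℝ := |a| + |b| + 1 with hR
  have hR0 : 0 < R := by positivity
  have h1 : AbsolutelyContinuousOnInterval (fun x => ∫ t in (0:ℝ)..x, g t) (-R) R := by
    refine (interval_of_loc hg _ _).absolutelyContinuousOnInterval_intervalIntegral ?_
    rw [uIcc_of_le (by linarith)]
    exact ⟨by linarith, hR0.le⟩
  have h2 : AbsolutelyContinuousOnInterval (fun _ : ℝ => c) (-R) R :=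
    (contDiff_const (n := 1)).contDiffOn.absolutelyContinuousOnInterval
  refine (h2.add h1).mono ?_
  have ha := abs_le.1 (le_refl |a|)
  have hb := abs_le.1 (le_refl |b|)
  have ha0 := abs_nonneg a
  have hb0 := abs_nonneg b
  apply uIcc_subset_uIcc
  · rw [uIcc_of_le (by linarith)]; exact ⟨by linarith, by linarith⟩
  · rw [uIcc_of_le (by linarith)]; exact ⟨by linarith, by linarith⟩

lemma continuous_prim {g : ℝ → ℝ} (hg : LocallyIntegrable g volume) (c : ℝ) :
    Continuous (prim c g) :=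
  continuous_const.add (intervalIntegral.continuous_primitive (interval_of_loc hg) 0)

lemma hasDeriv_prim {g : ℝ → ℝ} (hg : LocallyIntegrable g volume) (c : ℝ) :
    ∀ᵐ x, HasDerivAt (prim c g) (g x) x := by
  have h : ∀ n : ℕ, ∀ᵐ x, x ∈ uIcc (-(n:ℝ)) n → HasDerivAt (prim c g) (g x) x := by
    intro n
    filter_upwards [(interval_of_loc hg (-(n:ℝ)) n).ae_hasDerivAt_integral] with x hx h2
    have := hx h2 0 (by
      rw [uIcc_of_le (by have : (0:ℝ) ≤ n := Nat.cast_nonneg n; linarith)]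
      exact ⟨by have : (0:ℝ) ≤ n := Nat.cast_nonneg n; linarith, Nat.cast_nonneg n⟩)
    exact this.const_add c
  filter_upwards [ae_all_iff.2 h] with x hx
  obtain ⟨n, hn⟩ := exists_nat_ge |x|
  have h2 := abs_le.1 hn
  exact hx n (by rw [uIcc_of_le (by linarith)]; exact h2)

lemma ac_comp {G V : ℝ → ℝ} {a b : ℝ} (hG : ContDiff ℝ 1 G)
    (hV : AbsolutelyContinuousOnInterval V a b) :
    AbsolutelyContinuousOnInterval (fun x => G (V x)) a b := by
  obtain ⟨C, hC⟩ := hV.exists_bound
  have hr : ∀ x ∈ uIcc a b, V x ∈ Icc (-C) C := fun x hx => abs_le.1 (hC x hx)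
  obtain ⟨K, hK⟩ := (hG.contDiffOn (s := Icc (-C) C)).exists_lipschitzOnWith
    (by decide) (convex_Icc _ _) isCompact_Icc
  rw [absolutelyContinuousOnInterval_iff] at hV ⊢
  intro ε hε
  obtain ⟨δ, hδ, h⟩ := hV (ε / (K + 1)) (by positivity)
  refine ⟨δ, hδ, fun E hE hs => ?_⟩
  have h1 := h E hE hs
  calc ∑ i ∈ Finset.range E.1, dist (G (V (E.2 i).1)) (G (V (E.2 i).2))
      ≤ ∑ i ∈ Finset.range E.1, K * dist (V (E.2 i).1) (V (E.2 i).2) := by
        refine Finset.sum_le_sum fun i hi => ?_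
        exact hK.dist_le_mul _ (hr _ (hE.1 i hi).1) _ (hr _ (hE.1 i hi).2)
    _ = K * ∑ i ∈ Finset.range E.1, dist (V (E.2 i).1) (V (E.2 i).2) :=
        (Finset.mul_sum _ _ _).symm
    _ ≤ K * (ε / (K + 1)) := by gcongr
    _ < (K + 1) * (ε / (K + 1)) := by gcongr; linarith
    _ = ε := by field_simp

/-- Chain rule and fundamental theorem. -/
lemma ftc_comp {G G' g : ℝ → ℝ} (hG : ∀ s, HasDerivAt G (G' s) s) (hG' : Continuous G')
    (hg : LocallyIntegrable g volume) (c a b : ℝ) :
    ∫ x in a..b, G' (prim c g x) * g x = G (prim c g b) - G (prim c g a) := by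
  have hC1 : ContDiff ℝ 1 G := by
    rw [contDiff_one_iff_deriv]
    refine ⟨fun x => (hG x).differentiableAt, ?_⟩
    rw [show deriv G = G' from funext fun x => (hG x).deriv]
    exact hG'
  have h1 := ac_comp hC1 (ac_prim hg c a b)
  rw [← h1.integral_deriv_eq_sub]
  apply intervalIntegral.integral_congr_ae
  filter_upwards [hasDeriv_prim hg c] with x hx _
  exact (((hG (prim c g x)).comp x hx).deriv).symm

lemma IsTest.exists_zero_both {φ : ℝ → ℝ} (h : IsTest φ) :
    ∃ R, 0 < R ∧ (∀ x, R ≤ |x| → φ x = 0) ∧ ∀ x, R ≤ |x| → deriv φ x = 0 := by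
  obtain ⟨R, hR, hz⟩ := h.exists_zero
  obtain ⟨R', hR', hz'⟩ := h.der.exists_zero
  exact ⟨max R R', lt_max_of_lt_left hR, fun x hx => hz x ((le_max_left _ _).trans hx),
    fun x hx => hz' x ((le_max_right _ _).trans hx)⟩

/-- Integration by parts against test functions. -/
lemma weak_prim {g : ℝ → ℝ} (hg : LocallyIntegrable g volume) (c : ℝ) :
    IsWeakDeriv (prim c g) g := by
  intro φ hφ
  obtain ⟨R, hR, hz, hz2⟩ := hφ.exists_zero_both
  have hφac : AbsolutelyContinuousOnInterval φ (-R) R :=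
    (hφ.1.of_le (by exact_mod_cast le_top)).contDiffOn.absolutelyContinuousOnInterval
  have h1 := (ac_prim hg c (-R) R).integral_mul_deriv_eq_deriv_mul hφac
  rw [hz R (le_abs_self _), hz (-R) (by rw [abs_neg]; exact le_abs_self _)] at h1
  rw [integral_eq_interval hR (fun x hx => by rw [hz2 x hx, mul_zero]),
    integral_eq_interval hR (fun x hx => by rw [hz x hx, mul_zero]), h1]
  have h2 : ∫ x in (-R)..R, deriv (prim c g) x * φ x = ∫ x in (-R)..R, g x * φ x := by
    apply intervalIntegral.integral_congr_ae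
    filter_upwards [hasDeriv_prim hg c] with x hx _
    rw [hx.deriv]
  rw [h2]; ring

lemma int_mul_test {w : ℝ → ℝ} (hw : LocallyIntegrable w volume) {φ : ℝ → ℝ} (hφ : IsTest φ) :
    Integrable (fun x => w x * φ x) volume := by
  have := hw.integrable_smul_left_of_hasCompactSupport hφ.1.continuous hφ.2
  simpa [mul_comm] using this

lemma MemH1.loc {u g : ℝ → ℝ} (h : MemH1 u g) : LocallyIntegrable u volume :=
  h.memLp.locallyIntegrable (by norm_num)
lemma MemH1.loc' {u g : ℝ → ℝ} (h : MemH1 u g) : LocallyIntegrable g volume :=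
  h.memLp_deriv.locallyIntegrable (by norm_num)

/-- The absolutely continuous representative. -/
lemma MemH1.exists_rep {u g : ℝ → ℝ} (h : MemH1 u g) : ∃ c, u =ᵐ[volume] prim c g := by
  have hc := (continuous_prim h.loc' 0).locallyIntegrable (μ := volume)
  obtain ⟨c, hc'⟩ := const_of_weak_zero (w := fun x => u x - prim 0 g x) (h.loc.sub hc) (by
    intro φ hφ
    have h1 : ∀ x, (u x - prim 0 g x) * deriv φ x = u x * deriv φ x - prim 0 g x * deriv φ x :=
      fun x => by ring
    simp only [h1]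
    rw [integral_sub (int_mul_test h.loc hφ.der) (int_mul_test hc hφ.der), h.weak φ hφ,
      weak_prim h.loc' 0 φ hφ, sub_self])
  refine ⟨c, ?_⟩
  filter_upwards [hc'] with x hx
  have hx' : u x - prim 0 g x = c := hx
  unfold prim at hx' ⊢
  linarith

/-! ### Decay at infinity -/

lemma int_mul_of_L2 {f g : ℝ → ℝ} (hf : MemLp f 2 volume) (hg : MemLp g 2 volume) :
    Integrable (fun x => f x * g x) volume := hf.integrable_mul hg

lemma lim_zero_atTop {f : ℝ → ℝ} {L : ℝ} (hf : Integrable f volume)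
    (h : Tendsto f atTop (𝓝 L)) : L = 0 := by
  by_contra hL
  have h1 : ∀ᶠ x in atTop, |L| / 2 < |f x| := by
    have h2 := h.abs
    exact h2.eventually (lt_mem_nhds (by have := abs_pos.2 hL; linarith))
  obtain ⟨N, hN⟩ := eventually_atTop.1 h1
  have h3 : IntegrableOn (fun _ : ℝ => |L| / 2) (Ioi N) volume := by
    refine (hf.norm.integrableOn (s := Ioi N)).mono' aestronglyMeasurable_const ?_
    rw [ae_restrict_iff' measurableSet_Ioi]
    refine Eventually.of_forall fun x hx => ?_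
    rw [Real.norm_of_nonneg (by positivity)]
    exact (hN x (le_of_lt hx)).le
  have hpos : 0 < |L| / 2 := by have := abs_pos.2 hL; linarith
  rw [integrableOn_const_iff] at h3
  rcases h3 with h3 | h3
  · exact hpos.ne' (by simpa using h3)
  · simp at h3

lemma sq_tendsto_atTop {g : ℝ → ℝ} {c : ℝ} (h1 : MemLp (prim c g) 2 volume)
    (h2 : MemLp g 2 volume) : Tendsto (fun x => prim c g x ^ 2) atTop (𝓝 0) := by
  have hg : LocallyIntegrable g volume := h2.locallyIntegrable (by norm_num)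
  have hi : Integrable (fun x => 2 * prim c g x * g x) volume := by
    have := (int_mul_of_L2 h1 h2).const_mul 2
    simpa [mul_assoc] using this
  have h3 : Tendsto (fun b => ∫ x in (0:ℝ)..b, 2 * prim c g x * g x) atTop
      (𝓝 (∫ x in Ioi (0:ℝ), 2 * prim c g x * g x)) :=
    intervalIntegral_tendsto_integral_Ioi 0 hi.integrableOn tendsto_id
  have h4 : ∀ b, ∫ x in (0:ℝ)..b, 2 * prim c g x * g x = prim c g b ^ 2 - prim c g 0 ^ 2 :=
    fun b => ftc_comp (G := fun s => s ^ 2) (G' := fun s => 2 * s)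
      (fun s => by simpa using hasDerivAt_pow 2 s) (by fun_prop) hg c 0 b
  simp only [h4] at h3
  have h5 : Tendsto (fun b => prim c g b ^ 2) atTop
      (𝓝 ((∫ x in Ioi (0:ℝ), 2 * prim c g x * g x) + prim c g 0 ^ 2)) := by
    have := h3.add_const (prim c g 0 ^ 2)
    simpa using this
  have h6 := lim_zero_atTop h1.integrable_sq h5
  rwa [h6] at h5

lemma prim_neg {g : ℝ → ℝ} (c x : ℝ) : prim c g (-x) = prim c (fun t => -g (-t)) x := by
  unfold prim
  congr 1
  rw [intervalIntegral.integral_neg]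
  have := intervalIntegral.integral_comp_neg (a := 0) (b := x) (fun t => g t)
  rw [this, neg_zero, ← intervalIntegral.integral_symm]

lemma memLp_neg {f : ℝ → ℝ} (h : MemLp f 2 volume) : MemLp (fun x => f (-x)) 2 volume :=
  h.comp_measurePreserving (Measure.measurePreserving_neg volume)

lemma sq_tendsto_atBot {g : ℝ → ℝ} {c : ℝ} (h1 : MemLp (prim c g) 2 volume)
    (h2 : MemLp g 2 volume) : Tendsto (fun x => prim c g x ^ 2) atBot (𝓝 0) := by
  have h3 : MemLp (prim c fun t => -g (-t)) 2 volume := by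
    have := memLp_neg h1
    simpa only [prim_neg] using this
  have h4 := sq_tendsto_atTop h3 (memLp_neg h2).neg
  have h5 := h4.comp tendsto_neg_atBot_atTop
  refine h5.congr fun x => ?_
  show prim c (fun t => -g (-t)) (-x) ^ 2 = _
  rw [← prim_neg, neg_neg]

/-! ### The sharp inequality -/

/-- The calibration. -/
noncomputable def Gc (M s : ℝ) : ℝ := M / 3 * (1 - (1 - s ^ 2 / M) ^ (3/2 : ℝ))
/-- Its derivative. -/
noncomputable def Gc' (M s : ℝ) : ℝ := s * (1 - s ^ 2 / M) ^ (1/2 : ℝ)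

lemma Gc_deriv {M : ℝ} (hM : 0 < M) (s : ℝ) : HasDerivAt (Gc M) (Gc' M s) s := by
  have h1 : HasDerivAt (fun s : ℝ => 1 - s ^ 2 / M) (-(2 * s / M)) s := by
    have := ((hasDerivAt_pow 2 s).div_const M).const_sub 1
    refine HasDerivAt.congr_deriv this ?_
    simp
  have h2 := h1.rpow_const (p := 3/2) (Or.inr (by norm_num))
  have h3 := (h2.const_sub 1).const_mul (M / 3)
  refine HasDerivAt.congr_deriv h3 ?_
  unfold Gc'
  rw [show (3/2 : ℝ) - 1 = 1/2 by norm_num]
  field_simp

lemma Gc'_cont (M : ℝ) : Continuous (Gc' M) := by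
  unfold Gc'
  have : Continuous fun s : ℝ => (1 - s ^ 2 / M) ^ (1/2 : ℝ) :=
    (Real.continuous_rpow_const (by norm_num)).comp (by fun_prop)
  exact continuous_id.mul this

lemma Gc'_sq {M s : ℝ} (hM : 0 < M) (hs : s ^ 2 ≤ M) : Gc' M s ^ 2 = s ^ 2 - s ^ 4 / M := by
  unfold Gc'
  have h1 : 0 ≤ 1 - s ^ 2 / M := by
    rw [sub_nonneg, div_le_one hM]; exact hs
  rw [mul_pow, ← Real.rpow_natCast ((1 - s ^ 2 / M) ^ (1/2 : ℝ)) 2, ← Real.rpow_mul h1]
  norm_num
  field_simp

theorem sharp_prim {g : ℝ → ℝ} {c : ℝ} (h1 : MemLp (prim c g) 2 volume)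
    (h2 : MemLp g 2 volume) :
    Integrable (fun x => prim c g x ^ 4) volume ∧ (∃ M, ∀ x, prim c g x ^ 2 ≤ M) ∧
    16 / 3 * ∫ x, prim c g x ^ 4 ≤ ((∫ x, g x ^ 2) + ∫ x, prim c g x ^ 2) ^ 2 := by
  have hg : LocallyIntegrable g volume := h2.locallyIntegrable (by norm_num)
  have hcont := continuous_prim hg c
  set V := prim c g with hV
  by_cases h0 : ∀ x, V x = 0
  · simp [h0]
    refine ⟨⟨0, le_rfl⟩, by positivity⟩
  push Not at h0
  obtain ⟨x1, hx1⟩ := h0
  have htop := sq_tendsto_atTop h1 h2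
  have hbot := sq_tendsto_atBot h1 h2
  have hcc : Tendsto (fun x => V x ^ 2) (cocompact ℝ) (𝓝 0) := by
    rw [cocompact_eq_atBot_atTop]
    exact hbot.sup htop
  have hx1' : 0 < V x1 ^ 2 := by positivity
  obtain ⟨x0, hx0⟩ := (hcont.pow 2).exists_forall_ge' x1
    ((hcc.eventually (gt_mem_nhds hx1')).mono fun x hx => hx.le)
  simp only [Pi.pow_apply] at hx0
  set M := V x0 ^ 2 with hM
  have hM0 : 0 < M := hx1'.trans_le (hx0 x1)
  have hV2 : Integrable (fun x => V x ^ 2) volume := h1.integrable_sq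
  have hg2 : Integrable (fun x => g x ^ 2) volume := h2.integrable_sq
  have hV4 : Integrable (fun x => V x ^ 4) volume := by
    refine (hV2.const_mul M).mono' (hcont.pow 4).aestronglyMeasurable
      (Eventually.of_forall fun x => ?_)
    rw [Real.norm_of_nonneg (by positivity)]
    have := hx0 x
    nlinarith [sq_nonneg (V x)]
  refine ⟨hV4, ⟨M, hx0⟩, ?_⟩
  have hint : Integrable (fun x => g x ^ 2 + V x ^ 2 - V x ^ 4 / M) volume :=
    (hg2.add hV2).sub (hV4.div_const M)
  have hpt : ∀ x, 2 * |Gc' M (V x) * g x| ≤ g x ^ 2 + V x ^ 2 - V x ^ 4 / M := by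
    intro x
    have h3 := Gc'_sq hM0 (hx0 x)
    rw [abs_mul, ← sq_abs (g x)]
    rw [← sq_abs (Gc' M (V x))] at h3
    nlinarith [sq_nonneg (|Gc' M (V x)| - |g x|)]
  have hGi : Integrable (fun x => Gc' M (V x) * g x) volume := by
    refine hint.mono' (((Gc'_cont M).comp hcont).aestronglyMeasurable.mul h2.1)
      (Eventually.of_forall fun x => ?_)
    rw [Real.norm_eq_abs]
    have := hpt x
    have := abs_nonneg (Gc' M (V x) * g x)
    linarith
  have hseg : ∀ a b : ℝ, a ≤ b → 2 * |Gc M (V b) - Gc M (V a)| ≤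
      ∫ x in a..b, (g x ^ 2 + V x ^ 2 - V x ^ 4 / M) := by
    intro a b hab
    rw [← ftc_comp (Gc_deriv hM0) (Gc'_cont M) hg c a b]
    calc 2 * |∫ x in a..b, Gc' M (V x) * g x| ≤ 2 * ∫ x in a..b, |Gc' M (V x) * g x| := by
          have := intervalIntegral.abs_integral_le_integral_abs (f := fun x => Gc' M (V x) * g x)
            (μ := volume) hab
          linarith
      _ = ∫ x in a..b, 2 * |Gc' M (V x) * g x| := by
          rw [intervalIntegral.integral_const_mul]
      _ ≤ _ := by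
          refine intervalIntegral.integral_mono_on hab ?_ hint.intervalIntegrable
            fun x _ => hpt x
          exact (hGi.abs.const_mul 2).intervalIntegrable
  have hpos : ∀ x, 0 ≤ g x ^ 2 + V x ^ 2 - V x ^ 4 / M := fun x =>
    (by positivity : 0 ≤ 2 * |Gc' M (V x) * g x|).trans (hpt x)
  have hGx0 : Gc M (V x0) = M / 3 := by
    unfold Gc
    rw [← hM, div_self hM0.ne', sub_self, Real.zero_rpow (by norm_num)]; ring
  have hR : ∀ R : ℝ, |x0| < R → 4 / 3 * M - 2 * Gc M (V R) - 2 * Gc M (V (-R)) ≤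
      ∫ x, (g x ^ 2 + V x ^ 2 - V x ^ 4 / M) := by
    intro R hR
    have hR' := abs_lt.1 hR
    have e1 := hseg (-R) x0 hR'.1.le
    have e2 := hseg x0 R hR'.2.le
    have e3 : (∫ x in (-R)..x0, (g x ^ 2 + V x ^ 2 - V x ^ 4 / M)) +
        ∫ x in x0..R, (g x ^ 2 + V x ^ 2 - V x ^ 4 / M) ≤
        ∫ x, (g x ^ 2 + V x ^ 2 - V x ^ 4 / M) := by
      rw [intervalIntegral.integral_add_adjacent_intervals hint.intervalIntegrable
        hint.intervalIntegrable, intervalIntegral.integral_of_le (by linarith)]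
      exact setIntegral_le_integral hint (Eventually.of_forall hpos)
    rw [hGx0] at e1 e2
    have e4 := le_abs_self (M / 3 - Gc M (V (-R)))
    have e5 := neg_abs_le (Gc M (V R) - M / 3)
    linarith
  have hlim : ∀ {l : Filter ℝ}, Tendsto (fun x => V x ^ 2) l (𝓝 0) →
      Tendsto (fun x => Gc M (V x)) l (𝓝 0) := by
    intro l hl
    have h3 : Tendsto (fun y : ℝ => M / 3 * (1 - (1 - y / M) ^ (3/2 : ℝ))) (𝓝 0)
        (𝓝 (M / 3 * (1 - (1 - 0 / M) ^ (3/2 : ℝ)))) := by
      have : Continuous fun y : ℝ => M / 3 * (1 - (1 - y / M) ^ (3/2 : ℝ)) :=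
        continuous_const.mul (continuous_const.sub
          ((Real.continuous_rpow_const (by norm_num)).comp (by fun_prop)))
      exact this.tendsto 0
    have h4 := h3.comp hl
    rw [zero_div, sub_zero, Real.one_rpow, sub_self, mul_zero] at h4
    exact h4
  have hfin : 4 / 3 * M ≤ ∫ x, (g x ^ 2 + V x ^ 2 - V x ^ 4 / M) := by
    have h3 : Tendsto (fun R => 4 / 3 * M - 2 * Gc M (V R) - 2 * Gc M (V (-R))) atTop
        (𝓝 (4 / 3 * M - 2 * 0 - 2 * 0)) :=
      (tendsto_const_nhds.sub ((hlim htop).const_mul 2)).sub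
        (((hlim hbot).comp tendsto_neg_atTop_atBot).const_mul 2)
    have h4 := le_of_tendsto h3 ((eventually_gt_atTop |x0|).mono hR)
    linarith
  have hsplit : ∫ x, (g x ^ 2 + V x ^ 2 - V x ^ 4 / M) =
      (∫ x, g x ^ 2) + (∫ x, V x ^ 2) - (∫ x, V x ^ 4) / M := by
    have e1 : Integrable (fun x => g x ^ 2 + V x ^ 2) volume := hg2.add hV2
    rw [integral_sub e1 (hV4.div_const M), integral_add hg2 hV2, integral_div]
  rw [hsplit] at hfin
  set F := ∫ x, V x ^ 4 with hF
  set A := (∫ x, g x ^ 2) + ∫ x, V x ^ 2 with hA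
  have hF0 : 0 ≤ F := integral_nonneg fun x => by positivity
  have h5 : F / M + 4 / 3 * M ≤ A := by linarith
  have h6 : 0 ≤ F / M := by positivity
  have h7 : 16 / 3 * F ≤ (F / M + 4 / 3 * M) ^ 2 := by
    have h8 : F / M * M = F := by field_simp
    nlinarith [sq_nonneg (F / M - 4 / 3 * M)]
  exact h7.trans (pow_le_pow_left₀ (by positivity) h5 2)

/-- The sharp inequality on `H¹(ℝ)`. -/
theorem MemH1.sharp {v g : ℝ → ℝ} (h : MemH1 v g) :
    Integrable (fun x => v x ^ 4) volume ∧ (∃ M, ∀ᵐ x, v x ^ 2 ≤ M) ∧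
    16 / 3 * ∫ x, v x ^ 4 ≤ ((∫ x, g x ^ 2) + ∫ x, v x ^ 2) ^ 2 := by
  obtain ⟨c, hc⟩ := h.exists_rep
  have h1 : MemLp (prim c g) 2 volume := (memLp_congr_ae hc).1 h.memLp
  obtain ⟨e1, ⟨M, e2⟩, e3⟩ := sharp_prim h1 h.memLp_deriv
  have h4 : (fun x => v x ^ 4) =ᵐ[volume] fun x => prim c g x ^ 4 := by
    filter_upwards [hc] with x hx; rw [hx]
  have h2 : (fun x => v x ^ 2) =ᵐ[volume] fun x => prim c g x ^ 2 := by
    filter_upwards [hc] with x hx; rw [hx]
  refine ⟨e1.congr h4.symm, ⟨M, ?_⟩, ?_⟩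
  · filter_upwards [hc] with x hx; rw [hx]; exact e2 x
  · rw [integral_congr_ae h4, integral_congr_ae h2]; exact e3

end Pool.Agent.X103.H1L
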