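import Mathlib

/-!
# The Gaussian heat semigroup on the line (helper103)

Gaussian integration by parts, the derivative of `t ↦ ∫ F(t, z + √(2ε(T-t)) η) dγ(η)`, and the
heat extension `P ε w t x = ∫ w(x + √(2εt) η) dγ(η)`.
-/

set_option autoImplicit false

open MeasureTheory ProbabilityTheory Filter Topology Set Real

namespace Pool.Agent.X103.HeatG

/-- The standard Gaussian measure on the line. -/
noncomputable abbrev gam : Measure ℝ := gaussianReal 0 1

lemma int_gam (f : ℝ → ℝ) : ∫ η, f η ∂gam = ∫ η, gaussianPDFReal 0 1 η * f η := by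
  rw [gam, integral_gaussianReal_eq_integral_smul one_ne_zero]
  simp [smul_eq_mul]

lemma pdf_eq (x : ℝ) : gaussianPDFReal 0 1 x = (√(2 * π))⁻¹ * Real.exp (-(1 / 2) * x ^ 2) := by
  rw [gaussianPDFReal_def]
  simp only [NNReal.coe_one, mul_one, sub_zero]
  congr 2
  ring

lemma integrable_id_gam : Integrable (fun η : ℝ => η) gam := by
  have := (memLp_id_gaussianReal (μ := 0) (v := 1) 1)
  exact (memLp_one_iff_integrable.1 this)

lemma integrable_of_bdd {f : ℝ → ℝ} (hf : Continuous f) {C : ℝ} (hb : ∀ x, |f x| ≤ C) :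
    Integrable f gam := by
  refine (integrable_const C).mono' hf.aestronglyMeasurable ?_
  exact Eventually.of_forall fun x => by simpa using hb x

/-- Gaussian integration by parts. -/
lemma ibp {h h' : ℝ → ℝ} (hh : ∀ x, HasDerivAt h (h' x) x) (hc : Continuous h') {C : ℝ}
    (hb : ∀ x, |h x| ≤ C) (hb' : ∀ x, |h' x| ≤ C) :
    ∫ η, η * h η ∂gam = ∫ η, h' η ∂gam := by
  have hcont : Continuous h := continuous_iff_continuousAt.2 fun x => (hh x).continuousAt
  rw [int_gam, int_gam]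
  have hp : ∀ x, HasDerivAt (fun x => gaussianPDFReal 0 1 x) (-x * gaussianPDFReal 0 1 x) x := by
    intro x
    have h1 : HasDerivAt (fun x : ℝ => (√(2 * π))⁻¹ * Real.exp (-(1 / 2) * x ^ 2))
        ((√(2 * π))⁻¹ * (Real.exp (-(1 / 2) * x ^ 2) * (-(1 / 2) * (2 * x)))) x := by
      have h0 : HasDerivAt (fun x : ℝ => -(1 / 2) * x ^ 2) (-(1 / 2) * (2 * x)) x := by
        have := (hasDerivAt_pow 2 x).const_mul (-(1 / 2) : ℝ)
        simpa using this
      exact (h0.exp).const_mul _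
    have h2 : (fun x => gaussianPDFReal 0 1 x)
        = fun x : ℝ => (√(2 * π))⁻¹ * Real.exp (-(1 / 2) * x ^ 2) := by
      funext x; exact pdf_eq x
    rw [h2, pdf_eq]
    convert h1 using 1
    ring
  have hpi : Integrable (fun x => gaussianPDFReal 0 1 x) := integrable_gaussianPDFReal 0 1
  have hxpi : Integrable (fun x => x * gaussianPDFReal 0 1 x) := by
    have h1 := (integrable_mul_exp_neg_mul_sq (b := (1 / 2 : ℝ)) (by norm_num)).const_mul
      ((√(2 * π))⁻¹)
    refine h1.congr (Eventually.of_forall fun x => ?_)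
    simp only
    rw [pdf_eq]; ring
  have key := integral_mul_deriv_eq_deriv_mul_of_integrable (u := h) (v := fun x =>
    gaussianPDFReal 0 1 x) (u' := h') (v' := fun x => -x * gaussianPDFReal 0 1 x)
    (fun x _ => hh x) (fun x _ => hp x) ?_ ?_ ?_
  · have e1 : ∫ x, h x * (-x * gaussianPDFReal 0 1 x) = - ∫ x, gaussianPDFReal 0 1 x * (x * h x) := by
      rw [← integral_neg]
      exact integral_congr_ae (Eventually.of_forall fun x => by simp only; ring)
    have e2 : ∫ x, h' x * gaussianPDFReal 0 1 x = ∫ x, gaussianPDFReal 0 1 x * h' x :=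
      integral_congr_ae (Eventually.of_forall fun x => by simp only; ring)
    rw [e1, e2] at key
    linarith
  · have h1 := hxpi.neg.bdd_mul (c := C) hcont.aestronglyMeasurable
      (Eventually.of_forall fun x => by simpa using hb x)
    refine h1.congr (Eventually.of_forall fun x => ?_)
    simp only [Pi.mul_apply, Pi.neg_apply]; ring
  · have h1 := hpi.bdd_mul (c := C) hc.aestronglyMeasurable
      (Eventually.of_forall fun x => by simpa using hb' x)
    exact h1.congr (Eventually.of_forall fun x => rfl)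
  · have h1 := hpi.bdd_mul (c := C) hcont.aestronglyMeasurable
      (Eventually.of_forall fun x => by simpa using hb x)
    exact h1.congr (Eventually.of_forall fun x => rfl)

/-- Differentiation of `F` along a curve. -/
lemma along {F Ft Fx : ℝ → ℝ → ℝ} {y : ℝ → ℝ} {t y' : ℝ} (hy : HasDerivAt y y' t)
    (h1 : ∀ᶠ v in 𝓝 (t, y t), HasDerivAt (fun s => F s v.2) (Ft v.1 v.2) v.1)
    (h2 : ∀ᶠ v in 𝓝 (t, y t), HasDerivAt (F v.1) (Fx v.1 v.2) v.2)
    (c1 : ContinuousAt (fun v : ℝ × ℝ => Ft v.1 v.2) (t, y t))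
    (c2 : ContinuousAt (fun v : ℝ × ℝ => Fx v.1 v.2) (t, y t)) :
    HasDerivAt (fun s => F s (y s)) (Ft t (y t) + Fx t (y t) * y') t := by
  have key := hasStrictFDerivAt_uncurry_coprod (𝕜 := ℝ) (u := (t, y t)) (f := F)
    (f₁ := fun s x => ContinuousLinearMap.toSpanSingleton ℝ (Ft s x))
    (f₂ := fun s x => ContinuousLinearMap.toSpanSingleton ℝ (Fx s x))
    (by
      filter_upwards [h1] with v hv
      exact hv.hasFDerivAt)
    (by
      filter_upwards [h2] with v hv
      exact hv.hasFDerivAt)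
    (by
      exact (ContinuousLinearMap.toSpanSingletonCLE (𝕜 := ℝ) (E := ℝ)).continuous.continuousAt.comp c1)
    (by
      exact (ContinuousLinearMap.toSpanSingletonCLE (𝕜 := ℝ) (E := ℝ)).continuous.continuousAt.comp c2)
  have hc : HasDerivAt (fun s => (s, y s)) (1, y') t := (hasDerivAt_id t).prodMk hy
  have h3 := key.hasFDerivAt.comp_hasDerivAt t hc
  have e : ((ContinuousLinearMap.toSpanSingleton ℝ (Ft t (y t))).coprod
      (ContinuousLinearMap.toSpanSingleton ℝ (Fx t (y t)))) ((1 : ℝ), y')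
      = Ft t (y t) + Fx t (y t) * y' := by
    simp [ContinuousLinearMap.coprod_apply, ContinuousLinearMap.toSpanSingleton_apply, mul_comm]
  rw [← e]
  exact h3

/-- Continuity of the Gaussian average. -/
lemma cont_avg {X : Type*} [TopologicalSpace X] [FirstCountableTopology X] {s : Set X}
    {G : X → ℝ → ℝ} {C : ℝ} (h1 : ∀ x ∈ s, Continuous (G x)) (h2 : ∀ x ∈ s, ∀ η, |G x η| ≤ C)
    (h3 : ∀ η, ContinuousOn (fun x => G x η) s) :
    ContinuousOn (fun x => ∫ η, G x η ∂gam) s := by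
  refine continuousOn_of_dominated (bound := fun _ => C) (fun x hx => (h1 x hx).aestronglyMeasurable)
    (fun x hx => Eventually.of_forall fun η => by simpa using h2 x hx η) (integrable_const C)
    (Eventually.of_forall fun η => h3 η)

/-- The path: `J(t) = ∫ F(t, z + √(2ε(T-t)) η) dγ`. -/
noncomputable def J (ε T z : ℝ) (F : ℝ → ℝ → ℝ) (t : ℝ) : ℝ :=
  ∫ η, F t (z + √(2 * ε * (T - t)) * η) ∂gam

lemma J_cont {ε T z C : ℝ} {F : ℝ → ℝ → ℝ} {I : Set ℝ}
    (hF : ContinuousOn (fun v : ℝ × ℝ => F v.1 v.2) (I ×ˢ univ))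
    (hb : ∀ t ∈ I, ∀ x, |F t x| ≤ C) :
    ContinuousOn (J ε T z F) I := by
  refine cont_avg (C := C) ?_ ?_ ?_
  · intro t ht
    have h1 : Continuous (F t) := by
      rw [← continuousOn_univ]
      exact hF.comp (f := fun x : ℝ => (t, x)) (by fun_prop) (fun x _ => ⟨ht, mem_univ _⟩)
    fun_prop
  · intro t ht η
    exact hb t ht _
  · intro η
    exact hF.comp (f := fun t : ℝ => (t, z + √(2 * ε * (T - t)) * η)) (by fun_prop)
      (fun t ht => ⟨ht, mem_univ _⟩)

lemma J_end (ε T z : ℝ) (F : ℝ → ℝ → ℝ) : J ε T z F T = F T z := by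
  simp [J]

/-- The derivative of the path average. -/
lemma J_deriv {ε T z a b t C : ℝ} (hε : 0 < ε) (hbT : b < T) (ht : t ∈ Ioo a b)
    {F Ft Fx Fxx : ℝ → ℝ → ℝ}
    (ct : ContinuousOn (fun v : ℝ × ℝ => Ft v.1 v.2) (Ioo a b ×ˢ univ))
    (cx : ContinuousOn (fun v : ℝ × ℝ => Fx v.1 v.2) (Ioo a b ×ˢ univ))
    (cxx : ContinuousOn (fun v : ℝ × ℝ => Fxx v.1 v.2) (Ioo a b ×ˢ univ))
    (dt : ∀ s ∈ Ioo a b, ∀ x, HasDerivAt (fun s => F s x) (Ft s x) s)
    (dx : ∀ s ∈ Ioo a b, ∀ x, HasDerivAt (F s) (Fx s x) x)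
    (dxx : ∀ s ∈ Ioo a b, ∀ x, HasDerivAt (Fx s) (Fxx s x) x)
    (b0 : ∀ s ∈ Ioo a b, ∀ x, |F s x| ≤ C)
    (bt : ∀ s ∈ Ioo a b, ∀ x, |Ft s x| ≤ C)
    (bx : ∀ s ∈ Ioo a b, ∀ x, |Fx s x| ≤ C)
    (bxx : ∀ s ∈ Ioo a b, ∀ x, |Fxx s x| ≤ C) :
    HasDerivAt (J ε T z F) (J ε T z (fun s x => Ft s x - ε * Fxx s x) t) t := by
  have hC : 0 ≤ C := (abs_nonneg _).trans (b0 t ht 0)
  have hopen : IsOpen (Ioo a b ×ˢ (univ : Set ℝ)) := isOpen_Ioo.prod isOpen_univ
  have cFs : ∀ s ∈ Ioo a b, Continuous (F s) := fun s hs =>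
    continuous_iff_continuousAt.2 fun x => (dx s hs x).continuousAt
  have slice : ∀ {G : ℝ → ℝ → ℝ}, ContinuousOn (fun v : ℝ × ℝ => G v.1 v.2) (Ioo a b ×ˢ univ) →
      ∀ s ∈ Ioo a b, Continuous (G s) := by
    intro G hG s hs
    rw [← continuousOn_univ]
    exact hG.comp (f := fun x : ℝ => (s, x)) (by fun_prop) (fun x _ => ⟨hs, mem_univ _⟩)
  have hr : ∀ s ∈ Ioo a b, 0 < 2 * ε * (T - s) := fun s hs => by
    have := hs.2
    have : 0 < T - s := by linarith
    positivity
  set K : ℝ := ε / √(2 * ε * (T - b)) with hK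
  have hK0 : 0 ≤ K := by positivity
  -- the derivative of the path
  have hy : ∀ s ∈ Ioo a b, ∀ η, HasDerivAt (fun s => z + √(2 * ε * (T - s)) * η)
      (-(ε / √(2 * ε * (T - s))) * η) s := by
    intro s hs η
    have h1 : HasDerivAt (fun s : ℝ => 2 * ε * (T - s)) (2 * ε * (0 - 1)) s :=
      ((hasDerivAt_const s T).sub (hasDerivAt_id s)).const_mul _
    have h2 := (h1.sqrt (hr s hs).ne').mul_const η
    have h3 := h2.const_add z
    have e3 : -(ε / √(2 * ε * (T - s))) * η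
        = 2 * ε * (0 - 1) / (2 * √(2 * ε * (T - s))) * η := by
      have : √(2 * ε * (T - s)) ≠ 0 := (Real.sqrt_pos.2 (hr s hs)).ne'
      field_simp
      ring
    rw [e3]
    exact h3
  have hdiff : ∀ s ∈ Ioo a b, ∀ η, HasDerivAt (fun s => F s (z + √(2 * ε * (T - s)) * η))
      (Ft s (z + √(2 * ε * (T - s)) * η) + Fx s (z + √(2 * ε * (T - s)) * η)
        * (-(ε / √(2 * ε * (T - s))) * η)) s := by
    intro s hs η
    have hnhds : Ioo a b ×ˢ (univ : Set ℝ) ∈ 𝓝 (s, z + √(2 * ε * (T - s)) * η) :=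
      hopen.mem_nhds ⟨hs, mem_univ _⟩
    refine along (hy s hs η) ?_ ?_ (ct.continuousAt hnhds) (cx.continuousAt hnhds)
    · filter_upwards [hnhds] with v hv using dt v.1 hv.1 v.2
    · filter_upwards [hnhds] with v hv using dx v.1 hv.1 v.2
  have hnb : Ioo a b ∈ 𝓝 t := Ioo_mem_nhds ht.1 ht.2
  have key := hasDerivAt_integral_of_dominated_loc_of_deriv_le (μ := gam) (x₀ := t)
    (s := Ioo a b) (bound := fun η => C + C * (K * |η|))
    (F := fun s η => F s (z + √(2 * ε * (T - s)) * η))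
    (F' := fun s η => Ft s (z + √(2 * ε * (T - s)) * η) + Fx s (z + √(2 * ε * (T - s)) * η)
        * (-(ε / √(2 * ε * (T - s))) * η)) hnb ?_ ?_ ?_ ?_ ?_ ?_
  · have h2 := key.2
    have e : ∫ η, (Ft t (z + √(2 * ε * (T - t)) * η) + Fx t (z + √(2 * ε * (T - t)) * η)
        * (-(ε / √(2 * ε * (T - t))) * η)) ∂gam = J ε T z (fun s x => Ft s x - ε * Fxx s x) t := by
      have r0 : √(2 * ε * (T - t)) ≠ 0 := (Real.sqrt_pos.2 (hr t ht)).ne'
      have cft := slice ct t ht
      have cfx := slice cx t ht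
      have cfxx := slice cxx t ht
      have i1 : Integrable (fun η => Ft t (z + √(2 * ε * (T - t)) * η)) gam :=
        integrable_of_bdd (C := C) (by fun_prop) (fun η => bt t ht _)
      have i2 : Integrable (fun η => Fxx t (z + √(2 * ε * (T - t)) * η)) gam :=
        integrable_of_bdd (C := C) (by fun_prop) (fun η => bxx t ht _)
      have i3 : Integrable (fun η => η * Fx t (z + √(2 * ε * (T - t)) * η)) gam := by
        have h5 := integrable_id_gam.bdd_mul (c := C) (f := fun η =>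
          Fx t (z + √(2 * ε * (T - t)) * η)) (by
            refine Continuous.aestronglyMeasurable ?_
            fun_prop)
          (Eventually.of_forall fun η => by simpa using bx t ht _)
        refine h5.congr (Eventually.of_forall fun η => ?_)
        simp only; ring
      have h4 := ibp (h := fun η => Fx t (z + √(2 * ε * (T - t)) * η))
        (h' := fun η => Fxx t (z + √(2 * ε * (T - t)) * η) * √(2 * ε * (T - t)))
        (C := C + C * √(2 * ε * (T - t))) ?_ ?_ ?_ ?_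
      · have e1 : ∫ η, (Ft t (z + √(2 * ε * (T - t)) * η) + Fx t (z + √(2 * ε * (T - t)) * η)
            * (-(ε / √(2 * ε * (T - t))) * η)) ∂gam
            = ∫ η, (Ft t (z + √(2 * ε * (T - t)) * η)) ∂gam + (-(ε / √(2 * ε * (T - t))))
              * ∫ η, η * Fx t (z + √(2 * ε * (T - t)) * η) ∂gam := by
          rw [← integral_const_mul, ← integral_add i1 (i3.const_mul _)]
          exact integral_congr_ae (Eventually.of_forall fun η => by simp only; ring)
        rw [e1, h4, integral_mul_const, J, integral_sub i1 (i2.const_mul _), integral_const_mul]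
        field_simp
        ring
      · intro η
        have h5 : HasDerivAt (fun η : ℝ => z + √(2 * ε * (T - t)) * η) (√(2 * ε * (T - t))) η := by
          have := ((hasDerivAt_id η).const_mul (√(2 * ε * (T - t)))).const_add z
          simpa using this
        exact (dxx t ht _).comp η h5
      · fun_prop
      · intro η
        have := bx t ht (z + √(2 * ε * (T - t)) * η)
        have : 0 ≤ C * √(2 * ε * (T - t)) := by positivity
        linarith
      · intro η
        rw [abs_mul, abs_of_nonneg (Real.sqrt_nonneg _)]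
        have h6 := mul_le_mul_of_nonneg_right (bxx t ht (z + √(2 * ε * (T - t)) * η))
          (Real.sqrt_nonneg (2 * ε * (T - t)))
        linarith
    rw [← e]
    exact h2
  · filter_upwards [hnb] with s hs
    refine Continuous.aestronglyMeasurable ?_
    have := cFs s hs
    fun_prop
  · have := cFs t ht
    exact integrable_of_bdd (C := C) (by fun_prop) (fun η => b0 t ht _)
  · refine Continuous.aestronglyMeasurable ?_
    have cft := slice ct t ht
    have cfx := slice cx t ht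
    fun_prop
  · refine Eventually.of_forall fun η s hs => ?_
    rw [Real.norm_eq_abs]
    refine (abs_add_le _ _).trans (add_le_add (bt s hs _) ?_)
    rw [abs_mul]
    refine mul_le_mul (bx s hs _) ?_ (abs_nonneg _) hC
    rw [abs_mul, abs_neg]
    refine mul_le_mul_of_nonneg_right ?_ (abs_nonneg _)
    rw [abs_of_nonneg (by positivity)]
    refine div_le_div_of_nonneg_left hε.le ?_ ?_
    · refine Real.sqrt_pos.2 ?_
      have : 0 < T - b := by linarith
      positivity
    · refine Real.sqrt_le_sqrt ?_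
      have := hs.2
      have h7 : T - b ≤ T - s := by linarith
      exact mul_le_mul_of_nonneg_left h7 (by positivity)
  · exact (integrable_const C).add ((integrable_id_gam.abs.const_mul K).const_mul C)
  · exact Eventually.of_forall fun η s hs => hdiff s hs η

/-- Bounded continuous functions. -/
def Bd (f : ℝ → ℝ) : Prop := Continuous f ∧ ∃ C, ∀ x, |f x| ≤ C

/-- The heat extension. -/
noncomputable def P (ε : ℝ) (w : ℝ → ℝ) (t x : ℝ) : ℝ := ∫ η, w (x + √(2 * ε * t) * η) ∂gam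

lemma P_cont {ε : ℝ} {w : ℝ → ℝ} (hw : Bd w) : Continuous (fun v : ℝ × ℝ => P ε w v.1 v.2) := by
  obtain ⟨hc, C, hC⟩ := hw
  rw [← continuousOn_univ]
  refine cont_avg (C := C) (G := fun v : ℝ × ℝ => fun η => w (v.2 + √(2 * ε * v.1) * η)) ?_ ?_ ?_
  · intro v _
    fun_prop
  · intro v _ η
    exact hC _
  · intro η
    refine Continuous.continuousOn ?_
    fun_prop

lemma P_zero (ε : ℝ) (w : ℝ → ℝ) (x : ℝ) : P ε w 0 x = w x := by simp [P]

lemma P_eq_J (ε T : ℝ) (w : ℝ → ℝ) (t x : ℝ) : P ε w t x = J ε T x (fun _ => w) (T - t) := by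
  simp [P, J]

lemma P_bdd {ε C : ℝ} {w : ℝ → ℝ} (hb : ∀ x, |w x| ≤ C) (t x : ℝ) : |P ε w t x| ≤ C := by
  have := norm_integral_le_of_norm_le_const (μ := gam) (C := C)
    (f := fun η => w (x + √(2 * ε * t) * η)) (Eventually.of_forall fun η => by simpa using hb _)
  simpa [P] using this

lemma P_per {ε : ℝ} {w : ℝ → ℝ} (hw : ∀ x, w (x + 1) = w x) (t x : ℝ) :
    P ε w t (x + 1) = P ε w t x := by
  unfold P
  congr 1
  funext η
  rw [← hw (x + √(2 * ε * t) * η)]; congr 1; ring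

lemma P_lower {ε m : ℝ} {w : ℝ → ℝ} (hw : Bd w) (hm : ∀ x, m ≤ w x) (t x : ℝ) :
    m ≤ P ε w t x := by
  obtain ⟨hc, C, hC⟩ := hw
  have h1 : ∫ _η, m ∂gam ≤ P ε w t x := by
    refine integral_mono (integrable_const _) (integrable_of_bdd (C := C) (by fun_prop)
      (fun η => hC _)) (fun η => hm _)
  simpa using h1

lemma P_dx {ε : ℝ} {w w' : ℝ → ℝ} (hw : Bd w) (hw' : Bd w') (hd : ∀ x, HasDerivAt w (w' x) x)
    (t x : ℝ) : HasDerivAt (P ε w t) (P ε w' t x) x := by
  obtain ⟨hc, C, hC⟩ := hw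
  obtain ⟨hc', C', hC'⟩ := hw'
  have key := hasDerivAt_integral_of_dominated_loc_of_deriv_le (μ := gam) (x₀ := x)
    (s := univ) (bound := fun _ => C') (F := fun y η => w (y + √(2 * ε * t) * η))
    (F' := fun y η => w' (y + √(2 * ε * t) * η)) univ_mem ?_ ?_ ?_ ?_ ?_ ?_
  · exact key.2
  · exact Eventually.of_forall fun y => Continuous.aestronglyMeasurable (by fun_prop)
  · exact integrable_of_bdd (C := C) (by fun_prop) (fun η => hC _)
  · exact Continuous.aestronglyMeasurable (by fun_prop)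
  · exact Eventually.of_forall fun η y _ => by simpa using hC' _
  · exact integrable_const _
  · refine Eventually.of_forall fun η y _ => ?_
    have h1 : HasDerivAt (fun y : ℝ => y + √(2 * ε * t) * η) 1 y :=
      (hasDerivAt_id y).add_const _
    have h2 := (hd (y + √(2 * ε * t) * η)).comp y h1
    rw [mul_one] at h2
    exact h2

lemma P_dt {ε : ℝ} (hε : 0 < ε) {w w' w'' : ℝ → ℝ} (hw : Bd w) (hw' : Bd w') (hw'' : Bd w'')
    (hd : ∀ x, HasDerivAt w (w' x) x) (hd' : ∀ x, HasDerivAt w' (w'' x) x) {t : ℝ} (ht : 0 < t)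
    (x : ℝ) : HasDerivAt (fun s => P ε w s x) (ε * P ε w'' t x) t := by
  obtain ⟨hc, C, hC⟩ := hw
  obtain ⟨hc', C', hC'⟩ := hw'
  obtain ⟨hc'', C'', hC''⟩ := hw''
  have b1 := (abs_nonneg _).trans (hC 0)
  have b2 := (abs_nonneg _).trans (hC' 0)
  have b3 := (abs_nonneg _).trans (hC'' 0)
  have key := J_deriv (ε := ε) (T := t + 1) (z := x) (a := 0) (b := 1 + t / 2) (t := t + 1 - t)
    (C := C + C' + C'') hε (by linarith) ⟨by linarith, by linarith⟩
    (F := fun _ => w) (Ft := fun _ _ => 0) (Fx := fun _ => w') (Fxx := fun _ => w'')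
    (by fun_prop) (Continuous.continuousOn (by fun_prop)) (Continuous.continuousOn (by fun_prop))
    (fun s _ x => hasDerivAt_const _ _) (fun s _ x => hd x) (fun s _ x => hd' x)
    (fun s _ x => by linarith [hC x]) (fun s _ x => by simp; positivity)
    (fun s _ x => by linarith [hC' x]) (fun s _ x => by linarith [hC'' x])
  have h1 : HasDerivAt (fun s : ℝ => t + 1 - s) (-1) t := by
    simpa using (hasDerivAt_id t).const_sub (t + 1)
  have h2 := key.comp t h1
  have e : J ε (t + 1) x (fun s x => 0 - ε * w'' x) (t + 1 - t) * (-1) = ε * P ε w'' t x := by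
    simp only [J, P, zero_sub, sub_sub_cancel]
    rw [integral_neg, integral_const_mul]
    ring
  rw [e] at h2
  refine h2.congr_of_eventuallyEq (Eventually.of_forall fun s => ?_)
  simp only [Function.comp]
  exact P_eq_J ε (t + 1) w s x

/-- A continuous periodic function on `K × ℝ`, `K` compact, is bounded. -/
lemma bdd_of_per {K : Set ℝ} (hK : IsCompact K) {G : ℝ → ℝ → ℝ}
    (hG : ContinuousOn (fun v : ℝ × ℝ => G v.1 v.2) (K ×ˢ univ))
    (hp : ∀ t ∈ K, ∀ x, G t (x + 1) = G t x) : ∃ C, ∀ t ∈ K, ∀ x, |G t x| ≤ C := by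
  obtain ⟨C, hC⟩ := (hK.prod (isCompact_Icc (a := (0 : ℝ)) (b := 1))).exists_bound_of_continuousOn
    (hG.mono (prod_mono_right (subset_univ _)))
  refine ⟨C, fun t ht x => ?_⟩
  have hper : Function.Periodic (G t) 1 := fun x => hp t ht x
  obtain ⟨y, hy, e⟩ := hper.exists_mem_Ico₀ one_pos x
  rw [e]
  have := hC (t, y) ⟨ht, hy.1, hy.2.le⟩
  simpa using this

lemma bd_of_per {w : ℝ → ℝ} (hc : Continuous w) (hp : ∀ x, w (x + 1) = w x) : Bd w := by
  refine ⟨hc, ?_⟩
  obtain ⟨C, hC⟩ := bdd_of_per (K := {0}) isCompact_singleton (G := fun _ => w)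
    (Continuous.continuousOn (by fun_prop)) (fun _ _ x => hp x)
  exact ⟨C, hC 0 rfl⟩

/-- Periodicity of the derivative. -/
lemma per_deriv {w w' : ℝ → ℝ} (hd : ∀ x, HasDerivAt w (w' x) x) (hp : ∀ x, w (x + 1) = w x) :
    ∀ x, w' (x + 1) = w' x := by
  intro x
  have h1 : HasDerivAt (fun y => w (y + 1)) (w' (x + 1)) x := (hd (x + 1)).comp_add_const x 1
  have h2 : (fun y => w (y + 1)) = w := funext hp
  rw [h2] at h1
  exact h1.unique (hd x)

/-- The path average of `F` (a function which is periodic in `x`, continuous up to the ends and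
`C^{1,2}` inside) is continuous on `[0, T]` and differentiable on `(0, T)`. -/
lemma J_main {ε T z : ℝ} (hε : 0 < ε) {F Ft Fx Fxx : ℝ → ℝ → ℝ}
    (hper : ∀ t ∈ Icc 0 T, ∀ x, F t (x + 1) = F t x)
    (c0 : ContinuousOn (fun v : ℝ × ℝ => F v.1 v.2) (Icc 0 T ×ˢ univ))
    (ct : ContinuousOn (fun v : ℝ × ℝ => Ft v.1 v.2) (Ioo 0 T ×ˢ univ))
    (cx : ContinuousOn (fun v : ℝ × ℝ => Fx v.1 v.2) (Ioo 0 T ×ˢ univ))
    (cxx : ContinuousOn (fun v : ℝ × ℝ => Fxx v.1 v.2) (Ioo 0 T ×ˢ univ))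
    (dt : ∀ s ∈ Ioo 0 T, ∀ x, HasDerivAt (fun s => F s x) (Ft s x) s)
    (dx : ∀ s ∈ Ioo 0 T, ∀ x, HasDerivAt (F s) (Fx s x) x)
    (dxx : ∀ s ∈ Ioo 0 T, ∀ x, HasDerivAt (Fx s) (Fxx s x) x) :
    ContinuousOn (J ε T z F) (Icc 0 T) ∧
      ∀ t ∈ Ioo 0 T, HasDerivAt (J ε T z F) (J ε T z (fun s x => Ft s x - ε * Fxx s x) t) t := by
  have pert : ∀ t ∈ Ioo 0 T, ∀ x, Ft t (x + 1) = Ft t x := by
    intro t ht x
    have h1 := dt t ht (x + 1)
    refine (h1.congr_of_eventuallyEq ?_).unique (dt t ht x)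
    filter_upwards [Ioo_mem_nhds ht.1 ht.2] with s hs
    exact (hper s ⟨hs.1.le, hs.2.le⟩ x).symm
  have perx : ∀ t ∈ Ioo 0 T, ∀ x, Fx t (x + 1) = Fx t x := fun t ht =>
    per_deriv (dx t ht) (hper t ⟨ht.1.le, ht.2.le⟩)
  have perxx : ∀ t ∈ Ioo 0 T, ∀ x, Fxx t (x + 1) = Fxx t x := fun t ht =>
    per_deriv (dxx t ht) (perx t ht)
  constructor
  · obtain ⟨C, hC⟩ := bdd_of_per isCompact_Icc c0 hper
    exact J_cont c0 hC
  · intro t ht
    obtain ⟨a, ha0, hat⟩ := exists_between ht.1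
    obtain ⟨b, htb, hbT⟩ := exists_between ht.2
    have hsub : Icc a b ⊆ Ioo 0 T := fun s hs => ⟨ha0.trans_le hs.1, hs.2.trans_lt hbT⟩
    have hsub' : Icc a b ⊆ Icc 0 T := fun s hs => ⟨(hsub hs).1.le, (hsub hs).2.le⟩
    obtain ⟨C0, hC0⟩ := bdd_of_per isCompact_Icc (c0.mono (prod_mono_left hsub'))
      (fun t ht => hper t (hsub' ht))
    obtain ⟨C1, hC1⟩ := bdd_of_per isCompact_Icc (ct.mono (prod_mono_left hsub))
      (fun t ht => pert t (hsub ht))
    obtain ⟨C2, hC2⟩ := bdd_of_per isCompact_Icc (cx.mono (prod_mono_left hsub))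
      (fun t ht => perx t (hsub ht))
    obtain ⟨C3, hC3⟩ := bdd_of_per isCompact_Icc (cxx.mono (prod_mono_left hsub))
      (fun t ht => perxx t (hsub ht))
    have hta : t ∈ Icc a b := ⟨hat.le, htb.le⟩
    have n0 := (abs_nonneg _).trans (hC0 t hta 0)
    have n1 := (abs_nonneg _).trans (hC1 t hta 0)
    have n2 := (abs_nonneg _).trans (hC2 t hta 0)
    have n3 := (abs_nonneg _).trans (hC3 t hta 0)
    have hs2 : Ioo a b ⊆ Ioo 0 T := Ioo_subset_Icc_self.trans hsub
    exact J_deriv (a := a) (b := b) (C := C0 + C1 + C2 + C3) hε hbT ⟨hat, htb⟩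
      (ct.mono (prod_mono_left hs2)) (cx.mono (prod_mono_left hs2))
      (cxx.mono (prod_mono_left hs2)) (fun s hs => dt s (hs2 hs)) (fun s hs => dx s (hs2 hs))
      (fun s hs => dxx s (hs2 hs))
      (fun s hs x => by linarith [hC0 s (Ioo_subset_Icc_self hs) x])
      (fun s hs x => by linarith [hC1 s (Ioo_subset_Icc_self hs) x])
      (fun s hs x => by linarith [hC2 s (Ioo_subset_Icc_self hs) x])
      (fun s hs x => by linarith [hC3 s (Ioo_subset_Icc_self hs) x])

/-- If `F_t = ε F_xx` then the average is constant. -/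
lemma J_const {ε T z : ℝ} (hε : 0 < ε) {F Ft Fx Fxx : ℝ → ℝ → ℝ}
    (hper : ∀ t ∈ Icc 0 T, ∀ x, F t (x + 1) = F t x)
    (c0 : ContinuousOn (fun v : ℝ × ℝ => F v.1 v.2) (Icc 0 T ×ˢ univ))
    (ct : ContinuousOn (fun v : ℝ × ℝ => Ft v.1 v.2) (Ioo 0 T ×ˢ univ))
    (cx : ContinuousOn (fun v : ℝ × ℝ => Fx v.1 v.2) (Ioo 0 T ×ˢ univ))
    (cxx : ContinuousOn (fun v : ℝ × ℝ => Fxx v.1 v.2) (Ioo 0 T ×ˢ univ))
    (dt : ∀ s ∈ Ioo 0 T, ∀ x, HasDerivAt (fun s => F s x) (Ft s x) s)
    (dx : ∀ s ∈ Ioo 0 T, ∀ x, HasDerivAt (F s) (Fx s x) x)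
    (dxx : ∀ s ∈ Ioo 0 T, ∀ x, HasDerivAt (Fx s) (Fxx s x) x)
    (heat : ∀ s ∈ Ioo 0 T, ∀ x, Ft s x = ε * Fxx s x) :
    ∀ t ∈ Icc 0 T, J ε T z F t = F T z := by
  obtain ⟨h1, h2⟩ := J_main (z := z) hε hper c0 ct cx cxx dt dx dxx
  intro t ht
  have h3 : ∀ s ∈ Ioo t T, HasDerivAt (J ε T z F) 0 s := by
    intro s hs
    have hs' : s ∈ Ioo 0 T := ⟨ht.1.trans_lt hs.1, hs.2⟩
    have := h2 s hs'
    have e : J ε T z (fun s x => Ft s x - ε * Fxx s x) s = 0 := by
      simp only [J]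
      rw [integral_eq_zero_of_ae]
      refine Eventually.of_forall fun η => ?_
      simp [heat s hs']
    rwa [e] at this
  have h4 := intervalIntegral.integral_eq_sub_of_hasDerivAt_of_le ht.2
    (h1.mono (Icc_subset_Icc_left ht.1)) h3 (intervalIntegrable_const)
  simp only [intervalIntegral.integral_zero] at h4
  have h5 := J_end ε T z F
  linarith

end Pool.Agent.X103.HeatG
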