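import Pool.Agent.X103.HeatG

/-!
# The Hopf-Cole transform on the circle (helper103)
-/

set_option autoImplicit false

open MeasureTheory ProbabilityTheory Filter Topology Set Real

namespace Pool.Agent.X103.HopfCole

open Pool.Agent.X103.HeatG

/-- A positive periodic `C³` function, with its derivatives. -/
structure Dat (ε : ℝ) (w w1 w2 w3 : ℝ → ℝ) : Prop where
  he : 0 < ε
  c3 : Continuous w3
  d0 : ∀ x, HasDerivAt w (w1 x) x
  d1 : ∀ x, HasDerivAt w1 (w2 x) x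
  d2 : ∀ x, HasDerivAt w2 (w3 x) x
  per : ∀ x, w (x + 1) = w x
  pos : ∀ x, 0 < w x

variable {ε : ℝ} {w w1 w2 w3 : ℝ → ℝ}

lemma Dat.c0 (D : Dat ε w w1 w2 w3) : Continuous w :=
  continuous_iff_continuousAt.2 fun x => (D.d0 x).continuousAt
lemma Dat.c1 (D : Dat ε w w1 w2 w3) : Continuous w1 :=
  continuous_iff_continuousAt.2 fun x => (D.d1 x).continuousAt
lemma Dat.c2 (D : Dat ε w w1 w2 w3) : Continuous w2 :=
  continuous_iff_continuousAt.2 fun x => (D.d2 x).continuousAt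
lemma Dat.per1 (D : Dat ε w w1 w2 w3) : ∀ x, w1 (x + 1) = w1 x := per_deriv D.d0 D.per
lemma Dat.per2 (D : Dat ε w w1 w2 w3) : ∀ x, w2 (x + 1) = w2 x := per_deriv D.d1 D.per1
lemma Dat.per3 (D : Dat ε w w1 w2 w3) : ∀ x, w3 (x + 1) = w3 x := per_deriv D.d2 D.per2
lemma Dat.b0 (D : Dat ε w w1 w2 w3) : Bd w := bd_of_per D.c0 D.per
lemma Dat.b1 (D : Dat ε w w1 w2 w3) : Bd w1 := bd_of_per D.c1 D.per1
lemma Dat.b2 (D : Dat ε w w1 w2 w3) : Bd w2 := bd_of_per D.c2 D.per2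
lemma Dat.b3 (D : Dat ε w w1 w2 w3) : Bd w3 := bd_of_per D.c3 D.per3

lemma Dat.lower (D : Dat ε w w1 w2 w3) : ∃ m, 0 < m ∧ ∀ x, m ≤ w x := by
  obtain ⟨y, _, hy⟩ := (isCompact_Icc (a := (0 : ℝ)) (b := 1)).exists_isMinOn
    ⟨0, by simp⟩ D.c0.continuousOn
  refine ⟨w y, D.pos y, fun x => ?_⟩
  obtain ⟨y', hy', e⟩ := (show Function.Periodic w 1 from D.per).exists_mem_Ico₀ one_pos x
  rw [e]
  exact hy ⟨hy'.1, hy'.2.le⟩

lemma Dat.Ppos (D : Dat ε w w1 w2 w3) (t x : ℝ) : 0 < P ε w t x := by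
  obtain ⟨m, hm, h⟩ := D.lower
  exact hm.trans_le (P_lower D.b0 h t x)

/-- `u = -2ε log φ`. -/
noncomputable def U (ε : ℝ) (w : ℝ → ℝ) (t x : ℝ) : ℝ := -2 * ε * Real.log (P ε w t x)

/-- `v = u_x = -2ε φ_x / φ`. -/
noncomputable def V (ε : ℝ) (w w1 : ℝ → ℝ) (t x : ℝ) : ℝ := -2 * ε * (P ε w1 t x / P ε w t x)

/-- `u_t`. -/
noncomputable def Ut (ε : ℝ) (w w2 : ℝ → ℝ) (t x : ℝ) : ℝ :=
  -2 * ε * (ε * P ε w2 t x / P ε w t x)

/-- `v_x`. -/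
noncomputable def Vx (ε : ℝ) (w w1 w2 : ℝ → ℝ) (t x : ℝ) : ℝ :=
  -2 * ε * ((P ε w2 t x * P ε w t x - P ε w1 t x * P ε w1 t x) / P ε w t x ^ 2)

/-- `v_t`. -/
noncomputable def Vt (ε : ℝ) (w w1 w2 w3 : ℝ → ℝ) (t x : ℝ) : ℝ :=
  -2 * ε * ((ε * P ε w3 t x * P ε w t x - P ε w1 t x * (ε * P ε w2 t x)) / P ε w t x ^ 2)

/-- `v_xx`. -/
noncomputable def Vxx (ε : ℝ) (w w1 w2 w3 : ℝ → ℝ) (t x : ℝ) : ℝ :=
  -2 * ε * (((P ε w3 t x * P ε w t x + P ε w2 t x * P ε w1 t x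
    - (P ε w2 t x * P ε w1 t x + P ε w1 t x * P ε w2 t x)) * P ε w t x ^ 2
    - (P ε w2 t x * P ε w t x - P ε w1 t x * P ε w1 t x) * (2 * P ε w t x * P ε w1 t x))
      / (P ε w t x ^ 2) ^ 2)

lemma Dat.cU (D : Dat ε w w1 w2 w3) : Continuous (fun v : ℝ × ℝ => U ε w v.1 v.2) := by
  have h0 := P_cont (ε := ε) D.b0
  exact continuous_const.mul (h0.log fun v => (D.Ppos v.1 v.2).ne')

lemma Dat.cV (D : Dat ε w w1 w2 w3) : Continuous (fun v : ℝ × ℝ => V ε w w1 v.1 v.2) := by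
  have h0 := P_cont (ε := ε) D.b0
  have h1 := P_cont (ε := ε) D.b1
  exact continuous_const.mul (h1.div h0 fun v => (D.Ppos v.1 v.2).ne')

lemma Dat.cUt (D : Dat ε w w1 w2 w3) : Continuous (fun v : ℝ × ℝ => Ut ε w w2 v.1 v.2) := by
  have h0 := P_cont (ε := ε) D.b0
  have h2 := P_cont (ε := ε) D.b2
  exact continuous_const.mul ((continuous_const.mul h2).div h0 fun v => (D.Ppos v.1 v.2).ne')

lemma Dat.cVx (D : Dat ε w w1 w2 w3) : Continuous (fun v : ℝ × ℝ => Vx ε w w1 w2 v.1 v.2) := by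
  have h0 := P_cont (ε := ε) D.b0
  have h1 := P_cont (ε := ε) D.b1
  have h2 := P_cont (ε := ε) D.b2
  exact continuous_const.mul (((h2.mul h0).sub (h1.mul h1)).div (h0.pow 2)
    fun v => (pow_pos (D.Ppos v.1 v.2) 2).ne')

lemma Dat.cVt (D : Dat ε w w1 w2 w3) :
    Continuous (fun v : ℝ × ℝ => Vt ε w w1 w2 w3 v.1 v.2) := by
  have h0 := P_cont (ε := ε) D.b0
  have h1 := P_cont (ε := ε) D.b1
  have h2 := P_cont (ε := ε) D.b2
  have h3 := P_cont (ε := ε) D.b3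
  exact continuous_const.mul ((((continuous_const.mul h3).mul h0).sub
    (h1.mul (continuous_const.mul h2))).div (h0.pow 2)
    fun v => (pow_pos (D.Ppos v.1 v.2) 2).ne')

lemma Dat.cVxx (D : Dat ε w w1 w2 w3) :
    Continuous (fun v : ℝ × ℝ => Vxx ε w w1 w2 w3 v.1 v.2) := by
  have h0 := P_cont (ε := ε) D.b0
  have h1 := P_cont (ε := ε) D.b1
  have h2 := P_cont (ε := ε) D.b2
  have h3 := P_cont (ε := ε) D.b3
  refine continuous_const.mul (Continuous.div ?_ ((h0.pow 2).pow 2)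
    fun v => (pow_pos (pow_pos (D.Ppos v.1 v.2) 2) 2).ne')
  exact ((((h3.mul h0).add (h2.mul h1)).sub ((h2.mul h1).add (h1.mul h2))).mul (h0.pow 2)).sub
    (((h2.mul h0).sub (h1.mul h1)).mul ((continuous_const.mul h0).mul h1))

lemma Dat.dU (D : Dat ε w w1 w2 w3) (t x : ℝ) : HasDerivAt (U ε w t) (V ε w w1 t x) x :=
  ((P_dx D.b0 D.b1 D.d0 t x).log (D.Ppos t x).ne').const_mul (-2 * ε)

lemma Dat.dUt (D : Dat ε w w1 w2 w3) {t : ℝ} (ht : 0 < t) (x : ℝ) :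
    HasDerivAt (fun s => U ε w s x) (Ut ε w w2 t x) t :=
  ((P_dt D.he D.b0 D.b1 D.b2 D.d0 D.d1 ht x).log (D.Ppos t x).ne').const_mul (-2 * ε)

lemma Dat.dV (D : Dat ε w w1 w2 w3) (t x : ℝ) : HasDerivAt (V ε w w1 t) (Vx ε w w1 w2 t x) x :=
  ((P_dx D.b1 D.b2 D.d1 t x).div (P_dx D.b0 D.b1 D.d0 t x) (D.Ppos t x).ne').const_mul (-2 * ε)

lemma Dat.dVt (D : Dat ε w w1 w2 w3) {t : ℝ} (ht : 0 < t) (x : ℝ) :
    HasDerivAt (fun s => V ε w w1 s x) (Vt ε w w1 w2 w3 t x) t :=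
  ((P_dt D.he D.b1 D.b2 D.b3 D.d1 D.d2 ht x).div (P_dt D.he D.b0 D.b1 D.b2 D.d0 D.d1 ht x)
    (D.Ppos t x).ne').const_mul (-2 * ε)

lemma Dat.dVx (D : Dat ε w w1 w2 w3) (t x : ℝ) :
    HasDerivAt (Vx ε w w1 w2 t) (Vxx ε w w1 w2 w3 t x) x := by
  have h0 := P_dx (ε := ε) D.b0 D.b1 D.d0 t x
  have h1 := P_dx (ε := ε) D.b1 D.b2 D.d1 t x
  have h2 := P_dx (ε := ε) D.b2 D.b3 D.d2 t x
  have h3 := (((h2.mul h0).sub (h1.mul h1)).div (h0.pow 2)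
    (pow_pos (D.Ppos t x) 2).ne').const_mul (-2 * ε)
  refine h3.congr_deriv ?_
  simp only [Vxx, Pi.mul_apply, Pi.sub_apply, Pi.pow_apply]
  norm_num

/-- The viscous Hamilton-Jacobi equation `u_t + u_x²/2 = ε u_xx`. -/
lemma Dat.pde (D : Dat ε w w1 w2 w3) (t x : ℝ) :
    Ut ε w w2 t x + V ε w w1 t x ^ 2 / 2 = ε * Vx ε w w1 w2 t x := by
  have h := (D.Ppos t x).ne'
  simp only [Ut, V, Vx]
  field_simp
  ring

/-- The Burgers equation `v_t + v v_x = ε v_xx`. -/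
lemma Dat.burgers (D : Dat ε w w1 w2 w3) (t x : ℝ) :
    Vt ε w w1 w2 w3 t x + V ε w w1 t x * Vx ε w w1 w2 t x = ε * Vxx ε w w1 w2 w3 t x := by
  have h := (D.Ppos t x).ne'
  simp only [Vt, V, Vx, Vxx]
  field_simp
  ring

lemma Dat.perV (D : Dat ε w w1 w2 w3) (t x : ℝ) : V ε w w1 t (x + 1) = V ε w w1 t x := by
  simp only [V, P_per D.per, P_per D.per1]

lemma Dat.perU (D : Dat ε w w1 w2 w3) (t x : ℝ) : U ε w t (x + 1) = U ε w t x := by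
  simp only [U, P_per D.per]

/-- Uniqueness for `u_t + u_x²/2 = ε u_xx`. -/
lemma Dat.unique (D : Dat ε w w1 w2 w3) {u ut ux uxx : ℝ → ℝ → ℝ}
    (hper : ∀ t, 0 ≤ t → ∀ x, u t (x + 1) = u t x)
    (hinit : ∀ x, w x = Real.exp (-u 0 x / (2 * ε)))
    (hc : ContinuousOn (fun v : ℝ × ℝ => u v.1 v.2) (Ici 0 ×ˢ univ))
    (ct : ContinuousOn (fun v : ℝ × ℝ => ut v.1 v.2) (Ioi 0 ×ˢ univ))
    (cx : ContinuousOn (fun v : ℝ × ℝ => ux v.1 v.2) (Ioi 0 ×ˢ univ))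
    (cxx : ContinuousOn (fun v : ℝ × ℝ => uxx v.1 v.2) (Ioi 0 ×ˢ univ))
    (dt : ∀ s, 0 < s → ∀ x, HasDerivAt (fun s => u s x) (ut s x) s)
    (dx : ∀ s, 0 < s → ∀ x, HasDerivAt (u s) (ux s x) x)
    (dxx : ∀ s, 0 < s → ∀ x, HasDerivAt (ux s) (uxx s x) x)
    (pde : ∀ s, 0 < s → ∀ x, ut s x + ux s x ^ 2 / 2 = ε * uxx s x)
    {T : ℝ} (hT : 0 ≤ T) (z : ℝ) : u T z = U ε w T z := by
  have he := D.he
  set F : ℝ → ℝ → ℝ := fun t x => Real.exp (-u t x / (2 * ε)) with hF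
  set Ft : ℝ → ℝ → ℝ := fun t x => Real.exp (-u t x / (2 * ε)) * (-ut t x / (2 * ε)) with hFt
  set Fx : ℝ → ℝ → ℝ := fun t x => Real.exp (-u t x / (2 * ε)) * (-ux t x / (2 * ε)) with hFx
  set Fxx : ℝ → ℝ → ℝ := fun t x => Real.exp (-u t x / (2 * ε)) * (-ux t x / (2 * ε))
      * (-ux t x / (2 * ε)) + Real.exp (-u t x / (2 * ε)) * (-uxx t x / (2 * ε)) with hFxx
  have sub : Ioo 0 T ×ˢ (univ : Set ℝ) ⊆ Ioi 0 ×ˢ univ := prod_mono_left fun s hs => hs.1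
  have sub' : Ioo 0 T ×ˢ (univ : Set ℝ) ⊆ Ici 0 ×ˢ univ := prod_mono_left fun s hs => hs.1.le
  have cF : ContinuousOn (fun v : ℝ × ℝ => F v.1 v.2) (Ici 0 ×ˢ univ) :=
    (hc.neg.div_const _).rexp
  have key := J_const (ε := ε) (T := T) (z := z) (F := F) (Ft := Ft) (Fx := Fx) (Fxx := Fxx) he
    (fun t ht x => by simp only [hF, hper t ht.1 x])
    (cF.mono (prod_mono_left fun s hs => hs.1))
    ((cF.mono sub').mul ((ct.mono sub).neg.div_const _))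
    ((cF.mono sub').mul ((cx.mono sub).neg.div_const _))
    ((((cF.mono sub').mul ((cx.mono sub).neg.div_const _)).mul
      ((cx.mono sub).neg.div_const _)).add ((cF.mono sub').mul ((cxx.mono sub).neg.div_const _)))
    (fun s hs x => ((dt s hs.1 x).neg.div_const _).exp)
    (fun s hs x => ((dx s hs.1 x).neg.div_const _).exp)
    (fun s hs x => (((dx s hs.1 x).neg.div_const _).exp).mul ((dxx s hs.1 x).neg.div_const _))
    (fun s hs x => by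
      have h := pde s hs.1 x
      have h1 : ut s x = ε * uxx s x - ux s x ^ 2 / 2 := by linarith
      simp only [hFt, hFxx, h1]
      field_simp
      ring)
    0 ⟨le_refl _, hT⟩
  have e1 : J ε T z F 0 = P ε w T z := by
    simp only [J, P, hF, sub_zero]
    congr 1
    funext η
    rw [hinit]
  rw [e1] at key
  rw [U, key, hF, Real.log_exp]
  field_simp

end Pool.Agent.X103.HopfCole
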