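import Pool.Agent.X103.Lap

/-!
# A compactly supported approximate fundamental solution of the Laplacian (helper103)
-/

set_option autoImplicit false

open MeasureTheory Set Filter Topology InnerProductSpace
open scoped Laplacian

namespace Pool.Agent.X103.Kern

/-- Euclidean space. -/
abbrev E (n : ℕ) : Type := EuclideanSpace ℝ (Fin n)

/-! ### The cut-off -/

/-- The cut-off. -/
noncomputable def th (s : ℝ) : ℝ := Real.smoothTransition ((4 - s) / 3)
noncomputable def th1 : ℝ → ℝ := deriv th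
noncomputable def th2 : ℝ → ℝ := deriv th1

lemma th_smooth : ContDiff ℝ (⊤ : ℕ∞) th :=
  Real.smoothTransition.contDiff.comp (by fun_prop)
lemma th_one {s : ℝ} (h : s ≤ 1) : th s = 1 :=
  Real.smoothTransition.one_of_one_le (by linarith)
lemma th_zero {s : ℝ} (h : 4 ≤ s) : th s = 0 :=
  Real.smoothTransition.zero_of_nonpos (by linarith)
lemma th_nonneg (s : ℝ) : 0 ≤ th s := Real.smoothTransition.nonneg _
lemma th_le_one (s : ℝ) : th s ≤ 1 := Real.smoothTransition.le_one _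

lemma th1_smooth : ContDiff ℝ (⊤ : ℕ∞) th1 := (contDiff_infty_iff_deriv.1 th_smooth).2
lemma th2_smooth : ContDiff ℝ (⊤ : ℕ∞) th2 := (contDiff_infty_iff_deriv.1 th1_smooth).2
lemma th_deriv (s : ℝ) : HasDerivAt th (th1 s) s :=
  ((contDiff_infty_iff_deriv.1 th_smooth).1 s).hasDerivAt
lemma th1_deriv (s : ℝ) : HasDerivAt th1 (th2 s) s :=
  ((contDiff_infty_iff_deriv.1 th1_smooth).1 s).hasDerivAt

lemma th1_of_lt {s : ℝ} (h : s < 1) : th1 s = 0 := by
  have : th =ᶠ[𝓝 s] fun _ => 1 := by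
    filter_upwards [gt_mem_nhds h] with y hy
    exact th_one hy.le
  unfold th1; rw [this.deriv_eq]; simp
lemma th1_of_gt {s : ℝ} (h : 4 < s) : th1 s = 0 := by
  have : th =ᶠ[𝓝 s] fun _ => 0 := by
    filter_upwards [lt_mem_nhds h] with y hy
    exact th_zero hy.le
  unfold th1; rw [this.deriv_eq]; simp
lemma th2_of_lt {s : ℝ} (h : s < 1) : th2 s = 0 := by
  have : th1 =ᶠ[𝓝 s] fun _ => 0 := by
    filter_upwards [gt_mem_nhds h] with y hy
    exact th1_of_lt hy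
  unfold th2; rw [this.deriv_eq]; simp
lemma th2_of_gt {s : ℝ} (h : 4 < s) : th2 s = 0 := by
  have : th1 =ᶠ[𝓝 s] fun _ => 0 := by
    filter_upwards [lt_mem_nhds h] with y hy
    exact th1_of_gt hy
  unfold th2; rw [this.deriv_eq]; simp

lemma exists_bound : ∃ A, 0 < A ∧ ∀ s, |th1 s| ≤ A ∧ |th2 s| ≤ A := by
  obtain ⟨A1, h1⟩ := (isCompact_Icc (a := (1:ℝ)) (b := 4)).exists_bound_of_continuousOn
    th1_smooth.continuous.continuousOn
  obtain ⟨A2, h2⟩ := (isCompact_Icc (a := (1:ℝ)) (b := 4)).exists_bound_of_continuousOn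
    th2_smooth.continuous.continuousOn
  have a1 : 0 ≤ A1 := (norm_nonneg _).trans (h1 1 (by simp))
  have a2 : 0 ≤ A2 := (norm_nonneg _).trans (h2 1 (by simp))
  refine ⟨A1 + A2 + 1, by positivity, fun s => ?_⟩
  rcases lt_or_ge s 1 with h | h
  · rw [th1_of_lt h, th2_of_lt h]; simp; positivity
  rcases lt_or_ge 4 s with h' | h'
  · rw [th1_of_gt h', th2_of_gt h']; simp; positivity
  have := h1 s ⟨h, h'⟩
  have := h2 s ⟨h, h'⟩
  rw [Real.norm_eq_abs] at *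
  constructor <;> linarith

/-! ### Radial functions -/

variable {n : ℕ}

lemma q_deriv (x v : E n) (t : ℝ) :
    HasDerivAt (fun t : ℝ => ‖x + t • v‖ ^ 2) (2 * inner ℝ x v + 2 * t * ‖v‖ ^ 2) t := by
  have h : (fun t : ℝ => ‖x + t • v‖ ^ 2) =
      fun t => ‖x‖ ^ 2 + 2 * inner ℝ x v * t + ‖v‖ ^ 2 * t ^ 2 := by
    funext t
    rw [norm_add_sq_real, inner_smul_right, norm_smul, mul_pow, Real.norm_eq_abs, sq_abs]
    ring
  rw [h]
  have h3 := (((hasDerivAt_id t).const_mul (2 * inner ℝ x v)).const_add (‖x‖ ^ 2)).add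
    (((hasDerivAt_pow 2 t)).const_mul (‖v‖ ^ 2))
  refine HasDerivAt.congr_deriv h3 ?_
  simp; ring

/-- The Laplacian of a radial function. -/
theorem radial_lap {k0 k1 k2 : ℝ → ℝ} {a : ℝ} (ha : a < 0)
    (h0 : ∀ s, a < s → HasDerivAt k0 (k1 s) s) (h1 : ∀ s, a < s → HasDerivAt k1 (k2 s) s)
    (hK : ContDiff ℝ 2 fun y : E n => k0 (‖y‖ ^ 2)) (x : E n) :
    (Δ fun y : E n => k0 (‖y‖ ^ 2)) x =
      4 * ‖x‖ ^ 2 * k2 (‖x‖ ^ 2) + 2 * n * k1 (‖x‖ ^ 2) := by
  rw [laplacian_eq_iteratedFDeriv_orthonormalBasis _ (EuclideanSpace.basisFun (Fin n) ℝ)]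
  have hpos : ∀ y : E n, a < ‖y‖ ^ 2 := fun y => ha.trans_le (by positivity)
  have hi : ∀ i : Fin n, iteratedFDeriv ℝ 2 (fun y : E n => k0 (‖y‖ ^ 2)) x
      ![EuclideanSpace.basisFun (Fin n) ℝ i, EuclideanSpace.basisFun (Fin n) ℝ i] =
      4 * x i ^ 2 * k2 (‖x‖ ^ 2) + 2 * k1 (‖x‖ ^ 2) := by
    intro i
    set v := EuclideanSpace.basisFun (Fin n) ℝ i with hv
    have hvn : ‖v‖ = 1 := (EuclideanSpace.basisFun (Fin n) ℝ).norm_eq_one i
    have hin : inner ℝ x v = x i := by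
      rw [hv, EuclideanSpace.basisFun_apply, EuclideanSpace.inner_single_right]; simp
    have hg : ∀ t : ℝ, HasDerivAt (fun t : ℝ => (fun y : E n => k0 (‖y‖ ^ 2)) (x + t • v))
        (k1 (‖x + t • v‖ ^ 2) * (2 * inner ℝ x v + 2 * t * ‖v‖ ^ 2)) t := fun t =>
      (h0 _ (hpos _)).comp t (q_deriv x v t)
    have hc : HasDerivAt (fun t : ℝ => k1 (‖x + t • v‖ ^ 2) *
        (2 * inner ℝ x v + 2 * t * ‖v‖ ^ 2))
        (4 * x i ^ 2 * k2 (‖x‖ ^ 2) + 2 * k1 (‖x‖ ^ 2)) 0 := by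
      have e1 : HasDerivAt (fun t : ℝ => k1 (‖x + t • v‖ ^ 2))
          (k2 (‖x + (0:ℝ) • v‖ ^ 2) * (2 * inner ℝ x v + 2 * 0 * ‖v‖ ^ 2)) 0 :=
        (h1 _ (hpos _)).comp (0:ℝ) (q_deriv x v 0)
      have e2 : HasDerivAt (fun t : ℝ => 2 * inner ℝ x v + 2 * t * ‖v‖ ^ 2)
          (2 * ‖v‖ ^ 2) 0 := by
        have := (((hasDerivAt_id (0:ℝ)).const_mul 2).mul_const (‖v‖ ^ 2)).const_add
          (2 * inner ℝ x v)
        simpa using this
      refine HasDerivAt.congr_deriv (e1.mul e2) ?_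
      rw [hin, hvn]
      simp only [zero_smul, add_zero]
      ring
    exact Pool.Agent.X103.Lap.iteratedFDeriv_two_line hK x v hg hc
  simp only [hi]
  rw [Finset.sum_add_distrib, Finset.sum_const, Finset.card_univ, Fintype.card_fin,
    nsmul_eq_mul, ← Finset.sum_mul, ← Finset.mul_sum]
  have : ∑ i, x i ^ 2 = ‖x‖ ^ 2 := by
    rw [EuclideanSpace.norm_sq_eq]; simp
  rw [this]; ring

/-! ### The profile -/

/-- `(ε² + s)^p`. -/
noncomputable def ap (ε p s : ℝ) : ℝ := (ε ^ 2 + s) ^ p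

lemma ap_deriv {ε s : ℝ} (p : ℝ) (h : -ε ^ 2 < s) :
    HasDerivAt (ap ε p) (p * ap ε (p - 1) s) s := by
  have h1 : HasDerivAt (fun s : ℝ => ε ^ 2 + s) 1 s := (hasDerivAt_id s).const_add _
  have h2 := h1.rpow_const (p := p) (Or.inl (by linarith))
  refine HasDerivAt.congr_deriv h2 ?_
  unfold ap; ring

lemma ap_pos {ε s : ℝ} (hε : 0 < ε) (hs : 0 ≤ s) (p : ℝ) : 0 < ap ε p s :=
  Real.rpow_pos_of_pos (by positivity) _

/-- The profile and its derivatives. -/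
noncomputable def k0 (ε L m s : ℝ) : ℝ := ap ε (-m) s * th (s / L ^ 2)
noncomputable def k1 (ε L m s : ℝ) : ℝ :=
  -m * ap ε (-m - 1) s * th (s / L ^ 2) + ap ε (-m) s * (th1 (s / L ^ 2) / L ^ 2)
noncomputable def k2 (ε L m s : ℝ) : ℝ :=
  -m * ((-m - 1) * ap ε (-m - 2) s) * th (s / L ^ 2)
    + 2 * (-m * ap ε (-m - 1) s * (th1 (s / L ^ 2) / L ^ 2))
    + ap ε (-m) s * (th2 (s / L ^ 2) / L ^ 4)

lemma k0_deriv {ε L m s : ℝ} (h : -ε ^ 2 < s) : HasDerivAt (k0 ε L m) (k1 ε L m s) s := by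
  have h1 := ap_deriv (-m) h
  have h2 : HasDerivAt (fun s : ℝ => th (s / L ^ 2)) (th1 (s / L ^ 2) / L ^ 2) s := by
    have := (th_deriv (s / L ^ 2)).comp s ((hasDerivAt_id s).div_const (L ^ 2))
    refine HasDerivAt.congr_deriv this ?_
    ring
  exact h1.mul h2

lemma k1_deriv {ε L m s : ℝ} (h : -ε ^ 2 < s) : HasDerivAt (k1 ε L m) (k2 ε L m s) s := by
  have h1 := ap_deriv (-m) h
  have h1' := (ap_deriv (-m - 1) h).const_mul (-m)
  have h2 : HasDerivAt (fun s : ℝ => th (s / L ^ 2)) (th1 (s / L ^ 2) / L ^ 2) s := by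
    have := (th_deriv (s / L ^ 2)).comp s ((hasDerivAt_id s).div_const (L ^ 2))
    refine HasDerivAt.congr_deriv this ?_
    ring
  have h3 : HasDerivAt (fun s : ℝ => th1 (s / L ^ 2) / L ^ 2) (th2 (s / L ^ 2) / L ^ 4) s := by
    have := ((th1_deriv (s / L ^ 2)).comp s ((hasDerivAt_id s).div_const (L ^ 2))).div_const (L ^ 2)
    refine HasDerivAt.congr_deriv this ?_
    ring
  refine HasDerivAt.congr_deriv ((h1'.mul h2).add (h1.mul h3)) ?_
  unfold k2
  rw [show -m - 1 - 1 = -m - 2 by ring]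
  ring

/-- The error term. -/
noncomputable def er (ε L m s : ℝ) : ℝ :=
  4 * s * (2 * (-m * ap ε (-m - 1) s * (th1 (s / L ^ 2) / L ^ 2))
    + ap ε (-m) s * (th2 (s / L ^ 2) / L ^ 4)) +
  (4 * m + 4) * (ap ε (-m) s * (th1 (s / L ^ 2) / L ^ 2))

lemma ap_succ {ε s : ℝ} (hε : 0 < ε) (hs : 0 ≤ s) (m : ℝ) :
    ap ε (-m - 1) s = (ε ^ 2 + s) * ap ε (-m - 2) s := by
  unfold ap
  rw [show -m - 1 = 1 + (-m - 2) by ring, Real.rpow_add (by positivity), Real.rpow_one]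

lemma lap_id {ε L m s : ℝ} (hε : 0 < ε) (hs : 0 ≤ s) :
    4 * s * k2 ε L m s + (4 * m + 4) * k1 ε L m s =
      -(4 * m * (m + 1) * ε ^ 2 * ap ε (-m - 2) s * th (s / L ^ 2)) + er ε L m s := by
  unfold k1 k2 er
  rw [ap_succ hε hs]
  ring

lemma er_zero_of_lt {ε L m s : ℝ} (hL : 0 < L) (h : s < L ^ 2) : er ε L m s = 0 := by
  have h1 : s / L ^ 2 < 1 := by rw [div_lt_one (by positivity)]; exact h
  unfold er; rw [th1_of_lt h1, th2_of_lt h1]; simp
lemma er_zero_of_gt {ε L m s : ℝ} (hL : 0 < L) (h : 4 * L ^ 2 < s) : er ε L m s = 0 := by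
  have h1 : 4 < s / L ^ 2 := by rw [lt_div_iff₀ (by positivity)]; exact h
  unfold er; rw [th1_of_gt h1, th2_of_gt h1]; simp

lemma ap_le {ε L s p : ℝ} (hL : 0 < L) (hp : p ≤ 0) (h : L ^ 2 ≤ s) :
    ap ε p s ≤ L ^ (2 * p) := by
  unfold ap
  calc (ε ^ 2 + s) ^ p ≤ (L ^ 2) ^ p :=
        Real.rpow_le_rpow_of_nonpos (by positivity) (by nlinarith [sq_nonneg ε]) hp
    _ = L ^ (2 * p) := by rw [← Real.rpow_natCast, ← Real.rpow_mul hL.le]; norm_num

lemma er_bound {A : ℝ} (hA : 0 < A) (hb : ∀ s, |th1 s| ≤ A ∧ |th2 s| ≤ A) {ε L m s : ℝ}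
    (hε : 0 < ε) (hL : 0 < L) (hm : 0 < m) (hs : 0 ≤ s) :
    |er ε L m s| ≤ A * (36 * m + 20) * L ^ (-2 * m - 2) := by
  rcases lt_or_ge s (L ^ 2) with h | h
  · rw [er_zero_of_lt hL h]; simp; positivity
  rcases lt_or_ge (4 * L ^ 2) s with h' | h'
  · rw [er_zero_of_gt hL h']; simp; positivity
  obtain ⟨b1, b2⟩ := hb (s / L ^ 2)
  have a0 : ap ε (-m) s ≤ L ^ (-2 * m) := by
    have := ap_le (ε := ε) hL (by linarith : -m ≤ 0) h
    rwa [show 2 * -m = -2 * m by ring] at this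
  have a1 : ap ε (-m - 1) s ≤ L ^ (-2 * m - 2) := by
    have := ap_le (ε := ε) hL (by linarith : -m - 1 ≤ 0) h
    rwa [show 2 * (-m - 1) = -2 * m - 2 by ring] at this
  have p0 := ap_pos hε hs (-m)
  have p1 := ap_pos hε hs (-m - 1)
  have hLm : L ^ (-2 * m) = L ^ (-2 * m - 2) * L ^ 2 := by
    rw [← Real.rpow_natCast L 2, ← Real.rpow_add hL]; congr 1; push_cast; ring
  set X := L ^ (-2 * m - 2) with hX
  have hXp : 0 < X := Real.rpow_pos_of_pos hL _
  have hL2 : 0 < L ^ 2 := by positivity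
  have t1 : |ap ε (-m - 1) s * (th1 (s / L ^ 2) / L ^ 2)| ≤ X * A / L ^ 2 := by
    rw [abs_mul, abs_of_pos p1, abs_div, abs_of_pos hL2, mul_div_assoc]
    gcongr
  have t2 : |ap ε (-m) s * (th2 (s / L ^ 2) / L ^ 4)| ≤ X * A / L ^ 2 := by
    rw [abs_mul, abs_of_pos p0, abs_div, abs_of_pos (by positivity : 0 < L ^ 4)]
    calc ap ε (-m) s * (|th2 (s / L ^ 2)| / L ^ 4) ≤ (X * L ^ 2) * (A / L ^ 4) := by
          rw [← hLm]; gcongr
      _ = X * A / L ^ 2 := by field_simp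
  have t3 : |ap ε (-m) s * (th1 (s / L ^ 2) / L ^ 2)| ≤ X * A := by
    rw [abs_mul, abs_of_pos p0, abs_div, abs_of_pos hL2]
    calc ap ε (-m) s * (|th1 (s / L ^ 2)| / L ^ 2) ≤ (X * L ^ 2) * (A / L ^ 2) := by
          rw [← hLm]; gcongr
      _ = X * A := by field_simp
  have e1 : er ε L m s = -(8 * m * s) * (ap ε (-m - 1) s * (th1 (s / L ^ 2) / L ^ 2)) +
      4 * s * (ap ε (-m) s * (th2 (s / L ^ 2) / L ^ 4)) +
      (4 * m + 4) * (ap ε (-m) s * (th1 (s / L ^ 2) / L ^ 2)) := by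
    unfold er; ring
  rw [e1]
  have s1 : |-(8 * m * s) * (ap ε (-m - 1) s * (th1 (s / L ^ 2) / L ^ 2))| ≤
      32 * m * (X * A) := by
    rw [abs_mul, abs_neg, abs_of_nonneg (by positivity : 0 ≤ 8 * m * s)]
    calc 8 * m * s * |ap ε (-m - 1) s * (th1 (s / L ^ 2) / L ^ 2)|
        ≤ 8 * m * (4 * L ^ 2) * (X * A / L ^ 2) := by gcongr
      _ = 32 * m * (X * A) := by field_simp; ring
  have s2 : |4 * s * (ap ε (-m) s * (th2 (s / L ^ 2) / L ^ 4))| ≤ 16 * (X * A) := by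
    rw [abs_mul, abs_of_nonneg (by positivity : 0 ≤ 4 * s)]
    calc 4 * s * |ap ε (-m) s * (th2 (s / L ^ 2) / L ^ 4)|
        ≤ 4 * (4 * L ^ 2) * (X * A / L ^ 2) := by gcongr
      _ = 16 * (X * A) := by field_simp; ring
  have s3 : |(4 * m + 4) * (ap ε (-m) s * (th1 (s / L ^ 2) / L ^ 2))| ≤
      (4 * m + 4) * (X * A) := by
    rw [abs_mul, abs_of_nonneg (by positivity : 0 ≤ 4 * m + 4)]
    gcongr
  calc _ ≤ _ := abs_add_three _ _ _
    _ ≤ 32 * m * (X * A) + 16 * (X * A) + (4 * m + 4) * (X * A) := by linarith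
    _ = A * (36 * m + 20) * X := by ring

/-! ### The kernel -/

/-- Unnormalised Poisson-type density. -/
noncomputable def Pd (n : ℕ) (ε : ℝ) (y : E n) : ℝ := ε ^ 2 * ap ε (-((n : ℝ) + 2) / 2) (‖y‖ ^ 2)

lemma Pd_nonneg {ε : ℝ} (hε : 0 < ε) (y : E n) : 0 ≤ Pd n ε y := by
  have := ap_pos hε (by positivity : (0:ℝ) ≤ ‖y‖ ^ 2) (-((n : ℝ) + 2) / 2)
  unfold Pd; positivity

lemma Pd_integrable : Integrable (Pd n 1) volume := by
  have h := integrable_rpow_neg_one_add_norm_sq (E := E n) (μ := volume) (r := (n : ℝ) + 2)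
    (by rw [finrank_euclideanSpace_fin]; linarith)
  refine h.congr (Eventually.of_forall fun y => ?_)
  unfold Pd ap
  simp

/-- Scaling. -/
lemma Pd_scale {ε : ℝ} (hε : 0 < ε) (y : E n) : Pd n ε y = (ε ^ n)⁻¹ * Pd n 1 (ε⁻¹ • y) := by
  unfold Pd ap
  have h1 : (ε ^ 2 + ‖y‖ ^ 2) = ε ^ 2 * (1 ^ 2 + ‖ε⁻¹ • y‖ ^ 2) := by
    rw [norm_smul, norm_inv, Real.norm_of_nonneg hε.le]; field_simp
  rw [h1, Real.mul_rpow (by positivity) (by positivity)]
  have h2 : (ε ^ 2) ^ (-((n : ℝ) + 2) / 2) = (ε ^ n)⁻¹ * (ε ^ 2)⁻¹ := by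
    rw [← Real.rpow_natCast ε 2, ← Real.rpow_mul hε.le, ← Real.rpow_natCast ε n,
      ← Real.rpow_neg hε.le, ← Real.rpow_neg hε.le, ← Real.rpow_add hε]
    congr 1; push_cast; ring
  rw [h2]
  field_simp

lemma Pd_setIntegral {ε r : ℝ} (hε : 0 < ε) :
    ∫ y in Metric.ball (0 : E n) (ε * r), Pd n ε y = ∫ y in Metric.ball (0 : E n) r, Pd n 1 y := by
  simp only [Pd_scale hε]
  rw [integral_const_mul, Measure.setIntegral_comp_smul_of_pos volume (Pd n 1) _
    (inv_pos.2 hε), finrank_euclideanSpace_fin, _root_.smul_ball (inv_pos.2 hε).ne',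
    smul_zero, norm_inv, Real.norm_of_nonneg hε.le, inv_mul_cancel_left₀ hε.ne']
  rw [inv_pow, inv_inv, smul_eq_mul, ← mul_assoc, inv_mul_cancel₀ (by positivity), one_mul]

lemma Pd_integrable' {ε : ℝ} (hε : 0 < ε) : Integrable (Pd n ε) volume := by
  have h : Pd n ε = fun y => (ε ^ n)⁻¹ * Pd n 1 (ε⁻¹ • y) := funext fun y => Pd_scale hε y
  rw [h]
  exact (Pd_integrable.comp_smul (inv_ne_zero hε.ne')).const_mul _

lemma Pd_integral {ε : ℝ} (hε : 0 < ε) : ∫ y, Pd n ε y = ∫ y, Pd n 1 y := by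
  simp only [Pd_scale hε]
  rw [integral_const_mul, Measure.integral_comp_smul_of_nonneg volume (Pd n 1) _
    (hR := (inv_pos.2 hε).le), finrank_euclideanSpace_fin]
  rw [inv_pow, inv_inv, smul_eq_mul, ← mul_assoc, inv_mul_cancel₀ (by positivity), one_mul]

lemma Pd_pos_integral : 0 < ∫ y, Pd n 1 y := by
  rw [integral_pos_iff_support_of_nonneg (fun y => Pd_nonneg one_pos y) Pd_integrable]
  have : Function.support (Pd n 1) = univ := by
    ext y
    simp only [Function.mem_support, mem_univ, iff_true]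
    have := ap_pos one_pos (by positivity : (0:ℝ) ≤ ‖y‖ ^ 2) (-((n : ℝ) + 2) / 2)
    unfold Pd; positivity
  rw [this]
  exact Measure.measure_univ_pos.2 (NeZero.ne _)

lemma exists_radius {τ : ℝ} (hτ : 0 < τ) : ∃ r, 0 < r ∧
    (1 - τ) * ∫ y, Pd n 1 y ≤ ∫ y in Metric.ball (0 : E n) r, Pd n 1 y := by
  have hI := Pd_pos_integral (n := n)
  have h : Tendsto (fun r : ℝ => ∫ y in Metric.ball (0 : E n) r, Pd n 1 y) atTop
      (𝓝 (∫ y, Pd n 1 y)) :=
    (aecover_ball tendsto_id).integral_tendsto_of_countably_generated Pd_integrable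
  have h1 : (1 - τ) * ∫ y, Pd n 1 y < ∫ y, Pd n 1 y := by nlinarith
  obtain ⟨r, hr, hr2⟩ := ((h.eventually (lt_mem_nhds h1)).and (eventually_gt_atTop 0)).exists
  exact ⟨r, hr2, hr.le⟩

lemma smooth_kernel {ε L m : ℝ} (hε : 0 < ε) :
    ContDiff ℝ (⊤ : ℕ∞) fun y : E n => k0 ε L m (‖y‖ ^ 2) := by
  unfold k0 ap
  have h1 : ContDiff ℝ (⊤ : ℕ∞) fun y : E n => ‖y‖ ^ 2 := contDiff_norm_sq ℝ
  refine ContDiff.mul ?_ (th_smooth.comp (h1.div_const _))
  exact (contDiff_const.add h1).rpow_const_of_ne fun y => by positivity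

lemma compact_of_zero {f : E n → ℝ} {R : ℝ} (h : ∀ y, R < ‖y‖ → f y = 0) :
    HasCompactSupport f := by
  apply HasCompactSupport.of_support_subset_isCompact (isCompact_closedBall (0 : E n) R)
  intro y hy
  rw [mem_closedBall_zero_iff]
  by_contra h1
  push Not at h1
  exact hy (h y h1)

/-- The main lemma on kernels: a nonnegative `K ∈ C_c^∞` with `-ΔK = Q - e`, where `Q ≥ 0` has
integral at most one, almost concentrated in the ball of radius `δ`, and `e` is small. -/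
theorem exists_kernel (hn : 3 ≤ n) {δ τ : ℝ} (hδ : 0 < δ) (hτ : 0 < τ) :
    ∃ K Q e : E n → ℝ, ContDiff ℝ (⊤ : ℕ∞) K ∧ HasCompactSupport K ∧ (∀ y, 0 ≤ K y) ∧
      Continuous Q ∧ HasCompactSupport Q ∧ (∀ y, 0 ≤ Q y) ∧
      Continuous e ∧ HasCompactSupport e ∧
      (∀ y, (Δ K) y = -Q y + e y) ∧ ∫ y, Q y ≤ 1 ∧
      1 - τ ≤ ∫ y in Metric.ball (0 : E n) δ, Q y ∧ (∀ y, |e y| ≤ τ) ∧ ∫ y, e y ^ 2 ≤ τ := by
  have hn0 : 0 < n := by omega
  have hnR : (3 : ℝ) ≤ n := by exact_mod_cast hn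
  obtain ⟨A, hA, hb⟩ := exists_bound
  set I := ∫ y, Pd n 1 y with hI
  have hI0 : 0 < I := Pd_pos_integral
  obtain ⟨r, hr, hr1⟩ := exists_radius (n := n) hτ
  set ε := δ / r with hε
  have hε0 : 0 < ε := by positivity
  set m : ℝ := ((n : ℝ) - 2) / 2 with hm
  have hm0 : 0 < m := by rw [hm]; linarith
  set c0 : ℝ := 1 / (4 * m * (m + 1) * I) with hc0
  have hc0p : 0 < c0 := by positivity
  -- constants
  set C : ℝ := c0 * (A * (36 * m + 20)) with hC
  have hC0 : 0 < C := by positivity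
  set vn : ℝ := (volume (Metric.closedBall (0 : E n) 1)).toReal with hvn
  have hvn0 : 0 ≤ vn := ENNReal.toReal_nonneg
  have hex : -2 * m - 2 = -(n : ℝ) := by rw [hm]; ring
  -- choice of `L`
  obtain ⟨L, hL1, hL2, hL3, hL4⟩ : ∃ L : ℝ, 0 < L ∧ δ ≤ L ∧ C * L ^ (-(n : ℝ)) ≤ τ ∧
      (C * L ^ (-(n : ℝ))) ^ 2 * ((2 * L) ^ n * vn) ≤ τ := by
    have t1 : Tendsto (fun L : ℝ => L ^ (-(n : ℝ))) atTop (𝓝 0) :=
      tendsto_rpow_neg_atTop (by linarith)
    have t2 : Tendsto (fun L : ℝ => C * L ^ (-(n : ℝ))) atTop (𝓝 0) := by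
      simpa using t1.const_mul C
    have t3 : Tendsto (fun L : ℝ => (C * L ^ (-(n : ℝ))) ^ 2 * ((2 * L) ^ n * vn)) atTop (𝓝 0) := by
      have : Tendsto (fun L : ℝ => C ^ 2 * 2 ^ n * vn * L ^ (-(n : ℝ))) atTop (𝓝 0) := by
        simpa using t1.const_mul (C ^ 2 * 2 ^ n * vn)
      refine this.congr' ?_
      filter_upwards [eventually_gt_atTop 0] with L hL
      have e1 : L ^ (-(n : ℝ)) * L ^ n = 1 := by
        rw [← Real.rpow_natCast L n, ← Real.rpow_add hL]; simp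
      rw [mul_pow 2 L n]
      calc C ^ 2 * 2 ^ n * vn * L ^ (-(n : ℝ)) =
          C ^ 2 * 2 ^ n * vn * L ^ (-(n : ℝ)) * (L ^ (-(n : ℝ)) * L ^ n) := by rw [e1, mul_one]
        _ = _ := by ring
    obtain ⟨L, ⟨⟨h1, h2⟩, h3⟩, h4⟩ := (((eventually_gt_atTop (0:ℝ)).and
      (eventually_ge_atTop δ)).and (t2.eventually (gt_mem_nhds hτ))).and
      (t3.eventually (gt_mem_nhds hτ)) |>.exists
    exact ⟨L, h1, h2, h3.le, h4.le⟩
  have hsm : ContDiff ℝ (⊤ : ℕ∞) fun y : E n => k0 ε L m (‖y‖ ^ 2) := smooth_kernel hε0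
  have hsm2 : ContDiff ℝ 2 fun y : E n => k0 ε L m (‖y‖ ^ 2) := by
    exact_mod_cast contDiff_infty.1 hsm 2
  have hth : ∀ y : E n, 2 * L < ‖y‖ → th (‖y‖ ^ 2 / L ^ 2) = 0 := by
    intro y hy
    apply th_zero
    rw [le_div_iff₀ (by positivity)]
    nlinarith [norm_nonneg y]
  have hap : ∀ p : ℝ, Continuous fun y : E n => ap ε p (‖y‖ ^ 2) := by
    intro p
    unfold ap
    exact (Continuous.add continuous_const (continuous_norm.pow 2)).rpow_const
      fun y => Or.inl (by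
        have h := pow_pos hε0 2
        have h' := sq_nonneg ‖y‖
        exact (by linarith : 0 < ε ^ 2 + ‖y‖ ^ 2).ne')
  have hcth : Continuous fun y : E n => th (‖y‖ ^ 2 / L ^ 2) :=
    th_smooth.continuous.comp (by fun_prop)
  have hcth1 : Continuous fun y : E n => th1 (‖y‖ ^ 2 / L ^ 2) :=
    th1_smooth.continuous.comp (by fun_prop)
  have hcth2 : Continuous fun y : E n => th2 (‖y‖ ^ 2 / L ^ 2) :=
    th2_smooth.continuous.comp (by fun_prop)
  have hce : Continuous fun y : E n => er ε L m (‖y‖ ^ 2) := by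
    unfold er
    have h1 := hap (-m - 1)
    have h2 := hap (-m)
    fun_prop
  have hez : ∀ y : E n, 2 * L < ‖y‖ → er ε L m (‖y‖ ^ 2) = 0 := by
    intro y hy
    apply er_zero_of_gt hL1
    nlinarith [norm_nonneg y]
  have heb : ∀ y : E n, |c0 * er ε L m (‖y‖ ^ 2)| ≤ C * L ^ (-(n : ℝ)) := by
    intro y
    rw [abs_mul, abs_of_pos hc0p, hC, mul_assoc]
    have := er_bound hA hb hε0 hL1 hm0 (by positivity : (0:ℝ) ≤ ‖y‖ ^ 2)
    rw [hex] at this
    gcongr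
  refine ⟨fun y => c0 * k0 ε L m (‖y‖ ^ 2), fun y => I⁻¹ * (Pd n ε y * th (‖y‖ ^ 2 / L ^ 2)),
    fun y => c0 * er ε L m (‖y‖ ^ 2), contDiff_const.mul hsm, ?_, ?_, ?_, ?_, ?_, ?_, ?_, ?_, ?_,
    ?_, ?_, ?_⟩
  · refine compact_of_zero (R := 2 * L) fun y hy => ?_
    unfold k0; rw [hth y hy]; simp
  · intro y
    have := ap_pos hε0 (by positivity : (0:ℝ) ≤ ‖y‖ ^ 2) (-m)
    have := th_nonneg (‖y‖ ^ 2 / L ^ 2)
    unfold k0; positivity
  · have := hap (-((n : ℝ) + 2) / 2)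
    unfold Pd; fun_prop
  · refine compact_of_zero (R := 2 * L) fun y hy => ?_
    rw [hth y hy]; simp
  · intro y
    have := Pd_nonneg hε0 y
    have := th_nonneg (‖y‖ ^ 2 / L ^ 2)
    positivity
  · exact continuous_const.mul hce
  · refine compact_of_zero (R := 2 * L) fun y hy => ?_
    rw [hez y hy]; simp
  · intro y
    have h1 : (Δ fun y : E n => c0 * k0 ε L m (‖y‖ ^ 2)) y =
        c0 * (Δ fun y : E n => k0 ε L m (‖y‖ ^ 2)) y := by
      have h2 : (fun y : E n => c0 * k0 ε L m (‖y‖ ^ 2)) =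
          c0 • fun y : E n => k0 ε L m (‖y‖ ^ 2) := rfl
      rw [h2, laplacian_smul c0 (hsm2.contDiffAt)]
      rfl
    rw [h1, radial_lap (a := -ε ^ 2) (by nlinarith [sq_nonneg ε]) (fun s hs => k0_deriv hs)
      (fun s hs => k1_deriv hs) hsm2]
    have h3 := lap_id (ε := ε) (L := L) (m := m) hε0 (by positivity : (0:ℝ) ≤ ‖y‖ ^ 2)
    have h4 : 4 * m + 4 = 2 * (n : ℝ) := by rw [hm]; ring
    rw [h4] at h3
    rw [h3]
    have h5 : -m - 2 = -((n : ℝ) + 2) / 2 := by rw [hm]; ring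
    rw [h5, hc0]
    unfold Pd
    field_simp
  · rw [integral_const_mul]
    have h1 : ∫ y, Pd n ε y * th (‖y‖ ^ 2 / L ^ 2) ≤ ∫ y, Pd n ε y := by
      refine integral_mono_of_nonneg (Eventually.of_forall fun y =>
        mul_nonneg (Pd_nonneg hε0 y) (th_nonneg _)) (Pd_integrable' hε0)
        (Eventually.of_forall fun y => ?_)
      exact mul_le_of_le_one_right (Pd_nonneg hε0 y) (th_le_one _)
    rw [Pd_integral hε0, ← hI] at h1
    calc I⁻¹ * ∫ y, Pd n ε y * th (‖y‖ ^ 2 / L ^ 2) ≤ I⁻¹ * I := by gcongr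
      _ = 1 := inv_mul_cancel₀ hI0.ne'
  · have h1 : ∫ y in Metric.ball (0 : E n) δ, I⁻¹ * (Pd n ε y * th (‖y‖ ^ 2 / L ^ 2)) =
        ∫ y in Metric.ball (0 : E n) δ, I⁻¹ * Pd n ε y := by
      refine setIntegral_congr_fun measurableSet_ball fun y hy => ?_
      have h2 : ‖y‖ < δ := by simpa using hy
      have h3 : th (‖y‖ ^ 2 / L ^ 2) = 1 := by
        apply th_one
        rw [div_le_one (by positivity)]
        nlinarith [norm_nonneg y]
      simp only [h3, mul_one]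
    rw [h1, integral_const_mul]
    have h4 : δ = ε * r := by rw [hε]; field_simp
    rw [h4, Pd_setIntegral hε0]
    rw [← hI] at hr1
    calc 1 - τ = I⁻¹ * ((1 - τ) * I) := by field_simp
      _ ≤ _ := by gcongr
  · intro y
    exact (heb y).trans hL3
  · refine le_trans ?_ hL4
    have h1 : ∀ y : E n, (c0 * er ε L m (‖y‖ ^ 2)) ^ 2 ≤
        (Metric.closedBall (0 : E n) (2 * L)).indicator
          (fun _ => (C * L ^ (-(n : ℝ))) ^ 2) y := by
      intro y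
      by_cases hy : y ∈ Metric.closedBall (0 : E n) (2 * L)
      · rw [indicator_of_mem hy, ← sq_abs (c0 * _)]
        exact pow_le_pow_left₀ (abs_nonneg _) (heb y) 2
      · rw [indicator_of_notMem hy]
        rw [mem_closedBall_zero_iff] at hy
        push Not at hy
        rw [hez y hy]; simp
    calc ∫ y : E n, (c0 * er ε L m (‖y‖ ^ 2)) ^ 2
        ≤ ∫ y : E n, (Metric.closedBall (0 : E n) (2 * L)).indicator
          (fun _ => (C * L ^ (-(n : ℝ))) ^ 2) y := by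
          refine integral_mono_of_nonneg (Eventually.of_forall fun y => sq_nonneg _) ?_
            (Eventually.of_forall h1)
          exact (integrable_indicator_iff measurableSet_closedBall).2
            (integrableOn_const measure_closedBall_lt_top.ne)
      _ = (C * L ^ (-(n : ℝ))) ^ 2 * ((2 * L) ^ n * vn) := by
          rw [integral_indicator measurableSet_closedBall, setIntegral_const, smul_eq_mul, mul_comm]
          congr 1
          rw [Measure.real, Measure.addHaar_closedBall' volume (0 : E n) (by positivity),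
            finrank_euclideanSpace_fin, ENNReal.toReal_mul, ENNReal.toReal_ofReal (by positivity)]

end Pool.Agent.X103.Kern
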