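import Pool.Agent.Helper717.LT.P_core
import Pool.Agent.Helper717.LT.P_const_final

/-!
# Lieb-Thirring with covariant derivatives (helper103)

Families of `ℝ^κ`-valued functions together with metric covariant derivatives.
-/

set_option autoImplicit false

open MeasureTheory Set Filter Topology Real
open scoped Matrix

namespace Pool.Agent.X103.LTMag

open LTd

variable {κ : Type} [Fintype κ]

/-- Families of functions with values in `ℝ^κ` and their covariant derivatives. -/
structure CS {m n : ℕ} (w : Fin n → (Fin m → ℝ) → κ → ℝ)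
    (v : Fin m → Fin n → (Fin m → ℝ) → κ → ℝ) : Prop where
  cw : ∀ i a, ContDiff ℝ 1 fun x => w i x a
  sw : ∀ i a, HasCompactSupport fun x => w i x a
  cv : ∀ k i a, Continuous fun x => v k i x a
  sv : ∀ k i a, HasCompactSupport fun x => v k i x a
  rel : ∀ k i j x, pd k (fun x => ∑ a, w i x a * w j x a) x =
    ∑ a, (v k i x a * w j x a + v k j x a * w i x a)

/-- Gram matrices of the slices. -/
noncomputable def Gm {m n : ℕ} (f g : Fin n → (Fin (m + 1) → ℝ) → κ → ℝ) (x : ℝ) : Mat n :=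
  ∑ a, (Matrix.of fun i j => ∫ y : Fin m → ℝ,
    f i (Fin.cons x y : Fin (m + 1) → ℝ) a * g j (Fin.cons x y : Fin (m + 1) → ℝ) a : Mat n)

lemma Gm_apply {m n : ℕ} (f g : Fin n → (Fin (m + 1) → ℝ) → κ → ℝ) (x : ℝ) (i j : Fin n) :
    Gm f g x i j = ∑ a, ∫ y : Fin m → ℝ,
      f i (Fin.cons x y : Fin (m + 1) → ℝ) a * g j (Fin.cons x y : Fin (m + 1) → ℝ) a := by
  simp only [Gm, Matrix.sum_apply, Matrix.of_apply]

lemma key_one {α : Type*} [MeasurableSpace α] {μ : Measure α} {n : ℕ} (f g : Fin n → α → ℝ)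
    (hff : ∀ i j, Integrable (fun y => f i y * f j y) μ)
    (hfg : ∀ i j, Integrable (fun y => f i y * g j y) μ)
    (hgg : ∀ i j, Integrable (fun y => g i y * g j y) μ) (X Y : Mat n) :
    0 ≤ (X * (Matrix.of fun i j => ∫ y, f i y * f j y ∂μ : Mat n) * Xᵀ).trace
      - 2 * (X * (Matrix.of fun i j => ∫ y, f i y * g j y ∂μ : Mat n) * Yᵀ).trace
      + (Y * (Matrix.of fun i j => ∫ y, g i y * g j y ∂μ : Mat n) * Yᵀ).trace := by
  have hQ := j14718_trace f f hff X X
  have hS := j14718_trace f g hfg X Y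
  have hR := j14718_trace g g hgg Y Y
  have hsub : Integrable (fun y => (∑ k, (∑ i, X k i * f i y) * (∑ j, X k j * f j y)) -
      2 * ∑ k, (∑ i, X k i * f i y) * (∑ j, Y k j * g j y)) μ := hQ.2.sub (hS.2.const_mul 2)
  rw [hQ.1, hS.1, hR.1, ← integral_const_mul, ← integral_sub hQ.2 (hS.2.const_mul 2),
    ← integral_add hsub hR.2]
  refine integral_nonneg fun y => ?_
  show 0 ≤ (∑ k, (∑ i, X k i * f i y) * (∑ i, X k i * f i y) -
    2 * ∑ k, (∑ i, X k i * f i y) * (∑ i, Y k i * g i y)) +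
    ∑ k, (∑ i, Y k i * g i y) * (∑ i, Y k i * g i y)
  rw [Finset.mul_sum, ← Finset.sum_sub_distrib, ← Finset.sum_add_distrib]
  refine Finset.sum_nonneg fun k _ => ?_
  nlinarith [sq_nonneg ((∑ i, X k i * f i y) - (∑ i, Y k i * g i y))]

lemma Gm_trace {m n : ℕ} (f g : Fin n → (Fin (m + 1) → ℝ) → κ → ℝ) (x : ℝ) (X Y : Mat n) :
    (X * Gm f g x * Yᵀ).trace = ∑ a, (X * (Matrix.of fun i j => ∫ y : Fin m → ℝ,
      f i (Fin.cons x y : Fin (m + 1) → ℝ) a * g j (Fin.cons x y : Fin (m + 1) → ℝ) a : Mat n)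
        * Yᵀ).trace := by
  rw [Gm, Matrix.mul_sum, Matrix.sum_mul, Matrix.trace_sum]

lemma contDiff_prod {m n : ℕ} {w : Fin n → (Fin m → ℝ) → κ → ℝ}
    (cw : ∀ i a, ContDiff ℝ 1 fun x => w i x a) (i j : Fin n) :
    ContDiff ℝ 1 (fun x => ∑ a, w i x a * w j x a) :=
  ContDiff.sum fun a _ => (cw i a).mul (cw j a)

lemma cs_prod {m n : ℕ} {w : Fin n → (Fin m → ℝ) → κ → ℝ}
    (sw : ∀ i a, HasCompactSupport fun x => w i x a) (i j : Fin n) :
    HasCompactSupport (fun x => ∑ a, w i x a * w j x a) := by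
  refine cs_fam' (fun a x => w i x a) (fun a => sw i a) _ fun x hx => ?_
  exact Finset.sum_eq_zero fun a _ => by rw [hx a, zero_mul]

theorem slice_sys' {m n : ℕ} {w : Fin n → (Fin (m + 1) → ℝ) → κ → ℝ}
    {v : Fin (m + 1) → Fin n → (Fin (m + 1) → ℝ) → κ → ℝ} (h : CS w v) :
    Sys (Gm w w) (Gm (v 0) w) (Gm (v 0) (v 0)) := by
  have cw : ∀ i a, Continuous fun x => w i x a := fun i a => (h.cw i a).continuous
  have cR : ∀ i j a, Continuous (fun z => w i z a * w j z a) := fun i j a =>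
    (cw i a).mul (cw j a)
  have kR : ∀ i j a, HasCompactSupport (fun z => w i z a * w j z a) := fun i j a =>
    (h.sw i a).mul_right
  have cS : ∀ i j a, Continuous (fun z => v 0 i z a * w j z a) := fun i j a =>
    (h.cv 0 i a).mul (cw j a)
  have kS : ∀ i j a, HasCompactSupport (fun z => v 0 i z a * w j z a) := fun i j a =>
    (h.sv 0 i a).mul_right
  have cQ : ∀ i j a, Continuous (fun z => v 0 i z a * v 0 j z a) := fun i j a =>
    (h.cv 0 i a).mul (h.cv 0 j a)
  have kQ : ∀ i j a, HasCompactSupport (fun z => v 0 i z a * v 0 j z a) := fun i j a =>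
    (h.sv 0 i a).mul_right
  refine ⟨?_, ?_, ?_, ?_, ?_, ?_⟩
  · intro x i j
    rw [Gm_apply, Gm_apply]
    refine Finset.sum_congr rfl fun a _ => ?_
    refine integral_congr_ae (Eventually.of_forall fun y => ?_)
    exact mul_comm _ _
  · intro x i j
    have h1 := slice_der (contDiff_prod h.cw i j) (cs_prod h.sw i j) x
    have h2 : (fun t => Gm w w t i j) = fun t : ℝ => ∫ y : Fin m → ℝ,
        (fun z => ∑ a, w i z a * w j z a) (Fin.cons t y : Fin (m + 1) → ℝ) := by
      funext t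
      rw [Gm_apply, ← integral_finsetSum _ fun a _ => j14718_int (cR i j a) (kR i j a) t]
    have h3 : ∫ y : Fin m → ℝ, pd 0 (fun z => ∑ a, w i z a * w j z a)
        (Fin.cons x y : Fin (m + 1) → ℝ) = Gm (v 0) w x i j + Gm (v 0) w x j i := by
      simp only [h.rel]
      have hadd : ∀ a ∈ (Finset.univ : Finset κ), Integrable (fun y : Fin m → ℝ =>
          v 0 i (Fin.cons x y : Fin (m + 1) → ℝ) a * w j (Fin.cons x y : Fin (m + 1) → ℝ) a +
          v 0 j (Fin.cons x y : Fin (m + 1) → ℝ) a * w i (Fin.cons x y : Fin (m + 1) → ℝ) a) :=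
        fun a _ => (j14718_int (cS i j a) (kS i j a) x).add (j14718_int (cS j i a) (kS j i a) x)
      rw [Gm_apply, Gm_apply, ← Finset.sum_add_distrib, integral_finsetSum _ hadd]
      refine Finset.sum_congr rfl fun a _ => ?_
      exact integral_add (j14718_int (cS i j a) (kS i j a) x) (j14718_int (cS j i a) (kS j i a) x)
    rw [h2, ← h3]
    exact h1
  · intro i j
    simp only [Gm_apply]
    exact continuous_finsetSum _ fun a _ => (slice_cont (cS i j a) (kS i j a)).1
  · intro i j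
    simp only [Gm_apply]
    exact continuous_finsetSum _ fun a _ => (slice_cont (cQ i j a) (kQ i j a)).1
  · choose M hM using fun (p : Fin n × κ) =>
      (slice_cont (cw p.1 p.2) (h.sw p.1 p.2)).2.2.2
    choose N hN using fun (p : Fin n × κ) =>
      (slice_cont (h.cv 0 p.1 p.2) (h.sv 0 p.1 p.2)).2.2.2
    refine ⟨∑ p, (|M p| + |N p|), fun x hx => ?_⟩
    have h1 : ∀ p, |M p| + |N p| < |x| := fun p =>
      lt_of_le_of_lt (Finset.single_le_sum (f := fun p => |M p| + |N p|)
        (fun j _ => by positivity) (Finset.mem_univ p)) hx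
    have hw0 : ∀ i a (y : Fin m → ℝ), w i (Fin.cons x y : Fin (m + 1) → ℝ) a = 0 := fun i a y =>
      hM (i, a) x (lt_of_le_of_lt (by
        have := le_abs_self (M (i, a)); have := abs_nonneg (N (i, a)); linarith) (h1 (i, a))) y
    have hd0 : ∀ i a (y : Fin m → ℝ), v 0 i (Fin.cons x y : Fin (m + 1) → ℝ) a = 0 := fun i a y =>
      hN (i, a) x (lt_of_le_of_lt (by
        have := le_abs_self (N (i, a)); have := abs_nonneg (M (i, a)); linarith) (h1 (i, a))) y
    refine ⟨?_, ?_, ?_⟩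
    · ext i j
      rw [Gm_apply]
      simp only [hw0, mul_zero, integral_zero, Finset.sum_const_zero, Matrix.zero_apply]
    · ext i j
      rw [Gm_apply]
      simp only [hw0, mul_zero, integral_zero, Finset.sum_const_zero, Matrix.zero_apply]
    · ext i j
      rw [Gm_apply]
      simp only [hd0, mul_zero, integral_zero, Finset.sum_const_zero, Matrix.zero_apply]
  · intro x X Y
    rw [Gm_trace, Gm_trace, Gm_trace, Finset.mul_sum, ← Finset.sum_sub_distrib,
      ← Finset.sum_add_distrib]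
    refine Finset.sum_nonneg fun a _ => ?_
    exact key_one (fun i (y : Fin m → ℝ) => v 0 i (Fin.cons x y : Fin (m + 1) → ℝ) a)
      (fun i (y : Fin m → ℝ) => w i (Fin.cons x y : Fin (m + 1) → ℝ) a)
      (fun i j => j14718_int (cQ i j a) (kQ i j a) x)
      (fun i j => j14718_int (cS i j a) (kS i j a) x)
      (fun i j => j14718_int (cR i j a) (kR i j a) x) X Y

lemma CS.slice {m n : ℕ} {w : Fin n → (Fin (m + 1) → ℝ) → κ → ℝ}
    {v : Fin (m + 1) → Fin n → (Fin (m + 1) → ℝ) → κ → ℝ} (h : CS w v) (x : ℝ) :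
    CS (fun i (y : Fin m → ℝ) => w i (Fin.cons x y : Fin (m + 1) → ℝ))
      (fun (k : Fin m) i (y : Fin m → ℝ) => v k.succ i (Fin.cons x y : Fin (m + 1) → ℝ)) := by
  refine ⟨?_, ?_, ?_, ?_, ?_⟩
  · exact fun i a => (slice_pd (h.cw i a) x).1
  · exact fun i a => (slice_cont (h.cw i a).continuous (h.sw i a)).2.2.1 x
  · exact fun k i a => (slice_cont (h.cv k.succ i a) (h.sv k.succ i a)).2.1 x
  · exact fun k i a => (slice_cont (h.cv k.succ i a) (h.sv k.succ i a)).2.2.1 x
  · intro k i j y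
    have h1 := (slice_pd (contDiff_prod h.cw i j) x).2 k y
    rw [h.rel] at h1
    exact h1

lemma rot_alg1 {n : ℕ} (P Q : Fin n → ℝ) (w : Fin n → κ → ℝ) :
    ∑ a, (∑ p, P p * w p a) * (∑ q, Q q * w q a) =
      ∑ p, P p * (∑ q, Q q * ∑ a, w p a * w q a) := by
  have h1 : ∀ a, (∑ p, P p * w p a) * (∑ q, Q q * w q a) =
      ∑ p, ∑ q, P p * Q q * (w p a * w q a) := by
    intro a
    rw [Finset.sum_mul_sum]
    exact Finset.sum_congr rfl fun p _ => Finset.sum_congr rfl fun q _ => by ring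
  rw [Finset.sum_congr rfl fun a _ => h1 a, Finset.sum_comm]
  refine Finset.sum_congr rfl fun p _ => ?_
  rw [Finset.sum_comm, Finset.mul_sum]
  refine Finset.sum_congr rfl fun q _ => ?_
  rw [← Finset.mul_sum, mul_assoc]

lemma rot_alg2 {n : ℕ} (P Q : Fin n → ℝ) (w v : Fin n → κ → ℝ) :
    ∑ p, P p * (∑ q, Q q * ∑ a, (v p a * w q a + v q a * w p a)) =
      ∑ a, ((∑ p, P p * v p a) * (∑ q, Q q * w q a) +
        (∑ q, Q q * v q a) * (∑ p, P p * w p a)) := by
  have h1 : ∀ a, (∑ p, P p * v p a) * (∑ q, Q q * w q a) +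
        (∑ q, Q q * v q a) * (∑ p, P p * w p a) =
      ∑ p, ∑ q, P p * Q q * (v p a * w q a + v q a * w p a) := by
    intro a
    rw [mul_comm (∑ q, Q q * v q a), Finset.sum_mul_sum, Finset.sum_mul_sum,
      ← Finset.sum_add_distrib]
    refine Finset.sum_congr rfl fun p _ => ?_
    rw [← Finset.sum_add_distrib]
    exact Finset.sum_congr rfl fun q _ => by ring
  rw [Finset.sum_congr rfl fun a _ => h1 a, Finset.sum_comm]
  refine Finset.sum_congr rfl fun p _ => ?_
  rw [Finset.sum_comm, Finset.mul_sum]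
  refine Finset.sum_congr rfl fun q _ => ?_
  rw [← Finset.mul_sum, mul_assoc]

lemma CS.rot {m n : ℕ} {w : Fin n → (Fin m → ℝ) → κ → ℝ}
    {v : Fin m → Fin n → (Fin m → ℝ) → κ → ℝ} (h : CS w v) (V : Mat n) :
    CS (fun i x a => ∑ j, V j i * w j x a) (fun k i x a => ∑ j, V j i * v k j x a) := by
  refine ⟨?_, ?_, ?_, ?_, ?_⟩
  · exact fun i a => ContDiff.sum fun j _ => contDiff_const.mul (h.cw j a)
  · intro i a
    refine cs_fam' (fun j x => w j x a) (fun j => h.sw j a) _ fun x hx => ?_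
    exact Finset.sum_eq_zero fun j _ => by rw [hx j, mul_zero]
  · exact fun k i a => continuous_finsetSum _ fun j _ => continuous_const.mul (h.cv k j a)
  · intro k i a
    refine cs_fam' (fun j x => v k j x a) (fun j => h.sv k j a) _ fun x hx => ?_
    exact Finset.sum_eq_zero fun j _ => by rw [hx j, mul_zero]
  · intro k i j x
    have e1 : (fun x => ∑ a, (∑ p, V p i * w p x a) * (∑ q, V q j * w q x a)) =
        fun x => ∑ p, V p i * (∑ q, V q j * ∑ a, w p x a * w q x a) := by
      funext x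
      exact rot_alg1 (fun p => V p i) (fun q => V q j) (fun p a => w p x a)
    rw [e1]
    have hin : ∀ p, ContDiff ℝ 1 (fun x => ∑ q, V q j * ∑ a, w p x a * w q x a) := fun p =>
      ContDiff.sum fun q _ => contDiff_const.mul (contDiff_prod h.cw p q)
    rw [pd_sum (fun p x => ∑ q, V q j * ∑ a, w p x a * w q x a) hin (fun p => V p i) k x]
    have e2 : ∀ p, pd k (fun x => ∑ q, V q j * ∑ a, w p x a * w q x a) x =
        ∑ q, V q j * ∑ a, (v k p x a * w q x a + v k q x a * w p x a) := by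
      intro p
      rw [pd_sum (fun q x => ∑ a, w p x a * w q x a) (fun q => contDiff_prod h.cw p q)
        (fun q => V q j) k x]
      exact Finset.sum_congr rfl fun q _ => by rw [h.rel]
    simp only [e2]
    exact rot_alg2 (fun p => V p i) (fun q => V q j) (fun p a => w p x a) (fun p a => v k p x a)

end Pool.Agent.X103.LTMag
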