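import Pool.Agent.X103.LTMag

/-!
# Lieb-Thirring with covariant derivatives: the induction on the dimension (helper103)
-/

set_option autoImplicit false

open MeasureTheory Set Filter Topology Real
open scoped Matrix

namespace Pool.Agent.X103.LTMag

open LTd

variable {κ : Type} [Fintype κ]

/-- The semiclassical inequality for `ℝ^κ`-valued families with covariant derivatives. -/
def Tk (κ : Type) [Fintype κ] (m : ℕ) (g : ℝ) : Prop :=
  ∀ (a : ℝ), 0 < a → ∀ (n : ℕ) (w : Fin n → (Fin m → ℝ) → κ → ℝ)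
    (v : Fin m → Fin n → (Fin m → ℝ) → κ → ℝ) (l : Fin n → ℝ), CS w v →
    (∀ i j, ∑ b, ∫ x, w i x b * w j x b = if i = j then l i else 0) →
    bco (m / 2) g a * ((Fintype.card κ : ℝ) ^ (1 - pp (g + m / 2)) *
      ∫ x, (∑ i, ∑ b, w i x b ^ 2) ^ pp (g + m / 2)) ≤
      (∫ x, ∑ k, ∑ i, ∑ b, v k i x b ^ 2) + a * ∑ i, l i ^ pp g

lemma card_orth {n : ℕ} (W : Fin n → κ → ℝ) (l : Fin n → ℝ)
    (h : ∀ i j, ∑ b, W i b * W j b = if i = j then l i else 0) :
    (Finset.univ.filter fun i => l i ≠ 0).card ≤ Fintype.card κ := by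
  classical
  let S : Finset (Fin n) := Finset.univ.filter fun i => l i ≠ 0
  let e : S → EuclideanSpace ℝ κ := fun i => WithLp.toLp 2 (W i.1)
  have hin : ∀ i j : S, inner ℝ (e i) (e j) = ∑ b, W i.1 b * W j.1 b := by
    intro i j
    simp only [e, PiLp.inner_apply, RCLike.inner_apply, conj_trivial]
    exact Finset.sum_congr rfl fun b _ => mul_comm _ _
  have hne : ∀ i : S, e i ≠ 0 := by
    intro i h0
    have h1 := hin i i
    rw [h0, inner_zero_left, h, if_pos rfl] at h1
    exact (Finset.mem_filter.1 i.2).2 h1.symm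
  have hli : LinearIndependent ℝ e := by
    refine linearIndependent_of_ne_zero_of_inner_eq_zero hne fun i j hij => ?_
    show inner ℝ (e i) (e j) = 0
    rw [hin, h, if_neg fun h2 => hij (Subtype.ext h2)]
  have h3 := hli.fintype_card_le_finrank
  rw [finrank_euclideanSpace, Fintype.card_coe] at h3
  exact h3

lemma pow_card {n : ℕ} (W : Fin n → κ → ℝ) (l : Fin n → ℝ)
    (h : ∀ i j, ∑ b, W i b * W j b = if i = j then l i else 0) {p : ℝ} (hp : 1 < p) :
    (Fintype.card κ : ℝ) ^ (1 - p) * (∑ i, l i) ^ p ≤ ∑ i, l i ^ p := by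
  classical
  have hp0 : p ≠ 0 := by linarith
  have hl : ∀ i, 0 ≤ l i := by
    intro i
    have h1 := h i i
    rw [if_pos rfl] at h1
    rw [← h1]
    exact Finset.sum_nonneg fun b _ => mul_self_nonneg _
  have e1 : ∑ i, l i = ∑ i ∈ Finset.univ.filter (fun i => l i ≠ 0), l i := by
    rw [Finset.sum_filter]
    refine Finset.sum_congr rfl fun i _ => ?_
    split_ifs with h1
    · rfl
    · exact not_not.1 h1
  have e2 : ∑ i, l i ^ p = ∑ i ∈ Finset.univ.filter (fun i => l i ≠ 0), l i ^ p := by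
    rw [Finset.sum_filter]
    refine Finset.sum_congr rfl fun i _ => ?_
    split_ifs with h1
    · rfl
    · rw [not_not.1 h1, Real.zero_rpow hp0]
  have hc := card_orth W l h
  rw [e1, e2]
  have h2 := Real.rpow_sum_le_const_mul_sum_rpow (Finset.univ.filter fun i => l i ≠ 0) l hp.le
  simp only [abs_of_nonneg (hl _)] at h2
  have hk : (0:ℝ) ≤ (Fintype.card κ : ℝ) := Nat.cast_nonneg _
  rcases Nat.eq_zero_or_pos (Fintype.card κ) with h0 | h0
  · have h3 : (Finset.univ.filter fun i => l i ≠ 0) = ∅ := by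
      rw [← Finset.card_eq_zero]
      omega
    rw [h3, Finset.sum_empty, Finset.sum_empty, Real.zero_rpow hp0, mul_zero]
  · have hk' : (0:ℝ) < (Fintype.card κ : ℝ) := Nat.cast_pos.2 h0
    have hS : 0 ≤ ∑ i ∈ Finset.univ.filter (fun i => l i ≠ 0), l i ^ p :=
      Finset.sum_nonneg fun i _ => Real.rpow_nonneg (hl i) p
    calc (Fintype.card κ : ℝ) ^ (1 - p) * (∑ i ∈ Finset.univ.filter (fun i => l i ≠ 0), l i) ^ p
        ≤ (Fintype.card κ : ℝ) ^ (1 - p) * ((Fintype.card κ : ℝ) ^ (p - 1) *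
          ∑ i ∈ Finset.univ.filter (fun i => l i ≠ 0), l i ^ p) := by
          refine mul_le_mul_of_nonneg_left (h2.trans ?_) (Real.rpow_nonneg hk _)
          refine mul_le_mul_of_nonneg_right ?_ hS
          refine Real.rpow_le_rpow (Nat.cast_nonneg _) (Nat.cast_le.2 hc) (by linarith)
      _ = ∑ i ∈ Finset.univ.filter (fun i => l i ≠ 0), l i ^ p := by
          rw [← mul_assoc, ← Real.rpow_add hk']
          rw [show (1 - p) + (p - 1) = 0 by ring, Real.rpow_zero, one_mul]

theorem Tk_zero {g : ℝ} (hg : 1 < g) : Tk κ 0 g := by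
  intro a ha n w v l h hwl
  have key : ∀ f : (Fin 0 → ℝ) → ℝ, ∫ x, f x = f default := by
    intro f
    rw [MeasureTheory.Measure.volume_pi_eq_dirac (default : Fin 0 → ℝ), integral_dirac]
  have hp : 1 < pp g := by
    unfold pp
    rw [one_lt_div (by linarith)]
    linarith
  have hpe : pp (g + ((0:ℕ):ℝ) / 2) = pp g := by simp
  rw [T_zero_bco hg ha, hpe, key, key]
  have hl : ∀ i j, ∑ b, w i default b * w j default b = if i = j then l i else 0 := by
    intro i j
    rw [← hwl i j]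
    exact Finset.sum_congr rfl fun b _ => (key fun x => w i x b * w j x b).symm
  have h0 : (∑ k : Fin 0, ∑ i, ∑ b, v k i default b ^ 2) = 0 := by simp
  rw [h0, zero_add]
  have h1 : ∀ i, ∑ b, w i default b ^ 2 = l i := by
    intro i
    have h2 := hl i i
    rw [if_pos rfl] at h2
    rw [← h2]
    exact Finset.sum_congr rfl fun b _ => sq _
  simp only [h1]
  exact mul_le_mul_of_nonneg_left (pow_card _ l hl hp) ha.le

theorem Tk_slice {m n : ℕ} {g a : ℝ} (ha : 0 < a) (hT : Tk κ m g)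
    {w : Fin n → (Fin m → ℝ) → κ → ℝ} {v : Fin m → Fin n → (Fin m → ℝ) → κ → ℝ}
    (h : CS w v) (V : Mat n) (r : Fin n → ℝ) (hV : V * Vᵀ = 1)
    (hV' : Vᵀ * V = 1)
    (hR : (Matrix.of fun i j => ∑ b, ∫ x, w i x b * w j x b : Mat n) =
      V * Matrix.diagonal r * Vᵀ) :
    bco (m / 2) g a * ((Fintype.card κ : ℝ) ^ (1 - pp (g + m / 2)) *
      ∫ x, (∑ i, ∑ b, w i x b ^ 2) ^ pp (g + m / 2)) ≤
      (∫ x, ∑ k, ∑ i, ∑ b, v k i x b ^ 2) + a * ∑ i, r i ^ pp g := by
  have h1 := hT a ha n _ _ r (h.rot V) (by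
      intro i j
      have hint : ∀ (p q : Fin n) (b : κ), Integrable (fun x => w p x b * w q x b) := by
        intro p q b
        apply Continuous.integrable_of_hasCompactSupport
        · exact (h.cw p b).continuous.mul (h.cw q b).continuous
        · exact (h.sw p b).mul_right
      have h3 : ∀ b, ∫ x, (∑ p, V p i * w p x b) * (∑ q, V q j * w q x b) =
          ∑ p, ∑ q, (V p i * V q j) * ∫ x, w p x b * w q x b := by
        intro b
        have h2 : (fun x => (∑ p, V p i * w p x b) * (∑ q, V q j * w q x b)) =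
            fun x => ∑ p, ∑ q, (V p i * V q j) * (w p x b * w q x b) := by
          funext x
          rw [Finset.sum_mul_sum]
          exact Finset.sum_congr rfl fun p _ => Finset.sum_congr rfl fun q _ => by ring
        rw [h2, integral_finsetSum]
        · refine Finset.sum_congr rfl fun p _ => ?_
          rw [integral_finsetSum]
          · exact Finset.sum_congr rfl fun q _ => integral_const_mul _ _
          · exact fun q _ => (hint p q b).const_mul _
        · exact fun p _ => integrable_finsetSum _ fun q _ => (hint p q b).const_mul _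
      show ∑ b, ∫ x, (∑ p, V p i * w p x b) * (∑ q, V q j * w q x b) = _
      rw [Finset.sum_congr rfl fun b _ => h3 b, Finset.sum_comm]
      have h6 : ∀ p, ∑ b, ∑ q, (V p i * V q j) * ∫ x, w p x b * w q x b =
          ∑ q, (V p i * V q j) * (V * Matrix.diagonal r * Vᵀ) p q := by
        intro p
        rw [← hR, Finset.sum_comm]
        refine Finset.sum_congr rfl fun q _ => ?_
        rw [Matrix.of_apply, Finset.mul_sum]
      rw [Finset.sum_congr rfl fun p _ => h6 p]
      have h4 : Vᵀ * (V * Matrix.diagonal r * Vᵀ) * V = Matrix.diagonal r := by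
        rw [← Matrix.mul_assoc, ← Matrix.mul_assoc, hV', Matrix.one_mul, Matrix.mul_assoc, hV',
          Matrix.mul_one]
      have h5 : (Vᵀ * (V * Matrix.diagonal r * Vᵀ) * V) i j =
          ∑ p, ∑ q, (V p i * V q j) * (V * Matrix.diagonal r * Vᵀ) p q := by
        rw [Matrix.mul_apply, Finset.sum_comm]
        apply Finset.sum_congr rfl
        intro q _
        rw [Matrix.mul_apply, Finset.sum_mul]
        apply Finset.sum_congr rfl
        intro p _
        rw [Matrix.transpose_apply]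
        ring
      rw [← h5, h4, Matrix.diagonal_apply])
  have h2 : ∀ x, ∑ i, ∑ b, (∑ j, V j i * w j x b) ^ 2 = ∑ i, ∑ b, w i x b ^ 2 := by
    intro x
    rw [Finset.sum_comm, Finset.sum_comm (f := fun i b => w i x b ^ 2)]
    exact Finset.sum_congr rfl fun b _ => tsl_rot V hV _
  have h3 : ∀ x, ∑ k, ∑ i, ∑ b, (∑ j, V j i * v k j x b) ^ 2 =
      ∑ k, ∑ i, ∑ b, v k i x b ^ 2 := by
    intro x
    refine Finset.sum_congr rfl fun k _ => ?_
    rw [Finset.sum_comm, Finset.sum_comm (f := fun i b => v k i x b ^ 2)]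
    exact Finset.sum_congr rfl fun b _ => tsl_rot V hV _
  simp only [h2, h3] at h1
  exact h1

theorem Tk_succ {m : ℕ} {g : ℝ} (hg : 3 / 2 ≤ g) (hT : Tk κ m (g + 1 / 2)) : Tk κ (m + 1) g := by
  intro a ha n w v l h hgram
  have hwc : ∀ i b, Continuous (fun x => w i x b) := fun i b => (h.cw i b).continuous
  have hm0 : (0 : ℝ) ≤ (m : ℝ) := Nat.cast_nonneg m
  have hsys := slice_sys' h
  have hcw2 : ∀ i j b, HasCompactSupport (fun z => w i z b * w j z b) := fun i j b =>
    (h.sw i b).mul_right (f' := fun z => w j z b)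
  have hTot : Tot (Gm w w) = Matrix.diagonal l := by
    ext i j
    have hi2 : ∀ b ∈ (Finset.univ : Finset κ), Integrable (fun x : ℝ => ∫ y : Fin m → ℝ,
        w i (Fin.cons x y : Fin (m + 1) → ℝ) b * w j (Fin.cons x y : Fin (m + 1) → ℝ) b) :=
      fun b _ => ts_slice_integrable (f := fun z => w i z b * w j z b)
        ((hwc i b).mul (hwc j b)) (hcw2 i j b)
    have hi3 : Tot (Gm w w) i j = ∫ x : ℝ, ∑ b, ∫ y : Fin m → ℝ,
        w i (Fin.cons x y : Fin (m + 1) → ℝ) b * w j (Fin.cons x y : Fin (m + 1) → ℝ) b := by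
      show ∫ x, Gm w w x i j = _
      simp only [Gm_apply]
    rw [hi3, integral_finsetSum _ hi2, Matrix.diagonal_apply, ← hgram i j]
    refine Finset.sum_congr rfl fun b _ => ?_
    exact (slice_int (f := fun z => w i z b * w j z b) ((hwc i b).mul (hwc j b))
      (hcw2 i j b)).symm
  obtain ⟨G, hGc, hGs, hG1, hG2⟩ := blockC hsys l hTot hg ha
  have ha' : 0 < bco (1 / 2) g a := bco_pos (by norm_num) (by linarith) ha
  have hsqc : ∀ (k : Fin (m + 1)) (i : Fin n) (b : κ), Continuous (fun z => v k i z b ^ 2) :=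
    fun k i b => (h.cv k i b).pow 2
  have hsqs : ∀ (k : Fin (m + 1)) (i : Fin n) (b : κ),
      HasCompactSupport (fun z => v k i z b ^ 2) :=
    fun k i b => (h.sv k i b).comp_left (g := fun t : ℝ => t ^ 2) (by norm_num)
  have hsqi : ∀ (k : Fin (m + 1)) (i : Fin n) (b : κ), Integrable (fun z => v k i z b ^ 2) :=
    fun k i b => (hsqc k i b).integrable_of_hasCompactSupport (hsqs k i b)
  -- the exponent
  have hpp : 0 < pp (g + 1 / 2 + m / 2) := by
    unfold pp
    apply div_pos <;> linarith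
  have hexp : g + 1 / 2 + (m : ℝ) / 2 = g + ((m + 1 : ℕ) : ℝ) / 2 := by
    push_cast
    ring
  -- the density
  have hρc : Continuous (fun z => (∑ i, ∑ b, w i z b ^ 2) ^ pp (g + 1 / 2 + m / 2)) :=
    (continuous_finsetSum _ fun i _ => continuous_finsetSum _ fun b _ =>
      (hwc i b).pow 2).rpow_const (fun _ => Or.inr hpp.le)
  have hρs : HasCompactSupport (fun z => (∑ i, ∑ b, w i z b ^ 2) ^ pp (g + 1 / 2 + m / 2)) := by
    refine cs_fam' (fun (q : Fin n × κ) z => w q.1 z q.2) (fun q => h.sw q.1 q.2) _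
      fun z hz => ?_
    have h00 : ∑ i, ∑ b, w i z b ^ 2 = 0 :=
      Finset.sum_eq_zero fun i _ => Finset.sum_eq_zero fun b _ => by
        rw [hz (i, b)]; norm_num
    show (∑ i, ∑ b, w i z b ^ 2) ^ pp (g + 1 / 2 + m / 2) = 0
    rw [h00, Real.zero_rpow hpp.ne']
  -- the gradient part
  have hDc : Continuous (fun z => ∑ k : Fin m, ∑ i, ∑ b, v k.succ i z b ^ 2) :=
    continuous_finsetSum _ fun k _ => continuous_finsetSum _ fun i _ =>
      continuous_finsetSum _ fun b _ => hsqc k.succ i b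
  have hDs : HasCompactSupport (fun z => ∑ k : Fin m, ∑ i, ∑ b, v k.succ i z b ^ 2) := by
    refine cs_fam' (fun (q : Fin m × Fin n × κ) z => v q.1.succ q.2.1 z q.2.2)
      (fun q => h.sv q.1.succ q.2.1 q.2.2) _ fun z hz => ?_
    refine Finset.sum_eq_zero fun k _ => Finset.sum_eq_zero fun i _ =>
      Finset.sum_eq_zero fun b _ => ?_
    rw [hz (k, i, b)]
    norm_num
  -- pointwise inequality
  have hpoint : ∀ x : ℝ, bco (((m + 1 : ℕ) : ℝ) / 2) g a *
      ((Fintype.card κ : ℝ) ^ (1 - pp (g + 1 / 2 + m / 2)) *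
      (∫ y : Fin m → ℝ, (∑ i, ∑ b, w i (Fin.cons x y : Fin (m + 1) → ℝ) b ^ 2) ^
        pp (g + 1 / 2 + m / 2))) ≤
      (∫ y : Fin m → ℝ, ∑ k : Fin m, ∑ i, ∑ b,
        v k.succ i (Fin.cons x y : Fin (m + 1) → ℝ) b ^ 2) + G x := by
    intro x
    obtain ⟨V, r, hV, hV', hr, hR⟩ := specP (sys_psd hsys x)
    have hR' : (Matrix.of fun i j => ∑ b, ∫ y : Fin m → ℝ,
        w i (Fin.cons x y : Fin (m + 1) → ℝ) b * w j (Fin.cons x y : Fin (m + 1) → ℝ) b : Mat n) =
        V * Matrix.diagonal r * Vᵀ := by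
      rw [← hR]
      ext i j
      rw [Matrix.of_apply, Gm_apply]
    have h1 := Tk_slice ha' hT (h.slice x) V r hV hV' hR'
    have h2 := hG1 x V r hV hV' hr hR
    rw [bco_succ m hg ha] at h1
    linarith
  -- integrate
  have hint := integral_mono
    (((ts_slice_integrable hρc hρs).const_mul
      ((Fintype.card κ : ℝ) ^ (1 - pp (g + 1 / 2 + m / 2)))).const_mul
      (bco (((m + 1 : ℕ) : ℝ) / 2) g a))
    ((ts_slice_integrable hDc hDs).add (hGc.integrable_of_hasCompactSupport hGs)) hpoint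
  rw [integral_const_mul, integral_const_mul, ← slice_int hρc hρs] at hint
  have hadd : ∫ x : ℝ, ((fun x : ℝ => ∫ y : Fin m → ℝ,
      ∑ k : Fin m, ∑ i, ∑ b, v k.succ i (Fin.cons x y : Fin (m + 1) → ℝ) b ^ 2) + G) x =
      (∫ z, ∑ k : Fin m, ∑ i, ∑ b, v k.succ i z b ^ 2) + ∫ x, G x := by
    rw [slice_int hDc hDs]
    exact integral_add (ts_slice_integrable hDc hDs) (hGc.integrable_of_hasCompactSupport hGs)
  have htr : ∫ x, (Gm (v 0) (v 0) x).trace = ∫ z, ∑ i, ∑ b, v 0 i z b ^ 2 := by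
    rw [integral_finsetSum _ (fun i _ => integrable_finsetSum _ fun b _ => hsqi 0 i b)]
    have h4 : ∀ x, (Gm (v 0) (v 0) x).trace = ∑ i, ∑ b, ∫ y : Fin m → ℝ,
        v 0 i (Fin.cons x y : Fin (m + 1) → ℝ) b ^ 2 := by
      intro x
      unfold Matrix.trace
      refine Finset.sum_congr rfl fun i _ => ?_
      rw [Matrix.diag_apply, Gm_apply]
      simp only [← sq]
    simp_rw [h4]
    rw [integral_finsetSum _ (fun i _ => integrable_finsetSum _ fun b _ =>
      ts_slice_integrable (hsqc 0 i b) (hsqs 0 i b))]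
    refine Finset.sum_congr rfl fun i _ => ?_
    rw [integral_finsetSum _ (fun b _ => ts_slice_integrable (hsqc 0 i b) (hsqs 0 i b)),
      integral_finsetSum _ (fun b _ => hsqi 0 i b)]
    refine Finset.sum_congr rfl fun b _ => ?_
    exact (slice_int (hsqc 0 i b) (hsqs 0 i b)).symm
  have hsplit : ∫ z, ∑ k : Fin (m + 1), ∑ i, ∑ b, v k i z b ^ 2 =
      (∫ z, ∑ i, ∑ b, v 0 i z b ^ 2) + ∫ z, ∑ k : Fin m, ∑ i, ∑ b, v k.succ i z b ^ 2 := by
    simp_rw [Fin.sum_univ_succ]
    exact integral_add (integrable_finsetSum _ fun i _ => integrable_finsetSum _ fun b _ =>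
      hsqi 0 i b) (hDc.integrable_of_hasCompactSupport hDs)
  rw [← hexp, hsplit]
  rw [htr] at hG2
  have hint' : bco (((m + 1 : ℕ) : ℝ) / 2) g a *
      ((Fintype.card κ : ℝ) ^ (1 - pp (g + 1 / 2 + m / 2)) *
      (∫ z, (∑ i, ∑ b, w i z b ^ 2) ^ pp (g + 1 / 2 + m / 2))) ≤
      (∫ z, ∑ k : Fin m, ∑ i, ∑ b, v k.succ i z b ^ 2) + ∫ x, G x := hint.trans (le_of_eq hadd)
  linarith

theorem Tk_all (m : ℕ) : ∀ g : ℝ, 3 / 2 ≤ g → Tk κ m g := by
  induction m with
  | zero => exact fun g hg => Tk_zero (by linarith)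
  | succ m ih => exact fun g hg => Tk_succ hg (ih _ (by linarith))

end Pool.Agent.X103.LTMag
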