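import Pool.Agent.X103.LTMag2

/-!
# Lieb-Thirring with covariant derivatives: the real inequality (helper103)
-/

set_option autoImplicit false

open MeasureTheory Set Filter Topology Real
open scoped Matrix

namespace Pool.Agent.X103.LTMag

open LTd

variable {κ : Type} [Fintype κ]

theorem psd_one_sub {m n : ℕ} {w : Fin n → (Fin (m + 1) → ℝ) → κ → ℝ}
    (hw : ∀ i b, Continuous fun x => w i x b) (hc : ∀ i b, HasCompactSupport fun x => w i x b)
    (hG : ∀ c : Fin n → ℝ, ∑ b, ∫ x, (∑ i, c i * w i x b) ^ 2 ≤ ∑ i, c i ^ 2) :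
    PSD (1 - Tot (Gm w w)) := by
  classical
  have hT : ∀ i j, Tot (Gm w w) i j = ∑ b, ∫ z, w i z b * w j z b := by
    intro i j
    have hi2 : ∀ b ∈ (Finset.univ : Finset κ), Integrable (fun x : ℝ => ∫ y : Fin m → ℝ,
        w i (Fin.cons x y : Fin (m + 1) → ℝ) b * w j (Fin.cons x y : Fin (m + 1) → ℝ) b) :=
      fun b _ => ts_slice_integrable (f := fun z => w i z b * w j z b)
        ((hw i b).mul (hw j b)) ((hc i b).mul_right)
    have hi3 : Tot (Gm w w) i j = ∫ x : ℝ, ∑ b, ∫ y : Fin m → ℝ,
        w i (Fin.cons x y : Fin (m + 1) → ℝ) b * w j (Fin.cons x y : Fin (m + 1) → ℝ) b := by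
      show ∫ x, Gm w w x i j = _
      simp only [Gm_apply]
    rw [hi3, integral_finsetSum _ hi2]
    refine Finset.sum_congr rfl fun b _ => ?_
    exact (slice_int (f := fun z => w i z b * w j z b) ((hw i b).mul (hw j b))
      ((hc i b).mul_right)).symm
  have iW : ∀ i j b, Integrable (fun z => w i z b * w j z b) volume := fun i j b =>
    ((hw i b).mul (hw j b)).integrable_of_hasCompactSupport ((hc i b).mul_right)
  refine ⟨?_, ?_⟩
  · intro i j
    rw [Matrix.sub_apply, Matrix.sub_apply, hT, hT, Matrix.one_apply, Matrix.one_apply]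
    congr 1
    · simp only [eq_comm]
    · refine Finset.sum_congr rfl fun b _ => ?_
      congr 1
      funext z
      ring
  · intro c
    have e1 : ∑ i, ∑ j, c i * c j * (1 - Tot (Gm w w)) i j =
        ∑ i, c i ^ 2 - ∑ b, ∫ x, (∑ i, c i * w i x b) ^ 2 := by
      have h1 : ∑ b, ∫ x, (∑ i, c i * w i x b) ^ 2 =
          ∑ i, ∑ j, c i * c j * ∑ b, ∫ z, w i z b * w j z b := by
        have h2 : ∀ b, ∫ x, (∑ i, c i * w i x b) ^ 2 =
            ∑ i, ∑ j, c i * c j * ∫ z, w i z b * w j z b := by
          intro b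
          have h2 : ∀ x, (∑ i, c i * w i x b) ^ 2 =
              ∑ i, ∑ j, c i * c j * (w i x b * w j x b) := by
            intro x
            rw [sq, Finset.sum_mul_sum]
            refine Finset.sum_congr rfl fun i _ => Finset.sum_congr rfl fun j _ => ?_
            ring
          rw [integral_congr_ae (Eventually.of_forall h2), integral_finsetSum]
          · refine Finset.sum_congr rfl fun i _ => ?_
            rw [integral_finsetSum]
            · refine Finset.sum_congr rfl fun j _ => ?_
              rw [integral_const_mul]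
            · intro j _
              exact (iW i j b).const_mul _
          · intro i _
            exact integrable_finsetSum _ fun j _ => (iW i j b).const_mul _
        rw [Finset.sum_congr rfl fun b _ => h2 b, Finset.sum_comm]
        refine Finset.sum_congr rfl fun i _ => ?_
        rw [Finset.sum_comm]
        exact Finset.sum_congr rfl fun j _ => (Finset.mul_sum _ _ _).symm
      rw [h1, ← Finset.sum_sub_distrib]
      refine Finset.sum_congr rfl fun i _ => ?_
      have h3 : ∀ j, c i * c j * (1 - Tot (Gm w w)) i j =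
          (if i = j then c i * c j else 0) - c i * c j * ∑ b, ∫ z, w i z b * w j z b := by
        intro j
        rw [Matrix.sub_apply, hT, Matrix.one_apply]
        split_ifs <;> ring
      rw [Finset.sum_congr rfl fun j _ => h3 j, Finset.sum_sub_distrib]
      congr 1
      rw [Finset.sum_ite_eq]
      simp [sq]
    rw [e1]
    linarith [hG c]

theorem core' {m n : ℕ} {w : Fin n → (Fin (m + 1) → ℝ) → κ → ℝ}
    {v : Fin (m + 1) → Fin n → (Fin (m + 1) → ℝ) → κ → ℝ} (h : CS w v)
    (hG : ∀ c : Fin n → ℝ, ∑ b, ∫ x, (∑ i, c i * w i x b) ^ 2 ≤ ∑ i, c i ^ 2) :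
    bco (m / 2) (3 / 2) (π ^ 2 / 4) * ((Fintype.card κ : ℝ) ^ (1 - pp (3 / 2 + m / 2)) *
      ∫ x, (∑ i, ∑ b, w i x b ^ 2) ^ pp (3 / 2 + m / 2)) ≤
      ∫ x, ∑ k, ∑ i, ∑ b, v k i x b ^ 2 := by
  classical
  have hwc : ∀ i b, Continuous (fun x => w i x b) := fun i b => (h.cw i b).continuous
  have hs := slice_sys' h
  have hA := blockA hs (psd_one_sub hwc h.sw hG)
  set p : ℝ := pp (3 / 2 + m / 2) with hp
  have hp0 : 0 < p := by
    rw [hp, pp]
    have hm : (0 : ℝ) ≤ m := Nat.cast_nonneg m
    apply div_pos <;> linarith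
  -- the density
  set F : (Fin (m + 1) → ℝ) → ℝ := fun z => (∑ i, ∑ b, w i z b ^ 2) ^ p with hF
  have hFc : Continuous F := by
    refine Continuous.rpow_const ?_ fun z => Or.inr hp0.le
    exact continuous_finsetSum _ fun i _ => continuous_finsetSum _ fun b _ => (hwc i b).pow 2
  have hFs : HasCompactSupport F := by
    refine cs_fam' (fun (q : Fin n × κ) z => w q.1 z q.2) (fun q => h.sw q.1 q.2) F
      fun z hz => ?_
    show (∑ i, ∑ b, w i z b ^ 2) ^ p = 0
    rw [Finset.sum_eq_zero fun i _ => Finset.sum_eq_zero fun b _ => by rw [hz (i, b)]; norm_num]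
    exact Real.zero_rpow hp0.ne'
  have hsqc : ∀ (k : Fin (m + 1)) (i : Fin n) (b : κ), Continuous (fun z => v k i z b ^ 2) :=
    fun k i b => (h.cv k i b).pow 2
  have hsqs : ∀ (k : Fin (m + 1)) (i : Fin n) (b : κ),
      HasCompactSupport (fun z => v k i z b ^ 2) :=
    fun k i b => (h.sv k i b).comp_left (g := fun t : ℝ => t ^ 2) (by norm_num)
  have hsqi : ∀ (k : Fin (m + 1)) (i : Fin n) (b : κ), Integrable (fun z => v k i z b ^ 2) :=
    fun k i b => (hsqc k i b).integrable_of_hasCompactSupport (hsqs k i b)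
  -- the tangential derivatives
  set D : (Fin (m + 1) → ℝ) → ℝ := fun z => ∑ k : Fin m, ∑ i, ∑ b, v k.succ i z b ^ 2 with hD
  have hDc : Continuous D :=
    continuous_finsetSum _ fun k _ => continuous_finsetSum _ fun i _ =>
      continuous_finsetSum _ fun b _ => hsqc k.succ i b
  have hDs : HasCompactSupport D := by
    refine cs_fam' (fun (q : Fin m × Fin n × κ) z => v q.1.succ q.2.1 z q.2.2)
      (fun q => h.sv q.1.succ q.2.1 q.2.2) _ fun z hz => ?_
    refine Finset.sum_eq_zero fun k _ => Finset.sum_eq_zero fun i _ =>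
      Finset.sum_eq_zero fun b _ => ?_
    rw [hz (k, i, b)]
    norm_num
  have hQ : ∫ x, (Gm (v 0) (v 0) x).trace = ∫ z, ∑ i, ∑ b, v 0 i z b ^ 2 := by
    rw [integral_finsetSum _ (fun i _ => integrable_finsetSum _ fun b _ => hsqi 0 i b)]
    have h4 : ∀ x, (Gm (v 0) (v 0) x).trace = ∑ i, ∑ b, ∫ y : Fin m → ℝ,
        v 0 i (Fin.cons x y : Fin (m + 1) → ℝ) b ^ 2 := by
      intro x
      unfold Matrix.trace
      refine Finset.sum_congr rfl fun i _ => ?_
      rw [Matrix.diag_apply, Gm_apply]
      simp only [← sq]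
    simp_rw [h4]
    rw [integral_finsetSum _ (fun i _ => integrable_finsetSum _ fun b _ =>
      ts_slice_integrable (hsqc 0 i b) (hsqs 0 i b))]
    refine Finset.sum_congr rfl fun i _ => ?_
    rw [integral_finsetSum _ (fun b _ => ts_slice_integrable (hsqc 0 i b) (hsqs 0 i b)),
      integral_finsetSum _ (fun b _ => hsqi 0 i b)]
    refine Finset.sum_congr rfl fun b _ => ?_
    exact (slice_int (hsqc 0 i b) (hsqs 0 i b)).symm
  have htr : Integrable (fun x => (Gm w w x * Gm w w x * Gm w w x).trace) volume := by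
    have hRc : ∀ i j, Continuous fun x => Gm w w x i j := fun i j =>
      continuous_iff_continuousAt.2 fun x => (hs.der x i j).continuousAt
    have hcont : Continuous fun x => (Gm w w x * Gm w w x * Gm w w x).trace := by
      have hR : Continuous fun x => Gm w w x := continuous_matrix hRc
      exact ((hR.matrix_mul hR).matrix_mul hR).matrix_trace
    obtain ⟨M, hM⟩ := hs.supp
    refine hcont.integrable_of_hasCompactSupport ?_
    refine HasCompactSupport.intro (isCompact_Icc (a := -M) (b := M)) fun x hx => ?_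
    have h2 : M < |x| := by
      by_contra hcon
      push Not at hcon
      exact hx (abs_le.1 hcon)
    rw [(hM x h2).1]
    simp
  -- the slices
  have hslice : ∀ x : ℝ, bco (m / 2) (3 / 2) (π ^ 2 / 4) * ((Fintype.card κ : ℝ) ^ (1 - p) *
      ∫ y : Fin m → ℝ, F (Fin.cons x y : Fin (m + 1) → ℝ)) ≤
      (∫ y : Fin m → ℝ, D (Fin.cons x y : Fin (m + 1) → ℝ)) +
        π ^ 2 / 4 * (Gm w w x * Gm w w x * Gm w w x).trace := by
    intro x
    obtain ⟨V, r, hV, hV', hr, hR⟩ := specP (sys_psd hs x)
    have hR' : (Matrix.of fun i j => ∑ b, ∫ y : Fin m → ℝ,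
        w i (Fin.cons x y : Fin (m + 1) → ℝ) b * w j (Fin.cons x y : Fin (m + 1) → ℝ) b : Mat n) =
        V * Matrix.diagonal r * Vᵀ := by
      rw [← hR]
      ext i j
      rw [Matrix.of_apply, Gm_apply]
    have h1 := Tk_slice (g := 3 / 2) (a := π ^ 2 / 4) (by positivity)
      (Tk_all m (3 / 2) le_rfl) (h.slice x) V r hV hV' hR'
    have e1 : ∑ i, r i ^ pp (3 / 2) = (Gm w w x * Gm w w x * Gm w w x).trace := by
      have e2 : pp (3 / 2) = ((3 : ℕ) : ℝ) := by
        rw [pp]
        norm_num
      have e3 : Gm w w x * Gm w w x * Gm w w x =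
          V * Matrix.diagonal (fun i => r i ^ 3) * Vᵀ := by
        have e4 : ∀ X Y : Mat n, (V * X * Vᵀ) * (V * Y * Vᵀ) = V * (X * Y) * Vᵀ := by
          intro X Y
          calc (V * X * Vᵀ) * (V * Y * Vᵀ) = V * X * (Vᵀ * V) * Y * Vᵀ := by
                simp only [Matrix.mul_assoc]
            _ = _ := by rw [hV', Matrix.mul_one]; simp only [Matrix.mul_assoc]
        rw [hR, e4, e4, Matrix.diagonal_mul_diagonal, Matrix.diagonal_mul_diagonal]
        congr 3
        funext i
        ring
      rw [e3, Matrix.trace_mul_comm, ← Matrix.mul_assoc, hV', Matrix.one_mul,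
        Matrix.trace_diagonal]
      refine Finset.sum_congr rfl fun i _ => ?_
      rw [e2, Real.rpow_natCast]
    rw [e1] at h1
    exact h1
  have hint := integral_mono (((slice_integrable' hFc hFs).const_mul
      ((Fintype.card κ : ℝ) ^ (1 - p))).const_mul _)
    ((slice_integrable' hDc hDs).add (htr.const_mul _)) hslice
  rw [integral_const_mul, integral_const_mul, ← slice_int hFc hFs] at hint
  have hsum : ∫ x, ((∫ y : Fin m → ℝ, D (Fin.cons x y : Fin (m + 1) → ℝ)) +
        π ^ 2 / 4 * (Gm w w x * Gm w w x * Gm w w x).trace) =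
      (∫ z, D z) + π ^ 2 / 4 * ∫ x, (Gm w w x * Gm w w x * Gm w w x).trace := by
    rw [integral_add (slice_integrable' hDc hDs) (htr.const_mul _), integral_const_mul,
      ← slice_int hDc hDs]
  have hfin : ∫ z, ∑ k : Fin (m + 1), ∑ i, ∑ b, v k i z b ^ 2 =
      (∫ z, ∑ i, ∑ b, v 0 i z b ^ 2) + ∫ z, D z := by
    simp_rw [Fin.sum_univ_succ]
    exact integral_add (integrable_finsetSum _ fun i _ => integrable_finsetSum _ fun b _ =>
      hsqi 0 i b) (hDc.integrable_of_hasCompactSupport hDs)
  rw [hfin]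
  have hint' := hint.trans_eq hsum
  rw [hQ] at hA
  linarith

end Pool.Agent.X103.LTMag
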