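import Pool.Agent.X103.LTMag3

/-!
# Lieb-Thirring with magnetic potentials and spin (helper103)
-/

set_option autoImplicit false

open MeasureTheory Set Filter Topology Real
open scoped Matrix

namespace Pool.Agent.X103.LTMag

open LTd

/-- The partial derivative of a complex function. -/
noncomputable def pc {m : ℕ} (k : Fin m) (f : (Fin m → ℝ) → ℂ) (x : Fin m → ℝ) : ℂ :=
  fderiv ℝ f x (Pi.single k 1)

/-- The covariant derivative `∂_k u + A_k u` of a `ℂ^q`-valued function. -/
noncomputable def cov {m q : ℕ} (A : Fin m → (Fin m → ℝ) → Matrix (Fin q) (Fin q) ℂ)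
    (k : Fin m) (u : (Fin m → ℝ) → Fin q → ℂ) (x : Fin m → ℝ) (a : Fin q) : ℂ :=
  pc k (fun y => u y a) x + ∑ b, A k x a b * u x b

/-- The real coordinates of a complex vector. -/
noncomputable def re1 {q : ℕ} (z : Fin q → ℂ) : Fin q ⊕ Fin q → ℝ :=
  Sum.elim (fun a => (z a).re) (fun a => (z a).im)

lemma re1_inl {q : ℕ} (z : Fin q → ℂ) (a : Fin q) : re1 z (Sum.inl a) = (z a).re := rfl

lemma re1_inr {q : ℕ} (z : Fin q → ℂ) (a : Fin q) : re1 z (Sum.inr a) = (z a).im := rfl

lemma re1_inner {q : ℕ} (z z' : Fin q → ℂ) :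
    ∑ a, re1 z a * re1 z' a = (∑ a, z a * (starRingEnd ℂ) (z' a)).re := by
  rw [Fintype.sum_sum_type, Complex.re_sum, ← Finset.sum_add_distrib]
  refine Finset.sum_congr rfl fun a _ => ?_
  rw [re1_inl, re1_inl, re1_inr, re1_inr, Complex.mul_re, Complex.conj_re, Complex.conj_im]
  ring

lemma re1_sq {q : ℕ} (z : Fin q → ℂ) : ∑ a, re1 z a ^ 2 = ∑ a, ‖z a‖ ^ 2 := by
  rw [Fintype.sum_sum_type, ← Finset.sum_add_distrib]
  refine Finset.sum_congr rfl fun a _ => ?_
  rw [re1_inl, re1_inr, Complex.sq_norm, Complex.normSq_apply]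
  ring

lemma skew_cancel {q : ℕ} {M : Matrix (Fin q) (Fin q) ℂ} (hM : Mᴴ = -M) (z z' : Fin q → ℂ) :
    (∑ a, (∑ b, M a b * z b) * (starRingEnd ℂ) (z' a)).re +
      (∑ a, (∑ b, M a b * z' b) * (starRingEnd ℂ) (z a)).re = 0 := by
  have h1 : ∑ a, (∑ b, M a b * z' b) * (starRingEnd ℂ) (z a) =
      - (starRingEnd ℂ) (∑ a, (∑ b, M a b * z b) * (starRingEnd ℂ) (z' a)) := by
    have e1 : ∀ a b, (starRingEnd ℂ) (M b a) = - M a b := by
      intro a b
      have h2 := congrFun (congrFun hM a) b
      rw [Matrix.conjTranspose_apply, Matrix.neg_apply] at h2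
      exact h2
    simp only [Finset.sum_mul, map_sum, map_mul, Complex.conj_conj]
    rw [Finset.sum_comm, ← Finset.sum_neg_distrib]
    refine Finset.sum_congr rfl fun b _ => ?_
    rw [← Finset.sum_neg_distrib]
    refine Finset.sum_congr rfl fun a _ => ?_
    rw [e1 a b]
    ring
  rw [h1, Complex.neg_re, Complex.conj_re]
  ring

lemma pc_re {m : ℕ} (k : Fin m) {f : (Fin m → ℝ) → ℂ} {x : Fin m → ℝ}
    (hf : DifferentiableAt ℝ f x) : pd k (fun y => (f y).re) x = (pc k f x).re := by
  have h1 := (Complex.reCLM.hasFDerivAt (x := f x)).comp x hf.hasFDerivAt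
  have h2 : fderiv ℝ (fun y => (f y).re) x = Complex.reCLM.comp (fderiv ℝ f x) := h1.fderiv
  rw [pd, h2]
  rfl

lemma pc_im {m : ℕ} (k : Fin m) {f : (Fin m → ℝ) → ℂ} {x : Fin m → ℝ}
    (hf : DifferentiableAt ℝ f x) : pd k (fun y => (f y).im) x = (pc k f x).im := by
  have h1 := (Complex.imCLM.hasFDerivAt (x := f x)).comp x hf.hasFDerivAt
  have h2 : fderiv ℝ (fun y => (f y).im) x = Complex.imCLM.comp (fderiv ℝ f x) := h1.fderiv
  rw [pd, h2]
  rfl

lemma pd_prod {m : ℕ} {κ : Type} [Fintype κ] (k : Fin m) (f g : (Fin m → ℝ) → κ → ℝ)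
    (hf : ∀ a, ContDiff ℝ 1 fun x => f x a) (hg : ∀ a, ContDiff ℝ 1 fun x => g x a)
    (x : Fin m → ℝ) :
    pd k (fun y => ∑ a, f y a * g y a) x =
      ∑ a, (pd k (fun y => f y a) x * g x a + pd k (fun y => g y a) x * f x a) := by
  have h1 : ∀ a, HasFDerivAt (fun y => f y a * g y a)
      (f x a • fderiv ℝ (fun y => g y a) x + g x a • fderiv ℝ (fun y => f y a) x) x := fun a =>
    ((hf a).differentiable one_ne_zero x).hasFDerivAt.mul
      ((hg a).differentiable one_ne_zero x).hasFDerivAt
  have h2 : HasFDerivAt (fun y => ∑ a, f y a * g y a)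
      (∑ a, (f x a • fderiv ℝ (fun y => g y a) x + g x a • fderiv ℝ (fun y => f y a) x)) x :=
    HasFDerivAt.fun_sum fun a _ => h1 a
  rw [pd, h2.fderiv, ContinuousLinearMap.sum_apply]
  refine Finset.sum_congr rfl fun a _ => ?_
  show f x a * fderiv ℝ (fun y => g y a) x (Pi.single k 1) +
    g x a * fderiv ℝ (fun y => f y a) x (Pi.single k 1) = _
  rw [pd, pd]
  ring

theorem cs_complex {m q n : ℕ} (A : Fin m → (Fin m → ℝ) → Matrix (Fin q) (Fin q) ℂ)
    (hA : ∀ k a b, Continuous fun x => A k x a b) (hs : ∀ k x, (A k x)ᴴ = - A k x)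
    (U : Fin n → (Fin m → ℝ) → Fin q → ℂ) (hU : ∀ i a, ContDiff ℝ 1 fun x => U i x a)
    (hc : ∀ i a, HasCompactSupport fun x => U i x a) :
    CS (fun i x => re1 (U i x)) (fun k i x => re1 (cov A k (U i) x)) := by
  have hre : ∀ i a, ContDiff ℝ 1 fun x => (U i x a).re := fun i a =>
    Complex.reCLM.contDiff.comp (hU i a)
  have him : ∀ i a, ContDiff ℝ 1 fun x => (U i x a).im := fun i a =>
    Complex.imCLM.contDiff.comp (hU i a)
  have hcw : ∀ i a, ContDiff ℝ 1 fun x => re1 (U i x) a := by
    intro i a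
    rcases a with a | a
    · exact hre i a
    · exact him i a
  have hpc : ∀ k i a, Continuous fun x => pc k (fun y => U i y a) x := by
    intro k i a
    exact ((hU i a).continuous_fderiv one_ne_zero).clm_apply continuous_const
  have hpcs : ∀ k i a, HasCompactSupport fun x => pc k (fun y => U i y a) x := by
    intro k i a
    exact (hc i a).fderiv_apply ℝ _
  have hcov : ∀ k i a, Continuous fun x => cov A k (U i) x a := by
    intro k i a
    exact (hpc k i a).add (continuous_finsetSum _ fun b _ => (hA k a b).mul (hU i b).continuous)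
  have hcovs : ∀ k i a, HasCompactSupport fun x => cov A k (U i) x a := by
    intro k i a
    refine (hpcs k i a).add ?_
    have h1 : ∀ b, HasCompactSupport fun x => A k x a b * U i x b := fun b => (hc i b).mul_left
    refine HasCompactSupport.intro (isCompact_iUnion fun b => h1 b) fun x hx => ?_
    refine Finset.sum_eq_zero fun b _ => ?_
    exact image_eq_zero_of_notMem_tsupport (f := fun x => A k x a b * U i x b)
      fun h2 => hx (mem_iUnion.2 ⟨b, h2⟩)
  refine ⟨hcw, ?_, ?_, ?_, ?_⟩
  · intro i a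
    rcases a with a | a
    · exact (hc i a).comp_left (g := Complex.re) Complex.zero_re
    · exact (hc i a).comp_left (g := Complex.im) Complex.zero_im
  · intro k i a
    rcases a with a | a
    · exact Complex.continuous_re.comp (hcov k i a)
    · exact Complex.continuous_im.comp (hcov k i a)
  · intro k i a
    rcases a with a | a
    · exact (hcovs k i a).comp_left (g := Complex.re) Complex.zero_re
    · exact (hcovs k i a).comp_left (g := Complex.im) Complex.zero_im
  · intro k i j x
    have hd : ∀ i a, DifferentiableAt ℝ (fun y => U i y a) x := fun i a =>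
      (hU i a).differentiable one_ne_zero x
    have h1 := pd_prod k (fun y => re1 (U i y)) (fun y => re1 (U j y)) (hcw i) (hcw j) x
    have h2 : ∀ i a, pd k (fun y => re1 (U i y) a) x =
        re1 (fun a => pc k (fun y => U i y a) x) a := by
      intro i a
      rcases a with a | a
      · exact pc_re k (hd i a)
      · exact pc_im k (hd i a)
    have h3 : ∀ i a, re1 (cov A k (U i) x) a = re1 (fun a => pc k (fun y => U i y a) x) a +
        re1 (fun a => ∑ b, A k x a b * U i x b) a := by
      intro i a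
      rcases a with a | a
      · rfl
      · rfl
    rw [h1]
    simp only [h2, h3]
    have h4 := skew_cancel (hs k x) (U i x) (U j x)
    rw [← re1_inner, ← re1_inner] at h4
    rw [← sub_eq_zero, ← Finset.sum_sub_distrib, ← neg_zero, ← h4, ← Finset.sum_add_distrib,
      ← Finset.sum_neg_distrib]
    refine Finset.sum_congr rfl fun a _ => ?_
    ring

end Pool.Agent.X103.LTMag
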