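import Pool.Agent.Helper717.LT.P_blockA
import Pool.Agent.Helper490.LTSech

/-!
# The sharp kinetic inequality in dimension one for systems (helper103)
-/

set_option autoImplicit false

open MeasureTheory Set Filter Topology Real
open scoped Matrix

namespace Pool.Agent.X103.LTSys

open LTd

section real

variable {n : ℕ} {κ : Type} [Fintype κ]

/-- The Gram matrices. -/
def RR (f g : Fin n → ℝ → κ → ℝ) (x : ℝ) : Mat n :=
  Matrix.of fun i j => ∑ a, f i x a * g j x a

lemma RR_trace (X Y : Mat n) (f g : Fin n → ℝ → κ → ℝ) (x : ℝ) :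
    (X * RR f g x * Yᵀ).trace
      = ∑ k, ∑ a, (∑ i, X k i * f i x a) * (∑ j, Y k j * g j x a) := by
  simp only [Matrix.trace, Matrix.diag, Matrix.mul_apply, RR, Matrix.of_apply,
    Matrix.transpose_apply]
  refine Finset.sum_congr rfl fun k _ => ?_
  simp only [Finset.sum_mul, Finset.mul_sum]
  rw [Finset.sum_comm]
  simp only [Finset.sum_comm (s := (Finset.univ : Finset κ))]
  rw [Finset.sum_comm]
  refine Finset.sum_congr rfl fun i _ => Finset.sum_congr rfl fun j _ =>
    Finset.sum_congr rfl fun a _ => ?_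
  ring

lemma sys_of {f f' : Fin n → ℝ → κ → ℝ} (hf : ∀ i x a, HasDerivAt (fun t => f i t a) (f' i x a) x)
    (hf' : ∀ i a, Continuous fun x => f' i x a)
    (hs : ∃ M : ℝ, ∀ i x, M < |x| → f i x = 0 ∧ f' i x = 0) :
    Sys (RR f f) (RR f' f) (RR f' f') := by
  have hc : ∀ i a, Continuous fun x => f i x a := fun i a =>
    continuous_iff_continuousAt.2 fun x => (hf i x a).continuousAt
  refine ⟨?_, ?_, ?_, ?_, ?_, ?_⟩
  · intro x i j
    simp only [RR, Matrix.of_apply]
    exact Finset.sum_congr rfl fun a _ => mul_comm _ _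
  · intro x i j
    have h1 : HasDerivAt (fun t => ∑ a, f i t a * f j t a)
        (∑ a, (f' i x a * f j x a + f i x a * f' j x a)) x :=
      HasDerivAt.fun_sum fun a _ => (hf i x a).mul (hf j x a)
    refine h1.congr_deriv ?_
    simp only [RR, Matrix.of_apply]
    rw [← Finset.sum_add_distrib]
    exact Finset.sum_congr rfl fun a _ => by ring
  · intro i j
    exact continuous_finsetSum _ fun a _ => (hf' i a).mul (hc j a)
  · intro i j
    exact continuous_finsetSum _ fun a _ => (hf' i a).mul (hf' j a)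
  · obtain ⟨M, hM⟩ := hs
    refine ⟨M, fun x hx => ⟨?_, ?_, ?_⟩⟩
    · ext i j
      simp [RR, (hM i x hx).1]
    · ext i j
      simp [RR, (hM i x hx).2]
    · ext i j
      simp [RR, (hM i x hx).2]
  · intro x X Y
    rw [RR_trace, RR_trace, RR_trace, Finset.mul_sum, ← Finset.sum_sub_distrib,
      ← Finset.sum_add_distrib]
    refine Finset.sum_nonneg fun k _ => ?_
    rw [Finset.mul_sum, ← Finset.sum_sub_distrib, ← Finset.sum_add_distrib]
    refine Finset.sum_nonneg fun a _ => ?_
    nlinarith [sq_nonneg ((∑ i, X k i * f' i x a) - ∑ j, Y k j * f j x a)]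

/-- The real form of the inequality, compact supports. -/
theorem real_core {f f' : Fin n → ℝ → κ → ℝ}
    (hf : ∀ i x a, HasDerivAt (fun t => f i t a) (f' i x a) x)
    (hf' : ∀ i a, Continuous fun x => f' i x a)
    (hs : ∃ M : ℝ, ∀ i x, M < |x| → f i x = 0 ∧ f' i x = 0)
    (hG : ∀ v : Fin n → ℝ, ∫ x, ∑ a, (∑ i, v i * f i x a) ^ 2 ≤ ∑ i, v i ^ 2) :
    π ^ 2 / 4 * ∫ x, (RR f f x * RR f f x * RR f f x).trace ≤
      ∫ x, ∑ i, ∑ a, f' i x a ^ 2 := by
  have hc : ∀ i a, Continuous fun x => f i x a := fun i a =>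
    continuous_iff_continuousAt.2 fun x => (hf i x a).continuousAt
  have hsys := sys_of hf hf' hs
  obtain ⟨M, hM⟩ := hs
  have hcs : ∀ i a, HasCompactSupport fun x => f i x a := fun i a =>
    HasCompactSupport.intro (isCompact_Icc (a := -M) (b := M)) fun x hx => by
      have : M < |x| := by
        by_contra h
        push Not at h
        exact hx (abs_le.1 h)
      rw [(hM i x this).1]; rfl
  have hint : ∀ i j a, Integrable (fun x => f i x a * f j x a) := fun i j a =>
    ((hc i a).mul (hc j a)).integrable_of_hasCompactSupport (hcs i a).mul_right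
  have hT : PSD (1 - Tot (RR f f)) := by
    refine ⟨fun i j => ?_, fun v => ?_⟩
    · rw [Matrix.sub_apply, Matrix.sub_apply, Matrix.one_apply, Matrix.one_apply]
      simp only [Tot, Matrix.of_apply]
      congr 1
      · simp only [eq_comm]
      · congr 1
        funext x
        exact hsys.symR x i j
    · have h1 := hG v
      have h2 : ∑ i, ∑ j, v i * v j * (1 - Tot (RR f f)) i j
          = ∑ i, v i ^ 2 - ∫ x, ∑ a, (∑ i, v i * f i x a) ^ 2 := by
        have e1 : ∀ x, ∑ a, (∑ i, v i * f i x a) ^ 2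
            = ∑ i, ∑ j, v i * v j * ∑ a, f i x a * f j x a := by
          intro x
          have e0 : ∀ a, (∑ i, v i * f i x a) ^ 2
              = ∑ i, ∑ j, (v i * v j) * (f i x a * f j x a) := by
            intro a
            rw [pow_two, Finset.sum_mul_sum]
            exact Finset.sum_congr rfl fun i _ => Finset.sum_congr rfl fun j _ => by ring
          simp only [e0]
          rw [Finset.sum_comm]
          refine Finset.sum_congr rfl fun i _ => ?_
          rw [Finset.sum_comm]
          refine Finset.sum_congr rfl fun j _ => ?_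
          rw [Finset.mul_sum]
        simp only [e1]
        rw [integral_finsetSum _ fun i _ => integrable_finsetSum _ fun j _ =>
          (integrable_finsetSum _ fun a _ => hint i j a).const_mul _]
        simp only [Matrix.sub_apply, mul_sub, Finset.sum_sub_distrib]
        congr 1
        · refine Finset.sum_congr rfl fun i _ => ?_
          rw [Finset.sum_eq_single i]
          · rw [Matrix.one_apply_eq]; ring
          · intro j _ hj
            rw [Matrix.one_apply_ne hj.symm, mul_zero]
          · intro h; exact absurd (Finset.mem_univ _) h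
        · refine Finset.sum_congr rfl fun i _ => ?_
          rw [integral_finsetSum _ fun j _ =>
            (integrable_finsetSum _ fun a _ => hint i j a).const_mul _]
          refine Finset.sum_congr rfl fun j _ => ?_
          rw [integral_const_mul]
          rfl
      rw [h2]
      linarith
  have h3 := blockA hsys hT
  refine h3.trans (le_of_eq ?_)
  congr 1
  funext x
  simp only [RR, Matrix.trace, Matrix.diag, Matrix.of_apply]
  exact Finset.sum_congr rfl fun i _ => Finset.sum_congr rfl fun a _ => (pow_two _).symm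

end real

section blocks

variable {N : ℕ}

/-- The real form of a complex matrix. -/
def rho (G : Matrix (Fin N) (Fin N) ℂ) : Matrix (Fin N ⊕ Fin N) (Fin N ⊕ Fin N) ℝ :=
  Matrix.fromBlocks (G.map Complex.re) (-(G.map Complex.im)) (G.map Complex.im)
    (G.map Complex.re)

lemma rho_mul (G H : Matrix (Fin N) (Fin N) ℂ) : rho (G * H) = rho G * rho H := by
  unfold rho
  rw [Matrix.fromBlocks_multiply]
  have h1 : (G * H).map Complex.re = G.map Complex.re * H.map Complex.re
      + -(G.map Complex.im) * H.map Complex.im := by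
    ext i j
    simp only [Matrix.map_apply, Matrix.mul_apply, Matrix.add_apply, Matrix.neg_apply,
      Complex.re_sum, Complex.mul_re, neg_mul, Finset.sum_neg_distrib, Finset.sum_sub_distrib]
    ring
  have h2 : (G * H).map Complex.im = G.map Complex.im * H.map Complex.re
      + G.map Complex.re * H.map Complex.im := by
    ext i j
    simp only [Matrix.map_apply, Matrix.mul_apply, Matrix.add_apply,
      Complex.im_sum, Complex.mul_im, Finset.sum_add_distrib]
    ring
  rw [h1, h2]
  congr 1
  · rw [Matrix.mul_neg, Matrix.neg_mul]; abel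
  · rw [Matrix.mul_neg, Matrix.neg_mul]; abel

lemma rho_trace (G : Matrix (Fin N) (Fin N) ℂ) : (rho G).trace = 2 * (G.trace).re := by
  unfold rho
  simp only [Matrix.trace, Matrix.diag, Fintype.sum_sum_type, Matrix.fromBlocks_apply₁₁,
    Matrix.fromBlocks_apply₂₂, Matrix.map_apply, Complex.re_sum]
  ring

end blocks

section complex

variable {N q : ℕ}

/-- The density matrix at a point. -/
noncomputable def D (u : Fin N → ℝ → Fin q → ℂ) (x : ℝ) : Matrix (Fin q) (Fin q) ℂ :=
  Matrix.of fun a b => ∑ n, u n x a * star (u n x b)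

/-- The coefficient matrix. -/
def U (u : Fin N → ℝ → Fin q → ℂ) (x : ℝ) : Matrix (Fin q) (Fin N) ℂ :=
  Matrix.of fun a n => u n x a

lemma D_eq (u : Fin N → ℝ → Fin q → ℂ) (x : ℝ) : D u x = U u x * (U u x)ᴴ := by
  ext a b
  simp [D, U, Matrix.mul_apply, Matrix.conjTranspose_apply]

lemma trace_cube (A : Matrix (Fin q) (Fin N) ℂ) :
    (Aᴴ * A * (Aᴴ * A) * (Aᴴ * A)).trace = ((A * Aᴴ) ^ 3).trace := by
  have h1 : Aᴴ * A * (Aᴴ * A) * (Aᴴ * A) = Aᴴ * (A * Aᴴ * (A * Aᴴ) * A) := by
    simp only [Matrix.mul_assoc]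
  rw [h1, Matrix.trace_mul_comm]
  congr 1
  rw [pow_succ, pow_two]
  simp only [Matrix.mul_assoc]

lemma trace_nonneg (A : Matrix (Fin q) (Fin N) ℂ) : 0 ≤ (((A * Aᴴ) ^ 3).trace).re := by
  have h1 : (A * Aᴴ) ^ 3 = (A * Aᴴ * A) * (A * Aᴴ * A)ᴴ := by
    rw [pow_succ, pow_two]
    simp only [Matrix.conjTranspose_mul, Matrix.conjTranspose_conjTranspose, Matrix.mul_assoc]
  rw [h1]
  generalize A * Aᴴ * A = B
  simp only [Matrix.trace, Matrix.diag, Matrix.mul_apply, Matrix.conjTranspose_apply,
    Complex.re_sum]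
  refine Finset.sum_nonneg fun i _ => Finset.sum_nonneg fun j _ => ?_
  have : (B i j * star (B i j)).re = ‖B i j‖ ^ 2 := by
    have := Complex.mul_conj' (B i j)
    change (B i j * (starRingEnd ℂ) (B i j)).re = _
    rw [this]
    norm_cast
  rw [this]
  positivity

/-- The real functions. -/
noncomputable def fr (u : Fin N → ℝ → Fin q → ℂ) : Fin (N + N) → ℝ → (Fin q ⊕ Fin q) → ℝ :=
  Fin.append
    (fun n x => Sum.elim (fun a => (u n x a).re) (fun a => (u n x a).im))
    (fun n x => Sum.elim (fun a => -(u n x a).im) (fun a => (u n x a).re))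

lemma fr_left (u : Fin N → ℝ → Fin q → ℂ) (n : Fin N) : fr u (Fin.castAdd N n) =
    fun x => Sum.elim (fun a => (u n x a).re) (fun a => (u n x a).im) :=
  Fin.append_left _ _ n

lemma fr_right (u : Fin N → ℝ → Fin q → ℂ) (n : Fin N) : fr u (Fin.natAdd N n) =
    fun x => Sum.elim (fun a => -(u n x a).im) (fun a => (u n x a).re) :=
  Fin.append_right _ _ n

lemma RR_eq (u : Fin N → ℝ → Fin q → ℂ) (x : ℝ) :
    RR (fr u) (fr u) x =
      (rho ((U u x)ᴴ * U u x)).submatrix finSumFinEquiv.symm finSumFinEquiv.symm := by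
  ext i j
  rw [Matrix.submatrix_apply]
  refine Fin.addCases (fun i => ?_) (fun i => ?_) i <;>
    refine Fin.addCases (fun j => ?_) (fun j => ?_) j <;>
    simp only [RR, Matrix.of_apply, fr_left, fr_right, finSumFinEquiv_symm_apply_castAdd,
      finSumFinEquiv_symm_apply_natAdd, rho, Matrix.fromBlocks_apply₁₁,
      Matrix.fromBlocks_apply₁₂, Matrix.fromBlocks_apply₂₁, Matrix.fromBlocks_apply₂₂,
      Matrix.map_apply, Matrix.neg_apply, Matrix.mul_apply, Matrix.conjTranspose_apply, U,
      Fintype.sum_sum_type, Sum.elim_inl, Sum.elim_inr, Complex.re_sum, Complex.im_sum,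
      Complex.mul_re, Complex.mul_im, Complex.star_def, Complex.conj_re, Complex.conj_im] <;>
    rw [← Finset.sum_add_distrib] <;>
    (try rw [← Finset.sum_neg_distrib]) <;>
    exact Finset.sum_congr rfl fun a _ => by ring

lemma RR_cube (u : Fin N → ℝ → Fin q → ℂ) (x : ℝ) :
    (RR (fr u) (fr u) x * RR (fr u) (fr u) x * RR (fr u) (fr u) x).trace
      = 2 * ((D u x ^ 3).trace).re := by
  rw [RR_eq, Matrix.submatrix_mul_equiv, Matrix.submatrix_mul_equiv, ← rho_mul, ← rho_mul]
  have h1 : ∀ A : Matrix (Fin N ⊕ Fin N) (Fin N ⊕ Fin N) ℝ,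
      (A.submatrix finSumFinEquiv.symm finSumFinEquiv.symm).trace = A.trace := by
    intro A
    simp only [Matrix.trace, Matrix.diag, Matrix.submatrix_apply]
    exact Equiv.sum_comp finSumFinEquiv.symm (fun i => A i i)
  rw [h1, rho_trace, trace_cube, D_eq]

/-- The complex form of the inequality, compact supports. -/
theorem complex_core {u u' : Fin N → ℝ → Fin q → ℂ}
    (hu : ∀ n x a, HasDerivAt (fun t => u n t a) (u' n x a) x)
    (hu' : ∀ n a, Continuous fun x => u' n x a)
    (hs : ∃ M : ℝ, ∀ n x, M < |x| → u n x = 0 ∧ u' n x = 0)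
    (hG : ∀ c : Fin N → ℂ, ∫ x, ∑ a, ‖∑ n, c n * u n x a‖ ^ 2 ≤ ∑ n, ‖c n‖ ^ 2) :
    π ^ 2 / 4 * ∫ x, ((D u x ^ 3).trace).re ≤ ∫ x, ∑ n, ∑ a, ‖u' n x a‖ ^ 2 := by
  have hre : ∀ n x a, HasDerivAt (fun t => (u n t a).re) (u' n x a).re x := fun n x a =>
    Complex.reCLM.hasFDerivAt.comp_hasDerivAt x (hu n x a)
  have him : ∀ n x a, HasDerivAt (fun t => (u n t a).im) (u' n x a).im x := fun n x a =>
    Complex.imCLM.hasFDerivAt.comp_hasDerivAt x (hu n x a)
  have h1 := real_core (f := fr u) (f' := fr u') ?_ ?_ ?_ ?_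
  · simp only [RR_cube] at h1
    rw [integral_const_mul] at h1
    have h2 : ∀ x, ∑ i, ∑ a, fr u' i x a ^ 2 = 2 * ∑ n, ∑ a, ‖u' n x a‖ ^ 2 := by
      intro x
      rw [Fin.sum_univ_add]
      simp only [fr_left, fr_right, Fintype.sum_sum_type, Sum.elim_inl, Sum.elim_inr]
      rw [← Finset.sum_add_distrib, Finset.mul_sum]
      refine Finset.sum_congr rfl fun n _ => ?_
      rw [← Finset.sum_add_distrib, ← Finset.sum_add_distrib, ← Finset.sum_add_distrib,
        Finset.mul_sum]
      refine Finset.sum_congr rfl fun a _ => ?_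
      rw [Complex.sq_norm, Complex.normSq_apply]
      ring
    simp only [h2] at h1
    rw [integral_const_mul] at h1
    linarith
  · intro i x a
    refine Fin.addCases (fun n => ?_) (fun n => ?_) i
    · simp only [fr_left]
      rcases a with a | a
      · exact hre n x a
      · exact him n x a
    · simp only [fr_right]
      rcases a with a | a
      · exact (him n x a).neg
      · exact hre n x a
  · intro i a
    refine Fin.addCases (fun n => ?_) (fun n => ?_) i
    · simp only [fr_left]
      rcases a with a | a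
      · exact Complex.continuous_re.comp (hu' n a)
      · exact Complex.continuous_im.comp (hu' n a)
    · simp only [fr_right]
      rcases a with a | a
      · exact (Complex.continuous_im.comp (hu' n a)).neg
      · exact Complex.continuous_re.comp (hu' n a)
  · obtain ⟨M, hM⟩ := hs
    refine ⟨M, fun i x hx => ?_⟩
    refine Fin.addCases (fun n => ?_) (fun n => ?_) i
    · simp only [fr_left, (hM n x hx).1, (hM n x hx).2]
      constructor <;> funext a <;> rcases a with a | a <;> simp
    · simp only [fr_right, (hM n x hx).1, (hM n x hx).2]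
      constructor <;> funext a <;> rcases a with a | a <;> simp
  · intro v
    have h2 := hG fun n => ⟨v (Fin.castAdd N n), v (Fin.natAdd N n)⟩
    refine le_trans (le_of_eq ?_) (h2.trans (le_of_eq ?_))
    · congr 1
      funext x
      rw [Fintype.sum_sum_type, ← Finset.sum_add_distrib]
      refine Finset.sum_congr rfl fun a _ => ?_
      rw [Complex.sq_norm, Complex.normSq_apply, Complex.re_sum, Complex.im_sum, Fin.sum_univ_add,
        Fin.sum_univ_add]
      simp only [fr_left, fr_right, Sum.elim_inl, Sum.elim_inr, Complex.mul_re, Complex.mul_im]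
      rw [← Finset.sum_add_distrib, ← Finset.sum_add_distrib, pow_two, pow_two]
      congr 2
      · exact Finset.sum_congr rfl fun n _ => by ring
      · exact Finset.sum_congr rfl fun n _ => by ring
    · rw [Fin.sum_univ_add, ← Finset.sum_add_distrib]
      refine Finset.sum_congr rfl fun n _ => ?_
      rw [Complex.sq_norm, Complex.normSq_apply]
      ring

end complex

section general

variable {N q : ℕ}

lemma cutoff1 : ∃ C : ℝ, 0 ≤ C ∧ ∀ ρ : ℝ, 1 ≤ ρ → ∃ χ χ' : ℝ → ℝ,
    (∀ x, HasDerivAt χ (χ' x) x) ∧ Continuous χ' ∧ (∀ x, 0 ≤ χ x ∧ χ x ≤ 1) ∧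
    (∀ x, |x| ≤ ρ → χ x = 1) ∧ (∀ x, |χ' x| ≤ C / ρ) ∧
    ∀ x, 2 * ρ < |x| → χ x = 0 ∧ χ' x = 0 := by
  let φ : ContDiffBump (0 : ℝ) := ⟨1, 2, by norm_num, by norm_num⟩
  have hφ : ContDiff ℝ 1 (φ : ℝ → ℝ) := φ.contDiff (n := 1)
  have hcs : HasCompactSupport (φ : ℝ → ℝ) := φ.hasCompactSupport
  have hcd : Continuous (deriv (φ : ℝ → ℝ)) := hφ.continuous_deriv (by norm_num)
  obtain ⟨C, hC⟩ := hcd.bounded_above_of_compact_support hcs.deriv
  refine ⟨max C 0, le_max_right _ _, fun ρ hρ => ?_⟩
  have hρ0 : 0 < ρ := by linarith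
  refine ⟨fun x => φ (x / ρ), fun x => deriv (φ : ℝ → ℝ) (x / ρ) / ρ, ?_, ?_, ?_, ?_, ?_, ?_⟩
  · intro x
    have h1 : HasDerivAt (φ : ℝ → ℝ) (deriv (φ : ℝ → ℝ) (x / ρ)) (x / ρ) :=
      (hφ.differentiable (by norm_num) _).hasDerivAt
    have h2 : HasDerivAt (fun x : ℝ => x / ρ) (1 / ρ) x := (hasDerivAt_id x).div_const ρ
    have h3 := h1.comp x h2
    refine h3.congr_deriv ?_
    ring
  · exact (hcd.comp (continuous_id.div_const ρ)).div_const ρ
  · exact fun x => ⟨φ.nonneg, φ.le_one⟩
  · intro x hx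
    apply φ.one_of_mem_closedBall
    rw [Metric.mem_closedBall, dist_zero_right, Real.norm_eq_abs, abs_div, abs_of_pos hρ0]
    show |x| / ρ ≤ 1
    rw [div_le_one hρ0]
    exact hx
  · intro x
    rw [abs_div, abs_of_pos hρ0]
    gcongr
    exact (hC _).trans (le_max_left _ _)
  · intro x hx
    have h1 : x / ρ ∉ tsupport (φ : ℝ → ℝ) := by
      rw [φ.tsupport_eq, Metric.mem_closedBall, dist_zero_right, Real.norm_eq_abs, abs_div,
        abs_of_pos hρ0, not_le]
      show 2 < |x| / ρ
      rw [lt_div_iff₀ hρ0]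
      exact hx
    refine ⟨image_eq_zero_of_notMem_tsupport h1, ?_⟩
    have h2 : deriv (φ : ℝ → ℝ) (x / ρ) = 0 := by
      by_contra h
      exact h1 (support_deriv_subset h)
    simp only [h2, zero_div]

theorem general {u u' : Fin N → ℝ → Fin q → ℂ}
    (hu : ∀ n x a, HasDerivAt (fun t => u n t a) (u' n x a) x)
    (hu' : ∀ n a, Continuous fun x => u' n x a)
    (h2 : ∀ n a, Integrable fun x => ‖u n x a‖ ^ 2)
    (h2' : ∀ n a, Integrable fun x => ‖u' n x a‖ ^ 2)
    (hG : ∀ c : Fin N → ℂ, ∫ x, ∑ a, ‖∑ n, c n * u n x a‖ ^ 2 ≤ ∑ n, ‖c n‖ ^ 2) :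
    Integrable (fun x => ((D u x ^ 3).trace).re) ∧
    π ^ 2 / 4 * ∫ x, ((D u x ^ 3).trace).re ≤ ∑ n, ∑ a, ∫ x, ‖u' n x a‖ ^ 2 := by
  have hc : ∀ n a, Continuous fun x => u n x a := fun n a =>
    continuous_iff_continuousAt.2 fun x => (hu n x a).continuousAt
  set g : ℝ → ℝ := fun x => ((D u x ^ 3).trace).re with hg
  have hDc : Continuous (D u) := by
    refine continuous_matrix fun a b => ?_
    show Continuous fun x => ∑ n, u n x a * star (u n x b)
    refine continuous_finsetSum _ fun n _ => ?_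
    exact Continuous.mul (hc n a) (continuous_star.comp (hc n b))
  have hgc : Continuous g := by
    have h3 : Continuous fun x => (D u x ^ 3).trace := by
      have h4 : Continuous fun x => D u x ^ 3 := hDc.pow 3
      exact h4.matrix_trace
    exact Complex.continuous_re.comp h3
  have hg0 : ∀ x, 0 ≤ g x := fun x => by
    simp only [hg]
    rw [D_eq]
    exact trace_nonneg _
  have hTi : Integrable (fun x => ∑ n, ∑ a, ‖u' n x a‖ ^ 2) :=
    integrable_finsetSum _ fun n _ => integrable_finsetSum _ fun a _ => h2' n a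
  have hBi : Integrable (fun x => ∑ n, ∑ a, ‖u n x a‖ ^ 2) :=
    integrable_finsetSum _ fun n _ => integrable_finsetSum _ fun a _ => h2 n a
  set T : ℝ := ∫ x, ∑ n, ∑ a, ‖u' n x a‖ ^ 2 with hT
  set B : ℝ := ∫ x, ∑ n, ∑ a, ‖u n x a‖ ^ 2 with hB
  have hT0 : 0 ≤ T := integral_nonneg fun x => by positivity
  have hB0 : 0 ≤ B := integral_nonneg fun x => by positivity
  have hTe : T = ∑ n, ∑ a, ∫ x, ‖u' n x a‖ ^ 2 := by
    rw [hT, integral_finsetSum _ fun n _ => integrable_finsetSum _ fun a _ => h2' n a]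
    exact Finset.sum_congr rfl fun n _ => integral_finsetSum _ fun a _ => h2' n a
  obtain ⟨C, hC0, hC⟩ := cutoff1
  -- integrability of the squares of the linear combinations
  have hlin : ∀ c : Fin N → ℂ, Integrable (fun x => ∑ a, ‖∑ n, c n * u n x a‖ ^ 2) := by
    intro c
    refine integrable_finsetSum _ fun a _ => ?_
    have hm : ∀ n, MemLp (fun x => u n x a) 2 := fun n => by
      rw [memLp_two_iff_integrable_sq_norm (hc n a).aestronglyMeasurable]
      exact h2 n a
    have h3 : MemLp (fun x => ∑ n, c n * u n x a) 2 := by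
      have := memLp_finsetSum (μ := volume) (p := 2) Finset.univ
        (f := fun n x => c n * u n x a) fun n _ => (hm n).const_mul (c n)
      exact this
    rw [memLp_two_iff_integrable_sq_norm h3.1] at h3
    exact h3
  -- the bound on intervals
  have key : ∀ ρ0 : ℝ, 0 ≤ ρ0 → π ^ 2 / 4 * ∫ x in (-ρ0)..ρ0, g x ≤ T := by
    intro ρ0 hρ0
    refine le_of_forall_pos_le_add fun ε hε => ?_
    obtain ⟨η, hη, hηT⟩ : ∃ η : ℝ, 0 < η ∧ η * T ≤ ε / 2 := by
      refine ⟨ε / (2 * (T + 1)), by positivity, ?_⟩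
      rw [div_mul_eq_mul_div, div_le_div_iff₀ (by positivity) (by norm_num)]
      nlinarith
    set K : ℝ := (1 + 1 / η) * C ^ 2 * B with hK
    have hK0 : 0 ≤ K := by positivity
    set ρ : ℝ := max (max 1 ρ0) (2 * K / ε) with hρ
    have hρ1 : 1 ≤ ρ := (le_max_left _ _).trans (le_max_left _ _)
    have hρρ : ρ0 ≤ ρ := (le_max_right _ _).trans (le_max_left _ _)
    have hρK : 2 * K / ε ≤ ρ := le_max_right _ _
    have hρp : 0 < ρ := by linarith
    have hKe : K / ρ ^ 2 ≤ ε / 2 := by
      rw [div_le_div_iff₀ (by positivity) (by norm_num)]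
      rw [div_le_iff₀ hε] at hρK
      nlinarith [mul_pos hε hρp, mul_nonneg (mul_pos hε hρp).le (sub_nonneg.mpr hρ1)]
    obtain ⟨χ, χ', hχd, hχc', hχ01, hχ1, hχb, hχ0⟩ := hC ρ hρ1
    have hχc : Continuous χ := continuous_iff_continuousAt.2 fun x => (hχd x).continuousAt
    set v : Fin N → ℝ → Fin q → ℂ := fun n x a => (χ x : ℂ) * u n x a with hv
    set v' : Fin N → ℝ → Fin q → ℂ := fun n x a => (χ' x : ℂ) * u n x a + (χ x : ℂ) * u' n x a
      with hv'
    have hvd : ∀ n x a, HasDerivAt (fun t => v n t a) (v' n x a) x := fun n x a =>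
      ((hχd x).ofReal_comp).mul (hu n x a)
    have hvc' : ∀ n a, Continuous fun x => v' n x a := fun n a =>
      ((Complex.continuous_ofReal.comp hχc').mul (hc n a)).add
        ((Complex.continuous_ofReal.comp hχc).mul (hu' n a))
    have hvs : ∃ M : ℝ, ∀ n x, M < |x| → v n x = 0 ∧ v' n x = 0 := by
      refine ⟨2 * ρ, fun n x hx => ?_⟩
      obtain ⟨h3, h4⟩ := hχ0 x hx
      constructor
      · funext a; simp [hv, h3]
      · funext a; simp [hv', h3, h4]
    have hvG : ∀ c : Fin N → ℂ, ∫ x, ∑ a, ‖∑ n, c n * v n x a‖ ^ 2 ≤ ∑ n, ‖c n‖ ^ 2 := by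
      intro c
      refine le_trans (integral_mono_of_nonneg (Eventually.of_forall fun x => ?_) (hlin c)
        (Eventually.of_forall fun x => ?_)) (hG c)
      · simp only [Pi.zero_apply]; positivity
      · refine Finset.sum_le_sum fun a _ => ?_
        have h3 : ∑ n, c n * v n x a = (χ x : ℂ) * ∑ n, c n * u n x a := by
          rw [Finset.mul_sum]
          exact Finset.sum_congr rfl fun n _ => by simp only [hv]; ring
        rw [h3, norm_mul, Complex.norm_real, Real.norm_eq_abs, mul_pow, sq_abs]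
        have h4 : χ x ^ 2 ≤ 1 := by
          have := (hχ01 x).1; have := (hχ01 x).2; nlinarith
        nlinarith [sq_nonneg ‖∑ n, c n * u n x a‖]
    have h3 := complex_core hvd hvc' hvs hvG
    have hDv : ∀ x, ((D v x ^ 3).trace).re = χ x ^ 6 * g x := by
      intro x
      have e1 : D v x = ((χ x ^ 2 : ℝ) : ℂ) • D u x := by
        ext a b
        simp only [D, Matrix.of_apply, Matrix.smul_apply, smul_eq_mul, Finset.mul_sum, hv]
        refine Finset.sum_congr rfl fun n _ => ?_
        rw [star_mul']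
        have : star ((χ x : ℝ) : ℂ) = (χ x : ℂ) := Complex.conj_ofReal _
        rw [this]
        push_cast
        ring
      rw [e1, smul_pow, Matrix.trace_smul, smul_eq_mul, ← Complex.ofReal_pow, Complex.re_ofReal_mul]
      simp only [hg]
      ring
    simp only [hDv] at h3
    have hpt : ∀ x, ∑ n, ∑ a, ‖v' n x a‖ ^ 2 ≤ (1 + η) * (∑ n, ∑ a, ‖u' n x a‖ ^ 2) +
        ((1 + 1 / η) * (C / ρ) ^ 2) * ∑ n, ∑ a, ‖u n x a‖ ^ 2 := by
      intro x
      simp only [Finset.mul_sum]
      rw [← Finset.sum_add_distrib]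
      refine Finset.sum_le_sum fun n _ => ?_
      rw [← Finset.sum_add_distrib]
      refine Finset.sum_le_sum fun a _ => ?_
      have k1 : ‖v' n x a‖ ≤ C / ρ * ‖u n x a‖ + ‖u' n x a‖ := by
        simp only [hv']
        refine (norm_add_le _ _).trans (add_le_add ?_ ?_)
        · rw [norm_mul, Complex.norm_real, Real.norm_eq_abs]
          exact mul_le_mul_of_nonneg_right (hχb x) (norm_nonneg _)
        · rw [norm_mul, Complex.norm_real, Real.norm_eq_abs, abs_of_nonneg (hχ01 x).1]
          exact mul_le_of_le_one_left (norm_nonneg _) (hχ01 x).2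
      have k2 : ‖v' n x a‖ ^ 2 ≤ (C / ρ * ‖u n x a‖ + ‖u' n x a‖) ^ 2 :=
        pow_le_pow_left₀ (norm_nonneg _) k1 2
      refine k2.trans ?_
      set s : ℝ := C / ρ * ‖u n x a‖ with hs
      set t : ℝ := ‖u' n x a‖ with ht
      have k3 : 2 * s * t ≤ η * t ^ 2 + 1 / η * s ^ 2 := by
        have : 0 ≤ (η * t - s) ^ 2 / η := by positivity
        have e : (η * t - s) ^ 2 / η = η * t ^ 2 + 1 / η * s ^ 2 - 2 * s * t := by
          field_simp
          ring
        rw [e] at this
        linarith
      have e2 : (1 + 1 / η) * (C / ρ) ^ 2 * ‖u n x a‖ ^ 2 = (1 + 1 / η) * s ^ 2 := by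
        rw [hs]; ring
      rw [e2]
      nlinarith
    have h4 : ∫ x, ∑ n, ∑ a, ‖v' n x a‖ ^ 2 ≤ (1 + η) * T + (1 + 1 / η) * (C / ρ) ^ 2 * B := by
      have hadd : Integrable (fun x => (1 + η) * (∑ n, ∑ a, ‖u' n x a‖ ^ 2) +
          ((1 + 1 / η) * (C / ρ) ^ 2) * ∑ n, ∑ a, ‖u n x a‖ ^ 2) :=
        (hTi.const_mul _).add (hBi.const_mul _)
      refine (integral_mono_of_nonneg (Eventually.of_forall fun x => ?_)
        hadd (Eventually.of_forall hpt)).trans (le_of_eq ?_)
      · simp only [Pi.zero_apply]; positivity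
      · rw [integral_add (hTi.const_mul _) (hBi.const_mul _), integral_const_mul,
          integral_const_mul]
    have h5 : ∫ x in (-ρ0)..ρ0, g x ≤ ∫ x, χ x ^ 6 * g x := by
      rw [intervalIntegral.integral_of_le (by linarith)]
      have hci : Integrable (fun x => χ x ^ 6 * g x) := by
        have hci0 : Continuous (fun x => χ x ^ 6 * g x) := (hχc.pow 6).mul hgc
        refine hci0.integrable_of_hasCompactSupport ?_
        refine HasCompactSupport.intro (isCompact_Icc (a := -(2 * ρ)) (b := 2 * ρ)) fun x hx => ?_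
        show χ x ^ 6 * g x = 0
        have : 2 * ρ < |x| := by
          by_contra h
          push Not at h
          exact hx (abs_le.1 h)
        rw [(hχ0 x this).1]; simp
      have e1 : ∫ x in Ioc (-ρ0) ρ0, g x = ∫ x in Ioc (-ρ0) ρ0, χ x ^ 6 * g x := by
        refine setIntegral_congr_fun measurableSet_Ioc fun x hx => ?_
        have : |x| ≤ ρ := by
          rw [abs_le]; constructor <;> linarith [hx.1, hx.2]
        simp only [hχ1 x this, one_pow, one_mul]
      rw [e1]
      exact setIntegral_le_integral hci (Eventually.of_forall fun x =>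
        mul_nonneg (by have := (hχ01 x).1; positivity) (hg0 x))
    have hpi : 0 ≤ π ^ 2 / 4 := by positivity
    have h6 := mul_le_mul_of_nonneg_left h5 hpi
    have h7 : (1 + 1 / η) * (C / ρ) ^ 2 * B = K / ρ ^ 2 := by
      rw [hK, div_pow]; ring
    rw [h7] at h4
    linarith
  have hpi : 0 < π ^ 2 / 4 := by positivity
  have hint : Integrable g := by
    refine integrable_of_intervalIntegral_norm_bounded (l := atTop) (a := fun n : ℕ => -(n : ℝ))
      (b := fun n : ℕ => (n : ℝ)) (T / (π ^ 2 / 4)) (fun n => ?_)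
      (tendsto_neg_atTop_atBot.comp tendsto_natCast_atTop_atTop) tendsto_natCast_atTop_atTop
      (Eventually.of_forall fun n => ?_)
    · exact (hgc.integrableOn_Icc).mono_set Ioc_subset_Icc_self
    · have h3 := key n (Nat.cast_nonneg n)
      rw [le_div_iff₀ hpi, mul_comm]
      refine le_trans (le_of_eq ?_) h3
      congr 1
      refine intervalIntegral.integral_congr fun x _ => ?_
      exact Real.norm_of_nonneg (hg0 x)
  refine ⟨hint, ?_⟩
  rw [← hTe]
  have h3 : Tendsto (fun n : ℕ => ∫ x in (-(n : ℝ))..(n : ℝ), g x) atTop (𝓝 (∫ x, g x)) :=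
    intervalIntegral_tendsto_integral hint
      (tendsto_neg_atTop_atBot.comp tendsto_natCast_atTop_atTop) tendsto_natCast_atTop_atTop
  exact le_of_tendsto (h3.const_mul _) (Eventually.of_forall fun n => key n (Nat.cast_nonneg n))

end general

end Pool.Agent.X103.LTSys
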