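import Pool.Agent.X103.LTSys
import Pool.Agent.Helper490.LTH1

/-!
# The sharp kinetic inequality for systems, Sobolev version (helper103)
-/

set_option autoImplicit false

open MeasureTheory Set Filter Topology Real
open scoped Matrix ENNReal

namespace Pool.Agent.X103.LTSys

open Pool.Helper490.Calib (Av Av_bound)

/-- `u` is the continuous representative of a function of the Sobolev space `H¹(ℝ)` with weak
derivative `g`. -/
structure IsH1 (u g : ℝ → ℂ) : Prop where
  memLp : MemLp u 2
  memLp_deriv : MemLp g 2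
  integral_deriv : ∀ a b, u b - u a = ∫ x in a..b, g x

lemma IsH1.cont {u g : ℝ → ℂ} (h : IsH1 u g) : Continuous u := by
  have hi : ∀ a b, IntervalIntegrable g volume a b := by
    intro a b
    have h1 : LocallyIntegrable g volume := h.memLp_deriv.locallyIntegrable (by norm_num)
    exact intervalIntegrable_iff.2 ((h1.integrableOn_isCompact isCompact_uIcc).mono_set
      uIoc_subset_uIcc)
  have : u = fun x => u 0 + ∫ t in (0:ℝ)..x, g t := by
    funext x; rw [← h.integral_deriv 0 x]; abel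
  rw [this]
  exact continuous_const.add (intervalIntegral.continuous_primitive hi 0)

lemma IsH1.sq_int {u g : ℝ → ℂ} (h : IsH1 u g) : Integrable fun x => ‖u x‖ ^ 2 :=
  h.memLp.integrable_norm_pow (by norm_num)

lemma IsH1.sq_int' {u g : ℝ → ℂ} (h : IsH1 u g) : Integrable fun x => ‖g x‖ ^ 2 :=
  h.memLp_deriv.integrable_norm_pow (by norm_num)

/-- The difference quotient. -/
noncomputable def dq (h : ℝ) (u : ℝ → ℂ) (x : ℝ) : ℂ := h⁻¹ • (u (x + h) - u x)

lemma Av_eq {u : ℝ → ℂ} (huc : Continuous u) {h : ℝ} (hh : h ≠ 0) (x : ℝ) :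
    Av h u x = h⁻¹ • ((∫ t in (0:ℝ)..(x + h), u t) - ∫ t in (0:ℝ)..x, u t) := by
  rw [Av, intervalIntegral.integral_comp_add_mul u hh x]
  congr 1
  rw [mul_zero, add_zero, mul_one]
  rw [intervalIntegral.integral_interval_sub_left (huc.intervalIntegrable _ _)
    (huc.intervalIntegrable _ _)]

lemma Av_deriv {u : ℝ → ℂ} (huc : Continuous u) {h : ℝ} (hh : h ≠ 0) (x : ℝ) :
    HasDerivAt (Av h u) (dq h u x) x := by
  have hUd : ∀ x, HasDerivAt (fun x => ∫ t in (0:ℝ)..x, u t) (u x) x := fun x =>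
    intervalIntegral.integral_hasDerivAt_right (huc.intervalIntegrable _ _)
      (huc.stronglyMeasurableAtFilter _ _) huc.continuousAt
  have h1 : HasDerivAt (fun x => ∫ t in (0:ℝ)..(x + h), u t) (u (x + h)) x :=
    (hUd (x + h)).comp_add_const x h
  have h2 := (h1.sub (hUd x)).const_smul h⁻¹
  have h3 : Av h u = fun x => h⁻¹ • ((∫ t in (0:ℝ)..(x + h), u t) - ∫ t in (0:ℝ)..x, u t) :=
    funext (Av_eq huc hh)
  rw [h3]
  exact h2

lemma dq_cont {u : ℝ → ℂ} (huc : Continuous u) (h : ℝ) : Continuous (dq h u) := by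
  have h1 : Continuous fun x => u (x + h) := huc.comp (continuous_add_const h)
  exact (h1.sub huc).const_smul h⁻¹

lemma Av_cont {u : ℝ → ℂ} (huc : Continuous u) {h : ℝ} (hh : h ≠ 0) : Continuous (Av h u) :=
  continuous_iff_continuousAt.2 fun x => (Av_deriv huc hh x).continuousAt

lemma Av_sq {u : ℝ → ℂ} (huc : Continuous u) (hi : Integrable fun x => ‖u x‖ ^ 2) {h : ℝ}
    (hh : h ≠ 0) :
    Integrable (fun x => ‖Av h u x‖ ^ 2) ∧ ∫ x, ‖Av h u x‖ ^ 2 ≤ ∫ x, ‖u x‖ ^ 2 :=
  Av_bound h u huc.stronglyMeasurable hi (Av_cont huc hh).aestronglyMeasurable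

lemma IsH1.dq_sq {u g : ℝ → ℂ} (hs : IsH1 u g) {h : ℝ} (hh : h ≠ 0) :
    Integrable (fun x => ‖dq h u x‖ ^ 2) ∧ ∫ x, ‖dq h u x‖ ^ 2 ≤ ∫ x, ‖g x‖ ^ 2 := by
  set G : ℝ → ℂ := hs.memLp_deriv.1.mk g with hG
  have hGm : StronglyMeasurable G := hs.memLp_deriv.1.stronglyMeasurable_mk
  have hgG : g =ᵐ[volume] G := hs.memLp_deriv.1.ae_eq_mk
  have hG2i : Integrable (fun x => ‖G x‖ ^ 2) :=
    hs.sq_int'.congr (hgG.mono fun x hx => by simp only [hx])
  have hgval : ∫ x, ‖g x‖ ^ 2 = ∫ x, ‖G x‖ ^ 2 :=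
    integral_congr_ae (hgG.mono fun x hx => by simp only [hx])
  have huG : ∀ a b, u b - u a = ∫ x in a..b, G x := by
    intro a b
    rw [hs.integral_deriv a b]
    exact intervalIntegral.integral_congr_ae (hgG.mono fun x hx _ => hx)
  have hAG : Av h G = dq h u := by
    funext x
    rw [Av, intervalIntegral.integral_comp_add_mul G hh x, dq]
    congr 1
    rw [mul_zero, add_zero, mul_one, huG]
  have h1 := Av_bound h G hGm hG2i (by
    rw [hAG]; exact (dq_cont hs.cont h).aestronglyMeasurable)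
  rw [hAG] at h1
  rw [hgval]
  exact h1

lemma Av_tendsto {u : ℝ → ℂ} (huc : Continuous u) (x : ℝ) :
    Tendsto (fun k : ℕ => Av (1 / ((k : ℝ) + 1)) u x) atTop (𝓝 (u x)) := by
  have hUd : HasDerivAt (fun x => ∫ t in (0:ℝ)..x, u t) (u x) x :=
    intervalIntegral.integral_hasDerivAt_right (huc.intervalIntegrable _ _)
      (huc.stronglyMeasurableAtFilter _ _) huc.continuousAt
  have hk0 : ∀ k : ℕ, 1 / ((k : ℝ) + 1) ≠ 0 := fun k => by positivity
  have h1 := hUd.tendsto_slope_zero
  have h2 : Tendsto (fun k : ℕ => 1 / ((k : ℝ) + 1)) atTop (𝓝[≠] 0) :=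
    tendsto_nhdsWithin_iff.2 ⟨tendsto_one_div_add_atTop_nhds_zero_nat,
      Eventually.of_forall fun k => hk0 k⟩
  refine (h1.comp h2).congr fun k => ?_
  simp only [Function.comp]
  rw [Av_eq huc (hk0 k)]

lemma Av_lin {N : ℕ} (c : Fin N → ℂ) {u : Fin N → ℝ → ℂ} (huc : ∀ n, Continuous (u n)) (h x : ℝ) :
    Av h (fun y => ∑ n, c n * u n y) x = ∑ n, c n * Av h (u n) x := by
  simp only [Av]
  rw [intervalIntegral.integral_finsetSum]
  · exact Finset.sum_congr rfl fun n _ => intervalIntegral.integral_const_mul _ _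
  · intro n _
    exact (continuous_const.mul ((huc n).comp (by fun_prop :
      Continuous fun s : ℝ => x + h * s))).intervalIntegrable _ _

variable {N q : ℕ}

/-- The sharp kinetic inequality for systems with the Gram matrix at most one, in `H¹(ℝ)`. -/
theorem general_H1 {u g : Fin N → ℝ → Fin q → ℂ}
    (hs : ∀ n a, IsH1 (fun x => u n x a) (fun x => g n x a))
    (hG : ∀ c : Fin N → ℂ, ∫ x, ∑ a, ‖∑ n, c n * u n x a‖ ^ 2 ≤ ∑ n, ‖c n‖ ^ 2) :
    Integrable (fun x => ((D u x ^ 3).trace).re) ∧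
    π ^ 2 / 4 * ∫ x, ((D u x ^ 3).trace).re ≤ ∑ n, ∑ a, ∫ x, ‖g n x a‖ ^ 2 := by
  have hc : ∀ n a, Continuous fun x => u n x a := fun n a => (hs n a).cont
  set T : ℝ := ∑ n, ∑ a, ∫ x, ‖g n x a‖ ^ 2 with hT
  have hT0 : 0 ≤ T := Finset.sum_nonneg fun n _ => Finset.sum_nonneg fun a _ =>
    integral_nonneg fun x => sq_nonneg _
  set hk : ℕ → ℝ := fun k => 1 / ((k : ℝ) + 1) with hhk
  have hk0 : ∀ k, hk k ≠ 0 := fun k => by simp only [hhk]; positivity
  set v : ℕ → Fin N → ℝ → Fin q → ℂ := fun k n x a => Av (hk k) (fun y => u n y a) x with hv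
  have htr : ∀ w : Fin N → ℝ → Fin q → ℂ, (∀ n a, Continuous fun x => w n x a) →
      Continuous fun x => ((D w x ^ 3).trace).re := by
    intro w hw
    have hDc : Continuous (D w) := by
      refine continuous_matrix fun a b => ?_
      show Continuous fun x => ∑ n, w n x a * star (w n x b)
      refine continuous_finsetSum _ fun n _ => ?_
      exact Continuous.mul (hw n a) (continuous_star.comp (hw n b))
    have h3 : Continuous fun x => (D w x ^ 3).trace := by
      have h4 : Continuous fun x => D w x ^ 3 := hDc.pow 3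
      exact h4.matrix_trace
    exact Complex.continuous_re.comp h3
  have hnn : ∀ (w : Fin N → ℝ → Fin q → ℂ) x, 0 ≤ ((D w x ^ 3).trace).re := fun w x => by
    rw [D_eq]
    exact trace_nonneg _
  have hlin : ∀ (c : Fin N → ℂ) (a : Fin q),
      Integrable (fun x => ‖∑ n, c n * u n x a‖ ^ 2) := by
    intro c a
    have h3 : MemLp (fun x => ∑ n, c n * u n x a) 2 := by
      have := memLp_finsetSum (μ := volume) (p := 2) Finset.univ
        (f := fun n x => c n * u n x a) fun n _ => ((hs n a).memLp).const_mul (c n)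
      exact this
    rw [memLp_two_iff_integrable_sq_norm h3.1] at h3
    exact h3
  have hstep : ∀ k, Integrable (fun x => ((D (v k) x ^ 3).trace).re) ∧
      π ^ 2 / 4 * ∫ x, ((D (v k) x ^ 3).trace).re ≤ T := by
    intro k
    have h1 := general (u := v k) (u' := fun n x a => dq (hk k) (fun y => u n y a) x)
      (fun n x a => Av_deriv (hc n a) (hk0 k) x) (fun n a => dq_cont (hc n a) _)
      (fun n a => (Av_sq (hc n a) (hs n a).sq_int (hk0 k)).1)
      (fun n a => ((hs n a).dq_sq (hk0 k)).1) (fun c => by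
        refine le_trans ?_ (hG c)
        have e1 : ∀ a x, ∑ n, c n * v k n x a = Av (hk k) (fun y => ∑ n, c n * u n y a) x :=
          fun a x => (Av_lin c (fun n => hc n a) (hk k) x).symm
        simp only [e1]
        have hcc : ∀ a, Continuous fun y => ∑ n, c n * u n y a := fun a =>
          continuous_finsetSum _ fun n _ => continuous_const.mul (hc n a)
        rw [integral_finsetSum _ fun a _ => (Av_sq (hcc a) (hlin c a) (hk0 k)).1,
          integral_finsetSum _ fun a _ => hlin c a]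
        exact Finset.sum_le_sum fun a _ => (Av_sq (hcc a) (hlin c a) (hk0 k)).2)
    refine ⟨h1.1, h1.2.trans ?_⟩
    exact Finset.sum_le_sum fun n _ => Finset.sum_le_sum fun a _ => ((hs n a).dq_sq (hk0 k)).2
  have hpt : ∀ x, Tendsto (fun k => ((D (v k) x ^ 3).trace).re) atTop
      (𝓝 ((D u x ^ 3).trace).re) := by
    intro x
    have h1 : Tendsto (fun k => D (v k) x) atTop (𝓝 (D u x)) := by
      refine tendsto_pi_nhds.2 fun a => tendsto_pi_nhds.2 fun b => ?_
      show Tendsto (fun k => ∑ n, v k n x a * star (v k n x b)) atTop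
        (𝓝 (∑ n, u n x a * star (u n x b)))
      refine tendsto_finsetSum _ fun n _ => ?_
      exact (Av_tendsto (hc n a) x).mul ((Av_tendsto (hc n b) x).star)
    have h2 : Continuous fun M : Matrix (Fin q) (Fin q) ℂ => ((M ^ 3).trace).re := by
      have h4 : Continuous fun M : Matrix (Fin q) (Fin q) ℂ => M ^ 3 := continuous_id.pow 3
      exact Complex.continuous_re.comp h4.matrix_trace
    exact (h2.tendsto _).comp h1
  have hbound : ∀ k, ∫⁻ x, ENNReal.ofReal ((D (v k) x ^ 3).trace).re ≤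
      ENNReal.ofReal (4 / π ^ 2 * T) := by
    intro k
    rw [← ofReal_integral_eq_lintegral_ofReal (hstep k).1
      (Eventually.of_forall fun x => hnn _ x)]
    refine ENNReal.ofReal_le_ofReal ?_
    have h3 := (hstep k).2
    have hπ : 0 < π ^ 2 := by positivity
    rw [div_mul_eq_mul_div, le_div_iff₀ hπ]
    linarith
  have hfatou : ∫⁻ x, ENNReal.ofReal ((D u x ^ 3).trace).re ≤
      ENNReal.ofReal (4 / π ^ 2 * T) := by
    have h1 : ∀ x, liminf (fun k => ENNReal.ofReal ((D (v k) x ^ 3).trace).re) atTop =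
        ENNReal.ofReal ((D u x ^ 3).trace).re := by
      intro x
      refine Tendsto.liminf_eq ?_
      exact (ENNReal.continuous_ofReal.tendsto _).comp (hpt x)
    have h2 : ∫⁻ x, liminf (fun k => ENNReal.ofReal ((D (v k) x ^ 3).trace).re) atTop ≤
        liminf (fun k => ∫⁻ x, ENNReal.ofReal ((D (v k) x ^ 3).trace).re) atTop := by
      refine lintegral_liminf_le fun k => ?_
      exact (htr (v k) fun n a => Av_cont (hc n a) (hk0 k)).measurable.ennreal_ofReal
    simp only [h1] at h2
    refine h2.trans ?_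
    refine liminf_le_of_le (by isBoundedDefault) fun b hb => ?_
    obtain ⟨k, hk'⟩ := hb.exists
    exact hk'.trans (hbound k)
  have hI : Integrable (fun x => ((D u x ^ 3).trace).re) := by
    refine ⟨(htr u hc).aestronglyMeasurable, ?_⟩
    rw [hasFiniteIntegral_iff_ofReal (Eventually.of_forall fun x => hnn _ x)]
    exact hfatou.trans_lt ENNReal.ofReal_lt_top
  refine ⟨hI, ?_⟩
  rw [← ofReal_integral_eq_lintegral_ofReal hI (Eventually.of_forall fun x => hnn _ x),
    ENNReal.ofReal_le_ofReal_iff (by positivity)] at hfatou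
  have hπ : 0 < π ^ 2 := by positivity
  rw [div_mul_eq_mul_div, le_div_iff₀ hπ] at hfatou
  linarith

/-- Orthonormality gives the Gram bound. -/
lemma gram_of_orthonormal {u g : Fin N → ℝ → Fin q → ℂ}
    (hs : ∀ n a, IsH1 (fun x => u n x a) (fun x => g n x a))
    (ho : ∀ n m, ∫ x, ∑ a, star (u n x a) * u m x a = if n = m then (1 : ℂ) else 0)
    (c : Fin N → ℂ) : ∫ x, ∑ a, ‖∑ n, c n * u n x a‖ ^ 2 = ∑ n, ‖c n‖ ^ 2 := by
  have hij : ∀ n m a, Integrable (fun x => star (u n x a) * u m x a) := by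
    intro n m a
    have hm : AEStronglyMeasurable (fun x => star (u n x a) * u m x a) volume :=
      (((hs n a).cont.star).mul (hs m a).cont).aestronglyMeasurable
    refine (((hs n a).sq_int).add ((hs m a).sq_int)).mono' hm (Eventually.of_forall fun x => ?_)
    rw [norm_mul, norm_star]
    simp only [Pi.add_apply]
    nlinarith [sq_nonneg (‖u n x a‖ - ‖u m x a‖), norm_nonneg (u n x a), norm_nonneg (u m x a)]
  have hexp : ∀ x, ((∑ a, ‖∑ n, c n * u n x a‖ ^ 2 : ℝ) : ℂ) =
      ∑ n, ∑ m, (star (c n) * c m) * (∑ a, star (u n x a) * u m x a) := by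
    intro x
    have h1 : ∀ a, ((‖∑ n, c n * u n x a‖ ^ 2 : ℝ) : ℂ) =
        ∑ n, ∑ m, (star (c n) * c m) * (star (u n x a) * u m x a) := by
      intro a
      have h2 : ((‖∑ n, c n * u n x a‖ ^ 2 : ℝ) : ℂ) =
          star (∑ n, c n * u n x a) * (∑ n, c n * u n x a) := by
        rw [mul_comm, ← Complex.normSq_eq_norm_sq]
        exact (Complex.mul_conj _).symm
      rw [h2]
      simp only [star_sum, star_mul']
      rw [Finset.sum_mul_sum]
      refine Finset.sum_congr rfl fun n _ => Finset.sum_congr rfl fun m _ => ?_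
      ring
    rw [Complex.ofReal_sum]
    simp only [h1]
    rw [Finset.sum_comm]
    refine Finset.sum_congr rfl fun n _ => ?_
    rw [Finset.sum_comm]
    exact Finset.sum_congr rfl fun m _ => by rw [Finset.mul_sum]
  have hint : ∫ x, ((∑ a, ‖∑ n, c n * u n x a‖ ^ 2 : ℝ) : ℂ) = ((∑ n, ‖c n‖ ^ 2 : ℝ) : ℂ) := by
    simp only [hexp]
    rw [integral_finsetSum _ fun n _ => integrable_finsetSum _ fun m _ =>
      (integrable_finsetSum _ fun a _ => hij n m a).const_mul _]
    rw [Complex.ofReal_sum]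
    refine Finset.sum_congr rfl fun n _ => ?_
    rw [integral_finsetSum _ fun m _ =>
      (integrable_finsetSum _ fun a _ => hij n m a).const_mul _]
    simp only [integral_const_mul, ho]
    simp only [mul_ite, mul_one, mul_zero, Finset.sum_ite_eq, Finset.mem_univ, if_true]
    rw [← Complex.normSq_eq_norm_sq, mul_comm]
    exact Complex.mul_conj _
  rw [integral_complex_ofReal] at hint
  exact_mod_cast hint

end Pool.Agent.X103.LTSys
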