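import Mathlib

/-!
# The logarithm of the right stretch tensor (helper103)

For `F` with `det F > 0` the matrix `U = √(FᵀF)` and its symmetric logarithm, and the computation
of symmetric functions of `log U` from the characteristic polynomial of `FᵀF`.
-/

set_option autoImplicit false

open Matrix Polynomial

namespace Pool.Agent.X103.LogStretch

/-- Real `3 × 3` matrices. -/
abbrev M3 : Type := Matrix (Fin 3) (Fin 3) ℝ

/-- `L` is a symmetric logarithm of the symmetric positive definite square root `U` of `FᵀF`: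
`L` is symmetric, `exp L = U`, `U` is positive definite and `U² = FᵀF`. -/
structure IsLogStretch (F L : M3) : Prop where
  symm : L.IsSymm
  ex : ∃ U : M3, U.PosDef ∧ U * U = Fᵀ * F ∧ NormedSpace.exp L = U

/-- The deviatoric part `X - (tr X / 3) 1`. -/
noncomputable def dev (X : M3) : M3 := X - (X.trace / 3) • (1 : M3)

/-- The squared Frobenius norm `tr (X Xᵀ)`. -/
noncomputable def frobSq (X : M3) : ℝ := (X * Xᵀ).trace

open Classical in
/-- `K(F) = ‖dev₃ log U‖²`, `U = √(FᵀF)` (and `0` if `FᵀF` has no positive definite root with a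
symmetric logarithm; this does not happen for `det F > 0`). -/
noncomputable def K (F : M3) : ℝ :=
  if h : ∃ L, IsLogStretch F L then frobSq (dev h.choose) else 0

/-- The quadratic form `x² + y² + z² - (x + y + z)² / 3`. -/
noncomputable def q (x y z : ℝ) : ℝ := x ^ 2 + y ^ 2 + z ^ 2 - (x + y + z) ^ 2 / 3

/-- Orthogonal diagonalisation. -/
lemma exists_diag {S : M3} (hS : S.IsSymm) : ∃ (Q : M3) (d : Fin 3 → ℝ),
    Q * Qᵀ = 1 ∧ Qᵀ * Q = 1 ∧ S = Q * diagonal d * Qᵀ := by
  have hS' : S.IsHermitian := by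
    rw [Matrix.IsHermitian, Matrix.conjTranspose_eq_transpose_of_trivial]; exact hS
  have h := hS'.spectral_theorem
  rw [Unitary.conjStarAlgAut_apply] at h
  refine ⟨hS'.eigenvectorUnitary, hS'.eigenvalues, ?_, ?_, ?_⟩
  · have := Unitary.coe_mul_star_self hS'.eigenvectorUnitary
    rwa [Unitary.coe_star, Matrix.star_eq_conjTranspose, Matrix.conjTranspose_eq_transpose_of_trivial] at this
  · have := Unitary.coe_star_mul_self hS'.eigenvectorUnitary
    rwa [Matrix.star_eq_conjTranspose, Matrix.conjTranspose_eq_transpose_of_trivial] at this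
  · rw [Matrix.star_eq_conjTranspose,
      Matrix.conjTranspose_eq_transpose_of_trivial] at h
    exact h

lemma exp_conj_diag {Q : M3} (h1 : Q * Qᵀ = 1) (d : Fin 3 → ℝ) :
    NormedSpace.exp (Q * diagonal d * Qᵀ) = Q * diagonal (fun i => Real.exp (d i)) * Qᵀ := by
  have hinv : Q⁻¹ = Qᵀ := Matrix.inv_eq_right_inv h1
  have hu : IsUnit Q := (Matrix.isUnit_iff_isUnit_det Q).2
    (Matrix.isUnit_det_of_right_inverse h1)
  rw [← hinv, Matrix.exp_conj Q _ hu, Matrix.exp_diagonal]
  congr 2
  congr 1
  funext i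
  rw [Pi.exp_def, Real.exp_eq_exp_ℝ]

lemma charpoly_conj {Q : M3} (h2 : Qᵀ * Q = 1) (A : M3) :
    (Q * A * Qᵀ).charpoly = A.charpoly := by
  rw [Matrix.charpoly_mul_comm, ← mul_assoc, h2, one_mul]

lemma trace_conj {Q : M3} (h2 : Qᵀ * Q = 1) (A : M3) :
    (Q * A * Qᵀ).trace = A.trace := by
  rw [Matrix.trace_mul_comm, ← mul_assoc, h2, one_mul]

lemma conj_mul {Q : M3} (h2 : Qᵀ * Q = 1) (A B : M3) :
    (Q * A * Qᵀ) * (Q * B * Qᵀ) = Q * (A * B) * Qᵀ := by
  calc (Q * A * Qᵀ) * (Q * B * Qᵀ) = Q * A * (Qᵀ * Q) * B * Qᵀ := by simp only [mul_assoc]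
    _ = _ := by rw [h2, mul_one, mul_assoc Q A B]

/-- Symmetric functions of the logarithm. -/
lemma frob_of_charpoly {F L : M3} (hL : IsLogStretch F L) {a b c : ℝ}
    (hc : (Fᵀ * F).charpoly = (X - C a) * (X - C b) * (X - C c)) :
    frobSq (dev L) = q (Real.log a / 2) (Real.log b / 2) (Real.log c / 2) := by
  obtain ⟨hsym, U, -, hU2, hexp⟩ := hL
  obtain ⟨Q, d, h1, h2, hLd⟩ := exists_diag hsym
  have hS : Fᵀ * F = Q * diagonal (fun i => Real.exp (2 * d i)) * Qᵀ := by
    rw [← hU2, ← hexp, hLd, exp_conj_diag h1, conj_mul h2, diagonal_mul_diagonal]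
    congr 3
    funext i
    rw [← Real.exp_add]; ring_nf
  rw [hS, charpoly_conj h2, Matrix.charpoly_diagonal, Fin.prod_univ_three] at hc
  -- compare the roots
  have hroots := congrArg Polynomial.roots hc
  have hr : ∀ x y z : ℝ, ((X - C x) * (X - C y) * (X - C z) : ℝ[X]).roots = {x, y, z} := by
    intro x y z
    have : ((X - C x) * (X - C y) * (X - C z) : ℝ[X]) =
        (({x, y, z} : Multiset ℝ).map fun a => X - C a).prod := by
      simp [mul_assoc]
    rw [this, Polynomial.roots_multiset_prod_X_sub_C]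
  rw [hr, hr] at hroots
  have e1 := congrArg (fun m : Multiset ℝ => (m.map fun x => Real.log x / 2).sum) hroots
  have e2 := congrArg (fun m : Multiset ℝ => (m.map fun x => (Real.log x / 2) ^ 2).sum) hroots
  simp only [Multiset.insert_eq_cons, Multiset.map_cons, Multiset.map_singleton,
    Multiset.sum_cons, Multiset.sum_singleton, Real.log_exp] at e1 e2
  -- traces
  have t1 : L.trace = d 0 + d 1 + d 2 := by
    rw [hLd, trace_conj h2, Matrix.trace_diagonal, Fin.sum_univ_three]
  have t2 : (L * L).trace = d 0 ^ 2 + d 1 ^ 2 + d 2 ^ 2 := by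
    rw [hLd, conj_mul h2, trace_conj h2, diagonal_mul_diagonal, Matrix.trace_diagonal,
      Fin.sum_univ_three]; ring
  have t3 : frobSq (dev L) = (L * L).trace - L.trace ^ 2 / 3 := by
    unfold frobSq dev
    have hT : (L - (L.trace / 3) • (1 : M3))ᵀ = L - (L.trace / 3) • (1 : M3) := by
      rw [Matrix.transpose_sub, hsym.eq, Matrix.transpose_smul, Matrix.transpose_one]
    rw [hT]
    have : (L - (L.trace / 3) • (1 : M3)) * (L - (L.trace / 3) • (1 : M3)) =
        L * L - (2 * (L.trace / 3)) • L + ((L.trace / 3) * (L.trace / 3)) • (1 : M3) := by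
      simp only [sub_mul, mul_sub, smul_mul_assoc, mul_smul_comm, one_mul, mul_one]
      module
    rw [this, Matrix.trace_add, Matrix.trace_sub, Matrix.trace_smul, Matrix.trace_smul,
      Matrix.trace_one]
    simp
    ring
  have e1' : d 0 + d 1 + d 2 = Real.log a / 2 + Real.log b / 2 + Real.log c / 2 := by
    linear_combination e1
  have e2' : d 0 ^ 2 + d 1 ^ 2 + d 2 ^ 2 =
      (Real.log a / 2) ^ 2 + (Real.log b / 2) ^ 2 + (Real.log c / 2) ^ 2 := by
    linear_combination e2
  rw [t3, t1, t2, q, e2', e1']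

/-- Existence of the logarithm for `det F > 0`. -/
lemma exists_logStretch {F : M3} (hF : 0 < F.det) : ∃ L, IsLogStretch F L := by
  have hpos : (Fᵀ * F).PosDef := by
    have h1 : IsUnit F := (Matrix.isUnit_iff_isUnit_det F).2 (isUnit_iff_ne_zero.2 hF.ne')
    have := Matrix.PosDef.conjTranspose_mul_self F
      (by exact Matrix.mulVec_injective_of_isUnit h1)
    rwa [Matrix.conjTranspose_eq_transpose_of_trivial] at this
  have hsym : (Fᵀ * F).IsSymm := by
    rw [Matrix.IsSymm, Matrix.transpose_mul, Matrix.transpose_transpose]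
  obtain ⟨Q, d, h1, h2, hS⟩ := exists_diag hsym
  have hd : ∀ i, 0 < d i := by
    intro i
    have hdi : (diagonal d).PosDef := by
      have h3 : Qᵀ * (Fᵀ * F) * Q = diagonal d := by
        rw [hS]
        calc Qᵀ * (Q * diagonal d * Qᵀ) * Q = (Qᵀ * Q) * diagonal d * (Qᵀ * Q) := by
              simp only [mul_assoc]
          _ = diagonal d := by rw [h2, one_mul, mul_one]
      rw [← h3]
      have hu : IsUnit Q := (Matrix.isUnit_iff_isUnit_det Q).2
        (Matrix.isUnit_det_of_right_inverse h1)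
      have := hpos.conjTranspose_mul_mul_same (B := Q) (Matrix.mulVec_injective_of_isUnit hu)
      rwa [Matrix.conjTranspose_eq_transpose_of_trivial] at this
    exact Matrix.posDef_diagonal_iff.1 hdi i
  refine ⟨Q * diagonal (fun i => Real.log (d i) / 2) * Qᵀ, ?_,
    Q * diagonal (fun i => Real.sqrt (d i)) * Qᵀ, ?_, ?_, ?_⟩
  · rw [Matrix.IsSymm, Matrix.transpose_mul, Matrix.transpose_mul, Matrix.transpose_transpose,
      Matrix.diagonal_transpose, mul_assoc]
  · have h4 : (diagonal (fun i => Real.sqrt (d i))).PosDef :=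
      Matrix.posDef_diagonal_iff.2 fun i => Real.sqrt_pos.2 (hd i)
    have hu : IsUnit Qᵀ := (Matrix.isUnit_iff_isUnit_det _).2
      (Matrix.isUnit_det_of_right_inverse h2)
    have := h4.conjTranspose_mul_mul_same (B := Qᵀ) (Matrix.mulVec_injective_of_isUnit hu)
    rwa [Matrix.conjTranspose_eq_transpose_of_trivial, Matrix.transpose_transpose] at this
  · rw [conj_mul h2, diagonal_mul_diagonal, hS]
    congr 3
    funext i
    exact Real.mul_self_sqrt (hd i).le
  · rw [exp_conj_diag h1]
    congr 3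
    funext i
    rw [Real.sqrt_eq_rpow, Real.rpow_def_of_pos (hd i)]
    congr 1; ring

/-- The formula for `K` from the eigenvalues of `FᵀF`. -/
theorem K_eq {F : M3} (hF : 0 < F.det) {a b c : ℝ}
    (hc : (Fᵀ * F).charpoly = (X - C a) * (X - C b) * (X - C c)) :
    K F = q (Real.log a / 2) (Real.log b / 2) (Real.log c / 2) := by
  have h := exists_logStretch hF
  rw [K, dif_pos h]
  exact frob_of_charpoly h.choose_spec hc

end Pool.Agent.X103.LogStretch
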