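import Pool.Agent.X103.ConvLap

/-!
# Interior minima and the Laplacian (helper103)
-/

set_option autoImplicit false

open MeasureTheory Set Filter Topology InnerProductSpace Metric
open scoped Laplacian ENNReal

namespace Pool.Agent.X103.MaxP

open Pool.Agent.X103.Kern

variable {n : ℕ}

lemma not_min_one {g : ℝ → ℝ} (hc : ContinuousAt g 0) (hmin : IsLocalMin g 0)
    (h2 : deriv (deriv g) 0 < 0) : False := by
  have h1 : deriv g 0 = 0 := hmin.deriv_eq_zero
  have hmax := isLocalMax_of_deriv_deriv_neg h2 h1 hc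
  have he : g =ᶠ[𝓝 0] fun _ => g 0 := by
    filter_upwards [hmin, hmax] with y h3 h4
    exact le_antisymm h4 h3
  have h5 : deriv g =ᶠ[𝓝 0] fun _ => 0 := by
    have := he.deriv
    simpa using this
  rw [h5.deriv_eq] at h2
  simp at h2

/-- At an interior minimum the Laplacian is nonnegative. -/
theorem lap_nonneg_of_min {F : E n → ℝ} {x : E n} (hF : ContDiffAt ℝ 2 F x)
    (hmin : IsLocalMin F x) : 0 ≤ (Δ F) x := by
  by_contra hneg
  push Not at hneg
  rw [laplacian_eq_iteratedFDeriv_orthonormalBasis _ (EuclideanSpace.basisFun (Fin n) ℝ)] at hneg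
  obtain ⟨i, -, hi⟩ := Finset.exists_lt_of_sum_lt (s := Finset.univ)
    (f := fun i => iteratedFDeriv ℝ 2 F x ![EuclideanSpace.basisFun (Fin n) ℝ i,
      EuclideanSpace.basisFun (Fin n) ℝ i]) (g := fun _ => (0:ℝ)) (by simpa using hneg)
  set v := EuclideanSpace.basisFun (Fin n) ℝ i with hv
  rw [iteratedFDeriv_two_apply] at hi
  simp only [Matrix.cons_val_zero, Matrix.cons_val_one] at hi
  -- the line
  have hl : ∀ t : ℝ, HasDerivAt (fun t : ℝ => x + t • v) v t := fun t => by
    simpa using ((hasDerivAt_id t).smul_const v).const_add x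
  have hl0 : Tendsto (fun t : ℝ => x + t • v) (𝓝 0) (𝓝 x) := by
    have := (hl 0).continuousAt.tendsto
    simpa using this
  have hdiff : ∀ᶠ y in 𝓝 x, DifferentiableAt ℝ F y := by
    have h1 : ∀ᶠ y in 𝓝 x, ContDiffAt ℝ 2 F y := hF.eventually (by simp)
    filter_upwards [h1] with y hy
    exact hy.differentiableAt (by norm_num)
  set g : ℝ → ℝ := fun t => F (x + t • v) with hg
  have hg1 : deriv g =ᶠ[𝓝 0] fun t => fderiv ℝ F (x + t • v) v := by
    filter_upwards [hl0.eventually hdiff] with t ht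
    exact (ht.hasFDerivAt.comp_hasDerivAt t (hl t)).deriv
  have hF' : ContDiffAt ℝ 1 (fderiv ℝ F) x := hF.fderiv_right (by norm_num)
  have h3 : HasFDerivAt (fderiv ℝ F) (fderiv ℝ (fderiv ℝ F) x) (x + (0:ℝ) • v) := by
    simpa using (hF'.differentiableAt (by norm_num)).hasFDerivAt
  have h4 : HasDerivAt (fun t : ℝ => fderiv ℝ F (x + t • v)) (fderiv ℝ (fderiv ℝ F) x v) 0 :=
    h3.comp_hasDerivAt (0:ℝ) (hl 0)
  have h5 : HasDerivAt (fun t : ℝ => fderiv ℝ F (x + t • v) v)
      (fderiv ℝ (fderiv ℝ F) x v v) 0 := by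
    have := h4.clm_apply (hasDerivAt_const (0:ℝ) v)
    simpa using this
  have hg2 : deriv (deriv g) 0 = fderiv ℝ (fderiv ℝ F) x v v := by
    rw [hg1.deriv_eq]; exact h5.deriv
  have hgc : ContinuousAt g 0 := by
    have h6 : g 0 = F x := by simp [hg]
    have h7 : Tendsto g (𝓝 0) (𝓝 (F x)) := hF.continuousAt.tendsto.comp hl0
    show Tendsto g (𝓝 0) (𝓝 (g 0))
    rw [h6]; exact h7
  have hgm : IsLocalMin g 0 := by
    have h7 := hl0.eventually hmin
    filter_upwards [h7] with t ht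
    simpa [hg] using ht
  exact not_min_one hgc hgm (by rw [hg2]; exact hi)

/-- The Laplacian of `c (r² - |x|²)`. -/
lemma lap_quad (c r : ℝ) (x : E n) :
    (Δ fun y : E n => c * (r ^ 2 - ‖y‖ ^ 2)) x = -(2 * n * c) := by
  have h1 : ContDiff ℝ 2 fun y : E n => ‖y‖ ^ 2 := contDiff_norm_sq ℝ
  have := radial_lap (n := n) (k0 := fun s => c * (r ^ 2 - s)) (k1 := fun _ => -c)
    (k2 := fun _ => 0) (a := -1) (by norm_num)
    (fun s _ => by
      have := ((hasDerivAt_id s).const_sub (r ^ 2)).const_mul c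
      refine HasDerivAt.congr_deriv this ?_
      ring)
    (fun s _ => hasDerivAt_const s _)
    (contDiff_const.mul (contDiff_const.sub h1)) x
  rw [this]; ring

/-- Laplacian of a translate. -/
lemma lap_translate (f : E n → ℝ) (a x : E n) : (Δ fun y => f (y - a)) x = (Δ f) (x - a) := by
  rw [laplacian_eq_iteratedFDeriv_orthonormalBasis _ (EuclideanSpace.basisFun (Fin n) ℝ),
    laplacian_eq_iteratedFDeriv_orthonormalBasis _ (EuclideanSpace.basisFun (Fin n) ℝ)]
  simp only [iteratedFDeriv_comp_sub]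

/-- The comparison step. -/
theorem comparison {C : Set (E n)} (hC : IsOpen C) (hCne : Cᶜ.Nonempty) {u U w : E n → ℝ}
    (hu : ContDiffOn ℝ 2 u C) (hU : ∀ x ∈ C, U x = u x) (hU0 : ∀ x ∉ C, U x = 0)
    (hUc : Continuous U) {R δ η : ℝ} (hn : 0 < n) (hδ : 0 < δ) (hη : 0 < η)
    (hR : ∀ x, R ≤ ‖x‖ → U x = 0)
    (hmod : ∀ x y, dist x y ≤ δ → |U x - U y| ≤ η) (hw : ContDiff ℝ (⊤ : ℕ∞) w)
    (hw0 : ∀ x, 0 ≤ w x)
    (hlap : ∀ x ∈ C, δ < infDist x Cᶜ → |(Δ u) x| - 2 * η ≤ -(Δ w) x) :
    ∀ x, δ ≤ infDist x Cᶜ → |U x| ≤ w x + η * (1 + 3 * R ^ 2) := by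
  have hnR : (1 : ℝ) ≤ n := by exact_mod_cast hn
  -- one sign
  have main : ∀ s : ℝ, (s = 1 ∨ s = -1) → ∀ x, ‖x‖ ≤ R → δ ≤ infDist x Cᶜ →
      s * U x ≤ w x + η * (1 + 3 * R ^ 2) := by
    intro s hs x hx hxd
    set c : ℝ := 3 * η / (2 * n) with hc
    have hc0 : 0 < c := by positivity
    have hcle : c ≤ 3 * η := by
      rw [hc, div_le_iff₀ (by positivity)]
      nlinarith
    set F : E n → ℝ := fun y => (w y - s * U y) + c * (R ^ 2 - ‖y‖ ^ 2) with hF
    have hFc : Continuous F := by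
      have := hw.continuous
      fun_prop
    set D : Set (E n) := Metric.closedBall 0 R ∩ {y | δ ≤ infDist y Cᶜ} with hD
    have hDc : IsCompact D := (isCompact_closedBall 0 R).inter_right
      (isClosed_le continuous_const (continuous_infDist_pt _))
    have hxD : x ∈ D := ⟨by simpa using hx, hxd⟩
    obtain ⟨z, hzD, hz⟩ := hDc.exists_isMinOn ⟨x, hxD⟩ hFc.continuousOn
    have hzR : ‖z‖ ≤ R := by simpa using hzD.1
    have hR0 : 0 ≤ R := (norm_nonneg _).trans hzR
    have hquad : 0 ≤ c * (R ^ 2 - ‖z‖ ^ 2) := by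
      have : ‖z‖ ^ 2 ≤ R ^ 2 := pow_le_pow_left₀ (norm_nonneg _) hzR 2
      have : 0 ≤ R ^ 2 - ‖z‖ ^ 2 := by linarith
      positivity
    have hs1 : |s| = 1 := by rcases hs with h | h <;> simp [h]
    have key : -η ≤ F z := by
      by_contra hcon
      push Not at hcon
      -- `z` is not on the sphere
      have h1 : ‖z‖ < R := by
        refine lt_of_le_of_ne hzR fun h => ?_
        have h2 := hR z h.ge
        have h3 := hw0 z
        simp only [hF, h2, mul_zero, sub_zero] at hcon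
        linarith
      have h2 : δ < infDist z Cᶜ := by
        refine lt_of_le_of_ne hzD.2 fun h => ?_
        obtain ⟨y, hy, hyd⟩ := hC.isClosed_compl.exists_infDist_eq_dist hCne z
        have h3 := hmod z y (by rw [← hyd, ← h])
        rw [hU0 y hy, sub_zero] at h3
        have h4 : |s * U z| ≤ η := by rw [abs_mul, hs1, one_mul]; exact h3
        have h5 := le_abs_self (s * U z)
        have h6 := hw0 z
        simp only [hF] at hcon
        linarith
      have hzC : z ∈ C := by
        by_contra h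
        rw [infDist_zero_of_mem (mem_compl h)] at h2
        linarith
      -- local minimum
      have hmin : IsLocalMin F z := by
        have h3 : ∀ᶠ y in 𝓝 z, y ∈ D := by
          have e1 : ∀ᶠ y in 𝓝 z, ‖y‖ < R :=
            (isOpen_lt continuous_norm continuous_const).mem_nhds h1
          have e2 : ∀ᶠ y in 𝓝 z, δ < infDist y Cᶜ :=
            (isOpen_lt continuous_const (continuous_infDist_pt _)).mem_nhds h2
          filter_upwards [e1, e2] with y e1 e2
          exact ⟨by simpa using e1.le, e2.le⟩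
        filter_upwards [h3] with y hy
        exact hz hy
      have hCn : C ∈ 𝓝 z := hC.mem_nhds hzC
      have hUu : U =ᶠ[𝓝 z] u := by
        filter_upwards [hCn] with y hy
        exact hU y hy
      have hu2 : ContDiffAt ℝ 2 u z := hu.contDiffAt hCn
      have hU2 : ContDiffAt ℝ 2 U z := hu2.congr_of_eventuallyEq hUu
      have hw2 : ContDiffAt ℝ 2 w z := by
        exact_mod_cast (contDiff_infty.1 hw 2).contDiffAt
      have hq2 : ContDiffAt ℝ 2 (fun y : E n => c * (R ^ 2 - ‖y‖ ^ 2)) z := by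
        have h1 : ContDiff ℝ 2 fun y : E n => ‖y‖ ^ 2 := contDiff_norm_sq ℝ
        exact (contDiff_const.mul (contDiff_const.sub h1)).contDiffAt
      have hsU2 : ContDiffAt ℝ 2 (fun y => s * U y) z := contDiffAt_const.mul hU2
      have hwU2 : ContDiffAt ℝ 2 (fun y => w y - s * U y) z := hw2.sub hsU2
      have hF2 : ContDiffAt ℝ 2 F z := hwU2.add hq2
      have hΔ : (Δ F) z = (Δ w) z - s * (Δ u) z - 2 * n * c := by
        have e1 : F = (fun y => w y - s * U y) + fun y : E n => c * (R ^ 2 - ‖y‖ ^ 2) := rfl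
        have e2 : (fun y => w y - s * U y) = w - s • U := rfl
        rw [e1, hwU2.laplacian_add hq2, lap_quad, e2, hw2.laplacian_sub (by exact hsU2),
          laplacian_smul s hU2, smul_eq_mul, laplacian_congr_nhds hUu |>.self_of_nhds]
        ring
      have hn2 : 2 * (n : ℝ) * c = 3 * η := by rw [hc]; field_simp
      have h7 := lap_nonneg_of_min hF2 hmin
      rw [hΔ, hn2] at h7
      have h8 := hlap z hzC h2
      have h9 : |s * (Δ u) z| = |(Δ u) z| := by rw [abs_mul, hs1, one_mul]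
      have h10 := neg_abs_le (s * (Δ u) z)
      rw [h9] at h10
      linarith
    have h3 : F z ≤ F x := hz hxD
    have h4 : c * (R ^ 2 - ‖x‖ ^ 2) ≤ 3 * η * R ^ 2 := by
      have h5 : R ^ 2 - ‖x‖ ^ 2 ≤ R ^ 2 := by nlinarith [sq_nonneg ‖x‖]
      calc c * (R ^ 2 - ‖x‖ ^ 2) ≤ c * R ^ 2 := by gcongr
        _ ≤ 3 * η * R ^ 2 := by gcongr
    have h6 : F x = (w x - s * U x) + c * (R ^ 2 - ‖x‖ ^ 2) := rfl
    nlinarith
  intro x hxd
  rcases le_or_gt R ‖x‖ with h | h
  · rw [hR x h, abs_zero]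
    have := hw0 x
    positivity
  · rw [abs_le]
    have h1 := main 1 (Or.inl rfl) x h.le hxd
    have h2 := main (-1) (Or.inr rfl) x h.le hxd
    constructor <;> linarith

end Pool.Agent.X103.MaxP
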