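import Pool.Agent.Helper188.Morrey.Transport

/-!
# Rank-one convex functions and test maps which are affine on level sets (helper103)
-/

set_option autoImplicit false

open Matrix Set Filter Topology MeasureTheory
open scoped NNReal ENNReal Convolution

namespace Pool.Agent.X103.Morrey1

open Pool.Agent.Helper188.Morrey

/-- `2 × 2` matrices with the sup norm. -/
abbrev V4 := Fin 2 → Fin 2 → ℝ

/-- The plane. -/
abbrev E2 := Fin 2 → ℝ

/-- Rank-one convexity. -/
def RC (f : V4 → ℝ) : Prop :=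
  ∀ F H : V4, (Matrix.of H).det = 0 → ConvexOn ℝ univ (fun t : ℝ => f (F + t • H))

lemma rc_of {W : M2 → ℝ} (hW : RankOneConvex W) : RC (fun F => W (Matrix.of F)) :=
  fun F H hd => hW.line (Matrix.of F) (Matrix.of H) hd

lemma mollify {f : V4 → ℝ} (hf : Continuous f) (hr : RC f) (R δ : ℝ) (hδ : 0 < δ) :
    ∃ g : V4 → ℝ, ContDiff ℝ 1 g ∧ RC g ∧ ∀ F, ‖F‖ ≤ R → |g F - f F| ≤ δ := by
  have huc : UniformContinuousOn f (Metric.closedBall 0 (R + 1)) :=
    (isCompact_closedBall 0 (R + 1)).uniformContinuousOn_of_continuous hf.continuousOn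
  rw [Metric.uniformContinuousOn_iff] at huc
  obtain ⟨r, hr0, hr1⟩ := huc δ hδ
  have hs0 : 0 < min r 1 := lt_min hr0 one_pos
  let φ : ContDiffBump (0 : V4) := ⟨min r 1 / 4, min r 1 / 2, by positivity, by linarith⟩
  have hout : φ.rOut = min r 1 / 2 := rfl
  refine ⟨φ.normed volume ⋆[ContinuousLinearMap.lsmul ℝ ℝ, volume] f, ?_, ?_, ?_⟩
  · exact φ.hasCompactSupport_normed.contDiff_convolution_left _ φ.contDiff_normed
      hf.locallyIntegrable
  · intro F H hd
    have hint : ∀ x : ℝ, Integrable (fun G : V4 => φ.normed volume G * f (F + x • H - G)) volume := by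
      intro x
      refine Continuous.integrable_of_hasCompactSupport ?_ ?_
      · exact φ.continuous_normed.mul (hf.comp (by fun_prop))
      · exact φ.hasCompactSupport_normed.mul_right
    refine ⟨convex_univ, fun x _ y _ a b ha hb hab => ?_⟩
    simp only [convolution_def, ContinuousLinearMap.lsmul_apply, smul_eq_mul]
    rw [← integral_const_mul, ← integral_const_mul,
      ← integral_add ((hint x).const_mul a) ((hint y).const_mul b)]
    refine integral_mono (hint _) (((hint x).const_mul a).add ((hint y).const_mul b)) fun G => ?_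
    have h1 := (hr (F - G) H hd).2 (mem_univ x) (mem_univ y) ha hb hab
    simp only [smul_eq_mul] at h1
    have e : ∀ z : ℝ, F + z • H - G = F - G + z • H := fun z => by abel
    simp only [e]
    have h2 := mul_le_mul_of_nonneg_left h1 (φ.nonneg_normed (μ := volume) G)
    linarith
  · intro F hF
    have h1 := φ.dist_normed_convolution_le (μ := volume) (g := f) (x₀ := F) (ε := δ)
      hf.aestronglyMeasurable fun x hx => by
        rw [Metric.mem_ball, hout] at hx
        have h2 : ‖x‖ ≤ R + 1 := by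
          have h3 : ‖x‖ ≤ ‖x - F‖ + ‖F‖ := by
            have := norm_add_le (x - F) F
            rwa [sub_add_cancel] at this
          rw [dist_eq_norm] at hx
          have := min_le_right r 1
          linarith
        refine (hr1 x (by rwa [mem_closedBall_zero_iff]) F
          (by rw [mem_closedBall_zero_iff]; linarith) ?_).le
        have := min_le_left r 1
        linarith
    rwa [Real.dist_eq] at h1

lemma supp_ineq {f : V4 → ℝ} (hf : ContDiff ℝ 1 f) (hr : RC f) (F H : V4)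
    (hd : (Matrix.of H).det = 0) : f F + fderiv ℝ f F H ≤ f (F + H) := by
  have h1 : HasDerivAt (fun t : ℝ => F + t • H) H 0 := by
    have := ((hasDerivAt_id (0 : ℝ)).smul_const H).const_add F
    simpa using this
  have h2 : HasFDerivAt f (fderiv ℝ f F) (F + (0 : ℝ) • H) := by
    rw [zero_smul, add_zero]
    exact (hf.differentiable (by norm_num) F).hasFDerivAt
  have h3 : HasDerivAt (fun t : ℝ => f (F + t • H)) (fderiv ℝ f F H) 0 :=
    h2.comp_hasDerivAt (0 : ℝ) h1
  have h4 := (hr F H hd).le_slope_of_hasDerivAt (mem_univ (0 : ℝ)) (mem_univ (1 : ℝ)) one_pos h3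
  rw [slope_def_field] at h4
  simp only [one_smul, zero_smul, add_zero, sub_zero, div_one] at h4
  linarith

/-- The rank-one matrix `c ⊗ n`. -/
def outer (c n : E2) : V4 := fun i j => c i * n j

lemma det_outer (c n : E2) : (Matrix.of (outer c n)).det = 0 := by
  rw [det_fin_two]
  simp only [of_apply, outer]
  ring

section lip

variable {ρ : E2 → ℝ} {L : ℝ≥0} {Ω : Set E2}

lemma rho_bdd (hρ : LipschitzWith L ρ) (hb : Bornology.IsBounded Ω) (h0 : ∀ x, x ∉ Ω → ρ x = 0) :
    ∃ B : ℝ, 0 ≤ B ∧ ∀ x, |ρ x| ≤ B := by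
  have hc : HasCompactSupport ρ := HasCompactSupport.intro (K := closure Ω) hb.isCompact_closure
    fun x hx => h0 x fun h => hx (subset_closure h)
  obtain ⟨C, hC⟩ := hρ.continuous.bounded_above_of_compact_support hc
  exact ⟨max C 0, le_max_right _ _, fun x => (hC x).trans (le_max_left _ _)⟩

lemma comp_lip (hρ : LipschitzWith L ρ) (hb : Bornology.IsBounded Ω)
    (h0 : ∀ x, x ∉ Ω → ρ x = 0) {k k' : ℝ → ℝ} (hk : ∀ t, HasDerivAt k (k' t) t)
    (hk' : Continuous k') : ∃ K : ℝ, 0 ≤ K ∧ ∀ x y, |k (ρ x) - k (ρ y)| ≤ K * ‖x - y‖ := by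
  obtain ⟨B, hB0, hB⟩ := rho_bdd hρ hb h0
  obtain ⟨C, hC⟩ := (isCompact_Icc (a := -B) (b := B)).exists_bound_of_continuousOn
    hk'.continuousOn
  refine ⟨max C 0 * L, by positivity, fun x y => ?_⟩
  have h1 := Convex.norm_image_sub_le_of_norm_hasDerivWithin_le (f := k) (f' := k')
    (s := Icc (-B) B) (C := max C 0) (x := ρ y) (y := ρ x)
    (fun t _ => (hk t).hasDerivWithinAt) (fun t ht => (hC t ht).trans (le_max_left _ _))
    (convex_Icc _ _) (abs_le.1 (hB y)) (abs_le.1 (hB x))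
  have h2 := hρ.dist_le_mul x y
  rw [Real.norm_eq_abs, Real.norm_eq_abs] at h1
  rw [Real.dist_eq, dist_eq_norm] at h2
  refine h1.trans ?_
  rw [mul_assoc]
  exact mul_le_mul_of_nonneg_left h2 (le_max_right _ _)

lemma mul_lip (hb : Bornology.IsBounded Ω) {k : E2 → ℝ} {K : ℝ} (hK : 0 ≤ K)
    (hk : ∀ x y, |k x - k y| ≤ K * ‖x - y‖) (h0 : ∀ x, x ∉ Ω → k x = 0) (i : Fin 2) :
    ∃ K' : ℝ, 0 ≤ K' ∧ ∀ x y, |x i * k x - y i * k y| ≤ K' * ‖x - y‖ := by
  obtain ⟨R, hR⟩ := hb.exists_norm_le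
  have hkl : LipschitzWith (Real.toNNReal K) k := LipschitzWith.of_dist_le_mul fun x y => by
    rw [Real.coe_toNNReal _ hK, Real.dist_eq, dist_eq_norm]; exact hk x y
  obtain ⟨B, hB0, hB⟩ := rho_bdd hkl hb h0
  refine ⟨|R| * K + B, by positivity, ?_⟩
  have key : ∀ x y, x ∈ Ω → |x i * k x - y i * k y| ≤ (|R| * K + B) * ‖x - y‖ := by
    intro x y hx
    have e : x i * k x - y i * k y = x i * (k x - k y) + (x i - y i) * k y := by ring
    rw [e]
    refine (abs_add_le _ _).trans ?_
    rw [abs_mul, abs_mul, add_mul]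
    have h1 : |x i| ≤ |R| := (norm_le_pi_norm x i).trans ((hR x hx).trans (le_abs_self R))
    have h2 : |x i - y i| ≤ ‖x - y‖ := norm_le_pi_norm (x - y) i
    refine add_le_add ?_ ?_
    · rw [mul_assoc]
      exact mul_le_mul h1 (hk x y) (abs_nonneg _) (abs_nonneg _)
    · rw [mul_comm]
      exact mul_le_mul (hB y) h2 (abs_nonneg _) hB0
  intro x y
  by_cases hx : x ∈ Ω
  · exact key x y hx
  · by_cases hy : y ∈ Ω
    · rw [abs_sub_comm, norm_sub_rev]; exact key y x hy
    · rw [h0 x hx, h0 y hy]; simp only [mul_zero, sub_zero, abs_zero]; positivity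

lemma vec_lip {w : E2 → E2} (h : ∀ j, ∃ K : ℝ, 0 ≤ K ∧ ∀ x y, |w x j - w y j| ≤ K * ‖x - y‖) :
    ∃ K : ℝ≥0, LipschitzWith K w := by
  choose K hK0 hK using h
  refine ⟨Real.toNNReal (max (K 0) (K 1)), LipschitzWith.of_dist_le_mul fun x y => ?_⟩
  have hm : 0 ≤ max (K 0) (K 1) := (hK0 0).trans (le_max_left _ _)
  rw [Real.coe_toNNReal _ hm, dist_eq_norm, dist_eq_norm,
    pi_norm_le_iff_of_nonneg (by positivity)]
  intro j
  have h1 := hK j x y
  rw [Real.norm_eq_abs]
  refine h1.trans (mul_le_mul_of_nonneg_right ?_ (norm_nonneg _))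
  fin_cases j
  · exact le_max_left _ _
  · exact le_max_right _ _

/-- A vector field of the form `x ↦ (∑ i, x i * g i j (ρ x) + h j (ρ x))_j`. -/
lemma field_lip (hρ : LipschitzWith L ρ) (hb : Bornology.IsBounded Ω)
    (h0 : ∀ x, x ∉ Ω → ρ x = 0) {g g' : Fin 2 → Fin 2 → ℝ → ℝ} {h h' : Fin 2 → ℝ → ℝ}
    (hg : ∀ i j t, HasDerivAt (g i j) (g' i j t) t) (hg' : ∀ i j, Continuous (g' i j))
    (hg0 : ∀ i j, g i j 0 = 0) (hh : ∀ j t, HasDerivAt (h j) (h' j t) t)
    (hh' : ∀ j, Continuous (h' j)) :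
    ∃ K : ℝ≥0, LipschitzWith K (fun (x : E2) (j : Fin 2) => ∑ i, x i * g i j (ρ x) + h j (ρ x)) := by
  refine vec_lip fun j => ?_
  have h1 : ∀ i, ∃ K : ℝ, 0 ≤ K ∧ ∀ x y : E2,
      |x i * g i j (ρ x) - y i * g i j (ρ y)| ≤ K * ‖x - y‖ := by
    intro i
    obtain ⟨K, hK, hk⟩ := comp_lip hρ hb h0 (hg i j) (hg' i j)
    exact mul_lip hb hK hk (fun x hx => by rw [h0 x hx, hg0]) i
  choose A hA0 hA using h1
  obtain ⟨K, hK, hk⟩ := comp_lip hρ hb h0 (hh j) (hh' j)
  refine ⟨A 0 + A 1 + K, by have := hA0 0; have := hA0 1; positivity, fun x y => ?_⟩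
  simp only [Fin.sum_univ_two]
  have a0 := abs_le.1 (hA 0 x y)
  have a1 := abs_le.1 (hA 1 x y)
  have a2 := abs_le.1 (hk x y)
  rw [abs_le, add_mul, add_mul]
  constructor <;> linarith [a0.1, a0.2, a1.1, a1.2, a2.1, a2.2]

/-- The gradient of such a field. -/
lemma field_grad {g g' : Fin 2 → Fin 2 → ℝ → ℝ} {h h' : Fin 2 → ℝ → ℝ}
    (hg : ∀ i j t, HasDerivAt (g i j) (g' i j t) t)
    (hh : ∀ j t, HasDerivAt (h j) (h' j t) t) {x : E2} (hx : DifferentiableAt ℝ ρ x)
    (j l : Fin 2) :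
    grad (fun (x : E2) (j : Fin 2) => ∑ i, x i * g i j (ρ x) + h j (ρ x)) x j l
      = g l j (ρ x) + (∑ i, x i * g' i j (ρ x) + h' j (ρ x)) * fderiv ℝ ρ x (Pi.single l 1) := by
  rw [grad_apply]
  have hr := hx.hasFDerivAt
  have hp : ∀ i, HasFDerivAt (fun x : E2 => x i)
      (ContinuousLinearMap.proj (R := ℝ) (φ := fun _ : Fin 2 => ℝ) i) x := fun i =>
    (ContinuousLinearMap.proj (R := ℝ) (φ := fun _ : Fin 2 => ℝ) i).hasFDerivAt
  have h1 : ∀ j, HasFDerivAt (fun x : E2 => ∑ i, x i * g i j (ρ x) + h j (ρ x))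
      (∑ i, (x i • (g' i j (ρ x) • fderiv ℝ ρ x)
        + g i j (ρ x) • ContinuousLinearMap.proj (R := ℝ) (φ := fun _ : Fin 2 => ℝ) i)
        + h' j (ρ x) • fderiv ℝ ρ x) x := by
    intro j
    refine HasFDerivAt.add ?_ ((hh j (ρ x)).comp_hasFDerivAt x hr)
    refine HasFDerivAt.fun_sum fun i _ => ?_
    exact (hp i).mul ((hg i j (ρ x)).comp_hasFDerivAt x hr)
  have h2 := hasFDerivAt_pi.2 h1
  rw [h2.fderiv]
  simp only [ContinuousLinearMap.coe_pi', Fin.sum_univ_two, _root_.add_apply, _root_.smul_apply,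
    ContinuousLinearMap.proj_apply, smul_eq_mul, Pi.single_apply]
  fin_cases l
  · simp; ring
  · simp; ring

end lip

section main

variable {ρ : E2 → ℝ} {L : ℝ≥0} {Ω : Set E2}

/-- The gradient as an array. -/
noncomputable def gV (ϑ : E2 → E2) (x : E2) : V4 := fun i j => grad ϑ x i j

lemma int_gV {ϑ : E2 → E2} {K : ℝ≥0} (hK : LipschitzWith K ϑ) (hb : Bornology.IsBounded Ω)
    {φ : V4 → ℝ} (hφ : Continuous φ) (F : V4) :
    Integrable (fun x => φ (F + gV ϑ x)) (volume.restrict Ω) := by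
  have h1 : Continuous (fun A : M2 => φ (F + fun i j => A i j)) := by
    refine hφ.comp (continuous_const.add ?_)
    exact continuous_pi fun i => continuous_pi fun j => by fun_prop
  exact Pool.Agent.Helper188.Morrey.integrable_comp hK hb h1

lemma smooth_case {f : V4 → ℝ} (hf : ContDiff ℝ 1 f) (hr : RC f) (F₀ : V4)
    (hρ : LipschitzWith L ρ) (hΩ : IsOpen Ω) (hb : Bornology.IsBounded Ω)
    (h0 : ∀ x, x ∉ Ω → ρ x = 0) {N N' : Fin 2 → Fin 2 → ℝ → ℝ} {b b' : Fin 2 → ℝ → ℝ}
    (hN : ∀ i j t, HasDerivAt (N i j) (N' i j t) t) (hN' : ∀ i j, Continuous (N' i j))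
    (hN0 : ∀ i j, N i j 0 = 0) (hbd : ∀ j t, HasDerivAt (b j) (b' j t) t)
    (hbd' : ∀ j, Continuous (b' j)) :
    f F₀ * (volume Ω).toReal ≤ ∫ x in Ω, f (F₀ + gV
      (fun (x : E2) (a : Fin 2) => ∑ i, x i * N i a (ρ x) + b a (ρ x)) x) := by
  -- here `N i a` is the entry `(a, i)` of the matrix
  set ϑ : E2 → E2 := fun (x : E2) (a : Fin 2) => ∑ i, x i * N i a (ρ x) + b a (ρ x) with hϑ
  set M : ℝ → V4 := fun t a i => F₀ a i + N i a t with hM
  set M' : ℝ → V4 := fun t a i => N' i a t with hM'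
  have hMd : ∀ t, HasDerivAt M (M' t) t := by
    intro t
    rw [hasDerivAt_pi]; intro a
    rw [hasDerivAt_pi]; intro i
    exact (hN i a t).const_add _
  have hMc : Continuous M := continuous_iff_continuousAt.2 fun t => (hMd t).continuousAt
  set D : ℝ → V4 →L[ℝ] ℝ := fun t => fderiv ℝ f (M t) with hD
  have hDc : Continuous D := (hf.continuous_fderiv (by norm_num)).comp hMc
  set e : Fin 2 → E2 := fun j => Pi.single j 1 with he
  set G : Fin 2 → Fin 2 → ℝ → ℝ := fun i j s => D s (outer (fun a => N' i a s) (e j)) with hG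
  set h : Fin 2 → ℝ → ℝ := fun j s => D s (outer (fun a => b' a s) (e j)) with hh
  have houter : ∀ (c : ℝ → E2) (j : Fin 2), Continuous c →
      Continuous (fun s => outer (c s) (e j)) := by
    intro c j hc
    unfold outer
    exact continuous_pi fun a => continuous_pi fun l =>
      ((continuous_apply a).comp hc).mul continuous_const
  have hGc : ∀ i j, Continuous (G i j) := fun i j =>
    hDc.clm_apply (houter (fun s a => N' i a s) j (continuous_pi fun a => hN' i a))
  have hhc : ∀ j, Continuous (h j) := fun j =>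
    hDc.clm_apply (houter (fun s a => b' a s) j (continuous_pi fun a => hbd' a))
  set GG : Fin 2 → Fin 2 → ℝ → ℝ := fun i j t => ∫ s in (0 : ℝ)..t, G i j s with hGG
  set HH : Fin 2 → ℝ → ℝ := fun j t => ∫ s in (0 : ℝ)..t, h j s with hHH
  have hGGd : ∀ i j t, HasDerivAt (GG i j) (G i j t) t := fun i j t =>
    intervalIntegral.integral_hasDerivAt_right ((hGc i j).intervalIntegrable _ _)
      (hGc i j).stronglyMeasurable.stronglyMeasurableAtFilter (hGc i j).continuousAt
  have hHHd : ∀ j t, HasDerivAt (HH j) (h j t) t := fun j t =>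
    intervalIntegral.integral_hasDerivAt_right ((hhc j).intervalIntegrable _ _)
      (hhc j).stronglyMeasurable.stronglyMeasurableAtFilter (hhc j).continuousAt
  have hGG0 : ∀ i j, GG i j 0 = 0 := fun i j => by rw [hGG]; simp
  have hHH0 : ∀ j, HH j 0 = 0 := fun j => by rw [hHH]; simp
  -- the trace of `GG`
  have htr : ∀ t, ∑ j, GG j j t = f (M t) - f F₀ := by
    intro t
    have h1 : ∀ s, HasDerivAt (fun s => f (M s)) (∑ j, G j j s) s := by
      intro s
      have h2 := (hf.differentiable (by norm_num) (M s)).hasFDerivAt.comp_hasDerivAt s (hMd s)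
      refine h2.congr_deriv ?_
      rw [hG]
      simp only
      rw [← map_sum]
      congr 1
      funext a i
      simp only [Fin.sum_univ_two, Pi.add_apply, outer, he, hM', Pi.single_apply]
      fin_cases i <;> simp
    have h3 : Continuous (fun s => ∑ j, G j j s) := continuous_finsetSum _ fun j _ => hGc j j
    have h4 := intervalIntegral.integral_eq_sub_of_hasDerivAt (a := 0) (b := t)
      (fun s _ => h1 s) (h3.intervalIntegrable _ _)
    rw [intervalIntegral.integral_finsetSum fun j _ => (hGc j j).intervalIntegrable _ _] at h4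
    have h5 : M 0 = F₀ := by
      funext a i
      simp only [hM, hN0, add_zero]
    rw [h5] at h4
    exact h4
  -- the auxiliary field
  set w : E2 → E2 := fun (x : E2) (j : Fin 2) => ∑ i, x i * GG i j (ρ x) + HH j (ρ x) with hw
  obtain ⟨Kw, hKw⟩ := field_lip (g := GG) (h := HH) hρ hb h0 hGGd hGc hGG0 hHHd hhc
  obtain ⟨Kϑ, hKϑ⟩ := field_lip (g := N) (h := b) hρ hb h0 hN hN' hN0 hbd hbd'
  have hw0 : ∀ x, x ∉ Ω → w x = 0 := by
    intro x hx
    funext j
    simp only [hw, h0 x hx, hGG0, hHH0, mul_zero, Finset.sum_const_zero, add_zero, Pi.zero_apply]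
  have hdiv : ∫ x in Ω, (grad w x 0 0 + grad w x 1 1) = 0 := by
    have hi : ∀ i j, Integrable (fun x => grad w x i j) (volume.restrict Ω) := fun i j =>
      Pool.Agent.Helper188.Morrey.integrable_comp hKw hb (φ := fun A => A i j) (by fun_prop)
    rw [integral_add (hi 0 0) (hi 1 1), integral_grad hKw hΩ hb hw0,
      integral_grad hKw hΩ hb hw0, add_zero]
  -- the pointwise inequality
  have hpt : ∀ᵐ x ∂(volume.restrict Ω),
      f F₀ + (grad w x 0 0 + grad w x 1 1) ≤ f (F₀ + gV ϑ x) := by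
    filter_upwards [ae_restrict_of_ae hρ.ae_differentiableAt] with x hx
    set c : E2 := fun a => ∑ i, x i * N' i a (ρ x) + b' a (ρ x) with hc
    set n : E2 := fun l => fderiv ℝ ρ x (Pi.single l 1) with hn
    have e1 : F₀ + gV ϑ x = M (ρ x) + outer c n := by
      funext a l
      have := field_grad (g := N) (g' := N') (h := b) (h' := b') hN hbd hx a l
      simp only [Pi.add_apply, outer, hM, gV]
      rw [hϑ, this]
      ring
    have e2 : grad w x 0 0 + grad w x 1 1
        = ∑ j, GG j j (ρ x) + D (ρ x) (outer c n) := by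
      have k1 := field_grad (g := GG) (g' := G) (h := HH) (h' := h) hGGd hHHd hx 0 0
      have k2 := field_grad (g := GG) (g' := G) (h := HH) (h' := h) hGGd hHHd hx 1 1
      rw [hw, k1, k2]
      have k3 : outer c n = ∑ j, n j • (∑ i, x i • outer (fun a => N' i a (ρ x)) (e j)
          + outer (fun a => b' a (ρ x)) (e j)) := by
        funext a l
        simp only [outer, hc, Fin.sum_univ_two, Pi.add_apply, Pi.smul_apply, smul_eq_mul, he,
          Pi.single_apply]
        fin_cases l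
        · simp; ring
        · simp; ring
      rw [k3]
      simp only [map_sum, map_smul, map_add, smul_eq_mul, Fin.sum_univ_two, hG, hh, hn]
      ring
    rw [e1, e2, htr]
    have := supp_ineq hf hr (M (ρ x)) (outer c n) (det_outer c n)
    simp only [hD]
    linarith
  have : IsFiniteMeasure (volume.restrict Ω) := ⟨by
    rw [Measure.restrict_apply_univ]; exact hb.measure_lt_top⟩
  have hi1 : Integrable (fun x => f (F₀ + gV ϑ x)) (volume.restrict Ω) :=
    int_gV hKϑ hb hf.continuous F₀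
  have hi2 : ∀ i j, Integrable (fun x => grad w x i j) (volume.restrict Ω) := fun i j =>
    Pool.Agent.Helper188.Morrey.integrable_comp hKw hb (φ := fun A => A i j) (by fun_prop)
  have hi3 : Integrable (fun x => grad w x 0 0 + grad w x 1 1) (volume.restrict Ω) :=
    (hi2 0 0).add (hi2 1 1)
  have h1 := integral_mono_ae ((integrable_const (f F₀)).add hi3) hi1 hpt
  have h2 : ∫ x in Ω, (f F₀ + (grad w x 0 0 + grad w x 1 1)) = f F₀ * (volume Ω).toReal := by
    rw [integral_add (integrable_const _) hi3, hdiv, integral_const, add_zero, smul_eq_mul,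
      mul_comm, measureReal_restrict_apply_univ]
    rfl
  rw [← h2]
  exact h1

/-- **Main inequality.** -/
theorem main {W : M2 → ℝ} (hW : RankOneConvex W) (F₀ : M2)
    (hρ : LipschitzWith L ρ) (hΩ : IsOpen Ω) (hb : Bornology.IsBounded Ω)
    (h0 : ∀ x, x ∉ Ω → ρ x = 0) {N N' : Fin 2 → Fin 2 → ℝ → ℝ} {b b' : Fin 2 → ℝ → ℝ}
    (hN : ∀ i j t, HasDerivAt (N i j) (N' i j t) t) (hN' : ∀ i j, Continuous (N' i j))
    (hN0 : ∀ i j, N i j 0 = 0) (hbd : ∀ j t, HasDerivAt (b j) (b' j t) t)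
    (hbd' : ∀ j, Continuous (b' j)) :
    W F₀ * (volume Ω).toReal ≤ ∫ x in Ω, W (F₀ + grad
      (fun (x : E2) (a : Fin 2) => ∑ i, x i * N i a (ρ x) + b a (ρ x)) x) := by
  set ϑ : E2 → E2 := fun (x : E2) (a : Fin 2) => ∑ i, x i * N i a (ρ x) + b a (ρ x) with hϑ
  obtain ⟨K, hK⟩ := field_lip (g := N) (h := b) hρ hb h0 hN hN' hN0 hbd hbd'
  have hWc := hW.continuous
  have : IsFiniteMeasure (volume.restrict Ω) := ⟨by
    rw [Measure.restrict_apply_univ]; exact hb.measure_lt_top⟩
  set F₁ : V4 := F₀ with hF1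
  set R : ℝ := ‖F₁‖ + K with hR
  have hbd1 : ∀ x, ‖F₁ + gV ϑ x‖ ≤ R := by
    intro x
    refine (norm_add_le _ _).trans (add_le_add le_rfl ?_)
    exact (pi_norm_le_iff_of_nonneg K.2).2 fun i => (pi_norm_le_iff_of_nonneg K.2).2 fun j =>
      grad_bound hK x i j
  have hi : Integrable (fun x => W (F₀ + grad ϑ x)) (volume.restrict Ω) :=
    Pool.Agent.Helper188.Morrey.integrable_comp hK hb (φ := fun A : M2 => W (F₀ + A))
      (hWc.comp (by fun_prop))
  set m : ℝ := (volume Ω).toReal with hm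
  have hm0 : 0 ≤ m := ENNReal.toReal_nonneg
  refine le_of_forall_pos_le_add fun δ hδ => ?_
  set η : ℝ := δ / (2 * m + 1) with hη
  have hη0 : 0 < η := by positivity
  obtain ⟨g, hg1, hg2, hg3⟩ := mollify (f := fun F : V4 => W (Matrix.of F)) hWc (rc_of hW) R η hη0
  have h1 := smooth_case hg1 hg2 F₁ hρ hΩ hb h0 hN hN' hN0 hbd hbd'
  have hi2 : Integrable (fun x => g (F₁ + gV ϑ x)) (volume.restrict Ω) :=
    int_gV hK hb hg1.continuous F₁
  have h2 : ∫ x in Ω, g (F₁ + gV ϑ x) ≤ ∫ x in Ω, (W (F₀ + grad ϑ x) + η) := by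
    refine integral_mono hi2 (hi.add (integrable_const _)) fun x => ?_
    have := (abs_le.1 (hg3 _ (hbd1 x))).2
    have e : W (Matrix.of (F₁ + gV ϑ x)) = W (F₀ + grad ϑ x) := rfl
    rw [e] at this
    simp only
    linarith
  rw [integral_add hi (integrable_const _), integral_const, smul_eq_mul,
    measureReal_restrict_apply_univ] at h2
  have h3 := (abs_le.1 (hg3 F₁ (by rw [hR]; linarith [K.2]))).1
  have e : W (Matrix.of F₁) = W F₀ := rfl
  rw [e] at h3
  have h4 : W F₀ * m ≤ g F₁ * m + η * m := by nlinarith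
  have h5 : volume.real Ω = m := rfl
  rw [h5] at h2
  have h6 : g F₁ * m ≤ ∫ x in Ω, g (F₁ + gV ϑ x) := h1
  have h7 : 2 * (m * η) ≤ δ := by
    rw [hη]
    rw [← mul_div_assoc, ← mul_div_assoc, div_le_iff₀ (by positivity)]
    nlinarith
  linarith

end main

end Pool.Agent.X103.Morrey1
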