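import Mathlib
import Pool.Agent.H153R4.Pl

/-!
# The bound of Li and Yau for subspaces of functions supported in a set
-/

set_option autoImplicit false

open MeasureTheory Set FourierTransform
open scoped ENNReal ComplexConjugate

noncomputable section

namespace Pool.Agent.X103.Nest

/-- square integrable functions of the plane -/
abbrev H : Type := Lp ℂ 2 (volume : Measure ℂ)

theorem cone_int (r : ℝ) (hr : 0 < r) :
    ∫ ξ : ℂ, max (r - ‖ξ‖ ^ 2) 0 = Real.pi * r ^ 2 / 2 := by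
  have h := integral_fun_norm_addHaar (volume : Measure ℂ) (fun t : ℝ => max (r - t ^ 2) 0)
  rw [h, Complex.finrank_real_complex]
  have hv : (volume : Measure ℂ).real (Metric.ball 0 1) = Real.pi := by
    rw [Measure.real, Complex.volume_ball]
    simp
  rw [hv]
  have hi : ∫ y in Ioi (0 : ℝ), y ^ (2 - 1) • max (r - y ^ 2) 0 = r ^ 2 / 4 := by
    have h1 : ∫ y in Ioi (0 : ℝ), y ^ (2 - 1) • max (r - y ^ 2) 0 =
        ∫ y in Ioc (0 : ℝ) (Real.sqrt r), (r * y - y ^ 3) := by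
      rw [← integral_indicator measurableSet_Ioi, ← integral_indicator measurableSet_Ioc]
      refine integral_congr_ae (Filter.Eventually.of_forall fun y => ?_)
      by_cases hy : 0 < y
      · rw [indicator_of_mem (show y ∈ Ioi (0 : ℝ) from hy)]
        by_cases hy2 : y ≤ Real.sqrt r
        · rw [indicator_of_mem (show y ∈ Ioc (0 : ℝ) (Real.sqrt r) from ⟨hy, hy2⟩)]
          have : y ^ 2 ≤ r := by
            rw [← Real.sq_sqrt hr.le]
            exact pow_le_pow_left₀ hy.le hy2 2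
          rw [max_eq_left (by linarith)]
          simp only [smul_eq_mul]
          ring
        · rw [indicator_of_notMem (show y ∉ Ioc (0 : ℝ) (Real.sqrt r) from fun h => hy2 h.2)]
          have : r ≤ y ^ 2 := by
            rw [← Real.sq_sqrt hr.le]
            exact pow_le_pow_left₀ (Real.sqrt_nonneg r) (not_le.1 hy2).le 2
          rw [max_eq_right (by linarith)]
          simp
      · rw [indicator_of_notMem (show y ∉ Ioi (0 : ℝ) from fun h => hy h),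
          indicator_of_notMem (show y ∉ Ioc (0 : ℝ) (Real.sqrt r) from fun h => hy h.1)]
    rw [h1, ← intervalIntegral.integral_of_le (Real.sqrt_nonneg r)]
    have h2 : ∫ y in (0 : ℝ)..Real.sqrt r, (r * y - y ^ 3) =
        r * (Real.sqrt r ^ 2 / 2) - Real.sqrt r ^ 4 / 4 := by
      rw [intervalIntegral.integral_sub
          ((by fun_prop : Continuous fun y : ℝ => r * y).intervalIntegrable _ _)
          ((by fun_prop : Continuous fun y : ℝ => y ^ 3).intervalIntegrable _ _),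
        intervalIntegral.integral_const_mul, integral_id, integral_pow]
      norm_num
    rw [h2]
    have h3 : Real.sqrt r ^ 4 = r ^ 2 := by
      calc Real.sqrt r ^ 4 = (Real.sqrt r ^ 2) ^ 2 := by ring
        _ = r ^ 2 := by rw [Real.sq_sqrt hr.le]
    rw [h3, Real.sq_sqrt hr.le]
    ring
  have hi' : ∫ y in Ioi (0 : ℝ), y ^ (2 - 1) • max (r - y ^ 2) 0 = r ^ 2 / 4 := hi
  rw [hi']
  simp only [nsmul_eq_mul, smul_eq_mul]
  push_cast
  ring

theorem cone_integrable (r : ℝ) : Integrable (fun ξ : ℂ => max (r - ‖ξ‖ ^ 2) 0) := by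
  have hc : Continuous fun ξ : ℂ => max (r - ‖ξ‖ ^ 2) 0 := by fun_prop
  refine hc.integrable_of_hasCompactSupport ?_
  refine HasCompactSupport.intro (isCompact_closedBall (0 : ℂ) (Real.sqrt r)) fun ξ hξ => ?_
  rw [mem_closedBall_zero_iff, not_le] at hξ
  refine max_eq_right ?_
  rcases le_or_gt 0 r with hr | hr
  · have : r ≤ ‖ξ‖ ^ 2 := by
      rw [← Real.sq_sqrt hr]
      exact pow_le_pow_left₀ (Real.sqrt_nonneg r) hξ.le 2
    linarith
  · nlinarith [sq_nonneg ‖ξ‖]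

/-- the bathtub principle -/
theorem bath {F : ℂ → ℝ} {A : ℝ} (hA : 0 ≤ A) (h0 : ∀ᵐ ξ, 0 ≤ F ξ ∧ F ξ ≤ A) (hi : Integrable F)
    (hk : Integrable fun ξ => ‖ξ‖ ^ 2 * F ξ) (r : ℝ) (hr : 0 < r) :
    r * (∫ ξ, F ξ) - (∫ ξ, ‖ξ‖ ^ 2 * F ξ) ≤ A * (Real.pi * r ^ 2 / 2) := by
  rw [← cone_int r hr, ← integral_const_mul, ← integral_const_mul,
    ← integral_sub (hi.const_mul r) hk]
  refine integral_mono_ae ((hi.const_mul r).sub hk) ((cone_integrable r).const_mul A) ?_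
  filter_upwards [h0] with ξ hξ
  have h1 : r * F ξ - ‖ξ‖ ^ 2 * F ξ = (r - ‖ξ‖ ^ 2) * F ξ := by ring
  rw [h1]
  calc (r - ‖ξ‖ ^ 2) * F ξ ≤ max (r - ‖ξ‖ ^ 2) 0 * F ξ :=
        mul_le_mul_of_nonneg_right (le_max_left _ _) hξ.1
    _ ≤ max (r - ‖ξ‖ ^ 2) 0 * A := mul_le_mul_of_nonneg_left hξ.2 (le_max_right _ _)
    _ = A * max (r - ‖ξ‖ ^ 2) 0 := mul_comm _ _

theorem alg {N A Λ : ℝ} (hN : 0 ≤ N) (hA : 0 ≤ A)
    (h : ∀ r : ℝ, 0 < r → r * N - Λ / (4 * Real.pi ^ 2) * N ≤ A * (Real.pi * r ^ 2 / 2))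
    (hΛ : 0 ≤ Λ) : 2 * Real.pi * N ≤ Λ * A := by
  have hpi := Real.pi_pos
  rcases hN.eq_or_lt with h0 | hN'
  · rw [← h0]
    have := mul_nonneg hΛ hA
    linarith
  rcases hA.eq_or_lt with hA0 | hA'
  · have h1 := h (Λ / (4 * Real.pi ^ 2) + 1) (by positivity)
    rw [← hA0] at h1
    nlinarith
  · have h1 := h (N / (Real.pi * A)) (by positivity)
    have e1 : A * (Real.pi * (N / (Real.pi * A)) ^ 2 / 2) = N ^ 2 / (2 * (Real.pi * A)) := by
      field_simp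
    have e2 : N / (Real.pi * A) * N = 2 * (N ^ 2 / (2 * (Real.pi * A))) := by
      field_simp
    rw [e1, e2] at h1
    have h2 : N ^ 2 / (2 * (Real.pi * A)) ≤ Λ / (4 * Real.pi ^ 2) * N := by linarith
    rw [div_mul_eq_mul_div, div_le_div_iff₀ (by positivity) (by positivity)] at h2
    have h3 : 2 * Real.pi * N * (N * (2 * Real.pi)) ≤ Λ * A * (N * (2 * Real.pi)) := by
      nlinarith
    exact le_of_mul_le_mul_right h3 (by positivity)

/-- the kinetic energy, divided by `4 π²` -/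
def kin (f : H) : ℝ≥0∞ := ∫⁻ ξ : ℂ, ENNReal.ofReal (‖ξ‖ ^ 2) * ‖(𝓕 f : H) ξ‖ₑ ^ 2

theorem norm_sq_eq (f : H) : ∫⁻ x : ℂ, ‖f x‖ₑ ^ 2 = ENNReal.ofReal (‖f‖ ^ 2) := by
  have h1 := eLpNorm_nnreal_pow_eq_lintegral (f := (f : ℂ → ℂ)) (μ := (volume : Measure ℂ))
    (p := 2) (by norm_num)
  have h2 : ENNReal.ofReal ‖f‖ = eLpNorm f 2 volume := by
    rw [Lp.norm_def]
    exact ENNReal.ofReal_toReal (Lp.memLp f).eLpNorm_lt_top.ne
  rw [ENNReal.ofReal_pow (norm_nonneg _), h2]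
  simp only [NNReal.coe_ofNat, ENNReal.rpow_ofNat] at h1
  have c1 : (((2 : NNReal) : ℝ≥0∞)) = 2 := by norm_num
  rw [c1] at h1
  exact h1.symm

/-- functions of the class which vanish outside of a set of finite measure are integrable -/
theorem int_of_supp {D : Set ℂ} (hD : MeasurableSet D) (hfin : volume D ≠ ⊤) (f : H)
    (hf : ∀ᵐ x : ℂ, x ∉ D → f x = 0) : Integrable (f : ℂ → ℂ) := by
  have : IsFiniteMeasure (volume.restrict D) := ⟨by
    rw [Measure.restrict_apply_univ]; exact hfin.lt_top⟩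
  have h1 : MemLp (f : ℂ → ℂ) 2 (volume.restrict D) := (Lp.memLp f).restrict D
  have h2 : IntegrableOn (f : ℂ → ℂ) D := h1.integrable (by norm_num)
  have h3 : (f : ℂ → ℂ) =ᵐ[volume] D.indicator f := by
    filter_upwards [hf] with x hx
    by_cases hxD : x ∈ D
    · rw [indicator_of_mem hxD]
    · rw [indicator_of_notMem hxD, hx hxD]
  exact ((integrable_indicator_iff hD).2 h2).congr h3.symm

theorem ft_eq {D : Set ℂ} (hD : MeasurableSet D) (hfin : volume D ≠ ⊤) (f : H)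
    (hf : ∀ᵐ x : ℂ, x ∉ D → f x = 0) :
    ((𝓕 f : H) : ℂ → ℂ) =ᵐ[volume] 𝓕 (f : ℂ → ℂ) := by
  have h1 := Pool.Agent.H153R4.fourier_ae_eq (f : ℂ → ℂ) (int_of_supp hD hfin f hf) (Lp.memLp f)
  rwa [Lp.toLp_coeFn] at h1

/-- the plane wave on `D` -/
def wave (D : Set ℂ) (ξ : ℂ) : ℂ → ℂ :=
  D.indicator fun x => Complex.exp ((2 * Real.pi * inner ℝ x ξ : ℝ) * Complex.I)

theorem wave_norm (D : Set ℂ) (ξ x : ℂ) : ‖wave D ξ x‖ₑ ^ 2 = D.indicator 1 x := by
  unfold wave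
  by_cases h : x ∈ D
  · rw [indicator_of_mem h, indicator_of_mem h]
    rw [← ofReal_norm, Complex.norm_exp_ofReal_mul_I]
    simp
  · rw [indicator_of_notMem h, indicator_of_notMem h]
    simp

theorem wave_mem {D : Set ℂ} (hD : MeasurableSet D) (hfin : volume D ≠ ⊤) (ξ : ℂ) :
    MemLp (wave D ξ) 2 := by
  have : IsFiniteMeasure (volume.restrict D) := ⟨by
    rw [Measure.restrict_apply_univ]; exact hfin.lt_top⟩
  unfold wave
  rw [memLp_indicator_iff_restrict hD]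
  have hc : Continuous fun x : ℂ => Complex.exp ((2 * Real.pi * inner ℝ x ξ : ℝ) * Complex.I) := by
    fun_prop
  exact MemLp.of_bound hc.aestronglyMeasurable 1
    (Filter.Eventually.of_forall fun x => by rw [Complex.norm_exp_ofReal_mul_I])

theorem wave_norm_sq {D : Set ℂ} (hD : MeasurableSet D) (hfin : volume D ≠ ⊤) (ξ : ℂ) :
    ‖(wave_mem hD hfin ξ).toLp (wave D ξ)‖ ^ 2 = (volume D).toReal := by
  have h1 := norm_sq_eq ((wave_mem hD hfin ξ).toLp (wave D ξ))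
  have h2 : ∫⁻ x : ℂ, ‖((wave_mem hD hfin ξ).toLp (wave D ξ)) x‖ₑ ^ 2 = volume D := by
    have : ∫⁻ x : ℂ, ‖((wave_mem hD hfin ξ).toLp (wave D ξ)) x‖ₑ ^ 2 =
        ∫⁻ x : ℂ, D.indicator 1 x := by
      refine lintegral_congr_ae ?_
      filter_upwards [(wave_mem hD hfin ξ).coeFn_toLp] with x hx
      rw [hx, wave_norm]
    rw [this, lintegral_indicator_one hD]
  rw [h2] at h1
  rw [h1, ENNReal.toReal_ofReal (sq_nonneg _)]

theorem wave_inner {D : Set ℂ} (hD : MeasurableSet D) (hfin : volume D ≠ ⊤) (f : H)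
    (hf : ∀ᵐ x : ℂ, x ∉ D → f x = 0) (ξ : ℂ) :
    inner ℂ ((wave_mem hD hfin ξ).toLp (wave D ξ)) f = 𝓕 (f : ℂ → ℂ) ξ := by
  rw [L2.inner_def, Real.fourier_eq]
  refine integral_congr_ae ?_
  filter_upwards [(wave_mem hD hfin ξ).coeFn_toLp, hf] with x hx hx2
  rw [hx]
  unfold wave
  by_cases h : x ∈ D
  · rw [indicator_of_mem h, RCLike.inner_apply, ← Complex.exp_conj, map_mul, Complex.conj_ofReal,
      Complex.conj_I, Circle.smul_def, Real.fourierChar_apply, smul_eq_mul, mul_comm]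
    congr 2
    push_cast
    ring
  · rw [indicator_of_notMem h, hx2 h]
    simp

/-- **The bound of Li and Yau.** -/
theorem li_yau {D : Set ℂ} (hD : MeasurableSet D) (hfin : volume D ≠ ⊤) {Λ : ℝ} (hΛ : 0 ≤ Λ)
    (W : Submodule ℂ H) [FiniteDimensional ℂ W] (hs : ∀ f ∈ W, ∀ᵐ x : ℂ, x ∉ D → f x = 0)
    (hk : ∀ f ∈ W, kin f ≤ ENNReal.ofReal (Λ / (4 * Real.pi ^ 2) * ‖f‖ ^ 2)) :
    2 * Real.pi * (Module.finrank ℂ W : ℝ) ≤ Λ * (volume D).toReal := by
  set b := stdOrthonormalBasis ℂ W with hb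
  set N := Module.finrank ℂ W with hN
  set w : Fin N → H := fun s => (b s : H) with hw
  have hwo : Orthonormal ℂ w := by
    have := b.orthonormal.comp_linearIsometry W.subtypeₗᵢ
    exact this
  have hwW : ∀ s, w s ∈ W := fun s => (b s).2
  have hwn : ∀ s, ‖w s‖ = 1 := fun s => hwo.norm_eq_one s
  have hws := fun s => hs (w s) (hwW s)
  set F : ℂ → ℝ := fun ξ => ∑ s, ‖(𝓕 (w s) : H) ξ‖ ^ 2 with hF
  have hsq : ∀ f : H, Integrable (fun ξ : ℂ => ‖f ξ‖ ^ 2) := fun f =>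
    (Lp.memLp f).integrable_norm_pow (by norm_num)
  have hint1 : ∀ f : H, ∫ ξ : ℂ, ‖f ξ‖ ^ 2 = ‖f‖ ^ 2 := by
    intro f
    have h1 := ofReal_integral_eq_lintegral_ofReal (hsq f)
      (Filter.Eventually.of_forall fun x => sq_nonneg _)
    have h2 : ∫⁻ x : ℂ, ENNReal.ofReal (‖f x‖ ^ 2) = ENNReal.ofReal (‖f‖ ^ 2) := by
      rw [← norm_sq_eq f]
      refine lintegral_congr fun x => ?_
      rw [ENNReal.ofReal_pow (norm_nonneg _), ofReal_norm]
    rw [h2] at h1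
    exact (ENNReal.ofReal_eq_ofReal_iff (integral_nonneg fun x => sq_nonneg _)
      (sq_nonneg _)).1 h1
  have hFi : Integrable F := integrable_finsetSum _ fun s _ => hsq _
  have hFint : ∫ ξ, F ξ = N := by
    rw [hF, integral_finsetSum _ fun s _ => hsq _]
    have : ∀ s ∈ Finset.univ, ∫ ξ : ℂ, ‖(𝓕 (w s) : H) ξ‖ ^ 2 = 1 := by
      intro s _
      rw [hint1, Lp.norm_fourier_eq, hwn, one_pow]
    rw [Finset.sum_congr rfl this]
    simp
  have hkfin : ∀ s, kin (w s) ≤ ENNReal.ofReal (Λ / (4 * Real.pi ^ 2)) := by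
    intro s
    have := hk _ (hwW s)
    rwa [hwn, one_pow, mul_one] at this
  have hkeq : ∀ s, kin (w s) =
      ∫⁻ ξ : ℂ, ENNReal.ofReal (‖ξ‖ ^ 2 * ‖(𝓕 (w s) : H) ξ‖ ^ 2) := by
    intro s
    unfold kin
    refine lintegral_congr fun ξ => ?_
    rw [ENNReal.ofReal_mul (sq_nonneg _), ENNReal.ofReal_pow (norm_nonneg ((𝓕 (w s) : H) ξ)),
      ofReal_norm]
  have hki : ∀ s, Integrable fun ξ : ℂ => ‖ξ‖ ^ 2 * ‖(𝓕 (w s) : H) ξ‖ ^ 2 := by
    intro s
    have hm : AEStronglyMeasurable (fun ξ : ℂ => ‖ξ‖ ^ 2 * ‖(𝓕 (w s) : H) ξ‖ ^ 2) volume :=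
      (by fun_prop : Continuous fun ξ : ℂ => ‖ξ‖ ^ 2).aestronglyMeasurable.mul
        (hsq _).aestronglyMeasurable
    refine ⟨hm, ?_⟩
    rw [hasFiniteIntegral_iff_ofReal (Filter.Eventually.of_forall fun x => by positivity), ← hkeq]
    exact lt_of_le_of_lt (hkfin s) ENNReal.ofReal_lt_top
  have hkint : ∀ s, ∫ ξ : ℂ, ‖ξ‖ ^ 2 * ‖(𝓕 (w s) : H) ξ‖ ^ 2 ≤ Λ / (4 * Real.pi ^ 2) := by
    intro s
    have h1 := ofReal_integral_eq_lintegral_ofReal (hki s)
      (Filter.Eventually.of_forall fun x => by positivity)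
    rw [← hkeq] at h1
    have h2 := hkfin s
    rw [← h1] at h2
    exact (ENNReal.ofReal_le_ofReal_iff (by positivity)).1 h2
  have hFk : (fun ξ => ‖ξ‖ ^ 2 * F ξ) = fun ξ => ∑ s, ‖ξ‖ ^ 2 * ‖(𝓕 (w s) : H) ξ‖ ^ 2 := by
    funext ξ
    rw [hF, Finset.mul_sum]
  have hFki : Integrable fun ξ => ‖ξ‖ ^ 2 * F ξ := by
    rw [hFk]
    exact integrable_finsetSum _ fun s _ => hki s
  have hFkint : ∫ ξ, ‖ξ‖ ^ 2 * F ξ ≤ Λ / (4 * Real.pi ^ 2) * N := by
    rw [hFk, integral_finsetSum _ fun s _ => hki s]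
    refine (Finset.sum_le_sum fun s _ => hkint s).trans ?_
    simp [mul_comm]
  have hF0 : ∀ᵐ ξ, 0 ≤ F ξ ∧ F ξ ≤ (volume D).toReal := by
    have h1 : ∀ᵐ ξ : ℂ, ∀ s, (𝓕 (w s) : H) ξ = 𝓕 (w s : ℂ → ℂ) ξ := by
      rw [ae_all_iff]
      intro s
      exact ft_eq hD hfin _ (hws s)
    filter_upwards [h1] with ξ hξ
    refine ⟨Finset.sum_nonneg fun s _ => sq_nonneg _, ?_⟩
    have h2 := hwo.sum_inner_products_le (s := Finset.univ)
      ((wave_mem hD hfin ξ).toLp (wave D ξ))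
    rw [wave_norm_sq hD hfin] at h2
    refine le_trans (le_of_eq ?_) h2
    refine Finset.sum_congr rfl fun s _ => ?_
    rw [hξ s, ← wave_inner hD hfin _ (hws s) ξ, norm_inner_symm]
  refine alg (Nat.cast_nonneg _) ENNReal.toReal_nonneg ?_ hΛ
  intro r hr
  have h1 := bath ENNReal.toReal_nonneg hF0 hFi hFki r hr
  rw [hFint] at h1
  linarith

end Pool.Agent.X103.Nest
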