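import Pool.Agent.X103.NestA

/-!
# Weak derivatives by Fourier multipliers: supports and integrals
-/

set_option autoImplicit false

open MeasureTheory Set FourierTransform SchwartzMap
open scoped ENNReal ComplexConjugate ContDiff LineDeriv

noncomputable section

namespace Pool.Agent.X103.Nest

/-- the symbol of the derivative in the direction `e` -/
def sy (e ξ : ℂ) : ℂ := 2 * Real.pi * Complex.I * ((inner ℝ ξ e : ℝ) : ℂ)

theorem sy_conj (e ξ : ℂ) : conj (sy e ξ) = -sy e ξ := by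
  unfold sy
  simp only [map_mul, Complex.conj_ofReal, Complex.conj_I, map_ofNat]
  ring

/-- `K` is the weak derivative of `f` in the direction `e` -/
def Der (e : ℂ) (f K : H) : Prop :=
  ((𝓕 K : H) : ℂ → ℂ) =ᵐ[volume] fun ξ => sy e ξ * (𝓕 f : H) ξ

theorem der_test {e : ℂ} {f K : H} (h : Der e f K) (φ : ℂ → ℝ) (hφ : ContDiff ℝ ∞ φ)
    (hc : HasCompactSupport φ) :
    ∫ x, φ x • K x = - ∫ x, (fderiv ℝ φ x e) • f x := by
  have hg₁ : HasCompactSupport (Complex.ofRealCLM ∘ φ) := hc.comp_left rfl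
  have hg₂ : ContDiff ℝ ∞ (Complex.ofRealCLM ∘ φ) := by fun_prop
  set gS : 𝓢(ℂ, ℂ) := hg₁.toSchwartzMap hg₂ with hgS
  have hgx : ∀ x, gS x = (φ x : ℂ) := fun x => rfl
  set gD : 𝓢(ℂ, ℂ) := ∂_{e} gS with hgD
  have hgDx : ∀ x, gD x = ((fderiv ℝ φ x e : ℝ) : ℂ) := by
    intro x
    have h1 : gD x = lineDeriv ℝ gS x e := by
      rw [hgD]
      exact SchwartzMap.lineDerivOp_apply e gS x
    rw [h1]
    have h2 : (gS : ℂ → ℂ) = Complex.ofRealCLM ∘ φ := rfl
    have h3 : HasFDerivAt (Complex.ofRealCLM ∘ φ) (Complex.ofRealCLM.comp (fderiv ℝ φ x)) x :=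
      Complex.ofRealCLM.hasFDerivAt.comp x ((hφ.differentiable (by simp)) x).hasFDerivAt
    rw [h2, h3.hasLineDerivAt e |>.lineDeriv]
    rfl
  have e1 : ∀ (a : 𝓢(ℂ, ℂ)) (r : ℂ → ℝ), (∀ x, a x = (r x : ℂ)) → ∀ b : H,
      ∫ x, r x • b x = inner ℂ (a.toLp 2) b := by
    intro a r har b
    rw [L2.inner_def]
    refine integral_congr_ae ?_
    filter_upwards [a.coeFn_toLp 2] with x hx
    rw [hx, har, RCLike.inner_apply, Complex.conj_ofReal, Complex.real_smul, mul_comm]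
  have e2 : ∀ (a : 𝓢(ℂ, ℂ)) (b : H),
      inner ℂ (a.toLp 2) b = ∫ ξ, conj ((𝓕 a) ξ) * (𝓕 b : H) ξ := by
    intro a b
    rw [← Lp.inner_fourier_eq, SchwartzMap.toLp_fourier_eq, L2.inner_def]
    refine integral_congr_ae ?_
    filter_upwards [(𝓕 a).coeFn_toLp 2] with x hx
    rw [hx, RCLike.inner_apply, mul_comm]
  rw [e1 gS φ hgx K, e1 gD (fun x => fderiv ℝ φ x e) hgDx f, e2, e2, ← integral_neg]
  refine integral_congr_ae ?_
  filter_upwards [h] with ξ hξ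
  rw [hξ]
  have h4 : (𝓕 gD) ξ = sy e ξ * (𝓕 gS) ξ := by
    have h5 : (inner ℝ · e : ℂ → ℝ).HasTemperateGrowth := ((innerSL ℝ).flip e).hasTemperateGrowth
    rw [hgD, SchwartzMap.fourier_lineDerivOp_eq]
    simp only [smul_apply, SchwartzMap.smulLeftCLM_apply_apply h5]
    unfold sy
    simp only [smul_eq_mul, Complex.real_smul]
    ring
  rw [h4, map_mul, sy_conj]
  ring

theorem der_supp {e : ℂ} {f K : H} (h : Der e f K) {Ω : Set ℂ}
    (hf : ∀ᵐ x : ℂ, x ∉ Ω → f x = 0) : ∀ᵐ x : ℂ, x ∉ closure Ω → K x = 0 := by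
  have ho : IsOpen (closure Ω)ᶜ := isClosed_closure.isOpen_compl
  have h1 := ho.ae_eq_zero_of_integral_contDiff_smul_eq_zero (μ := volume)
    (f := (K : ℂ → ℂ)) (((Lp.memLp K).locallyIntegrable (by norm_num)).locallyIntegrableOn _) ?_
  · exact h1
  intro φ hφ hc hs
  rw [der_test h φ hφ hc, neg_eq_zero]
  refine integral_eq_zero_of_ae ?_
  filter_upwards [hf] with x hx
  by_cases hxΩ : x ∈ Ω
  · have hx2 : x ∉ tsupport φ := fun hh => hs hh (subset_closure hxΩ)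
    have hx3 : fderiv ℝ φ x = 0 := by
      have := support_fderiv_subset ℝ (f := φ)
      by_contra hne
      exact hx2 (this hne)
    rw [hx3]
    simp
  · rw [hx hxΩ]
    simp

theorem der_int {e : ℂ} {f K : H} (h : Der e f K) {Ω B : Set ℂ}
    (hf : ∀ᵐ x : ℂ, x ∉ Ω → f x = 0) (hb : Bornology.IsBounded Ω) (hB : MeasurableSet B)
    (hn : volume (closure Ω \ B) = 0) : ∫ x in B, K x = 0 := by
  obtain ⟨r, hr0, hr⟩ := hb.closure.subset_ball_lt 0 0
  let χ : ContDiffBump (0 : ℂ) := ⟨r, r + 1, hr0, by linarith⟩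
  have hχ1 : ∀ x ∈ closure Ω, (χ : ℂ → ℝ) =ᶠ[nhds x] fun _ => 1 := fun x hx =>
    χ.eventuallyEq_one_of_mem_ball (hr hx)
  have h1 := der_test h (χ : ℂ → ℝ) χ.contDiff χ.hasCompactSupport
  have h2 : ∫ x, (fderiv ℝ (χ : ℂ → ℝ) x e) • f x = 0 := by
    refine integral_eq_zero_of_ae ?_
    filter_upwards [hf] with x hx
    by_cases hxΩ : x ∈ Ω
    · rw [(hχ1 x (subset_closure hxΩ)).fderiv_eq]
      simp
    · rw [hx hxΩ]
      simp
  rw [h2, neg_zero] at h1
  rw [← h1, ← integral_indicator hB]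
  have h3 : ∀ᵐ x : ℂ, ¬ (x ∈ closure Ω \ B) := measure_eq_zero_iff_ae_notMem.1 hn
  refine integral_congr_ae ?_
  filter_upwards [der_supp h hf, h3] with x hx hx3
  by_cases hxΩ : x ∈ closure Ω
  · have hxB : x ∈ B := by
      by_contra hh
      exact hx3 ⟨hxΩ, hh⟩
    rw [indicator_of_mem hxB, (hχ1 x hxΩ).self_of_nhds, one_smul]
  · rw [hx hxΩ, smul_zero]
    by_cases hxB : x ∈ B
    · rw [indicator_of_mem hxB, hx hxΩ]
    · rw [indicator_of_notMem hxB]

theorem der_int' {e : ℂ} {f K : H} (h : Der e f K) {Ω B : Set ℂ}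
    (hf : ∀ᵐ x : ℂ, x ∉ Ω → f x = 0) (hB : IsOpen B) (hd : Disjoint B Ω) :
    ∫ x in B, K x = 0 := by
  have h0 := (hd.closure_right hB)
  rw [← integral_indicator hB.measurableSet]
  refine integral_eq_zero_of_ae ?_
  filter_upwards [der_supp h hf] with x hx
  by_cases hxB : x ∈ B
  · rw [indicator_of_mem hxB, hx (fun hh => disjoint_left.1 h0 hxB hh)]
    rfl
  · rw [indicator_of_notMem hxB]
    rfl

end Pool.Agent.X103.Nest
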