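import Pool.Agent.X103.NestB
import Pool.Agent.TH298.Sch.Avg

/-!
# A solution of the overdetermined problem: the data used below
-/

set_option autoImplicit false

open MeasureTheory Set FourierTransform
open scoped ENNReal ComplexConjugate

noncomputable section

namespace Pool.Agent.X103.Nest

open Pool.Agent.W632.Schiffer Pool.Agent.TH298.Sch

/-- the extension by zero of a real function on `Ω` -/
def ex (Ω : Set ℂ) (r : ℂ → ℝ) : ℂ → ℂ := Ω.indicator fun x => (r x : ℂ)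

theorem ex_mem {Ω : Set ℂ} (hm : MeasurableSet Ω) {r : ℂ → ℝ}
    (hr : MemLp r 2 (volume.restrict Ω)) : MemLp (ex Ω r) 2 := by
  unfold ex
  rw [memLp_indicator_iff_restrict hm]
  exact hr.ofReal

theorem ex_int {Ω : Set ℂ} (hm : MeasurableSet Ω) {r : ℂ → ℝ} (hr : IntegrableOn r Ω) :
    Integrable (ex Ω r) := by
  unfold ex
  rw [integrable_indicator_iff hm]
  exact hr.ofReal

theorem ex_ft {Ω : Set ℂ} (hm : MeasurableSet Ω) {r : ℂ → ℝ} (hr : IntegrableOn r Ω) (ξ : ℂ) :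
    𝓕 (ex Ω r) ξ =
      ((∫ x in Ω, r x * Real.cos (inner ℝ ((2 * Real.pi : ℝ) • ξ) x) : ℝ) : ℂ) -
      ((∫ x in Ω, r x * Real.sin (inner ℝ ((2 * Real.pi : ℝ) • ξ) x) : ℝ) : ℂ) * Complex.I := by
  have i1 : IntegrableOn (fun x => r x * Real.cos (inner ℝ ((2 * Real.pi : ℝ) • ξ) x)) Ω := by
    refine Integrable.mul_bdd (c := 1) hr (by fun_prop) ?_
    exact Filter.Eventually.of_forall fun x => by simpa using Real.abs_cos_le_one _
  have i2 : IntegrableOn (fun x => r x * Real.sin (inner ℝ ((2 * Real.pi : ℝ) • ξ) x)) Ω := by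
    refine Integrable.mul_bdd (c := 1) hr (by fun_prop) ?_
    exact Filter.Eventually.of_forall fun x => by simpa using Real.abs_sin_le_one _
  rw [Real.fourier_eq, ← integral_complex_ofReal, ← integral_complex_ofReal,
    ← integral_mul_const, ← integral_sub i1.ofReal (i2.ofReal.mul_const _),
    ← integral_indicator hm]
  refine integral_congr_ae (Filter.Eventually.of_forall fun x => ?_)
  simp only [ex]
  by_cases hx : x ∈ Ω
  · rw [indicator_of_mem hx, indicator_of_mem hx, Circle.smul_def, Real.fourierChar_apply,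
      smul_eq_mul]
    have h1 : inner ℝ ((2 * Real.pi : ℝ) • ξ) x = 2 * Real.pi * inner ℝ x ξ := by
      rw [real_inner_smul_left, real_inner_comm]
    rw [h1]
    have h2 : (2 * Real.pi * (-(inner ℝ x ξ)) : ℝ) = -(2 * Real.pi * inner ℝ x ξ) := by ring
    have h3 : ((2 * Real.pi * (-(inner ℝ x ξ : ℝ)) : ℝ) : ℂ) =
        ((-(2 * Real.pi * inner ℝ x ξ) : ℝ) : ℂ) := by rw [h2]
    rw [h3, Complex.exp_mul_I, ← Complex.ofReal_cos, ← Complex.ofReal_sin, Real.cos_neg,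
      Real.sin_neg]
    push_cast
    ring
  · rw [indicator_of_notMem hx, indicator_of_notMem hx, smul_zero]

theorem sol_grad {Ω : Set ℂ} {lam c : ℝ} {u : ℂ → ℝ} {G : ℂ → ℂ} (h : Sol Ω lam c u G)
    (hb : Bornology.IsBounded Ω) (hm : MeasurableSet Ω) (e ξ : ℂ) :
    𝓕 (ex Ω fun x => inner ℝ (G x) e) ξ = sy e ξ * 𝓕 (ex Ω fun x => u x - c) ξ := by
  have hui := h.ui hb
  have hGi := h.Gi hb
  have hvi : IntegrableOn (fun x => u x - c) Ω := hui.sub (ci hb c)
  have hgi : IntegrableOn (fun x => (inner ℝ (G x) e : ℝ)) Ω := hGi.inner_const e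
  rw [ex_ft hm hvi, ex_ft hm hgi]
  set η : ℂ := (2 * Real.pi : ℝ) • ξ with hη
  have hcs : ContDiff ℝ 1 (fun y : ℂ => Real.sin (inner ℝ η y)) :=
    Real.contDiff_sin.comp (contDiff_const.inner ℝ contDiff_id)
  have hcc : ContDiff ℝ 1 (fun y : ℂ => Real.cos (inner ℝ η y)) :=
    Real.contDiff_cos.comp (contDiff_const.inner ℝ contDiff_id)
  have w1 := (weak_all hb hm h.h1 h.h2 _ hcs).1 e
  have w2 := (weak_all hb hm h.h1 h.h2 _ hcc).1 e
  simp only [fderiv_sin_inner] at w1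
  simp only [fderiv_cos_inner] at w2
  have k1 : ∫ x in Ω, (u x - c) * (Real.cos (inner ℝ η x) * inner ℝ η e) =
      inner ℝ η e * ∫ x in Ω, (u x - c) * Real.cos (inner ℝ η x) := by
    rw [← integral_const_mul]
    refine integral_congr_ae (Filter.Eventually.of_forall fun x => ?_)
    simp only
    ring
  have k2 : ∫ x in Ω, (u x - c) * (-(Real.sin (inner ℝ η x) * inner ℝ η e)) =
      -(inner ℝ η e * ∫ x in Ω, (u x - c) * Real.sin (inner ℝ η x)) := by
    rw [← integral_const_mul, ← integral_neg]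
    refine integral_congr_ae (Filter.Eventually.of_forall fun x => ?_)
    simp only
    ring
  rw [k1] at w1
  rw [k2] at w2
  have w1' : ∫ x in Ω, inner ℝ (G x) e * Real.sin (inner ℝ η x) =
      -(inner ℝ η e * ∫ x in Ω, (u x - c) * Real.cos (inner ℝ η x)) := by linarith
  have w2' : ∫ x in Ω, inner ℝ (G x) e * Real.cos (inner ℝ η x) =
      inner ℝ η e * ∫ x in Ω, (u x - c) * Real.sin (inner ℝ η x) := by linarith
  rw [w1', w2']
  have h3 : inner ℝ η e = 2 * Real.pi * inner ℝ ξ e := by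
    rw [hη, real_inner_smul_left]
  rw [h3]
  unfold sy
  push_cast
  have hI : Complex.I * Complex.I = -1 := Complex.I_mul_I
  linear_combination (2 * Real.pi * ((inner ℝ ξ e : ℝ) : ℂ) *
    ((∫ x in Ω, (u x - c) * Real.sin (inner ℝ η x) : ℝ) : ℂ)) * hI

theorem sol_eq {Ω : Set ℂ} {lam c : ℝ} {u : ℂ → ℝ} {G : ℂ → ℂ} (h : Sol Ω lam c u G)
    (hb : Bornology.IsBounded Ω) (hm : MeasurableSet Ω) (ξ : ℂ) :
    ((4 * Real.pi ^ 2 * ‖ξ‖ ^ 2 - lam : ℝ) : ℂ) * 𝓕 (ex Ω fun x => u x - c) ξ =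
      ((lam * c : ℝ) : ℂ) * 𝓕 (ex Ω fun _ => 1) ξ := by
  have hui := h.ui hb
  have hvi : IntegrableOn (fun x => u x - c) Ω := hui.sub (ci hb c)
  rw [ex_ft hm hvi, ex_ft hm (ci hb 1)]
  set η : ℂ := (2 * Real.pi : ℝ) • ξ with hη
  obtain ⟨s1, s2⟩ := star hb hm hui h.h1 h.h2 η
  have hn : ‖η‖ ^ 2 = 4 * Real.pi ^ 2 * ‖ξ‖ ^ 2 := by
    rw [hη, norm_smul, mul_pow, Real.norm_eq_abs, sq_abs]
    ring
  have i0 : IntegrableOn (fun _ : ℂ => (1 : ℝ)) Ω := ci hb 1
  have i1 : IntegrableOn (fun x => u x * Real.cos (inner ℝ η x)) Ω := by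
    refine Integrable.mul_bdd (c := 1) hui (by fun_prop) ?_
    exact Filter.Eventually.of_forall fun x => by simpa using Real.abs_cos_le_one _
  have i2 : IntegrableOn (fun x => u x * Real.sin (inner ℝ η x)) Ω := by
    refine Integrable.mul_bdd (c := 1) hui (by fun_prop) ?_
    exact Filter.Eventually.of_forall fun x => by simpa using Real.abs_sin_le_one _
  have i3 : IntegrableOn (fun x => (1 : ℝ) * Real.cos (inner ℝ η x)) Ω := by
    refine Integrable.mul_bdd (c := 1) i0 (by fun_prop) ?_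
    exact Filter.Eventually.of_forall fun x => by simpa using Real.abs_cos_le_one _
  have i4 : IntegrableOn (fun x => (1 : ℝ) * Real.sin (inner ℝ η x)) Ω := by
    refine Integrable.mul_bdd (c := 1) i0 (by fun_prop) ?_
    exact Filter.Eventually.of_forall fun x => by simpa using Real.abs_sin_le_one _
  have e1 : ∫ x in Ω, (u x - c) * Real.cos (inner ℝ η x) =
      (∫ x in Ω, u x * Real.cos (inner ℝ η x)) - c * ∫ x in Ω, 1 * Real.cos (inner ℝ η x) := by
    rw [← integral_const_mul, ← integral_sub i1 (i3.const_mul c)]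
    refine integral_congr_ae (Filter.Eventually.of_forall fun x => ?_)
    simp only
    ring
  have e2 : ∫ x in Ω, (u x - c) * Real.sin (inner ℝ η x) =
      (∫ x in Ω, u x * Real.sin (inner ℝ η x)) - c * ∫ x in Ω, 1 * Real.sin (inner ℝ η x) := by
    rw [← integral_const_mul, ← integral_sub i2 (i4.const_mul c)]
    refine integral_congr_ae (Filter.Eventually.of_forall fun x => ?_)
    simp only
    ring
  simp only [one_mul] at e1 e2
  simp only [one_mul]
  have f1 : (4 * Real.pi ^ 2 * ‖ξ‖ ^ 2 - lam) * (∫ x in Ω, (u x - c) * Real.cos (inner ℝ η x)) =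
      lam * c * ∫ x in Ω, Real.cos (inner ℝ η x) := by
    rw [e1, ← hn]
    linear_combination s1
  have f2 : (4 * Real.pi ^ 2 * ‖ξ‖ ^ 2 - lam) * (∫ x in Ω, (u x - c) * Real.sin (inner ℝ η x)) =
      lam * c * ∫ x in Ω, Real.sin (inner ℝ η x) := by
    rw [e2, ← hn]
    linear_combination s2
  have f1' : ((4 * Real.pi ^ 2 * ‖ξ‖ ^ 2 - lam : ℝ) : ℂ) *
      ((∫ x in Ω, (u x - c) * Real.cos (inner ℝ η x) : ℝ) : ℂ) =
      ((lam * c : ℝ) : ℂ) * ((∫ x in Ω, Real.cos (inner ℝ η x) : ℝ) : ℂ) := by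
    rw [← Complex.ofReal_mul, ← Complex.ofReal_mul, f1]
  have f2' : ((4 * Real.pi ^ 2 * ‖ξ‖ ^ 2 - lam : ℝ) : ℂ) *
      ((∫ x in Ω, (u x - c) * Real.sin (inner ℝ η x) : ℝ) : ℂ) =
      ((lam * c : ℝ) : ℂ) * ((∫ x in Ω, Real.sin (inner ℝ η x) : ℝ) : ℂ) := by
    rw [← Complex.ofReal_mul, ← Complex.ofReal_mul, f2]
  linear_combination f1' - Complex.I * f2'

theorem one_mem {Ω : Set ℂ} (hm : MeasurableSet Ω) (hb : Bornology.IsBounded Ω) :
    MemLp (ex Ω fun _ => 1) 2 := by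
  have : IsFiniteMeasure (volume.restrict Ω) := Sol.fin hb
  exact ex_mem hm (memLp_const 1)

/-- the indicator of a bounded measurable set -/
def oneH (Ω : Set ℂ) (hm : MeasurableSet Ω) (hb : Bornology.IsBounded Ω) : H :=
  (one_mem hm hb).toLp _

/-- the data of a solution -/
structure Dm (Ω : Set ℂ) (lam c : ℝ) (v g1 g2 : H) : Prop where
  ho : IsOpen Ω
  hb : Bornology.IsBounded Ω
  hne : Ω.Nonempty
  hfr : volume (frontier Ω) = 0
  lam0 : 0 < lam
  c0 : c ≠ 0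
  sv : ∀ᵐ x : ℂ, x ∉ Ω → v x = 0
  s1 : ∀ᵐ x : ℂ, x ∉ Ω → g1 x = 0
  s2 : ∀ᵐ x : ℂ, x ∉ Ω → g2 x = 0
  rv : ∀ᵐ x : ℂ, (v x).im = 0
  r1 : ∀ᵐ x : ℂ, (g1 x).im = 0
  r2 : ∀ᵐ x : ℂ, (g2 x).im = 0
  d1 : Der 1 v g1
  d2 : Der Complex.I v g2
  eq : ∀ᵐ ξ : ℂ, ((4 * Real.pi ^ 2 * ‖ξ‖ ^ 2 - lam : ℝ) : ℂ) * (𝓕 v : H) ξ =
    ((lam * c : ℝ) : ℂ) * (𝓕 (oneH Ω ho.measurableSet hb) : H) ξ
  mean : ∫ x in Ω, v x = -((c * (volume Ω).toReal : ℝ) : ℂ)
  nz : ∀ B : Set ℂ, IsOpen B → B ⊆ Ω → B.Nonempty → (∀ᵐ x : ℂ, x ∈ B → g1 x = 0 ∧ g2 x = 0) →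
    ¬ ∀ᵐ x : ℂ, x ∈ B → v x = 0

theorem ft_ex {Ω : Set ℂ} (hm : MeasurableSet Ω) {r : ℂ → ℝ} (hi : IntegrableOn r Ω)
    (h2 : MemLp (ex Ω r) 2) :
    ((𝓕 (h2.toLp (ex Ω r)) : H) : ℂ → ℂ) =ᵐ[volume] 𝓕 (ex Ω r) :=
  Pool.Agent.H153R4.fourier_ae_eq _ (ex_int hm hi) h2

theorem exists_dm {Ω : Set ℂ} {lam c : ℝ} {u : ℂ → ℝ} {G : ℂ → ℂ} (h : Sol Ω lam c u G)
    (ho : IsOpen Ω) (hb : Bornology.IsBounded Ω) (hne : Ω.Nonempty)
    (hfr : volume (frontier Ω) = 0) (hlam : 0 < lam) (hu0 : ¬ (u =ᵐ[volume.restrict Ω] 0)) :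
    ∃ v g1 g2 : H, Dm Ω lam c v g1 g2 := by
  have hm := ho.measurableSet
  have hfin : IsFiniteMeasure (volume.restrict Ω) := Sol.fin hb
  have hc0 := h.c_ne hb hm hlam hu0
  have hui := h.ui hb
  have hGi := h.Gi hb
  have hvi : IntegrableOn (fun x => u x - c) Ω := hui.sub (ci hb c)
  have hv2 : MemLp (ex Ω fun x => u x - c) 2 := ex_mem hm (h.u2.sub (memLp_const c))
  have hgi : ∀ e : ℂ, IntegrableOn (fun x => (inner ℝ (G x) e : ℝ)) Ω := fun e => hGi.inner_const e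
  have hg2 : ∀ e : ℂ, MemLp (ex Ω fun x => (inner ℝ (G x) e : ℝ)) 2 := fun e =>
    ex_mem hm (h.G2.inner_const e)
  have hsupp : ∀ (r : ℂ → ℝ) (hr : MemLp (ex Ω r) 2), ∀ᵐ x : ℂ, x ∉ Ω →
      (hr.toLp (ex Ω r)) x = 0 := by
    intro r hr
    filter_upwards [hr.coeFn_toLp] with x hx hxΩ
    rw [hx]
    exact indicator_of_notMem hxΩ _
  have hon : ∀ (r : ℂ → ℝ) (hr : MemLp (ex Ω r) 2), ∀ᵐ x : ℂ, x ∈ Ω →
      (hr.toLp (ex Ω r)) x = (r x : ℂ) := by
    intro r hr
    filter_upwards [hr.coeFn_toLp] with x hx hxΩ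
    rw [hx]
    exact indicator_of_mem hxΩ _
  have hreal : ∀ (r : ℂ → ℝ) (hr : MemLp (ex Ω r) 2), ∀ᵐ x : ℂ,
      ((hr.toLp (ex Ω r)) x).im = 0 := by
    intro r hr
    filter_upwards [hr.coeFn_toLp] with x hx
    rw [hx]
    unfold ex
    by_cases hxΩ : x ∈ Ω
    · rw [indicator_of_mem hxΩ, Complex.ofReal_im]
    · rw [indicator_of_notMem hxΩ, Complex.zero_im]
  refine ⟨hv2.toLp _, (hg2 1).toLp _, (hg2 Complex.I).toLp _, ho, hb, hne, hfr, hlam, hc0,
    hsupp _ _, hsupp _ _, hsupp _ _, hreal _ _, hreal _ _, hreal _ _, ?_, ?_, ?_, ?_, ?_⟩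
  · filter_upwards [ft_ex hm (hgi 1) (hg2 1), ft_ex hm hvi hv2] with ξ h1 h2
    rw [h1, h2, sol_grad h hb hm]
  · filter_upwards [ft_ex hm (hgi Complex.I) (hg2 Complex.I), ft_ex hm hvi hv2] with ξ h1 h2
    rw [h1, h2, sol_grad h hb hm]
  · filter_upwards [ft_ex hm (ci hb 1) (one_mem hm hb), ft_ex hm hvi hv2] with ξ h1 h2
    rw [h2, sol_eq h hb hm]
    unfold oneH
    rw [h1]
  · have e1 : ∫ x in Ω, (hv2.toLp (ex Ω fun x => u x - c)) x = ∫ x in Ω, ((u x - c : ℝ) : ℂ) := by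
      refine setIntegral_congr_ae hm ?_
      exact hon _ hv2
    rw [e1, integral_complex_ofReal, ← Complex.ofReal_neg]
    congr 1
    have w := (weak_all hb hm h.h1 h.h2 (fun _ => 1) contDiff_const).2
    have e2 : ∫ x in Ω, u x * 1 = ∫ x in Ω, u x := by simp
    rw [e2] at w
    have e3 : ∫ x in Ω, (fderiv ℝ (fun _ : ℂ => (1 : ℝ)) x) (G x) = 0 := by simp
    rw [e3] at w
    have e4 : ∫ x in Ω, u x = 0 := by
      rcases mul_eq_zero.1 w.symm with h' | h'
      · exact absurd h' hlam.ne'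
      · exact h'
    rw [integral_sub hui (ci hb c), e4, setIntegral_const, Measure.real]
    simp only [smul_eq_mul]
    ring
  · intro B hBo hB hBn hg hv
    -- test with a bump function
    obtain ⟨x0, hx0⟩ := hBn
    obtain ⟨δ, hδ, hball⟩ := Metric.isOpen_iff.1 hBo x0 hx0
    let χ : ContDiffBump x0 := ⟨δ / 4, δ / 2, by linarith, by linarith⟩
    have hχs : ∀ x, x ∉ B → x ∉ tsupport χ := by
      intro x hx hx2
      apply hx
      apply hball
      rw [χ.tsupport_eq] at hx2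
      have h1 : x ∈ Metric.closedBall x0 (δ / 2) := hx2
      rw [Metric.mem_closedBall] at h1
      rw [Metric.mem_ball]
      linarith
    have h2 := h.h2 χ χ.contDiff χ.hasCompactSupport
    have hGz : ∀ᵐ x : ℂ, x ∈ B → G x = 0 := by
      filter_upwards [hg, hon _ (hg2 1), hon _ (hg2 Complex.I)] with x h1 h3 h4 hxB
      obtain ⟨a1, a2⟩ := h1 hxB
      rw [h3 (hB hxB), Complex.ofReal_eq_zero] at a1
      rw [h4 (hB hxB), Complex.ofReal_eq_zero] at a2
      rw [Complex.inner] at a1 a2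
      simp only [mul_one, Complex.conj_re, Complex.mul_re, Complex.I_re, mul_zero, Complex.I_im,
        Complex.conj_im] at a1 a2
      apply Complex.ext
      · simpa using a1
      · simp only [Complex.zero_im]
        linarith
    have huz : ∀ᵐ x : ℂ, x ∈ B → u x = c := by
      filter_upwards [hv, hon _ hv2] with x h1 h3 hxB
      have a1 := h1 hxB
      rw [h3 (hB hxB), Complex.ofReal_eq_zero] at a1
      linarith
    have e1 : ∫ x in Ω, fderiv ℝ χ x (G x) = 0 := by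
      rw [← integral_indicator hm]
      refine integral_eq_zero_of_ae ?_
      filter_upwards [hGz] with x hx
      by_cases hxΩ : x ∈ Ω
      · rw [indicator_of_mem hxΩ]
        by_cases hxB : x ∈ B
        · rw [hx hxB]
          simp
        · have hx3 : fderiv ℝ χ x = 0 := by
            by_contra hne
            exact hχs x hxB (support_fderiv_subset ℝ hne)
          rw [hx3]
          simp
      · rw [indicator_of_notMem hxΩ]
        rfl
    have e2 : ∫ x in Ω, u x * χ x = c * ∫ x, χ x := by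
      rw [← integral_indicator hm, ← integral_const_mul]
      refine integral_congr_ae ?_
      filter_upwards [huz] with x hx
      by_cases hxΩ : x ∈ Ω
      · rw [indicator_of_mem hxΩ]
        by_cases hxB : x ∈ B
        · rw [hx hxB]
        · have hx3 : χ x = 0 := by
            by_contra hne
            exact hχs x hxB (subset_tsupport _ hne)
          rw [hx3]
          simp
      · rw [indicator_of_notMem hxΩ]
        have hx3 : χ x = 0 := by
          by_contra hne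
          exact hχs x (fun hh => hxΩ (hB hh)) (subset_tsupport _ hne)
        rw [hx3]
        simp
    rw [e1, e2] at h2
    have hpos : 0 < ∫ x, χ x := χ.integral_pos
    have : lam * (c * ∫ x, χ x) ≠ 0 := by positivity
    exact this h2.symm

end Pool.Agent.X103.Nest
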