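import Pool.Agent.X103.NestC

/-!
# The pairing of two solutions on nested or disjoint sets
-/

set_option autoImplicit false

open MeasureTheory Set FourierTransform
open scoped ENNReal ComplexConjugate

noncomputable section

namespace Pool.Agent.X103.Nest

/-- `k` is `2 π |ξ|` times the transform of `f` -/
def Kf (f k : H) : Prop :=
  (k : ℂ → ℂ) =ᵐ[volume] fun ξ => ((2 * Real.pi * ‖ξ‖ : ℝ) : ℂ) * (𝓕 f : H) ξ

theorem Kf.add {f f' k k' : H} (h : Kf f k) (h' : Kf f' k') : Kf (f + f') (k + k') := by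
  have e : (𝓕 (f + f') : H) = 𝓕 f + 𝓕 f' := FourierTransform.fourier_add f f'
  unfold Kf at *
  rw [e]
  filter_upwards [h, h', Lp.coeFn_add k k', Lp.coeFn_add (𝓕 f : H) (𝓕 f')] with ξ h1 h2 h3 h4
  rw [h3, h4, Pi.add_apply, Pi.add_apply, h1, h2]
  ring

theorem Kf.smul (a : ℂ) {f k : H} (h : Kf f k) : Kf (a • f) (a • k) := by
  have e : (𝓕 (a • f) : H) = a • 𝓕 f := FourierTransform.fourier_smul a f
  unfold Kf at *
  rw [e]
  filter_upwards [h, Lp.coeFn_smul a k, Lp.coeFn_smul a (𝓕 f : H)] with ξ h1 h3 h4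
  rw [h3, h4, Pi.smul_apply, Pi.smul_apply, h1, smul_eq_mul, smul_eq_mul]
  ring

theorem Kf.zero : Kf 0 0 := by
  have e : (𝓕 (0 : H) : H) = 0 := by simp
  unfold Kf
  rw [e]
  filter_upwards [Lp.coeFn_zero ℂ 2 (volume : Measure ℂ)] with ξ h
  rw [h]
  simp

theorem Kf.sum {ι : Type*} (s : Finset ι) {f k : ι → H} (h : ∀ i ∈ s, Kf (f i) (k i)) :
    Kf (∑ i ∈ s, f i) (∑ i ∈ s, k i) := by
  classical
  induction s using Finset.induction_on with
  | empty => simpa using Kf.zero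
  | insert a s ha ih =>
    rw [Finset.sum_insert ha, Finset.sum_insert ha]
    exact (h a (Finset.mem_insert_self a s)).add
      (ih fun i hi => h i (Finset.mem_insert_of_mem hi))

theorem sy_norm (e ξ : ℂ) : ‖sy e ξ‖ ≤ ‖e‖ * (2 * Real.pi * ‖ξ‖) := by
  unfold sy
  have h1 : |(inner ℝ ξ e : ℝ)| ≤ ‖ξ‖ * ‖e‖ := abs_real_inner_le_norm ξ e
  have hpi := Real.pi_pos
  simp only [norm_mul, Complex.norm_I, Complex.norm_real, Complex.norm_ofNat, Real.norm_eq_abs,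
    mul_one, abs_of_pos hpi]
  calc 2 * Real.pi * |(inner ℝ ξ e : ℝ)| ≤ 2 * Real.pi * (‖ξ‖ * ‖e‖) :=
        mul_le_mul_of_nonneg_left h1 (by positivity)
    _ = ‖e‖ * (2 * Real.pi * ‖ξ‖) := by ring

theorem sy_meas (e : ℂ) : AEStronglyMeasurable (sy e) (volume : Measure ℂ) := by
  have : Continuous (sy e) := by
    unfold sy
    fun_prop
  exact this.aestronglyMeasurable

theorem Kf.exT {f k : H} (h : Kf f k) (e : ℂ) : ∃ T : H, Der e f T := by
  have h1 : MemLp (fun ξ => sy e ξ * (𝓕 f : H) ξ) 2 (volume : Measure ℂ) := by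
    refine MemLp.of_le_mul (g := (k : ℂ → ℂ)) (c := ‖e‖) (Lp.memLp k)
      ((sy_meas e).mul (Lp.memLp (𝓕 f : H)).1) ?_
    filter_upwards [h] with ξ hξ
    rw [hξ, norm_mul, norm_mul, ← mul_assoc]
    refine mul_le_mul_of_nonneg_right ?_ (norm_nonneg _)
    refine (sy_norm e ξ).trans (le_of_eq ?_)
    rw [Complex.norm_real, Real.norm_of_nonneg (by have := Real.pi_pos; positivity)]
  refine ⟨𝓕⁻ (h1.toLp _), ?_⟩
  unfold Der
  rw [FourierTransform.fourier_fourierInv_eq]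
  exact h1.coeFn_toLp

theorem Kf.kin_le {f k : H} (h : Kf f k) {Λ : ℝ} (hk : ‖k‖ ^ 2 ≤ Λ * ‖f‖ ^ 2) :
    kin f ≤ ENNReal.ofReal (Λ / (4 * Real.pi ^ 2) * ‖f‖ ^ 2) := by
  have hpi := Real.pi_pos
  have h1 : ENNReal.ofReal (4 * Real.pi ^ 2) * kin f = ENNReal.ofReal (‖k‖ ^ 2) := by
    rw [← norm_sq_eq k]
    unfold kin
    rw [← lintegral_const_mul' _ _ ENNReal.ofReal_ne_top]
    refine lintegral_congr_ae ?_
    filter_upwards [h] with ξ hξ
    rw [hξ, enorm_mul, mul_pow, ← mul_assoc]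
    congr 1
    rw [← ENNReal.ofReal_mul (by positivity), ← ofReal_norm, Complex.norm_real,
      Real.norm_of_nonneg (by positivity), ← ENNReal.ofReal_pow (by positivity)]
    congr 1
    ring
  have h2 : ENNReal.ofReal (4 * Real.pi ^ 2) * kin f ≤
      ENNReal.ofReal (4 * Real.pi ^ 2) * ENNReal.ofReal (Λ / (4 * Real.pi ^ 2) * ‖f‖ ^ 2) := by
    rw [h1, ← ENNReal.ofReal_mul (by positivity)]
    refine ENNReal.ofReal_le_ofReal (hk.trans (le_of_eq ?_))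
    field_simp
  have h3 : ENNReal.ofReal (4 * Real.pi ^ 2) ≠ 0 := by
    rw [Ne, ENNReal.ofReal_eq_zero, not_le]
    positivity
  exact (ENNReal.mul_le_mul_iff_right h3 ENNReal.ofReal_ne_top).1 h2

section dm

variable {Ω : Set ℂ} {lam c : ℝ} {v g1 g2 : H}

theorem Dm.sq (h : Dm Ω lam c v g1 g2) :
    MemLp (fun ξ : ℂ => ((4 * Real.pi ^ 2 * ‖ξ‖ ^ 2 : ℝ) : ℂ) * (𝓕 v : H) ξ) 2 volume := by
  have h1 : MemLp (((lam : ℂ) • (𝓕 v : H) + ((lam * c : ℝ) : ℂ) •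
      (𝓕 (oneH Ω h.ho.measurableSet h.hb) : H) : H) : ℂ → ℂ) 2 volume := Lp.memLp _
  refine (memLp_congr_ae ?_).1 h1
  filter_upwards [h.eq, Lp.coeFn_add ((lam : ℂ) • (𝓕 v : H)) (((lam * c : ℝ) : ℂ) •
      (𝓕 (oneH Ω h.ho.measurableSet h.hb) : H)), Lp.coeFn_smul (lam : ℂ) (𝓕 v : H),
      Lp.coeFn_smul ((lam * c : ℝ) : ℂ) (𝓕 (oneH Ω h.ho.measurableSet h.hb) : H)] with ξ e1 e2 e3 e4
  rw [e2, Pi.add_apply, e3, e4, Pi.smul_apply, Pi.smul_apply, smul_eq_mul, smul_eq_mul, ← e1]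
  push_cast
  ring

theorem kf_of {f : H} (h : MemLp (fun ξ : ℂ => ((2 * Real.pi * ‖ξ‖ : ℝ) : ℂ) * (𝓕 f : H) ξ) 2
    volume) : ∃ k, Kf f k := ⟨h.toLp _, h.coeFn_toLp⟩

theorem mul_meas (f : H) : AEStronglyMeasurable
    (fun ξ : ℂ => ((2 * Real.pi * ‖ξ‖ : ℝ) : ℂ) * (𝓕 f : H) ξ) volume :=
  (by fun_prop : Continuous fun ξ : ℂ => ((2 * Real.pi * ‖ξ‖ : ℝ) : ℂ)).aestronglyMeasurable.mul
    (Lp.memLp (𝓕 f : H)).1

theorem Dm.kv (h : Dm Ω lam c v g1 g2) : ∃ k, Kf v k := by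
  have hpi := Real.pi_pos
  refine kf_of ?_
  have h1 := (h.sq.norm.add (Lp.memLp (𝓕 v : H)).norm)
  refine MemLp.of_le_mul (c := 1) h1 (mul_meas v) (Filter.Eventually.of_forall fun ξ => ?_)
  simp only [Pi.add_apply]
  rw [norm_mul, norm_mul, Complex.norm_real, Complex.norm_real,
    Real.norm_of_nonneg (by positivity), Real.norm_of_nonneg (by positivity), one_mul,
    Real.norm_of_nonneg (by positivity)]
  have h2 : 2 * Real.pi * ‖ξ‖ ≤ 4 * Real.pi ^ 2 * ‖ξ‖ ^ 2 + 1 := by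
    nlinarith [sq_nonneg (2 * Real.pi * ‖ξ‖ - 1), sq_nonneg (2 * Real.pi * ‖ξ‖)]
  calc 2 * Real.pi * ‖ξ‖ * ‖(𝓕 v : H) ξ‖ ≤ (4 * Real.pi ^ 2 * ‖ξ‖ ^ 2 + 1) * ‖(𝓕 v : H) ξ‖ :=
        mul_le_mul_of_nonneg_right h2 (norm_nonneg _)
    _ = _ := by ring

theorem Dm.kg (h : Dm Ω lam c v g1 g2) {e : ℂ} {g : H} (hd : Der e v g) : ∃ k, Kf g k := by
  have hpi := Real.pi_pos
  refine kf_of ?_
  refine MemLp.of_le_mul (c := ‖e‖) h.sq (mul_meas g) ?_
  filter_upwards [hd] with ξ hξ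
  rw [hξ, norm_mul, norm_mul, norm_mul, Complex.norm_real, Complex.norm_real,
    Real.norm_of_nonneg (by positivity), Real.norm_of_nonneg (by positivity)]
  calc 2 * Real.pi * ‖ξ‖ * (‖sy e ξ‖ * ‖(𝓕 v : H) ξ‖)
      ≤ 2 * Real.pi * ‖ξ‖ * (‖e‖ * (2 * Real.pi * ‖ξ‖) * ‖(𝓕 v : H) ξ‖) := by
        refine mul_le_mul_of_nonneg_left ?_ (by positivity)
        exact mul_le_mul_of_nonneg_right (sy_norm e ξ) (norm_nonneg _)
    _ = _ := by ring

/-- combinations of the data -/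
def el (v g1 g2 : H) (z : Fin 3 → ℂ) : H := z 0 • v + z 1 • g1 + z 2 • g2

theorem Dm.ex_kf (h : Dm Ω lam c v g1 g2) (z : Fin 3 → ℂ) : ∃ k, Kf (el v g1 g2 z) k := by
  obtain ⟨k0, h0⟩ := h.kv
  obtain ⟨k1, h1⟩ := h.kg h.d1
  obtain ⟨k2, h2⟩ := h.kg h.d2
  exact ⟨_, ((h0.smul (z 0)).add (h1.smul (z 1))).add (h2.smul (z 2))⟩

theorem supp_smul {Ω : Set ℂ} {f : H} (hf : ∀ᵐ x : ℂ, x ∉ Ω → f x = 0) (a : ℂ) :
    ∀ᵐ x : ℂ, x ∉ Ω → (a • f : H) x = 0 := by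
  filter_upwards [hf, Lp.coeFn_smul a f] with x h1 h2 hx
  rw [h2, Pi.smul_apply, h1 hx, smul_zero]

theorem supp_add {Ω : Set ℂ} {f g : H} (hf : ∀ᵐ x : ℂ, x ∉ Ω → f x = 0)
    (hg : ∀ᵐ x : ℂ, x ∉ Ω → g x = 0) : ∀ᵐ x : ℂ, x ∉ Ω → (f + g : H) x = 0 := by
  filter_upwards [hf, hg, Lp.coeFn_add f g] with x h1 h2 h3 hx
  rw [h3, Pi.add_apply, h1 hx, h2 hx, add_zero]

theorem Dm.el_supp (h : Dm Ω lam c v g1 g2) (z : Fin 3 → ℂ) :
    ∀ᵐ x : ℂ, x ∉ Ω → (el v g1 g2 z) x = 0 :=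
  supp_add (supp_add (supp_smul h.sv _) (supp_smul h.s1 _)) (supp_smul h.s2 _)

theorem el_coe (v g1 g2 : H) (z : Fin 3 → ℂ) :
    ∀ᵐ x : ℂ, (el v g1 g2 z) x = z 0 * v x + z 1 * g1 x + z 2 * g2 x := by
  unfold el
  filter_upwards [Lp.coeFn_add (z 0 • v + z 1 • g1) (z 2 • g2),
    Lp.coeFn_add (z 0 • v) (z 1 • g1), Lp.coeFn_smul (z 0) v, Lp.coeFn_smul (z 1) g1,
    Lp.coeFn_smul (z 2) g2] with x e1 e2 e3 e4 e5
  rw [e1, Pi.add_apply, e2, Pi.add_apply, e3, e4, e5]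
  simp only [Pi.smul_apply, smul_eq_mul]

theorem ft_el (v g1 g2 : H) (z : Fin 3 → ℂ) :
    (𝓕 (el v g1 g2 z) : H) = el (𝓕 v) (𝓕 g1) (𝓕 g2) z := by
  unfold el
  rw [FourierTransform.fourier_add, FourierTransform.fourier_add,
    FourierTransform.fourier_smul, FourierTransform.fourier_smul,
    FourierTransform.fourier_smul]

theorem Dm.el_ft (h : Dm Ω lam c v g1 g2) (z : Fin 3 → ℂ) :
    ∀ᵐ ξ : ℂ, (𝓕 (el v g1 g2 z) : H) ξ =
      (z 0 + z 1 * sy 1 ξ + z 2 * sy Complex.I ξ) * (𝓕 v : H) ξ := by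
  rw [ft_el]
  filter_upwards [el_coe (𝓕 v) (𝓕 g1) (𝓕 g2) z, h.d1, h.d2] with ξ e1 e2 e3
  rw [e1, e2, e3]
  ring

theorem on_int {B : Set ℂ} (hb : Bornology.IsBounded B) (f : H) : IntegrableOn (f : ℂ → ℂ) B := by
  have : IsFiniteMeasure (volume.restrict B) := Pool.Agent.TH298.Sch.Sol.fin hb
  exact ((Lp.memLp f).restrict B).integrable (by norm_num)

theorem one_inner {B : Set ℂ} (hm : MeasurableSet B) (hb : Bornology.IsBounded B) (f : H) :
    inner ℂ (oneH B hm hb) f = ∫ x in B, f x := by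
  rw [L2.inner_def, ← integral_indicator hm]
  refine integral_congr_ae ?_
  unfold oneH
  filter_upwards [(one_mem hm hb).coeFn_toLp] with x hx
  rw [hx, RCLike.inner_apply]
  unfold ex
  by_cases hxB : x ∈ B
  · rw [indicator_of_mem hxB, indicator_of_mem hxB]
    simp
  · rw [indicator_of_notMem hxB, indicator_of_notMem hxB]
    simp

/-- the inner set is contained in the outer one up to a null set, or the two are disjoint -/
def Rel (Ω Ω' : Set ℂ) : Prop := (Ω ⊆ Ω' ∧ volume (closure Ω \ Ω') = 0) ∨ Disjoint Ω' Ω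

theorem Dm.rel_int (h : Dm Ω lam c v g1 g2) {Ω' : Set ℂ} (ho' : IsOpen Ω') (hr : Rel Ω Ω')
    {e : ℂ} {f K : H} (hf : ∀ᵐ x : ℂ, x ∉ Ω → f x = 0) (hd : Der e f K) :
    ∫ x in Ω', K x = 0 := by
  rcases hr with ⟨_, hr⟩ | hr
  · exact der_int hd hf h.hb ho'.measurableSet hr
  · exact der_int' hd hf ho' hr

theorem Dm.rel_v (h : Dm Ω lam c v g1 g2) {Ω' : Set ℂ} (ho' : IsOpen Ω') (hr : Rel Ω Ω') :
    ∫ x in Ω', v x = -((c * (volume (Ω ∩ Ω')).toReal : ℝ) : ℂ) := by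
  rcases hr with ⟨hr, _⟩ | hr
  · rw [inter_eq_left.2 hr, ← h.mean, ← integral_indicator ho'.measurableSet,
      ← integral_indicator h.ho.measurableSet]
    refine integral_congr_ae ?_
    filter_upwards [h.sv] with x hx
    by_cases hxΩ : x ∈ Ω
    · rw [indicator_of_mem hxΩ, indicator_of_mem (hr hxΩ)]
    · rw [indicator_of_notMem hxΩ]
      by_cases hxΩ' : x ∈ Ω'
      · rw [indicator_of_mem hxΩ', hx hxΩ]
      · rw [indicator_of_notMem hxΩ']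
  · rw [(disjoint_iff_inter_eq_empty.1 hr.symm), measure_empty, ENNReal.toReal_zero, mul_zero,
      Complex.ofReal_zero, neg_zero, ← integral_indicator ho'.measurableSet]
    refine integral_eq_zero_of_ae ?_
    filter_upwards [h.sv] with x hx
    by_cases hxΩ' : x ∈ Ω'
    · rw [indicator_of_mem hxΩ', hx (fun hh => disjoint_left.1 hr hxΩ' hh)]
      rfl
    · rw [indicator_of_notMem hxΩ']
      rfl

/-- **The pairing.** -/
theorem pair (h : Dm Ω lam c v g1 g2) {Ω' : Set ℂ} {lam' c' : ℝ} {v' g1' g2' : H}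
    (h' : Dm Ω' lam' c' v' g1' g2') (hr : Rel Ω Ω') (z z' : Fin 3 → ℂ) {k k' : H}
    (hk : Kf (el v g1 g2 z) k) (hk' : Kf (el v' g1' g2' z') k') :
    inner ℂ k' k - (lam' : ℂ) * inner ℂ (el v' g1' g2' z') (el v g1 g2 z) =
      -((lam' : ℂ) * (c * z 0) * conj (c' * z' 0) * ((volume (Ω ∩ Ω')).toReal : ℂ)) := by
  obtain ⟨T1, hT1⟩ := hk.exT 1
  obtain ⟨T2, hT2⟩ := hk.exT Complex.I
  set f := el v g1 g2 z with hf
  set f' := el v' g1' g2' z' with hf'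
  have hm' := h'.ho.measurableSet
  have hb' := h'.hb
  have hA : inner ℂ k' k - (lam' : ℂ) * inner ℂ f' f =
      ((lam' * c' : ℝ) : ℂ) * inner ℂ (oneH Ω' hm' hb')
        (el f T1 T2 ![conj (z' 0), -conj (z' 1), -conj (z' 2)]) := by
    rw [← Lp.inner_fourier_eq f' f, ← Lp.inner_fourier_eq (oneH Ω' hm' hb'), ft_el f T1 T2,
      L2.inner_def, L2.inner_def, L2.inner_def, ← integral_const_mul, ← integral_const_mul,
      ← integral_sub (L2.integrable_inner _ _) ((L2.integrable_inner _ _).const_mul _)]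
    refine integral_congr_ae ?_
    filter_upwards [hk, hk', h'.el_ft z', h'.eq, hT1, hT2,
      el_coe (𝓕 f) (𝓕 T1) (𝓕 T2) ![conj (z' 0), -conj (z' 1), -conj (z' 2)]]
      with ξ e1 e2 e3 e4 e5 e6 e7
    simp only [RCLike.inner_apply]
    rw [e7, e5, e6, e1, e2, hf', e3]
    have e4' := congrArg conj e4
    simp only [map_mul, Complex.conj_ofReal] at e4'
    simp only [map_mul, map_add, Complex.conj_ofReal, sy_conj, Matrix.cons_val_zero,
      Matrix.cons_val_one, Matrix.cons_val]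
    push_cast at e4' ⊢
    linear_combination (conj (z' 0) - conj (z' 1) * sy 1 ξ - conj (z' 2) * sy Complex.I ξ) *
      (𝓕 f : H) ξ * e4'
  have hfs := h.el_supp z
  have i1 : ∫ x in Ω', T1 x = 0 := h.rel_int h'.ho hr hfs hT1
  have i2 : ∫ x in Ω', T2 x = 0 := h.rel_int h'.ho hr hfs hT2
  have j1 : ∫ x in Ω', g1 x = 0 := h.rel_int h'.ho hr h.sv h.d1
  have j2 : ∫ x in Ω', g2 x = 0 := h.rel_int h'.ho hr h.sv h.d2
  have jv := h.rel_v h'.ho hr
  have el_int : ∀ (a b d : H) (w : Fin 3 → ℂ), ∫ x in Ω', (el a b d w) x =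
      w 0 * (∫ x in Ω', a x) + w 1 * (∫ x in Ω', b x) + w 2 * (∫ x in Ω', d x) := by
    intro a b d w
    have ia := on_int hb' a
    have ib := on_int hb' b
    have id' := on_int hb' d
    have e1 : ∫ x in Ω', (el a b d w) x =
        ∫ x in Ω', (w 0 * a x + w 1 * b x + w 2 * d x) :=
      integral_congr_ae (ae_restrict_of_ae (el_coe a b d w))
    have e2 : Integrable (fun x => w 0 * a x + w 1 * b x) (volume.restrict Ω') :=
      (ia.const_mul _).add (ib.const_mul _)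
    rw [e1, integral_add e2 (id'.const_mul _), integral_add (ia.const_mul _) (ib.const_mul _),
      integral_const_mul, integral_const_mul, integral_const_mul]
  have jf : ∫ x in Ω', f x = -(z 0 * ((c * (volume (Ω ∩ Ω')).toReal : ℝ) : ℂ)) := by
    rw [hf, el_int, j1, j2, jv]
    ring
  rw [hA, one_inner, el_int, i1, i2, jf]
  simp only [Matrix.cons_val_zero, map_mul, Complex.conj_ofReal]
  push_cast
  ring

end dm

end Pool.Agent.X103.Nest
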