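import Pool.Agent.X103.NestD

/-!
# Invariance under translations, half-planes and independence
-/

set_option autoImplicit false

open MeasureTheory Set FourierTransform
open scoped ENNReal ComplexConjugate ContDiff

noncomputable section

namespace Pool.Agent.X103.Nest

theorem tinv {a : ℂ} (ha : a ≠ 0) {v K : H} (hd : Der a v K) {Ω : Set ℂ}
    (hb : Bornology.IsBounded Ω) (hv : ∀ᵐ x : ℂ, x ∉ Ω → v x = 0) {U : Set ℂ} (hU : IsOpen U)
    (hinv : ∀ x ∈ U, ∀ t : ℝ, x + t • a ∈ U) (hK : ∀ᵐ x : ℂ, x ∈ U → K x = 0) :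
    ∀ᵐ x : ℂ, x ∈ U → v x = 0 := by
  refine hU.ae_eq_zero_of_integral_contDiff_smul_eq_zero (μ := volume)
    (f := (v : ℂ → ℂ)) (((Lp.memLp v).locallyIntegrable (by norm_num)).locallyIntegrableOn _) ?_
  intro φ hφ hc hs
  have hvi : Integrable (v : ℂ → ℂ) := by
    refine int_of_supp isClosed_closure.measurableSet (hb.closure.measure_lt_top.ne) v ?_
    filter_upwards [hv] with x hx h
    exact hx fun h' => h (subset_closure h')
  have hφ1 : Continuous (fderiv ℝ φ) := hφ.continuous_fderiv (by simp)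
  have hcf : HasCompactSupport (fderiv ℝ φ) := hc.fderiv (𝕜 := ℝ)
  obtain ⟨C, hC⟩ := hcf.exists_bound_of_continuous hφ1
  obtain ⟨M, hM⟩ := hc.exists_bound_of_continuous hφ.continuous
  set F : ℝ → ℂ := fun t => ∫ x, φ (x - t • a) • v x with hF
  have hder : ∀ t, HasDerivAt F 0 t := by
    intro t
    have hsub : Continuous fun x : ℂ => x - t • a := by fun_prop
    have h1 := (hasDerivAt_integral_of_dominated_loc_of_deriv_le (μ := (volume : Measure ℂ))
      (𝕜 := ℝ) (F := fun (t : ℝ) (x : ℂ) => φ (x - t • a) • v x)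
      (F' := fun t x => (-(fderiv ℝ φ (x - t • a) a)) • v x) (x₀ := t) (s := univ)
      (bound := fun x => C * ‖a‖ * ‖v x‖) Filter.univ_mem ?_ ?_ ?_ ?_ ?_ ?_).2
    · have h2 : ∫ x, (-(fderiv ℝ φ (x - t • a) a)) • v x = 0 := by
        have hφt : ContDiff ℝ ∞ fun x : ℂ => φ (x - t • a) := by fun_prop
        have hct : HasCompactSupport fun x : ℂ => φ (x - t • a) := by
          have := hc.comp_homeomorph (Homeomorph.subRight (t • a))
          exact this
        have h3 := der_test hd _ hφt hct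
        have h4 : ∫ x, φ (x - t • a) • K x = 0 := by
          refine integral_eq_zero_of_ae ?_
          filter_upwards [hK] with x hx
          by_cases hxU : x ∈ U
          · rw [hx hxU, smul_zero]
            rfl
          · have h5 : φ (x - t • a) = 0 := by
              by_contra hne
              apply hxU
              have h6 := hinv _ (hs (subset_tsupport _ hne)) t
              rwa [sub_add_cancel] at h6
            rw [h5, zero_smul]
            rfl
        rw [h4] at h3
        have h5 : ∀ x, fderiv ℝ (fun x : ℂ => φ (x - t • a)) x = fderiv ℝ φ (x - t • a) :=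
          fun x => fderiv_comp_sub _
        simp only [h5] at h3
        rw [h3, ← integral_neg]
        refine integral_congr_ae (Filter.Eventually.of_forall fun x => ?_)
        simp only
        rw [neg_smul]
      rw [h2] at h1
      exact h1
    · refine Filter.Eventually.of_forall fun s => ?_
      have : Continuous fun x : ℂ => φ (x - s • a) := hφ.continuous.comp (by fun_prop)
      exact this.aestronglyMeasurable.smul (Lp.memLp v).1
    · exact hvi.bdd_smul M (hφ.continuous.comp hsub).aestronglyMeasurable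
        (Filter.Eventually.of_forall fun x => hM _)
    · have : Continuous fun x : ℂ => -(fderiv ℝ φ (x - t • a) a) :=
        ((hφ1.comp hsub).clm_apply continuous_const).neg
      exact this.aestronglyMeasurable.smul (Lp.memLp v).1
    · refine Filter.Eventually.of_forall fun x s _ => ?_
      rw [norm_smul, norm_neg]
      refine mul_le_mul_of_nonneg_right ?_ (norm_nonneg _)
      exact (ContinuousLinearMap.le_opNorm _ _).trans
        (mul_le_mul_of_nonneg_right (hC _) (norm_nonneg _))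
    · exact hvi.norm.const_mul _
    · refine Filter.Eventually.of_forall fun x s _ => ?_
      have h1 : HasDerivAt (fun s : ℝ => x - s • a) (-a) s := by
        have := ((hasDerivAt_id s).smul_const a).const_sub x
        simpa using this
      have h2 : HasFDerivAt φ (fderiv ℝ φ (x - s • a)) (x - s • a) :=
        (hφ.differentiable (by simp) _).hasFDerivAt
      have h3 := h2.comp_hasDerivAt s h1
      have h4 : HasDerivAt (fun s : ℝ => φ (x - s • a)) (-(fderiv ℝ φ (x - s • a) a)) s := by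
        have e : (fderiv ℝ φ (x - s • a)) (-a) = -(fderiv ℝ φ (x - s • a) a) := map_neg _ _
        rw [← e]
        exact h3
      exact h4.smul_const (v x)
  have hconst := is_const_of_deriv_eq_zero (f := F) (fun t => (hder t).differentiableAt)
    (fun t => (hder t).deriv)
  obtain ⟨R, hR⟩ := hb.subset_closedBall 0
  obtain ⟨R', hR'⟩ := hc.isBounded.subset_closedBall 0
  set t : ℝ := (|R| + |R'| + 1) / ‖a‖ with ht
  have hna : 0 < ‖a‖ := norm_pos_iff.2 ha
  have hta : ‖t • a‖ = |R| + |R'| + 1 := by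
    rw [norm_smul, ht, Real.norm_of_nonneg (by positivity)]
    field_simp
  have h0 : F t = 0 := by
    rw [hF]
    refine integral_eq_zero_of_ae ?_
    filter_upwards [hv] with x hx
    by_cases hxΩ : x ∈ Ω
    · have h1 : ‖x‖ ≤ R := by simpa using hR hxΩ
      have h2 : φ (x - t • a) = 0 := by
        by_contra hne
        have h3 := hR' (subset_tsupport _ hne)
        rw [mem_closedBall_zero_iff] at h3
        have h4 : ‖t • a‖ ≤ ‖x‖ + ‖x - t • a‖ := by
          have := norm_sub_le x (x - t • a)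
          simpa using this
        rw [hta] at h4
        linarith [le_abs_self R, le_abs_self R']
      rw [h2, zero_smul]
      rfl
    · rw [hx hxΩ, smul_zero]
      rfl
  have h1 := hconst 0 t
  rw [h0, hF] at h1
  simpa using h1

/-- a half-plane which misses a compact subset of an open set but meets the open set -/
theorem half {K Ω : Set ℂ} (hK : IsCompact K) (ho : IsOpen Ω) (hne : Ω.Nonempty) (hKΩ : K ⊆ Ω)
    {e : ℂ} (he : e ≠ 0) :
    ∃ σ : ℝ, (∀ x ∈ K, inner ℝ x e ≤ σ) ∧ ∃ x ∈ Ω, σ < inner ℝ x e := by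
  rcases K.eq_empty_or_nonempty with h0 | h0
  · obtain ⟨x, hx⟩ := hne
    refine ⟨inner ℝ x e - 1, ?_, x, hx, by linarith⟩
    rw [h0]
    simp
  · have hc : ContinuousOn (fun x : ℂ => (inner ℝ x e : ℝ)) K := by fun_prop
    obtain ⟨y, hy, hmax⟩ := hK.exists_isMaxOn h0 hc
    refine ⟨inner ℝ y e, fun x hx => hmax hx, ?_⟩
    obtain ⟨δ, hδ, hball⟩ := Metric.isOpen_iff.1 ho y (hKΩ hy)
    have hne : 0 < ‖e‖ := norm_pos_iff.2 he
    refine ⟨y + (δ / (2 * ‖e‖)) • e, hball ?_, ?_⟩
    · rw [Metric.mem_ball, dist_eq_norm, add_sub_cancel_left, norm_smul,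
        Real.norm_of_nonneg (by positivity)]
      have : δ / (2 * ‖e‖) * ‖e‖ = δ / 2 := by field_simp
      rw [this]
      linarith
    · rw [inner_add_left, real_inner_smul_left, real_inner_self_eq_norm_sq]
      have : 0 < δ / (2 * ‖e‖) * ‖e‖ ^ 2 := by positivity
      linarith

theorem der_dir {v g1 g2 : H} (h1 : Der 1 v g1) (h2 : Der Complex.I v g2) (a : ℂ) :
    Der a v ((a.re : ℂ) • g1 + (a.im : ℂ) • g2) := by
  have e : (𝓕 ((a.re : ℂ) • g1 + (a.im : ℂ) • g2) : H) = (a.re : ℂ) • 𝓕 g1 + (a.im : ℂ) • 𝓕 g2 := by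
    rw [FourierTransform.fourier_add, FourierTransform.fourier_smul,
      FourierTransform.fourier_smul]
  unfold Der at *
  rw [e]
  filter_upwards [h1, h2, Lp.coeFn_add ((a.re : ℂ) • (𝓕 g1 : H)) ((a.im : ℂ) • (𝓕 g2 : H)),
    Lp.coeFn_smul (a.re : ℂ) (𝓕 g1 : H), Lp.coeFn_smul (a.im : ℂ) (𝓕 g2 : H)]
    with ξ e1 e2 e3 e4 e5
  rw [e3, Pi.add_apply, e4, e5, Pi.smul_apply, Pi.smul_apply, smul_eq_mul, smul_eq_mul, e1, e2]
  have h3 : sy a ξ = a.re * sy 1 ξ + a.im * sy Complex.I ξ := by
    unfold sy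
    rw [Complex.inner, Complex.inner, Complex.inner]
    simp
    ring
  rw [h3]
  ring

section dm

variable {Ω : Set ℂ} {lam c : ℝ} {v g1 g2 : H}

theorem Dm.key (h : Dm Ω lam c v g1 g2) {a : ℂ} (ha : a ≠ 0) {U : Set ℂ} (hU : IsOpen U)
    (hinv : ∀ x ∈ U, ∀ t : ℝ, x + t • a ∈ U) (hne : (Ω ∩ U).Nonempty)
    (hf : ∀ᵐ x : ℂ, x ∈ U → (a.re : ℂ) * g1 x + (a.im : ℂ) * g2 x = 0) : False := by
  have hK : ∀ᵐ x : ℂ, x ∈ U → ((a.re : ℂ) • g1 + (a.im : ℂ) • g2 : H) x = 0 := by
    filter_upwards [hf, Lp.coeFn_add ((a.re : ℂ) • g1) ((a.im : ℂ) • g2),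
      Lp.coeFn_smul (a.re : ℂ) g1, Lp.coeFn_smul (a.im : ℂ) g2] with x e1 e2 e3 e4 hx
    rw [e2, Pi.add_apply, e3, e4, Pi.smul_apply, Pi.smul_apply, smul_eq_mul, smul_eq_mul]
    exact e1 hx
  have hv := tinv ha (der_dir h.d1 h.d2 a) h.hb h.sv hU hinv hK
  have hz : ∀ {e : ℂ} {g : H}, Der e v g → ∀ᵐ x : ℂ, x ∈ U → g x = 0 := by
    intro e g hd
    have h1 := der_supp hd (Ω := Uᶜ) (by simpa using hv)
    rw [hU.isClosed_compl.closure_eq] at h1
    simpa using h1
  refine h.nz (Ω ∩ U) (h.ho.inter hU) inter_subset_left hne ?_ ?_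
  · filter_upwards [hz h.d1, hz h.d2] with x e1 e2 hx
    exact ⟨e1 hx.2, e2 hx.2⟩
  · filter_upwards [hv] with x e1 hx
    exact e1 hx.2

end dm

theorem vol_lt {Ω Ω' : Set ℂ} (ho' : IsOpen Ω') (hb : Bornology.IsBounded Ω)
    (hne : Ω.Nonempty) (h : closure Ω ⊆ Ω') : volume Ω < volume Ω' := by
  obtain ⟨σ, hσ, x, hx, hx2⟩ := half hb.isCompact_closure ho' (hne.mono (subset_closure.trans h)) h
    (e := 1) one_ne_zero
  have h1 : 0 < volume (Ω' \ closure Ω) := by
    refine (ho'.sdiff isClosed_closure).measure_pos volume ⟨x, hx, fun hh => ?_⟩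
    exact absurd (hσ x hh) (not_le.2 hx2)
  have h2 := measure_inter_add_sdiff (μ := volume) Ω' (isClosed_closure (s := Ω)).measurableSet
  rw [inter_eq_right.2 h] at h2
  have h3 : volume (closure Ω) ≠ ⊤ := hb.closure.measure_lt_top.ne
  calc volume Ω ≤ volume (closure Ω) := measure_mono subset_closure
    _ < volume (closure Ω) + volume (Ω' \ closure Ω) := ENNReal.lt_add_right h3 h1.ne'
    _ = volume Ω' := h2

/-- laminar families -/
def Lam {ι : Type*} (Ω : ι → Set ℂ) : Prop :=
  ∀ i j, i ≠ j → closure (Ω i) ⊆ Ω j ∨ closure (Ω j) ⊆ Ω i ∨ Disjoint (Ω i) (Ω j)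

theorem sum_coe {ι : Type*} (s : Finset ι) (f : ι → H) :
    ∀ᵐ x : ℂ, (∑ i ∈ s, f i : H) x = ∑ i ∈ s, f i x := by
  filter_upwards [Lp.coeFn_finsetSum s f] with x hx
  rw [hx]
  simp

section fam

variable {ι : Type*} [Fintype ι] {Ω : ι → Set ℂ} {lam c : ι → ℝ} {v g1 g2 : ι → H}

/-- independence over the reals -/
theorem indep_real (hd : ∀ i, Dm (Ω i) (lam i) (c i) (v i) (g1 i) (g2 i)) (hL : Lam Ω)
    (z : ι → Fin 3 → ℝ) (hA : ∑ i, el (v i) (g1 i) (g2 i) (fun m => (z i m : ℂ)) = 0)
    (hB : ∑ i, ((c i * z i 0 : ℝ) : ℂ) • oneH (Ω i) (hd i).ho.measurableSet (hd i).hb = 0) :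
    z = 0 := by
  classical
  by_contra hz
  obtain ⟨i0, hi0⟩ : ∃ i, z i ≠ 0 := by
    by_contra hh
    push Not at hh
    exact hz (funext hh)
  set S : Finset ι := Finset.univ.filter fun i => z i ≠ 0 with hS
  have hSm : ∀ i, i ∈ S ↔ z i ≠ 0 := fun i => by rw [hS]; simp
  obtain ⟨j, hj, hmax⟩ := S.exists_max_image (fun i => volume (Ω i)) ⟨i0, (hSm i0).2 hi0⟩
  set I : Finset ι := S.filter fun i => i ≠ j ∧ closure (Ω i) ⊆ Ω j with hI
  set K : Set ℂ := ⋃ i ∈ I, closure (Ω i) with hK
  have hKc : IsCompact K := I.isCompact_biUnion fun i _ => (hd i).hb.isCompact_closure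
  have hKj : K ⊆ Ω j := by
    intro x hx
    rw [hK, mem_iUnion₂] at hx
    obtain ⟨i, hi, hx⟩ := hx
    rw [hI, Finset.mem_filter] at hi
    exact hi.2.2 hx
  have hcase : ∀ i, i ≠ j → z i = 0 ∨ i ∈ I ∨ Disjoint (Ω i) (Ω j) := by
    intro i hij
    by_cases hzi : z i = 0
    · exact Or.inl hzi
    · right
      have hiS := (hSm i).2 hzi
      rcases hL i j hij with h | h | h
      · left
        rw [hI, Finset.mem_filter]
        exact ⟨hiS, hij, h⟩
      · exfalso
        have := vol_lt (hd i).ho (hd j).hb (hd j).hne h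
        exact absurd (hmax i hiS) (not_le.2 this)
      · exact Or.inr h
  have hU : ∀ e : ℂ, e ≠ 0 → ∃ σ : ℝ, (∃ x ∈ Ω j, σ < inner ℝ x e) ∧
      (∀ᵐ x : ℂ, σ < inner ℝ x e →
        (z j 0 : ℂ) * v j x + (z j 1 : ℂ) * g1 j x + (z j 2 : ℂ) * g2 j x = 0) ∧
      (∀ᵐ x : ℂ, x ∈ Ω j → σ < inner ℝ x e → c j * z j 0 = 0) := by
    intro e he
    obtain ⟨σ, hσ, x0, hx0, hx0'⟩ := half hKc (hd j).ho (hd j).hne hKj he
    refine ⟨σ, ⟨x0, hx0, hx0'⟩, ?_, ?_⟩
    · have a1 : ∀ᵐ x : ℂ, ∀ i, (el (v i) (g1 i) (g2 i) (fun m => (z i m : ℂ))) x =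
          (z i 0 : ℂ) * v i x + (z i 1 : ℂ) * g1 i x + (z i 2 : ℂ) * g2 i x := by
        rw [ae_all_iff]
        exact fun i => el_coe _ _ _ _
      have a2 : ∀ᵐ x : ℂ, ∀ i, x ∉ Ω i →
          (el (v i) (g1 i) (g2 i) (fun m => (z i m : ℂ))) x = 0 := by
        rw [ae_all_iff]
        exact fun i => (hd i).el_supp _
      have a3 : ∀ᵐ x : ℂ, (∑ i, el (v i) (g1 i) (g2 i) (fun m => (z i m : ℂ)) : H) x = 0 := by
        rw [hA]
        filter_upwards [Lp.coeFn_zero ℂ 2 (volume : Measure ℂ)] with x hx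
        rw [hx]
        rfl
      filter_upwards [a1, a2, a3, sum_coe Finset.univ
        fun i => el (v i) (g1 i) (g2 i) (fun m => (z i m : ℂ))] with x e1 e2 e3 e4 hx
      rw [← e1 j]
      by_cases hxj : x ∈ Ω j
      · rw [e4, Finset.sum_eq_single j] at e3
        · exact e3
        · intro i _ hij
          rcases hcase i hij with h | h | h
          · rw [e1 i, h]
            simp
          · refine e2 i fun hxi => ?_
            have h1 : x ∈ K := by
              rw [hK, mem_iUnion₂]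
              exact ⟨i, h, subset_closure hxi⟩
            exact absurd (hσ x h1) (not_le.2 hx)
          · exact e2 i fun hxi => disjoint_left.1 h hxi hxj
        · intro h
          exact absurd (Finset.mem_univ j) h
      · exact e2 j hxj
    · have a1 : ∀ᵐ x : ℂ, ∀ i, (((c i * z i 0 : ℝ) : ℂ) •
          oneH (Ω i) (hd i).ho.measurableSet (hd i).hb : H) x =
          ((c i * z i 0 : ℝ) : ℂ) * ex (Ω i) (fun _ => 1) x := by
        rw [ae_all_iff]
        intro i
        filter_upwards [Lp.coeFn_smul ((c i * z i 0 : ℝ) : ℂ)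
          (oneH (Ω i) (hd i).ho.measurableSet (hd i).hb),
          (one_mem (hd i).ho.measurableSet (hd i).hb).coeFn_toLp] with x e1 e2
        rw [e1, Pi.smul_apply, smul_eq_mul]
        unfold oneH
        rw [e2]
      have a3 : ∀ᵐ x : ℂ, (∑ i, ((c i * z i 0 : ℝ) : ℂ) •
          oneH (Ω i) (hd i).ho.measurableSet (hd i).hb : H) x = 0 := by
        rw [hB]
        filter_upwards [Lp.coeFn_zero ℂ 2 (volume : Measure ℂ)] with x hx
        rw [hx]
        rfl
      filter_upwards [a1, a3, sum_coe Finset.univ fun i => ((c i * z i 0 : ℝ) : ℂ) •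
          oneH (Ω i) (hd i).ho.measurableSet (hd i).hb] with x e1 e3 e4 hxj hx
      rw [e4, Finset.sum_eq_single j] at e3
      · rw [e1 j] at e3
        unfold ex at e3
        rw [indicator_of_mem hxj] at e3
        simpa using e3
      · intro i _ hij
        rw [e1 i]
        unfold ex
        rcases hcase i hij with h | h | h
        · rw [h]
          simp
        · have h1 : x ∉ Ω i := by
            intro hxi
            have h1 : x ∈ K := by
              rw [hK, mem_iUnion₂]
              exact ⟨i, h, subset_closure hxi⟩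
            exact absurd (hσ x h1) (not_le.2 hx)
          rw [indicator_of_notMem h1, mul_zero]
        · rw [indicator_of_notMem (fun hxi => disjoint_left.1 h hxi hxj), mul_zero]
      · intro h
        exact absurd (Finset.mem_univ j) h
  have hopen : ∀ (σ : ℝ) (e : ℂ), IsOpen {x : ℂ | σ < inner ℝ x e} := fun σ e =>
    isOpen_lt continuous_const (by fun_prop)
  -- the first coefficient
  have hz0 : z j 0 = 0 := by
    obtain ⟨σ, ⟨x0, hx0, hx0'⟩, _, h3⟩ := hU 1 one_ne_zero
    have hpos : 0 < volume (Ω j ∩ {x : ℂ | σ < inner ℝ x 1}) :=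
      ((hd j).ho.inter (hopen σ 1)).measure_pos volume ⟨x0, hx0, hx0'⟩
    have h4 : c j * z j 0 = 0 := by
      by_contra hne
      refine hpos.ne' (measure_mono_null ?_ (ae_iff.1 h3))
      rintro x ⟨hx1, hx2⟩ hh
      exact hne (hh hx1 hx2)
    exact (mul_eq_zero.1 h4).resolve_left (hd j).c0
  set a : ℂ := ⟨z j 1, z j 2⟩ with ha
  have ha0 : a ≠ 0 := by
    intro h
    apply (hSm j).1 hj
    have h1 : z j 1 = 0 := congrArg Complex.re h
    have h2 : z j 2 = 0 := congrArg Complex.im h
    funext m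
    fin_cases m
    · exact hz0
    · exact h1
    · exact h2
  have hIa : Complex.I * a ≠ 0 := mul_ne_zero Complex.I_ne_zero ha0
  obtain ⟨σ, ⟨x0, hx0, hx0'⟩, h2, _⟩ := hU (Complex.I * a) hIa
  refine (hd j).key ha0 (hopen σ (Complex.I * a)) ?_ ⟨x0, hx0, hx0'⟩ ?_
  · intro x hx t
    have e1 : (inner ℝ a (Complex.I * a) : ℝ) = 0 := by
      rw [Complex.inner]
      simp
      ring
    show σ < inner ℝ (x + t • a) (Complex.I * a)
    rw [inner_add_left, real_inner_smul_left, e1, mul_zero, add_zero]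
    exact hx
  · filter_upwards [h2] with x e1 hx
    have := e1 hx
    rw [hz0] at this
    simpa [ha] using this

end fam

end Pool.Agent.X103.Nest
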