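import Pool.Agent.X103.NestE

/-!
# Laminar families of solvable sets
-/

set_option autoImplicit false

open MeasureTheory Set FourierTransform
open scoped ENNReal ComplexConjugate ContDiff

noncomputable section

namespace Pool.Agent.X103.Nest

theorem one_one {A B : Set ℂ} (hA : MeasurableSet A) (hbA : Bornology.IsBounded A)
    (hB : MeasurableSet B) (hbB : Bornology.IsBounded B) :
    inner ℂ (oneH B hB hbB) (oneH A hA hbA) = ((volume (A ∩ B)).toReal : ℂ) := by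
  rw [one_inner]
  have e1 : ∫ x in B, (oneH A hA hbA) x = ∫ x in B, A.indicator (fun _ => (1 : ℂ)) x := by
    refine integral_congr_ae (ae_restrict_of_ae ?_)
    unfold oneH
    filter_upwards [(one_mem hA hbA).coeFn_toLp] with x hx
    rw [hx]
    unfold ex
    simp
  rw [e1, integral_indicator hA, Measure.restrict_restrict hA, setIntegral_const, Measure.real]
  simp

theorem nsq (f : H) : ((‖f‖ ^ 2 : ℝ) : ℂ) = inner ℂ f f := by
  rw [inner_self_eq_norm_sq_to_K]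
  norm_cast

theorem rel_refl {Ω : Set ℂ} (ho : IsOpen Ω) (hfr : volume (frontier Ω) = 0) : Rel Ω Ω :=
  Or.inl ⟨subset_rfl, by rwa [← ho.frontier_eq]⟩

theorem rel_or {ι : Type*} {Ω : ι → Set ℂ} (ho : ∀ i, IsOpen (Ω i))
    (hfr : ∀ i, volume (frontier (Ω i)) = 0) (hL : Lam Ω) (i j : ι) :
    Rel (Ω i) (Ω j) ∨ Rel (Ω j) (Ω i) := by
  by_cases hij : i = j
  · rw [hij]
    exact Or.inl (rel_refl (ho j) (hfr j))
  · rcases hL i j hij with h | h | h
    · exact Or.inl (Or.inl ⟨subset_closure.trans h, by rw [sdiff_eq_empty.2 h, measure_empty]⟩)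
    · exact Or.inr (Or.inl ⟨subset_closure.trans h, by rw [sdiff_eq_empty.2 h, measure_empty]⟩)
    · exact Or.inl (Or.inr h.symm)

section fam

variable {ι : Type*} [Fintype ι] {Ω : ι → Set ℂ} {lam : ι → ℝ} {lam0 : ℝ} {c : ι → ℝ}
  {v g1 g2 : ι → H}

/-- the combination of indicators -/
def qe (c : ℝ) {Ω : Set ℂ} (ho : IsOpen Ω) (hb : Bornology.IsBounded Ω) (z : Fin 3 → ℂ) : H :=
  ((c : ℂ) * z 0) • oneH Ω ho.measurableSet hb

theorem fam_id (hd : ∀ i, Dm (Ω i) lam0 (c i) (v i) (g1 i) (g2 i)) (hL : Lam Ω)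
    (z : ι → Fin 3 → ℂ) {k : ι → H} (hk : ∀ i, Kf (el (v i) (g1 i) (g2 i) (z i)) (k i)) :
    ‖∑ i, k i‖ ^ 2 - lam0 * ‖∑ i, el (v i) (g1 i) (g2 i) (z i)‖ ^ 2 =
      -(lam0 * ‖∑ i, qe (c i) (hd i).ho (hd i).hb (z i)‖ ^ 2) := by
  have h1 : ∀ i j, Rel (Ω i) (Ω j) →
      inner ℂ (k j) (k i) - (lam0 : ℂ) * inner ℂ (el (v j) (g1 j) (g2 j) (z j))
        (el (v i) (g1 i) (g2 i) (z i)) =
      -((lam0 : ℂ) * inner ℂ (qe (c j) (hd j).ho (hd j).hb (z j))
        (qe (c i) (hd i).ho (hd i).hb (z i))) := by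
    intro i j hr
    rw [pair (hd i) (hd j) hr (z i) (z j) (hk i) (hk j)]
    unfold qe
    rw [inner_smul_left, inner_smul_right, one_one]
    ring
  have h2 : ∀ i j,
      inner ℂ (k j) (k i) - (lam0 : ℂ) * inner ℂ (el (v j) (g1 j) (g2 j) (z j))
        (el (v i) (g1 i) (g2 i) (z i)) =
      -((lam0 : ℂ) * inner ℂ (qe (c j) (hd j).ho (hd j).hb (z j))
        (qe (c i) (hd i).ho (hd i).hb (z i))) := by
    intro i j
    rcases rel_or (fun i => (hd i).ho) (fun i => (hd i).hfr) hL i j with h | h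
    · exact h1 i j h
    · have h3 := congrArg conj (h1 j i h)
      rw [map_sub, map_neg, map_mul, map_mul, inner_conj_symm, inner_conj_symm, inner_conj_symm,
        Complex.conj_ofReal] at h3
      exact h3
  have h3 : ((‖∑ i, k i‖ ^ 2 : ℝ) : ℂ) -
      (lam0 : ℂ) * ((‖∑ i, el (v i) (g1 i) (g2 i) (z i)‖ ^ 2 : ℝ) : ℂ) =
      -((lam0 : ℂ) * ((‖∑ i, qe (c i) (hd i).ho (hd i).hb (z i)‖ ^ 2 : ℝ) : ℂ)) := by
    rw [nsq, nsq, nsq]
    simp only [sum_inner, inner_sum]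
    rw [Finset.mul_sum, Finset.mul_sum, ← Finset.sum_sub_distrib, ← Finset.sum_neg_distrib]
    refine Finset.sum_congr rfl fun i _ => ?_
    rw [Finset.mul_sum, Finset.mul_sum, ← Finset.sum_sub_distrib, ← Finset.sum_neg_distrib]
    exact Finset.sum_congr rfl fun j _ => h2 _ _
  exact_mod_cast h3

/-- reduction of the independence to real coefficients -/
theorem split (hd : ∀ i, Dm (Ω i) (lam i) (c i) (v i) (g1 i) (g2 i))
    (z : ι → Fin 3 → ℂ) (hA : ∑ i, el (v i) (g1 i) (g2 i) (z i) = 0) :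
    ∑ i, el (v i) (g1 i) (g2 i) (fun m => ((z i m).re : ℂ)) = 0 ∧
    ∑ i, el (v i) (g1 i) (g2 i) (fun m => ((z i m).im : ℂ)) = 0 := by
  have a1 : ∀ z : ι → Fin 3 → ℂ, ∀ᵐ x : ℂ, (∑ i, el (v i) (g1 i) (g2 i) (z i) : H) x =
      ∑ i, (z i 0 * v i x + z i 1 * g1 i x + z i 2 * g2 i x) := by
    intro z
    have : ∀ᵐ x : ℂ, ∀ i, (el (v i) (g1 i) (g2 i) (z i)) x =
        z i 0 * v i x + z i 1 * g1 i x + z i 2 * g2 i x := by
      rw [ae_all_iff]
      exact fun i => el_coe _ _ _ _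
    filter_upwards [this, sum_coe Finset.univ fun i => el (v i) (g1 i) (g2 i) (z i)] with x e1 e2
    rw [e2]
    exact Finset.sum_congr rfl fun i _ => e1 i
  have a2 : ∀ᵐ x : ℂ, ∀ i, (v i x).im = 0 ∧ (g1 i x).im = 0 ∧ (g2 i x).im = 0 := by
    rw [ae_all_iff]
    intro i
    filter_upwards [(hd i).rv, (hd i).r1, (hd i).r2] with x e1 e2 e3
    exact ⟨e1, e2, e3⟩
  have a3 : ∀ᵐ x : ℂ, (0 : H) x = 0 := by
    filter_upwards [Lp.coeFn_zero ℂ 2 (volume : Measure ℂ)] with x hx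
    rw [hx]
    rfl
  have a0 := a1 z
  rw [hA] at a0
  constructor
  · refine Lp.ext ?_
    filter_upwards [a0, a2, a3, a1 fun i m => ((z i m).re : ℂ)] with x e0 e2 e3 e1
    rw [e1, e3]
    rw [e3] at e0
    have h1 := congrArg Complex.re e0
    rw [Complex.zero_re, Complex.re_sum] at h1
    refine Complex.ext ?_ ?_
    · rw [Complex.re_sum, Complex.zero_re, h1]
      refine Finset.sum_congr rfl fun i _ => ?_
      obtain ⟨b1, b2, b3⟩ := e2 i
      simp [b1, b2, b3]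
    · rw [Complex.im_sum, Complex.zero_im]
      refine Finset.sum_eq_zero fun i _ => ?_
      obtain ⟨b1, b2, b3⟩ := e2 i
      simp [b1, b2, b3]
  · refine Lp.ext ?_
    filter_upwards [a0, a2, a3, a1 fun i m => ((z i m).im : ℂ)] with x e0 e2 e3 e1
    rw [e1, e3]
    rw [e3] at e0
    have h1 := congrArg Complex.im e0
    rw [Complex.zero_im, Complex.im_sum] at h1
    refine Complex.ext ?_ ?_
    · rw [Complex.re_sum, Complex.zero_re, h1]
      refine Finset.sum_congr rfl fun i _ => ?_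
      obtain ⟨b1, b2, b3⟩ := e2 i
      simp [b1, b2, b3]
    · rw [Complex.im_sum, Complex.zero_im]
      refine Finset.sum_eq_zero fun i _ => ?_
      obtain ⟨b1, b2, b3⟩ := e2 i
      simp [b1, b2, b3]

theorem sum_supp {D : Set ℂ} {f : ι → H} (hf : ∀ i, ∀ᵐ x : ℂ, x ∉ D → f i x = 0) :
    ∀ᵐ x : ℂ, x ∉ D → (∑ i, f i : H) x = 0 := by
  have := ae_all_iff.2 hf
  filter_upwards [this, sum_coe Finset.univ f] with x e1 e2 hx
  rw [e2]
  exact Finset.sum_eq_zero fun i _ => e1 i hx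

/-- **Equal eigenvalues.** -/
theorem main_eq (hd : ∀ i, Dm (Ω i) lam0 (c i) (v i) (g1 i) (g2 i)) (hL : Lam Ω)
    (hl : 0 < lam0) {D : Set ℂ} (hD : MeasurableSet D) (hfin : volume D ≠ ⊤)
    (hs : ∀ i, Ω i ⊆ D) :
    6 * Real.pi * (Fintype.card ι : ℝ) ≤ lam0 * (volume D).toReal := by
  classical
  set b : ι × Fin 3 → H := fun p => ![v p.1, g1 p.1, g2 p.1] p.2 with hb
  have hsum : ∀ g : ι × Fin 3 → ℂ, ∑ p, g p • b p =
      ∑ i, el (v i) (g1 i) (g2 i) (fun m => g (i, m)) := by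
    intro g
    rw [Fintype.sum_prod_type]
    refine Finset.sum_congr rfl fun i _ => ?_
    rw [Fin.sum_univ_three]
    rfl
  have hreal : ∀ z : ι → Fin 3 → ℝ,
      ∑ i, el (v i) (g1 i) (g2 i) (fun m => (z i m : ℂ)) = 0 → z = 0 := by
    intro z hA
    choose k hk using fun i => (hd i).ex_kf (fun m => (z i m : ℂ))
    have h1 := fam_id hd hL _ hk
    rw [hA, norm_zero] at h1
    have h2 : ‖∑ i, qe (c i) (hd i).ho (hd i).hb (fun m => (z i m : ℂ))‖ = 0 := by
      have h3 : 0 ≤ ‖∑ i, k i‖ ^ 2 := sq_nonneg _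
      have h4 : lam0 * ‖∑ i, qe (c i) (hd i).ho (hd i).hb (fun m => (z i m : ℂ))‖ ^ 2 ≤ 0 := by
        nlinarith
      have h5 : ‖∑ i, qe (c i) (hd i).ho (hd i).hb (fun m => (z i m : ℂ))‖ ^ 2 ≤ 0 := by
        by_contra hh
        exact absurd (mul_pos hl (not_le.1 hh)) (not_lt.2 h4)
      exact pow_eq_zero_iff (two_ne_zero) |>.1 (le_antisymm h5 (sq_nonneg _))
    refine indep_real hd hL z hA ?_
    rw [norm_eq_zero] at h2
    rw [← h2]
    refine Finset.sum_congr rfl fun i _ => ?_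
    unfold qe
    push_cast
    rfl
  have hli : LinearIndependent ℂ b := by
    rw [Fintype.linearIndependent_iff]
    intro g hg
    rw [hsum] at hg
    obtain ⟨h1, h2⟩ := split hd (fun i m => g (i, m)) hg
    have h3 := hreal (fun i m => (g (i, m)).re) h1
    have h4 := hreal (fun i m => (g (i, m)).im) h2
    intro p
    exact Complex.ext (congrFun (congrFun h3 p.1) p.2) (congrFun (congrFun h4 p.1) p.2)
  have hfr := finrank_span_eq_card hli
  have hfd : FiniteDimensional ℂ (Submodule.span ℂ (Set.range b)) :=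
    FiniteDimensional.span_of_finite ℂ (Set.finite_range b)
  have hL2 := li_yau hD hfin hl.le (Submodule.span ℂ (Set.range b)) ?_ ?_
  · rw [hfr, Fintype.card_prod, Fintype.card_fin] at hL2
    push_cast at hL2
    linarith
  · intro f hf
    obtain ⟨g, rfl⟩ := (Submodule.mem_span_range_iff_exists_fun ℂ).1 hf
    rw [hsum]
    refine sum_supp fun i => ?_
    filter_upwards [(hd i).el_supp (fun m => g (i, m))] with x hx hxD
    exact hx fun h => hxD (hs i h)
  · intro f hf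
    obtain ⟨g, rfl⟩ := (Submodule.mem_span_range_iff_exists_fun ℂ).1 hf
    rw [hsum]
    choose k hk using fun i => (hd i).ex_kf (fun m => g (i, m))
    have h1 := fam_id hd hL _ hk
    refine (Kf.sum Finset.univ fun i _ => hk i).kin_le ?_
    have h2 : 0 ≤ lam0 * ‖∑ i, qe (c i) (hd i).ho (hd i).hb (fun m => g (i, m))‖ ^ 2 :=
      mul_nonneg hl.le (sq_nonneg _)
    linarith

end fam

section mono

variable {ι : Type*} {Ω : ι → Set ℂ} {lam : ι → ℝ} {c : ι → ℝ} {v g1 g2 : ι → H}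

theorem disj_inner {A B : Set ℂ} (hAB : Disjoint A B) {f g : H}
    (hf : ∀ᵐ x : ℂ, x ∉ A → f x = 0) (hg : ∀ᵐ x : ℂ, x ∉ B → g x = 0) : inner ℂ f g = 0 := by
  rw [L2.inner_def]
  refine integral_eq_zero_of_ae ?_
  filter_upwards [hf, hg] with x e1 e2
  by_cases hx : x ∈ A
  · rw [e2 fun h => disjoint_left.1 hAB hx h, inner_zero_right]
    rfl
  · rw [e1 hx, inner_zero_left]
    rfl

theorem mono_id (hd : ∀ i, Dm (Ω i) (lam i) (c i) (v i) (g1 i) (g2 i)) (hL : Lam Ω)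
    (hmon : ∀ i j, closure (Ω i) ⊆ Ω j → lam i ≤ lam j)
    (z : ι → Fin 3 → ℂ) (hz : ∀ i, z i 0 = 0) {k : ι → H}
    (hk : ∀ i, Kf (el (v i) (g1 i) (g2 i) (z i)) (k i)) (s : Finset ι) :
    ∀ Λ : ℝ, (∀ i ∈ s, lam i ≤ Λ) →
      ‖∑ i ∈ s, k i‖ ^ 2 ≤ Λ * ‖∑ i ∈ s, el (v i) (g1 i) (g2 i) (z i)‖ ^ 2 := by
  classical
  set f : ι → H := fun i => el (v i) (g1 i) (g2 i) (z i) with hf
  have hfs : ∀ i, ∀ᵐ x : ℂ, x ∉ Ω i → f i x = 0 := fun i => (hd i).el_supp _
  have hp : ∀ i j, Rel (Ω i) (Ω j) → inner ℂ (k j) (k i) = (lam j : ℂ) * inner ℂ (f j) (f i) := by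
    intro i j hr
    have := pair (hd i) (hd j) hr (z i) (z j) (hk i) (hk j)
    rw [hz i, mul_zero, mul_zero, zero_mul, zero_mul, neg_zero] at this
    exact sub_eq_zero.1 this
  have hdis : ∀ i j, Disjoint (Ω i) (Ω j) → inner ℂ (k j) (k i) = 0 ∧ inner ℂ (f j) (f i) = 0 := by
    intro i j hr
    have h1 := disj_inner hr.symm (hfs j) (hfs i)
    refine ⟨?_, h1⟩
    rw [hp i j (Or.inr hr.symm), h1, mul_zero]
  induction s using Finset.strongInduction with
  | H s ih =>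
    intro Λ hΛ
    rcases s.eq_empty_or_nonempty with h0 | h0
    · rw [h0]
      simp
    obtain ⟨j, hj, hmax⟩ := s.exists_max_image (fun i => volume (Ω i)) h0
    set s1 : Finset ι := (s.erase j).filter fun i => closure (Ω i) ⊆ Ω j with hs1
    set s2 : Finset ι := (s.erase j).filter fun i => ¬ closure (Ω i) ⊆ Ω j with hs2
    have h1s : s1 ⊂ s := (Finset.filter_subset _ _).trans_ssubset (Finset.erase_ssubset hj)
    have h2s : s2 ⊂ s := (Finset.filter_subset _ _).trans_ssubset (Finset.erase_ssubset hj)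
    have hm1 : ∀ i ∈ s1, closure (Ω i) ⊆ Ω j := fun i hi => (Finset.mem_filter.1 hi).2
    have hm2 : ∀ i ∈ s2, Disjoint (Ω i) (Ω j) := by
      intro i hi
      obtain ⟨hi1, hi2⟩ := Finset.mem_filter.1 hi
      obtain ⟨hij, his⟩ := Finset.mem_erase.1 hi1
      rcases hL i j hij with h | h | h
      · exact absurd h hi2
      · exact absurd (hmax i his) (not_le.2 (vol_lt (hd i).ho (hd j).hb (hd j).hne h))
      · exact h
    have hsum : ∀ a : ι → H, ∑ i ∈ s, a i = (∑ i ∈ s1, a i + a j) + ∑ i ∈ s2, a i := by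
      intro a
      rw [← Finset.add_sum_erase s a hj, ← Finset.sum_filter_add_sum_filter_not (s.erase j)
        (fun i => closure (Ω i) ⊆ Ω j)]
      abel
    rw [hsum, hsum]
    set A := ∑ i ∈ s1, f i with hA
    set C := ∑ i ∈ s2, f i with hC
    set KA := ∑ i ∈ s1, k i with hKA
    set KC := ∑ i ∈ s2, k i with hKC
    have o1 : inner ℂ (KA + k j) KC = 0 := by
      rw [inner_add_left, hKA, hKC, sum_inner, inner_sum]
      have e1 : ∑ i ∈ s1, inner ℂ (k i) (∑ i ∈ s2, k i) = 0 := by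
        refine Finset.sum_eq_zero fun i hi => ?_
        rw [inner_sum]
        refine Finset.sum_eq_zero fun i' hi' => ?_
        refine (hdis i' i ?_).1
        exact (hm2 i' hi').mono_right (subset_closure.trans (hm1 i hi))
      have e2 : ∑ i ∈ s2, inner ℂ (k j) (k i) = 0 :=
        Finset.sum_eq_zero fun i hi => (hdis i j (hm2 i hi)).1
      rw [e1, e2, add_zero]
    have o2 : inner ℂ (A + f j) C = 0 := by
      rw [inner_add_left, hA, hC, sum_inner, inner_sum]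
      have e1 : ∑ i ∈ s1, inner ℂ (f i) (∑ i ∈ s2, f i) = 0 := by
        refine Finset.sum_eq_zero fun i hi => ?_
        rw [inner_sum]
        refine Finset.sum_eq_zero fun i' hi' => ?_
        refine (hdis i' i ?_).2
        exact (hm2 i' hi').mono_right (subset_closure.trans (hm1 i hi))
      have e2 : ∑ i ∈ s2, inner ℂ (f j) (f i) = 0 :=
        Finset.sum_eq_zero fun i hi => (hdis i j (hm2 i hi)).2
      rw [e1, e2, add_zero]
    have h3 : inner ℂ KA (k j) = (lam j : ℂ) * inner ℂ A (f j) := by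
      rw [hKA, hA, sum_inner, sum_inner, Finset.mul_sum]
      refine Finset.sum_congr rfl fun i hi => ?_
      have h := hp i j (Or.inl ⟨subset_closure.trans (hm1 i hi), by
        rw [sdiff_eq_empty.2 (hm1 i hi), measure_empty]⟩)
      have h' := congrArg conj h
      rwa [map_mul, inner_conj_symm, inner_conj_symm, Complex.conj_ofReal] at h'
    have h4 : inner ℂ (k j) (k j) = (lam j : ℂ) * inner ℂ (f j) (f j) :=
      hp j j (rel_refl (hd j).ho (hd j).hfr)
    have h5 : ‖k j‖ ^ 2 = lam j * ‖f j‖ ^ 2 := by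
      rw [← nsq, ← nsq] at h4
      exact_mod_cast h4
    have ih1 := ih s1 h1s (lam j) fun i hi => hmon i j (hm1 i hi)
    have ih2 := ih s2 h2s Λ fun i hi => hΛ i (h2s.1 hi)
    have hre : ∀ w : ℂ, RCLike.re ((lam j : ℂ) * w) = lam j * RCLike.re w := fun w => by simp
    have q1 : ‖KA + k j‖ ^ 2 ≤ lam j * ‖A + f j‖ ^ 2 := by
      rw [norm_add_sq (𝕜 := ℂ), norm_add_sq (𝕜 := ℂ), h3, hre, h5]
      have ih1' : ‖KA‖ ^ 2 ≤ lam j * ‖A‖ ^ 2 := ih1
      nlinarith
    have q2 : lam j * ‖A + f j‖ ^ 2 ≤ Λ * ‖A + f j‖ ^ 2 :=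
      mul_le_mul_of_nonneg_right (hΛ j hj) (sq_nonneg _)
    have ih2' : ‖KC‖ ^ 2 ≤ Λ * ‖C‖ ^ 2 := ih2
    show ‖KA + k j + KC‖ ^ 2 ≤ Λ * ‖A + f j + C‖ ^ 2
    rw [norm_add_sq (𝕜 := ℂ) (KA + k j), norm_add_sq (𝕜 := ℂ) (A + f j), o1, o2]
    simp only [map_zero, mul_zero, add_zero]
    nlinarith

/-- **Monotone eigenvalues.** -/
theorem main_mono [Fintype ι] (hd : ∀ i, Dm (Ω i) (lam i) (c i) (v i) (g1 i) (g2 i))
    (hL : Lam Ω) (hmon : ∀ i j, closure (Ω i) ⊆ Ω j → lam i ≤ lam j) {Λ : ℝ} (hΛ0 : 0 ≤ Λ)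
    (hΛ : ∀ i, lam i ≤ Λ) {D : Set ℂ} (hD : MeasurableSet D) (hfin : volume D ≠ ⊤)
    (hs : ∀ i, Ω i ⊆ D) :
    4 * Real.pi * (Fintype.card ι : ℝ) ≤ Λ * (volume D).toReal := by
  classical
  set b : ι × Fin 2 → H := fun p => ![g1 p.1, g2 p.1] p.2 with hb
  have hsum : ∀ g : ι × Fin 2 → ℂ, ∑ p, g p • b p =
      ∑ i, el (v i) (g1 i) (g2 i) ![0, g (i, 0), g (i, 1)] := by
    intro g
    rw [Fintype.sum_prod_type]
    refine Finset.sum_congr rfl fun i _ => ?_
    rw [Fin.sum_univ_two]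
    unfold el
    simp [hb]
  have hli : LinearIndependent ℂ b := by
    rw [Fintype.linearIndependent_iff]
    intro g hg
    rw [hsum] at hg
    obtain ⟨h1, h2⟩ := split hd _ hg
    have h3 := indep_real hd hL (fun i m => ((![0, g (i, 0), g (i, 1)] : Fin 3 → ℂ) m).re) h1
      (by simp)
    have h4 := indep_real hd hL (fun i m => ((![0, g (i, 0), g (i, 1)] : Fin 3 → ℂ) m).im) h2
      (by simp)
    rintro ⟨i, m⟩
    fin_cases m
    · exact Complex.ext (congrFun (congrFun h3 i) 1) (congrFun (congrFun h4 i) 1)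
    · exact Complex.ext (congrFun (congrFun h3 i) 2) (congrFun (congrFun h4 i) 2)
  have hfr := finrank_span_eq_card hli
  have hfd : FiniteDimensional ℂ (Submodule.span ℂ (Set.range b)) :=
    FiniteDimensional.span_of_finite ℂ (Set.finite_range b)
  have hL2 := li_yau hD hfin hΛ0 (Submodule.span ℂ (Set.range b)) ?_ ?_
  · rw [hfr, Fintype.card_prod, Fintype.card_fin] at hL2
    push_cast at hL2
    linarith
  · intro f hf
    obtain ⟨g, rfl⟩ := (Submodule.mem_span_range_iff_exists_fun ℂ).1 hf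
    rw [hsum]
    refine sum_supp fun i => ?_
    filter_upwards [(hd i).el_supp ![0, g (i, 0), g (i, 1)]] with x hx hxD
    exact hx fun h => hxD (hs i h)
  · intro f hf
    obtain ⟨g, rfl⟩ := (Submodule.mem_span_range_iff_exists_fun ℂ).1 hf
    rw [hsum]
    choose k hk using fun i => (hd i).ex_kf ![0, g (i, 0), g (i, 1)]
    refine (Kf.sum Finset.univ fun i _ => hk i).kin_le ?_
    exact mono_id hd hL hmon (fun i => ![0, g (i, 0), g (i, 1)]) (fun i => rfl) hk Finset.univ Λ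
      fun i _ => hΛ i

end mono

end Pool.Agent.X103.Nest
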