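import Pool.Agent.X103.NestF

/-!
# Families of solvable sets: counting, rank and continuous branches
-/

set_option autoImplicit false

open MeasureTheory Set

noncomputable section

namespace Pool.Agent.X103.Nest

open Pool.Agent.TH298.Sch

/-- bounded nonempty open sets with null boundary -/
def Adm (Ω : Set ℂ) : Prop :=
  IsOpen Ω ∧ Bornology.IsBounded Ω ∧ Ω.Nonempty ∧ volume (frontier Ω) = 0

/-- solvability -/
def Slv (Ω : Set ℂ) (lam : ℝ) : Prop :=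
  ∃ (c : ℝ) (u : ℂ → ℝ) (G : ℂ → ℂ), Sol Ω lam c u G ∧ ¬ (u =ᵐ[volume.restrict Ω] 0)

theorem slv_dm {Ω : Set ℂ} (ha : Adm Ω) {lam : ℝ} (hl : 0 < lam) (h : Slv Ω lam) :
    ∃ (c : ℝ) (v g1 g2 : H), Dm Ω lam c v g1 g2 := by
  obtain ⟨c, u, G, hS, hu⟩ := h
  obtain ⟨v, g1, g2, hd⟩ := exists_dm hS ha.1 ha.2.1 ha.2.2.1 ha.2.2.2 hl hu
  exact ⟨c, v, g1, g2, hd⟩

theorem fin_eq {ι : Type*} [Fintype ι] {Ω : ι → Set ℂ} {lam : ℝ} (ha : ∀ i, Adm (Ω i))
    (hL : Lam Ω) (hl : 0 < lam) (hS : ∀ i, Slv (Ω i) lam) {D : Set ℂ} (hD : MeasurableSet D)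
    (hfin : volume D ≠ ⊤) (hs : ∀ i, Ω i ⊆ D) :
    6 * Real.pi * (Fintype.card ι : ℝ) ≤ lam * (volume D).toReal := by
  choose c v g1 g2 hd using fun i => slv_dm (ha i) hl (hS i)
  exact main_eq hd hL hl hD hfin hs

theorem fin_mono {ι : Type*} [Fintype ι] {Ω : ι → Set ℂ} {lam : ι → ℝ} (ha : ∀ i, Adm (Ω i))
    (hL : Lam Ω) (hl : ∀ i, 0 < lam i) (hS : ∀ i, Slv (Ω i) (lam i))
    (hmon : ∀ i j, closure (Ω i) ⊆ Ω j → lam i ≤ lam j) {Λ : ℝ} (hΛ0 : 0 ≤ Λ)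
    (hΛ : ∀ i, lam i ≤ Λ) {D : Set ℂ} (hD : MeasurableSet D)
    (hfin : volume D ≠ ⊤) (hs : ∀ i, Ω i ⊆ D) :
    4 * Real.pi * (Fintype.card ι : ℝ) ≤ Λ * (volume D).toReal := by
  choose c v g1 g2 hd using fun i => slv_dm (ha i) (hl i) (hS i)
  exact main_mono hd hL hmon hΛ0 hΛ hD hfin hs

/-- counting for one eigenvalue -/
theorem count {I : Type*} {Ω : I → Set ℂ} (ha : ∀ i, Adm (Ω i)) (hL : Lam Ω) {D : Set ℂ}
    (hD : MeasurableSet D) (hfin : volume D ≠ ⊤) (hs : ∀ i, Ω i ⊆ D) {lam : ℝ} (hl : 0 < lam) :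
    {i | Slv (Ω i) lam}.Finite ∧
      6 * Real.pi * ({i | Slv (Ω i) lam}.ncard : ℝ) ≤ lam * (volume D).toReal := by
  classical
  have h1 : ∀ s : Finset I, (s : Set I) ⊆ {i | Slv (Ω i) lam} →
      6 * Real.pi * (s.card : ℝ) ≤ lam * (volume D).toReal := by
    intro s hss
    have h := fin_eq (ι := s) (Ω := fun i => Ω i) (lam := lam) (fun i => ha i) ?_ hl
      (fun i => hss i.2) hD hfin (fun i => hs i)
    · simpa using h
    · intro i j hij
      exact hL i j (fun hh => hij (Subtype.ext hh))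
  have hf : {i | Slv (Ω i) lam}.Finite := by
    by_contra hinf
    obtain ⟨n, hn⟩ := exists_nat_gt (lam * (volume D).toReal)
    obtain ⟨s, hss, hsc⟩ := Set.Infinite.exists_subset_card_eq hinf n
    have h2 := h1 s hss
    rw [hsc] at h2
    have hpi := Real.pi_gt_three
    have h3 : (n : ℝ) ≤ 6 * Real.pi * n := by nlinarith [(Nat.cast_nonneg n : (0 : ℝ) ≤ n)]
    linarith
  refine ⟨hf, ?_⟩
  have h2 := h1 hf.toFinset (by simp)
  rwa [← Set.ncard_eq_toFinset_card _ hf] at h2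

theorem nest_lam {T : Type*} [LinearOrder T] {Ω : T → Set ℂ}
    (hn : ∀ s t, s < t → closure (Ω s) ⊆ Ω t) : Lam Ω := by
  intro i j hij
  rcases lt_or_gt_of_ne hij with h | h
  · exact Or.inl (hn i j h)
  · exact Or.inr (Or.inl (hn j i h))

/-- chains of a nested family -/
theorem chain {T : Type*} [LinearOrder T] {J : Set T} {Ω : T → Set ℂ} (ha : ∀ t ∈ J, Adm (Ω t))
    (hn : ∀ s ∈ J, ∀ t ∈ J, s < t → closure (Ω s) ⊆ Ω t) {D : Set ℂ} (hD : MeasurableSet D)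
    (hfin : volume D ≠ ⊤) {Λ : ℝ} (s : Finset (T × ℝ)) (hne : s.Nonempty)
    (hs : ∀ p ∈ s, p.1 ∈ J ∧ 0 < p.2 ∧ p.2 ≤ Λ ∧ Slv (Ω p.1) p.2 ∧ Ω p.1 ⊆ D)
    (hc : ∀ p ∈ s, ∀ q ∈ s, p = q ∨ (p.1 < q.1 ∧ p.2 ≤ q.2) ∨ (q.1 < p.1 ∧ q.2 ≤ p.2)) :
    4 * Real.pi * (s.card : ℝ) ≤ Λ * (volume D).toReal := by
  classical
  obtain ⟨p0, hp0⟩ := hne
  have hΛ0 : 0 ≤ Λ := (hs p0 hp0).2.1.le.trans (hs p0 hp0).2.2.1
  have hlt : ∀ p ∈ s, ∀ q ∈ s, p.1 < q.1 → volume (Ω p.1) < volume (Ω q.1) := by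
    intro p hp q hq h
    have h1 := ha _ (hs p hp).1
    have h2 := ha _ (hs q hq).1
    exact vol_lt h2.1 h1.2.1 h1.2.2.1 (hn _ (hs p hp).1 _ (hs q hq).1 h)
  have h := fin_mono (ι := s) (Ω := fun p => Ω p.1.1) (lam := fun p => p.1.2) (Λ := Λ)
    (fun p => ha _ (hs p.1 p.2).1) ?_ (fun p => (hs p.1 p.2).2.1)
    (fun p => (hs p.1 p.2).2.2.2.1) ?_ hΛ0 (fun p => (hs p.1 p.2).2.2.1) hD hfin
    (fun p => (hs p.1 p.2).2.2.2.2)
  · simpa using h
  · intro p q hpq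
    rcases hc p.1 p.2 q.1 q.2 with h | h | h
    · exact absurd (Subtype.ext h) hpq
    · exact Or.inl (hn _ (hs p.1 p.2).1 _ (hs q.1 q.2).1 h.1)
    · exact Or.inr (Or.inl (hn _ (hs q.1 q.2).1 _ (hs p.1 p.2).1 h.1))
  · intro p q hpq
    rcases hc p.1 p.2 q.1 q.2 with h | h | h
    · rw [h]
    · exact h.2
    · exfalso
      have h1 := hlt _ q.2 _ p.2 h.1
      have h2 : volume (Ω p.1.1) ≤ volume (Ω q.1.1) := measure_mono (subset_closure.trans hpq)
      exact absurd h1 (not_lt.2 h2)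

/-- the rank of a pair -/
theorem rank {T : Type*} [LinearOrder T] {Ω : T → Set ℂ} (ha : ∀ t, Adm (Ω t))
    (hn : ∀ s t, s < t → closure (Ω s) ⊆ Ω t) {D : Set ℂ} (hD : MeasurableSet D)
    (hfin : volume D ≠ ⊤) (hsD : ∀ t, Ω t ⊆ D) (Λ : ℝ) :
    ∃ r : T → ℝ → ℕ, ∀ (t : T) (lam : ℝ), 0 < lam → lam ≤ Λ → Slv (Ω t) lam →
      1 ≤ r t lam ∧ 4 * Real.pi * (r t lam : ℝ) ≤ Λ * (volume D).toReal ∧
      ∀ (s : T) (mu : ℝ), s < t → 0 < mu → mu ≤ Λ → Slv (Ω s) mu → r s mu = r t lam →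
        lam < mu := by
  classical
  set C : T × ℝ → Set (Finset (T × ℝ)) := fun p => {s | p ∈ s ∧
    (∀ q ∈ s, 0 < q.2 ∧ q.2 ≤ Λ ∧ Slv (Ω q.1) q.2) ∧
    (∀ q ∈ s, q = p ∨ (q.1 < p.1 ∧ q.2 ≤ p.2)) ∧
    (∀ q ∈ s, ∀ q' ∈ s, q = q' ∨ (q.1 < q'.1 ∧ q.2 ≤ q'.2) ∨ (q'.1 < q.1 ∧ q'.2 ≤ q.2))} with hC
  have hbd : ∀ p, ∀ s ∈ C p, 4 * Real.pi * (s.card : ℝ) ≤ Λ * (volume D).toReal := by
    intro p s hs
    obtain ⟨h1, h2, h3, h4⟩ := hs
    exact chain (J := univ) (fun t _ => ha t) (fun s _ t _ => hn s t) hD hfin s ⟨p, h1⟩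
      (fun q hq => ⟨mem_univ _, (h2 q hq).1, (h2 q hq).2.1, (h2 q hq).2.2, hsD _⟩) h4
  have hbdd : ∀ p, BddAbove (Finset.card '' C p) := by
    intro p
    obtain ⟨n, hn'⟩ := exists_nat_gt (Λ * (volume D).toReal)
    refine ⟨n, ?_⟩
    rintro _ ⟨s, hs, rfl⟩
    have h2 := hbd p s hs
    have hpi := Real.pi_gt_three
    have h3 : (s.card : ℝ) ≤ 4 * Real.pi * s.card := by
      nlinarith [(Nat.cast_nonneg s.card : (0 : ℝ) ≤ s.card)]
    have h4 : (s.card : ℝ) ≤ n := by linarith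
    exact_mod_cast h4
  have hsing : ∀ p : T × ℝ, 0 < p.2 → p.2 ≤ Λ → Slv (Ω p.1) p.2 → {p} ∈ C p := by
    intro p h1 h2 h3
    refine ⟨Finset.mem_singleton_self p, ?_, ?_, ?_⟩
    · intro q hq
      rw [Finset.mem_singleton.1 hq]
      exact ⟨h1, h2, h3⟩
    · intro q hq
      exact Or.inl (Finset.mem_singleton.1 hq)
    · intro q hq q' hq'
      rw [Finset.mem_singleton.1 hq, Finset.mem_singleton.1 hq']
      exact Or.inl rfl
  have hmem : ∀ p : T × ℝ, 0 < p.2 → p.2 ≤ Λ → Slv (Ω p.1) p.2 →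
      ∃ s ∈ C p, s.card = sSup (Finset.card '' C p) := by
    intro p h1 h2 h3
    obtain ⟨s, hs, hs'⟩ := Nat.sSup_mem (s := Finset.card '' C p) ⟨_, _, hsing p h1 h2 h3, rfl⟩
      (hbdd p)
    exact ⟨s, hs, hs'⟩
  refine ⟨fun t lam => sSup (Finset.card '' C (t, lam)), ?_⟩
  intro t lam hl hlΛ hS
  obtain ⟨s, hs, hsc⟩ := hmem (t, lam) hl hlΛ hS
  refine ⟨?_, ?_, ?_⟩
  · show 1 ≤ sSup (Finset.card '' C (t, lam))
    rw [← hsc]
    exact Finset.card_pos.2 ⟨_, hs.1⟩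
  · show 4 * Real.pi * ((sSup (Finset.card '' C (t, lam)) : ℕ) : ℝ) ≤ _
    rw [← hsc]
    exact hbd _ s hs
  · intro s' mu hst hm hmΛ hS' hr
    by_contra hle
    rw [not_lt] at hle
    obtain ⟨s1, hs1, hs1c⟩ := hmem (s', mu) hm hmΛ hS'
    obtain ⟨a1, a2, a3, a4⟩ := hs1
    have hlow : ∀ q ∈ s1, q.1 < t ∧ q.2 ≤ lam := by
      intro q hq
      rcases a3 q hq with h | h
      · rw [h]
        exact ⟨hst, hle⟩
      · exact ⟨h.1.trans hst, h.2.trans hle⟩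
    have hnot : (t, lam) ∉ s1 := fun h => lt_irrefl _ (hlow _ h).1
    have hins : insert (t, lam) s1 ∈ C (t, lam) := by
      refine ⟨Finset.mem_insert_self _ _, ?_, ?_, ?_⟩
      · intro q hq
        rcases Finset.mem_insert.1 hq with h | h
        · rw [h]
          exact ⟨hl, hlΛ, hS⟩
        · exact a2 q h
      · intro q hq
        rcases Finset.mem_insert.1 hq with h | h
        · exact Or.inl h
        · exact Or.inr (hlow q h)
      · intro q hq q' hq'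
        rcases Finset.mem_insert.1 hq with h | h <;> rcases Finset.mem_insert.1 hq' with h' | h'
        · exact Or.inl (h.trans h'.symm)
        · rw [h]
          exact Or.inr (Or.inr (hlow q' h'))
        · rw [h']
          exact Or.inr (Or.inl (hlow q h))
        · exact a4 q h q' h'
    have h5 : (insert (t, lam) s1).card ≤ sSup (Finset.card '' C (t, lam)) :=
      le_csSup (hbdd _) ⟨_, hins, rfl⟩
    rw [Finset.card_insert_of_notMem hnot, hs1c] at h5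
    simp only at hr
    omega

/-- increasing chains on a continuous branch -/
theorem up_chain {J : Set ℝ} (hJ : J.OrdConnected) {lam : ℝ → ℝ} (hc : ContinuousOn lam J)
    (n : ℕ) : ∀ a ∈ J, ∀ b ∈ J, a < b → lam a < lam b →
      ∃ s : Finset ℝ, s.card = n + 1 ∧ (∀ x ∈ s, x ∈ Icc a b) ∧ (∀ x ∈ s, lam x ≤ lam b) ∧
        ∀ x ∈ s, ∀ y ∈ s, x < y → lam x ≤ lam y := by
  classical
  induction n with
  | zero =>
    intro a ha b hb hab hl
    refine ⟨{b}, by simp, ?_, ?_, ?_⟩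
    · intro x hx
      rw [Finset.mem_singleton.1 hx]
      exact ⟨hab.le, le_rfl⟩
    · intro x hx
      rw [Finset.mem_singleton.1 hx]
    · intro x hx y hy
      rw [Finset.mem_singleton.1 hx, Finset.mem_singleton.1 hy]
      intro h
      exact absurd h (lt_irrefl _)
  | succ n ih =>
    intro a ha b hb hab hl
    have hsub : Icc a b ⊆ J := hJ.out ha hb
    have hmid : (lam a + lam b) / 2 ∈ Ioo (lam a) (lam b) := ⟨by linarith, by linarith⟩
    obtain ⟨x, hx, hxe⟩ := intermediate_value_Ioo hab.le (hc.mono hsub) hmid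
    obtain ⟨s, hsc, hs1, hs2, hs3⟩ := ih a ha x (hsub ⟨hx.1.le, hx.2.le⟩) hx.1
      (by rw [hxe]; exact hmid.1)
    have hxb : lam x < lam b := by rw [hxe]; exact hmid.2
    have hnot : b ∉ s := fun h => absurd (hs1 b h).2 (not_le.2 hx.2)
    refine ⟨insert b s, by rw [Finset.card_insert_of_notMem hnot, hsc], ?_, ?_, ?_⟩
    · intro y hy
      rcases Finset.mem_insert.1 hy with h | h
      · rw [h]
        exact ⟨hab.le, le_rfl⟩
      · exact ⟨(hs1 y h).1, (hs1 y h).2.trans hx.2.le⟩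
    · intro y hy
      rcases Finset.mem_insert.1 hy with h | h
      · rw [h]
      · exact (hs2 y h).trans hxb.le
    · intro y hy y' hy' hlt
      rcases Finset.mem_insert.1 hy with h | h <;> rcases Finset.mem_insert.1 hy' with h' | h'
      · rw [h, h']
      · exfalso
        rw [h] at hlt
        exact absurd (((hs1 y' h').2.trans hx.2.le)) (not_le.2 hlt)
      · rw [h']
        exact (hs2 y h).trans hxb.le
      · exact hs3 y h y' h' hlt

/-- continuous branches are strictly decreasing -/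
theorem branch {J : Set ℝ} (hJ : J.OrdConnected) {Ω : ℝ → Set ℂ} (ha : ∀ t ∈ J, Adm (Ω t))
    (hn : ∀ s ∈ J, ∀ t ∈ J, s < t → closure (Ω s) ⊆ Ω t) {lam : ℝ → ℝ}
    (hc : ContinuousOn lam J) (hl : ∀ t ∈ J, 0 < lam t) (hS : ∀ t ∈ J, Slv (Ω t) (lam t)) :
    StrictAntiOn lam J := by
  classical
  -- no long chains
  have hno : ∀ a ∈ J, ∀ b ∈ J, ∀ M : ℝ, ¬ ∀ n : ℕ, ∃ s : Finset ℝ, s.card = n + 1 ∧
      (∀ x ∈ s, x ∈ Icc a b) ∧ (∀ x ∈ s, lam x ≤ M) ∧
      ∀ x ∈ s, ∀ y ∈ s, x < y → lam x ≤ lam y := by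
    intro a hja b hjb M hall
    have hsub : Icc a b ⊆ J := hJ.out hja hjb
    have hAb := ha b hjb
    have hfin : volume (Ω b) ≠ ⊤ := hAb.2.1.measure_lt_top.ne
    obtain ⟨n, hn'⟩ := exists_nat_gt (M * (volume (Ω b)).toReal)
    obtain ⟨s, hsc, hs1, hs2, hs3⟩ := hall n
    set s' : Finset (ℝ × ℝ) := s.image fun x => (x, lam x) with hs'
    have hcard : s'.card = s.card := Finset.card_image_of_injective _ fun x y h =>
      congrArg Prod.fst h
    have hne : s'.Nonempty := by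
      rw [← Finset.card_pos, hcard, hsc]
      omega
    have h1 := chain (J := J) ha hn hAb.1.measurableSet hfin (Λ := M) s' hne ?_ ?_
    · rw [hcard, hsc] at h1
      have hpi := Real.pi_gt_three
      push_cast at h1
      nlinarith [(Nat.cast_nonneg n : (0 : ℝ) ≤ n)]
    · intro p hp
      obtain ⟨x, hx, rfl⟩ := Finset.mem_image.1 hp
      have hxJ := hsub (hs1 x hx)
      refine ⟨hxJ, hl x hxJ, hs2 x hx, hS x hxJ, ?_⟩
      rcases (hs1 x hx).2.eq_or_lt with h | h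
      · rw [← h]
      · exact subset_closure.trans (hn x hxJ b hjb h)
    · intro p hp q hq
      obtain ⟨x, hx, rfl⟩ := Finset.mem_image.1 hp
      obtain ⟨y, hy, rfl⟩ := Finset.mem_image.1 hq
      rcases lt_trichotomy x y with h | h | h
      · exact Or.inr (Or.inl ⟨h, hs3 x hx y hy h⟩)
      · rw [h]
        exact Or.inl rfl
      · exact Or.inr (Or.inr ⟨h, hs3 y hy x hx h⟩)
  intro a hja b hjb hab
  by_contra hle
  rw [not_lt] at hle
  have hsub : Icc a b ⊆ J := hJ.out hja hjb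
  have hup : ∀ a ∈ J, ∀ b ∈ J, a < b → ¬ lam a < lam b := by
    intro a hja b hjb hab h
    exact hno a hja b hjb (lam b) fun n => up_chain hJ hc n a hja b hjb hab h
  have heq : ∀ x ∈ Icc a b, lam x = lam a := by
    intro x hx
    have h1 : lam x ≤ lam a := by
      rcases hx.1.eq_or_lt with h | h
      · rw [h]
      · exact not_lt.1 (hup a hja x (hsub hx) h)
    have h2 : lam b ≤ lam x := by
      rcases hx.2.eq_or_lt with h | h
      · rw [h]
      · exact not_lt.1 (hup x (hsub hx) b hjb h)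
    linarith
  refine hno a hja b hjb (lam a) fun n => ?_
  obtain ⟨s, hss, hsc⟩ := (Icc_infinite hab).exists_subset_card_eq (n + 1)
  exact ⟨s, hsc, fun x hx => hss hx, fun x hx => (heq x (hss hx)).le,
    fun x hx y hy _ => by rw [heq x (hss hx), heq y (hss hy)]⟩

end Pool.Agent.X103.Nest
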