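import Pool.Agent.Y390.QR.LIP

/-!
# One-sided derivative of an eigenvalue inside its cluster
-/

set_option autoImplicit false

open Set Filter Topology MeasureTheory
open scoped Real

noncomputable section

namespace Pool.Agent.X103.QF

open Pool.Agent.Y262.QE Pool.Agent.Y264.QR Pool.Agent.Y592.QE Pool.Agent.Y390.QR.LIP

variable {H : Type} [NormedAddCommGroup H] [InnerProductSpace ℝ H]

/-- the vector with the coefficients `c l`, `i ≤ l ≤ j`, in the basis `e` -/
def comb (e : ℕ → H) (i j : ℕ) (c : ℕ → ℝ) : H := ∑ l ∈ Finset.Icc i j, c l • e l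

theorem comb_b {b : H →L[ℝ] H →L[ℝ] ℝ} {e : ℕ → H}
    (ho : ∀ p q, b (e p) (e q) = if p = q then 1 else 0) (i j : ℕ) (c : ℕ → ℝ) :
    b (comb e i j c) (comb e i j c) = ∑ l ∈ Finset.Icc i j, c l ^ 2 := by
  unfold comb
  rw [map_sum]
  refine Finset.sum_congr rfl fun l hl => ?_
  rw [map_sum, sum_apply, Finset.sum_eq_single l]
  · rw [map_smul, map_smul, smul_apply, ho, if_pos rfl]
    simp only [smul_eq_mul]
    ring
  · intro p _ hp
    rw [map_smul, map_smul, smul_apply, ho, if_neg hp]
    simp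
  · intro h
    exact absurd hl h

theorem comb_low {b : H →L[ℝ] H →L[ℝ] ℝ} {e : ℕ → H}
    (ho : ∀ p q, b (e p) (e q) = if p = q then 1 else 0) (i j : ℕ) (c : ℕ → ℝ)
    (d : Fin i → ℝ) : b (∑ l : Fin i, d l • e l) (comb e i j c) = 0 := by
  rw [b_sum_left]
  refine Finset.sum_eq_zero fun l _ => ?_
  unfold comb
  rw [map_sum, Finset.sum_eq_zero, mul_zero]
  intro p hp
  have h1 := (Finset.mem_Icc.1 hp).1
  have h2 := l.2
  rw [map_smul, ho, if_neg (by omega), smul_zero]

theorem comb_eig {a b : H →L[ℝ] H →L[ℝ] ℝ} {e : ℕ → H} {E : ℕ → ℝ} (hE : Eg a b e E) {i j : ℕ}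
    (hcl : ∀ l, i ≤ l → l ≤ j → E l = E j) (c : ℕ → ℝ) (v : H) :
    a (comb e i j c) v = E j * b (comb e i j c) v := by
  unfold comb
  rw [map_sum, map_sum, sum_apply, sum_apply,
    Finset.mul_sum]
  refine Finset.sum_congr rfl fun l hl => ?_
  obtain ⟨h1, h2⟩ := Finset.mem_Icc.1 hl
  rw [map_smul, map_smul, smul_apply, smul_apply, hE.eig,
    hcl l h1 h2]
  simp only [smul_eq_mul]
  ring

/-- If `k ≥ m b` on the span of the eigenvectors number `i, …, j` of the cluster which starts with the
number `i`, then the `j`-th eigenvalue decreases at least at the rate `m E j` to the right. -/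
theorem derW {a b : H →L[ℝ] H →L[ℝ] ℝ} (hF : Fm a b) {e : ℕ → H} {E : ℕ → ℝ} (hE : Eg a b e E)
    (k : H →L[ℝ] H →L[ℝ] ℝ) (K : ℝ) (ksym : ∀ u v, k u v = k v u)
    (hk : ∀ v, |k v v| ≤ K * b v v) (i j : ℕ) (hij : i ≤ j)
    (hcl : ∀ l, i ≤ l → l ≤ j → E l = E j) (hlt : ∀ l, l < i → E l < E i) (m : ℝ)
    (hmK : |m| ≤ K) (hm : ∀ c : ℕ → ℝ, m * b (comb e i j c) (comb e i j c) ≤
      k (comb e i j c) (comb e i j c)) (ε : ℝ) (hε : 0 < ε) :
    ∃ δ : ℝ, 0 < δ ∧ ∀ τ : ℝ, 0 < τ → τ < δ → ∀ b' : H →L[ℝ] H →L[ℝ] ℝ,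
      (∀ v, b v v + τ * k v v ≤ b' v v) → Ev a b' j ≤ E j * (1 - m * τ) + ε * τ := by
  have hE0 : ∀ l, 0 ≤ E l := by
    intro l
    have h1 := hF.na (e l)
    rw [hE.eig, hE.orth, if_pos rfl, mul_one] at h1
    exact h1
  have hK : 0 ≤ K := (abs_nonneg _).trans hmK
  have hEi : E i = E j := hcl i le_rfl hij
  set lam := E j with hlam
  have hlam0 : 0 ≤ lam := hE0 j
  obtain ⟨g, hg, hgap⟩ := Pool.Agent.Y726.QE.exists_gap (Finset.range i) (fun l => lam - E l)
    (fun l hl => by
      have := hlt l (Finset.mem_range.1 hl)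
      rw [hEi] at this
      linarith)
  set s : ℝ := ε / (8 * lam * K + ε) with hs
  have hs0 : 0 < s := by positivity
  have hs1 : s ≤ 1 := by
    rw [hs, div_le_one (by positivity)]
    have : 0 ≤ 8 * lam * K := by positivity
    linarith
  have hsε : 8 * lam * K * s ≤ ε := by
    rw [hs, mul_div_assoc', div_le_iff₀ (by positivity)]
    have : 0 ≤ ε * ε := by positivity
    nlinarith
  refine ⟨min (min ((1 / 8) / (K + 1)) ((ε / 4) / (lam * K ^ 2 + 1)))
    (min (1 / (K * (1 + 1 / s) + 1)) (g / (lam * (K * (2 + 1 / s)) + 1))), ?_, ?_⟩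
  · refine lt_min (lt_min ?_ ?_) (lt_min ?_ ?_) <;> positivity
  intro τ hτ0 hτ' b' hb'
  have habs : |τ| = τ := abs_of_pos hτ0
  have hτ : |τ| < min (min ((1 / 8) / (K + 1)) ((ε / 4) / (lam * K ^ 2 + 1)))
    (min (1 / (K * (1 + 1 / s) + 1)) (g / (lam * (K * (2 + 1 / s)) + 1))) := by
    rw [habs]; exact hτ'
  have h1 : K * |τ| ≤ 1 / 8 :=
    small hK (lt_of_lt_of_le hτ ((min_le_left _ _).trans (min_le_left _ _)))
  have h2 : lam * K ^ 2 * |τ| ≤ ε / 4 :=
    small (by positivity)
      (lt_of_lt_of_le hτ ((min_le_left _ _).trans (min_le_right _ _)))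
  have h3 : K * (1 + 1 / s) * |τ| ≤ 1 :=
    small (by positivity)
      (lt_of_lt_of_le hτ ((min_le_right _ _).trans (min_le_left _ _)))
  have h4 : lam * (K * (2 + 1 / s)) * |τ| ≤ g :=
    small (by positivity) (lt_of_lt_of_le hτ ((min_le_right _ _).trans (min_le_right _ _)))
  have hc := ineq_c hlam0 hmK hs0 hs1 hsε hε h1 h2
  have hy := ineq_y (g := g) hlam0 hmK hs0 hε h3 h4
  rw [habs] at hc hy
  have hμ : 0 ≤ lam * (1 - m * τ) + ε * τ := by
    have h5 : m * τ ≤ K * |τ| := by
      refine (le_abs_self _).trans ?_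
      rw [abs_mul]
      exact mul_le_mul_of_nonneg_right hmK (abs_nonneg _)
    have h6 : 0 ≤ lam * (1 - m * τ) := mul_nonneg hlam0 (by linarith)
    have h7 : 0 ≤ ε * τ := by positivity
    linarith
  -- the subspace
  have ho : ∀ p q : Fin (j + 1), b (e p) (e q) = if p = q then 1 else 0 := orth_fin b hE.orth (j + 1)
  have hHD : HD a b' (lam * (1 - m * τ) + ε * τ) j := by
    refine ⟨Submodule.span ℝ (range fun p : Fin (j + 1) => e p), finrank_orth b ho, ?_⟩
    intro v hv
    obtain ⟨c', rfl⟩ := (Submodule.mem_span_range_iff_exists_fun ℝ).1 hv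
    -- coefficients as a function on ℕ
    obtain ⟨c, hcc⟩ : ∃ c : ℕ → ℝ, ∀ p : Fin (j + 1), c p = c' p :=
      ⟨fun l => if h : l < j + 1 then c' ⟨l, h⟩ else 0, fun p => dif_pos p.2⟩
    set y : H := ∑ l : Fin i, c l • e l with hydef
    set w : H := comb e i j c with hwdef
    have hv' : ∑ p, c' p • e p = y + w := by
      have e1 : ∑ p : Fin (j + 1), c' p • e p = ∑ l ∈ Finset.range (j + 1), c l • e l := by
        rw [Finset.sum_range]
        exact Finset.sum_congr rfl fun p _ => by rw [hcc]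
      have e2 : y = ∑ l ∈ Finset.range i, c l • e l := by
        rw [hydef, Finset.sum_range]
      rw [e1, e2, hwdef]
      unfold comb
      rw [Finset.range_eq_Ico, Finset.range_eq_Ico, ← Finset.Ico_succ_right_eq_Icc]
      exact (Finset.sum_Ico_consecutive _ (Nat.zero_le _) (by omega)).symm
    rw [hv']
    have hoi := orth_fin b hE.orth i
    have hyy : b y y = ∑ l : Fin i, c l ^ 2 := b_orth_self b hoi fun l => c l
    have hY0 : 0 ≤ b y y := hF.nb y
    have hX0 : 0 ≤ b w w := hF.nb w
    have hyw : b y w = 0 := comb_low hE.orth i j c fun l => c l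
    have hayy : a y y ≤ (lam - g) * b y y := by
      have h5 : a y y = ∑ l : Fin i, E l * c l ^ 2 := by
        rw [hydef, b_sum_left]
        refine Finset.sum_congr rfl fun l _ => ?_
        rw [hE.eig, b_orth_coef b hoi fun l => c l]
        ring
      rw [h5, hyy, Finset.mul_sum]
      refine Finset.sum_le_sum fun l _ => ?_
      have h6 := hgap l (Finset.mem_range.2 l.2)
      exact mul_le_mul_of_nonneg_right (by linarith) (sq_nonneg _)
    have hwe : ∀ v, a w v = lam * b w v := fun v => comb_eig hE hcl c v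
    have hwy : b w y = 0 := by rw [hF.sb, hyw]
    have hav : a (y + w) (y + w) = a y y + lam * b w w := by
      have h5 : a w y = 0 := by rw [hwe, hwy, mul_zero]
      have h6 : a y w = 0 := by rw [hF.sa, h5]
      simp only [map_add, add_apply, h5, h6, hwe w]
      ring
    have hbv : b (y + w) (y + w) = b y y + b w w := by
      simp only [map_add, add_apply, hyw, hwy]
      ring
    have hkv : k (y + w) (y + w) = k y y + 2 * k y w + k w w := by
      simp only [map_add, add_apply]
      rw [ksym w y]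
      ring
    -- the cross term
    have hcross : |2 * k y w| ≤ K * (b y y / s + s * b w w) := by
      have p1 := hk (y + s • w)
      have p2 := hk (y - s • w)
      have q1 : k (y + s • w) (y + s • w) = k y y + 2 * s * k y w + k w w * s ^ 2 := by
        simp only [map_add, map_smul, add_apply,
          smul_apply, smul_eq_mul]
        rw [ksym w y]
        ring
      have q2 : k (y - s • w) (y - s • w) = k y y - 2 * s * k y w + k w w * s ^ 2 := by
        simp only [map_sub, map_smul, sub_apply,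
          smul_apply, smul_eq_mul]
        rw [ksym w y]
        ring
      have r1 : b (y + s • w) (y + s • w) = b y y + s ^ 2 * b w w := by
        simp only [map_add, map_smul, add_apply,
          smul_apply, smul_eq_mul, hyw, hwy]
        ring
      have r2 : b (y - s • w) (y - s • w) = b y y + s ^ 2 * b w w := by
        simp only [map_sub, map_smul, sub_apply,
          smul_apply, smul_eq_mul, hyw, hwy]
        ring
      rw [q1, r1] at p1
      rw [q2, r2] at p2
      have h5 : |s * (2 * k y w)| ≤ s * (K * (b y y / s + s * b w w)) := by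
        have h6 : s * (K * (b y y / s + s * b w w)) = K * (b y y + s ^ 2 * b w w) := by
          field_simp
        rw [h6]
        obtain ⟨u1, u2⟩ := abs_le.1 p1
        obtain ⟨w1, w2⟩ := abs_le.1 p2
        rw [abs_le]
        constructor <;> linarith
      rw [abs_mul, abs_of_pos hs0] at h5
      exact le_of_mul_le_mul_left h5 hs0
    have hkyy := hk y
    have hmw : m * b w w ≤ k w w := hm c
    set Y := b y y with hYdef
    set X := b w w with hXdef
    have hlow : (1 + τ * m - τ * (K * s)) * X + (1 - τ * (K * (1 + 1 / s))) * Y ≤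
        b' (y + w) (y + w) := by
      refine le_trans ?_ (hb' _)
      rw [hbv, hkv]
      have h5 : -(τ * (K * Y + K * (Y / s + s * X))) ≤ τ * (k y y + 2 * k y w) := by
        have h6 : |τ * (k y y + 2 * k y w)| ≤ τ * (K * Y + K * (Y / s + s * X)) := by
          rw [abs_mul, habs]
          refine mul_le_mul_of_nonneg_left ?_ hτ0.le
          exact (abs_add_le _ _).trans (add_le_add hkyy hcross)
        exact (abs_le.1 h6).1
      have h8 : τ * (m * X) ≤ τ * k w w := mul_le_mul_of_nonneg_left hmw hτ0.le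
      have h7 : (1 + τ * m - τ * (K * s)) * X + (1 - τ * (K * (1 + 1 / s))) * Y =
          Y + X + τ * (m * X) - τ * (K * Y + K * (Y / s + s * X)) := by
        field_simp
        ring
      rw [h7]
      linarith
    rw [hav]
    calc a y y + lam * X ≤ (lam - g) * Y + lam * X := by linarith
      _ ≤ ((lam * (1 - m * τ) + ε * τ) * (1 - τ * (K * (1 + 1 / s)))) * Y +
          ((lam * (1 - m * τ) + ε * τ) * (1 + τ * m - τ * (K * s))) * X :=
          add_le_add (mul_le_mul_of_nonneg_right hy hY0) (mul_le_mul_of_nonneg_right hc hX0)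
      _ = (lam * (1 - m * τ) + ε * τ) *
          ((1 + τ * m - τ * (K * s)) * X + (1 - τ * (K * (1 + 1 / s))) * Y) := by ring
      _ ≤ _ := mul_le_mul_of_nonneg_left hlow hμ
  exact csInf_le ⟨0, fun x hx => hx.1⟩ ⟨hμ, hHD⟩

end Pool.Agent.X103.QF
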