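import Pool.Agent.X103.QF1
import Pool.Agent.Y155.QR.One

/-!
# Local minima of the perturbed eigenvalue functionals
-/

set_option autoImplicit false

open Set Filter Topology MeasureTheory
open scoped Real

noncomputable section

namespace Pool.Agent.X103.QF

open Pool.Agent.Y262.QE Pool.Agent.Y264.QR Pool.Agent.Y592.QE Pool.Agent.Y390.QR.LIP

/-! ### Uniform convergence of equi-Lipschitz functions -/

theorem unif {X : Type} [PseudoMetricSpace X] (S : Set X) (hS : IsCompact S) (f : ℕ → X → ℝ)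
    (C c : ℝ) (hC : ∀ᶠ j in atTop, ∀ x y, |f j x - f j y| ≤ C * dist x y)
    (hc : ∀ x, Tendsto (fun j => f j x) atTop (𝓝 c)) (ε : ℝ) (hε : 0 < ε) :
    ∀ᶠ j in atTop, ∀ x ∈ S, |f j x - c| < ε := by
  set C' : ℝ := |C| + 1 with hC'
  have hC0 : 0 < C' := by positivity
  have hd : 0 < ε / (2 * C') := by positivity
  obtain ⟨t, _, htS, hcov⟩ := hS.elim_finite_subcover_image (b := S)
    (c := fun x => Metric.ball x (ε / (2 * C'))) (fun x _ => Metric.isOpen_ball)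
    (fun x hx => mem_iUnion₂.2 ⟨x, hx, Metric.mem_ball_self hd⟩)
  have h1 : ∀ᶠ j in atTop, ∀ x ∈ t, |f j x - c| < ε / 2 := by
    rw [Filter.eventually_all_finite htS]
    intro x _
    have h2 := (hc x).eventually (Metric.ball_mem_nhds c (half_pos hε))
    exact h2
  filter_upwards [h1, hC] with j hj hCj x hx
  obtain ⟨y, hy, hxy⟩ := mem_iUnion₂.1 (hcov hx)
  have h2 := hj y hy
  have h3 := hCj x y
  have h4 : C * dist x y ≤ ε / 2 := by
    have h5 : dist x y < ε / (2 * C') := hxy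
    calc C * dist x y ≤ C' * dist x y :=
          mul_le_mul_of_nonneg_right (by rw [hC']; linarith [le_abs_self C]) dist_nonneg
      _ ≤ C' * (ε / (2 * C')) := mul_le_mul_of_nonneg_left h5.le hC0.le
      _ = ε / 2 := by field_simp
  have h6 : f j x - c = (f j x - f j y) + (f j y - c) := by ring
  rw [h6]
  refine lt_of_le_of_lt (abs_add_le _ _) ?_
  linarith

/-! ### Right derivatives at a minimum -/

theorem rder {U : ℝ → ℝ} {U' δ : ℝ} (hU : HasDerivAt U U' 0) (hU' : U' < 0) (hδ : 0 < δ)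
    (hmin : ∀ τ, 0 < τ → τ < δ → U 0 ≤ U τ) : False := by
  have h1 := hU.tendsto_slope_zero_right
  have h2 : ∀ᶠ τ in 𝓝[>] (0 : ℝ), τ⁻¹ • (U (0 + τ) - U 0) < 0 := h1.eventually (gt_mem_nhds hU')
  have h3 : ∀ᶠ τ in 𝓝[>] (0 : ℝ), 0 < τ ∧ τ < δ := by
    filter_upwards [self_mem_nhdsWithin, mem_nhdsWithin_of_mem_nhds (Iio_mem_nhds hδ)] with τ a b
    exact ⟨a, b⟩
  obtain ⟨τ, h4, h5, h6⟩ := (h2.and h3).exists
  rw [zero_add, smul_eq_mul] at h4
  have h7 := hmin τ h5 h6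
  have h8 : 0 ≤ τ⁻¹ * (U τ - U 0) := mul_nonneg (inv_nonneg.2 h5.le) (by linarith)
  linarith

/-! ### The forms -/

section main

variable {M : Type} [MetricSpace M] [CompactSpace M] [MeasurableSpace M] [BorelSpace M]
  (μ : Measure M) [IsFiniteMeasure μ] {H : Type} [NormedAddCommGroup H] [InnerProductSpace ℝ H]
  (i : H →L[ℝ] Lp ℝ 2 μ) (a : H →L[ℝ] H →L[ℝ] ℝ) (b : C(M, ℝ) → H →L[ℝ] H →L[ℝ] ℝ)

/-- the combination of the directions `h` with the coefficients `s` -/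
def sh {m : ℕ} (h : Fin m → C(M, ℝ)) (s : EuclideanSpace ℝ (Fin m)) : C(M, ℝ) := ∑ l, s l • h l

theorem sh_sub {m : ℕ} (h : Fin m → C(M, ℝ)) (s t : EuclideanSpace ℝ (Fin m)) :
    sh h s - sh h t = sh h (s - t) := by
  unfold sh
  rw [← Finset.sum_sub_distrib]
  exact Finset.sum_congr rfl fun l _ => by rw [PiLp.sub_apply, sub_smul]

theorem sh_add_smul {m : ℕ} (h : Fin m → C(M, ℝ)) (s t : EuclideanSpace ℝ (Fin m)) (τ : ℝ) :
    sh h (s + τ • t) = sh h s + τ • sh h t := by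
  unfold sh
  rw [Finset.smul_sum, ← Finset.sum_add_distrib]
  refine Finset.sum_congr rfl fun l _ => ?_
  rw [PiLp.add_apply, PiLp.smul_apply, add_smul, smul_smul, smul_eq_mul]

theorem norm_sh {m : ℕ} (h : Fin m → C(M, ℝ)) (s : EuclideanSpace ℝ (Fin m)) :
    ‖sh h s‖ ≤ (∑ l, ‖h l‖) * ‖s‖ := by
  unfold sh
  refine (norm_sum_le _ _).trans ?_
  rw [Finset.sum_mul]
  refine Finset.sum_le_sum fun l _ => ?_
  rw [norm_smul, mul_comm]
  exact mul_le_mul_of_nonneg_left (PiLp.norm_apply_le s l) (norm_nonneg _)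

/-- the area -/
def ar (ψ : C(M, ℝ)) : ℝ := ∫ x, Real.exp (ψ x) ∂μ

/-- the functional `log (E_j A)` -/
def Ps (j : ℕ) (ψ : C(M, ℝ)) : ℝ := Real.log (Ev a (b ψ) j) + Real.log (ar μ ψ)

theorem ar_le (ψ ψ' : C(M, ℝ)) : ar μ ψ ≤ Real.exp ‖ψ - ψ'‖ * ar μ ψ' := by
  unfold ar
  rw [← integral_const_mul]
  refine integral_mono (Pool.Agent.Y155.QR.int_cont μ (by fun_prop))
    (Pool.Agent.Y155.QR.int_cont μ (by fun_prop)) fun x => ?_
  show Real.exp (ψ x) ≤ Real.exp ‖ψ - ψ'‖ * Real.exp (ψ' x)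
  rw [← Real.exp_add]
  refine Real.exp_le_exp.2 ?_
  have h1 := (le_abs_self _).trans ((ψ - ψ').norm_coe_le_norm x)
  rw [ContinuousMap.sub_apply] at h1
  linarith

variable {μ i a b}

theorem log_le {f : C(M, ℝ) → ℝ} (hf : ∀ ψ, 0 < f ψ)
    (h : ∀ ψ ψ' : C(M, ℝ), f ψ ≤ Real.exp ‖ψ - ψ'‖ * f ψ') (ψ ψ' : C(M, ℝ)) :
    |Real.log (f ψ) - Real.log (f ψ')| ≤ ‖ψ - ψ'‖ := by
  have key : ∀ ψ ψ' : C(M, ℝ), Real.log (f ψ) - Real.log (f ψ') ≤ ‖ψ - ψ'‖ := by
    intro ψ ψ'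
    have h1 := Real.log_le_log (hf ψ) (h ψ ψ')
    rw [Real.log_mul (Real.exp_pos _).ne' (hf ψ').ne', Real.log_exp] at h1
    linarith
  rw [abs_le]
  constructor
  · have h1 := key ψ' ψ
    rw [norm_sub_rev] at h1
    linarith
  · exact key ψ ψ'

/-- **The main lemma.** For large `j` there is a small `s` such that the convex hull of the values of
the forms on the unit vectors of the eigenspace contains a point near the mean values. -/
theorem near (hFm : StFm) (hLip : StLip) (hSf : Sf μ i a) (hB : IsB μ i b) (hW : Wl μ a b)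
    (e : C(M, ℝ) → ℕ → H) (E : C(M, ℝ) → ℕ → ℝ) (hE : ∀ ψ, Eg a (b ψ) (e ψ) (E ψ))
    (φ : C(M, ℝ)) {m : ℕ} (h : Fin m → C(M, ℝ)) (R δ : ℝ) (hR : 0 < R) (hδ : 0 < δ) :
    ∀ᶠ j in atTop, ∃ s : EuclideanSpace ℝ (Fin m), ‖s‖ < R ∧ ∃ i₀ : ℕ, i₀ ≤ j ∧
      (∀ l, i₀ ≤ l → l ≤ j → E (φ + sh h s) l = E (φ + sh h s) j) ∧
      ∃ x ∈ convexHull ℝ {x : EuclideanSpace ℝ (Fin m) | ∃ c : ℕ → ℝ,
        b (φ + sh h s) (comb (e (φ + sh h s)) i₀ j c) (comb (e (φ + sh h s)) i₀ j c) = 1 ∧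
        ∀ l, x l = kap μ i (h l) (φ + sh h s) (comb (e (φ + sh h s)) i₀ j c) -
          avg μ (h l) (φ + sh h s)}, ‖x‖ < δ := by
  obtain ⟨b0, hB0, hF, hA, hexp, hk⟩ := hFm M μ H i a hSf
  have hbb : b0 = b := by
    funext ψ
    ext u v
    rw [hB0, hB]
  subst hbb
  obtain ⟨l1, l2, l3, l4, l5⟩ := hLip M μ H a b0 hF hexp
  have hmm : ∀ ψ j, Ev a (b0 ψ) j = E ψ j := fun ψ j =>
    Pool.Agent.Y592.QE.mm H a (b0 ψ) (hF _) (e ψ) (E ψ) (hE ψ) j
  -- positivity
  obtain ⟨J, hJ⟩ : ∃ J : ℕ, ∀ j, J ≤ j → ∀ ψ, 0 < Ev a (b0 ψ) j := by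
    have h1 := hW φ
    have h2 : (0 : ℝ) < 4 * π / ∫ x, Real.exp (φ x) ∂μ :=
      div_pos (by positivity) (hA φ)
    obtain ⟨J, hJ⟩ := eventually_atTop.1 (h1.eventually (lt_mem_nhds h2))
    refine ⟨J, fun j hj => ?_⟩
    rcases l5 j with h3 | h3
    · exfalso
      have h4 := hJ j hj
      rw [h3 φ, zero_div] at h4
      exact lt_irrefl _ h4
    · exact h3
  have hAr : ∀ ψ, 0 < ar μ ψ := hA
  -- Lipschitz bounds
  set C : ℝ := 2 * ∑ l, ‖h l‖ with hC
  have hPs : ∀ j, J ≤ j → ∀ ψ ψ' : C(M, ℝ), |Ps μ a b0 j ψ - Ps μ a b0 j ψ'| ≤ 2 * ‖ψ - ψ'‖ := by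
    intro j hj ψ ψ'
    have h1 := log_le (hJ j hj) (fun ψ ψ' => l3 ψ ψ' j) ψ ψ'
    have h2 := log_le hAr (ar_le μ) ψ ψ'
    have h3 : Ps μ a b0 j ψ - Ps μ a b0 j ψ' = (Real.log (Ev a (b0 ψ) j) -
        Real.log (Ev a (b0 ψ') j)) + (Real.log (ar μ ψ) - Real.log (ar μ ψ')) := by
      unfold Ps; ring
    rw [h3]
    refine (abs_add_le _ _).trans ?_
    linarith
  have hPsl : ∀ j, J ≤ j → ∀ s t : EuclideanSpace ℝ (Fin m),
      |Ps μ a b0 j (φ + sh h s) - Ps μ a b0 j (φ + sh h t)| ≤ C * dist s t := by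
    intro j hj s t
    refine (hPs j hj _ _).trans ?_
    rw [add_sub_add_left_eq_sub, sh_sub, dist_eq_norm, hC, mul_assoc]
    exact mul_le_mul_of_nonneg_left (norm_sh h _) (by norm_num)
  -- convergence
  have hconv : ∀ s : EuclideanSpace ℝ (Fin m), Tendsto (fun j : ℕ =>
      Ps μ a b0 j (φ + sh h s) - Real.log ((j : ℝ) + 1)) atTop (𝓝 (Real.log (4 * π))) := by
    intro s
    have h1 := (hW (φ + sh h s)).log (div_pos (by positivity) (hA _)).ne'
    have h2 := h1.add_const (Real.log (ar μ (φ + sh h s)))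
    have h3 : Real.log (4 * π / ∫ x, Real.exp ((φ + sh h s) x) ∂μ) +
        Real.log (ar μ (φ + sh h s)) = Real.log (4 * π) := by
      rw [Real.log_div (by positivity) (hA _).ne']
      unfold ar
      ring
    rw [h3] at h2
    refine h2.congr' ?_
    filter_upwards [eventually_ge_atTop J] with j hj
    rw [Real.log_div (hJ j hj _).ne' (by positivity)]
    unfold Ps
    ring
  -- the size of the penalty
  set η : ℝ := δ / (32 * R) with hη
  have hη0 : 0 < η := by positivity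
  have hun := unif (Metric.closedBall (0 : EuclideanSpace ℝ (Fin m)) R)
    (isCompact_closedBall _ _)
    (fun j s => Ps μ a b0 j (φ + sh h s) - Real.log ((j : ℝ) + 1)) C (Real.log (4 * π)) (by
      filter_upwards [eventually_ge_atTop J] with j hj x y
      have := hPsl j hj x y
      rw [sub_sub_sub_cancel_right]
      exact this) hconv (η * R ^ 2 / 4) (by positivity)
  filter_upwards [hun, eventually_ge_atTop J] with j hj hJj
  -- the minimizer
  have hcont : Continuous fun s : EuclideanSpace ℝ (Fin m) =>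
      Ps μ a b0 j (φ + sh h s) + η * ‖s‖ ^ 2 := by
    have h1 : Continuous fun s : EuclideanSpace ℝ (Fin m) => Ps μ a b0 j (φ + sh h s) := by
      have h2 : LipschitzWith (Real.toNNReal C) fun s : EuclideanSpace ℝ (Fin m) =>
          Ps μ a b0 j (φ + sh h s) := by
        refine LipschitzWith.of_dist_le_mul fun s t => ?_
        rw [Real.dist_eq]
        refine (hPsl j hJj s t).trans ?_
        exact mul_le_mul_of_nonneg_right (Real.le_coe_toNNReal C) dist_nonneg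
      exact h2.continuous
    fun_prop
  obtain ⟨s, hsS, hsmin⟩ := (isCompact_closedBall (0 : EuclideanSpace ℝ (Fin m)) R).exists_isMinOn
    ⟨0, Metric.mem_closedBall_self hR.le⟩ hcont.continuousOn
  have hsle : ‖s‖ ≤ R := by rwa [mem_closedBall_zero_iff] at hsS
  have hslt : ‖s‖ < R := by
    refine lt_of_le_of_ne hsle fun heq => ?_
    have h0 := isMinOn_iff.1 hsmin 0 (Metric.mem_closedBall_self hR.le)
    have h1 := (abs_lt.1 (hj s hsS)).1
    have h2 := (abs_lt.1 (hj 0 (Metric.mem_closedBall_self hR.le))).2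
    simp only [norm_zero, heq] at h0 h1 h2
    have h3 : 0 < η * R ^ 2 := by positivity
    nlinarith
  -- the cluster
  set ψ := φ + sh h s with hψ
  have hex : ∃ l, E ψ l = E ψ j := ⟨j, rfl⟩
  obtain ⟨i₀, hi₀, hmin₀⟩ : ∃ i₀, E ψ i₀ = E ψ j ∧ ∀ l, l < i₀ → E ψ l ≠ E ψ j := by
    classical
    exact ⟨Nat.find hex, Nat.find_spec hex, fun l hl => Nat.find_min hex hl⟩
  have hi₀j : i₀ ≤ j := by
    by_contra hcon
    exact hmin₀ j (by omega) rfl
  have hmono := (hE ψ).mono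
  have hcl : ∀ l, i₀ ≤ l → l ≤ j → E ψ l = E ψ j := by
    intro l h1 h2
    refine le_antisymm (hmono h2) ?_
    rw [← hi₀]
    exact hmono h1
  have hlt : ∀ l, l < i₀ → E ψ l < E ψ i₀ := by
    intro l hl
    refine lt_of_le_of_ne (hmono hl.le) ?_
    rw [hi₀]
    exact hmin₀ l hl
  refine ⟨s, hslt, i₀, hi₀j, hcl, ?_⟩
  -- separation
  by_contra hcon
  push Not at hcon
  set Q : Set (EuclideanSpace ℝ (Fin m)) := {x | ∃ c : ℕ → ℝ,
    b0 ψ (comb (e ψ) i₀ j c) (comb (e ψ) i₀ j c) = 1 ∧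
    ∀ l, x l = kap μ i (h l) ψ (comb (e ψ) i₀ j c) - avg μ (h l) ψ} with hQ
  have hdisj : Disjoint (Metric.ball (0 : EuclideanSpace ℝ (Fin m)) δ) (convexHull ℝ Q) := by
    rw [Set.disjoint_left]
    intro x hx hx2
    have h1 := hcon x hx2
    rw [mem_ball_zero_iff] at hx
    linarith
  obtain ⟨f, r, hf1, hf2⟩ := geometric_hahn_banach_open (convex_ball _ _) Metric.isOpen_ball
    (convex_convexHull ℝ Q) hdisj
  -- the vector which represents the functional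
  obtain ⟨θ, hθ⟩ : ∃ θ : EuclideanSpace ℝ (Fin m), ∀ x, f x = inner ℝ θ x :=
    ⟨(InnerProductSpace.toDual ℝ _).symm f, fun x => by
      rw [← InnerProductSpace.toDual_apply_apply (𝕜 := ℝ)]; simp⟩
  have hr0 : 0 < r := by
    have := hf1 0 (Metric.mem_ball_self hδ)
    rwa [map_zero] at this
  have hrθ : δ / 2 * ‖θ‖ < r := by
    by_cases hθ0 : θ = 0
    · rw [hθ0, norm_zero, mul_zero]; exact hr0
    · have hn : 0 < ‖θ‖ := norm_pos_iff.2 hθ0
      have h1 : (δ / 2 / ‖θ‖) • θ ∈ Metric.ball (0 : EuclideanSpace ℝ (Fin m)) δ := by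
        rw [mem_ball_zero_iff, norm_smul, Real.norm_of_nonneg (by positivity)]
        rw [div_mul_cancel₀ _ hn.ne']
        linarith
      have h2 := hf1 _ h1
      rw [hθ, inner_smul_right, real_inner_self_eq_norm_sq] at h2
      have h3 : δ / 2 / ‖θ‖ * ‖θ‖ ^ 2 = δ / 2 * ‖θ‖ := by
        field_simp
      rwa [h3] at h2
  -- the direction
  set hθ' : C(M, ℝ) := sh h θ with hhθ
  have hkapθ : ∀ v : H, kap μ i hθ' ψ v = ∑ l, θ l * kap μ i (h l) ψ v := by
    intro v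
    unfold kap
    simp_rw [← integral_const_mul]
    rw [← integral_finsetSum]
    · refine integral_congr_ae (Eventually.of_forall fun x => ?_)
      simp only [hhθ, sh, ContinuousMap.coe_sum, Finset.sum_apply, ContinuousMap.coe_smul,
        Pi.smul_apply, smul_eq_mul]
      rw [Finset.sum_mul]
      exact Finset.sum_congr rfl fun l _ => by ring
    · intro l _
      refine Integrable.const_mul ?_ _
      have h1 : Integrable (fun x => (i v x) ^ 2) μ := (Lp.memLp (i v)).integrable_sq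
      have h2 : (fun x => h l x * (Real.exp (ψ x) * (i v x) ^ 2)) =
          fun x => (h l x * Real.exp (ψ x)) * (i v x) ^ 2 := by
        funext x; ring
      rw [h2]
      obtain ⟨B, hB'⟩ := (isCompact_univ (X := M)).exists_bound_of_continuousOn
        (f := fun x => h l x * Real.exp (ψ x)) (by fun_prop)
      exact h1.bdd_mul (c := B) (by fun_prop : Continuous fun x => h l x *
        Real.exp (ψ x)).aestronglyMeasurable (Eventually.of_forall fun x => hB' x (mem_univ x))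
  have havgθ : avg μ hθ' ψ = ∑ l, θ l * avg μ (h l) ψ := by
    unfold avg
    have h1 : ∫ x, hθ' x * Real.exp (ψ x) ∂μ = ∑ l, θ l * ∫ x, h l x * Real.exp (ψ x) ∂μ := by
      simp_rw [← integral_const_mul]
      rw [← integral_finsetSum]
      · refine integral_congr_ae (Eventually.of_forall fun x => ?_)
        simp only [hhθ, sh, ContinuousMap.coe_sum, Finset.sum_apply, ContinuousMap.coe_smul,
          Pi.smul_apply, smul_eq_mul]
        rw [Finset.sum_mul]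
        exact Finset.sum_congr rfl fun l _ => by ring
      · intro l _
        exact Pool.Agent.Y155.QR.int_cont μ (by fun_prop)
    rw [h1, Finset.sum_div]
    exact Finset.sum_congr rfl fun l _ => by ring
  obtain ⟨k, ksym, k1, k2⟩ := hk hθ'
  have hnb : ∀ v, 0 ≤ b0 ψ v v := (hF ψ).nb
  -- the lower bound for the form on the eigenspace
  set mm' : ℝ := avg μ hθ' ψ + δ / 2 * ‖θ‖ with hmm'
  have hunit : ∀ c : ℕ → ℝ, b0 ψ (comb (e ψ) i₀ j c) (comb (e ψ) i₀ j c) = 1 →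
      mm' ≤ k ψ (comb (e ψ) i₀ j c) (comb (e ψ) i₀ j c) := by
    intro c hc
    have h1 : (WithLp.toLp 2 fun l => kap μ i (h l) ψ (comb (e ψ) i₀ j c) -
        avg μ (h l) ψ : EuclideanSpace ℝ (Fin m)) ∈ convexHull ℝ Q :=
      subset_convexHull ℝ Q ⟨c, hc, fun l => rfl⟩
    have h2 := hf2 _ h1
    rw [hθ, PiLp.inner_apply] at h2
    simp only [RCLike.inner_apply, conj_trivial] at h2
    have h3 : ∑ l, (kap μ i (h l) ψ (comb (e ψ) i₀ j c) - avg μ (h l) ψ) * θ l =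
        kap μ i hθ' ψ (comb (e ψ) i₀ j c) - avg μ hθ' ψ := by
      rw [hkapθ, havgθ, ← Finset.sum_sub_distrib]
      exact Finset.sum_congr rfl fun l _ => by ring
    rw [h3] at h2
    rw [(k1 ψ _).1, hmm']
    linarith
  have hhom : ∀ c : ℕ → ℝ, mm' * b0 ψ (comb (e ψ) i₀ j c) (comb (e ψ) i₀ j c) ≤
      k ψ (comb (e ψ) i₀ j c) (comb (e ψ) i₀ j c) := by
    intro c
    by_cases h0 : b0 ψ (comb (e ψ) i₀ j c) (comb (e ψ) i₀ j c) = 0
    · have h1 := (k1 ψ (comb (e ψ) i₀ j c)).2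
      rw [h0, mul_zero] at h1
      have h2 := abs_nonpos_iff.1 h1
      rw [h0, h2, mul_zero]
    · have hpos : 0 < b0 ψ (comb (e ψ) i₀ j c) (comb (e ψ) i₀ j c) :=
        lt_of_le_of_ne (hnb _) (Ne.symm h0)
      set B := b0 ψ (comb (e ψ) i₀ j c) (comb (e ψ) i₀ j c) with hBdef
      have hsq : (Real.sqrt B)⁻¹ * (Real.sqrt B)⁻¹ = B⁻¹ := by
        rw [← mul_inv, Real.mul_self_sqrt hpos.le]
      have h2 : comb (e ψ) i₀ j (fun l => (Real.sqrt B)⁻¹ * c l) =
          (Real.sqrt B)⁻¹ • comb (e ψ) i₀ j c := by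
        unfold comb
        rw [Finset.smul_sum]
        exact Finset.sum_congr rfl fun l _ => by rw [smul_smul]
      have h3 := hunit (fun l => (Real.sqrt B)⁻¹ * c l) (by
        rw [h2]
        simp only [map_smul, smul_apply, smul_eq_mul]
        rw [← hBdef, ← mul_assoc, hsq, inv_mul_cancel₀ hpos.ne'])
      rw [h2] at h3
      simp only [map_smul, smul_apply, smul_eq_mul] at h3
      rw [← mul_assoc, hsq] at h3
      have h4 := mul_le_mul_of_nonneg_right h3 hpos.le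
      have h5 : B⁻¹ * k ψ (comb (e ψ) i₀ j c) (comb (e ψ) i₀ j c) * B =
          k ψ (comb (e ψ) i₀ j c) (comb (e ψ) i₀ j c) := by
        field_simp
      rw [h5] at h4
      exact h4
  -- the constant is bounded by the norm
  have hcj : comb (e ψ) i₀ j (fun l => if l = j then 1 else 0) = e ψ j := by
    unfold comb
    rw [Finset.sum_eq_single j]
    · show (if j = j then (1 : ℝ) else 0) • e ψ j = e ψ j
      rw [if_pos rfl, one_smul]
    · intro l _ hl
      show (if l = j then (1 : ℝ) else 0) • e ψ l = 0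
      rw [if_neg hl, zero_smul]
    · intro hh
      exact absurd (Finset.mem_Icc.2 ⟨hi₀j, le_rfl⟩) hh
  have hmK : |mm'| ≤ ‖hθ'‖ := by
    rw [abs_le]
    constructor
    · have h1 := (abs_le.1 (Pool.Agent.Y155.QR.avg_le μ hA ψ hθ')).1
      have h2 : 0 ≤ δ / 2 * ‖θ‖ := by positivity
      linarith
    · have h1 := hhom (fun l => if l = j then 1 else 0)
      rw [hcj, (hE ψ).orth, if_pos rfl, mul_one] at h1
      have h2 := (le_abs_self _).trans (k1 ψ (e ψ j)).2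
      rw [(hE ψ).orth, if_pos rfl, mul_one] at h2
      exact h1.trans h2
  have hEj : 0 < E ψ j := by rw [← hmm]; exact hJ j hJj ψ
  -- θ is not zero
  have hθpos : 0 < ‖θ‖ := by
    rw [norm_pos_iff]
    intro h0
    have h1 : (WithLp.toLp 2 fun l => kap μ i (h l) ψ (e ψ j) - avg μ (h l) ψ :
        EuclideanSpace ℝ (Fin m)) ∈ convexHull ℝ Q :=
      subset_convexHull ℝ Q ⟨fun l => if l = j then 1 else 0, by
        rw [hcj, (hE ψ).orth, if_pos rfl], fun l => by rw [hcj]⟩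
    have h2 := hf2 _ h1
    rw [hθ, h0, inner_zero_left] at h2
    linarith
  set ε₁ : ℝ := E ψ j * (δ / 8 * ‖θ‖) with hε₁
  have hε₁0 : 0 < ε₁ := by positivity
  obtain ⟨δ₁, hδ₁, hder⟩ := derW (hF ψ) (hE ψ) (k ψ) ‖hθ'‖ (ksym ψ) (fun v => (k1 ψ v).2) i₀ j hi₀j
    hcl hlt mm' hmK hhom ε₁ hε₁0
  -- the comparison function
  set U : ℝ → ℝ := fun τ => Real.log (E ψ j * (1 - mm' * τ) + ε₁ * τ) +
    Real.log (∫ x, Real.exp ((ψ + τ • hθ') x) ∂μ) + η * ‖s + τ • θ‖ ^ 2 with hUdef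
  have hUd : HasDerivAt U (-mm' + δ / 8 * ‖θ‖ + avg μ hθ' ψ + η * (2 * inner ℝ s θ)) 0 := by
    have d1 : HasDerivAt (fun τ : ℝ => E ψ j * (1 - mm' * τ) + ε₁ * τ)
        (E ψ j * (-mm') + ε₁) 0 := by
      have := ((((hasDerivAt_id (0 : ℝ)).const_mul mm').const_sub 1).const_mul (E ψ j)).add
        ((hasDerivAt_id (0 : ℝ)).const_mul ε₁)
      exact this.congr_deriv (by ring)
    have d2 := d1.log (by simpa using hEj.ne')
    have d3 := (Pool.Agent.Y155.QR.hdA μ ψ hθ' 0).log (by simpa using (hA ψ).ne')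
    have d4 : HasDerivAt (fun τ : ℝ => ‖s + τ • θ‖ ^ 2) (2 * inner ℝ s θ) 0 := by
      have h1 : (fun τ : ℝ => ‖s + τ • θ‖ ^ 2) =
          fun τ : ℝ => ‖s‖ ^ 2 + 2 * inner ℝ s θ * τ + ‖θ‖ ^ 2 * τ ^ 2 := by
        funext τ
        rw [norm_add_sq_real, inner_smul_right, norm_smul, mul_pow, Real.norm_eq_abs, sq_abs]
        ring
      rw [h1]
      have := (((hasDerivAt_id (0 : ℝ)).const_mul (2 * inner ℝ s θ)).const_add (‖s‖ ^ 2)).add
        (((hasDerivAt_id (0 : ℝ)).pow 2).const_mul (‖θ‖ ^ 2))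
      exact this.congr_deriv (by simp)
    have d5 := (d2.add d3).add (d4.const_mul η)
    refine d5.congr_deriv ?_
    · have e1 : (E ψ j * -mm' + ε₁) / (E ψ j * (1 - mm' * 0) + ε₁ * 0) = -mm' + δ / 8 * ‖θ‖ := by
        rw [hε₁]
        field_simp
        ring
      have e2 : (∫ x, hθ' x * Real.exp ((ψ + (0 : ℝ) • hθ') x) ∂μ) /
          (∫ x, Real.exp ((ψ + (0 : ℝ) • hθ') x) ∂μ) = avg μ hθ' ψ := by
        simp only [zero_smul, add_zero]
        rfl
      rw [e1, e2]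
  have hUneg : -mm' + δ / 8 * ‖θ‖ + avg μ hθ' ψ + η * (2 * inner ℝ s θ) < 0 := by
    have h1 : inner ℝ s θ ≤ R * ‖θ‖ :=
      (real_inner_le_norm s θ).trans (mul_le_mul_of_nonneg_right hsle (norm_nonneg _))
    have h2 : η * (2 * inner ℝ s θ) ≤ δ / 16 * ‖θ‖ := by
      calc η * (2 * inner ℝ s θ) ≤ η * (2 * (R * ‖θ‖)) :=
            mul_le_mul_of_nonneg_left (by linarith) hη0.le
        _ = δ / 16 * ‖θ‖ := by rw [hη]; field_simp; ring
    have h3 : 0 < δ * ‖θ‖ := by positivity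
    rw [hmm']
    linarith
  -- the minimum
  have hpos0 : ∀ᶠ τ : ℝ in 𝓝[>] 0, ‖s + τ • θ‖ ≤ R := by
    have h1 : Tendsto (fun τ : ℝ => ‖s + τ • θ‖) (𝓝[>] 0) (𝓝 ‖s‖) := by
      have h2 : Continuous fun τ : ℝ => ‖s + τ • θ‖ := by fun_prop
      have h3 := (h2.tendsto 0).mono_left (nhdsWithin_le_nhds (s := Ioi 0))
      simpa using h3
    exact (h1.eventually (gt_mem_nhds hslt)).mono fun τ h => h.le
  obtain ⟨δ₂, hδ₂, hδ₂'⟩ : ∃ δ₂ : ℝ, 0 < δ₂ ∧ ∀ τ : ℝ, 0 < τ → τ < δ₂ → ‖s + τ • θ‖ ≤ R := by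
    rw [eventually_nhdsWithin_iff, Metric.eventually_nhds_iff] at hpos0
    obtain ⟨δ₂, h1, h2⟩ := hpos0
    refine ⟨δ₂, h1, fun τ h3 h4 => h2 ?_ h3⟩
    rw [Real.dist_eq, sub_zero, abs_of_pos h3]
    exact h4
  refine rder hUd hUneg (lt_min hδ₁ hδ₂) fun τ hτ0 hτ => ?_
  have hτ1 : τ < δ₁ := lt_of_lt_of_le hτ (min_le_left _ _)
  have hτ2 : τ < δ₂ := lt_of_lt_of_le hτ (min_le_right _ _)
  have hval : Ev a (b0 (ψ + τ • hθ')) j ≤ E ψ j * (1 - mm' * τ) + ε₁ * τ :=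
    hder τ hτ0 hτ1 (b0 (ψ + τ • hθ')) fun v => k2 ψ v τ
  have hmin1 := isMinOn_iff.1 hsmin (s + τ • θ) (by
    rw [mem_closedBall_zero_iff]
    exact hδ₂' τ hτ0 hτ2)
  have e1 : φ + sh h (s + τ • θ) = ψ + τ • hθ' := by
    rw [sh_add_smul, ← add_assoc]
  rw [e1, ← hψ] at hmin1
  have h5 : U 0 = Ps μ a b0 j ψ + η * ‖s‖ ^ 2 := by
    simp only [hUdef, Ps, ar, mul_zero, sub_zero, mul_one, add_zero, zero_smul, hmm]
  rw [h5]
  refine hmin1.trans ?_
  have h6 : Real.log (Ev a (b0 (ψ + τ • hθ')) j) ≤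
      Real.log (E ψ j * (1 - mm' * τ) + ε₁ * τ) := Real.log_le_log (hJ j hJj _) hval
  simp only [hUdef, Ps, ar]
  linarith

end main

end Pool.Agent.X103.QF
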