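import Pool.Agent.X103.QF2
import Pool.Agent.Y264.QR.All

/-!
# From the forms to functions on the surface
-/

set_option autoImplicit false

open Set Filter Topology MeasureTheory
open scoped Real

noncomputable section

namespace Pool.Agent.X103.QF

open Pool.Agent.Y262.QE Pool.Agent.Y264.QR

section

variable {M : Type} [MetricSpace M] [CompactSpace M] [MeasurableSpace M] [BorelSpace M]

theorem pack [Nonempty M] (μ : Measure M) (D : Data M) (hD : D.IsSurf μ) :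
    ∃ (_ : IsFiniteMeasure μ) (i : HF D μ →L[ℝ] Lp ℝ 2 μ) (a : HF D μ →L[ℝ] HF D μ →L[ℝ] ℝ)
      (b : C(M, ℝ) → HF D μ →L[ℝ] HF D μ →L[ℝ] ℝ), Sf μ i a ∧ (∀ v, i v = v.1.fst) ∧
      (∀ u v, a u v = inner ℝ u.1.snd v.1.snd) ∧ IsB μ i b ∧ (∀ φ, Fm a (b φ)) ∧ Wl μ a b := by
  obtain ⟨hf, -⟩ := tFin M μ D hD
  haveI := hf
  obtain ⟨i, a, hSf, hi, ha⟩ := tPackF M μ D hD inferInstance
  obtain ⟨b, hB, hF, -, -, -⟩ := tFm M μ (HF D μ) i a hSf
  exact ⟨hf, i, a, b, hSf, hi, ha, hB, hF, tWl M μ D hD inferInstance i a b hSf hi ha hB⟩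

theorem mass_vec (μ : Measure M) {H : Type} [NormedAddCommGroup H] [InnerProductSpace ℝ H]
    (i : H →L[ℝ] Lp ℝ 2 μ) (b : C(M, ℝ) → H →L[ℝ] H →L[ℝ] ℝ) (hB : IsB μ i b) (φ : C(M, ℝ)) (v : H)
    (u : M → ℝ) (h : (i v : M → ℝ) =ᵐ[μ] u) :
    b φ v v = ∫ x, (u x) ^ 2 ∂(wm μ fun x => Real.exp (φ x)) := by
  have h1 : b φ v v = kap μ i 1 φ v := by
    rw [hB]
    unfold kap
    refine integral_congr_ae (Eventually.of_forall fun x => ?_)
    simp only [ContinuousMap.one_apply]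
    ring
  rw [h1, kap_eq μ i 1 φ v u h]
  refine integral_congr_ae (Eventually.of_forall fun x => ?_)
  simp only [ContinuousMap.one_apply, one_mul]

/-- an eigenvector of the forms is an eigenfunction -/
theorem to_fun (μ : Measure M) (D : Data M) (hD : D.IsSurf μ) (i : HF D μ →L[ℝ] Lp ℝ 2 μ)
    (a : HF D μ →L[ℝ] HF D μ →L[ℝ] ℝ) (b : C(M, ℝ) → HF D μ →L[ℝ] HF D μ →L[ℝ] ℝ)
    (hi : ∀ v, i v = v.1.fst) (ha : ∀ u v, a u v = inner ℝ u.1.snd v.1.snd) (hB : IsB μ i b)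
    (φ : C(M, ℝ)) (lam : ℝ) (v : HF D μ) (hv : ∀ w, a v w = lam * b φ v w) :
    (D.conf fun x => Real.exp (φ x)).IsEig (wm μ fun x => Real.exp (φ x)) lam (i v : M → ℝ) := by
  rw [hi]
  refine eigF tGr tFin tConf tDenF M μ D hD _ (Real.continuous_exp.comp φ.continuous)
    (fun x => Real.exp_pos _) lam v.1 v.2 fun v' hv' => ?_
  have h1 := hv ⟨v', hv'⟩
  rw [ha, hB, hi, hi] at h1
  exact h1

/-- an eigenfunction is an eigenvector of the forms -/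
theorem to_vec (μ : Measure M) (D : Data M) (hD : D.IsSurf μ) (i : HF D μ →L[ℝ] Lp ℝ 2 μ)
    (a : HF D μ →L[ℝ] HF D μ →L[ℝ] ℝ) (b : C(M, ℝ) → HF D μ →L[ℝ] HF D μ →L[ℝ] ℝ)
    (hi : ∀ v, i v = v.1.fst) (ha : ∀ u v, a u v = inner ℝ u.1.snd v.1.snd) (hB : IsB μ i b)
    (φ : C(M, ℝ)) (lam : ℝ) (u : M → ℝ)
    (hu : (D.conf fun x => Real.exp (φ x)).IsEig (wm μ fun x => Real.exp (φ x)) lam u) :
    ∃ v : HF D μ, (i v : M → ℝ) =ᵐ[μ] u ∧ ∀ w, a v w = lam * b φ v w := by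
  have hwc : ∀ x, Real.exp (-‖φ‖) ≤ Real.exp (φ x) := by
    intro x
    apply Real.exp_le_exp.2
    have h1 := φ.norm_coe_le_norm x
    rw [Real.norm_eq_abs] at h1
    exact (abs_le.1 h1).1
  obtain ⟨v, hv, huv, hev⟩ := Pool.Agent.Y708.QR.ex_vec tDenF hD
    (Real.continuous_exp.comp φ.continuous) (Real.exp_pos _) hwc hu
  refine ⟨⟨v, hv⟩, by rw [hi]; exact huv, fun w => ?_⟩
  rw [ha, hB, hi, hi]
  exact hev w.1 w.2

end

end Pool.Agent.X103.QF
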