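import Pool.Agent.X103.QF3

/-!
# No stable scars: the statement for functions
-/

set_option autoImplicit false

open Set Filter Topology MeasureTheory
open scoped Real

noncomputable section

namespace Pool.Agent.X103.QF

open Pool.Agent.Y262.QE Pool.Agent.Y264.QR

/-! ### One direction -/

theorem ivt {H : Type} [NormedAddCommGroup H] [InnerProductSpace ℝ H] (B K : H →L[ℝ] H →L[ℝ] ℝ)
    (sB : ∀ u v, B u v = B v u) (sK : ∀ u v, K u v = K v u) (x y : H) (hx : B x x = 1)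
    (hy : B y y = 1) (t : ℝ) (h1 : K x x ≤ t) (h2 : t ≤ K y y) :
    ∃ α β : ℝ, B (α • x + β • y) (α • x + β • y) = 1 ∧ K (α • x + β • y) (α • x + β • y) = t := by
  obtain ⟨σ, hσ, hσ0⟩ : ∃ σ : ℝ, σ ^ 2 = 1 ∧ 0 ≤ σ * B x y := by
    rcases le_total 0 (B x y) with h | h
    · exact ⟨1, by norm_num, by linarith⟩
    · exact ⟨-1, by norm_num, by linarith⟩
  set g : ℝ → ℝ := fun θ => (Real.cos θ) ^ 2 * K x x + (Real.sin θ) ^ 2 * K y y +
    2 * σ * Real.cos θ * Real.sin θ * K x y -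
    t * (1 + 2 * (σ * B x y) * (Real.cos θ * Real.sin θ)) with hg
  have hgc : ContinuousOn g (Icc 0 (π / 2)) := by fun_prop
  have hpi : (0 : ℝ) ≤ π / 2 := by positivity
  have g0 : g 0 ≤ 0 := by
    simp only [hg, Real.cos_zero, Real.sin_zero]
    linarith
  have g1 : 0 ≤ g (π / 2) := by
    simp only [hg, Real.cos_pi_div_two, Real.sin_pi_div_two]
    linarith
  obtain ⟨θ, hθ, hθ0⟩ := intermediate_value_Icc hpi hgc ⟨g0, g1⟩
  have hc : 0 ≤ Real.cos θ := Real.cos_nonneg_of_mem_Icc ⟨by linarith [hθ.1], hθ.2⟩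
  have hs : 0 ≤ Real.sin θ := Real.sin_nonneg_of_nonneg_of_le_pi hθ.1 (by linarith [hθ.2])
  have hcs := Real.cos_sq_add_sin_sq θ
  have eB : ∀ p q : ℝ, B (p • x + q • y) (p • x + q • y) = p ^ 2 + q ^ 2 + 2 * p * q * B x y := by
    intro p q
    simp only [map_add, map_smul, add_apply, smul_apply, smul_eq_mul, hx, hy]
    rw [sB y x]
    ring
  have eK : ∀ p q : ℝ, K (p • x + q • y) (p • x + q • y) =
      p ^ 2 * K x x + q ^ 2 * K y y + 2 * p * q * K x y := by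
    intro p q
    simp only [map_add, map_smul, add_apply, smul_apply, smul_eq_mul]
    rw [sK y x]
    ring
  set N : ℝ := 1 + 2 * (σ * B x y) * (Real.cos θ * Real.sin θ) with hN
  have hN1 : 1 ≤ N := by
    have : 0 ≤ 2 * (σ * B x y) * (Real.cos θ * Real.sin θ) :=
      mul_nonneg (by linarith) (mul_nonneg hc hs)
    linarith
  have hN0 : 0 < N := by linarith
  have hr2 : (Real.sqrt N)⁻¹ ^ 2 = N⁻¹ := by rw [inv_pow, Real.sq_sqrt hN0.le]
  set r : ℝ := (Real.sqrt N)⁻¹ with hr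
  refine ⟨r * Real.cos θ, r * (σ * Real.sin θ), ?_, ?_⟩
  · rw [eB]
    have h3 : (r * Real.cos θ) ^ 2 + (r * (σ * Real.sin θ)) ^ 2 +
        2 * (r * Real.cos θ) * (r * (σ * Real.sin θ)) * B x y =
        r ^ 2 * ((Real.cos θ) ^ 2 + σ ^ 2 * (Real.sin θ) ^ 2 +
          2 * (σ * B x y) * (Real.cos θ * Real.sin θ)) := by ring
    rw [h3, hσ, one_mul, hcs, ← hN, hr2, inv_mul_cancel₀ hN0.ne']
  · rw [eK]
    have h3 : (r * Real.cos θ) ^ 2 * K x x + (r * (σ * Real.sin θ)) ^ 2 * K y y +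
        2 * (r * Real.cos θ) * (r * (σ * Real.sin θ)) * K x y =
        r ^ 2 * ((Real.cos θ) ^ 2 * K x x + σ ^ 2 * (Real.sin θ) ^ 2 * K y y +
          2 * σ * Real.cos θ * Real.sin θ * K x y) := by ring
    have h4 : (Real.cos θ) ^ 2 * K x x + σ ^ 2 * (Real.sin θ) ^ 2 * K y y +
          2 * σ * Real.cos θ * Real.sin θ * K x y = t * N := by
      simp only [hg] at hθ0
      rw [hσ]
      linarith
    rw [h3, h4, hr2, mul_comm t N, ← mul_assoc, inv_mul_cancel₀ hN0.ne', one_mul]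

section

variable {M : Type} [MetricSpace M] [CompactSpace M] [MeasurableSpace M] [BorelSpace M]

/-- finitely many directions -/
theorem many [Nonempty M] (μ : Measure M) (D : Data M) (hD : D.IsSurf μ)
    (u : C(M, ℝ) → ℕ → M → ℝ) (lam : C(M, ℝ) → ℕ → ℝ)
    (hu : ∀ φ, EigBasis (D.conf fun x => Real.exp (φ x)) (wm μ fun x => Real.exp (φ x))
      (u φ) (lam φ)) (φ : C(M, ℝ)) {m : ℕ} (h : Fin m → C(M, ℝ)) (ε : ℝ) (hε : 0 < ε) :
    ∃ J : ℕ, ∀ j, J ≤ j → ∃ ψ : C(M, ℝ), (∃ s : Fin m → ℝ, (∀ l, |s l| < ε) ∧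
      ψ = φ + ∑ l, s l • h l) ∧
      (∃ (N : ℕ) (p : Fin N → ℝ) (v : Fin N → M → ℝ), (∀ k, 0 ≤ p k) ∧ ∑ k, p k = 1 ∧
        (∀ k, (D.conf fun x => Real.exp (ψ x)).IsEig (wm μ fun x => Real.exp (ψ x)) (lam ψ j)
          (v k) ∧ ∫ x, (v k x) ^ 2 ∂(wm μ fun x => Real.exp (ψ x)) = 1) ∧
        ∀ l, |(∑ k, p k * ∫ x, h l x * (v k x) ^ 2 ∂(wm μ fun x => Real.exp (ψ x))) -
          (∫ x, h l x ∂(wm μ fun x => Real.exp (ψ x))) /
            (wm μ fun x => Real.exp (ψ x)).real univ| < ε) ∧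
      ((∀ k, k ≠ j → lam ψ k ≠ lam ψ j) →
        ∀ l, |(∫ x, h l x * (u ψ j x) ^ 2 ∂(wm μ fun x => Real.exp (ψ x))) -
          (∫ x, h l x ∂(wm μ fun x => Real.exp (ψ x))) /
            (wm μ fun x => Real.exp (ψ x)).real univ| < ε) := by
  obtain ⟨hf, i, a, b, hSf, hi, ha, hB, hF, hW⟩ := pack μ D hD
  choose e he1 he2 using fun φ => tBr M μ D hD i a b hSf hi ha hB hF φ (u φ) (lam φ) (hu φ)
  obtain ⟨J, hJ⟩ := eventually_atTop.1 (near tFm tLip hSf hB hW e lam he2 φ h ε ε hε hε)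
  refine ⟨J, fun j hj => ?_⟩
  obtain ⟨s, hs, i₀, hi₀, hcl, x, hx, hxε⟩ := hJ j hj
  set ψ := φ + sh h s with hψ
  have hxl : ∀ l, |x l| < ε := fun l => lt_of_le_of_lt (PiLp.norm_apply_le x l) hxε
  refine ⟨ψ, ⟨fun l => s l, fun l => lt_of_le_of_lt (PiLp.norm_apply_le s l) hs, rfl⟩, ?_, ?_⟩
  · obtain ⟨ι, hι, w, z, hw0, hw1, hz, hzx⟩ := mem_convexHull_iff_exists_fintype.1 hx
    choose c hc1 hc2 using hz
    set σ := (Fintype.equivFin ι).symm with hσ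
    refine ⟨Fintype.card ι, fun k => w (σ k),
      fun k => (i (comb (e ψ) i₀ j (c (σ k))) : M → ℝ), fun k => hw0 _, ?_, fun k => ⟨?_, ?_⟩, ?_⟩
    · rw [← hw1]
      exact Equiv.sum_comp σ w
    · exact to_fun μ D hD i a b hi ha hB ψ (lam ψ j) _ fun y => comb_eig (he2 ψ) hcl _ y
    · rw [← mass_vec μ i b hB ψ _ _ (EventuallyEq.refl _ _)]
      exact hc1 _
    · intro l
      have h1 : (∑ k, w (σ k) * ∫ x, h l x * ((i (comb (e ψ) i₀ j (c (σ k))) : M → ℝ) x) ^ 2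
          ∂(wm μ fun x => Real.exp (ψ x))) = ∑ q, w q * kap μ i (h l) ψ (comb (e ψ) i₀ j (c q)) := by
        rw [← Equiv.sum_comp σ fun q => w q * kap μ i (h l) ψ (comb (e ψ) i₀ j (c q))]
        exact Finset.sum_congr rfl fun k _ => by
          rw [kap_eq μ i (h l) ψ _ _ (EventuallyEq.refl _ _)]
      rw [h1, ← avg_eq]
      have h2 : (∑ q, w q * kap μ i (h l) ψ (comb (e ψ) i₀ j (c q))) - avg μ (h l) ψ = x l := by
        rw [← hzx]
        have h3 : (∑ q, w q • z q : EuclideanSpace ℝ (Fin m)) l = ∑ q, w q * z q l := by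
          rw [WithLp.ofLp_sum, Finset.sum_apply]
          exact Finset.sum_congr rfl fun q _ => by rw [PiLp.smul_apply, smul_eq_mul]
        rw [h3]
        have h4 : avg μ (h l) ψ = ∑ q, w q * avg μ (h l) ψ := by
          rw [← Finset.sum_mul, hw1, one_mul]
        rw [h4, ← Finset.sum_sub_distrib]
        exact Finset.sum_congr rfl fun q _ => by rw [hc2 q l]; ring
      rw [h2]
      exact hxl l
  · intro hsimple l
    have hi0 : i₀ = j := by
      by_contra hne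
      exact hsimple i₀ hne (hcl i₀ le_rfl hi₀)
    subst hi0
    -- the set is a point
    set P : EuclideanSpace ℝ (Fin m) := WithLp.toLp 2 fun l => kap μ i (h l) ψ (e ψ i₀) -
      avg μ (h l) ψ with hP
    have hsub : convexHull ℝ {x : EuclideanSpace ℝ (Fin m) | ∃ c : ℕ → ℝ,
        b ψ (comb (e ψ) i₀ i₀ c) (comb (e ψ) i₀ i₀ c) = 1 ∧
        ∀ l, x l = kap μ i (h l) ψ (comb (e ψ) i₀ i₀ c) - avg μ (h l) ψ} ⊆ {P} := by
      refine convexHull_min ?_ (convex_singleton _)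
      rintro y ⟨c, hc1, hc2⟩
      rw [mem_singleton_iff]
      have h3 : comb (e ψ) i₀ i₀ c = c i₀ • e ψ i₀ := by
        unfold comb
        rw [Finset.Icc_self, Finset.sum_singleton]
      have h4 : c i₀ ^ 2 = 1 := by
        rw [comb_b (he2 ψ).orth, Finset.Icc_self, Finset.sum_singleton] at hc1
        exact hc1
      ext l
      rw [hc2 l, h3]
      show _ = kap μ i (h l) ψ (e ψ i₀) - avg μ (h l) ψ
      congr 1
      unfold kap
      refine integral_congr_ae ?_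
      have h5 : (i (c i₀ • e ψ i₀) : M → ℝ) =ᵐ[μ] c i₀ • (i (e ψ i₀) : M → ℝ) := by
        rw [map_smul]
        exact Lp.coeFn_smul _ _
      filter_upwards [h5] with x hx
      rw [hx, Pi.smul_apply, smul_eq_mul, mul_pow, h4, one_mul]
    have h6 : x = P := hsub hx
    have h7 := hxl l
    rw [h6] at h7
    rw [← avg_eq, ← kap_eq μ i (h l) ψ _ _ (he1 ψ i₀)]
    exact h7

/-- one direction -/
theorem one [Nonempty M] (μ : Measure M) (D : Data M) (hD : D.IsSurf μ)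
    (u : C(M, ℝ) → ℕ → M → ℝ) (lam : C(M, ℝ) → ℕ → ℝ)
    (hu : ∀ φ, EigBasis (D.conf fun x => Real.exp (φ x)) (wm μ fun x => Real.exp (φ x))
      (u φ) (lam φ)) (φ h : C(M, ℝ)) (ε : ℝ) (hε : 0 < ε) :
    ∃ J : ℕ, ∀ j, J ≤ j → ∃ s : ℝ, |s| < ε ∧ ∃ v : M → ℝ,
      (D.conf fun x => Real.exp ((φ + s • h) x)).IsEig (wm μ fun x => Real.exp ((φ + s • h) x))
        (lam (φ + s • h) j) v ∧ ∫ x, (v x) ^ 2 ∂(wm μ fun x => Real.exp ((φ + s • h) x)) = 1 ∧
      |(∫ x, h x * (v x) ^ 2 ∂(wm μ fun x => Real.exp ((φ + s • h) x))) -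
        (∫ x, h x ∂(wm μ fun x => Real.exp ((φ + s • h) x))) /
          (wm μ fun x => Real.exp ((φ + s • h) x)).real univ| < ε := by
  obtain ⟨hf, i, a, b, hSf, hi, ha, hB, hF, hW⟩ := pack μ D hD
  choose e he1 he2 using fun φ => tBr M μ D hD i a b hSf hi ha hB hF φ (u φ) (lam φ) (hu φ)
  obtain ⟨J, hJ⟩ := eventually_atTop.1 (near tFm tLip hSf hB hW e lam he2 φ
    (fun _ : Fin 1 => h) ε ε hε hε)
  refine ⟨J, fun j hj => ?_⟩
  obtain ⟨s, hs, i₀, hi₀, hcl, x, hx, hxε⟩ := hJ j hj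
  have hsh : sh (fun _ : Fin 1 => h) s = s 0 • h := by
    unfold sh
    rw [Fin.sum_univ_one]
  rw [hsh] at hcl hx
  refine ⟨s 0, lt_of_le_of_lt (PiLp.norm_apply_le s 0) hs, ?_⟩
  set ψ := φ + s 0 • h with hψ
  set Q : Set (EuclideanSpace ℝ (Fin 1)) := {x | ∃ c : ℕ → ℝ,
        b ψ (comb (e ψ) i₀ j c) (comb (e ψ) i₀ j c) = 1 ∧
        ∀ l : Fin 1, x l = kap μ i h ψ (comb (e ψ) i₀ j c) - avg μ h ψ} with hQ
  have hlo : ∃ q ∈ Q, q 0 ≤ x 0 := by
    by_contra hcon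
    push Not at hcon
    have h1 : convexHull ℝ Q ⊆ {y : EuclideanSpace ℝ (Fin 1) | x 0 < y 0} := by
      refine convexHull_min (fun q hq => hcon q hq) ?_
      exact convex_halfSpace_gt (f := fun y : EuclideanSpace ℝ (Fin 1) => y 0)
        ⟨fun _ _ => rfl, fun _ _ => rfl⟩ (x 0)
    exact lt_irrefl (x 0) (h1 hx)
  have hhi : ∃ q ∈ Q, x 0 ≤ q 0 := by
    by_contra hcon
    push Not at hcon
    have h1 : convexHull ℝ Q ⊆ {y : EuclideanSpace ℝ (Fin 1) | y 0 < x 0} := by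
      refine convexHull_min (fun q hq => hcon q hq) ?_
      exact convex_halfSpace_lt (f := fun y : EuclideanSpace ℝ (Fin 1) => y 0)
        ⟨fun _ _ => rfl, fun _ _ => rfl⟩ (x 0)
    exact lt_irrefl (x 0) (h1 hx)
  obtain ⟨qa, ⟨ca, ha1, ha2⟩, hqa⟩ := hlo
  obtain ⟨qb, ⟨cb, hb1, hb2⟩, hqb⟩ := hhi
  obtain ⟨b0, hB0, -, -, -, hk⟩ := tFm M μ (HF D μ) i a hSf
  have hbb : b0 = b := by
    funext ψ
    ext u v
    rw [hB0, hB]
  subst hbb
  obtain ⟨k, ksym, k1, -⟩ := hk h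
  have e1 : k ψ (comb (e ψ) i₀ j ca) (comb (e ψ) i₀ j ca) ≤ avg μ h ψ + x 0 := by
    rw [(k1 ψ _).1]
    have := ha2 0
    linarith
  have e2 : avg μ h ψ + x 0 ≤ k ψ (comb (e ψ) i₀ j cb) (comb (e ψ) i₀ j cb) := by
    rw [(k1 ψ _).1]
    have := hb2 0
    linarith
  obtain ⟨α, β, h3, h4⟩ := ivt (b0 ψ) (k ψ) (hF ψ).sb (ksym ψ) _ _ ha1 hb1 _ e1 e2
  set w := α • comb (e ψ) i₀ j ca + β • comb (e ψ) i₀ j cb with hw
  have hweig : ∀ y, a w y = lam ψ j * b0 ψ w y := by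
    intro y
    rw [hw]
    simp only [map_add, map_smul, add_apply, smul_apply, smul_eq_mul]
    rw [comb_eig (he2 ψ) hcl ca y, comb_eig (he2 ψ) hcl cb y]
    ring
  refine ⟨(i w : M → ℝ), to_fun μ D hD i a b0 hi ha hB ψ (lam ψ j) w hweig, ?_, ?_⟩
  · rw [← mass_vec μ i b0 hB ψ _ _ (EventuallyEq.refl _ _)]
    exact h3
  · rw [← avg_eq, ← kap_eq μ i h ψ w _ (EventuallyEq.refl _ _), ← (k1 ψ w).1, h4]
    rw [add_sub_cancel_left]
    exact lt_of_le_of_lt (PiLp.norm_apply_le x 0) hxε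

end

end Pool.Agent.X103.QF
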