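import Pool.Agent.Y390.QR.LIP

/-!
# Derivatives of an eigenvalue for an arbitrary vector of the eigenspace
-/

set_option autoImplicit false

open Set Filter Topology MeasureTheory
open scoped Real

noncomputable section

namespace Pool.Agent.X103.QF

open Pool.Agent.Y262.QE Pool.Agent.Y264.QR Pool.Agent.Y592.QE Pool.Agent.Y390.QR.LIP

theorem derV {H : Type} [NormedAddCommGroup H] [InnerProductSpace ℝ H] {a b : H →L[ℝ] H →L[ℝ] ℝ}
    (hF : Fm a b) {e : ℕ → H} {E : ℕ → ℝ} (hE : Eg a b e E) (k : H →L[ℝ] H →L[ℝ] ℝ) (K : ℝ)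
    (ksym : ∀ u v, k u v = k v u) (hk : ∀ v, |k v v| ≤ K * b v v) (i : ℕ)
    (hlt : ∀ l, l < i → E l < E i) (u : H) (hu : ∀ w, a u w = E i * b u w) (hu1 : b u u = 1)
    (ε : ℝ) (hε : 0 < ε) :
    ∃ δ : ℝ, 0 < δ ∧ ∀ τ : ℝ, |τ| < δ → ∀ b' : H →L[ℝ] H →L[ℝ] ℝ,
      (∀ v, b v v + τ * k v v ≤ b' v v) → Ev a b' i ≤ E i * (1 - k u u * τ) + ε * |τ| := by
  have hE0 : ∀ l, 0 ≤ E l := by
    intro l
    have h1 := hF.na (e l)
    rw [hE.eig, hE.orth, if_pos rfl, mul_one] at h1
    exact h1
  have hκ : |k u u| ≤ K := by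
    have h1 := hk u
    rwa [hu1, mul_one] at h1
  have hK : 0 ≤ K := (abs_nonneg _).trans hκ
  set lam := E i with hlam
  have hlam0 : 0 ≤ lam := hE0 i
  set κ := k u u with hκdef
  have hel : ∀ l, l < i → b (e l) u = 0 := by
    intro l hl
    have h1 := hE.eig l u
    have h2 := hu (e l)
    rw [hF.sa, h1, hF.sb u (e l)] at h2
    have h3 := hlt l hl
    have h4 : (E l - lam) * b (e l) u = 0 := by rw [sub_mul, h2, sub_self]
    rcases mul_eq_zero.1 h4 with h5 | h5
    · exfalso; linarith
    · exact h5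
  obtain ⟨g, hg, hgap⟩ := Pool.Agent.Y726.QE.exists_gap (Finset.range i) (fun l => lam - E l)
    (fun l hl => by
      have := hlt l (Finset.mem_range.1 hl)
      linarith)
  set s : ℝ := ε / (8 * lam * K + ε) with hs
  have hs0 : 0 < s := by positivity
  have hs1 : s ≤ 1 := by
    rw [hs, div_le_one (by positivity)]
    have : 0 ≤ 8 * lam * K := by positivity
    linarith
  have hsε : 8 * lam * K * s ≤ ε := by
    rw [hs, mul_div_assoc', div_le_iff₀ (by positivity)]
    have : 0 ≤ ε * ε := by positivity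
    nlinarith
  refine ⟨min (min ((1 / 8) / (K + 1)) ((ε / 4) / (lam * K ^ 2 + 1)))
    (min (1 / (K * (1 + 1 / s) + 1)) (g / (lam * (K * (2 + 1 / s)) + 1))), ?_, ?_⟩
  · refine lt_min (lt_min ?_ ?_) (lt_min ?_ ?_) <;> positivity
  intro τ hτ b' hb'
  have h1 : K * |τ| ≤ 1 / 8 :=
    small hK (lt_of_lt_of_le hτ ((min_le_left _ _).trans (min_le_left _ _)))
  have h2 : lam * K ^ 2 * |τ| ≤ ε / 4 :=
    small (by positivity)
      (lt_of_lt_of_le hτ ((min_le_left _ _).trans (min_le_right _ _)))
  have h3 : K * (1 + 1 / s) * |τ| ≤ 1 :=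
    small (by positivity)
      (lt_of_lt_of_le hτ ((min_le_right _ _).trans (min_le_left _ _)))
  have h4 : lam * (K * (2 + 1 / s)) * |τ| ≤ g :=
    small (by positivity) (lt_of_lt_of_le hτ ((min_le_right _ _).trans (min_le_right _ _)))
  have hc := ineq_c hlam0 hκ hs0 hs1 hsε hε h1 h2
  have hy := ineq_y (g := g) hlam0 hκ hs0 hε h3 h4
  have ht := abs_nonneg τ
  have hμ : 0 ≤ lam * (1 - κ * τ) + ε * |τ| := by
    have h5 : κ * τ ≤ K * |τ| := by
      refine (le_abs_self _).trans ?_
      rw [abs_mul]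
      exact mul_le_mul_of_nonneg_right hκ ht
    have h6 : 0 ≤ lam * (1 - κ * τ) := mul_nonneg hlam0 (by linarith)
    have h7 : 0 ≤ ε * |τ| := by positivity
    linarith
  -- the subspace
  let f : Fin (i + 1) → H := fun p => if (p : ℕ) < i then e p else u
  have horth : ∀ p q : Fin (i + 1), b (f p) (f q) = if p = q then 1 else 0 := by
    intro p q
    have hp := p.2
    have hq := q.2
    simp only [f]
    by_cases hp1 : (p : ℕ) < i
    · by_cases hq1 : (q : ℕ) < i
      · rw [if_pos hp1, if_pos hq1, hE.orth]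
        by_cases h : p = q
        · rw [if_pos h, if_pos (by rw [h])]
        · rw [if_neg h, if_neg fun h' => h (Fin.ext h')]
      · rw [if_pos hp1, if_neg hq1, hel _ hp1, if_neg]
        rintro rfl
        exact hq1 hp1
    · by_cases hq1 : (q : ℕ) < i
      · rw [if_neg hp1, if_pos hq1, hF.sb, hel _ hq1, if_neg]
        rintro rfl
        exact hp1 hq1
      · rw [if_neg hp1, if_neg hq1, hu1, if_pos]
        apply Fin.ext
        omega
  have hHD : HD a b' (lam * (1 - κ * τ) + ε * |τ|) i := by
    refine ⟨Submodule.span ℝ (range f), finrank_orth b horth, ?_⟩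
    intro v hv
    obtain ⟨c, rfl⟩ := (Submodule.mem_span_range_iff_exists_fun ℝ).1 hv
    set x := c (Fin.last i) with hx
    let d : Fin i → ℝ := fun l => c l.castSucc
    set y : H := ∑ l : Fin i, d l • e l with hydef
    have hv' : ∑ p, c p • f p = y + x • u := by
      rw [Fin.sum_univ_castSucc]
      congr 1
      · refine Finset.sum_congr rfl fun l _ => ?_
        have : f l.castSucc = e l := by
          simp only [f, Fin.val_castSucc, if_pos l.2]
        rw [this]
      · have : f (Fin.last i) = u := by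
          simp only [f, Fin.val_last, lt_irrefl, if_false]
        rw [this]
    rw [hv']
    have ho := orth_fin b hE.orth i
    have hyy : b y y = ∑ l : Fin i, d l ^ 2 := b_orth_self b ho d
    have hY0 : 0 ≤ b y y := hF.nb y
    have hyj : b y u = 0 := by
      rw [hydef, b_sum_left]
      refine Finset.sum_eq_zero fun l _ => ?_
      rw [hel l l.2, mul_zero]
    have hayy : a y y ≤ (lam - g) * b y y := by
      have h5 : a y y = ∑ l : Fin i, E l * d l ^ 2 := by
        rw [hydef, b_sum_left]
        refine Finset.sum_congr rfl fun l _ => ?_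
        rw [hE.eig, b_orth_coef b ho]
        ring
      rw [h5, hyy, Finset.mul_sum]
      refine Finset.sum_le_sum fun l _ => ?_
      have h6 := hgap l (Finset.mem_range.2 l.2)
      exact mul_le_mul_of_nonneg_right (by linarith) (sq_nonneg _)
    have hav : a (y + x • u) (y + x • u) = a y y + lam * x ^ 2 := by
      have h5 : a u y = 0 := by rw [hu, hF.sb, hyj, mul_zero]
      have h6 : a y u = 0 := by rw [hF.sa, h5]
      have h7 : a u u = lam := by rw [hu, hu1, mul_one]
      simp only [map_add, map_smul, add_apply,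
        smul_apply, smul_eq_mul, h5, h6, h7]
      ring
    have hbv : b (y + x • u) (y + x • u) = b y y + x ^ 2 := by
      have h6 : b u y = 0 := by rw [hF.sb, hyj]
      simp only [map_add, map_smul, add_apply,
        smul_apply, smul_eq_mul, hyj, h6, hu1]
      ring
    have hkv : k (y + x • u) (y + x • u) = k y y + 2 * x * k y u + κ * x ^ 2 := by
      simp only [map_add, map_smul, add_apply,
        smul_apply, smul_eq_mul]
      rw [ksym u y]
      ring
    -- the cross term
    have hcross : |2 * x * k y u| ≤ K * (b y y / s + s * x ^ 2) := by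
      have p1 := hk (y + (s * x) • u)
      have p2 := hk (y - (s * x) • u)
      have q1 : k (y + (s * x) • u) (y + (s * x) • u) =
          k y y + 2 * (s * x) * k y u + κ * (s * x) ^ 2 := by
        simp only [map_add, map_smul, add_apply,
          smul_apply, smul_eq_mul]
        rw [ksym u y]
        ring
      have q2 : k (y - (s * x) • u) (y - (s * x) • u) =
          k y y - 2 * (s * x) * k y u + κ * (s * x) ^ 2 := by
        simp only [map_sub, map_smul, sub_apply,
          smul_apply, smul_eq_mul]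
        rw [ksym u y]
        ring
      have r1 : b (y + (s * x) • u) (y + (s * x) • u) = b y y + (s * x) ^ 2 := by
        have h6 : b u y = 0 := by rw [hF.sb, hyj]
        simp only [map_add, map_smul, add_apply,
          smul_apply, smul_eq_mul, hyj, h6, hu1]
        ring
      have r2 : b (y - (s * x) • u) (y - (s * x) • u) = b y y + (s * x) ^ 2 := by
        have h6 : b u y = 0 := by rw [hF.sb, hyj]
        simp only [map_sub, map_smul, sub_apply,
          smul_apply, smul_eq_mul, hyj, h6, hu1]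
        ring
      rw [q1, r1] at p1
      rw [q2, r2] at p2
      have h5 : |s * (2 * x * k y u)| ≤ s * (K * (b y y / s + s * x ^ 2)) := by
        have h6 : s * (K * (b y y / s + s * x ^ 2)) = K * (b y y + (s * x) ^ 2) := by
          field_simp
        rw [h6]
        obtain ⟨u1, u2⟩ := abs_le.1 p1
        obtain ⟨w1, w2⟩ := abs_le.1 p2
        rw [abs_le]
        constructor <;> linarith
      rw [abs_mul, abs_of_pos hs0] at h5
      exact le_of_mul_le_mul_left h5 hs0
    have hkyy := hk y
    set Y := b y y with hYdef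
    have hlow : (1 + τ * κ - |τ| * (K * s)) * x ^ 2 + (1 - |τ| * (K * (1 + 1 / s))) * Y ≤
        b' (y + x • u) (y + x • u) := by
      refine le_trans ?_ (hb' _)
      rw [hbv, hkv]
      have h5 : -(|τ| * (K * Y + K * (Y / s + s * x ^ 2))) ≤
          τ * (k y y + 2 * x * k y u) := by
        have h6 : |τ * (k y y + 2 * x * k y u)| ≤
            |τ| * (K * Y + K * (Y / s + s * x ^ 2)) := by
          rw [abs_mul]
          refine mul_le_mul_of_nonneg_left ?_ ht
          exact (abs_add_le _ _).trans (add_le_add hkyy hcross)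
        exact (abs_le.1 h6).1
      have h7 : (1 + τ * κ - |τ| * (K * s)) * x ^ 2 + (1 - |τ| * (K * (1 + 1 / s))) * Y =
          Y + x ^ 2 + τ * (κ * x ^ 2) - |τ| * (K * Y + K * (Y / s + s * x ^ 2)) := by
        field_simp
        ring
      rw [h7]
      linarith
    rw [hav]
    have hx2 : 0 ≤ x ^ 2 := sq_nonneg x
    calc a y y + lam * x ^ 2 ≤ (lam - g) * Y + lam * x ^ 2 := by linarith
      _ ≤ ((lam * (1 - κ * τ) + ε * |τ|) * (1 - |τ| * (K * (1 + 1 / s)))) * Y +
          ((lam * (1 - κ * τ) + ε * |τ|) * (1 + τ * κ - |τ| * (K * s))) * x ^ 2 :=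
          add_le_add (mul_le_mul_of_nonneg_right hy hY0) (mul_le_mul_of_nonneg_right hc hx2)
      _ = (lam * (1 - κ * τ) + ε * |τ|) *
          ((1 + τ * κ - |τ| * (K * s)) * x ^ 2 + (1 - |τ| * (K * (1 + 1 / s))) * Y) := by ring
      _ ≤ _ := mul_le_mul_of_nonneg_left hlow hμ
  exact csInf_le ⟨0, fun x hx => hx.1⟩ ⟨hμ, hHD⟩

/-- a differentiable function which is bounded from above to first order on both sides -/
theorem der_eq {f : ℝ → ℝ} {d c t : ℝ} (hf : HasDerivAt f d t)
    (h : ∀ ε : ℝ, 0 < ε → ∃ δ : ℝ, 0 < δ ∧ ∀ τ : ℝ, |τ| < δ → f (t + τ) ≤ f t + c * τ + ε * |τ|) :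
    d = c := by
  have hr := hf.tendsto_slope_zero_right
  have hl := hf.tendsto_slope_zero_left
  refine le_antisymm ?_ ?_
  · refine le_of_forall_pos_le_add fun ε hε => ?_
    obtain ⟨δ, hδ, hδ'⟩ := h ε hε
    refine le_of_tendsto hr ?_
    filter_upwards [self_mem_nhdsWithin, mem_nhdsWithin_of_mem_nhds (Iio_mem_nhds hδ)] with τ h1 h2
    have h1' : 0 < τ := h1
    have h3 := hδ' τ (by rw [abs_of_pos h1']; exact h2)
    rw [abs_of_pos h1'] at h3
    rw [smul_eq_mul, inv_mul_le_iff₀ h1']
    linarith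
  · refine le_of_forall_pos_le_add fun ε hε => ?_
    obtain ⟨δ, hδ, hδ'⟩ := h ε hε
    have hle : c - ε ≤ d := by
      refine ge_of_tendsto hl ?_
      filter_upwards [self_mem_nhdsWithin,
        mem_nhdsWithin_of_mem_nhds (Ioi_mem_nhds (show -δ < 0 by linarith))] with τ h1 h2
      have h1' : τ < 0 := h1
      have h2' : -δ < τ := h2
      have h3 := hδ' τ (by rw [abs_of_neg h1']; linarith)
      rw [abs_of_neg h1'] at h3
      rw [smul_eq_mul]
      have h4 : τ⁻¹ * (f (t + τ) - f t) = (f t - f (t + τ)) / (-τ) := by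
        rw [div_neg, ← neg_div, neg_sub, div_eq_inv_mul]
      rw [h4, le_div_iff₀ (by linarith)]
      linarith
    linarith

/-- Weak convergence and the lower and upper limits. -/
theorem weak_limit (X : ℕ → ℝ → ℝ) (Y : ℝ → ℝ) (K : ℝ) (hX : ∀ k, AEMeasurable (X k))
    (hY : AEMeasurable Y) (hXK : ∀ k t, |X k t| ≤ K) (hYK : ∀ t, |Y t| ≤ K)
    (hw : ∀ χ : ℝ → ℝ, Integrable χ → Tendsto (fun k => ∫ t, χ t * X k t) atTop
      (𝓝 (∫ t, χ t * Y t))) :
    ∀ᵐ t, liminf (fun k => X k t) atTop ≤ Y t := by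
  have hbdd : ∀ t, BddBelow (range fun k => X k t) := fun t =>
    ⟨-K, by rintro _ ⟨k, rfl⟩; exact (abs_le.1 (hXK k t)).1⟩
  -- the infimum of the tails
  set G : ℕ → ℝ → ℝ := fun n t => ⨅ k : ℕ, X (k + n) t with hG
  have hGb : ∀ n t, BddBelow (range fun k => X (k + n) t) := fun n t =>
    ⟨-K, by rintro _ ⟨k, rfl⟩; exact (abs_le.1 (hXK _ t)).1⟩
  have hGle : ∀ n k t, n ≤ k → G n t ≤ X k t := by
    intro n k t hnk
    have h1 := ciInf_le (hGb n t) (k - n)
    rwa [Nat.sub_add_cancel hnk] at h1
  have hGK : ∀ n t, |G n t| ≤ K := by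
    intro n t
    rw [abs_le]
    exact ⟨le_ciInf fun k => (abs_le.1 (hXK _ t)).1,
      (hGle n n t le_rfl).trans (abs_le.1 (hXK n t)).2⟩
  have hGm : ∀ n, AEMeasurable (G n) := fun n => AEMeasurable.iInf fun k => hX (k + n)
  set w : ℝ → ℝ := fun t => (1 + t ^ 2)⁻¹ with hw0
  have hwi : Integrable w := integrable_inv_one_add_sq
  have hwp : ∀ t, 0 < w t := fun t => by positivity
  have hint : ∀ {Z : ℝ → ℝ}, AEMeasurable Z → (∀ t, |Z t| ≤ K) → ∀ {χ : ℝ → ℝ}, Integrable χ →
      Integrable fun t => χ t * Z t := by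
    intro Z hZ hZK χ hχ
    refine (hχ.bdd_mul (c := K) hZ.aestronglyMeasurable (Eventually.of_forall fun t => ?_)).congr
      (Eventually.of_forall fun t => mul_comm _ _)
    exact hZK t
  have key : ∀ n, ∀ᵐ t, G n t ≤ Y t := by
    intro n
    have h1 : (fun t => w t * G n t) ≤ᵐ[volume] fun t => w t * Y t := by
      refine ae_le_of_forall_setIntegral_le (hint (hGm n) (hGK n) hwi) (hint hY hYK hwi) ?_
      intro s hs _
      have hχ : Integrable (s.indicator w) := hwi.indicator hs
      have h2 := hw _ hχ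
      have h3 : ∀ Z : ℝ → ℝ, ∫ t, s.indicator w t * Z t = ∫ t in s, w t * Z t := by
        intro Z
        rw [← integral_indicator hs]
        refine integral_congr_ae (Eventually.of_forall fun t => ?_)
        by_cases ht : t ∈ s
        · simp only [indicator_of_mem ht]
        · simp only [indicator_of_notMem ht, zero_mul]
      rw [h3] at h2
      refine ge_of_tendsto h2 ?_
      filter_upwards [eventually_ge_atTop n] with k hk
      rw [h3]
      refine integral_mono_ae (hint (hGm n) (hGK n) hwi).integrableOn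
        (hint (hX k) (hXK k) hwi).integrableOn (Eventually.of_forall fun t => ?_)
      exact mul_le_mul_of_nonneg_left (hGle n k t hk) (hwp t).le
    filter_upwards [h1] with t ht
    exact le_of_mul_le_mul_left ht (hwp t)
  have hall : ∀ᵐ t, ∀ n, G n t ≤ Y t := ae_all_iff.2 key
  filter_upwards [hall] with t ht
  by_contra hcon
  push Not at hcon
  obtain ⟨y, hy1, hy2⟩ := exists_between hcon
  have h1 := eventually_lt_of_lt_liminf hy2
    ((isBoundedUnder_of_eventually_ge (a := -K) (Eventually.of_forall fun k =>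
      (abs_le.1 (hXK k t)).1)))
  obtain ⟨n, hn⟩ := eventually_atTop.1 h1
  have h2 : y ≤ G n t := le_ciInf fun k => (hn (k + n) (Nat.le_add_left _ _)).le
  linarith [ht n]

end Pool.Agent.X103.QF
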