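import Pool.Agent.X103.QG1
import Pool.Agent.X103.QF3

/-!
# One-parameter families of conformal metrics
-/

set_option autoImplicit false

open Set Filter Topology MeasureTheory
open scoped Real

noncomputable section

namespace Pool.Agent.X103.QF

open Pool.Agent.Y262.QE Pool.Agent.Y264.QR Pool.Agent.Y592.QE Pool.Agent.Y390.QR.LIP

theorem weak_limits (X : ℕ → ℝ → ℝ) (Y : ℝ → ℝ) (K : ℝ) (hX : ∀ k, AEMeasurable (X k))
    (hY : AEMeasurable Y) (hXK : ∀ k t, |X k t| ≤ K) (hYK : ∀ t, |Y t| ≤ K)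
    (hw : ∀ χ : ℝ → ℝ, Integrable χ → Tendsto (fun k => ∫ t, χ t * X k t) atTop
      (𝓝 (∫ t, χ t * Y t))) :
    ∀ᵐ t, liminf (fun k => X k t) atTop ≤ Y t ∧ Y t ≤ limsup (fun k => X k t) atTop := by
  have h1 := weak_limit X Y K hX hY hXK hYK hw
  have h2 := weak_limit (fun k t => -X k t) (fun t => -Y t) K (fun k => (hX k).neg) hY.neg
    (fun k t => by rw [abs_neg]; exact hXK k t) (fun t => by rw [abs_neg]; exact hYK t)
    (fun χ hχ => by
      simp only [mul_neg, integral_neg]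
      exact (hw χ hχ).neg)
  filter_upwards [h1, h2] with t ht1 ht2
  refine ⟨ht1, ?_⟩
  by_contra hcon
  push Not at hcon
  obtain ⟨y, hy1, hy2⟩ := exists_between hcon
  have h3 := eventually_lt_of_limsup_lt hy1
    ((isBoundedUnder_of_eventually_le (a := K) (Eventually.of_forall fun k =>
      (abs_le.1 (hXK k t)).2)))
  have h4 : -y ≤ liminf (fun k => -X k t) atTop := by
    refine le_liminf_of_le ?_ (h3.mono fun k hk => by linarith)
    exact (isBoundedUnder_of_eventually_le (a := K) (Eventually.of_forall fun k => by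
      linarith [(abs_le.1 (hXK k t)).1])).isCoboundedUnder_ge
  linarith

section

variable {M : Type} [MetricSpace M] [CompactSpace M] [MeasurableSpace M] [BorelSpace M]
  {μ : Measure M} [IsFiniteMeasure μ] {H : Type} [NormedAddCommGroup H] [InnerProductSpace ℝ H]
  {i : H →L[ℝ] Lp ℝ 2 μ} {a : H →L[ℝ] H →L[ℝ] ℝ} {b : C(M, ℝ) → H →L[ℝ] H →L[ℝ] ℝ}

theorem para (hSf : Sf μ i a) (hB : IsB μ i b) (hW : Wl μ a b) (φ h : C(M, ℝ)) (e : ℝ → ℕ → H)
    (E : ℝ → ℕ → ℝ) (hE : ∀ t, Eg a (b (φ + t • h)) (e t) (E t)) :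
    (∀ᵐ t : ℝ, ∀ j, HasDerivAt (fun s => E s j)
      (-(E t j * kap μ i h (φ + t • h) (e t j))) t ∧
      (0 < E t j → ∀ v, (∀ w, a v w = E t j * b (φ + t • h) v w) → b (φ + t • h) v v = 1 →
        kap μ i h (φ + t • h) v = kap μ i h (φ + t • h) (e t j))) ∧
    (∃ J : ℕ, ∀ j, J ≤ j → (∀ t, 0 < E t j) ∧ ∀ α β : ℝ, α ≤ β →
      IntervalIntegrable (fun t => kap μ i h (φ + t • h) (e t j)) volume α β ∧
      ∫ t in α..β, kap μ i h (φ + t • h) (e t j) = Real.log (E α j) - Real.log (E β j)) ∧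
    (∀ χ : ℝ → ℝ, Integrable χ → Tendsto (fun j => ∫ t, χ t * kap μ i h (φ + t • h) (e t j)) atTop
      (𝓝 (∫ t, χ t * avg μ h (φ + t • h)))) ∧
    ∀ J : ℕ → ℕ, Tendsto J atTop atTop → ∀ᵐ t : ℝ,
      liminf (fun k => kap μ i h (φ + t • h) (e t (J k))) atTop ≤ avg μ h (φ + t • h) ∧
      avg μ h (φ + t • h) ≤ limsup (fun k => kap μ i h (φ + t • h) (e t (J k))) atTop := by
  obtain ⟨h1, h2⟩ := tOneP M μ H i a b hSf hB hW φ h e E hE
  obtain ⟨b0, hB0, hF, hA, hexp, hk⟩ := tFm M μ H i a hSf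
  have hbb : b0 = b := by
    funext ψ
    ext u v
    rw [hB0, hB]
  subst hbb
  obtain ⟨l1, l2, l3, l4, l5⟩ := tLip M μ H a b0 hF hexp
  have hmm : ∀ t j, Ev a (b0 (φ + t • h)) j = E t j := fun t j =>
    Pool.Agent.Y592.QE.mm H a (b0 (φ + t • h)) (hF _) (e t) (E t) (hE t) j
  obtain ⟨k, ksym, k1, k2⟩ := hk h
  have hkap : ∀ t j, |kap μ i h (φ + t • h) (e t j)| ≤ ‖h‖ := by
    intro t j
    have h3 := (k1 (φ + t • h) (e t j)).2
    rw [(k1 _ _).1, (hE t).orth, if_pos rfl, mul_one] at h3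
    exact h3
  have havg : ∀ t : ℝ, |avg μ h (φ + t • h)| ≤ ‖h‖ := fun t =>
    Pool.Agent.Y155.QR.avg_le μ hA _ _
  simp only [hmm] at h1
  have hlipE : ∀ j (s t : ℝ), E s j ≤ Real.exp (‖h‖ * |s - t|) * E t j := by
    intro j s t
    have h3 := l3 (φ + s • h) (φ + t • h) j
    rw [hmm, hmm, add_sub_add_left_eq_sub, ← sub_smul, norm_smul, Real.norm_eq_abs,
      mul_comm |s - t|] at h3
    exact h3
  obtain ⟨J₀, hJ₀⟩ : ∃ J : ℕ, ∀ j, J ≤ j → ∀ t, 0 < E t j := by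
    have h3 := hW φ
    have h4 : (0 : ℝ) < 4 * π / ∫ x, Real.exp (φ x) ∂μ :=
      div_pos (by positivity) (hA φ)
    obtain ⟨J, hJ⟩ := eventually_atTop.1 (h3.eventually (lt_mem_nhds h4))
    refine ⟨J, fun j hj t => ?_⟩
    rw [← hmm]
    rcases l5 j with h5 | h5
    · exfalso
      have h6 := hJ j hj
      rw [h5 φ, zero_div] at h6
      exact lt_irrefl _ h6
    · exact h5 _
  have hder : ∀ j, ∀ᵐ t : ℝ, HasDerivAt (fun s => E s j)
      (-(kap μ i h (φ + t • h) (e t j) * E t j)) t := fun j => h1.mono fun t ht => ht j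
  have hFTC : ∀ j, J₀ ≤ j → (AEMeasurable fun t => kap μ i h (φ + t • h) (e t j)) ∧
      ∀ α β : ℝ, α ≤ β → ∫ t in α..β, kap μ i h (φ + t • h) (e t j) =
        Real.log (E α j) - Real.log (E β j) := fun j hj =>
    (Pool.Agent.Y147.QR.stFTC (fun t => E t j) (fun t => kap μ i h (φ + t • h) (e t j)) ‖h‖
      (hJ₀ j hj) (hlipE j) (hder j)).2
  refine ⟨?_, ⟨J₀, fun j hj => ⟨hJ₀ j hj, fun α β hαβ => ⟨?_, (hFTC j hj).2 α β hαβ⟩⟩⟩, h2, ?_⟩
  · filter_upwards [h1] with t ht j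
    refine ⟨?_, fun hpos v hv hv1 => ?_⟩
    · have := ht j
      rwa [mul_comm] at this
    · -- the bottom of the cluster
      obtain ⟨i₀, hi₀, hmin₀⟩ : ∃ i₀, E t i₀ = E t j ∧ ∀ l, l < i₀ → E t l ≠ E t j := by
        classical
        have hex : ∃ l, E t l = E t j := ⟨j, rfl⟩
        exact ⟨Nat.find hex, Nat.find_spec hex, fun l hl => Nat.find_min hex hl⟩
      have hlt : ∀ l, l < i₀ → E t l < E t i₀ := by
        intro l hl
        refine lt_of_le_of_ne ((hE t).mono hl.le) ?_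
        rw [hi₀]
        exact hmin₀ l hl
      have hgen : ∀ w : H, (∀ y, a w y = E t j * b0 (φ + t • h) w y) → b0 (φ + t • h) w w = 1 →
          kap μ i h (φ + t • h) w = kap μ i h (φ + t • h) (e t i₀) := by
        intro w hw hw1
        have hd := ht i₀
        have hd' := der_eq (f := fun s => E s i₀) (c := -(E t i₀ * kap μ i h (φ + t • h) w)) hd (by
          intro ε hε
          obtain ⟨δ, hδ, hδ'⟩ := derV (hF (φ + t • h)) (hE t) (k (φ + t • h)) ‖h‖
            (ksym _) (fun v => (k1 _ v).2) i₀ hlt w (by rw [hi₀]; exact hw) hw1 ε hε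
          refine ⟨δ, hδ, fun τ hτ => ?_⟩
          have h3 := hδ' τ hτ (b0 (φ + (t + τ) • h)) (fun v => by
            have := k2 (φ + t • h) v τ
            rwa [add_assoc, ← add_smul] at this)
          rw [hmm, (k1 _ _).1] at h3
          linarith)
        have hne : E t i₀ ≠ 0 := by rw [hi₀]; exact hpos.ne'
        have h4 : E t i₀ * kap μ i h (φ + t • h) w = E t i₀ * kap μ i h (φ + t • h) (e t i₀) := by
          linarith
        exact mul_left_cancel₀ hne h4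
      rw [hgen v hv hv1]
      symm
      refine hgen _ (fun y => (hE t).eig j y) ?_
      rw [(hE t).orth, if_pos rfl]
  · rw [intervalIntegrable_iff]
    haveI : IsFiniteMeasure (volume.restrict (uIoc α β)) :=
      ⟨by rw [Measure.restrict_apply_univ, uIoc]; exact measure_Ioc_lt_top⟩
    refine Integrable.of_bound (hFTC j hj).1.aestronglyMeasurable.restrict ‖h‖
      (Eventually.of_forall fun t => ?_)
    exact hkap t j
  · intro J hJ
    obtain ⟨k₀, hk₀⟩ := eventually_atTop.1 (hJ.eventually_ge_atTop J₀)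
    have h3 := weak_limits (fun k t => kap μ i h (φ + t • h) (e t (J (k + k₀))))
      (fun t => avg μ h (φ + t • h)) ‖h‖
      (fun k => (hFTC _ (hk₀ _ (Nat.le_add_left _ _))).1)
      (Pool.Agent.Y155.QR.avg_cont μ hA φ h).measurable.aemeasurable (fun k t => hkap _ _) havg
      (fun χ hχ => (h2 χ hχ).comp (hJ.comp (tendsto_add_atTop_nat k₀)))
    filter_upwards [h3] with t ht
    rw [liminf_nat_add (fun k => kap μ i h (φ + t • h) (e t (J k))) k₀,
      limsup_nat_add (fun k => kap μ i h (φ + t • h) (e t (J k))) k₀] at ht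
    exact ht

end

section

variable {M : Type} [MetricSpace M] [CompactSpace M] [MeasurableSpace M] [BorelSpace M]

theorem paraF [Nonempty M] (μ : Measure M) (D : Data M) (hD : D.IsSurf μ) (φ h : C(M, ℝ))
    (u : ℝ → ℕ → M → ℝ) (lam : ℝ → ℕ → ℝ)
    (hu : ∀ t : ℝ, EigBasis (D.conf fun x => Real.exp ((φ + t • h) x))
      (wm μ fun x => Real.exp ((φ + t • h) x)) (u t) (lam t)) :
    (∀ᵐ t : ℝ, ∀ j, HasDerivAt (fun s => lam s j)
      (-(lam t j * ∫ x, h x * (u t j x) ^ 2 ∂(wm μ fun x => Real.exp ((φ + t • h) x)))) t ∧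
      (0 < lam t j → ∀ v : M → ℝ, (D.conf fun x => Real.exp ((φ + t • h) x)).IsEig
        (wm μ fun x => Real.exp ((φ + t • h) x)) (lam t j) v →
        ∫ x, (v x) ^ 2 ∂(wm μ fun x => Real.exp ((φ + t • h) x)) = 1 →
        ∫ x, h x * (v x) ^ 2 ∂(wm μ fun x => Real.exp ((φ + t • h) x)) =
          ∫ x, h x * (u t j x) ^ 2 ∂(wm μ fun x => Real.exp ((φ + t • h) x)))) ∧
    (∃ J : ℕ, ∀ j, J ≤ j → (∀ t, 0 < lam t j) ∧ ∀ α β : ℝ, α ≤ β →
      IntervalIntegrable (fun t => ∫ x, h x * (u t j x) ^ 2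
        ∂(wm μ fun x => Real.exp ((φ + t • h) x))) volume α β ∧
      ∫ t in α..β, (∫ x, h x * (u t j x) ^ 2 ∂(wm μ fun x => Real.exp ((φ + t • h) x))) =
        Real.log (lam α j) - Real.log (lam β j)) ∧
    (∀ χ : ℝ → ℝ, Integrable χ → Tendsto (fun j => ∫ t, χ t *
      ∫ x, h x * (u t j x) ^ 2 ∂(wm μ fun x => Real.exp ((φ + t • h) x))) atTop
      (𝓝 (∫ t, χ t * ((∫ x, h x ∂(wm μ fun x => Real.exp ((φ + t • h) x))) /
        (wm μ fun x => Real.exp ((φ + t • h) x)).real univ)))) ∧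
    ∀ J : ℕ → ℕ, Tendsto J atTop atTop → ∀ᵐ t : ℝ,
      liminf (fun k => ∫ x, h x * (u t (J k) x) ^ 2
        ∂(wm μ fun x => Real.exp ((φ + t • h) x))) atTop ≤
          (∫ x, h x ∂(wm μ fun x => Real.exp ((φ + t • h) x))) /
            (wm μ fun x => Real.exp ((φ + t • h) x)).real univ ∧
      (∫ x, h x ∂(wm μ fun x => Real.exp ((φ + t • h) x))) /
            (wm μ fun x => Real.exp ((φ + t • h) x)).real univ ≤
        limsup (fun k => ∫ x, h x * (u t (J k) x) ^ 2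
          ∂(wm μ fun x => Real.exp ((φ + t • h) x))) atTop := by
  obtain ⟨hf, i, a, b, hSf, hi, ha, hB, hF, hW⟩ := pack μ D hD
  choose e he1 he2 using fun t : ℝ =>
    tBr M μ D hD i a b hSf hi ha hB hF (φ + t • h) (u t) (lam t) (hu t)
  obtain ⟨h1, h2, h3, h4⟩ := para hSf hB hW φ h e lam he2
  have hk : ∀ (t : ℝ) (j : ℕ), kap μ i h (φ + t • h) (e t j) =
      ∫ x, h x * (u t j x) ^ 2 ∂(wm μ fun x => Real.exp ((φ + t • h) x)) := fun t j =>
    kap_eq μ i h (φ + t • h) _ _ (he1 t j)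
  simp only [hk, avg_eq] at h1 h2 h3 h4
  refine ⟨?_, h2, h3, h4⟩
  filter_upwards [h1] with t ht j
  refine ⟨(ht j).1, fun hpos v hv hv1 => ?_⟩
  obtain ⟨w, hw1, hw2⟩ := to_vec μ D hD i a b hi ha hB (φ + t • h) (lam t j) v hv
  rw [← (ht j).2 hpos w hw2 (by rw [mass_vec μ i b hB _ w v hw1]; exact hv1),
    kap_eq μ i h (φ + t • h) w v hw1]

end

end Pool.Agent.X103.QF
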