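import Pool.Agent.X103.QG2

/-!
# Semicontinuity of the masses on the eigenspaces
-/

set_option autoImplicit false

open Set Filter Topology MeasureTheory
open scoped Real

noncomputable section

namespace Pool.Agent.X103.QF

open Pool.Agent.Y262.QE Pool.Agent.Y264.QR Pool.Agent.Y592.QE Pool.Agent.Y390.QR.LIP

section forms

variable {H : Type} [NormedAddCommGroup H] [InnerProductSpace ℝ H]

theorem cs (m b : H →L[ℝ] H →L[ℝ] ℝ) (sm : ∀ u v, m u v = m v u) (sb : ∀ u v, b u v = b v u)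
    (κ : ℝ) (h : ∀ x, |m x x| ≤ κ * b x x) (x y : H) : 2 * |m x y| ≤ κ * (b x x + b y y) := by
  have p1 := h (x + y)
  have p2 := h (x - y)
  have q1 : m (x + y) (x + y) = m x x + 2 * m x y + m y y := by
    simp only [map_add, add_apply]
    rw [sm y x]; ring
  have q2 : m (x - y) (x - y) = m x x - 2 * m x y + m y y := by
    simp only [map_sub, sub_apply]
    rw [sm y x]; ring
  have r1 : b (x + y) (x + y) = b x x + 2 * b x y + b y y := by
    simp only [map_add, add_apply]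
    rw [sb y x]; ring
  have r2 : b (x - y) (x - y) = b x x - 2 * b x y + b y y := by
    simp only [map_sub, sub_apply]
    rw [sb y x]; ring
  rw [q1, r1] at p1
  rw [q2, r2] at p2
  obtain ⟨u1, u2⟩ := abs_le.1 p1
  obtain ⟨w1, w2⟩ := abs_le.1 p2
  have h3 : |m x y| ≤ κ * (b x x + b y y) / 2 := by
    rw [abs_le]
    constructor <;> linarith
  linarith

theorem tail {a b b' : H →L[ℝ] H →L[ℝ] ℝ} (hF : Fm a b) (hF' : Fm a b') {e : ℕ → H} {E : ℕ → ℝ}
    (hE : Eg a b e E) (lam lam' κ g : ℝ) (hκ : 0 < κ) (hg : 0 < g)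
    (hm : ∀ x, |lam' * b' x x - lam * b x x| ≤ κ * b x x) (C : Finset ℕ)
    (hC : ∀ l, l ∉ C → g ≤ |E l - lam|) (v : H) (hv : ∀ w, a v w = lam' * b' v w) :
    b (v - ∑ l ∈ C, b v (e l) • e l) (v - ∑ l ∈ C, b v (e l) • e l) ≤ (κ / g) ^ 2 * b v v ∧
    b (∑ l ∈ C, b v (e l) • e l) (∑ l ∈ C, b v (e l) • e l) =
      b v v - b (v - ∑ l ∈ C, b v (e l) • e l) (v - ∑ l ∈ C, b v (e l) • e l) := by
  set m : H →L[ℝ] H →L[ℝ] ℝ := lam' • b' - lam • b with hmdef
  have hmx : ∀ x y, m x y = lam' * b' x y - lam * b x y := by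
    intro x y
    simp only [hmdef, sub_apply, smul_apply, smul_eq_mul]
  have hsm : ∀ u v, m u v = m v u := fun u v => by rw [hmx, hmx, hF.sb u v, hF'.sb u v]
  have key : ∀ l, (E l - lam) * b v (e l) = m v (e l) := by
    intro l
    have h1 := hE.eig l v
    rw [hF.sa, hv, hF.sb (e l) v] at h1
    rw [hmx, h1]; ring
  -- finite sums of orthonormal vectors
  have hsum : ∀ (F : Finset ℕ) (c : ℕ → ℝ), b (∑ l ∈ F, c l • e l) (∑ l ∈ F, c l • e l) =
      ∑ l ∈ F, c l ^ 2 := by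
    intro F c
    rw [map_sum]
    refine Finset.sum_congr rfl fun l hl => ?_
    rw [map_sum, sum_apply, Finset.sum_eq_single l]
    · rw [map_smul, map_smul, smul_apply, hE.orth, if_pos rfl]
      simp only [smul_eq_mul]
      ring
    · intro p _ hp
      rw [map_smul, map_smul, smul_apply, hE.orth, if_neg hp]
      simp
    · intro h
      exact absurd hl h
  have hfin : ∀ F : Finset ℕ, (∀ l ∈ F, l ∉ C) → ∑ l ∈ F, (b v (e l)) ^ 2 ≤
      (κ / g) ^ 2 * b v v := by
    intro F hFC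
    set S : ℝ := ∑ l ∈ F, ((E l - lam) * b v (e l)) ^ 2 with hS
    set y : H := ∑ l ∈ F, ((E l - lam) * b v (e l)) • e l with hy
    have h1 : b y y = S := hsum F _
    have h2 : m v y = S := by
      rw [hy, map_sum, hS]
      refine Finset.sum_congr rfl fun l _ => ?_
      rw [map_smul, smul_eq_mul, ← key]; ring
    have h3 := cs m b hsm hF.sb κ (fun x => by rw [hmx]; exact hm x) v (κ⁻¹ • y)
    have h4 : m v (κ⁻¹ • y) = κ⁻¹ * S := by rw [map_smul, smul_eq_mul, h2]
    have h5 : b (κ⁻¹ • y) (κ⁻¹ • y) = κ⁻¹ * (κ⁻¹ * S) := by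
      simp only [map_smul, smul_apply, smul_eq_mul, h1]
    rw [h4, h5] at h3
    have hS0 : 0 ≤ S := Finset.sum_nonneg fun l _ => sq_nonneg _
    rw [abs_of_nonneg (by positivity)] at h3
    have h6 : κ⁻¹ * S ≤ κ * b v v := by
      have : κ * (b v v + κ⁻¹ * (κ⁻¹ * S)) = κ * b v v + κ⁻¹ * S := by
        field_simp
      linarith
    have h7 : S ≤ κ ^ 2 * b v v := by
      have h8 := mul_le_mul_of_nonneg_left h6 hκ.le
      rw [← mul_assoc, mul_inv_cancel₀ hκ.ne', one_mul] at h8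
      linarith
    have h8 : g ^ 2 * ∑ l ∈ F, (b v (e l)) ^ 2 ≤ S := by
      rw [Finset.mul_sum]
      refine Finset.sum_le_sum fun l hl => ?_
      rw [mul_pow]
      refine mul_le_mul_of_nonneg_right ?_ (sq_nonneg _)
      rw [← sq_abs (E l - lam)]
      exact pow_le_pow_left₀ hg.le (hC l (hFC l hl)) 2
    rw [div_pow, div_mul_eq_mul_div, le_div_iff₀ (by positivity)]
    linarith
  have htot : b v v ≤ ∑ l ∈ C, (b v (e l)) ^ 2 + (κ / g) ^ 2 * b v v := by
    refine hasSum_le_of_sum_le (hE.sum v) fun s => ?_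
    rw [← Finset.sum_inter_add_sum_sdiff s C]
    refine add_le_add ?_ (hfin _ fun l hl => (Finset.mem_sdiff.1 hl).2)
    exact Finset.sum_le_sum_of_subset_of_nonneg Finset.inter_subset_right
      fun l _ _ => sq_nonneg _
  set w : H := ∑ l ∈ C, b v (e l) • e l with hw
  have hww : b w w = ∑ l ∈ C, (b v (e l)) ^ 2 := hsum C _
  have hvw : b v w = ∑ l ∈ C, (b v (e l)) ^ 2 := by
    rw [hw, map_sum]
    exact Finset.sum_congr rfl fun l _ => by rw [map_smul, smul_eq_mul, sq]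
  have hrr : b (v - w) (v - w) = b v v - ∑ l ∈ C, (b v (e l)) ^ 2 := by
    simp only [map_sub, sub_apply]
    rw [hF.sb w v, hvw, hww]; ring
  rw [hrr, hww]
  constructor <;> linarith

end forms

section

variable {M : Type} [MetricSpace M] [CompactSpace M] [MeasurableSpace M] [BorelSpace M]
  {μ : Measure M} [IsFiniteMeasure μ] {H : Type} [NormedAddCommGroup H] [InnerProductSpace ℝ H]
  {i : H →L[ℝ] Lp ℝ 2 μ} {a : H →L[ℝ] H →L[ℝ] ℝ} {b : C(M, ℝ) → H →L[ℝ] H →L[ℝ] ℝ}

theorem kap_int (f ψ : C(M, ℝ)) (v : H) :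
    Integrable (fun x => f x * (Real.exp (ψ x) * (i v x) ^ 2)) μ := by
  have h1 : Integrable (fun x => (i v x) ^ 2) μ := (Lp.memLp (i v)).integrable_sq
  have h2 : (fun x => f x * (Real.exp (ψ x) * (i v x) ^ 2)) =
      fun x => (f x * Real.exp (ψ x)) * (i v x) ^ 2 := by
    funext x; ring
  rw [h2]
  obtain ⟨B, hB'⟩ := (isCompact_univ (X := M)).exists_bound_of_continuousOn
    (f := fun x => f x * Real.exp (ψ x)) (by fun_prop)
  exact h1.bdd_mul (c := B) (by fun_prop : Continuous fun x => f x *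
    Real.exp (ψ x)).aestronglyMeasurable (Eventually.of_forall fun x => hB' x (mem_univ x))

theorem kap_diff (hB : IsB μ i b) (f φ ψ : C(M, ℝ)) (v : H) :
    kap μ i f ψ v ≤ kap μ i f φ v + ‖f‖ * (Real.exp ‖ψ - φ‖ - 1) * b φ v v := by
  have hb : b φ v v = ∫ x, Real.exp (φ x) * (i v x) ^ 2 ∂μ := by
    rw [hB]
    refine integral_congr_ae (Eventually.of_forall fun x => ?_)
    simp only []
    ring
  have hbi : Integrable (fun x => Real.exp (φ x) * (i v x) ^ 2) μ := by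
    have := kap_int (μ := μ) (i := i) 1 φ v
    simpa only [ContinuousMap.one_apply, one_mul] using this
  rw [hb, ← integral_const_mul]
  unfold kap
  rw [← integral_add (kap_int f φ v) (hbi.const_mul _)]
  refine integral_mono (kap_int f ψ v) ((kap_int f φ v).add (hbi.const_mul _)) fun x => ?_
  show f x * (Real.exp (ψ x) * (i v x) ^ 2) ≤ f x * (Real.exp (φ x) * (i v x) ^ 2) +
    ‖f‖ * (Real.exp ‖ψ - φ‖ - 1) * (Real.exp (φ x) * (i v x) ^ 2)
  have h1 : f x * (Real.exp (ψ x) - Real.exp (φ x)) ≤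
      ‖f‖ * (Real.exp ‖ψ - φ‖ - 1) * Real.exp (φ x) := by
    have hfx : |f x| ≤ ‖f‖ := f.norm_coe_le_norm x
    have ht : |ψ x - φ x| ≤ ‖ψ - φ‖ := by
      have := (ψ - φ).norm_coe_le_norm x
      rwa [ContinuousMap.sub_apply, Real.norm_eq_abs] at this
    set t := ψ x - φ x with htdef
    have he : Real.exp (ψ x) = Real.exp (φ x) * Real.exp t := by
      rw [← Real.exp_add, htdef]; congr 1; ring
    have h2 : |Real.exp t - 1| ≤ Real.exp ‖ψ - φ‖ - 1 := by
      have h3 : Real.exp |t| ≤ Real.exp ‖ψ - φ‖ := Real.exp_le_exp.2 ht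
      have h4 : Real.exp t ≤ Real.exp |t| := Real.exp_le_exp.2 (le_abs_self t)
      have h5 := Real.add_one_le_exp t
      have h6 := Real.add_one_le_exp |t|
      have h7 := neg_abs_le t
      rw [abs_le]
      constructor <;> linarith
    have h8 : f x * (Real.exp (ψ x) - Real.exp (φ x)) = f x * (Real.exp t - 1) * Real.exp (φ x) := by
      rw [he]; ring
    rw [h8]
    refine mul_le_mul_of_nonneg_right ?_ (Real.exp_pos _).le
    refine (le_abs_self _).trans ?_
    rw [abs_mul]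
    exact mul_le_mul hfx h2 (abs_nonneg _) (norm_nonneg _)
  have h9 := mul_le_mul_of_nonneg_right h1 (sq_nonneg (i v x))
  linarith

/-- upper semicontinuity of the masses -/
theorem upper (hF : ∀ φ, Fm a (b φ))
    (hexp : ∀ (φ ψ : C(M, ℝ)) (v : H), b φ v v ≤ Real.exp ‖φ - ψ‖ * b ψ v v) (hB : IsB μ i b)
    (hev : ∀ (φ ψ : C(M, ℝ)) j, Ev a (b φ) j ≤ Real.exp ‖φ - ψ‖ * Ev a (b ψ) j)
    (f : C(M, ℝ)) (k : C(M, ℝ) → H →L[ℝ] H →L[ℝ] ℝ) (ksym : ∀ φ u v, k φ u v = k φ v u)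
    (k1 : ∀ φ v, k φ v v = kap μ i f φ v ∧ |k φ v v| ≤ ‖f‖ * b φ v v)
    (φ : C(M, ℝ)) {e : ℕ → H} {E : ℕ → ℝ} (hE : Eg a (b φ) e E) (j : ℕ) (B : ℝ)
    (hBd : ∀ x, (∀ y, a x y = E j * b φ x y) → b φ x x = 1 → kap μ i f φ x ≤ B) (η : ℝ)
    (hη : 0 < η) :
    ∃ δ : ℝ, 0 < δ ∧ ∀ ψ : C(M, ℝ), ‖ψ - φ‖ < δ → ∀ v,
      (∀ y, a v y = Ev a (b ψ) j * b ψ v y) → b ψ v v = 1 → kap μ i f ψ v ≤ B + η := by
  have hmm : Ev a (b φ) j = E j := Pool.Agent.Y592.QE.mm H a (b φ) (hF _) e E hE j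
  have hlam0 : 0 ≤ E j := by
    have h1 := (hF φ).na (e j)
    rw [hE.eig, hE.orth, if_pos rfl, mul_one] at h1
    exact h1
  set lam := E j with hlam
  -- the cluster
  obtain ⟨N, hN⟩ := eventually_atTop.1 (hE.tt.eventually_ge_atTop (lam + 1))
  obtain ⟨g₀, hg₀, hgap⟩ := Pool.Agent.Y726.QE.exists_gap
    ((Finset.range N).filter fun l => E l ≠ lam) (fun l => |E l - lam|)
    (fun l hl => abs_pos.2 (sub_ne_zero.2 (Finset.mem_filter.1 hl).2))
  set C : Finset ℕ := (Finset.range N).filter fun l => E l = lam with hC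
  set g : ℝ := min g₀ 1 with hg
  have hgpos : 0 < g := lt_min hg₀ one_pos
  have hCg : ∀ l, l ∉ C → g ≤ |E l - lam| := by
    intro l hl
    by_cases hlN : l < N
    · refine (min_le_left _ _).trans (hgap l (Finset.mem_filter.2 ⟨Finset.mem_range.2 hlN, ?_⟩))
      intro h
      exact hl (Finset.mem_filter.2 ⟨Finset.mem_range.2 hlN, h⟩)
    · have h1 := hN l (not_lt.1 hlN)
      refine (min_le_right _ _).trans ?_
      rw [abs_of_nonneg (by linarith)]
      linarith
  set F := ‖f‖ with hFdef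
  have hF0 : 0 ≤ F := norm_nonneg _
  set A : ℝ := η / (2 * (F + 1)) with hA
  have hA0 : 0 < A := by positivity
  have hFA : F * A < η := by
    rw [hA, mul_div_assoc', div_lt_iff₀ (by positivity)]
    nlinarith
  -- the error
  set T : ℝ → ℝ := fun ρ => ((lam + 1) * (ρ ^ 2 - 1) / g) ^ 2 * ρ with hT
  set Φ : ℝ → ℝ := fun ρ => |B| * ((ρ - 1) + T ρ) + F * (A * ρ + T ρ / A) + F * T ρ +
    F * (ρ - 1) * ρ with hΦ
  have hΦc : Continuous fun δ : ℝ => Φ (Real.exp δ) := by
    simp only [hΦ, hT]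
    fun_prop
  have hΦ0 : Φ (Real.exp 0) < η := by
    simp only [hΦ, hT, Real.exp_zero]
    norm_num
    exact hFA
  obtain ⟨d, hd, hd'⟩ := Metric.eventually_nhds_iff.1
    ((hΦc.tendsto 0).eventually (gt_mem_nhds hΦ0))
  refine ⟨d / 2, by positivity, fun ψ hψ v hv hv1 => ?_⟩
  have hlt : Φ (Real.exp (d / 2)) < η := hd' (by
    rw [Real.dist_eq, sub_zero, abs_of_pos (by positivity)]; linarith)
  set ρ := Real.exp (d / 2) with hρ
  have hρ1 : 1 < ρ := Real.one_lt_exp_iff.2 (by positivity)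
  have hρ0 : 0 < ρ := by linarith
  have e1 : Real.exp ‖ψ - φ‖ ≤ ρ := Real.exp_le_exp.2 hψ.le
  have e2 : Real.exp ‖φ - ψ‖ ≤ ρ := by rw [norm_sub_rev]; exact e1
  have nb : ∀ χ x, 0 ≤ b χ x x := fun χ => (hF χ).nb
  have c1 : ∀ x, b ψ x x ≤ ρ * b φ x x := fun x =>
    (hexp ψ φ x).trans (mul_le_mul_of_nonneg_right e1 (nb _ _))
  have c2 : ∀ x, b φ x x ≤ ρ * b ψ x x := fun x =>
    (hexp φ ψ x).trans (mul_le_mul_of_nonneg_right e2 (nb _ _))
  set lam' := Ev a (b ψ) j with hlam'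
  have hlam'0 : 0 ≤ lam' := Ev_nonneg j
  have c3 : lam' ≤ ρ * lam := by
    have := hev ψ φ j
    rw [hmm] at this
    exact this.trans (mul_le_mul_of_nonneg_right e1 hlam0)
  have c4 : lam ≤ ρ * lam' := by
    have := hev φ ψ j
    rw [hmm] at this
    exact this.trans (mul_le_mul_of_nonneg_right e2 hlam'0)
  set κ : ℝ := (lam + 1) * (ρ ^ 2 - 1) with hκ
  have hρ2 : 0 < ρ ^ 2 - 1 := by nlinarith
  have hκ0 : 0 < κ := by positivity
  have hm : ∀ x, |lam' * b ψ x x - lam * b φ x x| ≤ κ * b φ x x := by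
    intro x
    have hb0 := nb φ x
    have hb1 := nb ψ x
    have u1 : lam' * b ψ x x ≤ ρ ^ 2 * (lam * b φ x x) := by
      calc lam' * b ψ x x ≤ (ρ * lam) * (ρ * b φ x x) :=
            mul_le_mul c3 (c1 x) hb1 (by positivity)
        _ = ρ ^ 2 * (lam * b φ x x) := by ring
    have u2 : lam * b φ x x ≤ ρ ^ 2 * (lam' * b ψ x x) := by
      calc lam * b φ x x ≤ (ρ * lam') * (ρ * b ψ x x) :=
            mul_le_mul c4 (c2 x) hb0 (by positivity)
        _ = ρ ^ 2 * (lam' * b ψ x x) := by ring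
    have u3 : 0 ≤ lam * b φ x x := mul_nonneg hlam0 hb0
    have u4 : 0 ≤ lam' * b ψ x x := mul_nonneg hlam'0 hb1
    have u5 : (ρ ^ 2 - 1) * (lam * b φ x x) ≤ κ * b φ x x := by
      rw [hκ]
      have : 0 ≤ (ρ ^ 2 - 1) * b φ x x := by positivity
      nlinarith
    rw [abs_le]
    constructor
    · have u6 : lam * b φ x x - lam' * b ψ x x ≤ (ρ ^ 2 - 1) * (lam * b φ x x) := by
        by_cases h : lam * b φ x x ≤ lam' * b ψ x x
        · have : 0 ≤ (ρ ^ 2 - 1) * (lam * b φ x x) := by positivity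
          linarith
        · push Not at h
          have : (ρ ^ 2 - 1) * (lam' * b ψ x x) ≤ (ρ ^ 2 - 1) * (lam * b φ x x) :=
            mul_le_mul_of_nonneg_left h.le hρ2.le
          linarith
      linarith
    · linarith
  obtain ⟨t1, t2⟩ := tail (hF φ) (hF ψ) hE lam lam' κ g hκ0 hgpos hm C hCg v hv
  set w : H := ∑ l ∈ C, b φ v (e l) • e l with hw
  set r : H := v - w with hr
  have hweig : ∀ y, a w y = lam * b φ w y := by
    intro y
    rw [hw, map_sum, map_sum, sum_apply, sum_apply, Finset.mul_sum]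
    refine Finset.sum_congr rfl fun l hl => ?_
    rw [map_smul, map_smul, smul_apply, smul_apply, hE.eig, (Finset.mem_filter.1 hl).2]
    simp only [smul_eq_mul]
    ring
  have bvv1 : b φ v v ≤ ρ := by have := c2 v; rwa [hv1, mul_one] at this
  have bvv2 : 1 ≤ ρ * b φ v v := by have := c1 v; rwa [hv1] at this
  have brr0 := nb φ r
  have bww0 := nb φ w
  have hTr : b φ r r ≤ T ρ := by
    refine t1.trans ?_
    simp only [hT]
    exact mul_le_mul_of_nonneg_left bvv1 (sq_nonneg _)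
  have hT0 : 0 ≤ T ρ := brr0.trans hTr
  have hbw1 : b φ w w ≤ ρ := by linarith
  have hinv : 2 - ρ ≤ b φ v v := by
    have h1 : ρ * (2 - ρ) ≤ ρ * b φ v v := by nlinarith
    exact le_of_mul_le_mul_left h1 hρ0
  have hbw2 : |b φ w w - 1| ≤ (ρ - 1) + T ρ := by
    rw [abs_le]
    constructor <;> linarith
  -- the eigenspace
  have hkw : k φ w w ≤ B * b φ w w := by
    by_cases h0 : b φ w w = 0
    · have h1 := (k1 φ w).2
      rw [h0, mul_zero] at h1
      have h2 := abs_nonpos_iff.1 h1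
      rw [h0, h2, mul_zero]
    · have hpos : 0 < b φ w w := lt_of_le_of_ne bww0 (Ne.symm h0)
      have hsq : (Real.sqrt (b φ w w))⁻¹ * (Real.sqrt (b φ w w))⁻¹ = (b φ w w)⁻¹ := by
        rw [← mul_inv, Real.mul_self_sqrt hpos.le]
      have h3 := hBd ((Real.sqrt (b φ w w))⁻¹ • w) (fun y => by
        simp only [map_smul, smul_apply, smul_eq_mul, hweig]
        ring) (by
        simp only [map_smul, smul_apply, smul_eq_mul]
        rw [← mul_assoc, hsq, inv_mul_cancel₀ hpos.ne'])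
      rw [← (k1 φ _).1] at h3
      simp only [map_smul, smul_apply, smul_eq_mul] at h3
      rw [← mul_assoc, hsq, inv_mul_le_iff₀ hpos] at h3
      linarith
  have hkw2 : k φ w w ≤ B + |B| * ((ρ - 1) + T ρ) := by
    have h1 : B * b φ w w = B + B * (b φ w w - 1) := by ring
    have h2 : B * (b φ w w - 1) ≤ |B| * ((ρ - 1) + T ρ) := by
      refine (le_abs_self _).trans ?_
      rw [abs_mul]
      exact mul_le_mul_of_nonneg_left hbw2 (abs_nonneg _)
    linarith
  have hcr : 2 * |k φ w r| ≤ F * (A * ρ + T ρ / A) := by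
    have h1 := cs (k φ) (b φ) (ksym φ) (hF φ).sb F (fun x => (k1 φ x).2) (A • w) r
    simp only [map_smul, smul_apply, smul_eq_mul] at h1
    rw [abs_mul, abs_of_pos hA0] at h1
    have h2 : F * (A * (A * b φ w w) + b φ r r) ≤ A * (F * (A * ρ + T ρ / A)) := by
      have h3 : A * (F * (A * ρ + T ρ / A)) = F * (A * (A * ρ) + T ρ) := by
        field_simp
      rw [h3]
      refine mul_le_mul_of_nonneg_left ?_ hF0
      have h4 : A * (A * b φ w w) ≤ A * (A * ρ) :=
        mul_le_mul_of_nonneg_left (mul_le_mul_of_nonneg_left hbw1 hA0.le) hA0.le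
      linarith
    have h5 : A * (2 * |k φ w r|) ≤ A * (F * (A * ρ + T ρ / A)) := by linarith
    exact le_of_mul_le_mul_left h5 hA0
  have hkr : k φ r r ≤ F * T ρ :=
    ((le_abs_self _).trans (k1 φ r).2).trans (mul_le_mul_of_nonneg_left hTr hF0)
  have hvwr : k φ v v = k φ w w + 2 * k φ w r + k φ r r := by
    have h1 : v = w + r := by rw [hr]; abel
    rw [h1]
    simp only [map_add, add_apply]
    rw [ksym φ r w]; ring
  have hfin := kap_diff hB f φ ψ v
  rw [← (k1 φ v).1, hvwr] at hfin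
  have hlast : F * (Real.exp ‖ψ - φ‖ - 1) * b φ v v ≤ F * (ρ - 1) * ρ := by
    refine mul_le_mul (mul_le_mul_of_nonneg_left (by linarith) hF0) bvv1 (nb _ _) ?_
    exact mul_nonneg hF0 (by linarith)
  have habs := le_abs_self (k φ w r)
  simp only [hΦ] at hlt
  linarith

end

end Pool.Agent.X103.QF
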