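import Pool.Agent.X103.QH1

/-!
# Generic metrics
-/

set_option autoImplicit false

open Set Filter Topology MeasureTheory
open scoped Real

noncomputable section

namespace Pool.Agent.X103.QF

open Pool.Agent.Y262.QE Pool.Agent.Y264.QR Pool.Agent.Y592.QE Pool.Agent.Y390.QR.LIP

section

variable {M : Type} [MetricSpace M] [CompactSpace M] [MeasurableSpace M] [BorelSpace M]
  {μ : Measure M} [IsFiniteMeasure μ] {H : Type} [NormedAddCommGroup H] [InnerProductSpace ℝ H]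
  {i : H →L[ℝ] Lp ℝ 2 μ} {a : H →L[ℝ] H →L[ℝ] ℝ} {b : C(M, ℝ) → H →L[ℝ] H →L[ℝ] ℝ}

/-- the conformal factors for which some eigenspace with a number `J k`, `k ≥ K`, has the masses of
`f` below the mean value plus `ε` -/
def Uset (μ : Measure M) (i : H →L[ℝ] Lp ℝ 2 μ) (a : H →L[ℝ] H →L[ℝ] ℝ)
    (b : C(M, ℝ) → H →L[ℝ] H →L[ℝ] ℝ) (J : ℕ → ℕ) (f : C(M, ℝ)) (ε : ℝ) (K : ℕ) :
    Set C(M, ℝ) :=
  {φ | ∃ k, K ≤ k ∧ ∃ θ : ℝ, θ < ε ∧ ∀ v, (∀ y, a v y = Ev a (b φ) (J k) * b φ v y) →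
    b φ v v = 1 → kap μ i f φ v ≤ avg μ f φ + θ}

theorem avg_continuous (f : C(M, ℝ)) : Continuous fun φ : C(M, ℝ) => avg μ f φ := by
  letI : MeasurableSpace C(M, ℝ) := borel _
  haveI : BorelSpace C(M, ℝ) := ⟨rfl⟩
  exact (Pool.Agent.Y689.QR.cm M μ).2.1 f

theorem Uset_open [CompleteSpace H] (hSf : Sf μ i a) (hB : IsB μ i b) (hF : ∀ φ, Fm a (b φ))
    (J : ℕ → ℕ) (f : C(M, ℝ)) (ε : ℝ) (K : ℕ) : IsOpen (Uset μ i a b J f ε K) := by
  obtain ⟨b0, hB0, hF0, hA, hexp, hk⟩ := tFm M μ H i a hSf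
  have hbb : b0 = b := by
    funext ψ
    ext u v
    rw [hB0, hB]
  subst hbb
  obtain ⟨l1, l2, l3, l4, l5⟩ := tLip M μ H a b0 hF hexp
  obtain ⟨k, ksym, k1, k2⟩ := hk f
  rw [isOpen_iff_mem_nhds]
  rintro φ ⟨n, hn, θ, hθ, hφ⟩
  obtain ⟨e, E, hE⟩ := tSp H a (b0 φ) (hF φ)
  have hmm : Ev a (b0 φ) (J n) = E (J n) := Pool.Agent.Y592.QE.mm H a (b0 φ) (hF _) e E hE (J n)
  have hη : 0 < (ε - θ) / 4 := by linarith
  obtain ⟨δ, hδ, hup⟩ := upper hF hexp hB l3 f k ksym k1 φ hE (J n) (avg μ f φ + θ)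
    (by rw [← hmm]; exact hφ) ((ε - θ) / 4) hη
  have h1 : ∀ᶠ ψ in 𝓝 φ, ‖ψ - φ‖ < δ := by
    have : Metric.ball φ δ ∈ 𝓝 φ := Metric.ball_mem_nhds _ hδ
    filter_upwards [this] with ψ hψ
    rwa [← dist_eq_norm]
  have h2 : ∀ᶠ ψ in 𝓝 φ, avg μ f φ - (ε - θ) / 4 < avg μ f ψ :=
    ((avg_continuous (μ := μ) f).tendsto φ).eventually (lt_mem_nhds (by linarith))
  filter_upwards [h1, h2] with ψ hψ1 hψ2
  refine ⟨n, hn, θ + (ε - θ) / 2, by linarith, fun v hv hv1 => ?_⟩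
  have := hup ψ hψ1 v hv hv1
  linarith

/-- near every point of a line in the direction `± f` there are points of `Uset` -/
theorem Uset_line [CompleteSpace H] (hSf : Sf μ i a) (hB : IsB μ i b) (hF : ∀ φ, Fm a (b φ))
    (hW : Wl μ a b) (J : ℕ → ℕ) (hJ : Tendsto J atTop atTop) (φ f : C(M, ℝ)) (ε : ℝ)
    (hε : 0 < ε) (K : ℕ) :
    ∀ᵐ t : ℝ, φ + t • f ∈ Uset μ i a b J f ε K ∧ φ + t • f ∈ Uset μ i a b J (-f) ε K := by
  choose e E hE using fun t : ℝ => tSp H a (b (φ + t • f)) (hF _)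
  have hmm : ∀ t j, Ev a (b (φ + t • f)) j = E t j := fun t j =>
    Pool.Agent.Y592.QE.mm H a (b (φ + t • f)) (hF _) (e t) (E t) (hE t) j
  obtain ⟨h1, ⟨J₀, h2⟩, -, h4⟩ := para hSf hB hW φ f e E hE
  obtain ⟨b0, hB0, hF0, hA, hexp, hk⟩ := tFm M μ H i a hSf
  have hbb : b0 = b := by
    funext ψ
    ext u v
    rw [hB0, hB]
  subst hbb
  obtain ⟨k, ksym, k1, k2⟩ := hk f
  have hkap : ∀ t j, |kap μ i f (φ + t • f) (e t j)| ≤ ‖f‖ := by
    intro t j
    have h3 := (k1 (φ + t • f) (e t j)).2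
    rw [(k1 _ _).1, (hE t).orth, if_pos rfl, mul_one] at h3
    exact h3
  have hneg : ∀ ψ v, kap μ i (-f) ψ v = -kap μ i f ψ v := by
    intro ψ v
    unfold kap
    rw [← integral_neg]
    refine integral_congr_ae (Eventually.of_forall fun x => ?_)
    simp only [ContinuousMap.neg_apply]
    ring
  have hnega : ∀ ψ, avg μ (-f) ψ = -avg μ f ψ := by
    intro ψ
    unfold avg
    rw [← neg_div, ← integral_neg]
    congr 1
    refine integral_congr_ae (Eventually.of_forall fun x => ?_)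
    simp only [ContinuousMap.neg_apply]
    ring
  filter_upwards [h1, h4 J hJ] with t ht1 ht2
  have hb : IsBoundedUnder (· ≥ ·) atTop fun n => kap μ i f (φ + t • f) (e t (J n)) :=
    isBoundedUnder_of_eventually_ge (a := -‖f‖) (Eventually.of_forall fun n =>
      (abs_le.1 (hkap t _)).1)
  have hb' : IsBoundedUnder (· ≤ ·) atTop fun n => kap μ i f (φ + t • f) (e t (J n)) :=
    isBoundedUnder_of_eventually_le (a := ‖f‖) (Eventually.of_forall fun n =>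
      (abs_le.1 (hkap t _)).2)
  have f1 : ∃ᶠ n in atTop, kap μ i f (φ + t • f) (e t (J n)) < avg μ f (φ + t • f) + ε / 2 :=
    frequently_lt_of_liminf_lt hb'.isCoboundedUnder_ge (lt_of_le_of_lt ht2.1 (by linarith))
  have f2 : ∃ᶠ n in atTop, avg μ f (φ + t • f) - ε / 2 < kap μ i f (φ + t • f) (e t (J n)) :=
    frequently_lt_of_lt_limsup hb.isCoboundedUnder_le (lt_of_lt_of_le (by linarith) ht2.2)
  have hev := (hJ.eventually_ge_atTop J₀).and (eventually_ge_atTop K)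
  constructor
  · obtain ⟨n, hn1, hn2, hn3⟩ := (f1.and_eventually hev).exists
    refine ⟨n, hn3, ε / 2, by linarith, fun v hv hv1 => ?_⟩
    rw [hmm] at hv
    rw [(ht1 (J n)).2 ((h2 _ hn2).1 t) v hv hv1]
    exact hn1.le
  · obtain ⟨n, hn1, hn2, hn3⟩ := (f2.and_eventually hev).exists
    refine ⟨n, hn3, ε / 2, by linarith, fun v hv hv1 => ?_⟩
    rw [hmm] at hv
    rw [hneg, hnega, (ht1 (J n)).2 ((h2 _ hn2).1 t) v hv hv1]
    linarith

/-- the generic statement for the forms -/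
theorem generic [CompleteSpace H] (hSf : Sf μ i a) (hB : IsB μ i b) (hF : ∀ φ, Fm a (b φ))
    (hW : Wl μ a b) (J : ℕ → ℕ) (hJ : Tendsto J atTop atTop) {X : Type} [TopologicalSpace X]
    (ι : X → C(M, ℝ)) (hι : Continuous ι) (S : Set C(M, ℝ)) (hS : Dense S)
    (hp : ∀ x, ∀ f ∈ S, ∃ γ : ℝ → X, Tendsto γ (𝓝 0) (𝓝 x) ∧
      ∀ᶠ t in 𝓝 (0 : ℝ), ι (γ t) = ι x + t • f) :
    ∀ᶠ x in residual X, ∀ f : C(M, ℝ), ∀ ε : ℝ, 0 < ε → ∀ K : ℕ,
      ι x ∈ Uset μ i a b J f ε K := by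
  have hdense : ∀ f ∈ S, ∀ ε : ℝ, 0 < ε → ∀ K : ℕ,
      Dense (ι ⁻¹' (Uset μ i a b J f ε K)) ∧ Dense (ι ⁻¹' (Uset μ i a b J (-f) ε K)) := by
    intro f hf ε hε K
    have key : ∀ x : X, ∀ V ∈ 𝓝 x, ∃ y ∈ V, ι y ∈ Uset μ i a b J f ε K ∧
        ι y ∈ Uset μ i a b J (-f) ε K := by
      intro x V hV
      obtain ⟨γ, hγ1, hγ2⟩ := hp x f hf
      have h1 := Uset_line hSf hB hF hW J hJ (ι x) f ε hε K
      have h2 : ∃ᶠ t in 𝓝 (0 : ℝ), ι x + t • f ∈ Uset μ i a b J f ε K ∧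
          ι x + t • f ∈ Uset μ i a b J (-f) ε K := by
        have h3 := Measure.dense_of_ae h1
        have h4 := h3 0
        rw [mem_closure_iff_frequently] at h4
        exact h4
      obtain ⟨t, ht1, ht2, ht3⟩ := (h2.and_eventually (hγ2.and (hγ1 hV))).exists
      refine ⟨γ t, ht3, ?_⟩
      rw [ht2]
      exact ht1
    constructor
    · rw [dense_iff_inter_open]
      rintro V hV ⟨x, hx⟩
      obtain ⟨y, hy1, hy2, -⟩ := key x V (hV.mem_nhds hx)
      exact ⟨y, hy1, hy2⟩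
    · rw [dense_iff_inter_open]
      rintro V hV ⟨x, hx⟩
      obtain ⟨y, hy1, -, hy2⟩ := key x V (hV.mem_nhds hx)
      exact ⟨y, hy1, hy2⟩
  -- a countable dense subset
  obtain ⟨T, hTS, hTc, hTd⟩ :=
    (TopologicalSpace.IsSeparable.of_separableSpace S).exists_countable_dense_subset
  have hTd' : Dense T := fun y => closure_minimal hTd isClosed_closure (hS y)
  have hres : ∀ᶠ x in residual X, ∀ f ∈ T, ∀ n K : ℕ,
      ι x ∈ Uset μ i a b J f (1 / ((n : ℝ) + 1)) K := by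
    rw [eventually_countable_ball hTc]
    intro f hf
    rw [eventually_countable_forall]
    intro n
    rw [eventually_countable_forall]
    intro K
    exact residual_of_dense_open ((Uset_open hSf hB hF J f _ K).preimage hι)
      (hdense f (hTS hf) _ (by positivity) K).1
  filter_upwards [hres] with x hx f ε hε K
  obtain ⟨f', hf'T, hf'⟩ := Metric.dense_iff.1 hTd' f (ε / 4) (by positivity)
  have hnorm : ‖f - f'‖ < ε / 4 := by rw [← dist_eq_norm, dist_comm]; exact hf'T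
  obtain ⟨n, hn⟩ := exists_nat_one_div_lt (show 0 < ε / 4 by positivity)
  obtain ⟨m, hm, θ, hθ, hmass⟩ := hx f' hf' n K
  obtain ⟨b0, hB0, hF0, hA, hexp, hk⟩ := tFm M μ H i a hSf
  have hbb : b0 = b := by
    funext ψ
    ext u v
    rw [hB0, hB]
  subst hbb
  obtain ⟨k, ksym, k1, k2⟩ := hk (f - f')
  have hsub : ∀ ψ v, kap μ i f ψ v = kap μ i f' ψ v + kap μ i (f - f') ψ v := by
    intro ψ v
    unfold kap
    rw [← integral_add (kap_int f' ψ v) (kap_int (f - f') ψ v)]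
    refine integral_congr_ae (Eventually.of_forall fun x => ?_)
    simp only [ContinuousMap.sub_apply]
    ring
  have hsuba : ∀ ψ, avg μ f ψ = avg μ f' ψ + avg μ (f - f') ψ := by
    intro ψ
    unfold avg
    rw [← add_div, ← integral_add (Pool.Agent.Y155.QR.int_cont μ (by fun_prop))
      (Pool.Agent.Y155.QR.int_cont μ (by fun_prop))]
    congr 1
    refine integral_congr_ae (Eventually.of_forall fun x => ?_)
    simp only [ContinuousMap.sub_apply]
    ring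
  refine ⟨m, hm, θ + ε / 2, by linarith, fun v hv hv1 => ?_⟩
  have h1 := hmass v hv hv1
  have h2 := (le_abs_self _).trans (k1 (ι x) v).2
  rw [hv1, mul_one, (k1 (ι x) v).1] at h2
  have h3 := (abs_le.1 (Pool.Agent.Y155.QR.avg_le μ hA (ι x) (f - f'))).1
  rw [hsub, hsuba]
  linarith

end

end Pool.Agent.X103.QF
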