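import Pool.Agent.X103.QH2

/-!
# Generic metrics: the statement for functions
-/

set_option autoImplicit false

open Set Filter Topology MeasureTheory
open scoped Real

noncomputable section

namespace Pool.Agent.X103.QF

open Pool.Agent.Y262.QE Pool.Agent.Y264.QR Pool.Agent.Y592.QE Pool.Agent.Y390.QR.LIP

variable {M : Type} [MetricSpace M] [CompactSpace M] [MeasurableSpace M] [BorelSpace M]

theorem genericF [Nonempty M] (μ : Measure M) (D : Data M) (hD : D.IsSurf μ) (J : ℕ → ℕ)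
    (hJ : Tendsto J atTop atTop) {X : Type} [TopologicalSpace X] (ι : X → C(M, ℝ))
    (hι : Continuous ι) (S : Set C(M, ℝ)) (hS : Dense S)
    (hp : ∀ x, ∀ f ∈ S, ∃ γ : ℝ → X, Tendsto γ (𝓝 0) (𝓝 x) ∧
      ∀ᶠ t in 𝓝 (0 : ℝ), ι (γ t) = ι x + t • f) :
    ∀ᶠ x in residual X, ∀ (u : ℕ → M → ℝ) (lam : ℕ → ℝ),
      EigBasis (D.conf fun y => Real.exp (ι x y)) (wm μ fun y => Real.exp (ι x y)) u lam →
      ∀ v : ℕ → M → ℝ, (∀ k, (D.conf fun y => Real.exp (ι x y)).IsEig
        (wm μ fun y => Real.exp (ι x y)) (lam (J k)) (v k) ∧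
        ∫ y, (v k y) ^ 2 ∂(wm μ fun y => Real.exp (ι x y)) = 1) → ∀ f : C(M, ℝ),
      liminf (fun k => ∫ y, f y * (v k y) ^ 2 ∂(wm μ fun y => Real.exp (ι x y))) atTop ≤
          (∫ y, f y ∂(wm μ fun y => Real.exp (ι x y))) /
            (wm μ fun y => Real.exp (ι x y)).real univ ∧
      (∫ y, f y ∂(wm μ fun y => Real.exp (ι x y))) /
            (wm μ fun y => Real.exp (ι x y)).real univ ≤
        limsup (fun k => ∫ y, f y * (v k y) ^ 2 ∂(wm μ fun y => Real.exp (ι x y))) atTop := by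
  obtain ⟨hf, i, a, b, hSf, hi, ha, hB, hF, hW⟩ := pack μ D hD
  haveI : CompleteSpace (HF D μ) := (Submodule.isClosed_topologicalClosure _).completeSpace_coe
  filter_upwards [generic hSf hB hF hW J hJ ι hι S hS hp] with x hx u lam hu v hv f
  set φ := ι x with hφ
  obtain ⟨e, he1, he2⟩ := tBr M μ D hD i a b hSf hi ha hB hF φ u lam hu
  have hmm : ∀ j, Ev a (b φ) j = lam j := fun j =>
    Pool.Agent.Y592.QE.mm (HF D μ) a (b φ) (hF _) e lam he2 j
  choose w hw1 hw2 using fun k => to_vec μ D hD i a b hi ha hB φ (lam (J k)) (v k) (hv k).1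
  have hww : ∀ k, b φ (w k) (w k) = 1 := fun k => by
    rw [mass_vec μ i b hB φ (w k) (v k) (hw1 k)]; exact (hv k).2
  obtain ⟨b0, hB0, hF0, hA, hexp, hk⟩ := tFm M μ (HF D μ) i a hSf
  have hbb : b0 = b := by
    funext ψ
    ext u v
    rw [hB0, hB]
  subst hbb
  obtain ⟨k, ksym, k1, k2⟩ := hk f
  have hkap : ∀ n, |kap μ i f φ (w n)| ≤ ‖f‖ := by
    intro n
    have h3 := (k1 φ (w n)).2
    rw [(k1 _ _).1, hww, mul_one] at h3
    exact h3
  have hneg : ∀ ψ v, kap μ i (-f) ψ v = -kap μ i f ψ v := by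
    intro ψ v
    unfold kap
    rw [← integral_neg]
    refine integral_congr_ae (Eventually.of_forall fun x => ?_)
    simp only [ContinuousMap.neg_apply]
    ring
  have hnega : ∀ ψ, avg μ (-f) ψ = -avg μ f ψ := by
    intro ψ
    unfold avg
    rw [← neg_div, ← integral_neg]
    congr 1
    refine integral_congr_ae (Eventually.of_forall fun x => ?_)
    simp only [ContinuousMap.neg_apply]
    ring
  have hb : IsBoundedUnder (· ≥ ·) atTop fun n => kap μ i f φ (w n) :=
    isBoundedUnder_of_eventually_ge (a := -‖f‖) (Eventually.of_forall fun n =>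
      (abs_le.1 (hkap n)).1)
  have hb' : IsBoundedUnder (· ≤ ·) atTop fun n => kap μ i f φ (w n) :=
    isBoundedUnder_of_eventually_le (a := ‖f‖) (Eventually.of_forall fun n =>
      (abs_le.1 (hkap n)).2)
  simp only [← kap_eq μ i f φ (w _) (v _) (hw1 _), ← avg_eq]
  constructor
  · refine le_of_forall_pos_le_add fun ε hε => ?_
    refine liminf_le_of_frequently_le ?_ hb
    rw [frequently_atTop]
    intro K
    obtain ⟨n, hn, θ, hθ, hm⟩ := hx f ε hε K
    refine ⟨n, hn, ?_⟩
    have := hm (w n) (fun y => by rw [hmm]; exact hw2 n y) (hww n)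
    linarith
  · refine le_of_forall_pos_le_add fun ε hε => ?_
    have h1 : avg μ f φ - ε ≤ limsup (fun n => kap μ i f φ (w n)) atTop := by
      refine le_limsup_of_frequently_le ?_ hb'
      rw [frequently_atTop]
      intro K
      obtain ⟨n, hn, θ, hθ, hm⟩ := hx (-f) ε hε K
      refine ⟨n, hn, ?_⟩
      have := hm (w n) (fun y => by rw [hmm]; exact hw2 n y) (hww n)
      rw [hneg, hnega] at this
      linarith
    linarith

end Pool.Agent.X103.QF
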