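import Mathlib

/-!
# Hessian nilpotent and self-inverting formal power series (helper103)

Definitions for the problems MP_0f7e3c_al and MP_e6e7b2_al.
-/

set_option autoImplicit false

namespace Pool.Agent.X103.SelfInv

open MvPowerSeries

/-- Formal power series in `n` variables over `ℂ`. -/
abbrev PS (n : ℕ) : Type := MvPowerSeries (Fin n) ℂ

/-- The Hessian matrix. -/
noncomputable def Hes {n : ℕ} (P : PS n) : Matrix (Fin n) (Fin n) (PS n) :=
  Matrix.of fun i j => pderiv ℂ i (pderiv ℂ j P)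

/-- `P` is Hessian nilpotent. -/
def HN {n : ℕ} (P : PS n) : Prop := IsNilpotent (Hes P)

/-- `o(P) ≥ 2` and `(Hes P)(0)` is nilpotent. -/
def Admissible {n : ℕ} (P : PS n) : Prop :=
  2 ≤ P.order ∧ IsNilpotent ((Hes P).map (constantCoeff (σ := Fin n) (R := ℂ)))

/-- `Q` is the inversion pair of `P`: `o(Q) ≥ 2` and the map `G(z) = z + ∇Q(z)` is the
(two-sided) formal inverse of `F(z) = z - ∇P(z)`.  The first family of equations is `F ∘ G = id`
and the second one is `G ∘ F = id`. -/
def IsInversionPair {n : ℕ} (P Q : PS n) : Prop :=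
  2 ≤ Q.order ∧
  (∀ j, subst (fun i => X i + pderiv ℂ i Q) (X j - pderiv ℂ j P) = (X j : PS n)) ∧
  (∀ j, subst (fun i => X i - pderiv ℂ i P) (X j + pderiv ℂ j Q) = (X j : PS n))

/-- `P` is self-inverting: it is admissible and it is its own inversion pair. -/
def SelfInverting {n : ℕ} (P : PS n) : Prop := Admissible P ∧ IsInversionPair P P

/-- The linear form `h_α(z) = ⟨α, z⟩` (bilinear, not Hermitian). -/
noncomputable def lin {n : ℕ} (α : Fin n → ℂ) : PS n := ∑ i, α i • X i

/-- Pairwise orthogonal (and isotropic) family of vectors. -/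
def PairwiseOrthogonal {n : ℕ} (Ξ : Set (Fin n → ℂ)) : Prop :=
  ∀ α ∈ Ξ, ∀ β ∈ Ξ, α ⬝ᵥ β = 0

/-- `𝒜_Ξ`: the completion (closure for the order of vanishing at `0`) of the subalgebra of
`ℂ[[z]]` generated by the linear forms `h_α`, `α ∈ Ξ`. -/
def AXi {n : ℕ} (Ξ : Set (Fin n → ℂ)) : Set (PS n) :=
  {f | ∀ N : ℕ, ∃ q ∈ Algebra.adjoin ℂ (lin '' Ξ), (N : ℕ∞) ≤ (f - q).order}

variable {n : ℕ}

/-- A power series all of whose gradient components are invariant under `z ↦ z ± ∇P(z)` is its
own inversion pair. -/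
theorem isInversionPair_of_invariant {P : PS n} (hord : 2 ≤ P.order)
    (h : ∀ c : ℂ, ∀ j, subst (fun i => X i + c • pderiv ℂ i P) (pderiv ℂ j P) = pderiv ℂ j P) :
    IsInversionPair P P := by
  have h0 : ∀ i, constantCoeff (pderiv ℂ i P) = 0 := by
    intro i
    rw [← coeff_zero_eq_constantCoeff_apply, coeff_pderiv]
    have : coeff (0 + Finsupp.single i 1) P = 0 := by
      apply coeff_of_lt_order
      refine lt_of_lt_of_le ?_ hord
      simp
    rw [this, zero_mul]
  have hs : ∀ c : ℂ, HasSubst (fun i => (X i : PS n) + c • pderiv ℂ i P) := by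
    intro c
    apply hasSubst_of_constantCoeff_zero
    intro i
    rw [map_add, constantCoeff_X, zero_add, smul_eq_C_mul, map_mul, h0 i, mul_zero]
  have e1 : (fun i => (X i : PS n) + pderiv ℂ i P) = fun i => X i + (1:ℂ) • pderiv ℂ i P := by
    funext i; rw [one_smul]
  have e2 : (fun i => (X i : PS n) - pderiv ℂ i P) = fun i => X i + (-1:ℂ) • pderiv ℂ i P := by
    funext i; rw [neg_one_smul, sub_eq_add_neg]
  refine ⟨hord, fun j => ?_, fun j => ?_⟩
  · rw [e1, subst_sub (hs 1), subst_X (hs 1), h 1 j, one_smul]; ring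
  · rw [e2, subst_add (hs (-1)), subst_X (hs (-1)), h (-1) j, neg_one_smul]; ring

/-- A rank-two type symmetric matrix built from an isotropic vector is nilpotent. -/
theorem nilpotent_of_form {R : Type*} [CommRing R] (H : Matrix (Fin n) (Fin n) R)
    (p : R) (v w : Fin n → R) (hH : ∀ i j, H i j = p * v i * v j + v i * w j + w i * v j)
    (hvv : v ⬝ᵥ v = 0) (hvw : v ⬝ᵥ w = 0) : H ^ 3 = 0 := by
  have hwv : w ⬝ᵥ v = 0 := by rw [dotProduct_comm]; exact hvw
  have h1 : ∀ i k, (H * H) i k = (w ⬝ᵥ w) * v i * v k := by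
    intro i k
    rw [Matrix.mul_apply]
    have : ∀ j, H i j * H j k = (p * v i + w i) * (p * v k + w k) * (v j * v j)
        + (v i * (p * v k + w k) + (p * v i + w i) * v k) * (v j * w j)
        + v i * v k * (w j * w j) := by
      intro j; rw [hH, hH]; ring
    simp only [this, Finset.sum_add_distrib, ← Finset.mul_sum]
    have a1 : ∑ j, v j * v j = 0 := hvv
    have a2 : ∑ j, v j * w j = 0 := hvw
    have a3 : ∑ j, w j * w j = w ⬝ᵥ w := rfl
    rw [a1, a2, a3]; ring
  ext i k
  rw [pow_succ, pow_two, Matrix.mul_apply]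
  have : ∀ j, (H * H) i j * H j k = ((w ⬝ᵥ w) * v i * (p * v k + w k)) * (v j * v j)
      + ((w ⬝ᵥ w) * v i * v k) * (v j * w j) := by
    intro j; rw [h1, hH]; ring
  simp only [this, Finset.sum_add_distrib, ← Finset.mul_sum]
  have a1 : ∑ j, v j * v j = 0 := hvv
  have a2 : ∑ j, v j * w j = 0 := hvw
  rw [a1, a2]; simp

/-- Directional derivative. -/
noncomputable def D (β : Fin n → ℂ) (f : PS n) : PS n := ∑ i, β i • pderiv ℂ i f

theorem D_add (β : Fin n → ℂ) (f g : PS n) : D β (f + g) = D β f + D β g := by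
  simp [D, Finset.sum_add_distrib]

theorem D_sub (β : Fin n → ℂ) (f g : PS n) : D β (f - g) = D β f - D β g := by
  simp [D, Finset.sum_sub_distrib, smul_sub]

theorem D_mul (β : Fin n → ℂ) (f g : PS n) : D β (f * g) = f * D β g + g * D β f := by
  simp only [D, Derivation.leibniz, smul_eq_mul, smul_add, Finset.sum_add_distrib, Finset.mul_sum,
    mul_smul_comm]

theorem D_algebraMap (β : Fin n → ℂ) (r : ℂ) : D β (algebraMap ℂ (PS n) r) = 0 := by
  simp [D]

theorem D_lin (β α : Fin n → ℂ) : D β (lin α) = C (β ⬝ᵥ α) := by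
  classical
  rw [D, lin, dotProduct, map_sum]
  refine Finset.sum_congr rfl fun i _ => ?_
  rw [map_sum, Finset.sum_eq_single i]
  · rw [Derivation.map_smul, pderiv_X_self, smul_smul, smul_eq_C_mul, mul_one]
  · intro j _ hj
    rw [Derivation.map_smul, pderiv_X_of_ne hj, smul_zero]
  · intro h; exact absurd (Finset.mem_univ i) h

/-- Elements of the generated subalgebra are killed by derivations orthogonal to `Ξ`. -/
theorem D_adjoin {Ξ : Set (Fin n → ℂ)} {β : Fin n → ℂ} (hβ : ∀ α ∈ Ξ, β ⬝ᵥ α = 0)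
    {q : PS n} (hq : q ∈ Algebra.adjoin ℂ (lin '' Ξ)) : D β q = 0 := by
  induction hq using Algebra.adjoin_induction with
  | mem x hx =>
    obtain ⟨α, hα, rfl⟩ := hx
    rw [D_lin, hβ α hα, map_zero]
  | algebraMap r => exact D_algebraMap β r
  | add x y _ _ hx hy => rw [D_add, hx, hy, add_zero]
  | mul x y _ _ hx hy => rw [D_mul, hx, hy]; simp

/-- The same for the completion `𝒜_Ξ`. -/
theorem D_AXi {Ξ : Set (Fin n → ℂ)} {β : Fin n → ℂ} (hβ : ∀ α ∈ Ξ, β ⬝ᵥ α = 0)
    {f : PS n} (hf : f ∈ AXi Ξ) : D β f = 0 := by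
  ext m
  obtain ⟨q, hq, hord⟩ := hf (m.degree + 2)
  have h1 : D β f = D β (f - q) := by rw [D_sub, D_adjoin hβ hq, sub_zero]
  rw [h1, D, map_sum, map_zero]
  refine Finset.sum_eq_zero fun i _ => ?_
  rw [smul_eq_C_mul, coeff_C_mul, coeff_pderiv]
  have : coeff (m + Finsupp.single i 1) (f - q) = 0 := by
    apply coeff_of_lt_order
    refine lt_of_lt_of_le ?_ hord
    rw [map_add, Finsupp.degree_single]
    exact_mod_cast Nat.lt_succ_self _
  rw [this]; simp

end Pool.Agent.X103.SelfInv
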