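import Pool.Agent.X103.SelfInv

/-! # Self-inverting polynomials are Hessian nilpotent (helper103) -/

set_option autoImplicit false

namespace Pool.Agent.X103.SelfInv

open MvPolynomial

variable {n : ℕ}

/-- Polynomials in `n` variables. -/
abbrev Pol (n : ℕ) : Type := MvPolynomial (Fin n) ℂ

/-- The substitution `z ↦ z + c ∇P(z)`. -/
noncomputable def Φ (P : Pol n) (c : ℂ) : Pol n →ₐ[ℂ] Pol n :=
  bind₁ (fun i => X i + C c * pderiv i P)

lemma Φ_X (P : Pol n) (c : ℂ) (i : Fin n) : Φ P c (X i) = X i + C c * pderiv i P := by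
  simp [Φ]

/-- The chain rule for polynomial substitutions. -/
lemma chain (Ψ : Pol n →ₐ[ℂ] Pol n) (j : Fin n) (f : Pol n) :
    pderiv j (Ψ f) = ∑ k, Ψ (pderiv k f) * pderiv j (Ψ (X k)) := by
  induction f using MvPolynomial.induction_on with
  | C a =>
    have : Ψ (C a) = C a := Ψ.commutes a
    rw [this]; simp
  | add p q hp hq => simp only [map_add, hp, hq, add_mul, Finset.sum_add_distrib]
  | mul_X p i hp =>
    have h1 : ∀ k, Ψ (pderiv k (p * X i)) * pderiv j (Ψ (X k)) =
        Ψ (X i) * (Ψ (pderiv k p) * pderiv j (Ψ (X k))) +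
        (if k = i then Ψ p * pderiv j (Ψ (X k)) else 0) := by
      intro k
      rw [Derivation.leibniz, pderiv_X]
      simp only [smul_eq_mul, Pi.single_apply]
      by_cases hk : k = i
      · rw [if_pos hk, if_pos hk.symm, mul_one, map_add, map_mul]; ring
      · rw [if_neg hk, if_neg (Ne.symm hk), mul_zero, zero_add, map_mul]; ring
    rw [Finset.sum_congr rfl (fun k _ => h1 k), Finset.sum_add_distrib, ← Finset.mul_sum, ← hp,
      Finset.sum_ite_eq' Finset.univ i, if_pos (Finset.mem_univ i), map_mul, Derivation.leibniz]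
    simp only [smul_eq_mul]
    ring

/-- If `∇P` is invariant under `z ↦ z + ∇P(z)` it is invariant under `z ↦ z + c ∇P(z)` for all
natural numbers `c`. -/
lemma Φ_nat {P : Pol n} (h : ∀ j, Φ P 1 (pderiv j P) = pderiv j P) (k : ℕ) (j : Fin n) :
    Φ P k (pderiv j P) = pderiv j P := by
  induction k generalizing j with
  | zero =>
    have : Φ P ((0:ℕ):ℂ) = AlgHom.id ℂ _ := by
      apply algHom_ext
      intro i
      rw [Φ_X]; simp
    rw [this]; rfl
  | succ k ih =>
    have : Φ P ((k + 1 : ℕ) : ℂ) = (Φ P k).comp (Φ P 1) := by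
      apply algHom_ext
      intro i
      rw [AlgHom.comp_apply, Φ_X, Φ_X, map_add, Φ_X, map_mul, ih i]
      have : (Φ P (k:ℂ)) (C 1) = C 1 := (Φ P (k:ℂ)).commutes 1
      rw [this]
      push_cast
      rw [C_add]; ring
    rw [this, AlgHom.comp_apply, h, ih]

/-- ... and hence for all complex `c`. -/
lemma Φ_all {P : Pol n} (h : ∀ j, Φ P 1 (pderiv j P) = pderiv j P) (c : ℂ) (j : Fin n) :
    Φ P c (pderiv j P) = pderiv j P := by
  -- the universal substitution
  let U : Pol n →ₐ[ℂ] Polynomial (Pol n) :=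
    aeval (fun i => Polynomial.C (X i) + Polynomial.X * Polynomial.C (pderiv i P))
  have hU : ∀ c : ℂ, ∀ f, (U f).eval (C c) = Φ P c f := by
    intro c f
    have : ((Polynomial.aeval (C c : Pol n)).restrictScalars ℂ).comp U = Φ P c := by
      apply algHom_ext
      intro i
      rw [AlgHom.comp_apply, Φ_X]
      simp [U]
      ring
    have h2 := DFunLike.congr_fun this f
    rw [AlgHom.comp_apply] at h2
    simpa using h2
  have h0 : U (pderiv j P) - Polynomial.C (pderiv j P) = 0 := by
    apply Polynomial.eq_zero_of_infinite_isRoot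
    refine Set.Infinite.mono ?_ (Set.infinite_range_of_injective
      (f := fun k : ℕ => (C (k : ℂ) : Pol n)) ?_)
    · rintro _ ⟨k, rfl⟩
      show Polynomial.IsRoot _ _
      rw [Polynomial.IsRoot.def, Polynomial.eval_sub, hU, Polynomial.eval_C, Φ_nat h, sub_self]
    · intro a b hab
      exact_mod_cast C_injective _ _ hab
  rw [← hU, sub_eq_zero.1 h0, Polynomial.eval_C]

/-- The Hessian of a polynomial. -/
noncomputable def HesPol (P : Pol n) : Matrix (Fin n) (Fin n) (Pol n) :=
  Matrix.of fun i j => pderiv i (pderiv j P)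

lemma pderiv_comm' (P : Pol n) (i j : Fin n) : pderiv i (pderiv j P) = pderiv j (pderiv i P) := by
  have h : (⁅(pderiv i : Derivation ℂ (Pol n) (Pol n)),
      (pderiv j : Derivation ℂ (Pol n) (Pol n))⁆) = 0 := by
    refine MvPolynomial.derivation_ext fun k => ?_
    rw [Derivation.commutator_apply]
    have e : ∀ a b : Fin n, (pderiv a : Derivation ℂ _ _) ((pderiv b : Derivation ℂ _ _)
        (X k : Pol n)) = 0 := by
      intro a b
      rw [pderiv_X, Pi.single_apply]
      split_ifs <;> simp
    rw [e, e]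
    simp
  have h2 := congrArg (fun D : Derivation ℂ (Pol n) (Pol n) => D P) h
  simp only [Derivation.commutator_apply, Derivation.coe_zero, Pi.zero_apply] at h2
  exact sub_eq_zero.1 h2

lemma d_lin (P : Pol n) (c : ℂ) (i k : Fin n) :
    pderiv k (X i + C c * pderiv i P) = (if i = k then 1 else 0) + C c * pderiv k (pderiv i P) := by
  rw [map_add, pderiv_X, Derivation.leibniz, pderiv_C, smul_zero, add_zero, smul_eq_mul,
    Pi.single_apply]

/-- The determinants `det (1 + c Hes P)` are units. -/
lemma isUnit_det {P : Pol n} (h : ∀ j, Φ P 1 (pderiv j P) = pderiv j P) (c : ℂ) :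
    IsUnit (1 + (C c : Pol n) • HesPol P).det := by
  have hcomp : ∀ i, Φ P c (Φ P (-c) (X i)) = X i := by
    intro i
    rw [Φ_X, map_add, Φ_X, map_mul, Φ_all h]
    have : (Φ P c) (C (-c)) = C (-c) := (Φ P c).commutes (-c)
    rw [this, C_neg]; ring
  have hmat : ((Φ P c).toRingHom.mapMatrix (1 + (C (-c) : Pol n) • HesPol P)) *
      (1 + (C c : Pol n) • HesPol P) = 1 := by
    refine Matrix.ext fun i j => ?_
    rw [Matrix.mul_apply]
    have h1 := chain (Φ P c) j (Φ P (-c) (X i))
    rw [hcomp, pderiv_X] at h1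
    have h2 : (1 : Matrix (Fin n) (Fin n) (Pol n)) i j = Pi.single (M := fun _ => Pol n) j 1 i := by
      rw [Matrix.one_apply, Pi.single_apply]
    rw [h2, h1]
    refine Finset.sum_congr rfl fun k _ => ?_
    have e1 : (Φ P c).toRingHom.mapMatrix (1 + (C (-c) : Pol n) • HesPol P) i k =
        Φ P c (pderiv k (Φ P (-c) (X i))) := by
      rw [Φ_X, d_lin, RingHom.mapMatrix_apply, Matrix.map_apply, Matrix.add_apply,
        Matrix.smul_apply, Matrix.one_apply, pderiv_comm']
      rfl
    have e2 : (1 + (C c : Pol n) • HesPol P) k j = pderiv j (Φ P c (X k)) := by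
      rw [Φ_X, d_lin, Matrix.add_apply, Matrix.smul_apply, Matrix.one_apply, pderiv_comm']
      rfl
    rw [e1, e2]
  have := congrArg Matrix.det hmat
  rw [Matrix.det_mul, Matrix.det_one] at this
  exact IsUnit.of_mul_eq_one _ (by rw [mul_comm]; exact this)

/-- A polynomial whose gradient is invariant under `z ↦ z + ∇P(z)` and with `(Hes P)(0)`
nilpotent has a nilpotent Hessian. -/
theorem hesPol_nilpotent {P : Pol n} (h : ∀ j, Φ P 1 (pderiv j P) = pderiv j P)
    (h0 : IsNilpotent ((HesPol P).map (constantCoeff (σ := Fin n) (R := ℂ)))) :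
    IsNilpotent (HesPol P) := by
  set M := HesPol P with hM
  set M0 := M.map (constantCoeff (σ := Fin n) (R := ℂ)) with hM0
  -- evaluation of charpolyRev
  have hev : ∀ {R : Type} [CommRing R] (A : Matrix (Fin n) (Fin n) R) (c : R),
      (A.charpolyRev).eval c = (1 - c • A).det := by
    intro R _ A c
    rw [Matrix.charpolyRev, ← Polynomial.coe_evalRingHom, RingHom.map_det]
    congr 1
    ext i j
    simp [Matrix.one_apply, apply_ite]
    ring
  have h00 : M0.charpolyRev = 1 := by
    have h1 := Matrix.isUnit_charpolyRev_of_isNilpotent h0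
    rw [Polynomial.isUnit_iff] at h1
    obtain ⟨r, -, hr⟩ := h1
    have h2 := Matrix.eval_charpolyRev (M := M0)
    rw [← hr, Polynomial.eval_C] at h2
    rw [← hr, h2, Polynomial.C_1]
  have hdet : ∀ c : ℂ, (1 - (C c : Pol n) • M).det = 1 := by
    intro c
    have hu : IsUnit (1 - (C c : Pol n) • M).det := by
      have := isUnit_det h (-c)
      rwa [C_neg, neg_smul, ← sub_eq_add_neg] at this
    rw [MvPolynomial.isUnit_iff] at hu
    have hc : (1 - (C c : Pol n) • M).det = C (constantCoeff (1 - (C c : Pol n) • M).det) := by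
      ext m
      rw [coeff_C]
      split_ifs with hm
      · rw [← hm]; rfl
      · exact (hu.2 m (Ne.symm hm)).eq_zero
    rw [hc]
    have : constantCoeff (1 - (C c : Pol n) • M).det = (1 - c • M0).det := by
      rw [RingHom.map_det]
      congr 1
      refine Matrix.ext fun i j => ?_
      rw [RingHom.mapMatrix_apply, Matrix.map_apply, Matrix.sub_apply, Matrix.sub_apply,
        Matrix.smul_apply, Matrix.smul_apply, map_sub, smul_eq_mul, smul_eq_mul, map_mul,
        constantCoeff_C, hM0, Matrix.map_apply, Matrix.one_apply, Matrix.one_apply]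
      split_ifs <;> simp
    rw [this, ← hev, h00, Polynomial.eval_one, C_1]
  have hrev : M.charpolyRev = 1 := by
    rw [← sub_eq_zero]
    apply Polynomial.eq_zero_of_infinite_isRoot
    refine Set.Infinite.mono ?_ (Set.infinite_range_of_injective
      (f := fun k : ℂ => (C k : Pol n)) (C_injective _ _))
    rintro _ ⟨k, rfl⟩
    show Polynomial.IsRoot _ _
    rw [Polynomial.IsRoot.def, Polynomial.eval_sub, hev, hdet, Polynomial.eval_one, sub_self]
  have hcp : M.charpoly = Polynomial.X ^ M.charpoly.natDegree := by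
    have h1 : M.charpoly.reverse = 1 := by rw [Matrix.reverse_charpoly, hrev]
    have h2 := congrArg (Polynomial.reflect M.charpoly.natDegree) h1
    rw [Polynomial.reverse, Polynomial.reflect_reflect, Polynomial.reflect_one] at h2
    exact h2
  refine ⟨M.charpoly.natDegree, ?_⟩
  have := Matrix.aeval_self_charpoly M
  rw [hcp] at this
  simpa using this

lemma Hes_coe (P : Pol n) : Hes (P : PS n) = (HesPol P).map
    (MvPolynomial.coeToMvPowerSeries.ringHom (σ := Fin n) (R := ℂ)) := by
  refine Matrix.ext fun i j => ?_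
  show MvPowerSeries.pderiv ℂ i (MvPowerSeries.pderiv ℂ j (P : PS n)) = _
  rw [MvPowerSeries.pderiv_coe, MvPowerSeries.pderiv_coe]
  rfl

/-- Every self-inverting polynomial is Hessian nilpotent. -/
theorem polynomial_HN {P : Pol n} (h : SelfInverting (P : PS n)) : HN (P : PS n) := by
  obtain ⟨⟨hord, hnil⟩, -, h1, -⟩ := h
  have h0 : ∀ i, MvPowerSeries.constantCoeff (MvPowerSeries.pderiv ℂ i (P : PS n)) = 0 := by
    intro i
    rw [← MvPowerSeries.coeff_zero_eq_constantCoeff_apply, MvPowerSeries.coeff_pderiv]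
    have : MvPowerSeries.coeff (0 + Finsupp.single i 1) (P : PS n) = 0 := by
      apply MvPowerSeries.coeff_of_lt_order
      refine lt_of_lt_of_le ?_ hord
      simp
    rw [this, zero_mul]
  have hs : MvPowerSeries.HasSubst
      (fun i => (MvPowerSeries.X i : PS n) + MvPowerSeries.pderiv ℂ i (P : PS n)) := by
    apply MvPowerSeries.hasSubst_of_constantCoeff_zero
    intro i
    rw [map_add, MvPowerSeries.constantCoeff_X, zero_add, h0 i]
  have hinv : ∀ j, Φ P 1 (pderiv j P) = pderiv j P := by
    intro j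
    have h2 := h1 j
    rw [MvPowerSeries.subst_sub hs, MvPowerSeries.subst_X hs] at h2
    have h3 : MvPowerSeries.subst
        (fun i => (MvPowerSeries.X i : PS n) + MvPowerSeries.pderiv ℂ i (P : PS n))
        (MvPowerSeries.pderiv ℂ j (P : PS n)) = MvPowerSeries.pderiv ℂ j (P : PS n) := by
      linear_combination -h2
    rw [MvPowerSeries.pderiv_coe, MvPowerSeries.subst_coe] at h3
    have h4 : aeval (fun i => (MvPowerSeries.X i : PS n) + MvPowerSeries.pderiv ℂ i (P : PS n))
        (pderiv j P) = ((Φ P 1 (pderiv j P) : Pol n) : PS n) := by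
      have : (aeval (fun i => (MvPowerSeries.X i : PS n) +
          MvPowerSeries.pderiv ℂ i (P : PS n)) : Pol n →ₐ[ℂ] PS n) =
          (MvPolynomial.coeToMvPowerSeries.algHom ℂ).comp (Φ P 1) := by
        apply algHom_ext
        intro i
        rw [AlgHom.comp_apply, Φ_X, aeval_X, MvPowerSeries.pderiv_coe]
        simp
      rw [this, AlgHom.comp_apply]
      simp
    rw [h4] at h3
    exact MvPolynomial.coe_injective _ _ h3
  have hnil0 : IsNilpotent ((HesPol P).map (constantCoeff (σ := Fin n) (R := ℂ))) := by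
    have e : (Hes (P : PS n)).map (MvPowerSeries.constantCoeff (σ := Fin n) (R := ℂ)) =
        (HesPol P).map (constantCoeff (σ := Fin n) (R := ℂ)) := by
      rw [Hes_coe]
      refine Matrix.ext fun i j => ?_
      rfl
    rwa [e] at hnil
  obtain ⟨k, hk⟩ := hesPol_nilpotent hinv hnil0
  refine ⟨k, ?_⟩
  rw [Hes_coe, ← RingHom.mapMatrix_apply, ← map_pow, hk, map_zero]

end Pool.Agent.X103.SelfInv
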