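import Mathlib

/-!
# Weyl–Heisenberg covariant fiducial vectors and Clifford symmetries of even order (helper103)
-/

set_option autoImplicit false

open Matrix Complex Finset

namespace Pool.Agent.X103.Sic

variable {d : ℕ} [NeZero d]

/-- The standard character of `ZMod d`. -/
noncomputable abbrev ch : AddChar (ZMod d) ℂ := ZMod.stdAddChar

/-- Displacement matrices. -/
noncomputable def T (a b : ZMod d) : Matrix (ZMod d) (ZMod d) ℂ :=
  fun i j => if i = j + a then ch (b * j) else 0

lemma ch_ne (x : ZMod d) : ch x ≠ 0 := by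
  intro h
  have h1 : ch (x + -x) = (1 : ℂ) := by rw [add_neg_cancel, AddChar.map_zero_eq_one]
  rw [AddChar.map_add_eq_mul, h, zero_mul] at h1
  exact zero_ne_one h1

lemma ch_inj {x y : ZMod d} (h : ch x = ch y) : x = y := ZMod.injective_stdAddChar h

lemma ch_star (x : ZMod d) : star (ch x) = ch (-x) := (AddChar.map_neg_eq_conj _ _).symm

lemma T_mul (a b a' b' : ZMod d) :
    T a b * T a' b' = ch (b * a') • T (a + a') (b + b') := by
  ext i k
  rw [Matrix.mul_apply, Finset.sum_eq_single (k + a')]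
  · simp only [T, Matrix.smul_apply, smul_eq_mul, if_true]
    by_cases h : i = k + a' + a
    · rw [if_pos h, if_pos (by rw [h]; ring), ← AddChar.map_add_eq_mul, ← AddChar.map_add_eq_mul]
      congr 1
      ring
    · rw [if_neg h, if_neg (fun h' => h (by rw [h']; ring)), zero_mul, mul_zero]
  · intro j _ hj
    simp only [T]
    rw [if_neg hj, mul_zero]
  · intro h
    exact absurd (Finset.mem_univ _) h

lemma T_zero : T (0 : ZMod d) 0 = 1 := by
  ext i j
  simp only [T, add_zero, zero_mul, AddChar.map_zero_eq_one, Matrix.one_apply]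

lemma T_eq {a b a' b' : ZMod d} {c c' : ℂ} (hc : c ≠ 0) (h : c • T a b = c' • T a' b') :
    a = a' ∧ b = b' := by
  have h1 : ∀ i j, c * T a b i j = c' * T a' b' i j := fun i j => by
    have := congrFun (congrFun h i) j
    simpa only [Matrix.smul_apply, smul_eq_mul] using this
  have ha : a = a' := by
    by_contra hne
    have h2 := h1 a 0
    simp only [T, zero_add, if_true, mul_zero, AddChar.map_zero_eq_one, mul_one] at h2
    rw [if_neg hne, mul_zero] at h2
    exact hc h2
  subst ha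
  refine ⟨rfl, ?_⟩
  have h2 := h1 a 0
  have h3 := h1 (1 + a) 1
  simp only [T, zero_add, if_true, mul_zero, AddChar.map_zero_eq_one, mul_one] at h2 h3
  rw [← h2] at h3
  exact ch_inj (mul_left_cancel₀ hc h3)

/-- `V` transports the displacement `p` to the displacement `q`, up to a scalar. -/
def Cl (V : Matrix (ZMod d) (ZMod d) ℂ) (p q : ZMod d × ZMod d) : Prop :=
  ∃ c : ℂ, c ≠ 0 ∧ V * T p.1 p.2 = c • (T q.1 q.2 * V)

lemma Cl_zero (V : Matrix (ZMod d) (ZMod d) ℂ) : Cl V 0 0 :=
  ⟨1, one_ne_zero, by simp [T_zero]⟩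

lemma Cl_add {V : Matrix (ZMod d) (ZMod d) ℂ} {p q p' q' : ZMod d × ZMod d}
    (h : Cl V p q) (h' : Cl V p' q') : Cl V (p + p') (q + q') := by
  obtain ⟨c, hc, h⟩ := h
  obtain ⟨c', hc', h'⟩ := h'
  have e1 : V * (T p.1 p.2 * T p'.1 p'.2) = (c * c') • (T q.1 q.2 * T q'.1 q'.2 * V) := by
    rw [← Matrix.mul_assoc, h, Matrix.smul_mul, Matrix.mul_assoc, h', Matrix.mul_smul, smul_smul,
      Matrix.mul_assoc]
  rw [T_mul, T_mul, Matrix.mul_smul, Matrix.smul_mul, smul_smul] at e1
  refine ⟨(ch (p.2 * p'.1))⁻¹ * (c * c' * ch (q.2 * q'.1)), ?_, ?_⟩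
  · have := ch_ne (p.2 * p'.1)
    have := ch_ne (q.2 * q'.1)
    positivity
  · change V * T (p.1 + p'.1) (p.2 + p'.2) = _ • (T (q.1 + q'.1) (q.2 + q'.2) * V)
    rw [← smul_smul, ← e1, smul_smul, inv_mul_cancel₀ (ch_ne _), one_smul]

lemma Cl_nsmul {V : Matrix (ZMod d) (ZMod d) ℂ} {p q : ZMod d × ZMod d} (h : Cl V p q) (n : ℕ) :
    Cl V (n • p) (n • q) := by
  induction n with
  | zero => rw [zero_smul, zero_smul]; exact Cl_zero V
  | succ n ih => rw [succ_nsmul, succ_nsmul]; exact Cl_add ih h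

lemma Cl_gen {V : Matrix (ZMod d) (ZMod d) ℂ} {q r : ZMod d × ZMod d} (h : Cl V (1, 0) q)
    (h' : Cl V (0, 1) r) (a b : ZMod d) :
    Cl V (a, b) (a * q.1 + b * r.1, a * q.2 + b * r.2) := by
  have h1 := Cl_add (Cl_nsmul h a.val) (Cl_nsmul h' b.val)
  have e1 : a.val • ((1 : ZMod d), (0 : ZMod d)) + b.val • ((0 : ZMod d), (1 : ZMod d)) = (a, b) := by
    ext <;> simp
  have e2 : a.val • q + b.val • r = (a * q.1 + b * r.1, a * q.2 + b * r.2) := by
    ext <;> simp
  rwa [e1, e2] at h1

lemma Cl_unique {V : Matrix (ZMod d) (ZMod d) ℂ} {s : ℂ} (hs : s ≠ 0)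
    (hVV : V * V = s • (1 : Matrix (ZMod d) (ZMod d) ℂ)) {p q r : ZMod d × ZMod d}
    (h : Cl V p q) (h' : Cl V q r) : p = r := by
  obtain ⟨c, hc, h⟩ := h
  obtain ⟨c', hc', h'⟩ := h'
  have e1 : V * V * T p.1 p.2 = (c * c') • (T r.1 r.2 * (V * V)) := by
    rw [Matrix.mul_assoc, h, Matrix.mul_smul, ← Matrix.mul_assoc, h', Matrix.smul_mul, smul_smul,
      Matrix.mul_assoc]
  rw [hVV, Matrix.smul_mul, Matrix.one_mul, Matrix.mul_smul, Matrix.mul_one, smul_smul] at e1
  obtain ⟨h1, h2⟩ := T_eq hs e1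
  exact Prod.ext h1 h2

lemma entries_left (V : Matrix (ZMod d) (ZMod d) ℂ) (i j : ZMod d) :
    (V * T (1 : ZMod d) 0) i j = V i (j + 1) := by
  rw [Matrix.mul_apply, Finset.sum_eq_single (j + 1)]
  · simp [T]
  · intro k _ hk
    simp only [T]
    rw [if_neg hk, mul_zero]
  · intro h
    exact absurd (Finset.mem_univ _) h

lemma entries_right (V : Matrix (ZMod d) (ZMod d) ℂ) (e i j : ZMod d) :
    (T e 0 * V) i j = V (i - e) j := by
  rw [Matrix.mul_apply, Finset.sum_eq_single (i - e)]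
  · simp [T]
  · intro k _ hk
    simp only [T]
    rw [if_neg (fun h => hk (by rw [h]; ring)), zero_mul]
  · intro h
    exact absurd (Finset.mem_univ _) h

lemma entries_left' (V : Matrix (ZMod d) (ZMod d) ℂ) (i j : ZMod d) :
    (V * T (0 : ZMod d) 1) i j = V i j * ch j := by
  rw [Matrix.mul_apply, Finset.sum_eq_single j]
  · simp [T]
  · intro k _ hk
    simp only [T]
    rw [if_neg (by rwa [add_zero]), mul_zero]
  · intro h
    exact absurd (Finset.mem_univ _) h

lemma entries_right' (V : Matrix (ZMod d) (ZMod d) ℂ) (e i j : ZMod d) :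
    (T 0 e * V) i j = ch (e * i) * V i j := by
  rw [Matrix.mul_apply, Finset.sum_eq_single i]
  · simp [T]
  · intro k _ hk
    simp only [T]
    rw [if_neg (fun h => hk (by rw [h, add_zero])), zero_mul]
  · intro h
    exact absurd (Finset.mem_univ _) h

omit [NeZero d] in
lemma exists_half (hd : Odd d) : ∃ η : ZMod d, 2 * η = 1 := by
  obtain ⟨r, hr⟩ := hd
  refine ⟨((r + 1 : ℕ) : ZMod d), ?_⟩
  have h1 : ((2 * (r + 1) : ℕ) : ZMod d) = ((d + 1 : ℕ) : ZMod d) := by
    congr 1; omega
  have h2 : ((d + 1 : ℕ) : ZMod d) = 1 := by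
    rw [Nat.cast_add, ZMod.natCast_self, Nat.cast_one, zero_add]
  rw [h2] at h1
  rw [← h1]; push_cast; ring

lemma exists_ch {c : ℂ} (hc : c ^ d = 1) : ∃ α : ZMod d, c = ch α := by
  obtain ⟨i, _, hi⟩ := (Complex.isPrimitiveRoot_exp d (NeZero.ne d)).eq_pow_of_pow_eq_one hc
  refine ⟨((i : ℕ) : ZMod d), ?_⟩
  have h1 := ZMod.stdAddChar_coe (N := d) (i : ℤ)
  rw [← hi, ← Complex.exp_nat_mul]
  rw [Int.cast_natCast] at h1
  rw [ch, h1]
  congr 1
  push_cast
  ring

/-- The shape of an involution (modulo scalars) of the Clifford group in odd dimension. -/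
lemma shape (hd : Odd d) {V : Matrix (ZMod d) (ZMod d) ℂ} (hV : IsUnit V) {s : ℂ} (hs : s ≠ 0)
    (hVV : V * V = s • (1 : Matrix (ZMod d) (ZMod d) ℂ)) (hC : ∀ p, ∃ q, Cl V p q) :
    ∃ (ε α β : ZMod d) (g : ℂ), ε * ε = 1 ∧ α * (1 + ε) = 0 ∧ β * (1 + ε) = 0 ∧ g ≠ 0 ∧
      ∀ i j, V i j = if j = ε * i + β then g * ch (α * ε * i) else 0 := by
  obtain ⟨η, hη⟩ := exists_half hd
  obtain ⟨⟨a1, b1⟩, hq⟩ := hC (1, 0)
  obtain ⟨⟨a2, b2⟩, hr⟩ := hC (0, 1)
  have m1 := Cl_unique hs hVV hq (Cl_gen hq hr a1 b1)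
  have m2 := Cl_unique hs hVV hr (Cl_gen hq hr a2 b2)
  simp only [Prod.mk.injEq] at m1 m2
  obtain ⟨m11, m12⟩ := m1
  obtain ⟨m21, m22⟩ := m2
  obtain ⟨c1, hc1, h1⟩ := hq
  obtain ⟨c2, hc2, h2⟩ := hr
  simp only at h1 h2
  -- the commutation relation
  have hcomm : b2 * a1 = 1 + b1 * a2 := by
    have e1 : V * (T (0 : ZMod d) 1 * T 1 0) = (c2 * c1) • (T a2 b2 * T a1 b1 * V) := by
      rw [← Matrix.mul_assoc, h2, Matrix.smul_mul, Matrix.mul_assoc, h1, Matrix.mul_smul,
        smul_smul, Matrix.mul_assoc]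
    have e2 : V * (T (1 : ZMod d) 0 * T 0 1) = (c1 * c2) • (T a1 b1 * T a2 b2 * V) := by
      rw [← Matrix.mul_assoc, h1, Matrix.smul_mul, Matrix.mul_assoc, h2, Matrix.mul_smul,
        smul_smul, Matrix.mul_assoc]
    rw [T_mul, T_mul, Matrix.mul_smul, Matrix.smul_mul, smul_smul] at e1 e2
    rw [mul_zero, AddChar.map_zero_eq_one, one_smul, add_zero, zero_add] at e2
    rw [mul_one, zero_add, add_zero, e2, smul_smul, add_comm a2 a1, add_comm b2 b1,
      ← Matrix.smul_mul, ← Matrix.smul_mul] at e1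
    have e3 := hV.mul_right_cancel e1
    have h00 : ∀ x : ZMod d, T (a1 + a2) (b1 + b2) (x + (a1 + a2)) x = ch ((b1 + b2) * x) :=
      fun x => by simp [T]
    have e4 := congrFun (congrFun e3 (0 + (a1 + a2))) 0
    simp only [Matrix.smul_apply, smul_eq_mul] at e4
    rw [h00, mul_zero, AddChar.map_zero_eq_one, mul_one, mul_one] at e4
    have e5 : ch (b2 * a1) = ch (1 + b1 * a2) := by
      rw [AddChar.map_add_eq_mul]
      have : c1 * c2 ≠ 0 := mul_ne_zero hc1 hc2
      apply mul_left_cancel₀ this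
      rw [mul_comm c2 c1] at e4
      rw [← e4]; ring
    exact ch_inj e5
  have hsum : a1 * (a1 + b2) = 2 := by linear_combination -m11 + hcomm
  have hb1 : b1 = 0 := by
    have : 2 * b1 = 0 := by
      rw [← hsum]
      linear_combination (-a1) * m12
    calc b1 = (2 * η) * b1 := by rw [hη, one_mul]
      _ = η * (2 * b1) := by ring
      _ = 0 := by rw [this, mul_zero]
  have ha2 : a2 = 0 := by
    have : 2 * a2 = 0 := by
      rw [← hsum]
      linear_combination (-a1) * m21
    calc a2 = (2 * η) * a2 := by rw [hη, one_mul]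
      _ = η * (2 * a2) := by ring
      _ = 0 := by rw [this, mul_zero]
  subst hb1 ha2
  have hε : a1 * a1 = 1 := by linear_combination -m11
  have hb2 : b2 = a1 := by
    have : b2 * a1 = 1 := by rw [hcomm]; ring
    calc b2 = b2 * (a1 * a1) := by rw [hε, mul_one]
      _ = b2 * a1 * a1 := by ring
      _ = a1 := by rw [this, one_mul]
  subst hb2
  -- entries
  have hV0 : V ≠ 0 := by
    rintro rfl
    rw [Matrix.mul_zero] at hVV
    have := congrFun (congrFun hVV 0) 0
    simp at this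
    exact hs this.symm
  obtain ⟨i0, j0, hij⟩ : ∃ i j, V i j ≠ 0 := by
    by_contra hcon
    push Not at hcon
    exact hV0 (by ext i j; exact hcon i j)
  have hz : ∀ i j, V i j * ch j = c2 * (ch (b2 * i) * V i j) := by
    intro i j
    have := congrFun (congrFun h2 i) j
    rwa [entries_left', Matrix.smul_apply, entries_right', smul_eq_mul] at this
  have hx : ∀ i j, V i (j + 1) = c1 * V (i - b2) j := by
    intro i j
    have := congrFun (congrFun h1 i) j
    rwa [entries_left, Matrix.smul_apply, entries_right, smul_eq_mul] at this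
  set β : ZMod d := j0 - b2 * i0 with hβ
  have hc2' : ch j0 = c2 * ch (b2 * i0) := by
    apply mul_left_cancel₀ hij
    rw [hz i0 j0]; ring
  have hsupp : ∀ i j, V i j ≠ 0 → j = b2 * i + β := by
    intro i j h
    have h3 : ch j = c2 * ch (b2 * i) := by
      apply mul_left_cancel₀ h
      rw [hz i j]; ring
    have h4 : ch (j + b2 * i0) = ch (j0 + b2 * i) := by
      rw [AddChar.map_add_eq_mul, AddChar.map_add_eq_mul, h3, hc2']; ring
    have h5 := ch_inj h4
    rw [hβ]
    linear_combination h5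
  set u : ZMod d → ℂ := fun t => V (b2 * t) (t + β) with hu
  have hu1 : ∀ t, u (t + 1) = c1 * u t := by
    intro t
    have := hx (b2 * (t + 1)) (t + β)
    simp only [hu]
    rw [show t + 1 + β = t + β + 1 by ring, this]
    congr 2
    ring
  have hun : ∀ (n : ℕ) (t : ZMod d), u (t + n) = c1 ^ n * u t := by
    intro n
    induction n with
    | zero => intro t; simp
    | succ n ih =>
      intro t
      rw [Nat.cast_succ, ← add_assoc, hu1, ih, pow_succ]; ring
  have hu0 : u 0 ≠ 0 := by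
    have h3 : u (b2 * i0) ≠ 0 := by
      simp only [hu]
      rw [← mul_assoc, hε, one_mul, hβ, add_sub_cancel]
      exact hij
    have h4 := hun (b2 * i0).val 0
    rw [ZMod.natCast_zmod_val, zero_add] at h4
    intro h5
    rw [h5, mul_zero] at h4
    exact h3 h4
  have hc1d : c1 ^ d = 1 := by
    have h3 := hun d 0
    rw [ZMod.natCast_self, add_zero] at h3
    have h4 : (c1 ^ d - 1) * u 0 = 0 := by rw [sub_mul, one_mul, ← h3, sub_self]
    rcases mul_eq_zero.1 h4 with h5 | h5
    · exact sub_eq_zero.1 h5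
    · exact absurd h5 hu0
  obtain ⟨α, hα⟩ := exists_ch hc1d
  have hut : ∀ t, u t = u 0 * ch (α * t) := by
    intro t
    have h3 := hun t.val 0
    rw [ZMod.natCast_zmod_val, zero_add] at h3
    rw [h3, hα, ← AddChar.map_nsmul_eq_pow, mul_comm]
    congr 2
    rw [nsmul_eq_mul, ZMod.natCast_zmod_val, mul_comm]
  have hform : ∀ i j, V i j = if j = b2 * i + β then u 0 * ch (α * b2 * i) else 0 := by
    intro i j
    by_cases h : j = b2 * i + β
    · rw [if_pos h, h]
      have := hut (b2 * i)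
      simp only [hu] at this
      rw [← mul_assoc, hε, one_mul] at this
      rw [this, mul_assoc α b2 i]
    · rw [if_neg h]
      by_contra hne
      exact h (hsupp i j hne)
  have hdiag : ∀ i, (V * V) i i = V i (b2 * i + β) * V (b2 * i + β) i := by
    intro i
    rw [Matrix.mul_apply, Finset.sum_eq_single (b2 * i + β)]
    · intro k _ hk
      rw [hform i k, if_neg hk, zero_mul]
    · intro h
      exact absurd (Finset.mem_univ _) h
  have hdiag2 : ∀ i, (V * V) i i = s := by
    intro i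
    rw [hVV]; simp
  have hne : ∀ i, V (b2 * i + β) i ≠ 0 := by
    intro i h
    have := hdiag i
    rw [hdiag2, h, mul_zero] at this
    exact hs this
  have hβ1 : β * (1 + b2) = 0 := by
    have := hsupp _ _ (hne 0)
    linear_combination -this
  have hα1 : α * (1 + b2) = 0 := by
    have k : ∀ i, s = u 0 * u 0 * ch (α * b2 * i + α * b2 * (b2 * i + β)) := by
      intro i
      rw [← hdiag2 i, hdiag i, hform i, if_pos rfl, hform (b2 * i + β) i,
        if_pos (hsupp _ _ (hne i)), AddChar.map_add_eq_mul]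
      ring
    have k0 := k 0
    have k1 := k 1
    rw [k0] at k1
    have k2 := ch_inj (mul_left_cancel₀ (mul_ne_zero hu0 hu0) k1)
    linear_combination -k2 - α * hε
  exact ⟨b2, α, β, u 0, hε, hα1, hβ1, hu0, hform⟩

/-- The overlap of `ψ` with its displaced vectors. -/
noncomputable def F (ψ : ZMod d → ℂ) (k l : ZMod d) : ℂ :=
  ∑ j, star (ψ (j + k)) * (ch (l * j) * ψ j)

lemma F_eq (ψ : ZMod d → ℂ) (k l : ZMod d) : star ψ ⬝ᵥ (T k l *ᵥ ψ) = F ψ k l := by
  simp only [dotProduct, mulVec, F, T, Pi.star_apply, Finset.mul_sum]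
  rw [Finset.sum_comm]
  refine Finset.sum_congr rfl fun j _ => ?_
  rw [Finset.sum_eq_single (j + k)]
  · simp
  · intro i _ hi
    rw [if_neg hi, zero_mul, mul_zero]
  · intro h
    exact absurd (Finset.mem_univ _) h

lemma F_star (ψ : ZMod d → ℂ) (k l : ZMod d) : star (F ψ k l) = ch (l * k) * F ψ (-k) (-l) := by
  simp only [F, star_sum, Finset.mul_sum]
  rw [← Equiv.sum_comp (Equiv.subRight k)]
  refine Finset.sum_congr rfl fun j _ => ?_
  simp only [Equiv.subRight_apply, sub_add_cancel, star_mul', star_star, ch_star]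
  rw [← sub_eq_add_neg]
  have : ch (-(l * (j - k))) = ch (l * k) * ch (-l * j) := by
    rw [← AddChar.map_add_eq_mul]
    congr 1
    ring
  rw [this]
  ring

lemma F_symm {ψ : ZMod d → ℂ} {ε : ZMod d} {κ : ℂ} (hε : ε * ε = 1) (hκ : star κ * κ = 1)
    (h : ∀ i, ψ (ε * i) = κ * ψ i) {k l : ZMod d} (hk : ε * k = -k) (hl : ε * l = -l) :
    F ψ (-k) (-l) = F ψ k l := by
  simp only [F]
  have hb : Function.Bijective (fun j : ZMod d => ε * j) := by
    constructor
    · intro x y hxy
      have : ε * (ε * x) = ε * (ε * y) := by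
        simp only at hxy
        rw [hxy]
      rwa [← mul_assoc, ← mul_assoc, hε, one_mul, one_mul] at this
    · intro y
      exact ⟨ε * y, by simp only; rw [← mul_assoc, hε, one_mul]⟩
  rw [← hb.sum_comp]
  refine Finset.sum_congr rfl fun j _ => ?_
  have e1 : ε * j + -k = ε * (j + k) := by rw [mul_add, hk]
  have e2 : -l * (ε * j) = l * j := by
    calc -l * (ε * j) = -(ε * l) * j := by ring
      _ = l * j := by rw [hl]; ring
  rw [e1, h, e2, h, star_mul']
  calc star κ * star (ψ (j + k)) * (ch (l * j) * (κ * ψ j))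
      = (star κ * κ) * (star (ψ (j + k)) * (ch (l * j) * ψ j)) := by ring
    _ = _ := by rw [hκ, one_mul]

/-- **The arithmetic core.**  A fiducial vector with `ψ (ε i) = κ ψ i`, `ε ^ 2 = 1`, `ε ≠ 1`,
exists in odd dimension `d` only if `d + 1` is a perfect square. -/
lemma key (hd : Odd d) {ψ : ZMod d → ℂ} (h1 : F ψ 0 0 = 1)
    (h2 : ∀ k l, (k, l) ≠ (0, 0) → ‖F ψ k l‖ ^ 2 = 1 / ((d : ℝ) + 1))
    {ε : ZMod d} {κ : ℂ} (hε : ε * ε = 1) (hε1 : ε ≠ 1) (h : ∀ i, ψ (ε * i) = κ * ψ i) :
    IsSquare (d + 1) := by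
  obtain ⟨η, hη⟩ := exists_half hd
  -- `κ = ±1`
  have hκ2 : κ * κ = 1 := by
    have hne : ∃ i, ψ i ≠ 0 := by
      by_contra hcon
      push Not at hcon
      have : F ψ 0 0 = 0 := by simp [F, hcon]
      rw [this] at h1
      exact zero_ne_one h1
    obtain ⟨i, hi⟩ := hne
    have h3 := h (ε * i)
    rw [← mul_assoc, hε, one_mul, h i, ← mul_assoc] at h3
    have h4 : (κ * κ - 1) * ψ i = 0 := by rw [sub_mul, one_mul, ← h3, sub_self]
    rcases mul_eq_zero.1 h4 with h5 | h5
    · exact sub_eq_zero.1 h5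
    · exact absurd h5 hi
  obtain ⟨r, hr, hr2⟩ : ∃ r : ℤ, κ = (r : ℂ) ∧ (r = 1 ∨ r = -1) := by
    have h3 : (κ - 1) * (κ + 1) = 0 := by linear_combination hκ2
    rcases mul_eq_zero.1 h3 with h4 | h4
    · exact ⟨1, by rw [sub_eq_zero.1 h4]; simp, Or.inl rfl⟩
    · exact ⟨-1, by rw [eq_neg_of_add_eq_zero_left h4]; simp, Or.inr rfl⟩
  have hκs : star κ = κ := by rw [hr]; simp
  have hκκ : star κ * κ = 1 := by rw [hκs, hκ2]
  -- real values
  set e : ZMod d := 1 - ε with he
  have hee : e * e = 2 * e := by rw [he]; linear_combination hε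
  have hεe : ∀ s, ε * (e * s) = -(e * s) := fun s => by
    rw [he]; linear_combination (-s) * hε
  set G : ZMod d → ZMod d → ℂ := fun s t => ch (e * s * t) * F ψ (e * s) (e * t) with hG
  have hGs : ∀ s t, star (G s t) = G s t := by
    intro s t
    simp only [hG]
    rw [star_mul', ch_star, F_star, F_symm hε hκκ h (hεe s) (hεe t), ← mul_assoc,
      ← AddChar.map_add_eq_mul]
    congr 2
    linear_combination (s * t) * hee
  set q : ℝ := √((d : ℝ) + 1) with hq
  have hq0 : 0 < q := Real.sqrt_pos.2 (by positivity)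
  have hqq : q ^ 2 = (d : ℝ) + 1 := Real.sq_sqrt (by positivity)
  have hval : ∀ s t, ∃ z : ℤ, (G s t).re =
      (if e * s = 0 then (1 : ℝ) else 0) * (if e * t = 0 then (1 : ℝ) else 0) + z * q⁻¹ := by
    intro s t
    by_cases hst : (e * s, e * t) = (0, 0)
    · simp only [Prod.mk.injEq] at hst
      refine ⟨0, ?_⟩
      simp only [hG, hst.1, hst.2, zero_mul, AddChar.map_zero_eq_one, h1]
      simp
    · have h3 : ‖G s t‖ ^ 2 = 1 / ((d : ℝ) + 1) := by
        simp only [hG]
        rw [norm_mul, AddChar.norm_apply, one_mul]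
        exact h2 _ _ hst
      have h4 : G s t = (((G s t).re : ℝ) : ℂ) := by
        have := Complex.conj_eq_iff_re.1 (hGs s t)
        exact this.symm
      have h5 : (G s t).re ^ 2 = (q⁻¹) ^ 2 := by
        rw [h4, Complex.norm_real, Real.norm_eq_abs, sq_abs] at h3
        rw [h3, inv_pow, hqq, one_div]
      have h6 : (if e * s = 0 then (1 : ℝ) else 0) * (if e * t = 0 then (1 : ℝ) else 0) = 0 := by
        by_cases ha : e * s = 0
        · have hb : e * t ≠ 0 := fun hb => hst (by rw [ha, hb])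
          rw [if_neg hb, mul_zero]
        · rw [if_neg ha, zero_mul]
      simp only [h6, zero_add]
      rcases sq_eq_sq_iff_eq_or_eq_neg.1 h5 with h7 | h7
      · exact ⟨1, by rw [h7]; simp⟩
      · exact ⟨-1, by rw [h7]; simp⟩
  choose z hz using hval
  -- the sum
  have hprim : (ZMod.stdAddChar (N := d)).IsPrimitive := ZMod.isPrimitive_stdAddChar d
  set N0 : ℝ := ∑ s : ZMod d, (if e * s = 0 then (1 : ℝ) else 0) with hN0
  have hsum : ∑ s, ∑ t, G s t = (d : ℂ) * (N0 : ℂ) * κ := by
    have e1 : ∀ s t, G s t = ∑ j, star (ψ (j + e * s)) * ψ j * ch (t * (e * (s + j))) := by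
      intro s t
      simp only [hG, F, Finset.mul_sum]
      refine Finset.sum_congr rfl fun j _ => ?_
      have : ch (e * s * t) * ch (e * t * j) = ch (t * (e * (s + j))) := by
        rw [← AddChar.map_add_eq_mul]
        congr 1
        ring
      rw [← this]
      ring
    have e2 : ∀ s, ∑ t, G s t = ∑ j, star (ψ (j + e * s)) * ψ j *
        (if e * (s + j) = 0 then (d : ℂ) else 0) := by
      intro s
      simp only [e1]
      rw [Finset.sum_comm]
      refine Finset.sum_congr rfl fun j _ => ?_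
      rw [← Finset.mul_sum]
      congr 1
      have := AddChar.sum_mulShift (ψ := ZMod.stdAddChar (N := d)) (e * (s + j)) hprim
      rw [ZMod.card] at this
      rw [this]
      simp
    have e3 : ∀ s j, star (ψ (j + e * s)) * ψ j * (if e * (s + j) = 0 then (d : ℂ) else 0)
        = (star (ψ j) * ψ j) * ((d : ℂ) * κ * (if e * (s + j) = 0 then (1 : ℂ) else 0)) := by
      intro s j
      by_cases hc : e * (s + j) = 0
      · rw [if_pos hc, if_pos hc]
        have : j + e * s = ε * j := by rw [he] at hc ⊢; linear_combination hc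
        rw [this, h, star_mul', hκs]
        ring
      · rw [if_neg hc, if_neg hc]; ring
    have e4 : ∑ s, ∑ t, G s t = ∑ j, (star (ψ j) * ψ j) * ((d : ℂ) * κ *
        ∑ s, (if e * (s + j) = 0 then (1 : ℂ) else 0)) := by
      simp only [e2, e3]
      rw [Finset.sum_comm]
      refine Finset.sum_congr rfl fun j _ => ?_
      rw [← Finset.mul_sum, ← Finset.mul_sum]
    have e5 : ∀ j : ZMod d, ∑ s, (if e * (s + j) = 0 then (1 : ℂ) else 0) = (N0 : ℂ) := by
      intro j
      rw [Fintype.sum_equiv (Equiv.addRight j) (fun s : ZMod d => if e * (s + j) = 0 then (1 : ℂ)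
        else 0) (fun s : ZMod d => if e * s = 0 then (1 : ℂ) else 0) (fun s => rfl), hN0,
        Complex.ofReal_sum]
      refine Finset.sum_congr rfl fun s _ => ?_
      split_ifs <;> simp
    rw [e4]
    simp only [e5]
    rw [← Finset.sum_mul]
    have e6 : ∑ j, star (ψ j) * ψ j = 1 := by
      rw [← h1]
      simp [F]
    rw [e6]; ring
  have hre : N0 ^ 2 + (∑ s, ∑ t, z s t : ℤ) * q⁻¹ = (d : ℝ) * N0 * r := by
    have e1 := congrArg Complex.re hsum
    rw [hr] at e1
    have e2 : ((d : ℂ) * (N0 : ℂ) * ((r : ℤ) : ℂ)).re = (d : ℝ) * N0 * r := by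
      have : ((d : ℂ) * (N0 : ℂ) * ((r : ℤ) : ℂ)) = (((d : ℝ) * N0 * r : ℝ) : ℂ) := by push_cast; rfl
      rw [this, Complex.ofReal_re]
    rw [e2, Complex.re_sum] at e1
    simp only [Complex.re_sum, hz] at e1
    rw [← e1]
    simp only [Finset.sum_add_distrib, ← Finset.mul_sum, ← Finset.sum_mul]
    rw [← hN0]
    push_cast
    ring
  -- conclusion
  have hN0i : ∃ n : ℕ, N0 = n ∧ 1 ≤ n ∧ n < d := by
    refine ⟨(Finset.univ.filter (fun s : ZMod d => e * s = 0)).card, ?_, ?_, ?_⟩
    · rw [hN0, Finset.sum_boole]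
    · exact Finset.card_pos.2 ⟨0, by simp⟩
    · have hlt := Finset.card_lt_card (s := Finset.univ.filter (fun s : ZMod d => e * s = 0))
        (t := Finset.univ) (Finset.ssubset_univ_iff.2 fun hcon => by
          have : (1 : ZMod d) ∈ Finset.univ.filter (fun s : ZMod d => e * s = 0) := by
            rw [hcon]; exact Finset.mem_univ _
          rw [Finset.mem_filter, mul_one] at this
          exact hε1 (by rw [he] at this; linear_combination -this.2))
      rwa [Finset.card_univ, ZMod.card] at hlt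
  obtain ⟨n, hn, hn1, hn2⟩ := hN0i
  by_contra hsq
  have hirr : Irrational (√((d + 1 : ℕ) : ℝ)) := irrational_sqrt_natCast_iff.2 hsq
  have hq' : √((d + 1 : ℕ) : ℝ) = q := by rw [hq]; push_cast; rfl
  rw [hq'] at hirr
  set M : ℤ := ∑ s, ∑ t, z s t with hM
  have hn1' : (1 : ℝ) ≤ n := by exact_mod_cast hn1
  have hn2' : (n : ℝ) < d := by exact_mod_cast hn2
  have hA : (d : ℝ) * n * r - n ^ 2 ≠ 0 := by
    rcases hr2 with rfl | rfl
    · have : (0 : ℝ) < d * n - n ^ 2 := by nlinarith
      push_cast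
      rw [mul_one]
      exact this.ne'
    · push_cast
      have : (d : ℝ) * n * (-1) - n ^ 2 < 0 := by nlinarith
      exact this.ne
  have h3 : (M : ℝ) * q⁻¹ = (d : ℝ) * n * r - n ^ 2 := by
    rw [hn] at hre; linarith
  apply hirr
  refine ⟨(M : ℚ) / ((d : ℚ) * n * r - n ^ 2), ?_⟩
  push_cast
  rw [← h3]
  have hM0 : (M : ℝ) ≠ 0 := by
    intro h0
    rw [h0, zero_mul] at h3
    exact hA h3.symm
  field_simp

/-- **Symmetries of even order.** -/
theorem main (hd : Odd d) {ψ : ZMod d → ℂ} (h1 : F ψ 0 0 = 1)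
    (h2 : ∀ k l, (k, l) ≠ (0, 0) → ‖F ψ k l‖ ^ 2 = 1 / ((d : ℝ) + 1))
    {V : Matrix (ZMod d) (ZMod d) ℂ} (hV : IsUnit V) (hC : ∀ p, ∃ q, Cl V p q)
    {s : ℂ} (hVV : V * V = s • (1 : Matrix (ZMod d) (ZMod d) ℂ))
    {c : ℂ} (hc : V *ᵥ ψ = c • ψ) (hns : ¬ ∃ t : ℂ, V = t • (1 : Matrix (ZMod d) (ZMod d) ℂ)) :
    IsSquare (d + 1) := by
  obtain ⟨η, hη⟩ := exists_half hd
  have hs : s ≠ 0 := by
    rintro rfl
    rw [zero_smul] at hVV
    have h3 : IsUnit (V * V) := hV.mul hV
    rw [hVV] at h3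
    exact not_isUnit_zero h3
  obtain ⟨ε, α, β, g, hε, hα, hβ, hg, hform⟩ := shape hd hV hs hVV hC
  have hε1 : ε ≠ 1 := by
    rintro rfl
    have hβ0 : β = 0 := by
      calc β = (2 * η) * β := by rw [hη, one_mul]
        _ = η * (β * (1 + 1)) := by ring
        _ = 0 := by rw [hβ, mul_zero]
    have hα0 : α = 0 := by
      calc α = (2 * η) * α := by rw [hη, one_mul]
        _ = η * (α * (1 + 1)) := by ring
        _ = 0 := by rw [hα, mul_zero]
    apply hns
    refine ⟨g, ?_⟩
    ext i j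
    rw [hform i j, hα0, hβ0, Matrix.smul_apply, Matrix.one_apply, smul_eq_mul]
    simp only [zero_mul, AddChar.map_zero_eq_one, mul_one, one_mul, add_zero]
    by_cases h : i = j
    · rw [if_pos h, if_pos h.symm]; simp
    · rw [if_neg h, if_neg (fun h' => h h'.symm)]; simp
  -- the eigenvalue equation
  have hev : ∀ i, g * ch (α * ε * i) * ψ (ε * i + β) = c * ψ i := by
    intro i
    have h3 := congrFun hc i
    simp only [mulVec, dotProduct, Pi.smul_apply, smul_eq_mul] at h3
    rw [Finset.sum_eq_single (ε * i + β)] at h3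
    · rw [hform, if_pos rfl] at h3
      exact h3
    · intro j _ hj
      rw [hform, if_neg hj, zero_mul]
    · intro h
      exact absurd (Finset.mem_univ _) h
  have hαε : α * ε = -α := by linear_combination hα
  have hβε : ε * β = -β := by linear_combination hβ
  set φ : ZMod d → ℂ := fun i => ch (α * η * i) * ψ (i + η * β) with hφ
  have hF : ∀ k l, F φ k l = ch (-(α * η * k)) * ch (-(l * (η * β))) * F ψ k l := by
    intro k l
    simp only [F, hφ, Finset.mul_sum]
    rw [← Equiv.sum_comp (Equiv.addRight (η * β)) (fun j => ch (-(α * η * k)) *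
      ch (-(l * (η * β))) * (star (ψ (j + k)) * (ch (l * j) * ψ j)))]
    refine Finset.sum_congr rfl fun j _ => ?_
    simp only [Equiv.coe_addRight, star_mul', ch_star]
    have e1 : ch (-(α * η * (j + k))) * ch (l * j) * ch (α * η * j)
        = ch (-(α * η * k)) * ch (-(l * (η * β))) * ch (l * (j + η * β)) := by
      rw [← AddChar.map_add_eq_mul, ← AddChar.map_add_eq_mul, ← AddChar.map_add_eq_mul,
        ← AddChar.map_add_eq_mul]
      congr 1
      ring
    rw [show j + k + η * β = j + η * β + k by ring]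
    calc ch (-(α * η * (j + k))) * star (ψ (j + η * β + k)) * (ch (l * j) *
          (ch (α * η * j) * ψ (j + η * β)))
        = (ch (-(α * η * (j + k))) * ch (l * j) * ch (α * η * j)) *
          (star (ψ (j + η * β + k)) * ψ (j + η * β)) := by ring
      _ = _ := by rw [e1]; ring
  refine key hd (ψ := φ) ?_ ?_ hε hε1 (κ := c * g⁻¹ * ch (α * η * β)) ?_
  · rw [hF, h1]; simp
  · intro k l hkl
    rw [hF, norm_mul, norm_mul, AddChar.norm_apply, AddChar.norm_apply, one_mul, one_mul]
    exact h2 k l hkl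
  · intro i
    simp only [hφ]
    have e1 := hev (i + η * β)
    have e2 : ε * (i + η * β) + β = ε * i + η * β := by
      linear_combination η * hβε - β * hη
    have e3 : α * ε * (i + η * β) = -(α * (i + η * β)) := by rw [hαε]; ring
    rw [e2, e3] at e1
    have e4 : ψ (ε * i + η * β) = c * g⁻¹ * (ch (α * (i + η * β)) * ψ (i + η * β)) := by
      have h5 : ch (-(α * (i + η * β))) * ch (α * (i + η * β)) = (1 : ℂ) := by
        rw [← AddChar.map_add_eq_mul, neg_add_cancel, AddChar.map_zero_eq_one]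
      calc ψ (ε * i + η * β)
          = (ch (-(α * (i + η * β))) * ch (α * (i + η * β))) * (g * g⁻¹) * ψ (ε * i + η * β) := by
            rw [h5, mul_inv_cancel₀ hg, one_mul, one_mul]
        _ = g⁻¹ * ch (α * (i + η * β)) * (g * ch (-(α * (i + η * β))) * ψ (ε * i + η * β)) := by
            ring
        _ = _ := by rw [e1]; ring
    rw [e4]
    have e5 : ch (α * η * (ε * i)) * ch (α * (i + η * β)) = ch (α * η * β) * ch (α * η * i) := by
      rw [← AddChar.map_add_eq_mul, ← AddChar.map_add_eq_mul]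
      congr 1
      linear_combination (η * i) * hαε - (α * i) * hη
    calc ch (α * η * (ε * i)) * (c * g⁻¹ * (ch (α * (i + η * β)) * ψ (i + η * β)))
        = c * g⁻¹ * (ch (α * η * (ε * i)) * ch (α * (i + η * β))) * ψ (i + η * β) := by ring
      _ = _ := by rw [e5]; ring

/-- The normaliser condition is inherited by powers. -/
lemma pow_cl {U : Matrix (ZMod d) (ZMod d) ℂ} (hC : ∀ p, ∃ q, Cl U p q) (m : ℕ) :
    ∀ p, ∃ q, Cl (U ^ m) p q := by
  induction m with
  | zero => intro p; exact ⟨p, 1, one_ne_zero, by simp⟩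
  | succ m ih =>
    intro p
    obtain ⟨q, c, hc, h⟩ := hC p
    obtain ⟨r, c', hc', h'⟩ := ih q
    refine ⟨r, c * c', mul_ne_zero hc hc', ?_⟩
    rw [pow_succ, Matrix.mul_assoc, h, Matrix.mul_smul, ← Matrix.mul_assoc, h', Matrix.smul_mul,
      smul_smul, Matrix.mul_assoc]

end Pool.Agent.X103.Sic
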